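import Pool.Agent.CXD.M_X10_X12_T_0
import Pool.Agent.CXD.M_X10_X12_T_1
import Pool.Agent.CXD.M_X10_X12_T_2
import Pool.Agent.CXD.M_X12_X10_T_0
import Pool.Agent.CXD.M_X12_X10_T_1
import Pool.Agent.CXD.M_X12_X10_T_2
import Pool.Agent.Helper81.MIT.SubX
import Pool.Agent.Helper81.TK.GR2

/-!
The row `(10, 12, r)`, `r` at least `15`.
-/

set_option autoImplicit false
set_option exponentiation.threshold 4000
noncomputable section
namespace Pool.Agent.Helper81.HD.R10_12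

open Pool.Agent.Helper81.MIT
open Pool.Agent.Helper6.MONO (Thr fB xA FinAt Kp)
open Pool.Agent.Helper57.U2 (TCellU)
open Pool.Agent.Helper84.ST (QXS)
open Pool.Agent.Helper84.XL (XH)
open Pool.Agent.Helper86.C75 (Z)
open Pool.Agent.Helper90.KMO (zv)
open Pool.Agent.Helper21.KTE (KS)
open Pool.Agent.Helper57.XL (chkX hX_of okx)


theorem nA151_15 {r : ℕ} (h1 : 15 ≤ r) (h2 : r ≤ 17) : TCellU 10 12 r (xA 10 12 r) 0 ((122160139892424 : ℕ) / 2 ^ 48) := by
  have k0 : TCellU 10 12 r (xA 10 12 r) 0 ((18573344487440 : ℕ) / 2 ^ 48) := tcu_sub (Pool.Agent.CXD.tX10_X12T_nearG15_17 (inB_ok (P := (15, 17)) (b := (550648146034688, 553364660944896)) (by decide +kernel) ⟨h1, Or.inr h2⟩) (by omega) (by omega)) (by norm_num) le_rfl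
  have k1 : TCellU 10 12 r (xA 10 12 r) 0 ((122160139892424 : ℕ) / 2 ^ 48) := tcu_join k0 (Pool.Agent.CXD.tX10_X12T_nearH15_21 (inB_ok (P := (15, 17)) (b := (550648146034688, 556662267838464)) (by decide +kernel) ⟨h1, Or.inr h2⟩) (by omega) (by omega)) (by norm_num) (by norm_num)
  exact tcu_sub k1 le_rfl (by norm_num)

theorem nA151_18 {r : ℕ} (h1 : 18 ≤ r) (h2 : r ≤ 21) : TCellU 10 12 r (xA 10 12 r) 0 ((122160139892424 : ℕ) / 2 ^ 48) := by
  have k0 : TCellU 10 12 r (xA 10 12 r) 0 ((14399573679936 : ℕ) / 2 ^ 48) := tcu_sub (Pool.Agent.CXD.tX10_X12T_nearG18_21 (inB_ok (P := (18, 21)) (b := (554397478420480, 556662267838464)) (by decide +kernel) ⟨h1, Or.inr h2⟩) (by omega) (by omega)) (by norm_num) le_rfl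
  have k1 : TCellU 10 12 r (xA 10 12 r) 0 ((17837664416064 : ℕ) / 2 ^ 48) := tcu_join k0 (Pool.Agent.CXD.tX10_X12T_nearK18_21 (inB_ok (P := (18, 21)) (b := (554397478420480, 556662267838464)) (by decide +kernel) ⟨h1, Or.inr h2⟩) (by omega) (by omega)) (by norm_num) (by norm_num)
  have k2 : TCellU 10 12 r (xA 10 12 r) 0 ((122160139892424 : ℕ) / 2 ^ 48) := tcu_join k1 (Pool.Agent.CXD.tX10_X12T_nearH15_21 (inB_ok (P := (18, 21)) (b := (550648146034688, 556662267838464)) (by decide +kernel) ⟨h1, Or.inr h2⟩) (by omega) (by omega)) (by norm_num) (by norm_num)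
  exact tcu_sub k2 le_rfl (by norm_num)

theorem nA151_22 {r : ℕ} (h1 : 22 ≤ r) (h2 : r ≤ 29) : TCellU 10 12 r (xA 10 12 r) 0 ((122160139892424 : ℕ) / 2 ^ 48) := by
  have k0 : TCellU 10 12 r (xA 10 12 r) 0 ((12701387272964 : ℕ) / 2 ^ 48) := tcu_sub (Pool.Agent.CXD.tX10_X12T_nearG22_29 (inB_ok (P := (22, 29)) (b := (557219934371840, 559649916715008)) (by decide +kernel) ⟨h1, Or.inr h2⟩) (by omega) (by omega)) (by norm_num) le_rfl
  have k1 : TCellU 10 12 r (xA 10 12 r) 0 ((122160139892424 : ℕ) / 2 ^ 48) := tcu_join k0 (Pool.Agent.CXD.tX10_X12T_nearH22_oo (inB_ok (P := (22, 29)) (b := (557219934371840, 562949953421312)) (by decide +kernel) ⟨h1, Or.inr h2⟩) (by omega) (by omega)) (by norm_num) (by norm_num)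
  exact tcu_sub k1 le_rfl (by norm_num)

theorem nA151_30 {r : ℕ} (h1 : 30 ≤ r) : TCellU 10 12 r (xA 10 12 r) 0 ((122160139892424 : ℕ) / 2 ^ 48) := by
  have k0 : TCellU 10 12 r (xA 10 12 r) 0 ((13983765032052 : ℕ) / 2 ^ 48) := tcu_sub (Pool.Agent.CXD.tX10_X12T_nearG30_oo (inB_ok (P := (30, 0)) (b := (559866054443008, 562949953421312)) (by decide +kernel) ⟨h1, Or.inl rfl⟩) (by omega) (by omega)) (by norm_num) le_rfl
  have k1 : TCellU 10 12 r (xA 10 12 r) 0 ((122160139892424 : ℕ) / 2 ^ 48) := tcu_join k0 (Pool.Agent.CXD.tX10_X12T_nearH22_oo (inB_ok (P := (30, 0)) (b := (557219934371840, 562949953421312)) (by decide +kernel) ⟨h1, Or.inl rfl⟩) (by omega) (by omega)) (by norm_num) (by norm_num)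
  exact tcu_sub k1 le_rfl (by norm_num)

theorem nA151 {r : ℕ} (h1 : 15 ≤ r) : TCellU 10 12 r (xA 10 12 r) 0 ((122160139892424 : ℕ) / 2 ^ 48) := by
  rcases Nat.lt_or_ge r 18 with g | g
  · exact nA151_15 (by omega) (by omega)
  rcases Nat.lt_or_ge r 22 with g | g
  · exact nA151_18 (by omega) (by omega)
  rcases Nat.lt_or_ge r 30 with g | g
  · exact nA151_22 (by omega) (by omega)
  exact nA151_30 (by omega)

theorem qA151 {r : ℕ} (h1 : 15 ≤ r) : QXS 10 12 r (xA 10 12 r) :=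
  qxS_A (by norm_num) (by norm_num) (by omega) (by omega) Pool.Agent.Helper81.TK.E_10_12_T_mid2.T (hasP (N := 10) (by decide +kernel)) (hasP (N := 12) (by decide +kernel)) (inB_ok (P := (15, 0)) (b := (550648146034688, 562949953421312)) (by decide +kernel) ⟨h1, Or.inl rfl⟩) (nA151 h1)
    (by norm_num) (by norm_num) (by norm_num) (far3 (L := 510531571533833) (H := 528707531695633) (by norm_num) (by norm_num) (by omega) (xaB_ok (lo := 510531571533833) (hi := 528707531695633) (i := (10, 10)) (j := (12, 12)) (k := (15, 0)) (by decide +kernel) ⟨le_rfl, Or.inr le_rfl⟩ ⟨le_rfl, Or.inr le_rfl⟩ ⟨h1, Or.inl rfl⟩) (by norm_num) (by norm_num))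

theorem nA152_15 {r : ℕ} (h1 : 15 ≤ r) (h2 : r ≤ 17) : TCellU 12 10 r (xA 12 10 r) 0 ((122160139892424 : ℕ) / 2 ^ 48) := by
  have k0 : TCellU 12 10 r (xA 12 10 r) 0 ((14384725217868 : ℕ) / 2 ^ 48) := tcu_sub (Pool.Agent.CXD.tX12X10T_nearG15_17 (inB_ok (P := (15, 17)) (b := (550648146034688, 553364660944896)) (by decide +kernel) ⟨h1, Or.inr h2⟩) (by omega) (by omega)) (by norm_num) le_rfl
  have k1 : TCellU 12 10 r (xA 12 10 r) 0 ((16989616200420 : ℕ) / 2 ^ 48) := tcu_join k0 (Pool.Agent.CXD.tX12X10T_nearK15_17 (inB_ok (P := (15, 17)) (b := (550648146034688, 553364660944896)) (by decide +kernel) ⟨h1, Or.inr h2⟩) (by omega) (by omega)) (by norm_num) (by norm_num)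
  have k2 : TCellU 12 10 r (xA 12 10 r) 0 ((122160139892424 : ℕ) / 2 ^ 48) := tcu_join k1 (Pool.Agent.CXD.tX12X10T_nearH15_21 (inB_ok (P := (15, 17)) (b := (550648146034688, 556662267838464)) (by decide +kernel) ⟨h1, Or.inr h2⟩) (by omega) (by omega)) (by norm_num) (by norm_num)
  exact tcu_sub k2 le_rfl (by norm_num)

theorem nA152_18 {r : ℕ} (h1 : 18 ≤ r) (h2 : r ≤ 21) : TCellU 12 10 r (xA 12 10 r) 0 ((122160139892424 : ℕ) / 2 ^ 48) := by
  have k0 : TCellU 12 10 r (xA 12 10 r) 0 ((9973353043460 : ℕ) / 2 ^ 48) := tcu_sub (Pool.Agent.CXD.tX12X10T_nearG18_21 (inB_ok (P := (18, 21)) (b := (554397478420480, 556662267838464)) (by decide +kernel) ⟨h1, Or.inr h2⟩) (by omega) (by omega)) (by norm_num) le_rfl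
  have k1 : TCellU 12 10 r (xA 12 10 r) 0 ((16989616200420 : ℕ) / 2 ^ 48) := tcu_join k0 (Pool.Agent.CXD.tX12X10T_nearK18_21 (inB_ok (P := (18, 21)) (b := (554397478420480, 556662267838464)) (by decide +kernel) ⟨h1, Or.inr h2⟩) (by omega) (by omega)) (by norm_num) (by norm_num)
  have k2 : TCellU 12 10 r (xA 12 10 r) 0 ((122160139892424 : ℕ) / 2 ^ 48) := tcu_join k1 (Pool.Agent.CXD.tX12X10T_nearH15_21 (inB_ok (P := (18, 21)) (b := (550648146034688, 556662267838464)) (by decide +kernel) ⟨h1, Or.inr h2⟩) (by omega) (by omega)) (by norm_num) (by norm_num)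
  exact tcu_sub k2 le_rfl (by norm_num)

theorem nA152_22 {r : ℕ} (h1 : 22 ≤ r) (h2 : r ≤ 29) : TCellU 12 10 r (xA 12 10 r) 0 ((122160139892424 : ℕ) / 2 ^ 48) := by
  have k0 : TCellU 12 10 r (xA 12 10 r) 0 ((13219907706428 : ℕ) / 2 ^ 48) := tcu_sub (Pool.Agent.CXD.tX12X10T_nearG22_29 (inB_ok (P := (22, 29)) (b := (557219934371840, 559649916715008)) (by decide +kernel) ⟨h1, Or.inr h2⟩) (by omega) (by omega)) (by norm_num) le_rfl
  have k1 : TCellU 12 10 r (xA 12 10 r) 0 ((122160139892424 : ℕ) / 2 ^ 48) := tcu_join k0 (Pool.Agent.CXD.tX12X10T_nearH22_oo (inB_ok (P := (22, 29)) (b := (557219934371840, 562949953421312)) (by decide +kernel) ⟨h1, Or.inr h2⟩) (by omega) (by omega)) (by norm_num) (by norm_num)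
  exact tcu_sub k1 le_rfl (by norm_num)

theorem nA152_30 {r : ℕ} (h1 : 30 ≤ r) : TCellU 12 10 r (xA 12 10 r) 0 ((122160139892424 : ℕ) / 2 ^ 48) := by
  have k0 : TCellU 12 10 r (xA 12 10 r) 0 ((11716143965408 : ℕ) / 2 ^ 48) := tcu_sub (Pool.Agent.CXD.tX12X10T_nearG30_oo (inB_ok (P := (30, 0)) (b := (559866054443008, 562949953421312)) (by decide +kernel) ⟨h1, Or.inl rfl⟩) (by omega) (by omega)) (by norm_num) le_rfl
  have k1 : TCellU 12 10 r (xA 12 10 r) 0 ((12666373951980 : ℕ) / 2 ^ 48) := tcu_join k0 (Pool.Agent.CXD.tX12X10T_nearK30_oo (inB_ok (P := (30, 0)) (b := (559866054443008, 562949953421312)) (by decide +kernel) ⟨h1, Or.inl rfl⟩) (by omega) (by omega)) (by norm_num) (by norm_num)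
  have k2 : TCellU 12 10 r (xA 12 10 r) 0 ((122160139892424 : ℕ) / 2 ^ 48) := tcu_join k1 (Pool.Agent.CXD.tX12X10T_nearH22_oo (inB_ok (P := (30, 0)) (b := (557219934371840, 562949953421312)) (by decide +kernel) ⟨h1, Or.inl rfl⟩) (by omega) (by omega)) (by norm_num) (by norm_num)
  exact tcu_sub k2 le_rfl (by norm_num)

theorem nA152 {r : ℕ} (h1 : 15 ≤ r) : TCellU 12 10 r (xA 12 10 r) 0 ((122160139892424 : ℕ) / 2 ^ 48) := by
  rcases Nat.lt_or_ge r 18 with g | g
  · exact nA152_15 (by omega) (by omega)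
  rcases Nat.lt_or_ge r 22 with g | g
  · exact nA152_18 (by omega) (by omega)
  rcases Nat.lt_or_ge r 30 with g | g
  · exact nA152_22 (by omega) (by omega)
  exact nA152_30 (by omega)

theorem qA152 {r : ℕ} (h1 : 15 ≤ r) : QXS 12 10 r (xA 12 10 r) :=
  qxS_A (by norm_num) (by norm_num) (by omega) (by omega) Pool.Agent.Helper81.TK.E_12_10_T_mid2.T (hasP (N := 12) (by decide +kernel)) (hasP (N := 10) (by decide +kernel)) (inB_ok (P := (15, 0)) (b := (550648146034688, 562949953421312)) (by decide +kernel) ⟨h1, Or.inl rfl⟩) (nA152 h1)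
    (by norm_num) (by norm_num) (by norm_num) (far3 (L := 510531571533833) (H := 528707531695633) (by norm_num) (by norm_num) (by omega) (xaB_ok (lo := 510531571533833) (hi := 528707531695633) (i := (12, 12)) (j := (10, 10)) (k := (15, 0)) (by decide +kernel) ⟨le_rfl, Or.inr le_rfl⟩ ⟨le_rfl, Or.inr le_rfl⟩ ⟨h1, Or.inl rfl⟩) (by norm_num) (by norm_num))

theorem fA15 {r : ℕ} (h1 : 15 ≤ r) : FinAt 10 12 r :=
  row_Ac (by norm_num) (by norm_num) (by omega) (by omega) (qA151 h1) (qA152 h1)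

/-- the row `(10, 12, r)` -/
theorem row_10_12 : ∀ r, 15 ≤ r → FinAt 10 12 r := by
  intro r hr
  exact fA15 (by omega)

end Pool.Agent.Helper81.HD.R10_12
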