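import Pool.Agent.CXD.M_X10_X13_T_0
import Pool.Agent.CXD.M_X10_X13_T_1
import Pool.Agent.CXD.M_X10_X13_T_2
import Pool.Agent.CXD.M_X10_X13_T_3
import Pool.Agent.CXD.M_X10_X13_T_4
import Pool.Agent.CXD.M_X13_X10_T_0
import Pool.Agent.CXD.M_X13_X10_T_1
import Pool.Agent.CXD.M_X13_X10_T_2
import Pool.Agent.Helper81.MIT.SubX
import Pool.Agent.Helper81.TK.GR2

/-!
The row `(10, 13, r)`, `r` at least `15`.
-/

set_option autoImplicit false
set_option exponentiation.threshold 4000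
noncomputable section
namespace Pool.Agent.Helper81.HD.R10_13

open Pool.Agent.Helper81.MIT
open Pool.Agent.Helper6.MONO (Thr fB xA FinAt Kp)
open Pool.Agent.Helper57.U2 (TCellU)
open Pool.Agent.Helper84.ST (QXS)
open Pool.Agent.Helper84.XL (XH)
open Pool.Agent.Helper86.C75 (Z)
open Pool.Agent.Helper90.KMO (zv)
open Pool.Agent.Helper21.KTE (KS)
open Pool.Agent.Helper57.XL (chkX hX_of okx)


theorem nA151_15 {r : ℕ} (h1 : 15 ≤ r) (h2 : r ≤ 15) : TCellU 10 13 r (xA 10 13 r) 0 ((122160139892424 : ℕ) / 2 ^ 48) := by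
  have k0 : TCellU 10 13 r (xA 10 13 r) 0 ((22868687642436 : ℕ) / 2 ^ 48) := tcu_sub (Pool.Agent.CXD.tX10_X13T_nearG15_15 (inB_ok (P := (15, 15)) (b := (550507408785408, 550788883808256)) (by decide +kernel) ⟨h1, Or.inr h2⟩) (by omega) (by omega)) (by norm_num) le_rfl
  have k1 : TCellU 10 13 r (xA 10 13 r) 0 ((25113690615176 : ℕ) / 2 ^ 48) := tcu_join k0 (Pool.Agent.CXD.tX10_X13T_nearK15_17 (inB_ok (P := (15, 15)) (b := (550648146034688, 553364660944896)) (by decide +kernel) ⟨h1, Or.inr h2⟩) (by omega) (by omega)) (by norm_num) (by norm_num)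
  have k2 : TCellU 10 13 r (xA 10 13 r) 0 ((122160139892424 : ℕ) / 2 ^ 48) := tcu_join k1 (Pool.Agent.CXD.tX10_X13T_nearH15_21 (inB_ok (P := (15, 15)) (b := (550648146034688, 556662267838464)) (by decide +kernel) ⟨h1, Or.inr h2⟩) (by omega) (by omega)) (by norm_num) (by norm_num)
  exact tcu_sub k2 le_rfl (by norm_num)

theorem nA151_16 {r : ℕ} (h1 : 16 ≤ r) (h2 : r ≤ 17) : TCellU 10 13 r (xA 10 13 r) 0 ((122160139892424 : ℕ) / 2 ^ 48) := by
  have k0 : TCellU 10 13 r (xA 10 13 r) 0 ((22868687642436 : ℕ) / 2 ^ 48) := tcu_sub (Pool.Agent.CXD.tX10_X13T_nearG16_17 (inB_ok (P := (16, 17)) (b := (552133027692544, 553364660944896)) (by decide +kernel) ⟨h1, Or.inr h2⟩) (by omega) (by omega)) (by norm_num) le_rfl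
  have k1 : TCellU 10 13 r (xA 10 13 r) 0 ((25113690615176 : ℕ) / 2 ^ 48) := tcu_join k0 (Pool.Agent.CXD.tX10_X13T_nearK15_17 (inB_ok (P := (16, 17)) (b := (550648146034688, 553364660944896)) (by decide +kernel) ⟨h1, Or.inr h2⟩) (by omega) (by omega)) (by norm_num) (by norm_num)
  have k2 : TCellU 10 13 r (xA 10 13 r) 0 ((122160139892424 : ℕ) / 2 ^ 48) := tcu_join k1 (Pool.Agent.CXD.tX10_X13T_nearH15_21 (inB_ok (P := (16, 17)) (b := (550648146034688, 556662267838464)) (by decide +kernel) ⟨h1, Or.inr h2⟩) (by omega) (by omega)) (by norm_num) (by norm_num)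
  exact tcu_sub k2 le_rfl (by norm_num)

theorem nA151_18 {r : ℕ} (h1 : 18 ≤ r) (h2 : r ≤ 21) : TCellU 10 13 r (xA 10 13 r) 0 ((122160139892424 : ℕ) / 2 ^ 48) := by
  have k0 : TCellU 10 13 r (xA 10 13 r) 0 ((18661864820552 : ℕ) / 2 ^ 48) := tcu_sub (Pool.Agent.CXD.tX10_X13T_nearG18_21 (inB_ok (P := (18, 21)) (b := (554397478420480, 556662267838464)) (by decide +kernel) ⟨h1, Or.inr h2⟩) (by omega) (by omega)) (by norm_num) le_rfl
  have k1 : TCellU 10 13 r (xA 10 13 r) 0 ((25113690615176 : ℕ) / 2 ^ 48) := tcu_join k0 (Pool.Agent.CXD.tX10_X13T_nearK18_21 (inB_ok (P := (18, 21)) (b := (554397478420480, 556662267838464)) (by decide +kernel) ⟨h1, Or.inr h2⟩) (by omega) (by omega)) (by norm_num) (by norm_num)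
  have k2 : TCellU 10 13 r (xA 10 13 r) 0 ((122160139892424 : ℕ) / 2 ^ 48) := tcu_join k1 (Pool.Agent.CXD.tX10_X13T_nearH15_21 (inB_ok (P := (18, 21)) (b := (550648146034688, 556662267838464)) (by decide +kernel) ⟨h1, Or.inr h2⟩) (by omega) (by omega)) (by norm_num) (by norm_num)
  exact tcu_sub k2 le_rfl (by norm_num)

theorem nA151_22 {r : ℕ} (h1 : 22 ≤ r) (h2 : r ≤ 29) : TCellU 10 13 r (xA 10 13 r) 0 ((122160139892424 : ℕ) / 2 ^ 48) := by
  have k0 : TCellU 10 13 r (xA 10 13 r) 0 ((16981433727236 : ℕ) / 2 ^ 48) := tcu_sub (Pool.Agent.CXD.tX10_X13T_nearG22_29 (inB_ok (P := (22, 29)) (b := (557219934371840, 559649916715008)) (by decide +kernel) ⟨h1, Or.inr h2⟩) (by omega) (by omega)) (by norm_num) le_rfl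
  have k1 : TCellU 10 13 r (xA 10 13 r) 0 ((122160139892424 : ℕ) / 2 ^ 48) := tcu_join k0 (Pool.Agent.CXD.tX10_X13T_nearH22_oo (inB_ok (P := (22, 29)) (b := (557219934371840, 562949953421312)) (by decide +kernel) ⟨h1, Or.inr h2⟩) (by omega) (by omega)) (by norm_num) (by norm_num)
  exact tcu_sub k1 le_rfl (by norm_num)

theorem nA151_30 {r : ℕ} (h1 : 30 ≤ r) : TCellU 10 13 r (xA 10 13 r) 0 ((122160139892424 : ℕ) / 2 ^ 48) := by
  have k0 : TCellU 10 13 r (xA 10 13 r) 0 ((16981433727236 : ℕ) / 2 ^ 48) := tcu_sub (Pool.Agent.CXD.tX10_X13T_nearG30_oo (inB_ok (P := (30, 0)) (b := (559866054443008, 562949953421312)) (by decide +kernel) ⟨h1, Or.inl rfl⟩) (by omega) (by omega)) (by norm_num) le_rfl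
  have k1 : TCellU 10 13 r (xA 10 13 r) 0 ((122160139892424 : ℕ) / 2 ^ 48) := tcu_join k0 (Pool.Agent.CXD.tX10_X13T_nearH22_oo (inB_ok (P := (30, 0)) (b := (557219934371840, 562949953421312)) (by decide +kernel) ⟨h1, Or.inl rfl⟩) (by omega) (by omega)) (by norm_num) (by norm_num)
  exact tcu_sub k1 le_rfl (by norm_num)

theorem nA151 {r : ℕ} (h1 : 15 ≤ r) : TCellU 10 13 r (xA 10 13 r) 0 ((122160139892424 : ℕ) / 2 ^ 48) := by
  rcases Nat.lt_or_ge r 16 with g | g
  · exact nA151_15 (by omega) (by omega)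
  rcases Nat.lt_or_ge r 18 with g | g
  · exact nA151_16 (by omega) (by omega)
  rcases Nat.lt_or_ge r 22 with g | g
  · exact nA151_18 (by omega) (by omega)
  rcases Nat.lt_or_ge r 30 with g | g
  · exact nA151_22 (by omega) (by omega)
  exact nA151_30 (by omega)

theorem qA151 {r : ℕ} (h1 : 15 ≤ r) : QXS 10 13 r (xA 10 13 r) :=
  qxS_A (by norm_num) (by norm_num) (by omega) (by omega) Pool.Agent.Helper81.TK.E_10_13_T_mid2.T (hasP (N := 10) (by decide +kernel)) (hasP (N := 13) (by decide +kernel)) (inB_ok (P := (15, 0)) (b := (550648146034688, 562949953421312)) (by decide +kernel) ⟨h1, Or.inl rfl⟩) (nA151 h1)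
    (by norm_num) (by norm_num) (by norm_num) (far3 (L := 513251331457033) (H := 531453076147250) (by norm_num) (by norm_num) (by omega) (xaB_ok (lo := 513251331457033) (hi := 531453076147250) (i := (10, 10)) (j := (13, 13)) (k := (15, 0)) (by decide +kernel) ⟨le_rfl, Or.inr le_rfl⟩ ⟨le_rfl, Or.inr le_rfl⟩ ⟨h1, Or.inl rfl⟩) (by norm_num) (by norm_num))

theorem nA152_15 {r : ℕ} (h1 : 15 ≤ r) (h2 : r ≤ 17) : TCellU 13 10 r (xA 13 10 r) 0 ((122160139892424 : ℕ) / 2 ^ 48) := by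
  have k0 : TCellU 13 10 r (xA 13 10 r) 0 ((22694464482884 : ℕ) / 2 ^ 48) := tcu_sub (Pool.Agent.CXD.tX13X10T_nearG15_17 (inB_ok (P := (15, 17)) (b := (550648146034688, 553364660944896)) (by decide +kernel) ⟨h1, Or.inr h2⟩) (by omega) (by omega)) (by norm_num) le_rfl
  have k1 : TCellU 13 10 r (xA 13 10 r) 0 ((26960540915652 : ℕ) / 2 ^ 48) := tcu_join k0 (Pool.Agent.CXD.tX13X10T_nearK15_17 (inB_ok (P := (15, 17)) (b := (550648146034688, 553364660944896)) (by decide +kernel) ⟨h1, Or.inr h2⟩) (by omega) (by omega)) (by norm_num) (by norm_num)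
  have k2 : TCellU 13 10 r (xA 13 10 r) 0 ((122160139892424 : ℕ) / 2 ^ 48) := tcu_join k1 (Pool.Agent.CXD.tX13X10T_nearH15_21 (inB_ok (P := (15, 17)) (b := (550648146034688, 556662267838464)) (by decide +kernel) ⟨h1, Or.inr h2⟩) (by omega) (by omega)) (by norm_num) (by norm_num)
  exact tcu_sub k2 le_rfl (by norm_num)

theorem nA152_18 {r : ℕ} (h1 : 18 ≤ r) (h2 : r ≤ 21) : TCellU 13 10 r (xA 13 10 r) 0 ((122160139892424 : ℕ) / 2 ^ 48) := by
  have k0 : TCellU 13 10 r (xA 13 10 r) 0 ((19652066719564 : ℕ) / 2 ^ 48) := tcu_sub (Pool.Agent.CXD.tX13X10T_nearG18_21 (inB_ok (P := (18, 21)) (b := (554397478420480, 556662267838464)) (by decide +kernel) ⟨h1, Or.inr h2⟩) (by omega) (by omega)) (by norm_num) le_rfl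
  have k1 : TCellU 13 10 r (xA 13 10 r) 0 ((26960540915652 : ℕ) / 2 ^ 48) := tcu_join k0 (Pool.Agent.CXD.tX13X10T_nearK18_21 (inB_ok (P := (18, 21)) (b := (554397478420480, 556662267838464)) (by decide +kernel) ⟨h1, Or.inr h2⟩) (by omega) (by omega)) (by norm_num) (by norm_num)
  have k2 : TCellU 13 10 r (xA 13 10 r) 0 ((122160139892424 : ℕ) / 2 ^ 48) := tcu_join k1 (Pool.Agent.CXD.tX13X10T_nearH15_21 (inB_ok (P := (18, 21)) (b := (550648146034688, 556662267838464)) (by decide +kernel) ⟨h1, Or.inr h2⟩) (by omega) (by omega)) (by norm_num) (by norm_num)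
  exact tcu_sub k2 le_rfl (by norm_num)

theorem nA152_22 {r : ℕ} (h1 : 22 ≤ r) (h2 : r ≤ 29) : TCellU 13 10 r (xA 13 10 r) 0 ((122160139892424 : ℕ) / 2 ^ 48) := by
  have k0 : TCellU 13 10 r (xA 13 10 r) 0 ((11002956051528 : ℕ) / 2 ^ 48) := tcu_sub (Pool.Agent.CXD.tX13X10T_nearG22_29 (inB_ok (P := (22, 29)) (b := (557219934371840, 559649916715008)) (by decide +kernel) ⟨h1, Or.inr h2⟩) (by omega) (by omega)) (by norm_num) le_rfl
  have k1 : TCellU 13 10 r (xA 13 10 r) 0 ((12666373951980 : ℕ) / 2 ^ 48) := tcu_join k0 (Pool.Agent.CXD.tX13X10T_nearK22_29 (inB_ok (P := (22, 29)) (b := (557219934371840, 559649916715008)) (by decide +kernel) ⟨h1, Or.inr h2⟩) (by omega) (by omega)) (by norm_num) (by norm_num)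
  have k2 : TCellU 13 10 r (xA 13 10 r) 0 ((122160139892424 : ℕ) / 2 ^ 48) := tcu_join k1 (Pool.Agent.CXD.tX13X10T_nearH22_oo (inB_ok (P := (22, 29)) (b := (557219934371840, 562949953421312)) (by decide +kernel) ⟨h1, Or.inr h2⟩) (by omega) (by omega)) (by norm_num) (by norm_num)
  exact tcu_sub k2 le_rfl (by norm_num)

theorem nA152_30 {r : ℕ} (h1 : 30 ≤ r) : TCellU 13 10 r (xA 13 10 r) 0 ((122160139892424 : ℕ) / 2 ^ 48) := by
  have k0 : TCellU 13 10 r (xA 13 10 r) 0 ((11581107720956 : ℕ) / 2 ^ 48) := tcu_sub (Pool.Agent.CXD.tX13X10T_nearG30_oo (inB_ok (P := (30, 0)) (b := (559866054443008, 562949953421312)) (by decide +kernel) ⟨h1, Or.inl rfl⟩) (by omega) (by omega)) (by norm_num) le_rfl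
  have k1 : TCellU 13 10 r (xA 13 10 r) 0 ((12666373951980 : ℕ) / 2 ^ 48) := tcu_join k0 (Pool.Agent.CXD.tX13X10T_nearK30_oo (inB_ok (P := (30, 0)) (b := (559866054443008, 562949953421312)) (by decide +kernel) ⟨h1, Or.inl rfl⟩) (by omega) (by omega)) (by norm_num) (by norm_num)
  have k2 : TCellU 13 10 r (xA 13 10 r) 0 ((122160139892424 : ℕ) / 2 ^ 48) := tcu_join k1 (Pool.Agent.CXD.tX13X10T_nearH22_oo (inB_ok (P := (30, 0)) (b := (557219934371840, 562949953421312)) (by decide +kernel) ⟨h1, Or.inl rfl⟩) (by omega) (by omega)) (by norm_num) (by norm_num)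
  exact tcu_sub k2 le_rfl (by norm_num)

theorem nA152 {r : ℕ} (h1 : 15 ≤ r) : TCellU 13 10 r (xA 13 10 r) 0 ((122160139892424 : ℕ) / 2 ^ 48) := by
  rcases Nat.lt_or_ge r 18 with g | g
  · exact nA152_15 (by omega) (by omega)
  rcases Nat.lt_or_ge r 22 with g | g
  · exact nA152_18 (by omega) (by omega)
  rcases Nat.lt_or_ge r 30 with g | g
  · exact nA152_22 (by omega) (by omega)
  exact nA152_30 (by omega)

theorem qA152 {r : ℕ} (h1 : 15 ≤ r) : QXS 13 10 r (xA 13 10 r) :=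
  qxS_A (by norm_num) (by norm_num) (by omega) (by omega) Pool.Agent.Helper81.TK.E_13_10_T_mid2.T (hasP (N := 13) (by decide +kernel)) (hasP (N := 10) (by decide +kernel)) (inB_ok (P := (15, 0)) (b := (550648146034688, 562949953421312)) (by decide +kernel) ⟨h1, Or.inl rfl⟩) (nA152 h1)
    (by norm_num) (by norm_num) (by norm_num) (far3 (L := 513251331457033) (H := 531453076147250) (by norm_num) (by norm_num) (by omega) (xaB_ok (lo := 513251331457033) (hi := 531453076147250) (i := (13, 13)) (j := (10, 10)) (k := (15, 0)) (by decide +kernel) ⟨le_rfl, Or.inr le_rfl⟩ ⟨le_rfl, Or.inr le_rfl⟩ ⟨h1, Or.inl rfl⟩) (by norm_num) (by norm_num))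

theorem fA15 {r : ℕ} (h1 : 15 ≤ r) : FinAt 10 13 r :=
  row_Ac (by norm_num) (by norm_num) (by omega) (by omega) (qA151 h1) (qA152 h1)

/-- the row `(10, 13, r)` -/
theorem row_10_13 : ∀ r, 15 ≤ r → FinAt 10 13 r := by
  intro r hr
  exact fA15 (by omega)

end Pool.Agent.Helper81.HD.R10_13
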