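import Pool.Agent.CXD.M_X10_X14_T_0
import Pool.Agent.CXD.M_X10_X14_T_1
import Pool.Agent.CXD.M_X10_X14_T_2
import Pool.Agent.CXD.M_X10_X14_T_3
import Pool.Agent.CXD.M_X10_X14_T_4
import Pool.Agent.CXD.M_X10_X14_T_5
import Pool.Agent.CXD.M_X14_X10_T_0
import Pool.Agent.CXD.M_X14_X10_T_1
import Pool.Agent.CXD.M_X14_X10_T_2
import Pool.Agent.CXD.M_X14_X10_T_3
import Pool.Agent.CXD.M_X14_X10_T_4
import Pool.Agent.CXD.M_X14_X10_T_5
import Pool.Agent.Helper81.MIT.SubX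
import Pool.Agent.Helper81.TK.GR2

/-!
The row `(10, 14, r)`, `r` at least `15`.
-/

set_option autoImplicit false
set_option exponentiation.threshold 4000
noncomputable section
namespace Pool.Agent.Helper81.HD.R10_14

open Pool.Agent.Helper81.MIT
open Pool.Agent.Helper6.MONO (Thr fB xA FinAt Kp)
open Pool.Agent.Helper57.U2 (TCellU)
open Pool.Agent.Helper84.ST (QXS)
open Pool.Agent.Helper84.XL (XH)
open Pool.Agent.Helper86.C75 (Z)
open Pool.Agent.Helper90.KMO (zv)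
open Pool.Agent.Helper21.KTE (KS)
open Pool.Agent.Helper57.XL (chkX hX_of okx)


theorem nA151_15 {r : ℕ} (h1 : 15 ≤ r) (h2 : r ≤ 15) : TCellU 10 14 r (xA 10 14 r) 0 ((122160139892424 : ℕ) / 2 ^ 48) := by
  have k0 : TCellU 10 14 r (xA 10 14 r) 0 ((29687977810136 : ℕ) / 2 ^ 48) := tcu_sub (Pool.Agent.CXD.tX10_X14T_nearG15_15 (inB_ok (P := (15, 15)) (b := (550648146034688, 550648146296832)) (by decide +kernel) ⟨h1, Or.inr h2⟩) (by omega) (by omega)) (by norm_num) le_rfl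
  have k1 : TCellU 10 14 r (xA 10 14 r) 0 ((32996881064892 : ℕ) / 2 ^ 48) := tcu_join k0 (Pool.Agent.CXD.tX10_X14T_nearK15_15 (inB_ok (P := (15, 15)) (b := (550648146034688, 550648146296832)) (by decide +kernel) ⟨h1, Or.inr h2⟩) (by omega) (by omega)) (by norm_num) (by norm_num)
  have k2 : TCellU 10 14 r (xA 10 14 r) 0 ((122160139892424 : ℕ) / 2 ^ 48) := tcu_join k1 (Pool.Agent.CXD.tX10_X14T_nearH15_21 (inB_ok (P := (15, 15)) (b := (550648146034688, 556662267838464)) (by decide +kernel) ⟨h1, Or.inr h2⟩) (by omega) (by omega)) (by norm_num) (by norm_num)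
  exact tcu_sub k2 le_rfl (by norm_num)

theorem nA151_16 {r : ℕ} (h1 : 16 ≤ r) (h2 : r ≤ 17) : TCellU 10 14 r (xA 10 14 r) 0 ((122160139892424 : ℕ) / 2 ^ 48) := by
  have k0 : TCellU 10 14 r (xA 10 14 r) 0 ((24245117763608 : ℕ) / 2 ^ 48) := tcu_sub (Pool.Agent.CXD.tX10_X14T_nearG16_17 (inB_ok (P := (16, 17)) (b := (552133027692544, 553364660944896)) (by decide +kernel) ⟨h1, Or.inr h2⟩) (by omega) (by omega)) (by norm_num) le_rfl
  have k1 : TCellU 10 14 r (xA 10 14 r) 0 ((32996881064892 : ℕ) / 2 ^ 48) := tcu_join k0 (Pool.Agent.CXD.tX10_X14T_nearK16_17 (inB_ok (P := (16, 17)) (b := (552133027692544, 553364660944896)) (by decide +kernel) ⟨h1, Or.inr h2⟩) (by omega) (by omega)) (by norm_num) (by norm_num)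
  have k2 : TCellU 10 14 r (xA 10 14 r) 0 ((122160139892424 : ℕ) / 2 ^ 48) := tcu_join k1 (Pool.Agent.CXD.tX10_X14T_nearH15_21 (inB_ok (P := (16, 17)) (b := (550648146034688, 556662267838464)) (by decide +kernel) ⟨h1, Or.inr h2⟩) (by omega) (by omega)) (by norm_num) (by norm_num)
  exact tcu_sub k2 le_rfl (by norm_num)

theorem nA151_18 {r : ℕ} (h1 : 18 ≤ r) (h2 : r ≤ 21) : TCellU 10 14 r (xA 10 14 r) 0 ((122160139892424 : ℕ) / 2 ^ 48) := by
  have k0 : TCellU 10 14 r (xA 10 14 r) 0 ((20973596798196 : ℕ) / 2 ^ 48) := tcu_sub (Pool.Agent.CXD.tX10_X14T_nearG18_21 (inB_ok (P := (18, 21)) (b := (554397478420480, 556662267838464)) (by decide +kernel) ⟨h1, Or.inr h2⟩) (by omega) (by omega)) (by norm_num) le_rfl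
  have k1 : TCellU 10 14 r (xA 10 14 r) 0 ((32996881064892 : ℕ) / 2 ^ 48) := tcu_join k0 (Pool.Agent.CXD.tX10_X14T_nearK18_21 (inB_ok (P := (18, 21)) (b := (554397478420480, 556662267838464)) (by decide +kernel) ⟨h1, Or.inr h2⟩) (by omega) (by omega)) (by norm_num) (by norm_num)
  have k2 : TCellU 10 14 r (xA 10 14 r) 0 ((122160139892424 : ℕ) / 2 ^ 48) := tcu_join k1 (Pool.Agent.CXD.tX10_X14T_nearH15_21 (inB_ok (P := (18, 21)) (b := (550648146034688, 556662267838464)) (by decide +kernel) ⟨h1, Or.inr h2⟩) (by omega) (by omega)) (by norm_num) (by norm_num)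
  exact tcu_sub k2 le_rfl (by norm_num)

theorem nA151_22 {r : ℕ} (h1 : 22 ≤ r) (h2 : r ≤ 29) : TCellU 10 14 r (xA 10 14 r) 0 ((122160139892424 : ℕ) / 2 ^ 48) := by
  have k0 : TCellU 10 14 r (xA 10 14 r) 0 ((20203442159808 : ℕ) / 2 ^ 48) := tcu_sub (Pool.Agent.CXD.tX10_X14T_nearG22_29 (inB_ok (P := (22, 29)) (b := (557219934371840, 559649916715008)) (by decide +kernel) ⟨h1, Or.inr h2⟩) (by omega) (by omega)) (by norm_num) le_rfl
  have k1 : TCellU 10 14 r (xA 10 14 r) 0 ((122160139892424 : ℕ) / 2 ^ 48) := tcu_join k0 (Pool.Agent.CXD.tX10_X14T_nearH22_oo (inB_ok (P := (22, 29)) (b := (557219934371840, 562949953421312)) (by decide +kernel) ⟨h1, Or.inr h2⟩) (by omega) (by omega)) (by norm_num) (by norm_num)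
  exact tcu_sub k1 le_rfl (by norm_num)

theorem nA151_30 {r : ℕ} (h1 : 30 ≤ r) : TCellU 10 14 r (xA 10 14 r) 0 ((122160139892424 : ℕ) / 2 ^ 48) := by
  have k0 : TCellU 10 14 r (xA 10 14 r) 0 ((16551642448920 : ℕ) / 2 ^ 48) := tcu_sub (Pool.Agent.CXD.tX10_X14T_nearG30_oo (inB_ok (P := (30, 0)) (b := (559866054443008, 562949953421312)) (by decide +kernel) ⟨h1, Or.inl rfl⟩) (by omega) (by omega)) (by norm_num) le_rfl
  have k1 : TCellU 10 14 r (xA 10 14 r) 0 ((20203442159808 : ℕ) / 2 ^ 48) := tcu_join k0 (Pool.Agent.CXD.tX10_X14T_nearK30_oo (inB_ok (P := (30, 0)) (b := (559866054443008, 562949953421312)) (by decide +kernel) ⟨h1, Or.inl rfl⟩) (by omega) (by omega)) (by norm_num) (by norm_num)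
  have k2 : TCellU 10 14 r (xA 10 14 r) 0 ((122160139892424 : ℕ) / 2 ^ 48) := tcu_join k1 (Pool.Agent.CXD.tX10_X14T_nearH22_oo (inB_ok (P := (30, 0)) (b := (557219934371840, 562949953421312)) (by decide +kernel) ⟨h1, Or.inl rfl⟩) (by omega) (by omega)) (by norm_num) (by norm_num)
  exact tcu_sub k2 le_rfl (by norm_num)

theorem nA151 {r : ℕ} (h1 : 15 ≤ r) : TCellU 10 14 r (xA 10 14 r) 0 ((122160139892424 : ℕ) / 2 ^ 48) := by
  rcases Nat.lt_or_ge r 16 with g | g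
  · exact nA151_15 (by omega) (by omega)
  rcases Nat.lt_or_ge r 18 with g | g
  · exact nA151_16 (by omega) (by omega)
  rcases Nat.lt_or_ge r 22 with g | g
  · exact nA151_18 (by omega) (by omega)
  rcases Nat.lt_or_ge r 30 with g | g
  · exact nA151_22 (by omega) (by omega)
  exact nA151_30 (by omega)

theorem qA151 {r : ℕ} (h1 : 15 ≤ r) : QXS 10 14 r (xA 10 14 r) :=
  qxS_A (by norm_num) (by norm_num) (by omega) (by omega) Pool.Agent.Helper81.TK.E_10_14_T_mid2.T (hasP (N := 10) (by decide +kernel)) (hasP (N := 14) (by decide +kernel)) (inB_ok (P := (15, 0)) (b := (550648146034688, 562949953421312)) (by decide +kernel) ⟨h1, Or.inl rfl⟩) (nA151 h1)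
    (by norm_num) (by norm_num) (by norm_num) (far3 (L := 515412412140273) (H := 533634898252086) (by norm_num) (by norm_num) (by omega) (xaB_ok (lo := 515412412140273) (hi := 533634898252086) (i := (10, 10)) (j := (14, 14)) (k := (15, 0)) (by decide +kernel) ⟨le_rfl, Or.inr le_rfl⟩ ⟨le_rfl, Or.inr le_rfl⟩ ⟨h1, Or.inl rfl⟩) (by norm_num) (by norm_num))

theorem nA152_15 {r : ℕ} (h1 : 15 ≤ r) (h2 : r ≤ 15) : TCellU 14 10 r (xA 14 10 r) 0 ((122160139892424 : ℕ) / 2 ^ 48) := by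
  have k0 : TCellU 14 10 r (xA 14 10 r) 0 ((13627939424728 : ℕ) / 2 ^ 48) := tcu_sub (Pool.Agent.CXD.tX14X10T_nearG15_15 (inB_ok (P := (15, 15)) (b := (550648145772544, 550648146821120)) (by decide +kernel) ⟨h1, Or.inr h2⟩) (by omega) (by omega)) (by norm_num) le_rfl
  have k1 : TCellU 14 10 r (xA 14 10 r) 0 ((29244190781812 : ℕ) / 2 ^ 48) := tcu_join k0 (Pool.Agent.CXD.tX14X10T_nearG15_17 (inB_ok (P := (15, 15)) (b := (550648146034688, 553364660944896)) (by decide +kernel) ⟨h1, Or.inr h2⟩) (by omega) (by omega)) (by norm_num) (by norm_num)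
  have k2 : TCellU 14 10 r (xA 14 10 r) 0 ((122160139892424 : ℕ) / 2 ^ 48) := tcu_join k1 (Pool.Agent.CXD.tX14X10T_nearH15_21 (inB_ok (P := (15, 15)) (b := (550648146034688, 556662267838464)) (by decide +kernel) ⟨h1, Or.inr h2⟩) (by omega) (by omega)) (by norm_num) (by norm_num)
  exact tcu_sub k2 le_rfl (by norm_num)

theorem nA152_16 {r : ℕ} (h1 : 16 ≤ r) (h2 : r ≤ 17) : TCellU 14 10 r (xA 14 10 r) 0 ((122160139892424 : ℕ) / 2 ^ 48) := by
  have k0 : TCellU 14 10 r (xA 14 10 r) 0 ((13627939424728 : ℕ) / 2 ^ 48) := tcu_sub (Pool.Agent.CXD.tX14X10T_nearG16_17 (inB_ok (P := (16, 17)) (b := (552133027430400, 553364661207040)) (by decide +kernel) ⟨h1, Or.inr h2⟩) (by omega) (by omega)) (by norm_num) le_rfl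
  have k1 : TCellU 14 10 r (xA 14 10 r) 0 ((29244190781812 : ℕ) / 2 ^ 48) := tcu_join k0 (Pool.Agent.CXD.tX14X10T_nearG15_17 (inB_ok (P := (16, 17)) (b := (550648146034688, 553364660944896)) (by decide +kernel) ⟨h1, Or.inr h2⟩) (by omega) (by omega)) (by norm_num) (by norm_num)
  have k2 : TCellU 14 10 r (xA 14 10 r) 0 ((122160139892424 : ℕ) / 2 ^ 48) := tcu_join k1 (Pool.Agent.CXD.tX14X10T_nearH15_21 (inB_ok (P := (16, 17)) (b := (550648146034688, 556662267838464)) (by decide +kernel) ⟨h1, Or.inr h2⟩) (by omega) (by omega)) (by norm_num) (by norm_num)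
  exact tcu_sub k2 le_rfl (by norm_num)

theorem nA152_18 {r : ℕ} (h1 : 18 ≤ r) (h2 : r ≤ 21) : TCellU 14 10 r (xA 14 10 r) 0 ((122160139892424 : ℕ) / 2 ^ 48) := by
  have k0 : TCellU 14 10 r (xA 14 10 r) 0 ((29244190781812 : ℕ) / 2 ^ 48) := tcu_sub (Pool.Agent.CXD.tX14X10T_nearG18_21 (inB_ok (P := (18, 21)) (b := (554397478420480, 556662267838464)) (by decide +kernel) ⟨h1, Or.inr h2⟩) (by omega) (by omega)) (by norm_num) le_rfl
  have k1 : TCellU 14 10 r (xA 14 10 r) 0 ((122160139892424 : ℕ) / 2 ^ 48) := tcu_join k0 (Pool.Agent.CXD.tX14X10T_nearH15_21 (inB_ok (P := (18, 21)) (b := (550648146034688, 556662267838464)) (by decide +kernel) ⟨h1, Or.inr h2⟩) (by omega) (by omega)) (by norm_num) (by norm_num)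
  exact tcu_sub k1 le_rfl (by norm_num)

theorem nA152_22 {r : ℕ} (h1 : 22 ≤ r) (h2 : r ≤ 29) : TCellU 14 10 r (xA 14 10 r) 0 ((122160139892424 : ℕ) / 2 ^ 48) := by
  have k0 : TCellU 14 10 r (xA 14 10 r) 0 ((20452058258080 : ℕ) / 2 ^ 48) := tcu_sub (Pool.Agent.CXD.tX14X10T_nearG22_29 (inB_ok (P := (22, 29)) (b := (557219934371840, 559649916715008)) (by decide +kernel) ⟨h1, Or.inr h2⟩) (by omega) (by omega)) (by norm_num) le_rfl
  have k1 : TCellU 14 10 r (xA 14 10 r) 0 ((122160139892424 : ℕ) / 2 ^ 48) := tcu_join k0 (Pool.Agent.CXD.tX14X10T_nearH22_oo (inB_ok (P := (22, 29)) (b := (557219934371840, 562949953421312)) (by decide +kernel) ⟨h1, Or.inr h2⟩) (by omega) (by omega)) (by norm_num) (by norm_num)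
  exact tcu_sub k1 le_rfl (by norm_num)

theorem nA152_30 {r : ℕ} (h1 : 30 ≤ r) (h2 : r ≤ 44) : TCellU 14 10 r (xA 14 10 r) 0 ((122160139892424 : ℕ) / 2 ^ 48) := by
  have k0 : TCellU 14 10 r (xA 14 10 r) 0 ((73301552592 : ℕ) / 2 ^ 48) := tcu_sub (Pool.Agent.CXD.tX14X10T_nearv2b1 (inB_ok (P := (30, 44)) (b := (559853728432128, 561542578569216)) (by decide +kernel) ⟨h1, Or.inr h2⟩) (by omega) (by omega)) (by norm_num) le_rfl
  have k1 : TCellU 14 10 r (xA 14 10 r) 0 ((18889783052924 : ℕ) / 2 ^ 48) := tcu_join k0 (Pool.Agent.CXD.tX14X10T_nearG30_oo (inB_ok (P := (30, 44)) (b := (559866054443008, 562949953421312)) (by decide +kernel) ⟨h1, Or.inr h2⟩) (by omega) (by omega)) (by norm_num) (by norm_num)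
  have k2 : TCellU 14 10 r (xA 14 10 r) 0 ((20174228478104 : ℕ) / 2 ^ 48) := tcu_join k1 (Pool.Agent.CXD.tX14X10T_nearK30_oo (inB_ok (P := (30, 44)) (b := (559866054443008, 562949953421312)) (by decide +kernel) ⟨h1, Or.inr h2⟩) (by omega) (by omega)) (by norm_num) (by norm_num)
  have k3 : TCellU 14 10 r (xA 14 10 r) 0 ((122160139892424 : ℕ) / 2 ^ 48) := tcu_join k2 (Pool.Agent.CXD.tX14X10T_nearH22_oo (inB_ok (P := (30, 44)) (b := (557219934371840, 562949953421312)) (by decide +kernel) ⟨h1, Or.inr h2⟩) (by omega) (by omega)) (by norm_num) (by norm_num)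
  exact tcu_sub k3 le_rfl (by norm_num)

theorem nA152_45 {r : ℕ} (h1 : 45 ≤ r) : TCellU 14 10 r (xA 14 10 r) 0 ((122160139892424 : ℕ) / 2 ^ 48) := by
  have k0 : TCellU 14 10 r (xA 14 10 r) 0 ((73301552592 : ℕ) / 2 ^ 48) := tcu_sub (Pool.Agent.CXD.tX14X10T_nearv2b2 (inB_ok (P := (45, 0)) (b := (561542578307072, 562949953421312)) (by decide +kernel) ⟨h1, Or.inl rfl⟩) (by omega) (by omega)) (by norm_num) le_rfl
  have k1 : TCellU 14 10 r (xA 14 10 r) 0 ((18889783052924 : ℕ) / 2 ^ 48) := tcu_join k0 (Pool.Agent.CXD.tX14X10T_nearG30_oo (inB_ok (P := (45, 0)) (b := (559866054443008, 562949953421312)) (by decide +kernel) ⟨h1, Or.inl rfl⟩) (by omega) (by omega)) (by norm_num) (by norm_num)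
  have k2 : TCellU 14 10 r (xA 14 10 r) 0 ((20174228478104 : ℕ) / 2 ^ 48) := tcu_join k1 (Pool.Agent.CXD.tX14X10T_nearK30_oo (inB_ok (P := (45, 0)) (b := (559866054443008, 562949953421312)) (by decide +kernel) ⟨h1, Or.inl rfl⟩) (by omega) (by omega)) (by norm_num) (by norm_num)
  have k3 : TCellU 14 10 r (xA 14 10 r) 0 ((122160139892424 : ℕ) / 2 ^ 48) := tcu_join k2 (Pool.Agent.CXD.tX14X10T_nearH22_oo (inB_ok (P := (45, 0)) (b := (557219934371840, 562949953421312)) (by decide +kernel) ⟨h1, Or.inl rfl⟩) (by omega) (by omega)) (by norm_num) (by norm_num)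
  exact tcu_sub k3 le_rfl (by norm_num)

theorem nA152 {r : ℕ} (h1 : 15 ≤ r) : TCellU 14 10 r (xA 14 10 r) 0 ((122160139892424 : ℕ) / 2 ^ 48) := by
  rcases Nat.lt_or_ge r 16 with g | g
  · exact nA152_15 (by omega) (by omega)
  rcases Nat.lt_or_ge r 18 with g | g
  · exact nA152_16 (by omega) (by omega)
  rcases Nat.lt_or_ge r 22 with g | g
  · exact nA152_18 (by omega) (by omega)
  rcases Nat.lt_or_ge r 30 with g | g
  · exact nA152_22 (by omega) (by omega)
  rcases Nat.lt_or_ge r 45 with g | g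
  · exact nA152_30 (by omega) (by omega)
  exact nA152_45 (by omega)

theorem qA152 {r : ℕ} (h1 : 15 ≤ r) : QXS 14 10 r (xA 14 10 r) :=
  qxS_A (by norm_num) (by norm_num) (by omega) (by omega) Pool.Agent.Helper81.TK.E_14_10_T_mid2.T (hasP (N := 14) (by decide +kernel)) (hasP (N := 10) (by decide +kernel)) (inB_ok (P := (15, 0)) (b := (550648146034688, 562949953421312)) (by decide +kernel) ⟨h1, Or.inl rfl⟩) (nA152 h1)
    (by norm_num) (by norm_num) (by norm_num) (far3 (L := 515412412140273) (H := 533634898252086) (by norm_num) (by norm_num) (by omega) (xaB_ok (lo := 515412412140273) (hi := 533634898252086) (i := (14, 14)) (j := (10, 10)) (k := (15, 0)) (by decide +kernel) ⟨le_rfl, Or.inr le_rfl⟩ ⟨le_rfl, Or.inr le_rfl⟩ ⟨h1, Or.inl rfl⟩) (by norm_num) (by norm_num))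

theorem fA15 {r : ℕ} (h1 : 15 ≤ r) : FinAt 10 14 r :=
  row_Ac (by norm_num) (by norm_num) (by omega) (by omega) (qA151 h1) (qA152 h1)

/-- the row `(10, 14, r)` -/
theorem row_10_14 : ∀ r, 15 ≤ r → FinAt 10 14 r := by
  intro r hr
  exact fA15 (by omega)

end Pool.Agent.Helper81.HD.R10_14
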