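import Pool.Agent.CXD.M_G10_0
import Pool.Agent.CXD.M_G10_1
import Pool.Agent.CXD.M_G10_2
import Pool.Agent.CXD.M_G10_3
import Pool.Agent.CXD.M_G10_4
import Pool.Agent.CXD.M_G10_5
import Pool.Agent.CXD.M_G10_6
import Pool.Agent.CXD.M_G10_7
import Pool.Agent.CXD.M_G10_8
import Pool.Agent.CXD.M_G10_9
import Pool.Agent.CXD.M_G10_10
import Pool.Agent.CXD.M_G10_11
import Pool.Agent.CXD.M_G10_12
import Pool.Agent.CXD.M_G10_13
import Pool.Agent.CXD.M_G10_14
import Pool.Agent.CXD.M_G10_15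
import Pool.Agent.CXD.M_G10_16
import Pool.Agent.Helper81.MIT.HDl
import Pool.Agent.Helper81.MIT.PtN
import Pool.Agent.Helper81.MIT.PtN6
import Pool.Agent.Helper81.TK.GD1
import Pool.Agent.Helper81.TK.GD2
import Pool.Agent.Helper81.TK.GD3

/-!
Single triples: near cells, middle cells and the far part.
-/

set_option autoImplicit false
set_option exponentiation.threshold 4000
noncomputable section
namespace Pool.Agent.Helper81.HD

open Pool.Agent.Helper81.MIT
open Pool.Agent.Helper6.MONO (FinAt)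
open Pool.Agent.Helper57.U2 (TCellU)
open Pool.Agent.Helper84.ST (QXS)
open Pool.Agent.Helper6.CXT (ln0 ln1)

/-- the triple `(10, 10, 10)` -/
theorem hd_10_10_10 : FinAt 10 10 10 := by
  refine z_10_10_10 fun x0 hX0 hT => ?_
  have hX : |2 ^ 48 * x0 - (-((519774541169504 : ℕ) : ℝ))| ≤ ((64 : ℕ) : ℝ) := by simpa using hX0
  have hz := zvX hX
  have n0_0 : TCellU 10 10 10 x0 0 ((8444249301320 : ℕ) / 2 ^ 48) := tcu_sub (TCellU.of_t (Pool.Agent.CXD.tX10_X10_X10_near_h hz hT)) (by norm_num) le_rfl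
  have n0_1 : TCellU 10 10 10 x0 0 ((122160139892424 : ℕ) / 2 ^ 48) := tcu_join n0_0 (TCellU.of_t (Pool.Agent.CXD.tX10_X10_X10_near_g hz hT)) (by norm_num) (by norm_num)
  have h0 : QXS 10 10 10 x0 := qxS_pt (by norm_num) (by norm_num) (by norm_num) hT hX Pool.Agent.Helper81.TK.E_10_10_10_mid.T (hasP (N := 10) (by decide +kernel)) (hasP (N := 10) (by decide +kernel)) (hasP (N := 10) (by decide +kernel)) n0_1
    (by norm_num) (by norm_num) (by norm_num) (FarI_three (p := 10) (lo := 450359962737050) (hi := 537617205517353) (by norm_num) (by norm_num) (by norm_num)) (by norm_num) (by norm_num)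
  exact zf_QS1 (by norm_num) (by norm_num) (by norm_num) hT h0

/-- the triple `(10, 10, 11)` -/
theorem hd_10_10_11 : FinAt 10 10 11 := by
  refine z_10_10_11 fun x0 hX0 hT => ?_
  have hX : |2 ^ 48 * x0 - (-((517818169445998 : ℕ) : ℝ))| ≤ ((64 : ℕ) : ℝ) := by simpa using hX0
  have hz := zvX hX
  have n0_0 : TCellU 10 10 11 x0 0 ((8444249301320 : ℕ) / 2 ^ 48) := tcu_sub (TCellU.of_t (Pool.Agent.CXD.tX10_X10_X11_near_h hz hT)) (by norm_num) le_rfl
  have n0_1 : TCellU 10 10 11 x0 0 ((122160139892424 : ℕ) / 2 ^ 48) := tcu_join n0_0 (TCellU.of_t (Pool.Agent.CXD.tX10_X10_X11_near_g hz hT)) (by norm_num) (by norm_num)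
  have h0 : QXS 10 10 11 x0 := qxS_pt (by norm_num) (by norm_num) (by norm_num) hT hX Pool.Agent.Helper81.TK.E_10_10_11_mid.T (hasP (N := 10) (by decide +kernel)) (hasP (N := 10) (by decide +kernel)) (hasP (N := 11) (by decide +kernel)) n0_1
    (by norm_num) (by norm_num) (by norm_num) (FarI_three (p := 10) (lo := 450359962737050) (hi := 537617205517353) (by norm_num) (by norm_num) (by norm_num)) (by norm_num) (by norm_num)
  exact zf_QS1 (by norm_num) (by norm_num) (by norm_num) hT h0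

/-- the triple `(10, 10, 12)` -/
theorem hd_10_10_12 : FinAt 10 10 12 := by
  refine z_10_10_12 fun x0 hX0 hT => ?_
  have hX : |2 ^ 48 * x0 - (-((516364795247852 : ℕ) : ℝ))| ≤ ((64 : ℕ) : ℝ) := by simpa using hX0
  have hz := zvX hX
  have n0_0 : TCellU 10 10 12 x0 0 ((8444249301320 : ℕ) / 2 ^ 48) := tcu_sub (TCellU.of_t (Pool.Agent.CXD.tX10_X10_X12_near_h hz hT)) (by norm_num) le_rfl
  have n0_1 : TCellU 10 10 12 x0 0 ((122160139892424 : ℕ) / 2 ^ 48) := tcu_join n0_0 (TCellU.of_t (Pool.Agent.CXD.tX10_X10_X12_near_g hz hT)) (by norm_num) (by norm_num)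
  have h0 : QXS 10 10 12 x0 := qxS_pt (by norm_num) (by norm_num) (by norm_num) hT hX Pool.Agent.Helper81.TK.E_10_10_12_mid.T (hasP (N := 10) (by decide +kernel)) (hasP (N := 10) (by decide +kernel)) (hasP (N := 12) (by decide +kernel)) n0_1
    (by norm_num) (by norm_num) (by norm_num) (FarI_three (p := 10) (lo := 450359962737050) (hi := 537617205517353) (by norm_num) (by norm_num) (by norm_num)) (by norm_num) (by norm_num)
  exact zf_QS1 (by norm_num) (by norm_num) (by norm_num) hT h0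

/-- the triple `(10, 10, 13)` -/
theorem hd_10_10_13 : FinAt 10 10 13 := by
  refine z_10_10_13 fun x0 hX0 hT => ?_
  have hX : |2 ^ 48 * x0 - (-((515254098229016 : ℕ) : ℝ))| ≤ ((64 : ℕ) : ℝ) := by simpa using hX0
  have hz := zvX hX
  have n0_0 : TCellU 10 10 13 x0 0 ((8444249301320 : ℕ) / 2 ^ 48) := tcu_sub (TCellU.of_t (Pool.Agent.CXD.tX10_X10_X13_near_h hz hT)) (by norm_num) le_rfl
  have n0_1 : TCellU 10 10 13 x0 0 ((122160139892424 : ℕ) / 2 ^ 48) := tcu_join n0_0 (TCellU.of_t (Pool.Agent.CXD.tX10_X10_X13_near_g hz hT)) (by norm_num) (by norm_num)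
  have h0 : QXS 10 10 13 x0 := qxS_pt (by norm_num) (by norm_num) (by norm_num) hT hX Pool.Agent.Helper81.TK.E_10_10_13_mid.T (hasP (N := 10) (by decide +kernel)) (hasP (N := 10) (by decide +kernel)) (hasP (N := 13) (by decide +kernel)) n0_1
    (by norm_num) (by norm_num) (by norm_num) (FarI_three (p := 10) (lo := 450359962737050) (hi := 537617205517353) (by norm_num) (by norm_num) (by norm_num)) (by norm_num) (by norm_num)
  exact zf_QS1 (by norm_num) (by norm_num) (by norm_num) hT h0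

/-- the triple `(10, 10, 14)` -/
theorem hd_10_10_14 : FinAt 10 10 14 := by
  refine z_10_10_14 fun x0 hX0 hT => ?_
  have hX : |2 ^ 48 * x0 - (-((514385329254072 : ℕ) : ℝ))| ≤ ((64 : ℕ) : ℝ) := by simpa using hX0
  have hz := zvX hX
  have n0_0 : TCellU 10 10 14 x0 0 ((8444249301320 : ℕ) / 2 ^ 48) := tcu_sub (TCellU.of_t (Pool.Agent.CXD.tX10_X10_X14_near_h hz hT)) (by norm_num) le_rfl
  have n0_1 : TCellU 10 10 14 x0 0 ((122160139892424 : ℕ) / 2 ^ 48) := tcu_join n0_0 (TCellU.of_t (Pool.Agent.CXD.tX10_X10_X14_near_g hz hT)) (by norm_num) (by norm_num)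
  have h0 : QXS 10 10 14 x0 := qxS_pt (by norm_num) (by norm_num) (by norm_num) hT hX Pool.Agent.Helper81.TK.E_10_10_14_mid.T (hasP (N := 10) (by decide +kernel)) (hasP (N := 10) (by decide +kernel)) (hasP (N := 14) (by decide +kernel)) n0_1
    (by norm_num) (by norm_num) (by norm_num) (FarI_three (p := 10) (lo := 450359962737050) (hi := 537617205517353) (by norm_num) (by norm_num) (by norm_num)) (by norm_num) (by norm_num)
  exact zf_QS1 (by norm_num) (by norm_num) (by norm_num) hT h0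

/-- the triple `(10, 11, 11)` -/
theorem hd_10_11_11 : FinAt 10 11 11 := by
  refine z_10_11_11 fun x0 hX0 hT => ?_
  have hX : |2 ^ 48 * x0 - (-((522638888159706 : ℕ) : ℝ))| ≤ ((64 : ℕ) : ℝ) := by simpa using hX0
  have hz := zvX hX
  have n0_0 : TCellU 10 11 11 x0 0 ((2361012104648 : ℕ) / 2 ^ 48) := tcu_sub (TCellU.of_t (Pool.Agent.CXD.tX10_X11X11_neara hz hT)) (by norm_num) le_rfl
  have n0_1 : TCellU 10 11 11 x0 0 ((7206885303700 : ℕ) / 2 ^ 48) := tcu_join n0_0 (TCellU.of_t (Pool.Agent.CXD.tX10_X11X11_nearb hz hT)) (by norm_num) (by norm_num)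
  have n0_2 : TCellU 10 11 11 x0 0 ((11798868073756 : ℕ) / 2 ^ 48) := tcu_join n0_1 (TCellU.of_t (Pool.Agent.CXD.tX10_X11X11_nearc hz hT)) (by norm_num) (by norm_num)
  have n0_3 : TCellU 10 11 11 x0 0 ((12055291777540 : ℕ) / 2 ^ 48) := tcu_join n0_2 (TCellU.of_t (Pool.Agent.CXD.tX10_X11X11_neard hz hT)) (by norm_num) (by norm_num)
  have n0_4 : TCellU 10 11 11 x0 0 ((26740122787512 : ℕ) / 2 ^ 48) := tcu_join n0_3 (TCellU.of_t (Pool.Agent.CXD.tX10_X11X11_neare hz hT)) (by norm_num) (by norm_num)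
  have n0_5 : TCellU 10 11 11 x0 0 ((122160139892424 : ℕ) / 2 ^ 48) := tcu_join n0_4 (TCellU.of_t (Pool.Agent.CXD.tX10_X11X11_nearf hz hT)) (by norm_num) (by norm_num)
  have h0 : QXS 10 11 11 x0 := qxS_pt (by norm_num) (by norm_num) (by norm_num) hT hX Pool.Agent.Helper81.TK.E_10_11_11_mid.T (hasP (N := 10) (by decide +kernel)) (hasP (N := 11) (by decide +kernel)) (hasP (N := 11) (by decide +kernel)) n0_5
    (by norm_num) (by norm_num) (by norm_num) (FarI_three (p := 10) (lo := 450359962737050) (hi := 537617205517353) (by norm_num) (by norm_num) (by norm_num)) (by norm_num) (by norm_num)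
  exact zf_QS2 (by norm_num) (by norm_num) (by norm_num) hT h0

/-- the triple `(10, 11, 12)` -/
theorem hd_10_11_12 : FinAt 10 11 12 := by
  refine z_10_11_12 fun x0 hX0 hT => ?_
  have hX : |2 ^ 48 * x0 - (-((521135866175654 : ℕ) : ℝ))| ≤ ((64 : ℕ) : ℝ) := by simpa using hX0
  have hz := zvX hX
  have n0_0 : TCellU 10 11 12 x0 0 ((8444249301320 : ℕ) / 2 ^ 48) := tcu_sub (TCellU.of_t (Pool.Agent.CXD.tX10_X11_X12_near_h hz hT)) (by norm_num) le_rfl
  have n0_1 : TCellU 10 11 12 x0 0 ((122160139892424 : ℕ) / 2 ^ 48) := tcu_join n0_0 (TCellU.of_t (Pool.Agent.CXD.tX10_X11_X12_near_g hz hT)) (by norm_num) (by norm_num)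
  have h0 : QXS 10 11 12 x0 := qxS_pt (by norm_num) (by norm_num) (by norm_num) hT hX Pool.Agent.Helper81.TK.E_10_11_12_mid.T (hasP (N := 10) (by decide +kernel)) (hasP (N := 11) (by decide +kernel)) (hasP (N := 12) (by decide +kernel)) n0_1
    (by norm_num) (by norm_num) (by norm_num) (FarI_three (p := 10) (lo := 450359962737050) (hi := 537617205517353) (by norm_num) (by norm_num) (by norm_num)) (by norm_num) (by norm_num)
  have n1_0 : TCellU 10 12 11 x0 0 ((8444249301320 : ℕ) / 2 ^ 48) := tcu_sub (TCellU.of_t (Pool.Agent.CXD.tX10_X12_X11_near_h hz (thr_mir hT))) (by norm_num) le_rfl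
  have n1_1 : TCellU 10 12 11 x0 0 ((122160139892424 : ℕ) / 2 ^ 48) := tcu_join n1_0 (TCellU.of_t (Pool.Agent.CXD.tX10_X12_X11_near_g hz (thr_mir hT))) (by norm_num) (by norm_num)
  have h1 : QXS 10 12 11 x0 := qxS_pt (by norm_num) (by norm_num) (by norm_num) (thr_mir hT) hX Pool.Agent.Helper81.TK.E_10_12_11_mid.T (hasP (N := 10) (by decide +kernel)) (hasP (N := 12) (by decide +kernel)) (hasP (N := 11) (by decide +kernel)) n1_1
    (by norm_num) (by norm_num) (by norm_num) (FarI_three (p := 10) (lo := 450359962737050) (hi := 537617205517353) (by norm_num) (by norm_num) (by norm_num)) (by norm_num) (by norm_num)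
  exact zf_QS (by norm_num) (by norm_num) (by norm_num) (by norm_num) hT h0 h1.rot2

/-- the triple `(10, 11, 13)` -/
theorem hd_10_11_13 : FinAt 10 11 13 := by
  refine z_10_11_13 fun x0 hX0 hT => ?_
  have hX : |2 ^ 48 * x0 - (-((519986832056917 : ℕ) : ℝ))| ≤ ((64 : ℕ) : ℝ) := by simpa using hX0
  have hz := zvX hX
  have n0_0 : TCellU 10 11 13 x0 0 ((8444249301320 : ℕ) / 2 ^ 48) := tcu_sub (TCellU.of_t (Pool.Agent.CXD.tX10_X11_X13_near_h hz hT)) (by norm_num) le_rfl
  have n0_1 : TCellU 10 11 13 x0 0 ((122160139892424 : ℕ) / 2 ^ 48) := tcu_join n0_0 (TCellU.of_t (Pool.Agent.CXD.tX10_X11_X13_near_g hz hT)) (by norm_num) (by norm_num)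
  have h0 : QXS 10 11 13 x0 := qxS_pt (by norm_num) (by norm_num) (by norm_num) hT hX Pool.Agent.Helper81.TK.E_10_11_13_mid.T (hasP (N := 10) (by decide +kernel)) (hasP (N := 11) (by decide +kernel)) (hasP (N := 13) (by decide +kernel)) n0_1
    (by norm_num) (by norm_num) (by norm_num) (FarI_three (p := 10) (lo := 450359962737050) (hi := 537617205517353) (by norm_num) (by norm_num) (by norm_num)) (by norm_num) (by norm_num)
  have n1_0 : TCellU 10 13 11 x0 0 ((2251799813684 : ℕ) / 2 ^ 48) := tcu_sub (TCellU.of_t (Pool.Agent.CXD.tX10_X13X11_neara hz (thr_mir hT))) (by norm_num) le_rfl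
  have n1_1 : TCellU 10 13 11 x0 0 ((8444249301320 : ℕ) / 2 ^ 48) := tcu_join n1_0 (TCellU.of_t (Pool.Agent.CXD.tX10_X13_X11_near_h hz (thr_mir hT))) (by norm_num) (by norm_num)
  have n1_2 : TCellU 10 13 11 x0 0 ((122160139892424 : ℕ) / 2 ^ 48) := tcu_join n1_1 (TCellU.of_t (Pool.Agent.CXD.tX10_X13_X11_near_g hz (thr_mir hT))) (by norm_num) (by norm_num)
  have h1 : QXS 10 13 11 x0 := qxS_pt (by norm_num) (by norm_num) (by norm_num) (thr_mir hT) hX Pool.Agent.Helper81.TK.E_10_13_11_mid.T (hasP (N := 10) (by decide +kernel)) (hasP (N := 13) (by decide +kernel)) (hasP (N := 11) (by decide +kernel)) n1_2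
    (by norm_num) (by norm_num) (by norm_num) (FarI_three (p := 10) (lo := 450359962737050) (hi := 537617205517353) (by norm_num) (by norm_num) (by norm_num)) (by norm_num) (by norm_num)
  exact zf_QS (by norm_num) (by norm_num) (by norm_num) (by norm_num) hT h0 h1.rot2

/-- the triple `(10, 11, 14)` -/
theorem hd_10_11_14 : FinAt 10 11 14 := by
  refine z_10_11_14 fun x0 hX0 hT => ?_
  have hX : |2 ^ 48 * x0 - (-((519087828408574 : ℕ) : ℝ))| ≤ ((64 : ℕ) : ℝ) := by simpa using hX0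
  have hz := zvX hX
  have n0_0 : TCellU 10 11 14 x0 0 ((8444249301320 : ℕ) / 2 ^ 48) := tcu_sub (Pool.Agent.CXD.tX10_X11X14_neara hz hT) (by norm_num) le_rfl
  have n0_1 : TCellU 10 11 14 x0 0 ((122160139892424 : ℕ) / 2 ^ 48) := tcu_join n0_0 (TCellU.of_t (Pool.Agent.CXD.tX10_X11_X14_near_g hz hT)) (by norm_num) (by norm_num)
  have h0 : QXS 10 11 14 x0 := qxS_pt (by norm_num) (by norm_num) (by norm_num) hT hX Pool.Agent.Helper81.TK.E_10_11_14_mid.T (hasP (N := 10) (by decide +kernel)) (hasP (N := 11) (by decide +kernel)) (hasP (N := 14) (by decide +kernel)) n0_1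
    (by norm_num) (by norm_num) (by norm_num) (FarI_three (p := 10) (lo := 450359962737050) (hi := 537617205517353) (by norm_num) (by norm_num) (by norm_num)) (by norm_num) (by norm_num)
  have n1_0 : TCellU 10 14 11 x0 0 ((8444249301320 : ℕ) / 2 ^ 48) := tcu_sub (Pool.Agent.CXD.tX10_X14X11_neara hz (thr_mir hT)) (by norm_num) le_rfl
  have n1_1 : TCellU 10 14 11 x0 0 ((122160139892424 : ℕ) / 2 ^ 48) := tcu_join n1_0 (TCellU.of_t (Pool.Agent.CXD.tX10_X14_X11_near_g hz (thr_mir hT))) (by norm_num) (by norm_num)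
  have h1 : QXS 10 14 11 x0 := qxS_pt (by norm_num) (by norm_num) (by norm_num) (thr_mir hT) hX Pool.Agent.Helper81.TK.E_10_14_11_mid.T (hasP (N := 10) (by decide +kernel)) (hasP (N := 14) (by decide +kernel)) (hasP (N := 11) (by decide +kernel)) n1_1
    (by norm_num) (by norm_num) (by norm_num) (FarI_three (p := 10) (lo := 450359962737050) (hi := 537617205517353) (by norm_num) (by norm_num) (by norm_num)) (by norm_num) (by norm_num)
  exact zf_QS (by norm_num) (by norm_num) (by norm_num) (by norm_num) hT h0 h1.rot2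

/-- the triple `(10, 12, 12)` -/
theorem hd_10_12_12 : FinAt 10 12 12 := by
  refine z_10_12_12 fun x0 hX0 hT => ?_
  have hX : |2 ^ 48 * x0 - (-((524772724613697 : ℕ) : ℝ))| ≤ ((64 : ℕ) : ℝ) := by simpa using hX0
  have hz := zvX hX
  have n0_0 : TCellU 10 12 12 x0 0 ((2251799813684 : ℕ) / 2 ^ 48) := tcu_sub (TCellU.of_t (Pool.Agent.CXD.tX10_X12X12_neara hz hT)) (by norm_num) le_rfl
  have n0_1 : TCellU 10 12 12 x0 0 ((8444249301320 : ℕ) / 2 ^ 48) := tcu_join n0_0 (Pool.Agent.CXD.tX10_X12X12_nearb hz hT) (by norm_num) (by norm_num)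
  have n0_2 : TCellU 10 12 12 x0 0 ((25332747903960 : ℕ) / 2 ^ 48) := tcu_join n0_1 (Pool.Agent.CXD.tX10_X12X12_neard hz hT) (by norm_num) (by norm_num)
  have n0_3 : TCellU 10 12 12 x0 0 ((122160139892424 : ℕ) / 2 ^ 48) := tcu_join n0_2 (Pool.Agent.CXD.tX10_X12X12_nearc hz hT) (by norm_num) (by norm_num)
  have h0 : QXS 10 12 12 x0 := qxS_pt (by norm_num) (by norm_num) (by norm_num) hT hX Pool.Agent.Helper81.TK.E_10_12_12_mid.T (hasP (N := 10) (by decide +kernel)) (hasP (N := 12) (by decide +kernel)) (hasP (N := 12) (by decide +kernel)) n0_3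
    (by norm_num) (by norm_num) (by norm_num) (FarI_three (p := 10) (lo := 450359962737050) (hi := 537617205517353) (by norm_num) (by norm_num) (by norm_num)) (by norm_num) (by norm_num)
  exact zf_QS2 (by norm_num) (by norm_num) (by norm_num) hT h0

/-- the triple `(10, 12, 13)` -/
theorem hd_10_12_13 : FinAt 10 12 13 := by
  refine z_10_12_13 fun x0 hX0 hT => ?_
  have hX : |2 ^ 48 * x0 - (-((523594624647192 : ℕ) : ℝ))| ≤ ((64 : ℕ) : ℝ) := by simpa using hX0
  have hz := zvX hX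
  have n0_0 : TCellU 10 12 13 x0 0 ((8444249301320 : ℕ) / 2 ^ 48) := tcu_sub (TCellU.of_t (Pool.Agent.CXD.tX10_X12_X13_near_h hz hT)) (by norm_num) le_rfl
  have n0_1 : TCellU 10 12 13 x0 0 ((122160139892424 : ℕ) / 2 ^ 48) := tcu_join n0_0 (TCellU.of_t (Pool.Agent.CXD.tX10_X12_X13_near_g hz hT)) (by norm_num) (by norm_num)
  have h0 : QXS 10 12 13 x0 := qxS_pt (by norm_num) (by norm_num) (by norm_num) hT hX Pool.Agent.Helper81.TK.E_10_12_13_mid.T (hasP (N := 10) (by decide +kernel)) (hasP (N := 12) (by decide +kernel)) (hasP (N := 13) (by decide +kernel)) n0_1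
    (by norm_num) (by norm_num) (by norm_num) (FarI_three (p := 10) (lo := 450359962737050) (hi := 537617205517353) (by norm_num) (by norm_num) (by norm_num)) (by norm_num) (by norm_num)
  have n1_0 : TCellU 10 13 12 x0 0 ((2251799813684 : ℕ) / 2 ^ 48) := tcu_sub (TCellU.of_t (Pool.Agent.CXD.tX10_X13X12_neara hz (thr_mir hT))) (by norm_num) le_rfl
  have n1_1 : TCellU 10 13 12 x0 0 ((8444249301320 : ℕ) / 2 ^ 48) := tcu_join n1_0 (TCellU.of_t (Pool.Agent.CXD.tX10_X13_X12_near_h hz (thr_mir hT))) (by norm_num) (by norm_num)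
  have n1_2 : TCellU 10 13 12 x0 0 ((122160139892424 : ℕ) / 2 ^ 48) := tcu_join n1_1 (TCellU.of_t (Pool.Agent.CXD.tX10_X13_X12_near_g hz (thr_mir hT))) (by norm_num) (by norm_num)
  have h1 : QXS 10 13 12 x0 := qxS_pt (by norm_num) (by norm_num) (by norm_num) (thr_mir hT) hX Pool.Agent.Helper81.TK.E_10_13_12_mid.T (hasP (N := 10) (by decide +kernel)) (hasP (N := 13) (by decide +kernel)) (hasP (N := 12) (by decide +kernel)) n1_2
    (by norm_num) (by norm_num) (by norm_num) (FarI_three (p := 10) (lo := 450359962737050) (hi := 537617205517353) (by norm_num) (by norm_num) (by norm_num)) (by norm_num) (by norm_num)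
  exact zf_QS (by norm_num) (by norm_num) (by norm_num) (by norm_num) hT h0 h1.rot2

/-- the triple `(10, 12, 14)` -/
theorem hd_10_12_14 : FinAt 10 12 14 := by
  refine z_10_12_14 fun x0 hX0 hT => ?_
  have hX : |2 ^ 48 * x0 - (-((522672698499805 : ℕ) : ℝ))| ≤ ((64 : ℕ) : ℝ) := by simpa using hX0
  have hz := zvX hX
  have n0_0 : TCellU 10 12 14 x0 0 ((5629499534212 : ℕ) / 2 ^ 48) := tcu_sub (TCellU.of_t (Pool.Agent.CXD.tX10_X12_X14_nearz hz hT)) (by norm_num) le_rfl
  have n0_1 : TCellU 10 12 14 x0 0 ((8444249301320 : ℕ) / 2 ^ 48) := tcu_join n0_0 (TCellU.of_t (Pool.Agent.CXD.tX10_X12_X14_near_h hz hT)) (by norm_num) (by norm_num)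
  have n0_2 : TCellU 10 12 14 x0 0 ((122160139892424 : ℕ) / 2 ^ 48) := tcu_join n0_1 (TCellU.of_t (Pool.Agent.CXD.tX10_X12_X14_near_g hz hT)) (by norm_num) (by norm_num)
  have h0 : QXS 10 12 14 x0 := qxS_pt (by norm_num) (by norm_num) (by norm_num) hT hX Pool.Agent.Helper81.TK.E_10_12_14_mid.T (hasP (N := 10) (by decide +kernel)) (hasP (N := 12) (by decide +kernel)) (hasP (N := 14) (by decide +kernel)) n0_2
    (by norm_num) (by norm_num) (by norm_num) (FarI_three (p := 10) (lo := 450359962737050) (hi := 537617205517353) (by norm_num) (by norm_num) (by norm_num)) (by norm_num) (by norm_num)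
  have n1_0 : TCellU 10 14 12 x0 0 ((5629499534212 : ℕ) / 2 ^ 48) := tcu_sub (TCellU.of_t (Pool.Agent.CXD.tX10_X14_X12_nearz hz (thr_mir hT))) (by norm_num) le_rfl
  have n1_1 : TCellU 10 14 12 x0 0 ((8444249301320 : ℕ) / 2 ^ 48) := tcu_join n1_0 (TCellU.of_t (Pool.Agent.CXD.tX10_X14_X12_near_h hz (thr_mir hT))) (by norm_num) (by norm_num)
  have n1_2 : TCellU 10 14 12 x0 0 ((122160139892424 : ℕ) / 2 ^ 48) := tcu_join n1_1 (TCellU.of_t (Pool.Agent.CXD.tX10_X14_X12_near_g hz (thr_mir hT))) (by norm_num) (by norm_num)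
  have h1 : QXS 10 14 12 x0 := qxS_pt (by norm_num) (by norm_num) (by norm_num) (thr_mir hT) hX Pool.Agent.Helper81.TK.E_10_14_12_mid.T (hasP (N := 10) (by decide +kernel)) (hasP (N := 14) (by decide +kernel)) (hasP (N := 12) (by decide +kernel)) n1_2
    (by norm_num) (by norm_num) (by norm_num) (FarI_three (p := 10) (lo := 450359962737050) (hi := 537617205517353) (by norm_num) (by norm_num) (by norm_num)) (by norm_num) (by norm_num)
  exact zf_QS (by norm_num) (by norm_num) (by norm_num) (by norm_num) hT h0 h1.rot2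

/-- the triple `(10, 13, 13)` -/
theorem hd_10_13_13 : FinAt 10 13 13 := by
  refine z_10_13_13 fun x0 hX0 hT => ?_
  have hX : |2 ^ 48 * x0 - (-((526407229438343 : ℕ) : ℝ))| ≤ ((64 : ℕ) : ℝ) := by simpa using hX0
  have hz := zvX hX
  have n0_0 : TCellU 10 13 13 x0 0 ((2251799813684 : ℕ) / 2 ^ 48) := tcu_sub (Pool.Agent.CXD.tX10_X13X13_nearz hz hT) (by norm_num) le_rfl
  have n0_1 : TCellU 10 13 13 x0 0 ((25332747903960 : ℕ) / 2 ^ 48) := tcu_join n0_0 (Pool.Agent.CXD.tX10_X13X13_nearb hz hT) (by norm_num) (by norm_num)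
  have n0_2 : TCellU 10 13 13 x0 0 ((122160139892424 : ℕ) / 2 ^ 48) := tcu_join n0_1 (Pool.Agent.CXD.tX10_X13X13_nearc hz hT) (by norm_num) (by norm_num)
  have h0 : QXS 10 13 13 x0 := qxS_pt (by norm_num) (by norm_num) (by norm_num) hT hX Pool.Agent.Helper81.TK.E_10_13_13_mid.T (hasP (N := 10) (by decide +kernel)) (hasP (N := 13) (by decide +kernel)) (hasP (N := 13) (by decide +kernel)) n0_2
    (by norm_num) (by norm_num) (by norm_num) (FarI_three (p := 10) (lo := 450359962737050) (hi := 537617205517353) (by norm_num) (by norm_num) (by norm_num)) (by norm_num) (by norm_num)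
  exact zf_QS2 (by norm_num) (by norm_num) (by norm_num) hT h0

/-- the triple `(10, 13, 14)` -/
theorem hd_10_13_14 : FinAt 10 13 14 := by
  refine z_10_13_14 fun x0 hX0 hT => ?_
  have hX : |2 ^ 48 * x0 - (-((525467506974790 : ℕ) : ℝ))| ≤ ((64 : ℕ) : ℝ) := by simpa using hX0
  have hz := zvX hX
  have n0_0 : TCellU 10 13 14 x0 0 ((2251799813684 : ℕ) / 2 ^ 48) := tcu_sub (TCellU.of_t (Pool.Agent.CXD.tX10_X13X14_neara hz hT)) (by norm_num) le_rfl
  have n0_1 : TCellU 10 13 14 x0 0 ((8444249301320 : ℕ) / 2 ^ 48) := tcu_join n0_0 (Pool.Agent.CXD.tX10_X13X14_nearb hz hT) (by norm_num) (by norm_num)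
  have n0_2 : TCellU 10 13 14 x0 0 ((25332747903960 : ℕ) / 2 ^ 48) := tcu_join n0_1 (Pool.Agent.CXD.tX10_X13X14_neard hz hT) (by norm_num) (by norm_num)
  have n0_3 : TCellU 10 13 14 x0 0 ((122160139892424 : ℕ) / 2 ^ 48) := tcu_join n0_2 (Pool.Agent.CXD.tX10_X13X14_nearc hz hT) (by norm_num) (by norm_num)
  have h0 : QXS 10 13 14 x0 := qxS_pt (by norm_num) (by norm_num) (by norm_num) hT hX Pool.Agent.Helper81.TK.E_10_13_14_mid.T (hasP (N := 10) (by decide +kernel)) (hasP (N := 13) (by decide +kernel)) (hasP (N := 14) (by decide +kernel)) n0_3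
    (by norm_num) (by norm_num) (by norm_num) (FarI_three (p := 10) (lo := 450359962737050) (hi := 537617205517353) (by norm_num) (by norm_num) (by norm_num)) (by norm_num) (by norm_num)
  have n1_0 : TCellU 10 14 13 x0 0 ((2251799813684 : ℕ) / 2 ^ 48) := tcu_sub (TCellU.of_t (Pool.Agent.CXD.tX10_X14X13_neara hz (thr_mir hT))) (by norm_num) le_rfl
  have n1_1 : TCellU 10 14 13 x0 0 ((8444249301320 : ℕ) / 2 ^ 48) := tcu_join n1_0 (TCellU.of_t (Pool.Agent.CXD.tX10_X14_X13_near_h hz (thr_mir hT))) (by norm_num) (by norm_num)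
  have n1_2 : TCellU 10 14 13 x0 0 ((25332747903960 : ℕ) / 2 ^ 48) := tcu_join n1_1 (Pool.Agent.CXD.tX10_X14X13_neard hz (thr_mir hT)) (by norm_num) (by norm_num)
  have n1_3 : TCellU 10 14 13 x0 0 ((122160139892424 : ℕ) / 2 ^ 48) := tcu_join n1_2 (Pool.Agent.CXD.tX10_X14X13_nearc hz (thr_mir hT)) (by norm_num) (by norm_num)
  have h1 : QXS 10 14 13 x0 := qxS_pt (by norm_num) (by norm_num) (by norm_num) (thr_mir hT) hX Pool.Agent.Helper81.TK.E_10_14_13_mid.T (hasP (N := 10) (by decide +kernel)) (hasP (N := 14) (by decide +kernel)) (hasP (N := 13) (by decide +kernel)) n1_3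
    (by norm_num) (by norm_num) (by norm_num) (FarI_three (p := 10) (lo := 450359962737050) (hi := 537617205517353) (by norm_num) (by norm_num) (by norm_num)) (by norm_num) (by norm_num)
  exact zf_QS (by norm_num) (by norm_num) (by norm_num) (by norm_num) hT h0 h1.rot2

end Pool.Agent.Helper81.HD
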