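import Pool.Agent.Helper81.MIT.LinQ
import Pool.Agent.Helper30.W2.CellsX10_14_14
import Pool.Agent.Helper81.TK.GL11

/-!
The triple `(10, 14, 14)`: a window of the star frame and the line of `Lpp`.
-/

set_option autoImplicit false
set_option exponentiation.threshold 4000
noncomputable section
namespace Pool.Agent.Helper81.HD

open Pool.Agent.Helper81.MIT
open Pool.Agent.Helper6.MONO (FinAt)
open Pool.Agent.Helper6.MONO.QTR (QX)
open Pool.Agent.Helper6.CXT (ln0 ln1)
open Pool.Agent.Helper30.W2 (Lx inT Tt)

theorem b1014_d00 : TcL (Lx (.a 1205407067898357 649930504716197 649930504716197)) (Lb.tl 535397221549391 535397221549393) (Lb.tl 548835622751894 548835622751896) (Lb.tl 548835622751894 548835622751896) 0 2251799813685248 :=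
  (Pool.Agent.Helper81.TK.E_10_T_T_Lpp.T.box (Lb.le_refl _) (Lb.le_tl (by norm_num) (by norm_num)) (Lb.le_tl (by norm_num) (by norm_num))).sub (by norm_num) (by norm_num)
theorem b1014_m00 : TcL (Lx (.a 1205407067898357 649930504716197 649930504716197)) (Lb.tl 535397221549391 535397221549393) (Lb.tl 548835622751894 548835622751896) (Lb.tl 548835622751894 548835622751896) 0 2251799813685248 :=
  (Pool.Agent.Helper81.TK.E_10_T_T_Lpp.T.box (Lb.le_refl _) (Lb.le_tl (by norm_num) (by norm_num)) (Lb.le_tl (by norm_num) (by norm_num))).sub (by norm_num) (by norm_num)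
/-- task `(14, 14, 14, 14)` of the class `10` -/
theorem h3_10_14_14 {q r : ℕ} (hT : inT ⟨14, 14, 14, 14, .a 1205407067898357 649930504716197 649930504716197⟩ q r = true) (hqr : q ≤ r) :
    QX 10 q r (Lx (.a 1205407067898357 649930504716197 649930504716197) 10 q r) ∧ QX 10 r q (Lx (.a 1205407067898357 649930504716197 649930504716197) 10 q r) :=
  h3_a (lo := 450359962737050) (hi := 537617205517353) (Q := [(14, 14)]) (R := [(14, 14)])
    (l := [((548835622751894, 548835622751896), (548835622751894, 548835622751896))])
    (l' := [((548835622751894, 548835622751896), (548835622751894, 548835622751896))])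
    (inB_ok (P := (10, 10)) (b := (535397221549391, 535397221549393)) (by decide +kernel) ⟨le_rfl, Or.inr le_rfl⟩) (by norm_num) (by norm_num) (by decide +kernel) (by decide +kernel) (by norm_num) (by decide +kernel) (by norm_num)
    (FarI_three (by norm_num) (by norm_num) (by norm_num)) (by decide +kernel) (by decide +kernel)
    (List.forall_mem_cons.2 ⟨b1014_d00, (fun _ h => absurd h List.not_mem_nil)⟩)
    (List.forall_mem_cons.2 ⟨b1014_m00, (fun _ h => absurd h List.not_mem_nil)⟩) le_rfl hT hqr


/-- the triple `(10, 14, 14)` -/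
theorem hd_10_14_14 : FinAt 10 14 14 := by
  have k := h3_10_14_14 (q := 14) (r := 14) (by decide +kernel) le_rfl
  exact Pool.Agent.Helper30.W2.X10_14_14.fin k.1 k.2

end Pool.Agent.Helper81.HD
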