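import Pool.Agent.Helper81.MIT.Top7
import Pool.Agent.Helper81.HD.T10
import Pool.Agent.Helper81.HD.T10_14_14
import Pool.Agent.Helper81.HD.R10_10
import Pool.Agent.Helper81.HD.R10_11
import Pool.Agent.Helper81.HD.R10_12
import Pool.Agent.Helper81.HD.R10_13
import Pool.Agent.Helper81.HD.R10_14

/-!
The exceptional orders of the class `10`: single triples and rows.
-/

set_option autoImplicit false
noncomputable section
namespace Pool.Agent.Helper81.HD

open Pool.Agent.Helper81.MIT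
open Pool.Agent.Helper30.W2 (Dt inT)

theorem hds_10 : HDS 10 := by
  intro q r hq hpq hqr h
  obtain ⟨t, ht, hi⟩ := h
  simp only [Dt, List.mem_cons, List.not_mem_nil, or_false] at ht
  rcases ht with rfl | rfl | rfl | rfl | rfl | rfl
  · have k := inT_b hi
    rcases (by omega : (q = 10 ∧ r = 10) ∨ (q = 10 ∧ r = 11) ∨ (q = 10 ∧ r = 12) ∨ (q = 10 ∧ r = 13) ∨ (q = 10 ∧ r = 14)) with ⟨rfl, rfl⟩ | ⟨rfl, rfl⟩ | ⟨rfl, rfl⟩ | ⟨rfl, rfl⟩ | ⟨rfl, rfl⟩
    · exact hd_10_10_10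
    · exact hd_10_10_11
    · exact hd_10_10_12
    · exact hd_10_10_13
    · exact hd_10_10_14
  · have k := inT_b hi
    rcases (by omega : (q = 11 ∧ r = 11) ∨ (q = 11 ∧ r = 12) ∨ (q = 11 ∧ r = 13) ∨ (q = 11 ∧ r = 14)) with ⟨rfl, rfl⟩ | ⟨rfl, rfl⟩ | ⟨rfl, rfl⟩ | ⟨rfl, rfl⟩
    · exact hd_10_11_11
    · exact hd_10_11_12
    · exact hd_10_11_13
    · exact hd_10_11_14
  · have k := inT_b hi
    rcases (by omega : (q = 12 ∧ r = 12) ∨ (q = 12 ∧ r = 13) ∨ (q = 12 ∧ r = 14)) with ⟨rfl, rfl⟩ | ⟨rfl, rfl⟩ | ⟨rfl, rfl⟩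
    · exact hd_10_12_12
    · exact hd_10_12_13
    · exact hd_10_12_14
  · have k := inT_b hi
    rcases (by omega : (q = 13 ∧ r = 13) ∨ (q = 13 ∧ r = 14)) with ⟨rfl, rfl⟩ | ⟨rfl, rfl⟩
    · exact hd_10_13_13
    · exact hd_10_13_14
  · have k := inT_b hi
    rcases (by omega : (q = 14 ∧ r = 14)) with ⟨rfl, rfl⟩
    · exact hd_10_14_14
  · have k := inT_b hi
    rcases (by omega : q = 10 ∨ q = 11 ∨ q = 12 ∨ q = 13 ∨ q = 14) with rfl | rfl | rfl | rfl | rfl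
    · exact R10_10.row_10_10 r (by omega)
    · exact R10_11.row_10_11 r (by omega)
    · exact R10_12.row_10_12 r (by omega)
    · exact R10_13.row_10_13 r (by omega)
    · exact R10_14.row_10_14 r (by omega)

end Pool.Agent.Helper81.HD
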