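import Pool.Agent.CXD.M_X11_X11_T_0
import Pool.Agent.CXD.M_X11_X11_T_1
import Pool.Agent.CXD.M_X11_X11_T_2
import Pool.Agent.Helper81.MIT.SubX
import Pool.Agent.Helper81.TK.GR2

/-!
The row `(11, 11, r)`, `r` at least `15`.
-/

set_option autoImplicit false
set_option exponentiation.threshold 4000
noncomputable section
namespace Pool.Agent.Helper81.HD.R11_11

open Pool.Agent.Helper81.MIT
open Pool.Agent.Helper6.MONO (Thr fB xA FinAt Kp)
open Pool.Agent.Helper57.U2 (TCellU)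
open Pool.Agent.Helper84.ST (QXS)
open Pool.Agent.Helper84.XL (XH)
open Pool.Agent.Helper86.C75 (Z)
open Pool.Agent.Helper90.KMO (zv)
open Pool.Agent.Helper21.KTE (KS)
open Pool.Agent.Helper57.XL (chkX hX_of okx)


theorem nA151_15 {r : ℕ} (h1 : 15 ≤ r) (h2 : r ≤ 17) : TCellU 11 11 r (xA 11 11 r) 0 ((122160139892424 : ℕ) / 2 ^ 48) := by
  have k0 : TCellU 11 11 r (xA 11 11 r) 0 ((16451602191688 : ℕ) / 2 ^ 48) := tcu_sub (Pool.Agent.CXD.tX11X11T_nearG15_17 (inB_ok (P := (15, 17)) (b := (550648146034688, 553364660944896)) (by decide +kernel) ⟨h1, Or.inr h2⟩) (by omega) (by omega)) (by norm_num) le_rfl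
  have k1 : TCellU 11 11 r (xA 11 11 r) 0 ((24849519265204 : ℕ) / 2 ^ 48) := tcu_join k0 (Pool.Agent.CXD.tX11X11T_nearK15_17 (inB_ok (P := (15, 17)) (b := (550648146034688, 553364660944896)) (by decide +kernel) ⟨h1, Or.inr h2⟩) (by omega) (by omega)) (by norm_num) (by norm_num)
  have k2 : TCellU 11 11 r (xA 11 11 r) 0 ((122160139892424 : ℕ) / 2 ^ 48) := tcu_join k1 (Pool.Agent.CXD.tX11X11T_nearH15_21 (inB_ok (P := (15, 17)) (b := (550648146034688, 556662267838464)) (by decide +kernel) ⟨h1, Or.inr h2⟩) (by omega) (by omega)) (by norm_num) (by norm_num)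
  exact tcu_sub k2 le_rfl (by norm_num)

theorem nA151_18 {r : ℕ} (h1 : 18 ≤ r) (h2 : r ≤ 21) : TCellU 11 11 r (xA 11 11 r) 0 ((122160139892424 : ℕ) / 2 ^ 48) := by
  have k0 : TCellU 11 11 r (xA 11 11 r) 0 ((16085828094116 : ℕ) / 2 ^ 48) := tcu_sub (Pool.Agent.CXD.tX11X11T_nearG18_21 (inB_ok (P := (18, 21)) (b := (554397478420480, 556662267838464)) (by decide +kernel) ⟨h1, Or.inr h2⟩) (by omega) (by omega)) (by norm_num) le_rfl
  have k1 : TCellU 11 11 r (xA 11 11 r) 0 ((24849519265204 : ℕ) / 2 ^ 48) := tcu_join k0 (Pool.Agent.CXD.tX11X11T_nearK18_21 (inB_ok (P := (18, 21)) (b := (554397478420480, 556662267838464)) (by decide +kernel) ⟨h1, Or.inr h2⟩) (by omega) (by omega)) (by norm_num) (by norm_num)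
  have k2 : TCellU 11 11 r (xA 11 11 r) 0 ((122160139892424 : ℕ) / 2 ^ 48) := tcu_join k1 (Pool.Agent.CXD.tX11X11T_nearH15_21 (inB_ok (P := (18, 21)) (b := (550648146034688, 556662267838464)) (by decide +kernel) ⟨h1, Or.inr h2⟩) (by omega) (by omega)) (by norm_num) (by norm_num)
  exact tcu_sub k2 le_rfl (by norm_num)

theorem nA151_22 {r : ℕ} (h1 : 22 ≤ r) (h2 : r ≤ 29) : TCellU 11 11 r (xA 11 11 r) 0 ((122160139892424 : ℕ) / 2 ^ 48) := by
  have k0 : TCellU 11 11 r (xA 11 11 r) 0 ((13145510600804 : ℕ) / 2 ^ 48) := tcu_sub (Pool.Agent.CXD.tX11X11T_nearG22_29 (inB_ok (P := (22, 29)) (b := (557219934371840, 559649916715008)) (by decide +kernel) ⟨h1, Or.inr h2⟩) (by omega) (by omega)) (by norm_num) le_rfl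
  have k1 : TCellU 11 11 r (xA 11 11 r) 0 ((122160139892424 : ℕ) / 2 ^ 48) := tcu_join k0 (Pool.Agent.CXD.tX11X11T_nearH22_oo (inB_ok (P := (22, 29)) (b := (557219934371840, 562949953421312)) (by decide +kernel) ⟨h1, Or.inr h2⟩) (by omega) (by omega)) (by norm_num) (by norm_num)
  exact tcu_sub k1 le_rfl (by norm_num)

theorem nA151_30 {r : ℕ} (h1 : 30 ≤ r) : TCellU 11 11 r (xA 11 11 r) 0 ((122160139892424 : ℕ) / 2 ^ 48) := by
  have k0 : TCellU 11 11 r (xA 11 11 r) 0 ((14659345402748 : ℕ) / 2 ^ 48) := tcu_sub (Pool.Agent.CXD.tX11X11T_nearG30_oo (inB_ok (P := (30, 0)) (b := (559866054443008, 562949953421312)) (by decide +kernel) ⟨h1, Or.inl rfl⟩) (by omega) (by omega)) (by norm_num) le_rfl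
  have k1 : TCellU 11 11 r (xA 11 11 r) 0 ((122160139892424 : ℕ) / 2 ^ 48) := tcu_join k0 (Pool.Agent.CXD.tX11X11T_nearH22_oo (inB_ok (P := (30, 0)) (b := (557219934371840, 562949953421312)) (by decide +kernel) ⟨h1, Or.inl rfl⟩) (by omega) (by omega)) (by norm_num) (by norm_num)
  exact tcu_sub k1 le_rfl (by norm_num)

theorem nA151 {r : ℕ} (h1 : 15 ≤ r) : TCellU 11 11 r (xA 11 11 r) 0 ((122160139892424 : ℕ) / 2 ^ 48) := by
  rcases Nat.lt_or_ge r 18 with g | g
  · exact nA151_15 (by omega) (by omega)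
  rcases Nat.lt_or_ge r 22 with g | g
  · exact nA151_18 (by omega) (by omega)
  rcases Nat.lt_or_ge r 30 with g | g
  · exact nA151_22 (by omega) (by omega)
  exact nA151_30 (by omega)

theorem qA151 {r : ℕ} (h1 : 15 ≤ r) : QXS 11 11 r (xA 11 11 r) :=
  qxS_A (by norm_num) (by norm_num) (by omega) (by omega) Pool.Agent.Helper81.TK.E_11_11_T_mid2.T (hasP (N := 11) (by decide +kernel)) (hasP (N := 11) (by decide +kernel)) (inB_ok (P := (15, 0)) (b := (550648146034688, 562949953421312)) (by decide +kernel) ⟨h1, Or.inl rfl⟩) (nA151 h1)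
    (by norm_num) (by norm_num) (by norm_num) (far3 (L := 511658582480431) (H := 529845183777248) (by norm_num) (by norm_num) (by omega) (xaB_ok (lo := 511658582480431) (hi := 529845183777248) (i := (11, 11)) (j := (11, 11)) (k := (15, 0)) (by decide +kernel) ⟨le_rfl, Or.inr le_rfl⟩ ⟨le_rfl, Or.inr le_rfl⟩ ⟨h1, Or.inl rfl⟩) (by norm_num) (by norm_num))

theorem fA15 {r : ℕ} (h1 : 15 ≤ r) : FinAt 11 11 r :=
  row_Ac (by norm_num) (by norm_num) (by omega) (by omega) (qA151 h1) (qA151 h1)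

/-- the row `(11, 11, r)` -/
theorem row_11_11 : ∀ r, 15 ≤ r → FinAt 11 11 r := by
  intro r hr
  exact fA15 (by omega)

end Pool.Agent.Helper81.HD.R11_11
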