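import Pool.Agent.CXD.M_G11_7
import Pool.Agent.CXD.M_G11_8
import Pool.Agent.CXD.M_G11_13
import Pool.Agent.CXD.M_G11_14
import Pool.Agent.Helper81.MIT.HDl
import Pool.Agent.Helper81.MIT.PtR1
import Pool.Agent.Helper81.MIT.RotF
import Pool.Agent.Helper81.MIT.XPt
import Pool.Agent.Helper81.TK.GS1
import Pool.Agent.Helper81.TK.GS2

/-!
The exact triples `(11, 13, r)` of the row `(11, 13)`.
-/

set_option autoImplicit false
set_option exponentiation.threshold 4000
noncomputable section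
namespace Pool.Agent.Helper81.HD

open Pool.Agent.Helper81.MIT
open Pool.Agent.Helper6.MONO (Thr fB FinAt Kp)
open Pool.Agent.Helper57.U2 (TCellU)
open Pool.Agent.Helper84.ST (QXS)

namespace E11_13_15
/-- the triple `(11, 13, 15)` -/
theorem fe : FinAt 11 13 15 := by
  refine z60_11_13_15 fun x0 hX0 hT tB => ?_
  have hX : |2 ^ 48 * x0 - (-((528954800476117 : ℕ) : ℝ))| ≤ ((64 : ℕ) : ℝ) := by
    push_cast; exact hX0.trans (by norm_num)
  have hK := kz_pm (M := 15) (K := 550648146272264) (by norm_num) (by norm_num) rfl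
  have hz := zvX hX
  have hR : ((528954800476053 : ℕ) : ℝ) ≤ -(2 ^ 48 * x0) ∧ -(2 ^ 48 * x0) ≤ ((528954800476181 : ℕ) : ℝ) := by
    rw [abs_le] at hX0; push_cast; constructor <;> linarith [hX0.1, hX0.2]
  have n0_0 : TCellU 11 13 15 x0 0 ((949978046400 : ℕ) / 2 ^ 48) := tcu_sub (TCellU.of_t (Pool.Agent.CXD.tX11_X13_X15_near_Bt hz hT tB)) (by norm_num) le_rfl
  have n0_1 : TCellU 11 13 15 x0 0 ((2251799813684 : ℕ) / 2 ^ 48) := tcu_join n0_0 (TCellU.of_t (Pool.Agent.CXD.tX11_X13_X15_near_B hz hT tB)) (by norm_num) (by norm_num)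
  have n0_2 : TCellU 11 13 15 x0 0 ((8444249301320 : ℕ) / 2 ^ 48) := tcu_join n0_1 (TCellU.of_t (Pool.Agent.CXD.tX11_X13_X15_near_h hz hT)) (by norm_num) (by norm_num)
  have n0_3 : TCellU 11 13 15 x0 0 ((122160139892424 : ℕ) / 2 ^ 48) := tcu_join n0_2 (TCellU.of_t (Pool.Agent.CXD.tX11_X13_X15_near_g hz hT)) (by norm_num) (by norm_num)
  have h0 : QXS 11 13 15 x0 :=
    qxS_O (by norm_num) (by norm_num) (by norm_num) hT.gt hT.le (xh_pt (X := 528954800476117) (by decide +kernel) hK.1 hK.2 hX) Pool.Agent.Helper81.TK.E_11_13_T_midB.T (hasP (N := 11) (by decide +kernel)) (hasP (N := 13) (by decide +kernel)) (inB_ok (P := (15, 15)) (b := (550648146034688, 551123268665344)) (by decide +kernel) ⟨le_rfl, Or.inr le_rfl⟩) n0_3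
      (by norm_num) (by norm_num) (by norm_num) (far3 (L := 528954800476053) (H := 528954800476181) (by norm_num) (by norm_num) (by norm_num) hR (by norm_num) (by norm_num))
  have n1_0 : TCellU 11 15 13 x0 0 ((2251799813684 : ℕ) / 2 ^ 48) := tcu_sub (TCellU.of_t (Pool.Agent.CXD.tX11_X15_X13_near_B hz (thr_mir hT) (fB_mi tB))) (by norm_num) le_rfl
  have n1_1 : TCellU 11 15 13 x0 0 ((8444249301320 : ℕ) / 2 ^ 48) := tcu_join n1_0 (TCellU.of_t (Pool.Agent.CXD.tX11_X15_X13_near_B2 hz (thr_mir hT) (fB_mi tB))) (by norm_num) (by norm_num)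
  have n1_2 : TCellU 11 15 13 x0 0 ((122160139892424 : ℕ) / 2 ^ 48) := tcu_join n1_1 (TCellU.of_t (Pool.Agent.CXD.tX11_X15_X13_near_g hz (thr_mir hT))) (by norm_num) (by norm_num)
  have h1 : QXS 11 15 13 x0 :=
    qxS_rm (by norm_num) (by norm_num) (by norm_num) hT.gt hT.le n1_2
      (Pool.Agent.Helper81.TK.E_13_11_T_midB.T 13 11 15 (hasP (N := 13) (by decide +kernel)) (hasP (N := 11) (by decide +kernel)) (inB_ok (P := (15, 15)) (b := (550648146034688, 551123268665344)) (by decide +kernel) ⟨le_rfl, Or.inr le_rfl⟩) x0 hT.gt hT.le (xh_pt (X := 528954800476117) (by decide +kernel) hK.1 hK.2 hX))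
      (by norm_num) (by norm_num) (by norm_num) (far3 (L := 528954800476053) (H := 528954800476181) (by norm_num) (by norm_num) (by norm_num) hR (by norm_num) (by norm_num))
  exact zf_QS (by norm_num) (by norm_num) (by norm_num) (by norm_num) hT h0 h1.rot2
end E11_13_15

end Pool.Agent.Helper81.HD
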