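import Pool.Agent.CXD.M_G11_10
import Pool.Agent.CXD.M_G11_11
import Pool.Agent.CXD.M_G11_12
import Pool.Agent.CXD.M_G11_13
import Pool.Agent.CXD.M_G11_14
import Pool.Agent.CXD.M_G11_15
import Pool.Agent.CXD.M_G11_16
import Pool.Agent.CXD.M_G14_0
import Pool.Agent.Helper81.MIT.HDl
import Pool.Agent.Helper81.MIT.PtR1
import Pool.Agent.Helper81.MIT.RotF
import Pool.Agent.Helper81.MIT.XPt
import Pool.Agent.Helper81.TK.GS1
import Pool.Agent.Helper81.TK.GS2

/-!
The exact triples `(11, 14, r)` of the row `(11, 14)`.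
-/

set_option autoImplicit false
set_option exponentiation.threshold 4000
noncomputable section
namespace Pool.Agent.Helper81.HD

open Pool.Agent.Helper81.MIT
open Pool.Agent.Helper6.MONO (Thr fB FinAt Kp)
open Pool.Agent.Helper57.U2 (TCellU)
open Pool.Agent.Helper84.ST (QXS)

namespace E11_14_15
/-- the triple `(11, 14, 15)` -/
theorem fe : FinAt 11 14 15 := by
  refine z60_11_14_15 fun x0 hX0 hT tB => ?_
  have hX : |2 ^ 48 * x0 - (-((529304138217973 : ℕ) : ℝ))| ≤ ((64 : ℕ) : ℝ) := by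
    push_cast; exact hX0.trans (by norm_num)
  have hK := kz_pm (M := 15) (K := 550648146272264) (by norm_num) (by norm_num) rfl
  have hz := zvX hX
  have hR : ((529304138217909 : ℕ) : ℝ) ≤ -(2 ^ 48 * x0) ∧ -(2 ^ 48 * x0) ≤ ((529304138218037 : ℕ) : ℝ) := by
    rw [abs_le] at hX0; push_cast; constructor <;> linarith [hX0.1, hX0.2]
  have n0_0 : TCellU 11 14 15 x0 0 ((949978046400 : ℕ) / 2 ^ 48) := tcu_sub (TCellU.of_t (Pool.Agent.CXD.tX11_X14_X15_near_Bt hz hT tB)) (by norm_num) le_rfl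
  have n0_1 : TCellU 11 14 15 x0 0 ((2251799813684 : ℕ) / 2 ^ 48) := tcu_join n0_0 (TCellU.of_t (Pool.Agent.CXD.tX11_X14_X15_near_B hz hT tB)) (by norm_num) (by norm_num)
  have n0_2 : TCellU 11 14 15 x0 0 ((8444249301320 : ℕ) / 2 ^ 48) := tcu_join n0_1 (TCellU.of_t (Pool.Agent.CXD.tX11_X14_X15_near_h hz hT)) (by norm_num) (by norm_num)
  have n0_3 : TCellU 11 14 15 x0 0 ((122160139892424 : ℕ) / 2 ^ 48) := tcu_join n0_2 (TCellU.of_t (Pool.Agent.CXD.tX11_X14_X15_near_g hz hT)) (by norm_num) (by norm_num)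
  have h0 : QXS 11 14 15 x0 :=
    qxS_O (by norm_num) (by norm_num) (by norm_num) hT.gt hT.le (xh_pt (X := 529304138217973) (by decide +kernel) hK.1 hK.2 hX) Pool.Agent.Helper81.TK.E_11_14_T_midB.T (hasP (N := 11) (by decide +kernel)) (hasP (N := 14) (by decide +kernel)) (inB_ok (P := (15, 15)) (b := (550648146034688, 554666139058176)) (by decide +kernel) ⟨le_rfl, Or.inr le_rfl⟩) n0_3
      (by norm_num) (by norm_num) (by norm_num) (far3 (L := 529304138217909) (H := 529304138218037) (by norm_num) (by norm_num) (by norm_num) hR (by norm_num) (by norm_num))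
  have n1_0 : TCellU 11 15 14 x0 0 ((1266637395196 : ℕ) / 2 ^ 48) := tcu_sub (TCellU.of_t (Pool.Agent.CXD.tX11_X15_X14_near_Bt hz (thr_mir hT) (fB_mi tB))) (by norm_num) le_rfl
  have n1_1 : TCellU 11 15 14 x0 0 ((2251799813684 : ℕ) / 2 ^ 48) := tcu_join n1_0 (TCellU.of_t (Pool.Agent.CXD.tX11_X15_X14_near_B hz (thr_mir hT) (fB_mi tB))) (by norm_num) (by norm_num)
  have n1_2 : TCellU 11 15 14 x0 0 ((8444249301320 : ℕ) / 2 ^ 48) := tcu_join n1_1 (TCellU.of_t (Pool.Agent.CXD.tX11_X15_X14_near_h hz (thr_mir hT))) (by norm_num) (by norm_num)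
  have n1_3 : TCellU 11 15 14 x0 0 ((122160139892424 : ℕ) / 2 ^ 48) := tcu_join n1_2 (TCellU.of_t (Pool.Agent.CXD.tX11_X15_X14_near_g hz (thr_mir hT))) (by norm_num) (by norm_num)
  have h1 : QXS 11 15 14 x0 :=
    qxS_rm (by norm_num) (by norm_num) (by norm_num) hT.gt hT.le n1_3
      (Pool.Agent.Helper81.TK.E_14_11_T_midB.T 14 11 15 (hasP (N := 14) (by decide +kernel)) (hasP (N := 11) (by decide +kernel)) (inB_ok (P := (15, 15)) (b := (550648146034688, 554666139058176)) (by decide +kernel) ⟨le_rfl, Or.inr le_rfl⟩) x0 hT.gt hT.le (xh_pt (X := 529304138217973) (by decide +kernel) hK.1 hK.2 hX))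
      (by norm_num) (by norm_num) (by norm_num) (far3 (L := 529304138217909) (H := 529304138218037) (by norm_num) (by norm_num) (by norm_num) hR (by norm_num) (by norm_num))
  exact zf_QS (by norm_num) (by norm_num) (by norm_num) (by norm_num) hT h0 h1.rot2
end E11_14_15

namespace E11_14_16
/-- the triple `(11, 14, 16)` -/
theorem fe : FinAt 11 14 16 := by
  refine z60_11_14_16 fun x0 hX0 hT tB => ?_
  have hX : |2 ^ 48 * x0 - (-((529515083595698 : ℕ) : ℝ))| ≤ ((64 : ℕ) : ℝ) := by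
    push_cast; exact hX0.trans (by norm_num)
  have hK := kz_pm (M := 16) (K := 552133027919307) (by norm_num) (by norm_num) rfl
  have hz := zvX hX
  have hR : ((529515083595634 : ℕ) : ℝ) ≤ -(2 ^ 48 * x0) ∧ -(2 ^ 48 * x0) ≤ ((529515083595762 : ℕ) : ℝ) := by
    rw [abs_le] at hX0; push_cast; constructor <;> linarith [hX0.1, hX0.2]
  have n0_0 : TCellU 11 14 16 x0 0 ((2251799813684 : ℕ) / 2 ^ 48) := tcu_sub (TCellU.of_t (Pool.Agent.CXD.tX11_X14_X16_near_B hz hT tB)) (by norm_num) le_rfl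
  have n0_1 : TCellU 11 14 16 x0 0 ((8444249301320 : ℕ) / 2 ^ 48) := tcu_join n0_0 (TCellU.of_t (Pool.Agent.CXD.tX11_X14_X16_near_h hz hT)) (by norm_num) (by norm_num)
  have n0_2 : TCellU 11 14 16 x0 0 ((122160139892424 : ℕ) / 2 ^ 48) := tcu_join n0_1 (TCellU.of_t (Pool.Agent.CXD.tX11_X14_X16_near_g hz hT)) (by norm_num) (by norm_num)
  have h0 : QXS 11 14 16 x0 :=
    qxS_O (by norm_num) (by norm_num) (by norm_num) hT.gt hT.le (xh_pt (X := 529515083595698) (by decide +kernel) hK.1 hK.2 hX) Pool.Agent.Helper81.TK.E_11_14_T_midB.T (hasP (N := 11) (by decide +kernel)) (hasP (N := 14) (by decide +kernel)) (inB_ok (P := (16, 16)) (b := (550648146034688, 554666139058176)) (by decide +kernel) ⟨le_rfl, Or.inr le_rfl⟩) n0_2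
      (by norm_num) (by norm_num) (by norm_num) (far3 (L := 529515083595634) (H := 529515083595762) (by norm_num) (by norm_num) (by norm_num) hR (by norm_num) (by norm_num))
  have n1_0 : TCellU 11 16 14 x0 0 ((2251799813684 : ℕ) / 2 ^ 48) := tcu_sub (TCellU.of_t (Pool.Agent.CXD.tX11_X16_X14_near_B hz (thr_mir hT) (fB_mi tB))) (by norm_num) le_rfl
  have n1_1 : TCellU 11 16 14 x0 0 ((8444249301320 : ℕ) / 2 ^ 48) := tcu_join n1_0 (TCellU.of_t (Pool.Agent.CXD.tX11_X16_X14_near_B2 hz (thr_mir hT) (fB_mi tB))) (by norm_num) (by norm_num)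
  have n1_2 : TCellU 11 16 14 x0 0 ((122160139892424 : ℕ) / 2 ^ 48) := tcu_join n1_1 (TCellU.of_t (Pool.Agent.CXD.tX11_X16_X14_near_g hz (thr_mir hT))) (by norm_num) (by norm_num)
  have h1 : QXS 11 16 14 x0 :=
    qxS_rm (by norm_num) (by norm_num) (by norm_num) hT.gt hT.le n1_2
      (Pool.Agent.Helper81.TK.E_14_11_T_midB.T 14 11 16 (hasP (N := 14) (by decide +kernel)) (hasP (N := 11) (by decide +kernel)) (inB_ok (P := (16, 16)) (b := (550648146034688, 554666139058176)) (by decide +kernel) ⟨le_rfl, Or.inr le_rfl⟩) x0 hT.gt hT.le (xh_pt (X := 529515083595698) (by decide +kernel) hK.1 hK.2 hX))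
      (by norm_num) (by norm_num) (by norm_num) (far3 (L := 529515083595634) (H := 529515083595762) (by norm_num) (by norm_num) (by norm_num) hR (by norm_num) (by norm_num))
  exact zf_QS (by norm_num) (by norm_num) (by norm_num) (by norm_num) hT h0 h1.rot2
end E11_14_16

namespace E11_14_17
/-- the triple `(11, 14, 17)` -/
theorem fe : FinAt 11 14 17 := by
  refine z60_11_14_17 fun x0 hX0 hT tB => ?_
  have hX : |2 ^ 48 * x0 - (-((529684891631823 : ℕ) : ℝ))| ≤ ((64 : ℕ) : ℝ) := by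
    push_cast; exact hX0.trans (by norm_num)
  have hK := kz_pm (M := 17) (K := 553364660681455) (by norm_num) (by norm_num) rfl
  have hz := zvX hX
  have hR : ((529684891631759 : ℕ) : ℝ) ≤ -(2 ^ 48 * x0) ∧ -(2 ^ 48 * x0) ≤ ((529684891631887 : ℕ) : ℝ) := by
    rw [abs_le] at hX0; push_cast; constructor <;> linarith [hX0.1, hX0.2]
  have n0_0 : TCellU 11 14 17 x0 0 ((2251799813684 : ℕ) / 2 ^ 48) := tcu_sub (TCellU.of_t (Pool.Agent.CXD.tX11_X14_X17_near_B hz hT tB)) (by norm_num) le_rfl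
  have n0_1 : TCellU 11 14 17 x0 0 ((8444249301320 : ℕ) / 2 ^ 48) := tcu_join n0_0 (TCellU.of_t (Pool.Agent.CXD.tX11_X14_X17_near_h hz hT)) (by norm_num) (by norm_num)
  have n0_2 : TCellU 11 14 17 x0 0 ((122160139892424 : ℕ) / 2 ^ 48) := tcu_join n0_1 (TCellU.of_t (Pool.Agent.CXD.tX11_X14_X17_near_g hz hT)) (by norm_num) (by norm_num)
  have h0 : QXS 11 14 17 x0 :=
    qxS_O (by norm_num) (by norm_num) (by norm_num) hT.gt hT.le (xh_pt (X := 529684891631823) (by decide +kernel) hK.1 hK.2 hX) Pool.Agent.Helper81.TK.E_11_14_T_midB.T (hasP (N := 11) (by decide +kernel)) (hasP (N := 14) (by decide +kernel)) (inB_ok (P := (17, 17)) (b := (550648146034688, 554666139058176)) (by decide +kernel) ⟨le_rfl, Or.inr le_rfl⟩) n0_2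
      (by norm_num) (by norm_num) (by norm_num) (far3 (L := 529684891631759) (H := 529684891631887) (by norm_num) (by norm_num) (by norm_num) hR (by norm_num) (by norm_num))
  have n1_0 : TCellU 11 17 14 x0 0 ((2251799813684 : ℕ) / 2 ^ 48) := tcu_sub (TCellU.of_t (Pool.Agent.CXD.tX11_X17_X14_near_B hz (thr_mir hT) (fB_mi tB))) (by norm_num) le_rfl
  have n1_1 : TCellU 11 17 14 x0 0 ((8444249301320 : ℕ) / 2 ^ 48) := tcu_join n1_0 (TCellU.of_t (Pool.Agent.CXD.tX11_X17_X14_near_B2 hz (thr_mir hT) (fB_mi tB))) (by norm_num) (by norm_num)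
  have n1_2 : TCellU 11 17 14 x0 0 ((122160139892424 : ℕ) / 2 ^ 48) := tcu_join n1_1 (TCellU.of_t (Pool.Agent.CXD.tX11_X17_X14_near_g hz (thr_mir hT))) (by norm_num) (by norm_num)
  have h1 : QXS 11 17 14 x0 :=
    qxS_rm (by norm_num) (by norm_num) (by norm_num) hT.gt hT.le n1_2
      (Pool.Agent.Helper81.TK.E_14_11_T_midB.T 14 11 17 (hasP (N := 14) (by decide +kernel)) (hasP (N := 11) (by decide +kernel)) (inB_ok (P := (17, 17)) (b := (550648146034688, 554666139058176)) (by decide +kernel) ⟨le_rfl, Or.inr le_rfl⟩) x0 hT.gt hT.le (xh_pt (X := 529684891631823) (by decide +kernel) hK.1 hK.2 hX))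
      (by norm_num) (by norm_num) (by norm_num) (far3 (L := 529684891631759) (H := 529684891631887) (by norm_num) (by norm_num) (by norm_num) hR (by norm_num) (by norm_num))
  exact zf_QS (by norm_num) (by norm_num) (by norm_num) (by norm_num) hT h0 h1.rot2
end E11_14_17

namespace E11_14_18
/-- the triple `(11, 14, 18)` -/
theorem fe : FinAt 11 14 18 := by
  refine z60_11_14_18 fun x0 hX0 hT tB => ?_
  have hX : |2 ^ 48 * x0 - (-((529823765832619 : ℕ) : ℝ))| ≤ ((64 : ℕ) : ℝ) := by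
    push_cast; exact hX0.trans (by norm_num)
  have hK := kz_pm (M := 18) (K := 554397478687169) (by norm_num) (by norm_num) rfl
  have hz := zvX hX
  have hR : ((529823765832555 : ℕ) : ℝ) ≤ -(2 ^ 48 * x0) ∧ -(2 ^ 48 * x0) ≤ ((529823765832683 : ℕ) : ℝ) := by
    rw [abs_le] at hX0; push_cast; constructor <;> linarith [hX0.1, hX0.2]
  have n0_0 : TCellU 11 14 18 x0 0 ((2251799813684 : ℕ) / 2 ^ 48) := tcu_sub (TCellU.of_t (Pool.Agent.CXD.tX11_X14_X18_near_B hz hT tB)) (by norm_num) le_rfl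
  have n0_1 : TCellU 11 14 18 x0 0 ((8444249301320 : ℕ) / 2 ^ 48) := tcu_join n0_0 (TCellU.of_t (Pool.Agent.CXD.tX11_X14_X18_near_h hz hT)) (by norm_num) (by norm_num)
  have n0_2 : TCellU 11 14 18 x0 0 ((122160139892424 : ℕ) / 2 ^ 48) := tcu_join n0_1 (TCellU.of_t (Pool.Agent.CXD.tX11_X14_X18_near_g hz hT)) (by norm_num) (by norm_num)
  have h0 : QXS 11 14 18 x0 :=
    qxS_O (by norm_num) (by norm_num) (by norm_num) hT.gt hT.le (xh_pt (X := 529823765832619) (by decide +kernel) hK.1 hK.2 hX) Pool.Agent.Helper81.TK.E_11_14_T_midB.T (hasP (N := 11) (by decide +kernel)) (hasP (N := 14) (by decide +kernel)) (inB_ok (P := (18, 18)) (b := (550648146034688, 554666139058176)) (by decide +kernel) ⟨le_rfl, Or.inr le_rfl⟩) n0_2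
      (by norm_num) (by norm_num) (by norm_num) (far3 (L := 529823765832555) (H := 529823765832683) (by norm_num) (by norm_num) (by norm_num) hR (by norm_num) (by norm_num))
  have n1_0 : TCellU 14 11 18 x0 0 ((2251799813684 : ℕ) / 2 ^ 48) := tcu_sub (TCellU.of_t (Pool.Agent.CXD.tX14_X11_X18_near_B hz hT.swap (fB_sw tB))) (by norm_num) le_rfl
  have n1_1 : TCellU 14 11 18 x0 0 ((8444249301320 : ℕ) / 2 ^ 48) := tcu_join n1_0 (TCellU.of_t (Pool.Agent.CXD.tX14_X11_X18_near_h hz hT.swap)) (by norm_num) (by norm_num)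
  have n1_2 : TCellU 14 11 18 x0 0 ((122160139892424 : ℕ) / 2 ^ 48) := tcu_join n1_1 (TCellU.of_t (Pool.Agent.CXD.tX14_X11_X18_near_g hz hT.swap)) (by norm_num) (by norm_num)
  have h1 : QXS 14 11 18 x0 :=
    qxS_O (by norm_num) (by norm_num) (by norm_num) hT.gt hT.le (xh_pt (X := 529823765832619) (by decide +kernel) hK.1 hK.2 hX) Pool.Agent.Helper81.TK.E_14_11_T_midB.T (hasP (N := 14) (by decide +kernel)) (hasP (N := 11) (by decide +kernel)) (inB_ok (P := (18, 18)) (b := (550648146034688, 554666139058176)) (by decide +kernel) ⟨le_rfl, Or.inr le_rfl⟩) n1_2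
      (by norm_num) (by norm_num) (by norm_num) (far3 (L := 529823765832555) (H := 529823765832683) (by norm_num) (by norm_num) (by norm_num) hR (by norm_num) (by norm_num))
  exact zf_QS (by norm_num) (by norm_num) (by norm_num) (by norm_num) hT h0 h1
end E11_14_18

end Pool.Agent.Helper81.HD
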