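import Pool.Agent.CXD.M_X11_X14_T_0
import Pool.Agent.CXD.M_X11_X14_T_1
import Pool.Agent.CXD.M_X11_X14_T_2
import Pool.Agent.CXD.M_X11_X14_T_3
import Pool.Agent.CXD.M_X11_X14_T_4
import Pool.Agent.CXD.M_X14_X11_T_0
import Pool.Agent.CXD.M_X14_X11_T_1
import Pool.Agent.CXD.M_X14_X11_T_2
import Pool.Agent.CXD.M_X14_X11_T_3
import Pool.Agent.Helper81.HD.G11_14
import Pool.Agent.Helper81.MIT.SubX
import Pool.Agent.Helper81.TK.GS1
import Pool.Agent.Helper81.TK.GS2

/-!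
The row `(11, 14, r)`, `r` at least `15`.
-/

set_option autoImplicit false
set_option exponentiation.threshold 4000
noncomputable section
namespace Pool.Agent.Helper81.HD.R11_14

open Pool.Agent.Helper81.MIT
open Pool.Agent.Helper6.MONO (Thr fB xA FinAt Kp)
open Pool.Agent.Helper57.U2 (TCellU)
open Pool.Agent.Helper84.ST (QXS)
open Pool.Agent.Helper84.XL (XH)
open Pool.Agent.Helper86.C75 (Z)
open Pool.Agent.Helper90.KMO (zv)
open Pool.Agent.Helper21.KTE (KS)
open Pool.Agent.Helper57.XL (chkX hX_of okx)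


theorem nA191_19 {r : ℕ} (h1 : 19 ≤ r) (h2 : r ≤ 20) : TCellU 11 14 r (xA 11 14 r) 0 ((122160139892424 : ℕ) / 2 ^ 48) := by
  have k0 : TCellU 11 14 r (xA 11 14 r) 0 ((159033361840 : ℕ) / 2 ^ 48) := tcu_sub (Pool.Agent.CXD.tX11X14T_nearz1 (inB_ok (P := (19, 20)) (b := (555272049786880, 556019105398784)) (by decide +kernel) ⟨h1, Or.inr h2⟩) (by omega) (by omega)) (by norm_num) le_rfl
  have k1 : TCellU 11 14 r (xA 11 14 r) 0 ((13697285792708 : ℕ) / 2 ^ 48) := tcu_join k0 (Pool.Agent.CXD.tX11X14T_neargL1 (inB_ok (P := (19, 20)) (b := (555272049786880, 557219934633984)) (by decide +kernel) ⟨h1, Or.inr h2⟩) (by omega) (by omega)) (by norm_num) (by norm_num)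
  have k2 : TCellU 11 14 r (xA 11 14 r) 0 ((27499395698668 : ℕ) / 2 ^ 48) := tcu_join k1 (Pool.Agent.CXD.tX11X14T_neargT1 (inB_ok (P := (19, 20)) (b := (555272049786880, 557219934633984)) (by decide +kernel) ⟨h1, Or.inr h2⟩) (by omega) (by omega)) (by norm_num) (by norm_num)
  have k3 : TCellU 11 14 r (xA 11 14 r) 0 ((122160139892424 : ℕ) / 2 ^ 48) := tcu_join k2 (Pool.Agent.CXD.tX11X14T_neargH (inB_ok (P := (19, 20)) (b := (555272049786880, 562949953421312)) (by decide +kernel) ⟨h1, Or.inr h2⟩) (by omega) (by omega)) (by norm_num) (by norm_num)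
  exact tcu_sub k3 le_rfl (by norm_num)

theorem nA191_21 {r : ℕ} (h1 : 21 ≤ r) (h2 : r ≤ 22) : TCellU 11 14 r (xA 11 14 r) 0 ((122160139892424 : ℕ) / 2 ^ 48) := by
  have k0 : TCellU 11 14 r (xA 11 14 r) 0 ((112589990684 : ℕ) / 2 ^ 48) := tcu_sub (Pool.Agent.CXD.tX11X14T_nearz2 (inB_ok (P := (21, 22)) (b := (556662267314176, 557219934633984)) (by decide +kernel) ⟨h1, Or.inr h2⟩) (by omega) (by omega)) (by norm_num) le_rfl
  have k1 : TCellU 11 14 r (xA 11 14 r) 0 ((13697285792708 : ℕ) / 2 ^ 48) := tcu_join k0 (Pool.Agent.CXD.tX11X14T_neargL1 (inB_ok (P := (21, 22)) (b := (555272049786880, 557219934633984)) (by decide +kernel) ⟨h1, Or.inr h2⟩) (by omega) (by omega)) (by norm_num) (by norm_num)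
  have k2 : TCellU 11 14 r (xA 11 14 r) 0 ((27499395698668 : ℕ) / 2 ^ 48) := tcu_join k1 (Pool.Agent.CXD.tX11X14T_neargT1 (inB_ok (P := (21, 22)) (b := (555272049786880, 557219934633984)) (by decide +kernel) ⟨h1, Or.inr h2⟩) (by omega) (by omega)) (by norm_num) (by norm_num)
  have k3 : TCellU 11 14 r (xA 11 14 r) 0 ((122160139892424 : ℕ) / 2 ^ 48) := tcu_join k2 (Pool.Agent.CXD.tX11X14T_neargH (inB_ok (P := (21, 22)) (b := (555272049786880, 562949953421312)) (by decide +kernel) ⟨h1, Or.inr h2⟩) (by omega) (by omega)) (by norm_num) (by norm_num)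
  exact tcu_sub k3 le_rfl (by norm_num)

theorem nA191_23 {r : ℕ} (h1 : 23 ≤ r) (h2 : r ≤ 25) : TCellU 11 14 r (xA 11 14 r) 0 ((122160139892424 : ℕ) / 2 ^ 48) := by
  have k0 : TCellU 11 14 r (xA 11 14 r) 0 ((112589990684 : ℕ) / 2 ^ 48) := tcu_sub (Pool.Agent.CXD.tX11X14T_nearz3 (inB_ok (P := (23, 25)) (b := (557706607067136, 558510925152256)) (by decide +kernel) ⟨h1, Or.inr h2⟩) (by omega) (by omega)) (by norm_num) le_rfl
  have k1 : TCellU 11 14 r (xA 11 14 r) 0 ((13697285792708 : ℕ) / 2 ^ 48) := tcu_join k0 (Pool.Agent.CXD.tX11X14T_neargL2 (inB_ok (P := (23, 25)) (b := (557706607067136, 559649916715008)) (by decide +kernel) ⟨h1, Or.inr h2⟩) (by omega) (by omega)) (by norm_num) (by norm_num)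
  have k2 : TCellU 11 14 r (xA 11 14 r) 0 ((18623811138092 : ℕ) / 2 ^ 48) := tcu_join k1 (Pool.Agent.CXD.tX11X14T_neargT2 (inB_ok (P := (23, 25)) (b := (557706607067136, 559649916715008)) (by decide +kernel) ⟨h1, Or.inr h2⟩) (by omega) (by omega)) (by norm_num) (by norm_num)
  have k3 : TCellU 11 14 r (xA 11 14 r) 0 ((27499395698668 : ℕ) / 2 ^ 48) := tcu_join k2 (Pool.Agent.CXD.tX11X14T_neargK2 (inB_ok (P := (23, 25)) (b := (557706607067136, 559649916715008)) (by decide +kernel) ⟨h1, Or.inr h2⟩) (by omega) (by omega)) (by norm_num) (by norm_num)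
  have k4 : TCellU 11 14 r (xA 11 14 r) 0 ((122160139892424 : ℕ) / 2 ^ 48) := tcu_join k3 (Pool.Agent.CXD.tX11X14T_neargH (inB_ok (P := (23, 25)) (b := (555272049786880, 562949953421312)) (by decide +kernel) ⟨h1, Or.inr h2⟩) (by omega) (by omega)) (by norm_num) (by norm_num)
  exact tcu_sub k4 le_rfl (by norm_num)

theorem nA191_26 {r : ℕ} (h1 : 26 ≤ r) (h2 : r ≤ 29) : TCellU 11 14 r (xA 11 14 r) 0 ((122160139892424 : ℕ) / 2 ^ 48) := by
  have k0 : TCellU 11 14 r (xA 11 14 r) 0 ((101965635492 : ℕ) / 2 ^ 48) := tcu_sub (Pool.Agent.CXD.tX11X14T_nearz4 (inB_ok (P := (26, 29)) (b := (558727828865024, 559853728694272)) (by decide +kernel) ⟨h1, Or.inr h2⟩) (by omega) (by omega)) (by norm_num) le_rfl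
  have k1 : TCellU 11 14 r (xA 11 14 r) 0 ((13697285792708 : ℕ) / 2 ^ 48) := tcu_join k0 (Pool.Agent.CXD.tX11X14T_neargL2 (inB_ok (P := (26, 29)) (b := (557706607067136, 559649916715008)) (by decide +kernel) ⟨h1, Or.inr h2⟩) (by omega) (by omega)) (by norm_num) (by norm_num)
  have k2 : TCellU 11 14 r (xA 11 14 r) 0 ((18623811138092 : ℕ) / 2 ^ 48) := tcu_join k1 (Pool.Agent.CXD.tX11X14T_neargT2 (inB_ok (P := (26, 29)) (b := (557706607067136, 559649916715008)) (by decide +kernel) ⟨h1, Or.inr h2⟩) (by omega) (by omega)) (by norm_num) (by norm_num)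
  have k3 : TCellU 11 14 r (xA 11 14 r) 0 ((27499395698668 : ℕ) / 2 ^ 48) := tcu_join k2 (Pool.Agent.CXD.tX11X14T_neargK2 (inB_ok (P := (26, 29)) (b := (557706607067136, 559649916715008)) (by decide +kernel) ⟨h1, Or.inr h2⟩) (by omega) (by omega)) (by norm_num) (by norm_num)
  have k4 : TCellU 11 14 r (xA 11 14 r) 0 ((122160139892424 : ℕ) / 2 ^ 48) := tcu_join k3 (Pool.Agent.CXD.tX11X14T_neargH (inB_ok (P := (26, 29)) (b := (555272049786880, 562949953421312)) (by decide +kernel) ⟨h1, Or.inr h2⟩) (by omega) (by omega)) (by norm_num) (by norm_num)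
  exact tcu_sub k4 le_rfl (by norm_num)

theorem nA191_30 {r : ℕ} (h1 : 30 ≤ r) (h2 : r ≤ 44) : TCellU 11 14 r (xA 11 14 r) 0 ((122160139892424 : ℕ) / 2 ^ 48) := by
  have k0 : TCellU 11 14 r (xA 11 14 r) 0 ((128227257184 : ℕ) / 2 ^ 48) := tcu_sub (Pool.Agent.CXD.tX11X14T_nearz5 (inB_ok (P := (30, 44)) (b := (559853728694272, 561542578569216)) (by decide +kernel) ⟨h1, Or.inr h2⟩) (by omega) (by omega)) (by norm_num) le_rfl
  have k1 : TCellU 11 14 r (xA 11 14 r) 0 ((13289639704160 : ℕ) / 2 ^ 48) := tcu_join k0 (Pool.Agent.CXD.tX11X14T_neargL3 (inB_ok (P := (30, 44)) (b := (559866054443008, 562949953421312)) (by decide +kernel) ⟨h1, Or.inr h2⟩) (by omega) (by omega)) (by norm_num) (by norm_num)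
  have k2 : TCellU 11 14 r (xA 11 14 r) 0 ((27499395698668 : ℕ) / 2 ^ 48) := tcu_join k1 (Pool.Agent.CXD.tX11X14T_neargK3 (inB_ok (P := (30, 44)) (b := (559866054443008, 562949953421312)) (by decide +kernel) ⟨h1, Or.inr h2⟩) (by omega) (by omega)) (by norm_num) (by norm_num)
  have k3 : TCellU 11 14 r (xA 11 14 r) 0 ((122160139892424 : ℕ) / 2 ^ 48) := tcu_join k2 (Pool.Agent.CXD.tX11X14T_neargH (inB_ok (P := (30, 44)) (b := (555272049786880, 562949953421312)) (by decide +kernel) ⟨h1, Or.inr h2⟩) (by omega) (by omega)) (by norm_num) (by norm_num)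
  exact tcu_sub k3 le_rfl (by norm_num)

theorem nA191_45 {r : ℕ} (h1 : 45 ≤ r) : TCellU 11 14 r (xA 11 14 r) 0 ((122160139892424 : ℕ) / 2 ^ 48) := by
  have k0 : TCellU 11 14 r (xA 11 14 r) 0 ((137975255152 : ℕ) / 2 ^ 48) := tcu_sub (Pool.Agent.CXD.tX11X14T_nearz6 (inB_ok (P := (45, 0)) (b := (561542578569216, 562949953421312)) (by decide +kernel) ⟨h1, Or.inl rfl⟩) (by omega) (by omega)) (by norm_num) le_rfl
  have k1 : TCellU 11 14 r (xA 11 14 r) 0 ((13289639704160 : ℕ) / 2 ^ 48) := tcu_join k0 (Pool.Agent.CXD.tX11X14T_neargL3 (inB_ok (P := (45, 0)) (b := (559866054443008, 562949953421312)) (by decide +kernel) ⟨h1, Or.inl rfl⟩) (by omega) (by omega)) (by norm_num) (by norm_num)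
  have k2 : TCellU 11 14 r (xA 11 14 r) 0 ((27499395698668 : ℕ) / 2 ^ 48) := tcu_join k1 (Pool.Agent.CXD.tX11X14T_neargK3 (inB_ok (P := (45, 0)) (b := (559866054443008, 562949953421312)) (by decide +kernel) ⟨h1, Or.inl rfl⟩) (by omega) (by omega)) (by norm_num) (by norm_num)
  have k3 : TCellU 11 14 r (xA 11 14 r) 0 ((122160139892424 : ℕ) / 2 ^ 48) := tcu_join k2 (Pool.Agent.CXD.tX11X14T_neargH (inB_ok (P := (45, 0)) (b := (555272049786880, 562949953421312)) (by decide +kernel) ⟨h1, Or.inl rfl⟩) (by omega) (by omega)) (by norm_num) (by norm_num)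
  exact tcu_sub k3 le_rfl (by norm_num)

theorem nA191 {r : ℕ} (h1 : 19 ≤ r) : TCellU 11 14 r (xA 11 14 r) 0 ((122160139892424 : ℕ) / 2 ^ 48) := by
  rcases Nat.lt_or_ge r 21 with g | g
  · exact nA191_19 (by omega) (by omega)
  rcases Nat.lt_or_ge r 23 with g | g
  · exact nA191_21 (by omega) (by omega)
  rcases Nat.lt_or_ge r 26 with g | g
  · exact nA191_23 (by omega) (by omega)
  rcases Nat.lt_or_ge r 30 with g | g
  · exact nA191_26 (by omega) (by omega)
  rcases Nat.lt_or_ge r 45 with g | g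
  · exact nA191_30 (by omega) (by omega)
  exact nA191_45 (by omega)

theorem qA191 {r : ℕ} (h1 : 19 ≤ r) : QXS 11 14 r (xA 11 14 r) :=
  qxS_A (by norm_num) (by norm_num) (by omega) (by omega) Pool.Agent.Helper81.TK.E_11_14_T_midA.T (hasP (N := 11) (by decide +kernel)) (hasP (N := 14) (by decide +kernel)) (inB_ok (P := (19, 0)) (b := (554666138796032, 562949953421312)) (by decide +kernel) ⟨h1, Or.inl rfl⟩) (nA191 h1)
    (by norm_num) (by norm_num) (by norm_num) (far3 (L := 522527994726576) (H := 533885425029474) (by norm_num) (by norm_num) (by omega) (xaB_ok (lo := 522527994726576) (hi := 533885425029474) (i := (11, 11)) (j := (14, 14)) (k := (19, 0)) (by decide +kernel) ⟨le_rfl, Or.inr le_rfl⟩ ⟨le_rfl, Or.inr le_rfl⟩ ⟨h1, Or.inl rfl⟩) (by norm_num) (by norm_num))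

theorem nA192_19 {r : ℕ} (h1 : 19 ≤ r) (h2 : r ≤ 22) : TCellU 14 11 r (xA 14 11 r) 0 ((122160139892424 : ℕ) / 2 ^ 48) := by
  have k0 : TCellU 14 11 r (xA 14 11 r) 0 ((28147497671064 : ℕ) / 2 ^ 48) := tcu_sub (Pool.Agent.CXD.tX14X11T_nearG19_22 (inB_ok (P := (19, 22)) (b := (555272049786880, 557219934633984)) (by decide +kernel) ⟨h1, Or.inr h2⟩) (by omega) (by omega)) (by norm_num) le_rfl
  have k1 : TCellU 14 11 r (xA 14 11 r) 0 ((122160139892424 : ℕ) / 2 ^ 48) := tcu_join k0 (Pool.Agent.CXD.tX14X11T_nearH19_29 (inB_ok (P := (19, 22)) (b := (555272049786880, 559649916715008)) (by decide +kernel) ⟨h1, Or.inr h2⟩) (by omega) (by omega)) (by norm_num) (by norm_num)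
  exact tcu_sub k1 le_rfl (by norm_num)

theorem nA192_23 {r : ℕ} (h1 : 23 ≤ r) (h2 : r ≤ 29) : TCellU 14 11 r (xA 14 11 r) 0 ((122160139892424 : ℕ) / 2 ^ 48) := by
  have k0 : TCellU 14 11 r (xA 14 11 r) 0 ((28147497671064 : ℕ) / 2 ^ 48) := tcu_sub (Pool.Agent.CXD.tX14X11T_nearG23_29 (inB_ok (P := (23, 29)) (b := (557706607067136, 559649916715008)) (by decide +kernel) ⟨h1, Or.inr h2⟩) (by omega) (by omega)) (by norm_num) le_rfl
  have k1 : TCellU 14 11 r (xA 14 11 r) 0 ((122160139892424 : ℕ) / 2 ^ 48) := tcu_join k0 (Pool.Agent.CXD.tX14X11T_nearH19_29 (inB_ok (P := (23, 29)) (b := (555272049786880, 559649916715008)) (by decide +kernel) ⟨h1, Or.inr h2⟩) (by omega) (by omega)) (by norm_num) (by norm_num)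
  exact tcu_sub k1 le_rfl (by norm_num)

theorem nA192_30 {r : ℕ} (h1 : 30 ≤ r) : TCellU 14 11 r (xA 14 11 r) 0 ((122160139892424 : ℕ) / 2 ^ 48) := by
  have k0 : TCellU 14 11 r (xA 14 11 r) 0 ((22694464482884 : ℕ) / 2 ^ 48) := tcu_sub (Pool.Agent.CXD.tX14X11T_nearG30_oo (inB_ok (P := (30, 0)) (b := (559866054443008, 562949953421312)) (by decide +kernel) ⟨h1, Or.inl rfl⟩) (by omega) (by omega)) (by norm_num) le_rfl
  have k1 : TCellU 14 11 r (xA 14 11 r) 0 ((26577110401836 : ℕ) / 2 ^ 48) := tcu_join k0 (Pool.Agent.CXD.tX14X11T_nearK30_oo (inB_ok (P := (30, 0)) (b := (559866054443008, 562949953421312)) (by decide +kernel) ⟨h1, Or.inl rfl⟩) (by omega) (by omega)) (by norm_num) (by norm_num)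
  have k2 : TCellU 14 11 r (xA 14 11 r) 0 ((122160139892424 : ℕ) / 2 ^ 48) := tcu_join k1 (Pool.Agent.CXD.tX14X11T_nearH30_oo (inB_ok (P := (30, 0)) (b := (559866054443008, 562949953421312)) (by decide +kernel) ⟨h1, Or.inl rfl⟩) (by omega) (by omega)) (by norm_num) (by norm_num)
  exact tcu_sub k2 le_rfl (by norm_num)

theorem nA192 {r : ℕ} (h1 : 19 ≤ r) : TCellU 14 11 r (xA 14 11 r) 0 ((122160139892424 : ℕ) / 2 ^ 48) := by
  rcases Nat.lt_or_ge r 23 with g | g
  · exact nA192_19 (by omega) (by omega)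
  rcases Nat.lt_or_ge r 30 with g | g
  · exact nA192_23 (by omega) (by omega)
  exact nA192_30 (by omega)

theorem qA192 {r : ℕ} (h1 : 19 ≤ r) : QXS 14 11 r (xA 14 11 r) :=
  qxS_A (by norm_num) (by norm_num) (by omega) (by omega) Pool.Agent.Helper81.TK.E_14_11_T_midA.T (hasP (N := 14) (by decide +kernel)) (hasP (N := 11) (by decide +kernel)) (inB_ok (P := (19, 0)) (b := (554666138796032, 562949953421312)) (by decide +kernel) ⟨h1, Or.inl rfl⟩) (nA192 h1)
    (by norm_num) (by norm_num) (by norm_num) (far3 (L := 522527994726576) (H := 533885425029474) (by norm_num) (by norm_num) (by omega) (xaB_ok (lo := 522527994726576) (hi := 533885425029474) (i := (14, 14)) (j := (11, 11)) (k := (19, 0)) (by decide +kernel) ⟨le_rfl, Or.inr le_rfl⟩ ⟨le_rfl, Or.inr le_rfl⟩ ⟨h1, Or.inl rfl⟩) (by norm_num) (by norm_num))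

theorem fA19 {r : ℕ} (h1 : 19 ≤ r) : FinAt 11 14 r :=
  row_Ac (by norm_num) (by norm_num) (by omega) (by omega) (qA191 h1) (qA192 h1)

/-- the row `(11, 14, r)` -/
theorem row_11_14 : ∀ r, 15 ≤ r → FinAt 11 14 r := by
  intro r hr
  rcases (by omega : r = 15 ∨ r = 16 ∨ r = 17 ∨ r = 18 ∨ 19 ≤ r) with rfl | rfl | rfl | rfl | g
  · exact E11_14_15.fe
  · exact E11_14_16.fe
  · exact E11_14_17.fe
  · exact E11_14_18.fe
  · exact fA19 g

end Pool.Agent.Helper81.HD.R11_14
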