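import Pool.Agent.CXD.M_G12_1
import Pool.Agent.CXD.M_G12_2
import Pool.Agent.Helper81.MIT.HDl
import Pool.Agent.Helper81.MIT.PtR1
import Pool.Agent.Helper81.MIT.RotF
import Pool.Agent.Helper81.MIT.XPt
import Pool.Agent.Helper81.TK.GS1

/-!
The exact triples `(12, 12, r)` of the row `(12, 12)`.
-/

set_option autoImplicit false
set_option exponentiation.threshold 4000
noncomputable section
namespace Pool.Agent.Helper81.HD

open Pool.Agent.Helper81.MIT
open Pool.Agent.Helper6.MONO (Thr fB FinAt Kp)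
open Pool.Agent.Helper57.U2 (TCellU)
open Pool.Agent.Helper84.ST (QXS)

namespace E12_12_15
/-- the triple `(12, 12, 15)` -/
theorem fe : FinAt 12 12 15 := by
  refine z60_12_12_15 fun x0 hX0 hT tB => ?_
  have hX : |2 ^ 48 * x0 - (-((529136495601367 : ℕ) : ℝ))| ≤ ((64 : ℕ) : ℝ) := by
    push_cast; exact hX0.trans (by norm_num)
  have hK := kz_pm (M := 15) (K := 550648146272264) (by norm_num) (by norm_num) rfl
  have hz := zvX hX
  have hR : ((529136495601303 : ℕ) : ℝ) ≤ -(2 ^ 48 * x0) ∧ -(2 ^ 48 * x0) ≤ ((529136495601431 : ℕ) : ℝ) := by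
    rw [abs_le] at hX0; push_cast; constructor <;> linarith [hX0.1, hX0.2]
  have n0_0 : TCellU 12 12 15 x0 0 ((1266637395196 : ℕ) / 2 ^ 48) := tcu_sub (TCellU.of_t (Pool.Agent.CXD.tX12_X12_X15_near_Bt hz hT tB)) (by norm_num) le_rfl
  have n0_1 : TCellU 12 12 15 x0 0 ((2251799813684 : ℕ) / 2 ^ 48) := tcu_join n0_0 (TCellU.of_t (Pool.Agent.CXD.tX12_X12_X15_near_B hz hT tB)) (by norm_num) (by norm_num)
  have n0_2 : TCellU 12 12 15 x0 0 ((8444249301320 : ℕ) / 2 ^ 48) := tcu_join n0_1 (TCellU.of_t (Pool.Agent.CXD.tX12_X12_X15_near_h hz hT)) (by norm_num) (by norm_num)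
  have n0_3 : TCellU 12 12 15 x0 0 ((122160139892424 : ℕ) / 2 ^ 48) := tcu_join n0_2 (TCellU.of_t (Pool.Agent.CXD.tX12_X12_X15_near_g hz hT)) (by norm_num) (by norm_num)
  have h0 : QXS 12 12 15 x0 :=
    qxS_O (by norm_num) (by norm_num) (by norm_num) hT.gt hT.le (xh_pt (X := 529136495601367) (by decide +kernel) hK.1 hK.2 hX) Pool.Agent.Helper81.TK.E_12_12_T_midB.T (hasP (N := 12) (by decide +kernel)) (hasP (N := 12) (by decide +kernel)) (inB_ok (P := (15, 15)) (b := (550648146034688, 552428675006464)) (by decide +kernel) ⟨le_rfl, Or.inr le_rfl⟩) n0_3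
      (by norm_num) (by norm_num) (by norm_num) (far3 (L := 529136495601303) (H := 529136495601431) (by norm_num) (by norm_num) (by norm_num) hR (by norm_num) (by norm_num))
  exact zf_QS (by norm_num) (by norm_num) (by norm_num) (by norm_num) hT h0 h0
end E12_12_15

namespace E12_12_16
/-- the triple `(12, 12, 16)` -/
theorem fe : FinAt 12 12 16 := by
  refine z60_12_12_16 fun x0 hX0 hT tB => ?_
  have hX : |2 ^ 48 * x0 - (-((529344915360475 : ℕ) : ℝ))| ≤ ((64 : ℕ) : ℝ) := by
    push_cast; exact hX0.trans (by norm_num)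
  have hK := kz_pm (M := 16) (K := 552133027919307) (by norm_num) (by norm_num) rfl
  have hz := zvX hX
  have hR : ((529344915360411 : ℕ) : ℝ) ≤ -(2 ^ 48 * x0) ∧ -(2 ^ 48 * x0) ≤ ((529344915360539 : ℕ) : ℝ) := by
    rw [abs_le] at hX0; push_cast; constructor <;> linarith [hX0.1, hX0.2]
  have n0_0 : TCellU 12 12 16 x0 0 ((2251799813684 : ℕ) / 2 ^ 48) := tcu_sub (TCellU.of_t (Pool.Agent.CXD.tX12_X12_X16_near_B hz hT tB)) (by norm_num) le_rfl
  have n0_1 : TCellU 12 12 16 x0 0 ((8444249301320 : ℕ) / 2 ^ 48) := tcu_join n0_0 (TCellU.of_t (Pool.Agent.CXD.tX12_X12_X16_near_h hz hT)) (by norm_num) (by norm_num)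
  have n0_2 : TCellU 12 12 16 x0 0 ((122160139892424 : ℕ) / 2 ^ 48) := tcu_join n0_1 (TCellU.of_t (Pool.Agent.CXD.tX12_X12_X16_near_g hz hT)) (by norm_num) (by norm_num)
  have h0 : QXS 12 12 16 x0 :=
    qxS_O (by norm_num) (by norm_num) (by norm_num) hT.gt hT.le (xh_pt (X := 529344915360475) (by decide +kernel) hK.1 hK.2 hX) Pool.Agent.Helper81.TK.E_12_12_T_midB.T (hasP (N := 12) (by decide +kernel)) (hasP (N := 12) (by decide +kernel)) (inB_ok (P := (16, 16)) (b := (550648146034688, 552428675006464)) (by decide +kernel) ⟨le_rfl, Or.inr le_rfl⟩) n0_2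
      (by norm_num) (by norm_num) (by norm_num) (far3 (L := 529344915360411) (H := 529344915360539) (by norm_num) (by norm_num) (by norm_num) hR (by norm_num) (by norm_num))
  exact zf_QS (by norm_num) (by norm_num) (by norm_num) (by norm_num) hT h0 h0
end E12_12_16

end Pool.Agent.Helper81.HD
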