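import Pool.Agent.CXD.M_X12_X12_T_0
import Pool.Agent.CXD.M_X12_X12_T_1
import Pool.Agent.CXD.M_X12_X12_T_2
import Pool.Agent.CXD.M_X12_X12_T_3
import Pool.Agent.CXD.M_X12_X12_T_4
import Pool.Agent.Helper81.HD.G12_12
import Pool.Agent.Helper81.MIT.SubX
import Pool.Agent.Helper81.TK.GS1

/-!
The row `(12, 12, r)`, `r` at least `15`.
-/

set_option autoImplicit false
set_option exponentiation.threshold 4000
noncomputable section
namespace Pool.Agent.Helper81.HD.R12_12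

open Pool.Agent.Helper81.MIT
open Pool.Agent.Helper6.MONO (Thr fB xA FinAt Kp)
open Pool.Agent.Helper57.U2 (TCellU)
open Pool.Agent.Helper84.ST (QXS)
open Pool.Agent.Helper84.XL (XH)
open Pool.Agent.Helper86.C75 (Z)
open Pool.Agent.Helper90.KMO (zv)
open Pool.Agent.Helper21.KTE (KS)
open Pool.Agent.Helper57.XL (chkX hX_of okx)


theorem nA171_17 {r : ℕ} (h1 : 17 ≤ r) (h2 : r ≤ 18) : TCellU 12 12 r (xA 12 12 r) 0 ((122160139892424 : ℕ) / 2 ^ 48) := by
  have k0 : TCellU 12 12 r (xA 12 12 r) 0 ((28147497671064 : ℕ) / 2 ^ 48) := tcu_sub (Pool.Agent.CXD.tX12X12T_nearG17_18 (inB_ok (P := (17, 18)) (b := (553364660420608, 554397478944768)) (by decide +kernel) ⟨h1, Or.inr h2⟩) (by omega) (by omega)) (by norm_num) le_rfl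
  have k1 : TCellU 12 12 r (xA 12 12 r) 0 ((122160139892424 : ℕ) / 2 ^ 48) := tcu_join k0 (Pool.Agent.CXD.tX12X12T_nearH17_21 (inB_ok (P := (17, 18)) (b := (553364660420608, 556662267838464)) (by decide +kernel) ⟨h1, Or.inr h2⟩) (by omega) (by omega)) (by norm_num) (by norm_num)
  exact tcu_sub k1 le_rfl (by norm_num)

theorem nA171_19 {r : ℕ} (h1 : 19 ≤ r) (h2 : r ≤ 21) : TCellU 12 12 r (xA 12 12 r) 0 ((122160139892424 : ℕ) / 2 ^ 48) := by
  have k0 : TCellU 12 12 r (xA 12 12 r) 0 ((25032380753104 : ℕ) / 2 ^ 48) := tcu_sub (Pool.Agent.CXD.tX12X12T_nearG19_21 (inB_ok (P := (19, 21)) (b := (555272049786880, 556662267838464)) (by decide +kernel) ⟨h1, Or.inr h2⟩) (by omega) (by omega)) (by norm_num) le_rfl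
  have k1 : TCellU 12 12 r (xA 12 12 r) 0 ((25740819228436 : ℕ) / 2 ^ 48) := tcu_join k0 (Pool.Agent.CXD.tX12X12T_nearK19_21 (inB_ok (P := (19, 21)) (b := (555272049786880, 556662267838464)) (by decide +kernel) ⟨h1, Or.inr h2⟩) (by omega) (by omega)) (by norm_num) (by norm_num)
  have k2 : TCellU 12 12 r (xA 12 12 r) 0 ((122160139892424 : ℕ) / 2 ^ 48) := tcu_join k1 (Pool.Agent.CXD.tX12X12T_nearH17_21 (inB_ok (P := (19, 21)) (b := (553364660420608, 556662267838464)) (by decide +kernel) ⟨h1, Or.inr h2⟩) (by omega) (by omega)) (by norm_num) (by norm_num)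
  exact tcu_sub k2 le_rfl (by norm_num)

theorem nA171_22 {r : ℕ} (h1 : 22 ≤ r) (h2 : r ≤ 29) : TCellU 12 12 r (xA 12 12 r) 0 ((122160139892424 : ℕ) / 2 ^ 48) := by
  have k0 : TCellU 12 12 r (xA 12 12 r) 0 ((22189557355132 : ℕ) / 2 ^ 48) := tcu_sub (Pool.Agent.CXD.tX12X12T_nearG22_29 (inB_ok (P := (22, 29)) (b := (557219934371840, 559649916715008)) (by decide +kernel) ⟨h1, Or.inr h2⟩) (by omega) (by omega)) (by norm_num) le_rfl
  have k1 : TCellU 12 12 r (xA 12 12 r) 0 ((24077201143180 : ℕ) / 2 ^ 48) := tcu_join k0 (Pool.Agent.CXD.tX12X12T_nearK22_29 (inB_ok (P := (22, 29)) (b := (557219934371840, 559649916715008)) (by decide +kernel) ⟨h1, Or.inr h2⟩) (by omega) (by omega)) (by norm_num) (by norm_num)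
  have k2 : TCellU 12 12 r (xA 12 12 r) 0 ((122160139892424 : ℕ) / 2 ^ 48) := tcu_join k1 (Pool.Agent.CXD.tX12X12T_nearH22_oo (inB_ok (P := (22, 29)) (b := (557219934371840, 562949953421312)) (by decide +kernel) ⟨h1, Or.inr h2⟩) (by omega) (by omega)) (by norm_num) (by norm_num)
  exact tcu_sub k2 le_rfl (by norm_num)

theorem nA171_30 {r : ℕ} (h1 : 30 ≤ r) : TCellU 12 12 r (xA 12 12 r) 0 ((122160139892424 : ℕ) / 2 ^ 48) := by
  have k0 : TCellU 12 12 r (xA 12 12 r) 0 ((20138916530800 : ℕ) / 2 ^ 48) := tcu_sub (Pool.Agent.CXD.tX12X12T_nearG30_oo (inB_ok (P := (30, 0)) (b := (559866054443008, 562949953421312)) (by decide +kernel) ⟨h1, Or.inl rfl⟩) (by omega) (by omega)) (by norm_num) le_rfl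
  have k1 : TCellU 12 12 r (xA 12 12 r) 0 ((24077201143180 : ℕ) / 2 ^ 48) := tcu_join k0 (Pool.Agent.CXD.tX12X12T_nearK30_oo (inB_ok (P := (30, 0)) (b := (559866054443008, 562949953421312)) (by decide +kernel) ⟨h1, Or.inl rfl⟩) (by omega) (by omega)) (by norm_num) (by norm_num)
  have k2 : TCellU 12 12 r (xA 12 12 r) 0 ((122160139892424 : ℕ) / 2 ^ 48) := tcu_join k1 (Pool.Agent.CXD.tX12X12T_nearH22_oo (inB_ok (P := (30, 0)) (b := (557219934371840, 562949953421312)) (by decide +kernel) ⟨h1, Or.inl rfl⟩) (by omega) (by omega)) (by norm_num) (by norm_num)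
  exact tcu_sub k2 le_rfl (by norm_num)

theorem nA171 {r : ℕ} (h1 : 17 ≤ r) : TCellU 12 12 r (xA 12 12 r) 0 ((122160139892424 : ℕ) / 2 ^ 48) := by
  rcases Nat.lt_or_ge r 19 with g | g
  · exact nA171_17 (by omega) (by omega)
  rcases Nat.lt_or_ge r 22 with g | g
  · exact nA171_19 (by omega) (by omega)
  rcases Nat.lt_or_ge r 30 with g | g
  · exact nA171_22 (by omega) (by omega)
  exact nA171_30 (by omega)

theorem qA171 {r : ℕ} (h1 : 17 ≤ r) : QXS 12 12 r (xA 12 12 r) :=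
  qxS_A (by norm_num) (by norm_num) (by omega) (by omega) Pool.Agent.Helper81.TK.E_12_12_T_midA.T (hasP (N := 12) (by decide +kernel)) (hasP (N := 12) (by decide +kernel)) (inB_ok (P := (17, 0)) (b := (552428674744320, 562949953421312)) (by decide +kernel) ⟨h1, Or.inl rfl⟩) (nA171 h1)
    (by norm_num) (by norm_num) (by norm_num) (far3 (L := 520146445578622) (H := 534337569604528) (by norm_num) (by norm_num) (by omega) (xaB_ok (lo := 520146445578622) (hi := 534337569604528) (i := (12, 12)) (j := (12, 12)) (k := (17, 0)) (by decide +kernel) ⟨le_rfl, Or.inr le_rfl⟩ ⟨le_rfl, Or.inr le_rfl⟩ ⟨h1, Or.inl rfl⟩) (by norm_num) (by norm_num))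

theorem fA17 {r : ℕ} (h1 : 17 ≤ r) : FinAt 12 12 r :=
  row_Ac (by norm_num) (by norm_num) (by omega) (by omega) (qA171 h1) (qA171 h1)

/-- the row `(12, 12, r)` -/
theorem row_12_12 : ∀ r, 15 ≤ r → FinAt 12 12 r := by
  intro r hr
  rcases (by omega : r = 15 ∨ r = 16 ∨ 17 ≤ r) with rfl | rfl | g
  · exact E12_12_15.fe
  · exact E12_12_16.fe
  · exact fA17 g

end Pool.Agent.Helper81.HD.R12_12
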