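import Pool.Agent.CXD.M_G12_3
import Pool.Agent.CXD.M_G12_4
import Pool.Agent.CXD.M_G12_5
import Pool.Agent.CXD.M_G12_6
import Pool.Agent.CXD.M_G12_7
import Pool.Agent.CXD.M_G12_12
import Pool.Agent.CXD.M_G12_14
import Pool.Agent.CXD.M_G12_15
import Pool.Agent.CXD.M_G12_16
import Pool.Agent.CXD.M_G12_17
import Pool.Agent.CXD.M_G12_18
import Pool.Agent.CXD.M_G12_19
import Pool.Agent.CXD.M_G12_20
import Pool.Agent.Helper81.MIT.HDl
import Pool.Agent.Helper81.MIT.PtR1
import Pool.Agent.Helper81.MIT.RotF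
import Pool.Agent.Helper81.MIT.XPt
import Pool.Agent.Helper81.TK.GS1
import Pool.Agent.Helper81.TK.GS2

/-!
The exact triples `(12, 13, r)` of the row `(12, 13)`.
-/

set_option autoImplicit false
set_option exponentiation.threshold 4000
noncomputable section
namespace Pool.Agent.Helper81.HD

open Pool.Agent.Helper81.MIT
open Pool.Agent.Helper6.MONO (Thr fB FinAt Kp)
open Pool.Agent.Helper57.U2 (TCellU)
open Pool.Agent.Helper84.ST (QXS)

namespace E12_13_15
/-- the triple `(12, 13, 15)` -/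
theorem fe : FinAt 12 13 15 := by
  refine z60_12_13_15 fun x0 hX0 hT tB => ?_
  have hX : |2 ^ 48 * x0 - (-((529606583307403 : ℕ) : ℝ))| ≤ ((64 : ℕ) : ℝ) := by
    push_cast; exact hX0.trans (by norm_num)
  have hK := kz_pm (M := 15) (K := 550648146272264) (by norm_num) (by norm_num) rfl
  have hz := zvX hX
  have hR : ((529606583307339 : ℕ) : ℝ) ≤ -(2 ^ 48 * x0) ∧ -(2 ^ 48 * x0) ≤ ((529606583307467 : ℕ) : ℝ) := by
    rw [abs_le] at hX0; push_cast; constructor <;> linarith [hX0.1, hX0.2]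
  have n0_0 : TCellU 12 13 15 x0 0 ((1688849860264 : ℕ) / 2 ^ 48) := tcu_sub (TCellU.of_t (Pool.Agent.CXD.tX12_X13_X15_near_Bt hz hT tB)) (by norm_num) le_rfl
  have n0_1 : TCellU 12 13 15 x0 0 ((2251799813684 : ℕ) / 2 ^ 48) := tcu_join n0_0 (TCellU.of_t (Pool.Agent.CXD.tX12_X13_X15_near_B hz hT tB)) (by norm_num) (by norm_num)
  have n0_2 : TCellU 12 13 15 x0 0 ((8444249301320 : ℕ) / 2 ^ 48) := tcu_join n0_1 (TCellU.of_t (Pool.Agent.CXD.tX12_X13_X15_near_h hz hT)) (by norm_num) (by norm_num)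
  have n0_3 : TCellU 12 13 15 x0 0 ((122160139892424 : ℕ) / 2 ^ 48) := tcu_join n0_2 (TCellU.of_t (Pool.Agent.CXD.tX12_X13_X15_near_g hz hT)) (by norm_num) (by norm_num)
  have h0 : QXS 12 13 15 x0 :=
    qxS_O (by norm_num) (by norm_num) (by norm_num) hT.gt hT.le (xh_pt (X := 529606583307403) (by decide +kernel) hK.1 hK.2 hX) Pool.Agent.Helper81.TK.E_12_13_T_midB.T (hasP (N := 12) (by decide +kernel)) (hasP (N := 13) (by decide +kernel)) (inB_ok (P := (15, 15)) (b := (550648146034688, 556786372313088)) (by decide +kernel) ⟨le_rfl, Or.inr le_rfl⟩) n0_3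
      (by norm_num) (by norm_num) (by norm_num) (far3 (L := 529606583307339) (H := 529606583307467) (by norm_num) (by norm_num) (by norm_num) hR (by norm_num) (by norm_num))
  have n1_0 : TCellU 12 15 13 x0 0 ((1266637395196 : ℕ) / 2 ^ 48) := tcu_sub (TCellU.of_t (Pool.Agent.CXD.tX12_X15_X13_near_Bt hz (thr_mir hT) (fB_mi tB))) (by norm_num) le_rfl
  have n1_1 : TCellU 12 15 13 x0 0 ((2251799813684 : ℕ) / 2 ^ 48) := tcu_join n1_0 (TCellU.of_t (Pool.Agent.CXD.tX12_X15_X13_near_B hz (thr_mir hT) (fB_mi tB))) (by norm_num) (by norm_num)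
  have n1_2 : TCellU 12 15 13 x0 0 ((8444249301320 : ℕ) / 2 ^ 48) := tcu_join n1_1 (TCellU.of_t (Pool.Agent.CXD.tX12_X15_X13_near_h hz (thr_mir hT))) (by norm_num) (by norm_num)
  have n1_3 : TCellU 12 15 13 x0 0 ((122160139892424 : ℕ) / 2 ^ 48) := tcu_join n1_2 (TCellU.of_t (Pool.Agent.CXD.tX12_X15_X13_near_g hz (thr_mir hT))) (by norm_num) (by norm_num)
  have h1 : QXS 12 15 13 x0 :=
    qxS_rm (by norm_num) (by norm_num) (by norm_num) hT.gt hT.le n1_3
      (Pool.Agent.Helper81.TK.E_13_12_T_midB.T 13 12 15 (hasP (N := 13) (by decide +kernel)) (hasP (N := 12) (by decide +kernel)) (inB_ok (P := (15, 15)) (b := (550648146034688, 556786372313088)) (by decide +kernel) ⟨le_rfl, Or.inr le_rfl⟩) x0 hT.gt hT.le (xh_pt (X := 529606583307403) (by decide +kernel) hK.1 hK.2 hX))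
      (by norm_num) (by norm_num) (by norm_num) (far3 (L := 529606583307339) (H := 529606583307467) (by norm_num) (by norm_num) (by norm_num) hR (by norm_num) (by norm_num))
  exact zf_QS (by norm_num) (by norm_num) (by norm_num) (by norm_num) hT h0 h1.rot2
end E12_13_15

namespace E12_13_16
/-- the triple `(12, 13, 16)` -/
theorem fe : FinAt 12 13 16 := by
  refine z60_12_13_16 fun x0 hX0 hT tB => ?_
  have hX : |2 ^ 48 * x0 - (-((529818423147563 : ℕ) : ℝ))| ≤ ((64 : ℕ) : ℝ) := by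
    push_cast; exact hX0.trans (by norm_num)
  have hK := kz_pm (M := 16) (K := 552133027919307) (by norm_num) (by norm_num) rfl
  have hz := zvX hX
  have hR : ((529818423147499 : ℕ) : ℝ) ≤ -(2 ^ 48 * x0) ∧ -(2 ^ 48 * x0) ≤ ((529818423147627 : ℕ) : ℝ) := by
    rw [abs_le] at hX0; push_cast; constructor <;> linarith [hX0.1, hX0.2]
  have n0_0 : TCellU 12 13 16 x0 0 ((1688849860264 : ℕ) / 2 ^ 48) := tcu_sub (TCellU.of_t (Pool.Agent.CXD.tX12_X13_X16_near_Bt hz hT tB)) (by norm_num) le_rfl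
  have n0_1 : TCellU 12 13 16 x0 0 ((2251799813684 : ℕ) / 2 ^ 48) := tcu_join n0_0 (TCellU.of_t (Pool.Agent.CXD.tX12_X13_X16_near_B hz hT tB)) (by norm_num) (by norm_num)
  have n0_2 : TCellU 12 13 16 x0 0 ((8444249301320 : ℕ) / 2 ^ 48) := tcu_join n0_1 (TCellU.of_t (Pool.Agent.CXD.tX12_X13_X16_near_h hz hT)) (by norm_num) (by norm_num)
  have n0_3 : TCellU 12 13 16 x0 0 ((122160139892424 : ℕ) / 2 ^ 48) := tcu_join n0_2 (TCellU.of_t (Pool.Agent.CXD.tX12_X13_X16_near_g hz hT)) (by norm_num) (by norm_num)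
  have h0 : QXS 12 13 16 x0 :=
    qxS_O (by norm_num) (by norm_num) (by norm_num) hT.gt hT.le (xh_pt (X := 529818423147563) (by decide +kernel) hK.1 hK.2 hX) Pool.Agent.Helper81.TK.E_12_13_T_midB.T (hasP (N := 12) (by decide +kernel)) (hasP (N := 13) (by decide +kernel)) (inB_ok (P := (16, 16)) (b := (550648146034688, 556786372313088)) (by decide +kernel) ⟨le_rfl, Or.inr le_rfl⟩) n0_3
      (by norm_num) (by norm_num) (by norm_num) (far3 (L := 529818423147499) (H := 529818423147627) (by norm_num) (by norm_num) (by norm_num) hR (by norm_num) (by norm_num))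
  have n1_0 : TCellU 12 16 13 x0 0 ((949978046400 : ℕ) / 2 ^ 48) := tcu_sub (TCellU.of_t (Pool.Agent.CXD.tX12_X16_X13_near_Bt hz (thr_mir hT) (fB_mi tB))) (by norm_num) le_rfl
  have n1_1 : TCellU 12 16 13 x0 0 ((2251799813684 : ℕ) / 2 ^ 48) := tcu_join n1_0 (TCellU.of_t (Pool.Agent.CXD.tX12_X16_X13_near_B hz (thr_mir hT) (fB_mi tB))) (by norm_num) (by norm_num)
  have n1_2 : TCellU 12 16 13 x0 0 ((8444249301320 : ℕ) / 2 ^ 48) := tcu_join n1_1 (TCellU.of_t (Pool.Agent.CXD.tX12_X16_X13_near_h hz (thr_mir hT))) (by norm_num) (by norm_num)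
  have n1_3 : TCellU 12 16 13 x0 0 ((122160139892424 : ℕ) / 2 ^ 48) := tcu_join n1_2 (TCellU.of_t (Pool.Agent.CXD.tX12_X16_X13_near_g hz (thr_mir hT))) (by norm_num) (by norm_num)
  have h1 : QXS 12 16 13 x0 :=
    qxS_rm (by norm_num) (by norm_num) (by norm_num) hT.gt hT.le n1_3
      (Pool.Agent.Helper81.TK.E_13_12_T_midB.T 13 12 16 (hasP (N := 13) (by decide +kernel)) (hasP (N := 12) (by decide +kernel)) (inB_ok (P := (16, 16)) (b := (550648146034688, 556786372313088)) (by decide +kernel) ⟨le_rfl, Or.inr le_rfl⟩) x0 hT.gt hT.le (xh_pt (X := 529818423147563) (by decide +kernel) hK.1 hK.2 hX))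
      (by norm_num) (by norm_num) (by norm_num) (far3 (L := 529818423147499) (H := 529818423147627) (by norm_num) (by norm_num) (by norm_num) hR (by norm_num) (by norm_num))
  exact zf_QS (by norm_num) (by norm_num) (by norm_num) (by norm_num) hT h0 h1.rot2
end E12_13_16

namespace E12_13_17
/-- the triple `(12, 13, 17)` -/
theorem fe : FinAt 12 13 17 := by
  refine z60_12_13_17 fun x0 hX0 hT tB => ?_
  have hX : |2 ^ 48 * x0 - (-((529989024541004 : ℕ) : ℝ))| ≤ ((64 : ℕ) : ℝ) := by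
    push_cast; exact hX0.trans (by norm_num)
  have hK := kz_pm (M := 17) (K := 553364660681455) (by norm_num) (by norm_num) rfl
  have hz := zvX hX
  have hR : ((529989024540940 : ℕ) : ℝ) ≤ -(2 ^ 48 * x0) ∧ -(2 ^ 48 * x0) ≤ ((529989024541068 : ℕ) : ℝ) := by
    rw [abs_le] at hX0; push_cast; constructor <;> linarith [hX0.1, hX0.2]
  have n0_0 : TCellU 12 13 17 x0 0 ((2251799813684 : ℕ) / 2 ^ 48) := tcu_sub (TCellU.of_t (Pool.Agent.CXD.tX12_X13_X17_near_B hz hT tB)) (by norm_num) le_rfl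
  have n0_1 : TCellU 12 13 17 x0 0 ((8444249301320 : ℕ) / 2 ^ 48) := tcu_join n0_0 (TCellU.of_t (Pool.Agent.CXD.tX12_X13_X17_near_h hz hT)) (by norm_num) (by norm_num)
  have n0_2 : TCellU 12 13 17 x0 0 ((122160139892424 : ℕ) / 2 ^ 48) := tcu_join n0_1 (TCellU.of_t (Pool.Agent.CXD.tX12_X13_X17_near_g hz hT)) (by norm_num) (by norm_num)
  have h0 : QXS 12 13 17 x0 :=
    qxS_O (by norm_num) (by norm_num) (by norm_num) hT.gt hT.le (xh_pt (X := 529989024541004) (by decide +kernel) hK.1 hK.2 hX) Pool.Agent.Helper81.TK.E_12_13_T_midB.T (hasP (N := 12) (by decide +kernel)) (hasP (N := 13) (by decide +kernel)) (inB_ok (P := (17, 17)) (b := (550648146034688, 556786372313088)) (by decide +kernel) ⟨le_rfl, Or.inr le_rfl⟩) n0_2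
      (by norm_num) (by norm_num) (by norm_num) (far3 (L := 529989024540940) (H := 529989024541068) (by norm_num) (by norm_num) (by norm_num) hR (by norm_num) (by norm_num))
  have n1_0 : TCellU 12 17 13 x0 0 ((2251799813684 : ℕ) / 2 ^ 48) := tcu_sub (TCellU.of_t (Pool.Agent.CXD.tX12_X17_X13_near_B hz (thr_mir hT) (fB_mi tB))) (by norm_num) le_rfl
  have n1_1 : TCellU 12 17 13 x0 0 ((8444249301320 : ℕ) / 2 ^ 48) := tcu_join n1_0 (TCellU.of_t (Pool.Agent.CXD.tX12_X17_X13_near_h hz (thr_mir hT))) (by norm_num) (by norm_num)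
  have n1_2 : TCellU 12 17 13 x0 0 ((122160139892424 : ℕ) / 2 ^ 48) := tcu_join n1_1 (TCellU.of_t (Pool.Agent.CXD.tX12_X17_X13_near_g hz (thr_mir hT))) (by norm_num) (by norm_num)
  have h1 : QXS 12 17 13 x0 :=
    qxS_rm (by norm_num) (by norm_num) (by norm_num) hT.gt hT.le n1_2
      (Pool.Agent.Helper81.TK.E_13_12_T_midB.T 13 12 17 (hasP (N := 13) (by decide +kernel)) (hasP (N := 12) (by decide +kernel)) (inB_ok (P := (17, 17)) (b := (550648146034688, 556786372313088)) (by decide +kernel) ⟨le_rfl, Or.inr le_rfl⟩) x0 hT.gt hT.le (xh_pt (X := 529989024541004) (by decide +kernel) hK.1 hK.2 hX))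
      (by norm_num) (by norm_num) (by norm_num) (far3 (L := 529989024540940) (H := 529989024541068) (by norm_num) (by norm_num) (by norm_num) hR (by norm_num) (by norm_num))
  exact zf_QS (by norm_num) (by norm_num) (by norm_num) (by norm_num) hT h0 h1.rot2
end E12_13_17

namespace E12_13_18
/-- the triple `(12, 13, 18)` -/
theorem fe : FinAt 12 13 18 := by
  refine z60_12_13_18 fun x0 hX0 hT tB => ?_
  have hX : |2 ^ 48 * x0 - (-((530128600086724 : ℕ) : ℝ))| ≤ ((64 : ℕ) : ℝ) := by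
    push_cast; exact hX0.trans (by norm_num)
  have hK := kz_pm (M := 18) (K := 554397478687169) (by norm_num) (by norm_num) rfl
  have hz := zvX hX
  have hR : ((530128600086660 : ℕ) : ℝ) ≤ -(2 ^ 48 * x0) ∧ -(2 ^ 48 * x0) ≤ ((530128600086788 : ℕ) : ℝ) := by
    rw [abs_le] at hX0; push_cast; constructor <;> linarith [hX0.1, hX0.2]
  have n0_0 : TCellU 12 13 18 x0 0 ((2251799813684 : ℕ) / 2 ^ 48) := tcu_sub (TCellU.of_t (Pool.Agent.CXD.tX12_X13_X18_near_B hz hT tB)) (by norm_num) le_rfl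
  have n0_1 : TCellU 12 13 18 x0 0 ((8444249301320 : ℕ) / 2 ^ 48) := tcu_join n0_0 (TCellU.of_t (Pool.Agent.CXD.tX12_X13_X18_near_h hz hT)) (by norm_num) (by norm_num)
  have n0_2 : TCellU 12 13 18 x0 0 ((122160139892424 : ℕ) / 2 ^ 48) := tcu_join n0_1 (TCellU.of_t (Pool.Agent.CXD.tX12_X13_X18_near_g hz hT)) (by norm_num) (by norm_num)
  have h0 : QXS 12 13 18 x0 :=
    qxS_O (by norm_num) (by norm_num) (by norm_num) hT.gt hT.le (xh_pt (X := 530128600086724) (by decide +kernel) hK.1 hK.2 hX) Pool.Agent.Helper81.TK.E_12_13_T_midB.T (hasP (N := 12) (by decide +kernel)) (hasP (N := 13) (by decide +kernel)) (inB_ok (P := (18, 18)) (b := (550648146034688, 556786372313088)) (by decide +kernel) ⟨le_rfl, Or.inr le_rfl⟩) n0_2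
      (by norm_num) (by norm_num) (by norm_num) (far3 (L := 530128600086660) (H := 530128600086788) (by norm_num) (by norm_num) (by norm_num) hR (by norm_num) (by norm_num))
  have n1_0 : TCellU 12 18 13 x0 0 ((2251799813684 : ℕ) / 2 ^ 48) := tcu_sub (TCellU.of_t (Pool.Agent.CXD.tX12_X18_X13_near_B hz (thr_mir hT) (fB_mi tB))) (by norm_num) le_rfl
  have n1_1 : TCellU 12 18 13 x0 0 ((8444249301320 : ℕ) / 2 ^ 48) := tcu_join n1_0 (TCellU.of_t (Pool.Agent.CXD.tX12_X18_X13_near_h hz (thr_mir hT))) (by norm_num) (by norm_num)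
  have n1_2 : TCellU 12 18 13 x0 0 ((122160139892424 : ℕ) / 2 ^ 48) := tcu_join n1_1 (TCellU.of_t (Pool.Agent.CXD.tX12_X18_X13_near_g hz (thr_mir hT))) (by norm_num) (by norm_num)
  have h1 : QXS 12 18 13 x0 :=
    qxS_rm (by norm_num) (by norm_num) (by norm_num) hT.gt hT.le n1_2
      (Pool.Agent.Helper81.TK.E_13_12_T_midB.T 13 12 18 (hasP (N := 13) (by decide +kernel)) (hasP (N := 12) (by decide +kernel)) (inB_ok (P := (18, 18)) (b := (550648146034688, 556786372313088)) (by decide +kernel) ⟨le_rfl, Or.inr le_rfl⟩) x0 hT.gt hT.le (xh_pt (X := 530128600086724) (by decide +kernel) hK.1 hK.2 hX))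
      (by norm_num) (by norm_num) (by norm_num) (far3 (L := 530128600086660) (H := 530128600086788) (by norm_num) (by norm_num) (by norm_num) hR (by norm_num) (by norm_num))
  exact zf_QS (by norm_num) (by norm_num) (by norm_num) (by norm_num) hT h0 h1.rot2
end E12_13_18

namespace E12_13_19
/-- the triple `(12, 13, 19)` -/
theorem fe : FinAt 12 13 19 := by
  refine z60_12_13_19 fun x0 hX0 hT tB => ?_
  have hX : |2 ^ 48 * x0 - (-((530244350772527 : ℕ) : ℝ))| ≤ ((64 : ℕ) : ℝ) := by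
    push_cast; exact hX0.trans (by norm_num)
  have hK := kz_pm (M := 19) (K := 555272049807147) (by norm_num) (by norm_num) rfl
  have hz := zvX hX
  have hR : ((530244350772463 : ℕ) : ℝ) ≤ -(2 ^ 48 * x0) ∧ -(2 ^ 48 * x0) ≤ ((530244350772591 : ℕ) : ℝ) := by
    rw [abs_le] at hX0; push_cast; constructor <;> linarith [hX0.1, hX0.2]
  have n0_0 : TCellU 12 13 19 x0 0 ((2251799813684 : ℕ) / 2 ^ 48) := tcu_sub (TCellU.of_t (Pool.Agent.CXD.tX12_X13_X19_near_B hz hT tB)) (by norm_num) le_rfl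
  have n0_1 : TCellU 12 13 19 x0 0 ((8444249301320 : ℕ) / 2 ^ 48) := tcu_join n0_0 (TCellU.of_t (Pool.Agent.CXD.tX12_X13_X19_near_h hz hT)) (by norm_num) (by norm_num)
  have n0_2 : TCellU 12 13 19 x0 0 ((122160139892424 : ℕ) / 2 ^ 48) := tcu_join n0_1 (TCellU.of_t (Pool.Agent.CXD.tX12_X13_X19_near_g hz hT)) (by norm_num) (by norm_num)
  have h0 : QXS 12 13 19 x0 :=
    qxS_O (by norm_num) (by norm_num) (by norm_num) hT.gt hT.le (xh_pt (X := 530244350772527) (by decide +kernel) hK.1 hK.2 hX) Pool.Agent.Helper81.TK.E_12_13_T_midB.T (hasP (N := 12) (by decide +kernel)) (hasP (N := 13) (by decide +kernel)) (inB_ok (P := (19, 19)) (b := (550648146034688, 556786372313088)) (by decide +kernel) ⟨le_rfl, Or.inr le_rfl⟩) n0_2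
      (by norm_num) (by norm_num) (by norm_num) (far3 (L := 530244350772463) (H := 530244350772591) (by norm_num) (by norm_num) (by norm_num) hR (by norm_num) (by norm_num))
  have n1_0 : TCellU 12 19 13 x0 0 ((2251799813684 : ℕ) / 2 ^ 48) := tcu_sub (TCellU.of_t (Pool.Agent.CXD.tX12_X19_X13_near_B hz (thr_mir hT) (fB_mi tB))) (by norm_num) le_rfl
  have n1_1 : TCellU 12 19 13 x0 0 ((8444249301320 : ℕ) / 2 ^ 48) := tcu_join n1_0 (TCellU.of_t (Pool.Agent.CXD.tX12_X19_X13_near_h hz (thr_mir hT))) (by norm_num) (by norm_num)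
  have n1_2 : TCellU 12 19 13 x0 0 ((122160139892424 : ℕ) / 2 ^ 48) := tcu_join n1_1 (TCellU.of_t (Pool.Agent.CXD.tX12_X19_X13_near_g hz (thr_mir hT))) (by norm_num) (by norm_num)
  have h1 : QXS 12 19 13 x0 :=
    qxS_rm (by norm_num) (by norm_num) (by norm_num) hT.gt hT.le n1_2
      (Pool.Agent.Helper81.TK.E_13_12_T_midB.T 13 12 19 (hasP (N := 13) (by decide +kernel)) (hasP (N := 12) (by decide +kernel)) (inB_ok (P := (19, 19)) (b := (550648146034688, 556786372313088)) (by decide +kernel) ⟨le_rfl, Or.inr le_rfl⟩) x0 hT.gt hT.le (xh_pt (X := 530244350772527) (by decide +kernel) hK.1 hK.2 hX))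
      (by norm_num) (by norm_num) (by norm_num) (far3 (L := 530244350772463) (H := 530244350772591) (by norm_num) (by norm_num) (by norm_num) hR (by norm_num) (by norm_num))
  exact zf_QS (by norm_num) (by norm_num) (by norm_num) (by norm_num) hT h0 h1.rot2
end E12_13_19

namespace E12_13_20
/-- the triple `(12, 13, 20)` -/
theorem fe : FinAt 12 13 20 := by
  refine z60_12_13_20 fun x0 hX0 hT tB => ?_
  have hX : |2 ^ 48 * x0 - (-((530341481028471 : ℕ) : ℝ))| ≤ ((64 : ℕ) : ℝ) := by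
    push_cast; exact hX0.trans (by norm_num)
  have hK := kz_pm (M := 20) (K := 556019105332806) (by norm_num) (by norm_num) rfl
  have hz := zvX hX
  have hR : ((530341481028407 : ℕ) : ℝ) ≤ -(2 ^ 48 * x0) ∧ -(2 ^ 48 * x0) ≤ ((530341481028535 : ℕ) : ℝ) := by
    rw [abs_le] at hX0; push_cast; constructor <;> linarith [hX0.1, hX0.2]
  have n0_0 : TCellU 12 13 20 x0 0 ((2251799813684 : ℕ) / 2 ^ 48) := tcu_sub (TCellU.of_t (Pool.Agent.CXD.tX12_X13_X20_near_B hz hT tB)) (by norm_num) le_rfl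
  have n0_1 : TCellU 12 13 20 x0 0 ((8444249301320 : ℕ) / 2 ^ 48) := tcu_join n0_0 (TCellU.of_t (Pool.Agent.CXD.tX12_X13_X20_near_h hz hT)) (by norm_num) (by norm_num)
  have n0_2 : TCellU 12 13 20 x0 0 ((122160139892424 : ℕ) / 2 ^ 48) := tcu_join n0_1 (TCellU.of_t (Pool.Agent.CXD.tX12_X13_X20_near_g hz hT)) (by norm_num) (by norm_num)
  have h0 : QXS 12 13 20 x0 :=
    qxS_O (by norm_num) (by norm_num) (by norm_num) hT.gt hT.le (xh_pt (X := 530341481028471) (by decide +kernel) hK.1 hK.2 hX) Pool.Agent.Helper81.TK.E_12_13_T_midB.T (hasP (N := 12) (by decide +kernel)) (hasP (N := 13) (by decide +kernel)) (inB_ok (P := (20, 20)) (b := (550648146034688, 556786372313088)) (by decide +kernel) ⟨le_rfl, Or.inr le_rfl⟩) n0_2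
      (by norm_num) (by norm_num) (by norm_num) (far3 (L := 530341481028407) (H := 530341481028535) (by norm_num) (by norm_num) (by norm_num) hR (by norm_num) (by norm_num))
  have n1_0 : TCellU 12 20 13 x0 0 ((949978046400 : ℕ) / 2 ^ 48) := tcu_sub (TCellU.of_t (Pool.Agent.CXD.tX12_X20_X13_near_Bt hz (thr_mir hT) (fB_mi tB))) (by norm_num) le_rfl
  have n1_1 : TCellU 12 20 13 x0 0 ((2251799813684 : ℕ) / 2 ^ 48) := tcu_join n1_0 (TCellU.of_t (Pool.Agent.CXD.tX12_X20_X13_near_B hz (thr_mir hT) (fB_mi tB))) (by norm_num) (by norm_num)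
  have n1_2 : TCellU 12 20 13 x0 0 ((8444249301320 : ℕ) / 2 ^ 48) := tcu_join n1_1 (TCellU.of_t (Pool.Agent.CXD.tX12_X20_X13_near_h hz (thr_mir hT))) (by norm_num) (by norm_num)
  have n1_3 : TCellU 12 20 13 x0 0 ((122160139892424 : ℕ) / 2 ^ 48) := tcu_join n1_2 (TCellU.of_t (Pool.Agent.CXD.tX12_X20_X13_near_g hz (thr_mir hT))) (by norm_num) (by norm_num)
  have h1 : QXS 12 20 13 x0 :=
    qxS_rm (by norm_num) (by norm_num) (by norm_num) hT.gt hT.le n1_3
      (Pool.Agent.Helper81.TK.E_13_12_T_midB.T 13 12 20 (hasP (N := 13) (by decide +kernel)) (hasP (N := 12) (by decide +kernel)) (inB_ok (P := (20, 20)) (b := (550648146034688, 556786372313088)) (by decide +kernel) ⟨le_rfl, Or.inr le_rfl⟩) x0 hT.gt hT.le (xh_pt (X := 530341481028471) (by decide +kernel) hK.1 hK.2 hX))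
      (by norm_num) (by norm_num) (by norm_num) (far3 (L := 530341481028407) (H := 530341481028535) (by norm_num) (by norm_num) (by norm_num) hR (by norm_num) (by norm_num))
  exact zf_QS (by norm_num) (by norm_num) (by norm_num) (by norm_num) hT h0 h1.rot2
end E12_13_20

namespace E12_13_21
/-- the triple `(12, 13, 21)` -/
theorem fe : FinAt 12 13 21 := by
  refine z60_12_13_21 fun x0 hX0 hT tB => ?_
  have hX : |2 ^ 48 * x0 - (-((530423833341851 : ℕ) : ℝ))| ≤ ((64 : ℕ) : ℝ) := by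
    push_cast; exact hX0.trans (by norm_num)
  have hK := kz_pm (M := 21) (K := 556662267564994) (by norm_num) (by norm_num) rfl
  have hz := zvX hX
  have hR : ((530423833341787 : ℕ) : ℝ) ≤ -(2 ^ 48 * x0) ∧ -(2 ^ 48 * x0) ≤ ((530423833341915 : ℕ) : ℝ) := by
    rw [abs_le] at hX0; push_cast; constructor <;> linarith [hX0.1, hX0.2]
  have n0_0 : TCellU 12 13 21 x0 0 ((2251799813684 : ℕ) / 2 ^ 48) := tcu_sub (TCellU.of_t (Pool.Agent.CXD.tX12_X13_X21_near_B hz hT tB)) (by norm_num) le_rfl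
  have n0_1 : TCellU 12 13 21 x0 0 ((8444249301320 : ℕ) / 2 ^ 48) := tcu_join n0_0 (TCellU.of_t (Pool.Agent.CXD.tX12_X13_X21_near_h hz hT)) (by norm_num) (by norm_num)
  have n0_2 : TCellU 12 13 21 x0 0 ((122160139892424 : ℕ) / 2 ^ 48) := tcu_join n0_1 (TCellU.of_t (Pool.Agent.CXD.tX12_X13_X21_near_g hz hT)) (by norm_num) (by norm_num)
  have h0 : QXS 12 13 21 x0 :=
    qxS_O (by norm_num) (by norm_num) (by norm_num) hT.gt hT.le (xh_pt (X := 530423833341851) (by decide +kernel) hK.1 hK.2 hX) Pool.Agent.Helper81.TK.E_12_13_T_midB.T (hasP (N := 12) (by decide +kernel)) (hasP (N := 13) (by decide +kernel)) (inB_ok (P := (21, 21)) (b := (550648146034688, 556786372313088)) (by decide +kernel) ⟨le_rfl, Or.inr le_rfl⟩) n0_2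
      (by norm_num) (by norm_num) (by norm_num) (far3 (L := 530423833341787) (H := 530423833341915) (by norm_num) (by norm_num) (by norm_num) hR (by norm_num) (by norm_num))
  have n1_0 : TCellU 12 21 13 x0 0 ((2251799813684 : ℕ) / 2 ^ 48) := tcu_sub (TCellU.of_t (Pool.Agent.CXD.tX12_X21_X13_near_B hz (thr_mir hT) (fB_mi tB))) (by norm_num) le_rfl
  have n1_1 : TCellU 12 21 13 x0 0 ((8444249301320 : ℕ) / 2 ^ 48) := tcu_join n1_0 (TCellU.of_t (Pool.Agent.CXD.tX12_X21_X13_near_h hz (thr_mir hT))) (by norm_num) (by norm_num)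
  have n1_2 : TCellU 12 21 13 x0 0 ((122160139892424 : ℕ) / 2 ^ 48) := tcu_join n1_1 (TCellU.of_t (Pool.Agent.CXD.tX12_X21_X13_near_g hz (thr_mir hT))) (by norm_num) (by norm_num)
  have h1 : QXS 12 21 13 x0 :=
    qxS_rm (by norm_num) (by norm_num) (by norm_num) hT.gt hT.le n1_2
      (Pool.Agent.Helper81.TK.E_13_12_T_midB.T 13 12 21 (hasP (N := 13) (by decide +kernel)) (hasP (N := 12) (by decide +kernel)) (inB_ok (P := (21, 21)) (b := (550648146034688, 556786372313088)) (by decide +kernel) ⟨le_rfl, Or.inr le_rfl⟩) x0 hT.gt hT.le (xh_pt (X := 530423833341851) (by decide +kernel) hK.1 hK.2 hX))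
      (by norm_num) (by norm_num) (by norm_num) (far3 (L := 530423833341787) (H := 530423833341915) (by norm_num) (by norm_num) (by norm_num) hR (by norm_num) (by norm_num))
  exact zf_QS (by norm_num) (by norm_num) (by norm_num) (by norm_num) hT h0 h1.rot2
end E12_13_21

end Pool.Agent.Helper81.HD
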