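import Pool.Agent.CXD.M_X12_X13_T_0
import Pool.Agent.CXD.M_X12_X13_T_1
import Pool.Agent.CXD.M_X12_X13_T_2
import Pool.Agent.CXD.M_X12_X13_T_3
import Pool.Agent.CXD.M_X13_X12_T_0
import Pool.Agent.CXD.M_X13_X12_T_1
import Pool.Agent.CXD.M_X13_X12_T_2
import Pool.Agent.CXD.M_X13_X12_T_3
import Pool.Agent.CXD.M_X13_X12_T_4
import Pool.Agent.Helper81.HD.G12_13
import Pool.Agent.Helper81.MIT.SubX
import Pool.Agent.Helper81.TK.GS1
import Pool.Agent.Helper81.TK.GS2

/-!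
The row `(12, 13, r)`, `r` at least `15`.
-/

set_option autoImplicit false
set_option exponentiation.threshold 4000
noncomputable section
namespace Pool.Agent.Helper81.HD.R12_13

open Pool.Agent.Helper81.MIT
open Pool.Agent.Helper6.MONO (Thr fB xA FinAt Kp)
open Pool.Agent.Helper57.U2 (TCellU)
open Pool.Agent.Helper84.ST (QXS)
open Pool.Agent.Helper84.XL (XH)
open Pool.Agent.Helper86.C75 (Z)
open Pool.Agent.Helper90.KMO (zv)
open Pool.Agent.Helper21.KTE (KS)
open Pool.Agent.Helper57.XL (chkX hX_of okx)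


theorem nA221_22 {r : ℕ} (h1 : 22 ≤ r) (h2 : r ≤ 25) : TCellU 12 13 r (xA 12 13 r) 0 ((122160139892424 : ℕ) / 2 ^ 48) := by
  have k0 : TCellU 12 13 r (xA 12 13 r) 0 ((22336005345608 : ℕ) / 2 ^ 48) := tcu_sub (Pool.Agent.CXD.tX12X13T_nearG22_25 (inB_ok (P := (22, 25)) (b := (557219934371840, 558510925152256)) (by decide +kernel) ⟨h1, Or.inr h2⟩) (by omega) (by omega)) (by norm_num) le_rfl
  have k1 : TCellU 12 13 r (xA 12 13 r) 0 ((25691434982096 : ℕ) / 2 ^ 48) := tcu_join k0 (Pool.Agent.CXD.tX12X13T_nearK22_25 (inB_ok (P := (22, 25)) (b := (557219934371840, 558510925152256)) (by decide +kernel) ⟨h1, Or.inr h2⟩) (by omega) (by omega)) (by norm_num) (by norm_num)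
  have k2 : TCellU 12 13 r (xA 12 13 r) 0 ((122160139892424 : ℕ) / 2 ^ 48) := tcu_join k1 (Pool.Agent.CXD.tX12X13T_nearH22_31 (inB_ok (P := (22, 25)) (b := (557219934371840, 560061639294976)) (by decide +kernel) ⟨h1, Or.inr h2⟩) (by omega) (by omega)) (by norm_num) (by norm_num)
  exact tcu_sub k2 le_rfl (by norm_num)

theorem nA221_26 {r : ℕ} (h1 : 26 ≤ r) (h2 : r ≤ 31) : TCellU 12 13 r (xA 12 13 r) 0 ((122160139892424 : ℕ) / 2 ^ 48) := by
  have k0 : TCellU 12 13 r (xA 12 13 r) 0 ((22105388356040 : ℕ) / 2 ^ 48) := tcu_sub (Pool.Agent.CXD.tX12X13T_nearG26_31 (inB_ok (P := (26, 31)) (b := (558845414342656, 560061639294976)) (by decide +kernel) ⟨h1, Or.inr h2⟩) (by omega) (by omega)) (by norm_num) le_rfl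
  have k1 : TCellU 12 13 r (xA 12 13 r) 0 ((25691434982096 : ℕ) / 2 ^ 48) := tcu_join k0 (Pool.Agent.CXD.tX12X13T_nearK26_31 (inB_ok (P := (26, 31)) (b := (558845414342656, 560061639294976)) (by decide +kernel) ⟨h1, Or.inr h2⟩) (by omega) (by omega)) (by norm_num) (by norm_num)
  have k2 : TCellU 12 13 r (xA 12 13 r) 0 ((122160139892424 : ℕ) / 2 ^ 48) := tcu_join k1 (Pool.Agent.CXD.tX12X13T_nearH22_31 (inB_ok (P := (26, 31)) (b := (557219934371840, 560061639294976)) (by decide +kernel) ⟨h1, Or.inr h2⟩) (by omega) (by omega)) (by norm_num) (by norm_num)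
  exact tcu_sub k2 le_rfl (by norm_num)

theorem nA221_32 {r : ℕ} (h1 : 32 ≤ r) (h2 : r ≤ 46) : TCellU 12 13 r (xA 12 13 r) 0 ((122160139892424 : ℕ) / 2 ^ 48) := by
  have k0 : TCellU 12 13 r (xA 12 13 r) 0 ((3978413485144 : ℕ) / 2 ^ 48) := tcu_sub (Pool.Agent.CXD.tX12X13T_nearW32_oo (inB_ok (P := (32, 46)) (b := (560239195455488, 562949953421312)) (by decide +kernel) ⟨h1, Or.inr h2⟩) (by omega) (by omega)) (by norm_num) le_rfl
  have k1 : TCellU 12 13 r (xA 12 13 r) 0 ((20498619749168 : ℕ) / 2 ^ 48) := tcu_join k0 (Pool.Agent.CXD.tX12X13T_nearG32_46 (inB_ok (P := (32, 46)) (b := (560239195455488, 561637587156992)) (by decide +kernel) ⟨h1, Or.inr h2⟩) (by omega) (by omega)) (by norm_num) (by norm_num)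
  have k2 : TCellU 12 13 r (xA 12 13 r) 0 ((24188371304020 : ℕ) / 2 ^ 48) := tcu_join k1 (Pool.Agent.CXD.tX12X13T_nearK32_46 (inB_ok (P := (32, 46)) (b := (560239195455488, 561637587156992)) (by decide +kernel) ⟨h1, Or.inr h2⟩) (by omega) (by omega)) (by norm_num) (by norm_num)
  have k3 : TCellU 12 13 r (xA 12 13 r) 0 ((122160139892424 : ℕ) / 2 ^ 48) := tcu_join k2 (Pool.Agent.CXD.tX12X13T_nearH32_oo (inB_ok (P := (32, 46)) (b := (560239195455488, 562949953421312)) (by decide +kernel) ⟨h1, Or.inr h2⟩) (by omega) (by omega)) (by norm_num) (by norm_num)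
  exact tcu_sub k3 le_rfl (by norm_num)

theorem nA221_47 {r : ℕ} (h1 : 47 ≤ r) : TCellU 12 13 r (xA 12 13 r) 0 ((122160139892424 : ℕ) / 2 ^ 48) := by
  have k0 : TCellU 12 13 r (xA 12 13 r) 0 ((3978413485144 : ℕ) / 2 ^ 48) := tcu_sub (Pool.Agent.CXD.tX12X13T_nearW32_oo (inB_ok (P := (47, 0)) (b := (560239195455488, 562949953421312)) (by decide +kernel) ⟨h1, Or.inl rfl⟩) (by omega) (by omega)) (by norm_num) le_rfl
  have k1 : TCellU 12 13 r (xA 12 13 r) 0 ((18535150424544 : ℕ) / 2 ^ 48) := tcu_join k0 (Pool.Agent.CXD.tX12X13T_nearG47_oo (inB_ok (P := (47, 0)) (b := (561692817752064, 562949953421312)) (by decide +kernel) ⟨h1, Or.inl rfl⟩) (by omega) (by omega)) (by norm_num) (by norm_num)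
  have k2 : TCellU 12 13 r (xA 12 13 r) 0 ((24188371304020 : ℕ) / 2 ^ 48) := tcu_join k1 (Pool.Agent.CXD.tX12X13T_nearK47_oo (inB_ok (P := (47, 0)) (b := (561692817752064, 562949953421312)) (by decide +kernel) ⟨h1, Or.inl rfl⟩) (by omega) (by omega)) (by norm_num) (by norm_num)
  have k3 : TCellU 12 13 r (xA 12 13 r) 0 ((122160139892424 : ℕ) / 2 ^ 48) := tcu_join k2 (Pool.Agent.CXD.tX12X13T_nearH32_oo (inB_ok (P := (47, 0)) (b := (560239195455488, 562949953421312)) (by decide +kernel) ⟨h1, Or.inl rfl⟩) (by omega) (by omega)) (by norm_num) (by norm_num)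
  exact tcu_sub k3 le_rfl (by norm_num)

theorem nA221 {r : ℕ} (h1 : 22 ≤ r) : TCellU 12 13 r (xA 12 13 r) 0 ((122160139892424 : ℕ) / 2 ^ 48) := by
  rcases Nat.lt_or_ge r 26 with g | g
  · exact nA221_22 (by omega) (by omega)
  rcases Nat.lt_or_ge r 32 with g | g
  · exact nA221_26 (by omega) (by omega)
  rcases Nat.lt_or_ge r 47 with g | g
  · exact nA221_32 (by omega) (by omega)
  exact nA221_47 (by omega)

theorem qA221 {r : ℕ} (h1 : 22 ≤ r) : QXS 12 13 r (xA 12 13 r) :=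
  qxS_A (by norm_num) (by norm_num) (by omega) (by omega) Pool.Agent.Helper81.TK.E_12_13_T_midA.T (hasP (N := 12) (by decide +kernel)) (hasP (N := 13) (by decide +kernel)) (inB_ok (P := (22, 0)) (b := (556786372050944, 562949953421312)) (by decide +kernel) ⟨h1, Or.inl rfl⟩) (nA221 h1)
    (by norm_num) (by norm_num) (by norm_num) (far3 (L := 524927694768593) (H := 533396196216957) (by norm_num) (by norm_num) (by omega) (xaB_ok (lo := 524927694768593) (hi := 533396196216957) (i := (12, 12)) (j := (13, 13)) (k := (22, 0)) (by decide +kernel) ⟨le_rfl, Or.inr le_rfl⟩ ⟨le_rfl, Or.inr le_rfl⟩ ⟨h1, Or.inl rfl⟩) (by norm_num) (by norm_num))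

theorem nA222_22 {r : ℕ} (h1 : 22 ≤ r) (h2 : r ≤ 25) : TCellU 13 12 r (xA 13 12 r) 0 ((122160139892424 : ℕ) / 2 ^ 48) := by
  have k0 : TCellU 13 12 r (xA 13 12 r) 0 ((2972084595024 : ℕ) / 2 ^ 48) := tcu_sub (Pool.Agent.CXD.tX13X12T_nearG22_25 (inB_ok (P := (22, 25)) (b := (557219934371840, 558510925152256)) (by decide +kernel) ⟨h1, Or.inr h2⟩) (by omega) (by omega)) (by norm_num) le_rfl
  have k1 : TCellU 13 12 r (xA 13 12 r) 0 ((28147497671064 : ℕ) / 2 ^ 48) := tcu_join k0 (Pool.Agent.CXD.tX13X12T_nearG22_29 (inB_ok (P := (22, 25)) (b := (557219934371840, 559649916715008)) (by decide +kernel) ⟨h1, Or.inr h2⟩) (by omega) (by omega)) (by norm_num) (by norm_num)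
  have k2 : TCellU 13 12 r (xA 13 12 r) 0 ((122160139892424 : ℕ) / 2 ^ 48) := tcu_join k1 (Pool.Agent.CXD.tX13X12T_nearH22_oo (inB_ok (P := (22, 25)) (b := (557219934371840, 562949953421312)) (by decide +kernel) ⟨h1, Or.inr h2⟩) (by omega) (by omega)) (by norm_num) (by norm_num)
  exact tcu_sub k2 le_rfl (by norm_num)

theorem nA222_26 {r : ℕ} (h1 : 26 ≤ r) (h2 : r ≤ 29) : TCellU 13 12 r (xA 13 12 r) 0 ((122160139892424 : ℕ) / 2 ^ 48) := by
  have k0 : TCellU 13 12 r (xA 13 12 r) 0 ((2972084595024 : ℕ) / 2 ^ 48) := tcu_sub (Pool.Agent.CXD.tX13X12T_nearG26_29 (inB_ok (P := (26, 29)) (b := (558845414342656, 559649916715008)) (by decide +kernel) ⟨h1, Or.inr h2⟩) (by omega) (by omega)) (by norm_num) le_rfl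
  have k1 : TCellU 13 12 r (xA 13 12 r) 0 ((28147497671064 : ℕ) / 2 ^ 48) := tcu_join k0 (Pool.Agent.CXD.tX13X12T_nearG22_29 (inB_ok (P := (26, 29)) (b := (557219934371840, 559649916715008)) (by decide +kernel) ⟨h1, Or.inr h2⟩) (by omega) (by omega)) (by norm_num) (by norm_num)
  have k2 : TCellU 13 12 r (xA 13 12 r) 0 ((122160139892424 : ℕ) / 2 ^ 48) := tcu_join k1 (Pool.Agent.CXD.tX13X12T_nearH22_oo (inB_ok (P := (26, 29)) (b := (557219934371840, 562949953421312)) (by decide +kernel) ⟨h1, Or.inr h2⟩) (by omega) (by omega)) (by norm_num) (by norm_num)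
  exact tcu_sub k2 le_rfl (by norm_num)

theorem nA222_30 {r : ℕ} (h1 : 30 ≤ r) (h2 : r ≤ 42) : TCellU 13 12 r (xA 13 12 r) 0 ((122160139892424 : ℕ) / 2 ^ 48) := by
  have k0 : TCellU 13 12 r (xA 13 12 r) 0 ((3533707728804 : ℕ) / 2 ^ 48) := tcu_sub (Pool.Agent.CXD.tX13X12T_nearG30_42 (inB_ok (P := (30, 42)) (b := (559866054443008, 561375831392256)) (by decide +kernel) ⟨h1, Or.inr h2⟩) (by omega) (by omega)) (by norm_num) le_rfl
  have k1 : TCellU 13 12 r (xA 13 12 r) 0 ((28147497671064 : ℕ) / 2 ^ 48) := tcu_join k0 (Pool.Agent.CXD.tX13X12T_nearG30_oo (inB_ok (P := (30, 42)) (b := (559866054443008, 562949953421312)) (by decide +kernel) ⟨h1, Or.inr h2⟩) (by omega) (by omega)) (by norm_num) (by norm_num)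
  have k2 : TCellU 13 12 r (xA 13 12 r) 0 ((122160139892424 : ℕ) / 2 ^ 48) := tcu_join k1 (Pool.Agent.CXD.tX13X12T_nearH22_oo (inB_ok (P := (30, 42)) (b := (557219934371840, 562949953421312)) (by decide +kernel) ⟨h1, Or.inr h2⟩) (by omega) (by omega)) (by norm_num) (by norm_num)
  exact tcu_sub k2 le_rfl (by norm_num)

theorem nA222_43 {r : ℕ} (h1 : 43 ≤ r) : TCellU 13 12 r (xA 13 12 r) 0 ((122160139892424 : ℕ) / 2 ^ 48) := by
  have k0 : TCellU 13 12 r (xA 13 12 r) 0 ((3533707728804 : ℕ) / 2 ^ 48) := tcu_sub (Pool.Agent.CXD.tX13X12T_nearG43_oo (inB_ok (P := (43, 0)) (b := (561448162426880, 562949953421312)) (by decide +kernel) ⟨h1, Or.inl rfl⟩) (by omega) (by omega)) (by norm_num) le_rfl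
  have k1 : TCellU 13 12 r (xA 13 12 r) 0 ((28147497671064 : ℕ) / 2 ^ 48) := tcu_join k0 (Pool.Agent.CXD.tX13X12T_nearG30_oo (inB_ok (P := (43, 0)) (b := (559866054443008, 562949953421312)) (by decide +kernel) ⟨h1, Or.inl rfl⟩) (by omega) (by omega)) (by norm_num) (by norm_num)
  have k2 : TCellU 13 12 r (xA 13 12 r) 0 ((122160139892424 : ℕ) / 2 ^ 48) := tcu_join k1 (Pool.Agent.CXD.tX13X12T_nearH22_oo (inB_ok (P := (43, 0)) (b := (557219934371840, 562949953421312)) (by decide +kernel) ⟨h1, Or.inl rfl⟩) (by omega) (by omega)) (by norm_num) (by norm_num)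
  exact tcu_sub k2 le_rfl (by norm_num)

theorem nA222 {r : ℕ} (h1 : 22 ≤ r) : TCellU 13 12 r (xA 13 12 r) 0 ((122160139892424 : ℕ) / 2 ^ 48) := by
  rcases Nat.lt_or_ge r 26 with g | g
  · exact nA222_22 (by omega) (by omega)
  rcases Nat.lt_or_ge r 30 with g | g
  · exact nA222_26 (by omega) (by omega)
  rcases Nat.lt_or_ge r 43 with g | g
  · exact nA222_30 (by omega) (by omega)
  exact nA222_43 (by omega)

theorem qA222 {r : ℕ} (h1 : 22 ≤ r) : QXS 13 12 r (xA 13 12 r) :=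
  qxS_A (by norm_num) (by norm_num) (by omega) (by omega) Pool.Agent.Helper81.TK.E_13_12_T_midA.T (hasP (N := 13) (by decide +kernel)) (hasP (N := 12) (by decide +kernel)) (inB_ok (P := (22, 0)) (b := (556786372050944, 562949953421312)) (by decide +kernel) ⟨h1, Or.inl rfl⟩) (nA222 h1)
    (by norm_num) (by norm_num) (by norm_num) (far3 (L := 524927694768593) (H := 533396196216957) (by norm_num) (by norm_num) (by omega) (xaB_ok (lo := 524927694768593) (hi := 533396196216957) (i := (13, 13)) (j := (12, 12)) (k := (22, 0)) (by decide +kernel) ⟨le_rfl, Or.inr le_rfl⟩ ⟨le_rfl, Or.inr le_rfl⟩ ⟨h1, Or.inl rfl⟩) (by norm_num) (by norm_num))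

theorem fA22 {r : ℕ} (h1 : 22 ≤ r) : FinAt 12 13 r :=
  row_Ac (by norm_num) (by norm_num) (by omega) (by omega) (qA221 h1) (qA222 h1)

/-- the row `(12, 13, r)` -/
theorem row_12_13 : ∀ r, 15 ≤ r → FinAt 12 13 r := by
  intro r hr
  rcases (by omega : r = 15 ∨ r = 16 ∨ r = 17 ∨ r = 18 ∨ r = 19 ∨ r = 20 ∨ r = 21 ∨ 22 ≤ r) with rfl | rfl | rfl | rfl | rfl | rfl | rfl | g
  · exact E12_13_15.fe
  · exact E12_13_16.fe
  · exact E12_13_17.fe
  · exact E12_13_18.fe
  · exact E12_13_19.fe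
  · exact E12_13_20.fe
  · exact E12_13_21.fe
  · exact fA22 g

end Pool.Agent.Helper81.HD.R12_13
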