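import Pool.Agent.CXD.M_X12_X14_T_0
import Pool.Agent.CXD.M_X12_X14_T_1
import Pool.Agent.CXD.M_X12_X14_T_2
import Pool.Agent.CXD.M_X12_X14_T_3
import Pool.Agent.CXD.M_G12_9
import Pool.Agent.CXD.M_G12_10
import Pool.Agent.CXD.M_G12_11
import Pool.Agent.CXD.M_G12_12
import Pool.Agent.CXD.M_G12_13
import Pool.Agent.CXD.M_G12_14
import Pool.Agent.CXD.M_G12_15
import Pool.Agent.CXD.M_G12_16
import Pool.Agent.CXD.M_G12_17
import Pool.Agent.CXD.M_G12_18
import Pool.Agent.CXD.M_G12_19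
import Pool.Agent.CXD.M_G12_20
import Pool.Agent.CXD.M_X14_X12_T_0
import Pool.Agent.CXD.M_X14_X12_T_1
import Pool.Agent.CXD.M_X14_X12_T_2
import Pool.Agent.Helper81.MIT.HDl
import Pool.Agent.Helper81.MIT.PtR1
import Pool.Agent.Helper81.MIT.PtR2
import Pool.Agent.Helper81.MIT.PtR3
import Pool.Agent.Helper81.MIT.PtR4
import Pool.Agent.Helper81.MIT.RotF
import Pool.Agent.Helper81.MIT.XPt
import Pool.Agent.Helper81.TK.GS1
import Pool.Agent.Helper81.TK.GS2

/-!
The exact triples `(12, 14, r)` of the row `(12, 14)`.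
-/

set_option autoImplicit false
set_option exponentiation.threshold 4000
noncomputable section
namespace Pool.Agent.Helper81.HD

open Pool.Agent.Helper81.MIT
open Pool.Agent.Helper6.MONO (Thr fB FinAt Kp)
open Pool.Agent.Helper57.U2 (TCellU)
open Pool.Agent.Helper84.ST (QXS)

namespace E12_14_15
/-- the triple `(12, 14, 15)` -/
theorem fe : FinAt 12 14 15 := by
  refine z60_12_14_15 fun x0 hX0 hT tB => ?_
  have hX : |2 ^ 48 * x0 - (-((529960520728047 : ℕ) : ℝ))| ≤ ((64 : ℕ) : ℝ) := by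
    push_cast; exact hX0.trans (by norm_num)
  have hK := kz_pm (M := 15) (K := 550648146272264) (by norm_num) (by norm_num) rfl
  have hz := zvX hX
  have hR : ((529960520727983 : ℕ) : ℝ) ≤ -(2 ^ 48 * x0) ∧ -(2 ^ 48 * x0) ≤ ((529960520728111 : ℕ) : ℝ) := by
    rw [abs_le] at hX0; push_cast; constructor <;> linarith [hX0.1, hX0.2]
  have n0_0 : TCellU 12 14 15 x0 0 ((2251799813684 : ℕ) / 2 ^ 48) := tcu_sub (TCellU.of_t (Pool.Agent.CXD.tX12_X14_X15_near_B hz hT tB)) (by norm_num) le_rfl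
  have n0_1 : TCellU 12 14 15 x0 0 ((8444249301320 : ℕ) / 2 ^ 48) := tcu_join n0_0 (TCellU.of_t (Pool.Agent.CXD.tX12_X14_X15_near_h hz hT)) (by norm_num) (by norm_num)
  have n0_2 : TCellU 12 14 15 x0 0 ((122160139892424 : ℕ) / 2 ^ 48) := tcu_join n0_1 (TCellU.of_t (Pool.Agent.CXD.tX12_X14_X15_near_g hz hT)) (by norm_num) (by norm_num)
  have h0 : QXS 12 14 15 x0 :=
    qxS_O (by norm_num) (by norm_num) (by norm_num) hT.gt hT.le (xh_pt (X := 529960520728047) (by decide +kernel) hK.1 hK.2 hX) Pool.Agent.Helper81.TK.E_12_14_T_midB.T (hasP (N := 12) (by decide +kernel)) (hasP (N := 14) (by decide +kernel)) (inB_ok (P := (15, 15)) (b := (550648146034688, 560261767364608)) (by decide +kernel) ⟨le_rfl, Or.inr le_rfl⟩) n0_2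
      (by norm_num) (by norm_num) (by norm_num) (far3 (L := 529960520727983) (H := 529960520728111) (by norm_num) (by norm_num) (by norm_num) hR (by norm_num) (by norm_num))
  have n1_0 : TCellU 12 15 14 x0 0 ((1266637395196 : ℕ) / 2 ^ 48) := tcu_sub (TCellU.of_t (Pool.Agent.CXD.tX12_X15_X14_near_Bt hz (thr_mir hT) (fB_mi tB))) (by norm_num) le_rfl
  have n1_1 : TCellU 12 15 14 x0 0 ((2251799813684 : ℕ) / 2 ^ 48) := tcu_join n1_0 (TCellU.of_t (Pool.Agent.CXD.tX12_X15_X14_near_B hz (thr_mir hT) (fB_mi tB))) (by norm_num) (by norm_num)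
  have n1_2 : TCellU 12 15 14 x0 0 ((8444249301320 : ℕ) / 2 ^ 48) := tcu_join n1_1 (TCellU.of_t (Pool.Agent.CXD.tX12_X15_X14_near_h hz (thr_mir hT))) (by norm_num) (by norm_num)
  have n1_3 : TCellU 12 15 14 x0 0 ((122160139892424 : ℕ) / 2 ^ 48) := tcu_join n1_2 (TCellU.of_t (Pool.Agent.CXD.tX12_X15_X14_near_g hz (thr_mir hT))) (by norm_num) (by norm_num)
  have h1 : QXS 12 15 14 x0 :=
    qxS_rm (by norm_num) (by norm_num) (by norm_num) hT.gt hT.le n1_3
      (Pool.Agent.Helper81.TK.E_14_12_T_midB.T 14 12 15 (hasP (N := 14) (by decide +kernel)) (hasP (N := 12) (by decide +kernel)) (inB_ok (P := (15, 15)) (b := (550648146034688, 560261767364608)) (by decide +kernel) ⟨le_rfl, Or.inr le_rfl⟩) x0 hT.gt hT.le (xh_pt (X := 529960520728047) (by decide +kernel) hK.1 hK.2 hX))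
      (by norm_num) (by norm_num) (by norm_num) (far3 (L := 529960520727983) (H := 529960520728111) (by norm_num) (by norm_num) (by norm_num) hR (by norm_num) (by norm_num))
  exact zf_QS (by norm_num) (by norm_num) (by norm_num) (by norm_num) hT h0 h1.rot2
end E12_14_15

namespace E12_14_16
/-- the triple `(12, 14, 16)` -/
theorem fe : FinAt 12 14 16 := by
  refine z60_12_14_16 fun x0 hX0 hT tB => ?_
  have hX : |2 ^ 48 * x0 - (-((530175036216962 : ℕ) : ℝ))| ≤ ((64 : ℕ) : ℝ) := by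
    push_cast; exact hX0.trans (by norm_num)
  have hK := kz_pm (M := 16) (K := 552133027919307) (by norm_num) (by norm_num) rfl
  have hz := zvX hX
  have hR : ((530175036216898 : ℕ) : ℝ) ≤ -(2 ^ 48 * x0) ∧ -(2 ^ 48 * x0) ≤ ((530175036217026 : ℕ) : ℝ) := by
    rw [abs_le] at hX0; push_cast; constructor <;> linarith [hX0.1, hX0.2]
  have n0_0 : TCellU 12 14 16 x0 0 ((1688849860264 : ℕ) / 2 ^ 48) := tcu_sub (TCellU.of_t (Pool.Agent.CXD.tX12_X14_X16_near_Bt hz hT tB)) (by norm_num) le_rfl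
  have n0_1 : TCellU 12 14 16 x0 0 ((2251799813684 : ℕ) / 2 ^ 48) := tcu_join n0_0 (TCellU.of_t (Pool.Agent.CXD.tX12_X14_X16_near_B hz hT tB)) (by norm_num) (by norm_num)
  have n0_2 : TCellU 12 14 16 x0 0 ((8444249301320 : ℕ) / 2 ^ 48) := tcu_join n0_1 (TCellU.of_t (Pool.Agent.CXD.tX12_X14_X16_near_h hz hT)) (by norm_num) (by norm_num)
  have n0_3 : TCellU 12 14 16 x0 0 ((122160139892424 : ℕ) / 2 ^ 48) := tcu_join n0_2 (TCellU.of_t (Pool.Agent.CXD.tX12_X14_X16_near_g hz hT)) (by norm_num) (by norm_num)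
  have h0 : QXS 12 14 16 x0 :=
    qxS_O (by norm_num) (by norm_num) (by norm_num) hT.gt hT.le (xh_pt (X := 530175036216962) (by decide +kernel) hK.1 hK.2 hX) Pool.Agent.Helper81.TK.E_12_14_T_midB.T (hasP (N := 12) (by decide +kernel)) (hasP (N := 14) (by decide +kernel)) (inB_ok (P := (16, 16)) (b := (550648146034688, 560261767364608)) (by decide +kernel) ⟨le_rfl, Or.inr le_rfl⟩) n0_3
      (by norm_num) (by norm_num) (by norm_num) (far3 (L := 530175036216898) (H := 530175036217026) (by norm_num) (by norm_num) (by norm_num) hR (by norm_num) (by norm_num))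
  have n1_0 : TCellU 12 16 14 x0 0 ((1266637395196 : ℕ) / 2 ^ 48) := tcu_sub (TCellU.of_t (Pool.Agent.CXD.tX12_X16_X14_near_Bt hz (thr_mir hT) (fB_mi tB))) (by norm_num) le_rfl
  have n1_1 : TCellU 12 16 14 x0 0 ((2251799813684 : ℕ) / 2 ^ 48) := tcu_join n1_0 (TCellU.of_t (Pool.Agent.CXD.tX12_X16_X14_near_B hz (thr_mir hT) (fB_mi tB))) (by norm_num) (by norm_num)
  have n1_2 : TCellU 12 16 14 x0 0 ((8444249301320 : ℕ) / 2 ^ 48) := tcu_join n1_1 (TCellU.of_t (Pool.Agent.CXD.tX12_X16_X14_near_h hz (thr_mir hT))) (by norm_num) (by norm_num)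
  have n1_3 : TCellU 12 16 14 x0 0 ((122160139892424 : ℕ) / 2 ^ 48) := tcu_join n1_2 (TCellU.of_t (Pool.Agent.CXD.tX12_X16_X14_near_g hz (thr_mir hT))) (by norm_num) (by norm_num)
  have h1 : QXS 12 16 14 x0 :=
    qxS_rm (by norm_num) (by norm_num) (by norm_num) hT.gt hT.le n1_3
      (Pool.Agent.Helper81.TK.E_14_12_T_midB.T 14 12 16 (hasP (N := 14) (by decide +kernel)) (hasP (N := 12) (by decide +kernel)) (inB_ok (P := (16, 16)) (b := (550648146034688, 560261767364608)) (by decide +kernel) ⟨le_rfl, Or.inr le_rfl⟩) x0 hT.gt hT.le (xh_pt (X := 530175036216962) (by decide +kernel) hK.1 hK.2 hX))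
      (by norm_num) (by norm_num) (by norm_num) (far3 (L := 530175036216898) (H := 530175036217026) (by norm_num) (by norm_num) (by norm_num) hR (by norm_num) (by norm_num))
  exact zf_QS (by norm_num) (by norm_num) (by norm_num) (by norm_num) hT h0 h1.rot2
end E12_14_16

namespace E12_14_17
/-- the triple `(12, 14, 17)` -/
theorem fe : FinAt 12 14 17 := by
  refine z60_12_14_17 fun x0 hX0 hT tB => ?_
  have hX : |2 ^ 48 * x0 - (-((530347869474520 : ℕ) : ℝ))| ≤ ((64 : ℕ) : ℝ) := by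
    push_cast; exact hX0.trans (by norm_num)
  have hK := kz_pm (M := 17) (K := 553364660681455) (by norm_num) (by norm_num) rfl
  have hz := zvX hX
  have hR : ((530347869474456 : ℕ) : ℝ) ≤ -(2 ^ 48 * x0) ∧ -(2 ^ 48 * x0) ≤ ((530347869474584 : ℕ) : ℝ) := by
    rw [abs_le] at hX0; push_cast; constructor <;> linarith [hX0.1, hX0.2]
  have n0_0 : TCellU 12 14 17 x0 0 ((1688849860264 : ℕ) / 2 ^ 48) := tcu_sub (TCellU.of_t (Pool.Agent.CXD.tX12_X14_X17_near_Bt hz hT tB)) (by norm_num) le_rfl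
  have n0_1 : TCellU 12 14 17 x0 0 ((2251799813684 : ℕ) / 2 ^ 48) := tcu_join n0_0 (TCellU.of_t (Pool.Agent.CXD.tX12_X14_X17_near_B hz hT tB)) (by norm_num) (by norm_num)
  have n0_2 : TCellU 12 14 17 x0 0 ((8444249301320 : ℕ) / 2 ^ 48) := tcu_join n0_1 (TCellU.of_t (Pool.Agent.CXD.tX12_X14_X17_near_h hz hT)) (by norm_num) (by norm_num)
  have n0_3 : TCellU 12 14 17 x0 0 ((122160139892424 : ℕ) / 2 ^ 48) := tcu_join n0_2 (TCellU.of_t (Pool.Agent.CXD.tX12_X14_X17_near_g hz hT)) (by norm_num) (by norm_num)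
  have h0 : QXS 12 14 17 x0 :=
    qxS_O (by norm_num) (by norm_num) (by norm_num) hT.gt hT.le (xh_pt (X := 530347869474520) (by decide +kernel) hK.1 hK.2 hX) Pool.Agent.Helper81.TK.E_12_14_T_midB.T (hasP (N := 12) (by decide +kernel)) (hasP (N := 14) (by decide +kernel)) (inB_ok (P := (17, 17)) (b := (550648146034688, 560261767364608)) (by decide +kernel) ⟨le_rfl, Or.inr le_rfl⟩) n0_3
      (by norm_num) (by norm_num) (by norm_num) (far3 (L := 530347869474456) (H := 530347869474584) (by norm_num) (by norm_num) (by norm_num) hR (by norm_num) (by norm_num))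
  have n1_0 : TCellU 12 17 14 x0 0 ((2251799813684 : ℕ) / 2 ^ 48) := tcu_sub (TCellU.of_t (Pool.Agent.CXD.tX12_X17_X14_near_B hz (thr_mir hT) (fB_mi tB))) (by norm_num) le_rfl
  have n1_1 : TCellU 12 17 14 x0 0 ((8444249301320 : ℕ) / 2 ^ 48) := tcu_join n1_0 (TCellU.of_t (Pool.Agent.CXD.tX12_X17_X14_near_h hz (thr_mir hT))) (by norm_num) (by norm_num)
  have n1_2 : TCellU 12 17 14 x0 0 ((122160139892424 : ℕ) / 2 ^ 48) := tcu_join n1_1 (TCellU.of_t (Pool.Agent.CXD.tX12_X17_X14_near_g hz (thr_mir hT))) (by norm_num) (by norm_num)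
  have h1 : QXS 12 17 14 x0 :=
    qxS_rm (by norm_num) (by norm_num) (by norm_num) hT.gt hT.le n1_2
      (Pool.Agent.Helper81.TK.E_14_12_T_midB.T 14 12 17 (hasP (N := 14) (by decide +kernel)) (hasP (N := 12) (by decide +kernel)) (inB_ok (P := (17, 17)) (b := (550648146034688, 560261767364608)) (by decide +kernel) ⟨le_rfl, Or.inr le_rfl⟩) x0 hT.gt hT.le (xh_pt (X := 530347869474520) (by decide +kernel) hK.1 hK.2 hX))
      (by norm_num) (by norm_num) (by norm_num) (far3 (L := 530347869474456) (H := 530347869474584) (by norm_num) (by norm_num) (by norm_num) hR (by norm_num) (by norm_num))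
  exact zf_QS (by norm_num) (by norm_num) (by norm_num) (by norm_num) hT h0 h1.rot2
end E12_14_17

namespace E12_14_18
/-- the triple `(12, 14, 18)` -/
theorem fe : FinAt 12 14 18 := by
  refine z60_12_14_18 fun x0 hX0 hT tB => ?_
  have hX : |2 ^ 48 * x0 - (-((530489327585291 : ℕ) : ℝ))| ≤ ((64 : ℕ) : ℝ) := by
    push_cast; exact hX0.trans (by norm_num)
  have hK := kz_pm (M := 18) (K := 554397478687169) (by norm_num) (by norm_num) rfl
  have hz := zvX hX
  have hR : ((530489327585227 : ℕ) : ℝ) ≤ -(2 ^ 48 * x0) ∧ -(2 ^ 48 * x0) ≤ ((530489327585355 : ℕ) : ℝ) := by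
    rw [abs_le] at hX0; push_cast; constructor <;> linarith [hX0.1, hX0.2]
  have n0_0 : TCellU 12 14 18 x0 0 ((2251799813684 : ℕ) / 2 ^ 48) := tcu_sub (TCellU.of_t (Pool.Agent.CXD.tX12_X14_X18_near_B hz hT tB)) (by norm_num) le_rfl
  have n0_1 : TCellU 12 14 18 x0 0 ((8444249301320 : ℕ) / 2 ^ 48) := tcu_join n0_0 (TCellU.of_t (Pool.Agent.CXD.tX12_X14_X18_near_h hz hT)) (by norm_num) (by norm_num)
  have n0_2 : TCellU 12 14 18 x0 0 ((122160139892424 : ℕ) / 2 ^ 48) := tcu_join n0_1 (TCellU.of_t (Pool.Agent.CXD.tX12_X14_X18_near_g hz hT)) (by norm_num) (by norm_num)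
  have h0 : QXS 12 14 18 x0 :=
    qxS_O (by norm_num) (by norm_num) (by norm_num) hT.gt hT.le (xh_pt (X := 530489327585291) (by decide +kernel) hK.1 hK.2 hX) Pool.Agent.Helper81.TK.E_12_14_T_midB.T (hasP (N := 12) (by decide +kernel)) (hasP (N := 14) (by decide +kernel)) (inB_ok (P := (18, 18)) (b := (550648146034688, 560261767364608)) (by decide +kernel) ⟨le_rfl, Or.inr le_rfl⟩) n0_2
      (by norm_num) (by norm_num) (by norm_num) (far3 (L := 530489327585227) (H := 530489327585355) (by norm_num) (by norm_num) (by norm_num) hR (by norm_num) (by norm_num))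
  have n1_0 : TCellU 12 18 14 x0 0 ((2251799813684 : ℕ) / 2 ^ 48) := tcu_sub (TCellU.of_t (Pool.Agent.CXD.tX12_X18_X14_near_B hz (thr_mir hT) (fB_mi tB))) (by norm_num) le_rfl
  have n1_1 : TCellU 12 18 14 x0 0 ((8444249301320 : ℕ) / 2 ^ 48) := tcu_join n1_0 (TCellU.of_t (Pool.Agent.CXD.tX12_X18_X14_near_h hz (thr_mir hT))) (by norm_num) (by norm_num)
  have n1_2 : TCellU 12 18 14 x0 0 ((122160139892424 : ℕ) / 2 ^ 48) := tcu_join n1_1 (TCellU.of_t (Pool.Agent.CXD.tX12_X18_X14_near_g hz (thr_mir hT))) (by norm_num) (by norm_num)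
  have h1 : QXS 12 18 14 x0 :=
    qxS_rm (by norm_num) (by norm_num) (by norm_num) hT.gt hT.le n1_2
      (Pool.Agent.Helper81.TK.E_14_12_T_midB.T 14 12 18 (hasP (N := 14) (by decide +kernel)) (hasP (N := 12) (by decide +kernel)) (inB_ok (P := (18, 18)) (b := (550648146034688, 560261767364608)) (by decide +kernel) ⟨le_rfl, Or.inr le_rfl⟩) x0 hT.gt hT.le (xh_pt (X := 530489327585291) (by decide +kernel) hK.1 hK.2 hX))
      (by norm_num) (by norm_num) (by norm_num) (far3 (L := 530489327585227) (H := 530489327585355) (by norm_num) (by norm_num) (by norm_num) hR (by norm_num) (by norm_num))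
  exact zf_QS (by norm_num) (by norm_num) (by norm_num) (by norm_num) hT h0 h1.rot2
end E12_14_18

namespace E12_14_19
/-- the triple `(12, 14, 19)` -/
theorem fe : FinAt 12 14 19 := by
  refine z60_12_14_19 fun x0 hX0 hT tB => ?_
  have hX : |2 ^ 48 * x0 - (-((530606681505165 : ℕ) : ℝ))| ≤ ((64 : ℕ) : ℝ) := by
    push_cast; exact hX0.trans (by norm_num)
  have hK := kz_pm (M := 19) (K := 555272049807147) (by norm_num) (by norm_num) rfl
  have hz := zvX hX
  have hR : ((530606681505101 : ℕ) : ℝ) ≤ -(2 ^ 48 * x0) ∧ -(2 ^ 48 * x0) ≤ ((530606681505229 : ℕ) : ℝ) := by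
    rw [abs_le] at hX0; push_cast; constructor <;> linarith [hX0.1, hX0.2]
  have n0_0 : TCellU 12 14 19 x0 0 ((2251799813684 : ℕ) / 2 ^ 48) := tcu_sub (TCellU.of_t (Pool.Agent.CXD.tX12_X14_X19_near_B hz hT tB)) (by norm_num) le_rfl
  have n0_1 : TCellU 12 14 19 x0 0 ((8444249301320 : ℕ) / 2 ^ 48) := tcu_join n0_0 (TCellU.of_t (Pool.Agent.CXD.tX12_X14_X19_near_h hz hT)) (by norm_num) (by norm_num)
  have n0_2 : TCellU 12 14 19 x0 0 ((122160139892424 : ℕ) / 2 ^ 48) := tcu_join n0_1 (TCellU.of_t (Pool.Agent.CXD.tX12_X14_X19_near_g hz hT)) (by norm_num) (by norm_num)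
  have h0 : QXS 12 14 19 x0 :=
    qxS_O (by norm_num) (by norm_num) (by norm_num) hT.gt hT.le (xh_pt (X := 530606681505165) (by decide +kernel) hK.1 hK.2 hX) Pool.Agent.Helper81.TK.E_12_14_T_midB.T (hasP (N := 12) (by decide +kernel)) (hasP (N := 14) (by decide +kernel)) (inB_ok (P := (19, 19)) (b := (550648146034688, 560261767364608)) (by decide +kernel) ⟨le_rfl, Or.inr le_rfl⟩) n0_2
      (by norm_num) (by norm_num) (by norm_num) (far3 (L := 530606681505101) (H := 530606681505229) (by norm_num) (by norm_num) (by norm_num) hR (by norm_num) (by norm_num))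
  have n1_0 : TCellU 12 19 14 x0 0 ((2251799813684 : ℕ) / 2 ^ 48) := tcu_sub (TCellU.of_t (Pool.Agent.CXD.tX12_X19_X14_near_B hz (thr_mir hT) (fB_mi tB))) (by norm_num) le_rfl
  have n1_1 : TCellU 12 19 14 x0 0 ((8444249301320 : ℕ) / 2 ^ 48) := tcu_join n1_0 (TCellU.of_t (Pool.Agent.CXD.tX12_X19_X14_near_h hz (thr_mir hT))) (by norm_num) (by norm_num)
  have n1_2 : TCellU 12 19 14 x0 0 ((122160139892424 : ℕ) / 2 ^ 48) := tcu_join n1_1 (TCellU.of_t (Pool.Agent.CXD.tX12_X19_X14_near_g hz (thr_mir hT))) (by norm_num) (by norm_num)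
  have h1 : QXS 12 19 14 x0 :=
    qxS_rm (by norm_num) (by norm_num) (by norm_num) hT.gt hT.le n1_2
      (Pool.Agent.Helper81.TK.E_14_12_T_midB.T 14 12 19 (hasP (N := 14) (by decide +kernel)) (hasP (N := 12) (by decide +kernel)) (inB_ok (P := (19, 19)) (b := (550648146034688, 560261767364608)) (by decide +kernel) ⟨le_rfl, Or.inr le_rfl⟩) x0 hT.gt hT.le (xh_pt (X := 530606681505165) (by decide +kernel) hK.1 hK.2 hX))
      (by norm_num) (by norm_num) (by norm_num) (far3 (L := 530606681505101) (H := 530606681505229) (by norm_num) (by norm_num) (by norm_num) hR (by norm_num) (by norm_num))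
  exact zf_QS (by norm_num) (by norm_num) (by norm_num) (by norm_num) hT h0 h1.rot2
end E12_14_19

namespace E12_14_20
/-- the triple `(12, 14, 20)` -/
theorem fe : FinAt 12 14 20 := by
  refine z60_12_14_20 fun x0 hX0 hT tB => ?_
  have hX : |2 ^ 48 * x0 - (-((530705188631574 : ℕ) : ℝ))| ≤ ((64 : ℕ) : ℝ) := by
    push_cast; exact hX0.trans (by norm_num)
  have hK := kz_pm (M := 20) (K := 556019105332806) (by norm_num) (by norm_num) rfl
  have hz := zvX hX
  have hR : ((530705188631510 : ℕ) : ℝ) ≤ -(2 ^ 48 * x0) ∧ -(2 ^ 48 * x0) ≤ ((530705188631638 : ℕ) : ℝ) := by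
    rw [abs_le] at hX0; push_cast; constructor <;> linarith [hX0.1, hX0.2]
  have n0_0 : TCellU 12 14 20 x0 0 ((2251799813684 : ℕ) / 2 ^ 48) := tcu_sub (TCellU.of_t (Pool.Agent.CXD.tX12_X14_X20_near_B hz hT tB)) (by norm_num) le_rfl
  have n0_1 : TCellU 12 14 20 x0 0 ((8444249301320 : ℕ) / 2 ^ 48) := tcu_join n0_0 (TCellU.of_t (Pool.Agent.CXD.tX12_X14_X20_near_h hz hT)) (by norm_num) (by norm_num)
  have n0_2 : TCellU 12 14 20 x0 0 ((122160139892424 : ℕ) / 2 ^ 48) := tcu_join n0_1 (TCellU.of_t (Pool.Agent.CXD.tX12_X14_X20_near_g hz hT)) (by norm_num) (by norm_num)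
  have h0 : QXS 12 14 20 x0 :=
    qxS_O (by norm_num) (by norm_num) (by norm_num) hT.gt hT.le (xh_pt (X := 530705188631574) (by decide +kernel) hK.1 hK.2 hX) Pool.Agent.Helper81.TK.E_12_14_T_midB.T (hasP (N := 12) (by decide +kernel)) (hasP (N := 14) (by decide +kernel)) (inB_ok (P := (20, 20)) (b := (550648146034688, 560261767364608)) (by decide +kernel) ⟨le_rfl, Or.inr le_rfl⟩) n0_2
      (by norm_num) (by norm_num) (by norm_num) (far3 (L := 530705188631510) (H := 530705188631638) (by norm_num) (by norm_num) (by norm_num) hR (by norm_num) (by norm_num))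
  have n1_0 : TCellU 12 20 14 x0 0 ((2251799813684 : ℕ) / 2 ^ 48) := tcu_sub (TCellU.of_t (Pool.Agent.CXD.tX12_X20_X14_near_B hz (thr_mir hT) (fB_mi tB))) (by norm_num) le_rfl
  have n1_1 : TCellU 12 20 14 x0 0 ((8444249301320 : ℕ) / 2 ^ 48) := tcu_join n1_0 (TCellU.of_t (Pool.Agent.CXD.tX12_X20_X14_near_h hz (thr_mir hT))) (by norm_num) (by norm_num)
  have n1_2 : TCellU 12 20 14 x0 0 ((122160139892424 : ℕ) / 2 ^ 48) := tcu_join n1_1 (TCellU.of_t (Pool.Agent.CXD.tX12_X20_X14_near_g hz (thr_mir hT))) (by norm_num) (by norm_num)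
  have h1 : QXS 12 20 14 x0 :=
    qxS_rm (by norm_num) (by norm_num) (by norm_num) hT.gt hT.le n1_2
      (Pool.Agent.Helper81.TK.E_14_12_T_midB.T 14 12 20 (hasP (N := 14) (by decide +kernel)) (hasP (N := 12) (by decide +kernel)) (inB_ok (P := (20, 20)) (b := (550648146034688, 560261767364608)) (by decide +kernel) ⟨le_rfl, Or.inr le_rfl⟩) x0 hT.gt hT.le (xh_pt (X := 530705188631574) (by decide +kernel) hK.1 hK.2 hX))
      (by norm_num) (by norm_num) (by norm_num) (far3 (L := 530705188631510) (H := 530705188631638) (by norm_num) (by norm_num) (by norm_num) hR (by norm_num) (by norm_num))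
  exact zf_QS (by norm_num) (by norm_num) (by norm_num) (by norm_num) hT h0 h1.rot2
end E12_14_20

namespace E12_14_21
/-- the triple `(12, 14, 21)` -/
theorem fe : FinAt 12 14 21 := by
  refine z60_12_14_21 fun x0 hX0 hT tB => ?_
  have hX : |2 ^ 48 * x0 - (-((530788732273873 : ℕ) : ℝ))| ≤ ((64 : ℕ) : ℝ) := by
    push_cast; exact hX0.trans (by norm_num)
  have hK := kz_pm (M := 21) (K := 556662267564994) (by norm_num) (by norm_num) rfl
  have hz := zvX hX
  have hR : ((530788732273809 : ℕ) : ℝ) ≤ -(2 ^ 48 * x0) ∧ -(2 ^ 48 * x0) ≤ ((530788732273937 : ℕ) : ℝ) := by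
    rw [abs_le] at hX0; push_cast; constructor <;> linarith [hX0.1, hX0.2]
  have n0_0 : TCellU 12 14 21 x0 0 ((2251799813684 : ℕ) / 2 ^ 48) := tcu_sub (TCellU.of_t (Pool.Agent.CXD.tX12_X14_X21_near_B hz hT tB)) (by norm_num) le_rfl
  have n0_1 : TCellU 12 14 21 x0 0 ((8444249301320 : ℕ) / 2 ^ 48) := tcu_join n0_0 (TCellU.of_t (Pool.Agent.CXD.tX12_X14_X21_near_h hz hT)) (by norm_num) (by norm_num)
  have n0_2 : TCellU 12 14 21 x0 0 ((122160139892424 : ℕ) / 2 ^ 48) := tcu_join n0_1 (TCellU.of_t (Pool.Agent.CXD.tX12_X14_X21_near_g hz hT)) (by norm_num) (by norm_num)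
  have h0 : QXS 12 14 21 x0 :=
    qxS_O (by norm_num) (by norm_num) (by norm_num) hT.gt hT.le (xh_pt (X := 530788732273873) (by decide +kernel) hK.1 hK.2 hX) Pool.Agent.Helper81.TK.E_12_14_T_midB.T (hasP (N := 12) (by decide +kernel)) (hasP (N := 14) (by decide +kernel)) (inB_ok (P := (21, 21)) (b := (550648146034688, 560261767364608)) (by decide +kernel) ⟨le_rfl, Or.inr le_rfl⟩) n0_2
      (by norm_num) (by norm_num) (by norm_num) (far3 (L := 530788732273809) (H := 530788732273937) (by norm_num) (by norm_num) (by norm_num) hR (by norm_num) (by norm_num))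
  have n1_0 : TCellU 12 21 14 x0 0 ((2251799813684 : ℕ) / 2 ^ 48) := tcu_sub (TCellU.of_t (Pool.Agent.CXD.tX12_X21_X14_near_B hz (thr_mir hT) (fB_mi tB))) (by norm_num) le_rfl
  have n1_1 : TCellU 12 21 14 x0 0 ((8444249301320 : ℕ) / 2 ^ 48) := tcu_join n1_0 (TCellU.of_t (Pool.Agent.CXD.tX12_X21_X14_near_h hz (thr_mir hT))) (by norm_num) (by norm_num)
  have n1_2 : TCellU 12 21 14 x0 0 ((122160139892424 : ℕ) / 2 ^ 48) := tcu_join n1_1 (TCellU.of_t (Pool.Agent.CXD.tX12_X21_X14_near_g hz (thr_mir hT))) (by norm_num) (by norm_num)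
  have h1 : QXS 12 21 14 x0 :=
    qxS_rm (by norm_num) (by norm_num) (by norm_num) hT.gt hT.le n1_2
      (Pool.Agent.Helper81.TK.E_14_12_T_midB.T 14 12 21 (hasP (N := 14) (by decide +kernel)) (hasP (N := 12) (by decide +kernel)) (inB_ok (P := (21, 21)) (b := (550648146034688, 560261767364608)) (by decide +kernel) ⟨le_rfl, Or.inr le_rfl⟩) x0 hT.gt hT.le (xh_pt (X := 530788732273873) (by decide +kernel) hK.1 hK.2 hX))
      (by norm_num) (by norm_num) (by norm_num) (far3 (L := 530788732273809) (H := 530788732273937) (by norm_num) (by norm_num) (by norm_num) hR (by norm_num) (by norm_num))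
  exact zf_QS (by norm_num) (by norm_num) (by norm_num) (by norm_num) hT h0 h1.rot2
end E12_14_21

namespace E12_14_22
/-- the triple `(12, 14, 22)` -/
theorem fe : FinAt 12 14 22 := by
  refine z60_12_14_22 fun x0 hX0 hT tB => ?_
  have hX : |2 ^ 48 * x0 - (-((530860234602129 : ℕ) : ℝ))| ≤ ((64 : ℕ) : ℝ) := by
    push_cast; exact hX0.trans (by norm_num)
  have hK := kz_pm (M := 22) (K := 557219934602287) (by norm_num) (by norm_num) rfl
  have hR : ((530860234602065 : ℕ) : ℝ) ≤ -(2 ^ 48 * x0) ∧ -(2 ^ 48 * x0) ≤ ((530860234602193 : ℕ) : ℝ) := by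
    rw [abs_le] at hX0; push_cast; constructor <;> linarith [hX0.1, hX0.2]
  have n0_0 : TCellU 12 14 22 x0 0 ((56294995344 : ℕ) / 2 ^ 48) := tcu_sub (Pool.Agent.CXD.tX12X14T_nearBz0 (inB_ok (P := (22, 22)) (b := (557219119366144, 558727832272896)) (by decide +kernel) ⟨le_rfl, Or.inr le_rfl⟩) (xh_pt (X := 530860234602129) (by decide +kernel) hK.1 hK.2 hX) hT tB) (by norm_num) le_rfl
  have n0_1 : TCellU 12 14 22 x0 0 ((150535276492 : ℕ) / 2 ^ 48) := tcu_join n0_0 (Pool.Agent.CXD.tX12X14T_nearBd1g (inB_ok (P := (22, 22)) (b := (557219934371840, 557706607853568)) (by decide +kernel) ⟨le_rfl, Or.inr le_rfl⟩) (xh_pt (X := 530860234602129) (by decide +kernel) hK.1 hK.2 hX) hT tB) (by norm_num) (by norm_num)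
  have n0_2 : TCellU 12 14 22 x0 0 ((785477478544 : ℕ) / 2 ^ 48) := tcu_join n0_1 (Pool.Agent.CXD.tX12X14T_nearBdg (inB_ok (P := (22, 22)) (b := (557219934371840, 558727828865024)) (by decide +kernel) ⟨le_rfl, Or.inr le_rfl⟩) (xh_pt (X := 530860234602129) (by decide +kernel) hK.1 hK.2 hX) hT tB) (by norm_num) (by norm_num)
  have n0_3 : TCellU 12 14 22 x0 0 ((14002718440596 : ℕ) / 2 ^ 48) := tcu_join n0_2 (Pool.Agent.CXD.tX12X14T_nearBcg (inB_ok (P := (22, 22)) (b := (557219934371840, 558727828865024)) (by decide +kernel) ⟨le_rfl, Or.inr le_rfl⟩) (xh_pt (X := 530860234602129) (by decide +kernel) hK.1 hK.2 hX) hT tB) (by norm_num) (by norm_num)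
  have n0_4 : TCellU 12 14 22 x0 0 ((22517998136852 : ℕ) / 2 ^ 48) := tcu_join n0_3 (Pool.Agent.CXD.tX12X14T_nearBb (inB_ok (P := (22, 22)) (b := (557219934371840, 560239195717632)) (by decide +kernel) ⟨le_rfl, Or.inr le_rfl⟩) (xh_pt (X := 530860234602129) (by decide +kernel) hK.1 hK.2 hX) hT tB) (by norm_num) (by norm_num)
  have n0_5 : TCellU 12 14 22 x0 0 ((122160139892424 : ℕ) / 2 ^ 48) := tcu_join n0_4 (Pool.Agent.CXD.tX12X14T_nearBa (inB_ok (P := (22, 22)) (b := (557219934371840, 560239195717632)) (by decide +kernel) ⟨le_rfl, Or.inr le_rfl⟩) (xh_pt (X := 530860234602129) (by decide +kernel) hK.1 hK.2 hX) hT) (by norm_num) (by norm_num)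
  have h0 : QXS 12 14 22 x0 :=
    qxS_O (by norm_num) (by norm_num) (by norm_num) hT.gt hT.le (xh_pt (X := 530860234602129) (by decide +kernel) hK.1 hK.2 hX) Pool.Agent.Helper81.TK.E_12_14_T_midB.T (hasP (N := 12) (by decide +kernel)) (hasP (N := 14) (by decide +kernel)) (inB_ok (P := (22, 22)) (b := (550648146034688, 560261767364608)) (by decide +kernel) ⟨le_rfl, Or.inr le_rfl⟩) n0_5
      (by norm_num) (by norm_num) (by norm_num) (far3 (L := 530860234602065) (H := 530860234602193) (by norm_num) (by norm_num) (by norm_num) hR (by norm_num) (by norm_num))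
  have n1_0 : TCellU 14 12 22 x0 0 ((56294995344 : ℕ) / 2 ^ 48) := tcu_sub (Pool.Agent.CXD.tX14X12T_nearBz0 (inB_ok (P := (22, 22)) (b := (557219119366144, 558727832272896)) (by decide +kernel) ⟨le_rfl, Or.inr le_rfl⟩) (xh_pt (X := 530860234602129) (by decide +kernel) hK.1 hK.2 hX) hT.swap (fB_sw tB)) (by norm_num) le_rfl
  have n1_1 : TCellU 14 12 22 x0 0 ((89750799252 : ℕ) / 2 ^ 48) := tcu_join n1_0 (Pool.Agent.CXD.tX14X12T_nearBx1s1g (inB_ok (P := (22, 22)) (b := (557219934109696, 557706607853568)) (by decide +kernel) ⟨le_rfl, Or.inr le_rfl⟩) (xh_pt (X := 530860234602129) (by decide +kernel) hK.1 hK.2 hX) hT.swap (fB_sw tB)) (by norm_num) (by norm_num)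
  have n1_2 : TCellU 14 12 22 x0 0 ((6771151504764 : ℕ) / 2 ^ 48) := tcu_join n1_1 (Pool.Agent.CXD.tX14X12T_nearBx1g (inB_ok (P := (22, 22)) (b := (557219934371840, 558510925152256)) (by decide +kernel) ⟨le_rfl, Or.inr le_rfl⟩) (xh_pt (X := 530860234602129) (by decide +kernel) hK.1 hK.2 hX) hT.swap (fB_sw tB)) (by norm_num) (by norm_num)
  have n1_3 : TCellU 14 12 22 x0 0 ((27109102520052 : ℕ) / 2 ^ 48) := tcu_join n1_2 (Pool.Agent.CXD.tX14X12T_nearBbg (inB_ok (P := (22, 22)) (b := (557219934371840, 560239195717632)) (by decide +kernel) ⟨le_rfl, Or.inr le_rfl⟩) (xh_pt (X := 530860234602129) (by decide +kernel) hK.1 hK.2 hX) hT.swap (fB_sw tB)) (by norm_num) (by norm_num)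
  have n1_4 : TCellU 14 12 22 x0 0 ((122160139892424 : ℕ) / 2 ^ 48) := tcu_join n1_3 (Pool.Agent.CXD.tX14X12T_nearBa (inB_ok (P := (22, 22)) (b := (557219910778880, 560239208824832)) (by decide +kernel) ⟨le_rfl, Or.inr le_rfl⟩) (xh_pt (X := 530860234602129) (by decide +kernel) hK.1 hK.2 hX) hT.swap) (by norm_num) (by norm_num)
  have h1 : QXS 14 12 22 x0 :=
    qxS_O (by norm_num) (by norm_num) (by norm_num) hT.gt hT.le (xh_pt (X := 530860234602129) (by decide +kernel) hK.1 hK.2 hX) Pool.Agent.Helper81.TK.E_14_12_T_midB.T (hasP (N := 14) (by decide +kernel)) (hasP (N := 12) (by decide +kernel)) (inB_ok (P := (22, 22)) (b := (550648146034688, 560261767364608)) (by decide +kernel) ⟨le_rfl, Or.inr le_rfl⟩) n1_4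
      (by norm_num) (by norm_num) (by norm_num) (far3 (L := 530860234602065) (H := 530860234602193) (by norm_num) (by norm_num) (by norm_num) hR (by norm_num) (by norm_num))
  exact zf_QS (by norm_num) (by norm_num) (by norm_num) (by norm_num) hT h0 h1
end E12_14_22

namespace E12_14_23
/-- the triple `(12, 14, 23)` -/
theorem fe : FinAt 12 14 23 := by
  refine z60_12_14_23 fun x0 hX0 hT tB => ?_
  have hX : |2 ^ 48 * x0 - (-((530921930829430 : ℕ) : ℝ))| ≤ ((64 : ℕ) : ℝ) := by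
    push_cast; exact hX0.trans (by norm_num)
  have hK := kz_pm (M := 23) (K := 557706607176301) (by norm_num) (by norm_num) rfl
  have hR : ((530921930829366 : ℕ) : ℝ) ≤ -(2 ^ 48 * x0) ∧ -(2 ^ 48 * x0) ≤ ((530921930829494 : ℕ) : ℝ) := by
    rw [abs_le] at hX0; push_cast; constructor <;> linarith [hX0.1, hX0.2]
  have n0_0 : TCellU 12 14 23 x0 0 ((56294995344 : ℕ) / 2 ^ 48) := tcu_sub (Pool.Agent.CXD.tX12X14T_nearBz0 (inB_ok (P := (23, 23)) (b := (557219119366144, 558727832272896)) (by decide +kernel) ⟨le_rfl, Or.inr le_rfl⟩) (xh_pt (X := 530921930829430) (by decide +kernel) hK.1 hK.2 hX) hT tB) (by norm_num) le_rfl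
  have n0_1 : TCellU 12 14 23 x0 0 ((150535276492 : ℕ) / 2 ^ 48) := tcu_join n0_0 (Pool.Agent.CXD.tX12X14T_nearBd1g (inB_ok (P := (23, 23)) (b := (557219934371840, 557706607853568)) (by decide +kernel) ⟨le_rfl, Or.inr le_rfl⟩) (xh_pt (X := 530921930829430) (by decide +kernel) hK.1 hK.2 hX) hT tB) (by norm_num) (by norm_num)
  have n0_2 : TCellU 12 14 23 x0 0 ((785477478544 : ℕ) / 2 ^ 48) := tcu_join n0_1 (Pool.Agent.CXD.tX12X14T_nearBdg (inB_ok (P := (23, 23)) (b := (557219934371840, 558727828865024)) (by decide +kernel) ⟨le_rfl, Or.inr le_rfl⟩) (xh_pt (X := 530921930829430) (by decide +kernel) hK.1 hK.2 hX) hT tB) (by norm_num) (by norm_num)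
  have n0_3 : TCellU 12 14 23 x0 0 ((14002718440596 : ℕ) / 2 ^ 48) := tcu_join n0_2 (Pool.Agent.CXD.tX12X14T_nearBcg (inB_ok (P := (23, 23)) (b := (557219934371840, 558727828865024)) (by decide +kernel) ⟨le_rfl, Or.inr le_rfl⟩) (xh_pt (X := 530921930829430) (by decide +kernel) hK.1 hK.2 hX) hT tB) (by norm_num) (by norm_num)
  have n0_4 : TCellU 12 14 23 x0 0 ((22517998136852 : ℕ) / 2 ^ 48) := tcu_join n0_3 (Pool.Agent.CXD.tX12X14T_nearBb (inB_ok (P := (23, 23)) (b := (557219934371840, 560239195717632)) (by decide +kernel) ⟨le_rfl, Or.inr le_rfl⟩) (xh_pt (X := 530921930829430) (by decide +kernel) hK.1 hK.2 hX) hT tB) (by norm_num) (by norm_num)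
  have n0_5 : TCellU 12 14 23 x0 0 ((122160139892424 : ℕ) / 2 ^ 48) := tcu_join n0_4 (Pool.Agent.CXD.tX12X14T_nearBa (inB_ok (P := (23, 23)) (b := (557219934371840, 560239195717632)) (by decide +kernel) ⟨le_rfl, Or.inr le_rfl⟩) (xh_pt (X := 530921930829430) (by decide +kernel) hK.1 hK.2 hX) hT) (by norm_num) (by norm_num)
  have h0 : QXS 12 14 23 x0 :=
    qxS_O (by norm_num) (by norm_num) (by norm_num) hT.gt hT.le (xh_pt (X := 530921930829430) (by decide +kernel) hK.1 hK.2 hX) Pool.Agent.Helper81.TK.E_12_14_T_midB.T (hasP (N := 12) (by decide +kernel)) (hasP (N := 14) (by decide +kernel)) (inB_ok (P := (23, 23)) (b := (550648146034688, 560261767364608)) (by decide +kernel) ⟨le_rfl, Or.inr le_rfl⟩) n0_5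
      (by norm_num) (by norm_num) (by norm_num) (far3 (L := 530921930829366) (H := 530921930829494) (by norm_num) (by norm_num) (by norm_num) hR (by norm_num) (by norm_num))
  have n1_0 : TCellU 14 12 23 x0 0 ((56294995344 : ℕ) / 2 ^ 48) := tcu_sub (Pool.Agent.CXD.tX14X12T_nearBz0 (inB_ok (P := (23, 23)) (b := (557219119366144, 558727832272896)) (by decide +kernel) ⟨le_rfl, Or.inr le_rfl⟩) (xh_pt (X := 530921930829430) (by decide +kernel) hK.1 hK.2 hX) hT.swap (fB_sw tB)) (by norm_num) le_rfl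
  have n1_1 : TCellU 14 12 23 x0 0 ((89750799252 : ℕ) / 2 ^ 48) := tcu_join n1_0 (Pool.Agent.CXD.tX14X12T_nearBx1s1g (inB_ok (P := (23, 23)) (b := (557219934109696, 557706607853568)) (by decide +kernel) ⟨le_rfl, Or.inr le_rfl⟩) (xh_pt (X := 530921930829430) (by decide +kernel) hK.1 hK.2 hX) hT.swap (fB_sw tB)) (by norm_num) (by norm_num)
  have n1_2 : TCellU 14 12 23 x0 0 ((6771151504764 : ℕ) / 2 ^ 48) := tcu_join n1_1 (Pool.Agent.CXD.tX14X12T_nearBx1g (inB_ok (P := (23, 23)) (b := (557219934371840, 558510925152256)) (by decide +kernel) ⟨le_rfl, Or.inr le_rfl⟩) (xh_pt (X := 530921930829430) (by decide +kernel) hK.1 hK.2 hX) hT.swap (fB_sw tB)) (by norm_num) (by norm_num)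
  have n1_3 : TCellU 14 12 23 x0 0 ((27109102520052 : ℕ) / 2 ^ 48) := tcu_join n1_2 (Pool.Agent.CXD.tX14X12T_nearBbg (inB_ok (P := (23, 23)) (b := (557219934371840, 560239195717632)) (by decide +kernel) ⟨le_rfl, Or.inr le_rfl⟩) (xh_pt (X := 530921930829430) (by decide +kernel) hK.1 hK.2 hX) hT.swap (fB_sw tB)) (by norm_num) (by norm_num)
  have n1_4 : TCellU 14 12 23 x0 0 ((122160139892424 : ℕ) / 2 ^ 48) := tcu_join n1_3 (Pool.Agent.CXD.tX14X12T_nearBa (inB_ok (P := (23, 23)) (b := (557219910778880, 560239208824832)) (by decide +kernel) ⟨le_rfl, Or.inr le_rfl⟩) (xh_pt (X := 530921930829430) (by decide +kernel) hK.1 hK.2 hX) hT.swap) (by norm_num) (by norm_num)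
  have h1 : QXS 14 12 23 x0 :=
    qxS_O (by norm_num) (by norm_num) (by norm_num) hT.gt hT.le (xh_pt (X := 530921930829430) (by decide +kernel) hK.1 hK.2 hX) Pool.Agent.Helper81.TK.E_14_12_T_midB.T (hasP (N := 14) (by decide +kernel)) (hasP (N := 12) (by decide +kernel)) (inB_ok (P := (23, 23)) (b := (550648146034688, 560261767364608)) (by decide +kernel) ⟨le_rfl, Or.inr le_rfl⟩) n1_4
      (by norm_num) (by norm_num) (by norm_num) (far3 (L := 530921930829366) (H := 530921930829494) (by norm_num) (by norm_num) (by norm_num) hR (by norm_num) (by norm_num))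
  exact zf_QS (by norm_num) (by norm_num) (by norm_num) (by norm_num) hT h0 h1
end E12_14_23

namespace E12_14_24
/-- the triple `(12, 14, 24)` -/
theorem fe : FinAt 12 14 24 := by
  refine z60_12_14_24 fun x0 hX0 hT tB => ?_
  have hX : |2 ^ 48 * x0 - (-((530975555740293 : ℕ) : ℝ))| ≤ ((64 : ℕ) : ℝ) := by
    push_cast; exact hX0.trans (by norm_num)
  have hK := kz_pm (M := 24) (K := 558133838530186) (by norm_num) (by norm_num) rfl
  have hR : ((530975555740229 : ℕ) : ℝ) ≤ -(2 ^ 48 * x0) ∧ -(2 ^ 48 * x0) ≤ ((530975555740357 : ℕ) : ℝ) := by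
    rw [abs_le] at hX0; push_cast; constructor <;> linarith [hX0.1, hX0.2]
  have n0_0 : TCellU 12 14 24 x0 0 ((56294995344 : ℕ) / 2 ^ 48) := tcu_sub (Pool.Agent.CXD.tX12X14T_nearBz0 (inB_ok (P := (24, 24)) (b := (557219119366144, 558727832272896)) (by decide +kernel) ⟨le_rfl, Or.inr le_rfl⟩) (xh_pt (X := 530975555740293) (by decide +kernel) hK.1 hK.2 hX) hT tB) (by norm_num) le_rfl
  have n0_1 : TCellU 12 14 24 x0 0 ((150535276492 : ℕ) / 2 ^ 48) := tcu_join n0_0 (Pool.Agent.CXD.tX12X14T_nearBd2g (inB_ok (P := (24, 24)) (b := (558133837824000, 558510925676544)) (by decide +kernel) ⟨le_rfl, Or.inr le_rfl⟩) (xh_pt (X := 530975555740293) (by decide +kernel) hK.1 hK.2 hX) hT tB) (by norm_num) (by norm_num)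
  have n0_2 : TCellU 12 14 24 x0 0 ((785477478544 : ℕ) / 2 ^ 48) := tcu_join n0_1 (Pool.Agent.CXD.tX12X14T_nearBdg (inB_ok (P := (24, 24)) (b := (557219934371840, 558727828865024)) (by decide +kernel) ⟨le_rfl, Or.inr le_rfl⟩) (xh_pt (X := 530975555740293) (by decide +kernel) hK.1 hK.2 hX) hT tB) (by norm_num) (by norm_num)
  have n0_3 : TCellU 12 14 24 x0 0 ((14002718440596 : ℕ) / 2 ^ 48) := tcu_join n0_2 (Pool.Agent.CXD.tX12X14T_nearBcg (inB_ok (P := (24, 24)) (b := (557219934371840, 558727828865024)) (by decide +kernel) ⟨le_rfl, Or.inr le_rfl⟩) (xh_pt (X := 530975555740293) (by decide +kernel) hK.1 hK.2 hX) hT tB) (by norm_num) (by norm_num)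
  have n0_4 : TCellU 12 14 24 x0 0 ((22517998136852 : ℕ) / 2 ^ 48) := tcu_join n0_3 (Pool.Agent.CXD.tX12X14T_nearBb (inB_ok (P := (24, 24)) (b := (557219934371840, 560239195717632)) (by decide +kernel) ⟨le_rfl, Or.inr le_rfl⟩) (xh_pt (X := 530975555740293) (by decide +kernel) hK.1 hK.2 hX) hT tB) (by norm_num) (by norm_num)
  have n0_5 : TCellU 12 14 24 x0 0 ((122160139892424 : ℕ) / 2 ^ 48) := tcu_join n0_4 (Pool.Agent.CXD.tX12X14T_nearBa (inB_ok (P := (24, 24)) (b := (557219934371840, 560239195717632)) (by decide +kernel) ⟨le_rfl, Or.inr le_rfl⟩) (xh_pt (X := 530975555740293) (by decide +kernel) hK.1 hK.2 hX) hT) (by norm_num) (by norm_num)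
  have h0 : QXS 12 14 24 x0 :=
    qxS_O (by norm_num) (by norm_num) (by norm_num) hT.gt hT.le (xh_pt (X := 530975555740293) (by decide +kernel) hK.1 hK.2 hX) Pool.Agent.Helper81.TK.E_12_14_T_midB.T (hasP (N := 12) (by decide +kernel)) (hasP (N := 14) (by decide +kernel)) (inB_ok (P := (24, 24)) (b := (550648146034688, 560261767364608)) (by decide +kernel) ⟨le_rfl, Or.inr le_rfl⟩) n0_5
      (by norm_num) (by norm_num) (by norm_num) (far3 (L := 530975555740229) (H := 530975555740357) (by norm_num) (by norm_num) (by norm_num) hR (by norm_num) (by norm_num))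
  have n1_0 : TCellU 14 12 24 x0 0 ((56294995344 : ℕ) / 2 ^ 48) := tcu_sub (Pool.Agent.CXD.tX14X12T_nearBz0 (inB_ok (P := (24, 24)) (b := (557219119366144, 558727832272896)) (by decide +kernel) ⟨le_rfl, Or.inr le_rfl⟩) (xh_pt (X := 530975555740293) (by decide +kernel) hK.1 hK.2 hX) hT.swap (fB_sw tB)) (by norm_num) le_rfl
  have n1_1 : TCellU 14 12 24 x0 0 ((89750799252 : ℕ) / 2 ^ 48) := tcu_join n1_0 (Pool.Agent.CXD.tX14X12T_nearBx1s2g (inB_ok (P := (24, 24)) (b := (558133837824000, 558510925676544)) (by decide +kernel) ⟨le_rfl, Or.inr le_rfl⟩) (xh_pt (X := 530975555740293) (by decide +kernel) hK.1 hK.2 hX) hT.swap (fB_sw tB)) (by norm_num) (by norm_num)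
  have n1_2 : TCellU 14 12 24 x0 0 ((6771151504764 : ℕ) / 2 ^ 48) := tcu_join n1_1 (Pool.Agent.CXD.tX14X12T_nearBx1g (inB_ok (P := (24, 24)) (b := (557219934371840, 558510925152256)) (by decide +kernel) ⟨le_rfl, Or.inr le_rfl⟩) (xh_pt (X := 530975555740293) (by decide +kernel) hK.1 hK.2 hX) hT.swap (fB_sw tB)) (by norm_num) (by norm_num)
  have n1_3 : TCellU 14 12 24 x0 0 ((27109102520052 : ℕ) / 2 ^ 48) := tcu_join n1_2 (Pool.Agent.CXD.tX14X12T_nearBbg (inB_ok (P := (24, 24)) (b := (557219934371840, 560239195717632)) (by decide +kernel) ⟨le_rfl, Or.inr le_rfl⟩) (xh_pt (X := 530975555740293) (by decide +kernel) hK.1 hK.2 hX) hT.swap (fB_sw tB)) (by norm_num) (by norm_num)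
  have n1_4 : TCellU 14 12 24 x0 0 ((122160139892424 : ℕ) / 2 ^ 48) := tcu_join n1_3 (Pool.Agent.CXD.tX14X12T_nearBa (inB_ok (P := (24, 24)) (b := (557219910778880, 560239208824832)) (by decide +kernel) ⟨le_rfl, Or.inr le_rfl⟩) (xh_pt (X := 530975555740293) (by decide +kernel) hK.1 hK.2 hX) hT.swap) (by norm_num) (by norm_num)
  have h1 : QXS 14 12 24 x0 :=
    qxS_O (by norm_num) (by norm_num) (by norm_num) hT.gt hT.le (xh_pt (X := 530975555740293) (by decide +kernel) hK.1 hK.2 hX) Pool.Agent.Helper81.TK.E_14_12_T_midB.T (hasP (N := 14) (by decide +kernel)) (hasP (N := 12) (by decide +kernel)) (inB_ok (P := (24, 24)) (b := (550648146034688, 560261767364608)) (by decide +kernel) ⟨le_rfl, Or.inr le_rfl⟩) n1_4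
      (by norm_num) (by norm_num) (by norm_num) (far3 (L := 530975555740229) (H := 530975555740357) (by norm_num) (by norm_num) (by norm_num) hR (by norm_num) (by norm_num))
  exact zf_QS (by norm_num) (by norm_num) (by norm_num) (by norm_num) hT h0 h1
end E12_14_24

namespace E12_14_25
/-- the triple `(12, 14, 25)` -/
theorem fe : FinAt 12 14 25 := by
  refine z60_12_14_25 fun x0 hX0 hT tB => ?_
  have hX : |2 ^ 48 * x0 - (-((531022473344329 : ℕ) : ℝ))| ≤ ((64 : ℕ) : ℝ) := by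
    push_cast; exact hX0.trans (by norm_num)
  have hK := kz_pm (M := 25) (K := 558510924893584) (by norm_num) (by norm_num) rfl
  have hR : ((531022473344265 : ℕ) : ℝ) ≤ -(2 ^ 48 * x0) ∧ -(2 ^ 48 * x0) ≤ ((531022473344393 : ℕ) : ℝ) := by
    rw [abs_le] at hX0; push_cast; constructor <;> linarith [hX0.1, hX0.2]
  have n0_0 : TCellU 12 14 25 x0 0 ((56294995344 : ℕ) / 2 ^ 48) := tcu_sub (Pool.Agent.CXD.tX12X14T_nearBz0 (inB_ok (P := (25, 25)) (b := (557219119366144, 558727832272896)) (by decide +kernel) ⟨le_rfl, Or.inr le_rfl⟩) (xh_pt (X := 531022473344329) (by decide +kernel) hK.1 hK.2 hX) hT tB) (by norm_num) le_rfl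
  have n0_1 : TCellU 12 14 25 x0 0 ((150535276492 : ℕ) / 2 ^ 48) := tcu_join n0_0 (Pool.Agent.CXD.tX12X14T_nearBd2g (inB_ok (P := (25, 25)) (b := (558133837824000, 558510925676544)) (by decide +kernel) ⟨le_rfl, Or.inr le_rfl⟩) (xh_pt (X := 531022473344329) (by decide +kernel) hK.1 hK.2 hX) hT tB) (by norm_num) (by norm_num)
  have n0_2 : TCellU 12 14 25 x0 0 ((785477478544 : ℕ) / 2 ^ 48) := tcu_join n0_1 (Pool.Agent.CXD.tX12X14T_nearBdg (inB_ok (P := (25, 25)) (b := (557219934371840, 558727828865024)) (by decide +kernel) ⟨le_rfl, Or.inr le_rfl⟩) (xh_pt (X := 531022473344329) (by decide +kernel) hK.1 hK.2 hX) hT tB) (by norm_num) (by norm_num)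
  have n0_3 : TCellU 12 14 25 x0 0 ((14002718440596 : ℕ) / 2 ^ 48) := tcu_join n0_2 (Pool.Agent.CXD.tX12X14T_nearBcg (inB_ok (P := (25, 25)) (b := (557219934371840, 558727828865024)) (by decide +kernel) ⟨le_rfl, Or.inr le_rfl⟩) (xh_pt (X := 531022473344329) (by decide +kernel) hK.1 hK.2 hX) hT tB) (by norm_num) (by norm_num)
  have n0_4 : TCellU 12 14 25 x0 0 ((22517998136852 : ℕ) / 2 ^ 48) := tcu_join n0_3 (Pool.Agent.CXD.tX12X14T_nearBb (inB_ok (P := (25, 25)) (b := (557219934371840, 560239195717632)) (by decide +kernel) ⟨le_rfl, Or.inr le_rfl⟩) (xh_pt (X := 531022473344329) (by decide +kernel) hK.1 hK.2 hX) hT tB) (by norm_num) (by norm_num)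
  have n0_5 : TCellU 12 14 25 x0 0 ((122160139892424 : ℕ) / 2 ^ 48) := tcu_join n0_4 (Pool.Agent.CXD.tX12X14T_nearBa (inB_ok (P := (25, 25)) (b := (557219934371840, 560239195717632)) (by decide +kernel) ⟨le_rfl, Or.inr le_rfl⟩) (xh_pt (X := 531022473344329) (by decide +kernel) hK.1 hK.2 hX) hT) (by norm_num) (by norm_num)
  have h0 : QXS 12 14 25 x0 :=
    qxS_O (by norm_num) (by norm_num) (by norm_num) hT.gt hT.le (xh_pt (X := 531022473344329) (by decide +kernel) hK.1 hK.2 hX) Pool.Agent.Helper81.TK.E_12_14_T_midB.T (hasP (N := 12) (by decide +kernel)) (hasP (N := 14) (by decide +kernel)) (inB_ok (P := (25, 25)) (b := (550648146034688, 560261767364608)) (by decide +kernel) ⟨le_rfl, Or.inr le_rfl⟩) n0_5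
      (by norm_num) (by norm_num) (by norm_num) (far3 (L := 531022473344265) (H := 531022473344393) (by norm_num) (by norm_num) (by norm_num) hR (by norm_num) (by norm_num))
  have n1_0 : TCellU 14 12 25 x0 0 ((56294995344 : ℕ) / 2 ^ 48) := tcu_sub (Pool.Agent.CXD.tX14X12T_nearBz0 (inB_ok (P := (25, 25)) (b := (557219119366144, 558727832272896)) (by decide +kernel) ⟨le_rfl, Or.inr le_rfl⟩) (xh_pt (X := 531022473344329) (by decide +kernel) hK.1 hK.2 hX) hT.swap (fB_sw tB)) (by norm_num) le_rfl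
  have n1_1 : TCellU 14 12 25 x0 0 ((89750799252 : ℕ) / 2 ^ 48) := tcu_join n1_0 (Pool.Agent.CXD.tX14X12T_nearBx1s2g (inB_ok (P := (25, 25)) (b := (558133837824000, 558510925676544)) (by decide +kernel) ⟨le_rfl, Or.inr le_rfl⟩) (xh_pt (X := 531022473344329) (by decide +kernel) hK.1 hK.2 hX) hT.swap (fB_sw tB)) (by norm_num) (by norm_num)
  have n1_2 : TCellU 14 12 25 x0 0 ((6771151504764 : ℕ) / 2 ^ 48) := tcu_join n1_1 (Pool.Agent.CXD.tX14X12T_nearBx1g (inB_ok (P := (25, 25)) (b := (557219934371840, 558510925152256)) (by decide +kernel) ⟨le_rfl, Or.inr le_rfl⟩) (xh_pt (X := 531022473344329) (by decide +kernel) hK.1 hK.2 hX) hT.swap (fB_sw tB)) (by norm_num) (by norm_num)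
  have n1_3 : TCellU 14 12 25 x0 0 ((27109102520052 : ℕ) / 2 ^ 48) := tcu_join n1_2 (Pool.Agent.CXD.tX14X12T_nearBbg (inB_ok (P := (25, 25)) (b := (557219934371840, 560239195717632)) (by decide +kernel) ⟨le_rfl, Or.inr le_rfl⟩) (xh_pt (X := 531022473344329) (by decide +kernel) hK.1 hK.2 hX) hT.swap (fB_sw tB)) (by norm_num) (by norm_num)
  have n1_4 : TCellU 14 12 25 x0 0 ((122160139892424 : ℕ) / 2 ^ 48) := tcu_join n1_3 (Pool.Agent.CXD.tX14X12T_nearBa (inB_ok (P := (25, 25)) (b := (557219910778880, 560239208824832)) (by decide +kernel) ⟨le_rfl, Or.inr le_rfl⟩) (xh_pt (X := 531022473344329) (by decide +kernel) hK.1 hK.2 hX) hT.swap) (by norm_num) (by norm_num)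
  have h1 : QXS 14 12 25 x0 :=
    qxS_O (by norm_num) (by norm_num) (by norm_num) hT.gt hT.le (xh_pt (X := 531022473344329) (by decide +kernel) hK.1 hK.2 hX) Pool.Agent.Helper81.TK.E_14_12_T_midB.T (hasP (N := 14) (by decide +kernel)) (hasP (N := 12) (by decide +kernel)) (inB_ok (P := (25, 25)) (b := (550648146034688, 560261767364608)) (by decide +kernel) ⟨le_rfl, Or.inr le_rfl⟩) n1_4
      (by norm_num) (by norm_num) (by norm_num) (far3 (L := 531022473344265) (H := 531022473344393) (by norm_num) (by norm_num) (by norm_num) hR (by norm_num) (by norm_num))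
  exact zf_QS (by norm_num) (by norm_num) (by norm_num) (by norm_num) hT h0 h1
end E12_14_25

namespace E12_14_26
/-- the triple `(12, 14, 26)` -/
theorem fe : FinAt 12 14 26 := by
  refine z60_12_14_26 fun x0 hX0 hT tB => ?_
  have hX : |2 ^ 48 * x0 - (-((531063768739145 : ℕ) : ℝ))| ≤ ((64 : ℕ) : ℝ) := by
    push_cast; exact hX0.trans (by norm_num)
  have hK := kz_pm (M := 26) (K := 558845414434423) (by norm_num) (by norm_num) rfl
  have hR : ((531063768739081 : ℕ) : ℝ) ≤ -(2 ^ 48 * x0) ∧ -(2 ^ 48 * x0) ≤ ((531063768739209 : ℕ) : ℝ) := by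
    rw [abs_le] at hX0; push_cast; constructor <;> linarith [hX0.1, hX0.2]
  have n0_0 : TCellU 12 14 26 x0 0 ((56294995344 : ℕ) / 2 ^ 48) := tcu_sub (Pool.Agent.CXD.tX12X14T_nearBz1 (inB_ok (P := (26, 26)) (b := (558845410934784, 559410245795840)) (by decide +kernel) ⟨le_rfl, Or.inr le_rfl⟩) (xh_pt (X := 531063768739145) (by decide +kernel) hK.1 hK.2 hX) hT tB) (by norm_num) le_rfl
  have n0_1 : TCellU 12 14 26 x0 0 ((89580641072 : ℕ) / 2 ^ 48) := tcu_join n0_0 (Pool.Agent.CXD.tX12X14T_nearBf1g (inB_ok (P := (26, 26)) (b := (558845413818368, 559410242912256)) (by decide +kernel) ⟨le_rfl, Or.inr le_rfl⟩) (xh_pt (X := 531063768739145) (by decide +kernel) hK.1 hK.2 hX) hT tB) (by norm_num) (by norm_num)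
  have n0_2 : TCellU 12 14 26 x0 0 ((770355011520 : ℕ) / 2 ^ 48) := tcu_join n0_1 (Pool.Agent.CXD.tX12X14T_nearBf (inB_ok (P := (26, 26)) (b := (558727828602880, 560239195717632)) (by decide +kernel) ⟨le_rfl, Or.inr le_rfl⟩) (xh_pt (X := 531063768739145) (by decide +kernel) hK.1 hK.2 hX) hT tB) (by norm_num) (by norm_num)
  have n0_3 : TCellU 12 14 26 x0 0 ((14002718440596 : ℕ) / 2 ^ 48) := tcu_join n0_2 (Pool.Agent.CXD.tX12X14T_nearBeg (inB_ok (P := (26, 26)) (b := (558727828602880, 560239195717632)) (by decide +kernel) ⟨le_rfl, Or.inr le_rfl⟩) (xh_pt (X := 531063768739145) (by decide +kernel) hK.1 hK.2 hX) hT tB) (by norm_num) (by norm_num)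
  have n0_4 : TCellU 12 14 26 x0 0 ((22517998136852 : ℕ) / 2 ^ 48) := tcu_join n0_3 (Pool.Agent.CXD.tX12X14T_nearBb (inB_ok (P := (26, 26)) (b := (557219934371840, 560239195717632)) (by decide +kernel) ⟨le_rfl, Or.inr le_rfl⟩) (xh_pt (X := 531063768739145) (by decide +kernel) hK.1 hK.2 hX) hT tB) (by norm_num) (by norm_num)
  have n0_5 : TCellU 12 14 26 x0 0 ((122160139892424 : ℕ) / 2 ^ 48) := tcu_join n0_4 (Pool.Agent.CXD.tX12X14T_nearBa (inB_ok (P := (26, 26)) (b := (557219934371840, 560239195717632)) (by decide +kernel) ⟨le_rfl, Or.inr le_rfl⟩) (xh_pt (X := 531063768739145) (by decide +kernel) hK.1 hK.2 hX) hT) (by norm_num) (by norm_num)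
  have h0 : QXS 12 14 26 x0 :=
    qxS_O (by norm_num) (by norm_num) (by norm_num) hT.gt hT.le (xh_pt (X := 531063768739145) (by decide +kernel) hK.1 hK.2 hX) Pool.Agent.Helper81.TK.E_12_14_T_midB.T (hasP (N := 12) (by decide +kernel)) (hasP (N := 14) (by decide +kernel)) (inB_ok (P := (26, 26)) (b := (550648146034688, 560261767364608)) (by decide +kernel) ⟨le_rfl, Or.inr le_rfl⟩) n0_5
      (by norm_num) (by norm_num) (by norm_num) (far3 (L := 531063768739081) (H := 531063768739209) (by norm_num) (by norm_num) (by norm_num) hR (by norm_num) (by norm_num))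
  have n1_0 : TCellU 14 12 26 x0 0 ((56294995344 : ℕ) / 2 ^ 48) := tcu_sub (Pool.Agent.CXD.tX14X12T_nearBz1 (inB_ok (P := (26, 26)) (b := (558845410934784, 559410245795840)) (by decide +kernel) ⟨le_rfl, Or.inr le_rfl⟩) (xh_pt (X := 531063768739145) (by decide +kernel) hK.1 hK.2 hX) hT.swap (fB_sw tB)) (by norm_num) le_rfl
  have n1_1 : TCellU 14 12 26 x0 0 ((124020428348 : ℕ) / 2 ^ 48) := tcu_join n1_0 (Pool.Agent.CXD.tX14X12T_nearBx2s1g (inB_ok (P := (26, 26)) (b := (558845413818368, 559410242912256)) (by decide +kernel) ⟨le_rfl, Or.inr le_rfl⟩) (xh_pt (X := 531063768739145) (by decide +kernel) hK.1 hK.2 hX) hT.swap (fB_sw tB)) (by norm_num) (by norm_num)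
  have n1_2 : TCellU 14 12 26 x0 0 ((6771151504764 : ℕ) / 2 ^ 48) := tcu_join n1_1 (Pool.Agent.CXD.tX14X12T_nearBx2g (inB_ok (P := (26, 26)) (b := (558845414342656, 560239195717632)) (by decide +kernel) ⟨le_rfl, Or.inr le_rfl⟩) (xh_pt (X := 531063768739145) (by decide +kernel) hK.1 hK.2 hX) hT.swap (fB_sw tB)) (by norm_num) (by norm_num)
  have n1_3 : TCellU 14 12 26 x0 0 ((27109102520052 : ℕ) / 2 ^ 48) := tcu_join n1_2 (Pool.Agent.CXD.tX14X12T_nearBbg (inB_ok (P := (26, 26)) (b := (557219934371840, 560239195717632)) (by decide +kernel) ⟨le_rfl, Or.inr le_rfl⟩) (xh_pt (X := 531063768739145) (by decide +kernel) hK.1 hK.2 hX) hT.swap (fB_sw tB)) (by norm_num) (by norm_num)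
  have n1_4 : TCellU 14 12 26 x0 0 ((122160139892424 : ℕ) / 2 ^ 48) := tcu_join n1_3 (Pool.Agent.CXD.tX14X12T_nearBa (inB_ok (P := (26, 26)) (b := (557219910778880, 560239208824832)) (by decide +kernel) ⟨le_rfl, Or.inr le_rfl⟩) (xh_pt (X := 531063768739145) (by decide +kernel) hK.1 hK.2 hX) hT.swap) (by norm_num) (by norm_num)
  have h1 : QXS 14 12 26 x0 :=
    qxS_O (by norm_num) (by norm_num) (by norm_num) hT.gt hT.le (xh_pt (X := 531063768739145) (by decide +kernel) hK.1 hK.2 hX) Pool.Agent.Helper81.TK.E_14_12_T_midB.T (hasP (N := 14) (by decide +kernel)) (hasP (N := 12) (by decide +kernel)) (inB_ok (P := (26, 26)) (b := (550648146034688, 560261767364608)) (by decide +kernel) ⟨le_rfl, Or.inr le_rfl⟩) n1_4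
      (by norm_num) (by norm_num) (by norm_num) (far3 (L := 531063768739081) (H := 531063768739209) (by norm_num) (by norm_num) (by norm_num) hR (by norm_num) (by norm_num))
  exact zf_QS (by norm_num) (by norm_num) (by norm_num) (by norm_num) hT h0 h1
end E12_14_26

namespace E12_14_27
/-- the triple `(12, 14, 27)` -/
theorem fe : FinAt 12 14 27 := by
  refine z60_12_14_27 fun x0 hX0 hT tB => ?_
  have hX : |2 ^ 48 * x0 - (-((531100314325208 : ℕ) : ℝ))| ≤ ((64 : ℕ) : ℝ) := by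
    push_cast; exact hX0.trans (by norm_num)
  have hK := kz_pm (M := 27) (K := 559143487227087) (by norm_num) (by norm_num) rfl
  have hR : ((531100314325144 : ℕ) : ℝ) ≤ -(2 ^ 48 * x0) ∧ -(2 ^ 48 * x0) ≤ ((531100314325272 : ℕ) : ℝ) := by
    rw [abs_le] at hX0; push_cast; constructor <;> linarith [hX0.1, hX0.2]
  have n0_0 : TCellU 12 14 27 x0 0 ((56294995344 : ℕ) / 2 ^ 48) := tcu_sub (Pool.Agent.CXD.tX12X14T_nearBz1 (inB_ok (P := (27, 27)) (b := (558845410934784, 559410245795840)) (by decide +kernel) ⟨le_rfl, Or.inr le_rfl⟩) (xh_pt (X := 531100314325208) (by decide +kernel) hK.1 hK.2 hX) hT tB) (by norm_num) le_rfl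
  have n0_1 : TCellU 12 14 27 x0 0 ((89580641072 : ℕ) / 2 ^ 48) := tcu_join n0_0 (Pool.Agent.CXD.tX12X14T_nearBf1g (inB_ok (P := (27, 27)) (b := (558845413818368, 559410242912256)) (by decide +kernel) ⟨le_rfl, Or.inr le_rfl⟩) (xh_pt (X := 531100314325208) (by decide +kernel) hK.1 hK.2 hX) hT tB) (by norm_num) (by norm_num)
  have n0_2 : TCellU 12 14 27 x0 0 ((770355011520 : ℕ) / 2 ^ 48) := tcu_join n0_1 (Pool.Agent.CXD.tX12X14T_nearBf (inB_ok (P := (27, 27)) (b := (558727828602880, 560239195717632)) (by decide +kernel) ⟨le_rfl, Or.inr le_rfl⟩) (xh_pt (X := 531100314325208) (by decide +kernel) hK.1 hK.2 hX) hT tB) (by norm_num) (by norm_num)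
  have n0_3 : TCellU 12 14 27 x0 0 ((14002718440596 : ℕ) / 2 ^ 48) := tcu_join n0_2 (Pool.Agent.CXD.tX12X14T_nearBeg (inB_ok (P := (27, 27)) (b := (558727828602880, 560239195717632)) (by decide +kernel) ⟨le_rfl, Or.inr le_rfl⟩) (xh_pt (X := 531100314325208) (by decide +kernel) hK.1 hK.2 hX) hT tB) (by norm_num) (by norm_num)
  have n0_4 : TCellU 12 14 27 x0 0 ((22517998136852 : ℕ) / 2 ^ 48) := tcu_join n0_3 (Pool.Agent.CXD.tX12X14T_nearBb (inB_ok (P := (27, 27)) (b := (557219934371840, 560239195717632)) (by decide +kernel) ⟨le_rfl, Or.inr le_rfl⟩) (xh_pt (X := 531100314325208) (by decide +kernel) hK.1 hK.2 hX) hT tB) (by norm_num) (by norm_num)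
  have n0_5 : TCellU 12 14 27 x0 0 ((122160139892424 : ℕ) / 2 ^ 48) := tcu_join n0_4 (Pool.Agent.CXD.tX12X14T_nearBa (inB_ok (P := (27, 27)) (b := (557219934371840, 560239195717632)) (by decide +kernel) ⟨le_rfl, Or.inr le_rfl⟩) (xh_pt (X := 531100314325208) (by decide +kernel) hK.1 hK.2 hX) hT) (by norm_num) (by norm_num)
  have h0 : QXS 12 14 27 x0 :=
    qxS_O (by norm_num) (by norm_num) (by norm_num) hT.gt hT.le (xh_pt (X := 531100314325208) (by decide +kernel) hK.1 hK.2 hX) Pool.Agent.Helper81.TK.E_12_14_T_midB.T (hasP (N := 12) (by decide +kernel)) (hasP (N := 14) (by decide +kernel)) (inB_ok (P := (27, 27)) (b := (550648146034688, 560261767364608)) (by decide +kernel) ⟨le_rfl, Or.inr le_rfl⟩) n0_5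
      (by norm_num) (by norm_num) (by norm_num) (far3 (L := 531100314325144) (H := 531100314325272) (by norm_num) (by norm_num) (by norm_num) hR (by norm_num) (by norm_num))
  have n1_0 : TCellU 14 12 27 x0 0 ((56294995344 : ℕ) / 2 ^ 48) := tcu_sub (Pool.Agent.CXD.tX14X12T_nearBz1 (inB_ok (P := (27, 27)) (b := (558845410934784, 559410245795840)) (by decide +kernel) ⟨le_rfl, Or.inr le_rfl⟩) (xh_pt (X := 531100314325208) (by decide +kernel) hK.1 hK.2 hX) hT.swap (fB_sw tB)) (by norm_num) le_rfl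
  have n1_1 : TCellU 14 12 27 x0 0 ((124020428348 : ℕ) / 2 ^ 48) := tcu_join n1_0 (Pool.Agent.CXD.tX14X12T_nearBx2s1g (inB_ok (P := (27, 27)) (b := (558845413818368, 559410242912256)) (by decide +kernel) ⟨le_rfl, Or.inr le_rfl⟩) (xh_pt (X := 531100314325208) (by decide +kernel) hK.1 hK.2 hX) hT.swap (fB_sw tB)) (by norm_num) (by norm_num)
  have n1_2 : TCellU 14 12 27 x0 0 ((6771151504764 : ℕ) / 2 ^ 48) := tcu_join n1_1 (Pool.Agent.CXD.tX14X12T_nearBx2g (inB_ok (P := (27, 27)) (b := (558845414342656, 560239195717632)) (by decide +kernel) ⟨le_rfl, Or.inr le_rfl⟩) (xh_pt (X := 531100314325208) (by decide +kernel) hK.1 hK.2 hX) hT.swap (fB_sw tB)) (by norm_num) (by norm_num)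
  have n1_3 : TCellU 14 12 27 x0 0 ((27109102520052 : ℕ) / 2 ^ 48) := tcu_join n1_2 (Pool.Agent.CXD.tX14X12T_nearBbg (inB_ok (P := (27, 27)) (b := (557219934371840, 560239195717632)) (by decide +kernel) ⟨le_rfl, Or.inr le_rfl⟩) (xh_pt (X := 531100314325208) (by decide +kernel) hK.1 hK.2 hX) hT.swap (fB_sw tB)) (by norm_num) (by norm_num)
  have n1_4 : TCellU 14 12 27 x0 0 ((122160139892424 : ℕ) / 2 ^ 48) := tcu_join n1_3 (Pool.Agent.CXD.tX14X12T_nearBa (inB_ok (P := (27, 27)) (b := (557219910778880, 560239208824832)) (by decide +kernel) ⟨le_rfl, Or.inr le_rfl⟩) (xh_pt (X := 531100314325208) (by decide +kernel) hK.1 hK.2 hX) hT.swap) (by norm_num) (by norm_num)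
  have h1 : QXS 14 12 27 x0 :=
    qxS_O (by norm_num) (by norm_num) (by norm_num) hT.gt hT.le (xh_pt (X := 531100314325208) (by decide +kernel) hK.1 hK.2 hX) Pool.Agent.Helper81.TK.E_14_12_T_midB.T (hasP (N := 14) (by decide +kernel)) (hasP (N := 12) (by decide +kernel)) (inB_ok (P := (27, 27)) (b := (550648146034688, 560261767364608)) (by decide +kernel) ⟨le_rfl, Or.inr le_rfl⟩) n1_4
      (by norm_num) (by norm_num) (by norm_num) (far3 (L := 531100314325144) (H := 531100314325272) (by norm_num) (by norm_num) (by norm_num) hR (by norm_num) (by norm_num))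
  exact zf_QS (by norm_num) (by norm_num) (by norm_num) (by norm_num) hT h0 h1
end E12_14_27

namespace E12_14_28
/-- the triple `(12, 14, 28)` -/
theorem fe : FinAt 12 14 28 := by
  refine z60_12_14_28 fun x0 hX0 hT tB => ?_
  have hX : |2 ^ 48 * x0 - (-((531132818279232 : ℕ) : ℝ))| ≤ ((64 : ℕ) : ℝ) := by
    push_cast; exact hX0.trans (by norm_num)
  have hK := kz_pm (M := 28) (K := 559410242273590) (by norm_num) (by norm_num) rfl
  have hR : ((531132818279168 : ℕ) : ℝ) ≤ -(2 ^ 48 * x0) ∧ -(2 ^ 48 * x0) ≤ ((531132818279296 : ℕ) : ℝ) := by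
    rw [abs_le] at hX0; push_cast; constructor <;> linarith [hX0.1, hX0.2]
  have n0_0 : TCellU 12 14 28 x0 0 ((56294995344 : ℕ) / 2 ^ 48) := tcu_sub (Pool.Agent.CXD.tX12X14T_nearBz1 (inB_ok (P := (28, 28)) (b := (558845410934784, 559410245795840)) (by decide +kernel) ⟨le_rfl, Or.inr le_rfl⟩) (xh_pt (X := 531132818279232) (by decide +kernel) hK.1 hK.2 hX) hT tB) (by norm_num) le_rfl
  have n0_1 : TCellU 12 14 28 x0 0 ((89580641072 : ℕ) / 2 ^ 48) := tcu_join n0_0 (Pool.Agent.CXD.tX12X14T_nearBf1g (inB_ok (P := (28, 28)) (b := (558845413818368, 559410242912256)) (by decide +kernel) ⟨le_rfl, Or.inr le_rfl⟩) (xh_pt (X := 531132818279232) (by decide +kernel) hK.1 hK.2 hX) hT tB) (by norm_num) (by norm_num)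
  have n0_2 : TCellU 12 14 28 x0 0 ((770355011520 : ℕ) / 2 ^ 48) := tcu_join n0_1 (Pool.Agent.CXD.tX12X14T_nearBf (inB_ok (P := (28, 28)) (b := (558727828602880, 560239195717632)) (by decide +kernel) ⟨le_rfl, Or.inr le_rfl⟩) (xh_pt (X := 531132818279232) (by decide +kernel) hK.1 hK.2 hX) hT tB) (by norm_num) (by norm_num)
  have n0_3 : TCellU 12 14 28 x0 0 ((14002718440596 : ℕ) / 2 ^ 48) := tcu_join n0_2 (Pool.Agent.CXD.tX12X14T_nearBeg (inB_ok (P := (28, 28)) (b := (558727828602880, 560239195717632)) (by decide +kernel) ⟨le_rfl, Or.inr le_rfl⟩) (xh_pt (X := 531132818279232) (by decide +kernel) hK.1 hK.2 hX) hT tB) (by norm_num) (by norm_num)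
  have n0_4 : TCellU 12 14 28 x0 0 ((22517998136852 : ℕ) / 2 ^ 48) := tcu_join n0_3 (Pool.Agent.CXD.tX12X14T_nearBb (inB_ok (P := (28, 28)) (b := (557219934371840, 560239195717632)) (by decide +kernel) ⟨le_rfl, Or.inr le_rfl⟩) (xh_pt (X := 531132818279232) (by decide +kernel) hK.1 hK.2 hX) hT tB) (by norm_num) (by norm_num)
  have n0_5 : TCellU 12 14 28 x0 0 ((122160139892424 : ℕ) / 2 ^ 48) := tcu_join n0_4 (Pool.Agent.CXD.tX12X14T_nearBa (inB_ok (P := (28, 28)) (b := (557219934371840, 560239195717632)) (by decide +kernel) ⟨le_rfl, Or.inr le_rfl⟩) (xh_pt (X := 531132818279232) (by decide +kernel) hK.1 hK.2 hX) hT) (by norm_num) (by norm_num)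
  have h0 : QXS 12 14 28 x0 :=
    qxS_O (by norm_num) (by norm_num) (by norm_num) hT.gt hT.le (xh_pt (X := 531132818279232) (by decide +kernel) hK.1 hK.2 hX) Pool.Agent.Helper81.TK.E_12_14_T_midB.T (hasP (N := 12) (by decide +kernel)) (hasP (N := 14) (by decide +kernel)) (inB_ok (P := (28, 28)) (b := (550648146034688, 560261767364608)) (by decide +kernel) ⟨le_rfl, Or.inr le_rfl⟩) n0_5
      (by norm_num) (by norm_num) (by norm_num) (far3 (L := 531132818279168) (H := 531132818279296) (by norm_num) (by norm_num) (by norm_num) hR (by norm_num) (by norm_num))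
  have n1_0 : TCellU 14 12 28 x0 0 ((56294995344 : ℕ) / 2 ^ 48) := tcu_sub (Pool.Agent.CXD.tX14X12T_nearBz1 (inB_ok (P := (28, 28)) (b := (558845410934784, 559410245795840)) (by decide +kernel) ⟨le_rfl, Or.inr le_rfl⟩) (xh_pt (X := 531132818279232) (by decide +kernel) hK.1 hK.2 hX) hT.swap (fB_sw tB)) (by norm_num) le_rfl
  have n1_1 : TCellU 14 12 28 x0 0 ((124020428348 : ℕ) / 2 ^ 48) := tcu_join n1_0 (Pool.Agent.CXD.tX14X12T_nearBx2s1g (inB_ok (P := (28, 28)) (b := (558845413818368, 559410242912256)) (by decide +kernel) ⟨le_rfl, Or.inr le_rfl⟩) (xh_pt (X := 531132818279232) (by decide +kernel) hK.1 hK.2 hX) hT.swap (fB_sw tB)) (by norm_num) (by norm_num)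
  have n1_2 : TCellU 14 12 28 x0 0 ((6771151504764 : ℕ) / 2 ^ 48) := tcu_join n1_1 (Pool.Agent.CXD.tX14X12T_nearBx2g (inB_ok (P := (28, 28)) (b := (558845414342656, 560239195717632)) (by decide +kernel) ⟨le_rfl, Or.inr le_rfl⟩) (xh_pt (X := 531132818279232) (by decide +kernel) hK.1 hK.2 hX) hT.swap (fB_sw tB)) (by norm_num) (by norm_num)
  have n1_3 : TCellU 14 12 28 x0 0 ((27109102520052 : ℕ) / 2 ^ 48) := tcu_join n1_2 (Pool.Agent.CXD.tX14X12T_nearBbg (inB_ok (P := (28, 28)) (b := (557219934371840, 560239195717632)) (by decide +kernel) ⟨le_rfl, Or.inr le_rfl⟩) (xh_pt (X := 531132818279232) (by decide +kernel) hK.1 hK.2 hX) hT.swap (fB_sw tB)) (by norm_num) (by norm_num)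
  have n1_4 : TCellU 14 12 28 x0 0 ((122160139892424 : ℕ) / 2 ^ 48) := tcu_join n1_3 (Pool.Agent.CXD.tX14X12T_nearBa (inB_ok (P := (28, 28)) (b := (557219910778880, 560239208824832)) (by decide +kernel) ⟨le_rfl, Or.inr le_rfl⟩) (xh_pt (X := 531132818279232) (by decide +kernel) hK.1 hK.2 hX) hT.swap) (by norm_num) (by norm_num)
  have h1 : QXS 14 12 28 x0 :=
    qxS_O (by norm_num) (by norm_num) (by norm_num) hT.gt hT.le (xh_pt (X := 531132818279232) (by decide +kernel) hK.1 hK.2 hX) Pool.Agent.Helper81.TK.E_14_12_T_midB.T (hasP (N := 14) (by decide +kernel)) (hasP (N := 12) (by decide +kernel)) (inB_ok (P := (28, 28)) (b := (550648146034688, 560261767364608)) (by decide +kernel) ⟨le_rfl, Or.inr le_rfl⟩) n1_4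
      (by norm_num) (by norm_num) (by norm_num) (far3 (L := 531132818279168) (H := 531132818279296) (by norm_num) (by norm_num) (by norm_num) hR (by norm_num) (by norm_num))
  exact zf_QS (by norm_num) (by norm_num) (by norm_num) (by norm_num) hT h0 h1
end E12_14_28

namespace E12_14_29
/-- the triple `(12, 14, 29)` -/
theorem fe : FinAt 12 14 29 := by
  refine z60_12_14_29 fun x0 hX0 hT tB => ?_
  have hX : |2 ^ 48 * x0 - (-((531161860542382 : ℕ) : ℝ))| ≤ ((64 : ℕ) : ℝ) := by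
    push_cast; exact hX0.trans (by norm_num)
  have hK := kz_pm (M := 29) (K := 559649916674405) (by norm_num) (by norm_num) rfl
  have hR : ((531161860542318 : ℕ) : ℝ) ≤ -(2 ^ 48 * x0) ∧ -(2 ^ 48 * x0) ≤ ((531161860542446 : ℕ) : ℝ) := by
    rw [abs_le] at hX0; push_cast; constructor <;> linarith [hX0.1, hX0.2]
  have n0_0 : TCellU 12 14 29 x0 0 ((56294995344 : ℕ) / 2 ^ 48) := tcu_sub (Pool.Agent.CXD.tX12X14T_nearBz2 (inB_ok (P := (29, 29)) (b := (559620536139776, 559895435018240)) (by decide +kernel) ⟨le_rfl, Or.inr le_rfl⟩) (xh_pt (X := 531161860542382) (by decide +kernel) hK.1 hK.2 hX) hT tB) (by norm_num) le_rfl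
  have n0_1 : TCellU 12 14 29 x0 0 ((89580641072 : ℕ) / 2 ^ 48) := tcu_join n0_0 (Pool.Agent.CXD.tX12X14T_nearBf2g (inB_ok (P := (29, 29)) (b := (559649915928576, 560239195717632)) (by decide +kernel) ⟨le_rfl, Or.inr le_rfl⟩) (xh_pt (X := 531161860542382) (by decide +kernel) hK.1 hK.2 hX) hT tB) (by norm_num) (by norm_num)
  have n0_2 : TCellU 12 14 29 x0 0 ((770355011520 : ℕ) / 2 ^ 48) := tcu_join n0_1 (Pool.Agent.CXD.tX12X14T_nearBf (inB_ok (P := (29, 29)) (b := (558727828602880, 560239195717632)) (by decide +kernel) ⟨le_rfl, Or.inr le_rfl⟩) (xh_pt (X := 531161860542382) (by decide +kernel) hK.1 hK.2 hX) hT tB) (by norm_num) (by norm_num)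
  have n0_3 : TCellU 12 14 29 x0 0 ((14002718440596 : ℕ) / 2 ^ 48) := tcu_join n0_2 (Pool.Agent.CXD.tX12X14T_nearBeg (inB_ok (P := (29, 29)) (b := (558727828602880, 560239195717632)) (by decide +kernel) ⟨le_rfl, Or.inr le_rfl⟩) (xh_pt (X := 531161860542382) (by decide +kernel) hK.1 hK.2 hX) hT tB) (by norm_num) (by norm_num)
  have n0_4 : TCellU 12 14 29 x0 0 ((22517998136852 : ℕ) / 2 ^ 48) := tcu_join n0_3 (Pool.Agent.CXD.tX12X14T_nearBb (inB_ok (P := (29, 29)) (b := (557219934371840, 560239195717632)) (by decide +kernel) ⟨le_rfl, Or.inr le_rfl⟩) (xh_pt (X := 531161860542382) (by decide +kernel) hK.1 hK.2 hX) hT tB) (by norm_num) (by norm_num)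
  have n0_5 : TCellU 12 14 29 x0 0 ((122160139892424 : ℕ) / 2 ^ 48) := tcu_join n0_4 (Pool.Agent.CXD.tX12X14T_nearBa (inB_ok (P := (29, 29)) (b := (557219934371840, 560239195717632)) (by decide +kernel) ⟨le_rfl, Or.inr le_rfl⟩) (xh_pt (X := 531161860542382) (by decide +kernel) hK.1 hK.2 hX) hT) (by norm_num) (by norm_num)
  have h0 : QXS 12 14 29 x0 :=
    qxS_O (by norm_num) (by norm_num) (by norm_num) hT.gt hT.le (xh_pt (X := 531161860542382) (by decide +kernel) hK.1 hK.2 hX) Pool.Agent.Helper81.TK.E_12_14_T_midB.T (hasP (N := 12) (by decide +kernel)) (hasP (N := 14) (by decide +kernel)) (inB_ok (P := (29, 29)) (b := (550648146034688, 560261767364608)) (by decide +kernel) ⟨le_rfl, Or.inr le_rfl⟩) n0_5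
      (by norm_num) (by norm_num) (by norm_num) (far3 (L := 531161860542318) (H := 531161860542446) (by norm_num) (by norm_num) (by norm_num) hR (by norm_num) (by norm_num))
  have n1_0 : TCellU 14 12 29 x0 0 ((56294995344 : ℕ) / 2 ^ 48) := tcu_sub (Pool.Agent.CXD.tX14X12T_nearBy0 (inB_ok (P := (29, 29)) (b := (559589138628608, 559866060734464)) (by decide +kernel) ⟨le_rfl, Or.inr le_rfl⟩) (xh_pt (X := 531161860542382) (by decide +kernel) hK.1 hK.2 hX) hT.swap (fB_sw tB)) (by norm_num) le_rfl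
  have n1_1 : TCellU 14 12 29 x0 0 ((124020428348 : ℕ) / 2 ^ 48) := tcu_join n1_0 (Pool.Agent.CXD.tX14X12T_nearBx2s2g (inB_ok (P := (29, 29)) (b := (559649915928576, 560239196241920)) (by decide +kernel) ⟨le_rfl, Or.inr le_rfl⟩) (xh_pt (X := 531161860542382) (by decide +kernel) hK.1 hK.2 hX) hT.swap (fB_sw tB)) (by norm_num) (by norm_num)
  have n1_2 : TCellU 14 12 29 x0 0 ((6771151504764 : ℕ) / 2 ^ 48) := tcu_join n1_1 (Pool.Agent.CXD.tX14X12T_nearBx2g (inB_ok (P := (29, 29)) (b := (558845414342656, 560239195717632)) (by decide +kernel) ⟨le_rfl, Or.inr le_rfl⟩) (xh_pt (X := 531161860542382) (by decide +kernel) hK.1 hK.2 hX) hT.swap (fB_sw tB)) (by norm_num) (by norm_num)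
  have n1_3 : TCellU 14 12 29 x0 0 ((27109102520052 : ℕ) / 2 ^ 48) := tcu_join n1_2 (Pool.Agent.CXD.tX14X12T_nearBbg (inB_ok (P := (29, 29)) (b := (557219934371840, 560239195717632)) (by decide +kernel) ⟨le_rfl, Or.inr le_rfl⟩) (xh_pt (X := 531161860542382) (by decide +kernel) hK.1 hK.2 hX) hT.swap (fB_sw tB)) (by norm_num) (by norm_num)
  have n1_4 : TCellU 14 12 29 x0 0 ((122160139892424 : ℕ) / 2 ^ 48) := tcu_join n1_3 (Pool.Agent.CXD.tX14X12T_nearBa (inB_ok (P := (29, 29)) (b := (557219910778880, 560239208824832)) (by decide +kernel) ⟨le_rfl, Or.inr le_rfl⟩) (xh_pt (X := 531161860542382) (by decide +kernel) hK.1 hK.2 hX) hT.swap) (by norm_num) (by norm_num)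
  have h1 : QXS 14 12 29 x0 :=
    qxS_O (by norm_num) (by norm_num) (by norm_num) hT.gt hT.le (xh_pt (X := 531161860542382) (by decide +kernel) hK.1 hK.2 hX) Pool.Agent.Helper81.TK.E_14_12_T_midB.T (hasP (N := 14) (by decide +kernel)) (hasP (N := 12) (by decide +kernel)) (inB_ok (P := (29, 29)) (b := (550648146034688, 560261767364608)) (by decide +kernel) ⟨le_rfl, Or.inr le_rfl⟩) n1_4
      (by norm_num) (by norm_num) (by norm_num) (far3 (L := 531161860542318) (H := 531161860542446) (by norm_num) (by norm_num) (by norm_num) hR (by norm_num) (by norm_num))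
  exact zf_QS (by norm_num) (by norm_num) (by norm_num) (by norm_num) hT h0 h1
end E12_14_29

namespace E12_14_30
/-- the triple `(12, 14, 30)` -/
theorem fe : FinAt 12 14 30 := by
  refine z60_12_14_30 fun x0 hX0 hT tB => ?_
  have hX : |2 ^ 48 * x0 - (-((531187919883904 : ℕ) : ℝ))| ≤ ((64 : ℕ) : ℝ) := by
    push_cast; exact hX0.trans (by norm_num)
  have hK := kz_pm (M := 30) (K := 559866054674044) (by norm_num) (by norm_num) rfl
  have hR : ((531187919883840 : ℕ) : ℝ) ≤ -(2 ^ 48 * x0) ∧ -(2 ^ 48 * x0) ≤ ((531187919883968 : ℕ) : ℝ) := by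
    rw [abs_le] at hX0; push_cast; constructor <;> linarith [hX0.1, hX0.2]
  have n0_0 : TCellU 12 14 30 x0 0 ((56294995344 : ℕ) / 2 ^ 48) := tcu_sub (Pool.Agent.CXD.tX12X14T_nearBz2 (inB_ok (P := (30, 30)) (b := (559620536139776, 559895435018240)) (by decide +kernel) ⟨le_rfl, Or.inr le_rfl⟩) (xh_pt (X := 531187919883904) (by decide +kernel) hK.1 hK.2 hX) hT tB) (by norm_num) le_rfl
  have n0_1 : TCellU 12 14 30 x0 0 ((89580641072 : ℕ) / 2 ^ 48) := tcu_join n0_0 (Pool.Agent.CXD.tX12X14T_nearBf2g (inB_ok (P := (30, 30)) (b := (559649915928576, 560239195717632)) (by decide +kernel) ⟨le_rfl, Or.inr le_rfl⟩) (xh_pt (X := 531187919883904) (by decide +kernel) hK.1 hK.2 hX) hT tB) (by norm_num) (by norm_num)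
  have n0_2 : TCellU 12 14 30 x0 0 ((770355011520 : ℕ) / 2 ^ 48) := tcu_join n0_1 (Pool.Agent.CXD.tX12X14T_nearBf (inB_ok (P := (30, 30)) (b := (558727828602880, 560239195717632)) (by decide +kernel) ⟨le_rfl, Or.inr le_rfl⟩) (xh_pt (X := 531187919883904) (by decide +kernel) hK.1 hK.2 hX) hT tB) (by norm_num) (by norm_num)
  have n0_3 : TCellU 12 14 30 x0 0 ((14002718440596 : ℕ) / 2 ^ 48) := tcu_join n0_2 (Pool.Agent.CXD.tX12X14T_nearBeg (inB_ok (P := (30, 30)) (b := (558727828602880, 560239195717632)) (by decide +kernel) ⟨le_rfl, Or.inr le_rfl⟩) (xh_pt (X := 531187919883904) (by decide +kernel) hK.1 hK.2 hX) hT tB) (by norm_num) (by norm_num)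
  have n0_4 : TCellU 12 14 30 x0 0 ((22517998136852 : ℕ) / 2 ^ 48) := tcu_join n0_3 (Pool.Agent.CXD.tX12X14T_nearBb (inB_ok (P := (30, 30)) (b := (557219934371840, 560239195717632)) (by decide +kernel) ⟨le_rfl, Or.inr le_rfl⟩) (xh_pt (X := 531187919883904) (by decide +kernel) hK.1 hK.2 hX) hT tB) (by norm_num) (by norm_num)
  have n0_5 : TCellU 12 14 30 x0 0 ((122160139892424 : ℕ) / 2 ^ 48) := tcu_join n0_4 (Pool.Agent.CXD.tX12X14T_nearBa (inB_ok (P := (30, 30)) (b := (557219934371840, 560239195717632)) (by decide +kernel) ⟨le_rfl, Or.inr le_rfl⟩) (xh_pt (X := 531187919883904) (by decide +kernel) hK.1 hK.2 hX) hT) (by norm_num) (by norm_num)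
  have h0 : QXS 12 14 30 x0 :=
    qxS_O (by norm_num) (by norm_num) (by norm_num) hT.gt hT.le (xh_pt (X := 531187919883904) (by decide +kernel) hK.1 hK.2 hX) Pool.Agent.Helper81.TK.E_12_14_T_midB.T (hasP (N := 12) (by decide +kernel)) (hasP (N := 14) (by decide +kernel)) (inB_ok (P := (30, 30)) (b := (550648146034688, 560261767364608)) (by decide +kernel) ⟨le_rfl, Or.inr le_rfl⟩) n0_5
      (by norm_num) (by norm_num) (by norm_num) (far3 (L := 531187919883840) (H := 531187919883968) (by norm_num) (by norm_num) (by norm_num) hR (by norm_num) (by norm_num))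
  have n1_0 : TCellU 14 12 30 x0 0 ((56294995344 : ℕ) / 2 ^ 48) := tcu_sub (Pool.Agent.CXD.tX14X12T_nearBy0 (inB_ok (P := (30, 30)) (b := (559589138628608, 559866060734464)) (by decide +kernel) ⟨le_rfl, Or.inr le_rfl⟩) (xh_pt (X := 531187919883904) (by decide +kernel) hK.1 hK.2 hX) hT.swap (fB_sw tB)) (by norm_num) le_rfl
  have n1_1 : TCellU 14 12 30 x0 0 ((124020428348 : ℕ) / 2 ^ 48) := tcu_join n1_0 (Pool.Agent.CXD.tX14X12T_nearBx2s2g (inB_ok (P := (30, 30)) (b := (559649915928576, 560239196241920)) (by decide +kernel) ⟨le_rfl, Or.inr le_rfl⟩) (xh_pt (X := 531187919883904) (by decide +kernel) hK.1 hK.2 hX) hT.swap (fB_sw tB)) (by norm_num) (by norm_num)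
  have n1_2 : TCellU 14 12 30 x0 0 ((6771151504764 : ℕ) / 2 ^ 48) := tcu_join n1_1 (Pool.Agent.CXD.tX14X12T_nearBx2g (inB_ok (P := (30, 30)) (b := (558845414342656, 560239195717632)) (by decide +kernel) ⟨le_rfl, Or.inr le_rfl⟩) (xh_pt (X := 531187919883904) (by decide +kernel) hK.1 hK.2 hX) hT.swap (fB_sw tB)) (by norm_num) (by norm_num)
  have n1_3 : TCellU 14 12 30 x0 0 ((27109102520052 : ℕ) / 2 ^ 48) := tcu_join n1_2 (Pool.Agent.CXD.tX14X12T_nearBbg (inB_ok (P := (30, 30)) (b := (557219934371840, 560239195717632)) (by decide +kernel) ⟨le_rfl, Or.inr le_rfl⟩) (xh_pt (X := 531187919883904) (by decide +kernel) hK.1 hK.2 hX) hT.swap (fB_sw tB)) (by norm_num) (by norm_num)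
  have n1_4 : TCellU 14 12 30 x0 0 ((122160139892424 : ℕ) / 2 ^ 48) := tcu_join n1_3 (Pool.Agent.CXD.tX14X12T_nearBa (inB_ok (P := (30, 30)) (b := (557219910778880, 560239208824832)) (by decide +kernel) ⟨le_rfl, Or.inr le_rfl⟩) (xh_pt (X := 531187919883904) (by decide +kernel) hK.1 hK.2 hX) hT.swap) (by norm_num) (by norm_num)
  have h1 : QXS 14 12 30 x0 :=
    qxS_O (by norm_num) (by norm_num) (by norm_num) hT.gt hT.le (xh_pt (X := 531187919883904) (by decide +kernel) hK.1 hK.2 hX) Pool.Agent.Helper81.TK.E_14_12_T_midB.T (hasP (N := 14) (by decide +kernel)) (hasP (N := 12) (by decide +kernel)) (inB_ok (P := (30, 30)) (b := (550648146034688, 560261767364608)) (by decide +kernel) ⟨le_rfl, Or.inr le_rfl⟩) n1_4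
      (by norm_num) (by norm_num) (by norm_num) (far3 (L := 531187919883840) (H := 531187919883968) (by norm_num) (by norm_num) (by norm_num) hR (by norm_num) (by norm_num))
  exact zf_QS (by norm_num) (by norm_num) (by norm_num) (by norm_num) hT h0 h1
end E12_14_30

namespace E12_14_31
/-- the triple `(12, 14, 31)` -/
theorem fe : FinAt 12 14 31 := by
  refine z60_12_14_31 fun x0 hX0 hT tB => ?_
  have hX : |2 ^ 48 * x0 - (-((531211394493719 : ℕ) : ℝ))| ≤ ((64 : ℕ) : ℝ) := by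
    push_cast; exact hX0.trans (by norm_num)
  have hK := kz_pm (M := 31) (K := 560061639263760) (by norm_num) (by norm_num) rfl
  have hR : ((531211394493655 : ℕ) : ℝ) ≤ -(2 ^ 48 * x0) ∧ -(2 ^ 48 * x0) ≤ ((531211394493783 : ℕ) : ℝ) := by
    rw [abs_le] at hX0; push_cast; constructor <;> linarith [hX0.1, hX0.2]
  have n0_0 : TCellU 12 14 31 x0 0 ((56294995344 : ℕ) / 2 ^ 48) := tcu_sub (Pool.Agent.CXD.tX12X14T_nearBy0 (inB_ok (P := (31, 31)) (b := (559963500445696, 560239200960512)) (by decide +kernel) ⟨le_rfl, Or.inr le_rfl⟩) (xh_pt (X := 531211394493719) (by decide +kernel) hK.1 hK.2 hX) hT tB) (by norm_num) le_rfl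
  have n0_1 : TCellU 12 14 31 x0 0 ((89580641072 : ℕ) / 2 ^ 48) := tcu_join n0_0 (Pool.Agent.CXD.tX12X14T_nearBf2g (inB_ok (P := (31, 31)) (b := (559649915928576, 560239195717632)) (by decide +kernel) ⟨le_rfl, Or.inr le_rfl⟩) (xh_pt (X := 531211394493719) (by decide +kernel) hK.1 hK.2 hX) hT tB) (by norm_num) (by norm_num)
  have n0_2 : TCellU 12 14 31 x0 0 ((770355011520 : ℕ) / 2 ^ 48) := tcu_join n0_1 (Pool.Agent.CXD.tX12X14T_nearBf (inB_ok (P := (31, 31)) (b := (558727828602880, 560239195717632)) (by decide +kernel) ⟨le_rfl, Or.inr le_rfl⟩) (xh_pt (X := 531211394493719) (by decide +kernel) hK.1 hK.2 hX) hT tB) (by norm_num) (by norm_num)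
  have n0_3 : TCellU 12 14 31 x0 0 ((14002718440596 : ℕ) / 2 ^ 48) := tcu_join n0_2 (Pool.Agent.CXD.tX12X14T_nearBeg (inB_ok (P := (31, 31)) (b := (558727828602880, 560239195717632)) (by decide +kernel) ⟨le_rfl, Or.inr le_rfl⟩) (xh_pt (X := 531211394493719) (by decide +kernel) hK.1 hK.2 hX) hT tB) (by norm_num) (by norm_num)
  have n0_4 : TCellU 12 14 31 x0 0 ((22517998136852 : ℕ) / 2 ^ 48) := tcu_join n0_3 (Pool.Agent.CXD.tX12X14T_nearBb (inB_ok (P := (31, 31)) (b := (557219934371840, 560239195717632)) (by decide +kernel) ⟨le_rfl, Or.inr le_rfl⟩) (xh_pt (X := 531211394493719) (by decide +kernel) hK.1 hK.2 hX) hT tB) (by norm_num) (by norm_num)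
  have n0_5 : TCellU 12 14 31 x0 0 ((122160139892424 : ℕ) / 2 ^ 48) := tcu_join n0_4 (Pool.Agent.CXD.tX12X14T_nearBa (inB_ok (P := (31, 31)) (b := (557219934371840, 560239195717632)) (by decide +kernel) ⟨le_rfl, Or.inr le_rfl⟩) (xh_pt (X := 531211394493719) (by decide +kernel) hK.1 hK.2 hX) hT) (by norm_num) (by norm_num)
  have h0 : QXS 12 14 31 x0 :=
    qxS_O (by norm_num) (by norm_num) (by norm_num) hT.gt hT.le (xh_pt (X := 531211394493719) (by decide +kernel) hK.1 hK.2 hX) Pool.Agent.Helper81.TK.E_12_14_T_midB.T (hasP (N := 12) (by decide +kernel)) (hasP (N := 14) (by decide +kernel)) (inB_ok (P := (31, 31)) (b := (550648146034688, 560261767364608)) (by decide +kernel) ⟨le_rfl, Or.inr le_rfl⟩) n0_5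
      (by norm_num) (by norm_num) (by norm_num) (far3 (L := 531211394493655) (H := 531211394493783) (by norm_num) (by norm_num) (by norm_num) hR (by norm_num) (by norm_num))
  have n1_0 : TCellU 14 12 31 x0 0 ((56294995344 : ℕ) / 2 ^ 48) := tcu_sub (Pool.Agent.CXD.tX14X12T_nearBy1 (inB_ok (P := (31, 31)) (b := (559963500445696, 560239200960512)) (by decide +kernel) ⟨le_rfl, Or.inr le_rfl⟩) (xh_pt (X := 531211394493719) (by decide +kernel) hK.1 hK.2 hX) hT.swap (fB_sw tB)) (by norm_num) le_rfl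
  have n1_1 : TCellU 14 12 31 x0 0 ((124020428348 : ℕ) / 2 ^ 48) := tcu_join n1_0 (Pool.Agent.CXD.tX14X12T_nearBx2s2g (inB_ok (P := (31, 31)) (b := (559649915928576, 560239196241920)) (by decide +kernel) ⟨le_rfl, Or.inr le_rfl⟩) (xh_pt (X := 531211394493719) (by decide +kernel) hK.1 hK.2 hX) hT.swap (fB_sw tB)) (by norm_num) (by norm_num)
  have n1_2 : TCellU 14 12 31 x0 0 ((6771151504764 : ℕ) / 2 ^ 48) := tcu_join n1_1 (Pool.Agent.CXD.tX14X12T_nearBx2g (inB_ok (P := (31, 31)) (b := (558845414342656, 560239195717632)) (by decide +kernel) ⟨le_rfl, Or.inr le_rfl⟩) (xh_pt (X := 531211394493719) (by decide +kernel) hK.1 hK.2 hX) hT.swap (fB_sw tB)) (by norm_num) (by norm_num)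
  have n1_3 : TCellU 14 12 31 x0 0 ((27109102520052 : ℕ) / 2 ^ 48) := tcu_join n1_2 (Pool.Agent.CXD.tX14X12T_nearBbg (inB_ok (P := (31, 31)) (b := (557219934371840, 560239195717632)) (by decide +kernel) ⟨le_rfl, Or.inr le_rfl⟩) (xh_pt (X := 531211394493719) (by decide +kernel) hK.1 hK.2 hX) hT.swap (fB_sw tB)) (by norm_num) (by norm_num)
  have n1_4 : TCellU 14 12 31 x0 0 ((122160139892424 : ℕ) / 2 ^ 48) := tcu_join n1_3 (Pool.Agent.CXD.tX14X12T_nearBa (inB_ok (P := (31, 31)) (b := (557219910778880, 560239208824832)) (by decide +kernel) ⟨le_rfl, Or.inr le_rfl⟩) (xh_pt (X := 531211394493719) (by decide +kernel) hK.1 hK.2 hX) hT.swap) (by norm_num) (by norm_num)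
  have h1 : QXS 14 12 31 x0 :=
    qxS_O (by norm_num) (by norm_num) (by norm_num) hT.gt hT.le (xh_pt (X := 531211394493719) (by decide +kernel) hK.1 hK.2 hX) Pool.Agent.Helper81.TK.E_14_12_T_midB.T (hasP (N := 14) (by decide +kernel)) (hasP (N := 12) (by decide +kernel)) (inB_ok (P := (31, 31)) (b := (550648146034688, 560261767364608)) (by decide +kernel) ⟨le_rfl, Or.inr le_rfl⟩) n1_4
      (by norm_num) (by norm_num) (by norm_num) (far3 (L := 531211394493655) (H := 531211394493783) (by norm_num) (by norm_num) (by norm_num) hR (by norm_num) (by norm_num))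
  exact zf_QS (by norm_num) (by norm_num) (by norm_num) (by norm_num) hT h0 h1
end E12_14_31

namespace E12_14_32
/-- the triple `(12, 14, 32)` -/
theorem fe : FinAt 12 14 32 := by
  refine z60_12_14_32 fun x0 hX0 hT tB => ?_
  have hX : |2 ^ 48 * x0 - (-((531232617821229 : ℕ) : ℝ))| ≤ ((64 : ℕ) : ℝ) := by
    push_cast; exact hX0.trans (by norm_num)
  have hK := kz_pm (M := 32) (K := 560239195525714) (by norm_num) (by norm_num) rfl
  have hR : ((531232617821165 : ℕ) : ℝ) ≤ -(2 ^ 48 * x0) ∧ -(2 ^ 48 * x0) ≤ ((531232617821293 : ℕ) : ℝ) := by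
    rw [abs_le] at hX0; push_cast; constructor <;> linarith [hX0.1, hX0.2]
  have n0_0 : TCellU 12 14 32 x0 0 ((56294995344 : ℕ) / 2 ^ 48) := tcu_sub (Pool.Agent.CXD.tX12X14T_nearBy0 (inB_ok (P := (32, 32)) (b := (559963500445696, 560239200960512)) (by decide +kernel) ⟨le_rfl, Or.inr le_rfl⟩) (xh_pt (X := 531232617821229) (by decide +kernel) hK.1 hK.2 hX) hT tB) (by norm_num) le_rfl
  have n0_1 : TCellU 12 14 32 x0 0 ((89580641072 : ℕ) / 2 ^ 48) := tcu_join n0_0 (Pool.Agent.CXD.tX12X14T_nearBf2g (inB_ok (P := (32, 32)) (b := (559649915928576, 560239195717632)) (by decide +kernel) ⟨le_rfl, Or.inr le_rfl⟩) (xh_pt (X := 531232617821229) (by decide +kernel) hK.1 hK.2 hX) hT tB) (by norm_num) (by norm_num)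
  have n0_2 : TCellU 12 14 32 x0 0 ((770355011520 : ℕ) / 2 ^ 48) := tcu_join n0_1 (Pool.Agent.CXD.tX12X14T_nearBf (inB_ok (P := (32, 32)) (b := (558727828602880, 560239195717632)) (by decide +kernel) ⟨le_rfl, Or.inr le_rfl⟩) (xh_pt (X := 531232617821229) (by decide +kernel) hK.1 hK.2 hX) hT tB) (by norm_num) (by norm_num)
  have n0_3 : TCellU 12 14 32 x0 0 ((14002718440596 : ℕ) / 2 ^ 48) := tcu_join n0_2 (Pool.Agent.CXD.tX12X14T_nearBeg (inB_ok (P := (32, 32)) (b := (558727828602880, 560239195717632)) (by decide +kernel) ⟨le_rfl, Or.inr le_rfl⟩) (xh_pt (X := 531232617821229) (by decide +kernel) hK.1 hK.2 hX) hT tB) (by norm_num) (by norm_num)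
  have n0_4 : TCellU 12 14 32 x0 0 ((22517998136852 : ℕ) / 2 ^ 48) := tcu_join n0_3 (Pool.Agent.CXD.tX12X14T_nearBb (inB_ok (P := (32, 32)) (b := (557219934371840, 560239195717632)) (by decide +kernel) ⟨le_rfl, Or.inr le_rfl⟩) (xh_pt (X := 531232617821229) (by decide +kernel) hK.1 hK.2 hX) hT tB) (by norm_num) (by norm_num)
  have n0_5 : TCellU 12 14 32 x0 0 ((122160139892424 : ℕ) / 2 ^ 48) := tcu_join n0_4 (Pool.Agent.CXD.tX12X14T_nearBa (inB_ok (P := (32, 32)) (b := (557219934371840, 560239195717632)) (by decide +kernel) ⟨le_rfl, Or.inr le_rfl⟩) (xh_pt (X := 531232617821229) (by decide +kernel) hK.1 hK.2 hX) hT) (by norm_num) (by norm_num)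
  have h0 : QXS 12 14 32 x0 :=
    qxS_O (by norm_num) (by norm_num) (by norm_num) hT.gt hT.le (xh_pt (X := 531232617821229) (by decide +kernel) hK.1 hK.2 hX) Pool.Agent.Helper81.TK.E_12_14_T_midB.T (hasP (N := 12) (by decide +kernel)) (hasP (N := 14) (by decide +kernel)) (inB_ok (P := (32, 32)) (b := (550648146034688, 560261767364608)) (by decide +kernel) ⟨le_rfl, Or.inr le_rfl⟩) n0_5
      (by norm_num) (by norm_num) (by norm_num) (far3 (L := 531232617821165) (H := 531232617821293) (by norm_num) (by norm_num) (by norm_num) hR (by norm_num) (by norm_num))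
  have n1_0 : TCellU 14 12 32 x0 0 ((56294995344 : ℕ) / 2 ^ 48) := tcu_sub (Pool.Agent.CXD.tX14X12T_nearBy1 (inB_ok (P := (32, 32)) (b := (559963500445696, 560239200960512)) (by decide +kernel) ⟨le_rfl, Or.inr le_rfl⟩) (xh_pt (X := 531232617821229) (by decide +kernel) hK.1 hK.2 hX) hT.swap (fB_sw tB)) (by norm_num) le_rfl
  have n1_1 : TCellU 14 12 32 x0 0 ((124020428348 : ℕ) / 2 ^ 48) := tcu_join n1_0 (Pool.Agent.CXD.tX14X12T_nearBx2s2g (inB_ok (P := (32, 32)) (b := (559649915928576, 560239196241920)) (by decide +kernel) ⟨le_rfl, Or.inr le_rfl⟩) (xh_pt (X := 531232617821229) (by decide +kernel) hK.1 hK.2 hX) hT.swap (fB_sw tB)) (by norm_num) (by norm_num)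
  have n1_2 : TCellU 14 12 32 x0 0 ((6771151504764 : ℕ) / 2 ^ 48) := tcu_join n1_1 (Pool.Agent.CXD.tX14X12T_nearBx2g (inB_ok (P := (32, 32)) (b := (558845414342656, 560239195717632)) (by decide +kernel) ⟨le_rfl, Or.inr le_rfl⟩) (xh_pt (X := 531232617821229) (by decide +kernel) hK.1 hK.2 hX) hT.swap (fB_sw tB)) (by norm_num) (by norm_num)
  have n1_3 : TCellU 14 12 32 x0 0 ((27109102520052 : ℕ) / 2 ^ 48) := tcu_join n1_2 (Pool.Agent.CXD.tX14X12T_nearBbg (inB_ok (P := (32, 32)) (b := (557219934371840, 560239195717632)) (by decide +kernel) ⟨le_rfl, Or.inr le_rfl⟩) (xh_pt (X := 531232617821229) (by decide +kernel) hK.1 hK.2 hX) hT.swap (fB_sw tB)) (by norm_num) (by norm_num)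
  have n1_4 : TCellU 14 12 32 x0 0 ((122160139892424 : ℕ) / 2 ^ 48) := tcu_join n1_3 (Pool.Agent.CXD.tX14X12T_nearBa (inB_ok (P := (32, 32)) (b := (557219910778880, 560239208824832)) (by decide +kernel) ⟨le_rfl, Or.inr le_rfl⟩) (xh_pt (X := 531232617821229) (by decide +kernel) hK.1 hK.2 hX) hT.swap) (by norm_num) (by norm_num)
  have h1 : QXS 14 12 32 x0 :=
    qxS_O (by norm_num) (by norm_num) (by norm_num) hT.gt hT.le (xh_pt (X := 531232617821229) (by decide +kernel) hK.1 hK.2 hX) Pool.Agent.Helper81.TK.E_14_12_T_midB.T (hasP (N := 14) (by decide +kernel)) (hasP (N := 12) (by decide +kernel)) (inB_ok (P := (32, 32)) (b := (550648146034688, 560261767364608)) (by decide +kernel) ⟨le_rfl, Or.inr le_rfl⟩) n1_4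
      (by norm_num) (by norm_num) (by norm_num) (far3 (L := 531232617821165) (H := 531232617821293) (by norm_num) (by norm_num) (by norm_num) hR (by norm_num) (by norm_num))
  exact zf_QS (by norm_num) (by norm_num) (by norm_num) (by norm_num) hT h0 h1
end E12_14_32

end Pool.Agent.Helper81.HD
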