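import Pool.Agent.CXD.M_X12_X14_T_3
import Pool.Agent.CXD.M_X12_X14_T_4
import Pool.Agent.CXD.M_X12_X14_T_5
import Pool.Agent.CXD.M_X14_X12_T_3
import Pool.Agent.CXD.M_X14_X12_T_4
import Pool.Agent.Helper81.HD.G12_14
import Pool.Agent.Helper81.MIT.SubX
import Pool.Agent.Helper81.TK.GS1
import Pool.Agent.Helper81.TK.GS2

/-!
The row `(12, 14, r)`, `r` at least `15`.
-/

set_option autoImplicit false
set_option exponentiation.threshold 4000
noncomputable section
namespace Pool.Agent.Helper81.HD.R12_14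

open Pool.Agent.Helper81.MIT
open Pool.Agent.Helper6.MONO (Thr fB xA FinAt Kp)
open Pool.Agent.Helper57.U2 (TCellU)
open Pool.Agent.Helper84.ST (QXS)
open Pool.Agent.Helper84.XL (XH)
open Pool.Agent.Helper86.C75 (Z)
open Pool.Agent.Helper90.KMO (zv)
open Pool.Agent.Helper21.KTE (KS)
open Pool.Agent.Helper57.XL (chkX hX_of okx)


theorem nA331_33 {r : ℕ} (h1 : 33 ≤ r) (h2 : r ≤ 42) : TCellU 12 14 r (xA 12 14 r) 0 ((122160139892424 : ℕ) / 2 ^ 48) := by
  have k0 : TCellU 12 14 r (xA 12 14 r) 0 ((6464233100416 : ℕ) / 2 ^ 48) := tcu_sub (Pool.Agent.CXD.tX12X14T_nearG33_42 (inB_ok (P := (33, 42)) (b := (560400872243200, 561375831392256)) (by decide +kernel) ⟨h1, Or.inr h2⟩) (by omega) (by omega)) (by norm_num) le_rfl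
  have k1 : TCellU 12 14 r (xA 12 14 r) 0 ((28147497671064 : ℕ) / 2 ^ 48) := tcu_join k0 (Pool.Agent.CXD.tX12X14T_nearG33_oo (inB_ok (P := (33, 42)) (b := (560400872243200, 562949953421312)) (by decide +kernel) ⟨h1, Or.inr h2⟩) (by omega) (by omega)) (by norm_num) (by norm_num)
  have k2 : TCellU 12 14 r (xA 12 14 r) 0 ((122160139892424 : ℕ) / 2 ^ 48) := tcu_join k1 (Pool.Agent.CXD.tX12X14T_nearH33_oo (inB_ok (P := (33, 42)) (b := (560400872243200, 562949953421312)) (by decide +kernel) ⟨h1, Or.inr h2⟩) (by omega) (by omega)) (by norm_num) (by norm_num)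
  exact tcu_sub k2 le_rfl (by norm_num)

theorem nA331_43 {r : ℕ} (h1 : 43 ≤ r) : TCellU 12 14 r (xA 12 14 r) 0 ((122160139892424 : ℕ) / 2 ^ 48) := by
  have k0 : TCellU 12 14 r (xA 12 14 r) 0 ((6464233100416 : ℕ) / 2 ^ 48) := tcu_sub (Pool.Agent.CXD.tX12X14T_nearG43_oo (inB_ok (P := (43, 0)) (b := (561448162426880, 562949953421312)) (by decide +kernel) ⟨h1, Or.inl rfl⟩) (by omega) (by omega)) (by norm_num) le_rfl
  have k1 : TCellU 12 14 r (xA 12 14 r) 0 ((28147497671064 : ℕ) / 2 ^ 48) := tcu_join k0 (Pool.Agent.CXD.tX12X14T_nearG33_oo (inB_ok (P := (43, 0)) (b := (560400872243200, 562949953421312)) (by decide +kernel) ⟨h1, Or.inl rfl⟩) (by omega) (by omega)) (by norm_num) (by norm_num)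
  have k2 : TCellU 12 14 r (xA 12 14 r) 0 ((122160139892424 : ℕ) / 2 ^ 48) := tcu_join k1 (Pool.Agent.CXD.tX12X14T_nearH33_oo (inB_ok (P := (43, 0)) (b := (560400872243200, 562949953421312)) (by decide +kernel) ⟨h1, Or.inl rfl⟩) (by omega) (by omega)) (by norm_num) (by norm_num)
  exact tcu_sub k2 le_rfl (by norm_num)

theorem nA331 {r : ℕ} (h1 : 33 ≤ r) : TCellU 12 14 r (xA 12 14 r) 0 ((122160139892424 : ℕ) / 2 ^ 48) := by
  rcases Nat.lt_or_ge r 43 with g | g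
  · exact nA331_33 (by omega) (by omega)
  exact nA331_43 (by omega)

theorem qA331 {r : ℕ} (h1 : 33 ≤ r) : QXS 12 14 r (xA 12 14 r) :=
  qxS_A (by norm_num) (by norm_num) (by omega) (by omega) Pool.Agent.Helper81.TK.E_12_14_T_midA.T (hasP (N := 12) (by decide +kernel)) (hasP (N := 14) (by decide +kernel)) (inB_ok (P := (33, 0)) (b := (560261767102464, 562949953421312)) (by decide +kernel) ⟨h1, Or.inl rfl⟩) (nA331 h1)
    (by norm_num) (by norm_num) (by norm_num) (far3 (L := 528784131786579) (H := 532545911524277) (by norm_num) (by norm_num) (by omega) (xaB_ok (lo := 528784131786579) (hi := 532545911524277) (i := (12, 12)) (j := (14, 14)) (k := (33, 0)) (by decide +kernel) ⟨le_rfl, Or.inr le_rfl⟩ ⟨le_rfl, Or.inr le_rfl⟩ ⟨h1, Or.inl rfl⟩) (by norm_num) (by norm_num))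

theorem nA332_33 {r : ℕ} (h1 : 33 ≤ r) (h2 : r ≤ 46) : TCellU 14 12 r (xA 14 12 r) 0 ((122160139892424 : ℕ) / 2 ^ 48) := by
  have k0 : TCellU 14 12 r (xA 14 12 r) 0 ((28147497671064 : ℕ) / 2 ^ 48) := tcu_sub (Pool.Agent.CXD.tX14X12T_nearG33_46 (inB_ok (P := (33, 46)) (b := (560400872243200, 561637587156992)) (by decide +kernel) ⟨h1, Or.inr h2⟩) (by omega) (by omega)) (by norm_num) le_rfl
  have k1 : TCellU 14 12 r (xA 14 12 r) 0 ((122160139892424 : ℕ) / 2 ^ 48) := tcu_join k0 (Pool.Agent.CXD.tX14X12T_nearH33_oo (inB_ok (P := (33, 46)) (b := (560400872243200, 562949953421312)) (by decide +kernel) ⟨h1, Or.inr h2⟩) (by omega) (by omega)) (by norm_num) (by norm_num)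
  exact tcu_sub k1 le_rfl (by norm_num)

theorem nA332_47 {r : ℕ} (h1 : 47 ≤ r) : TCellU 14 12 r (xA 14 12 r) 0 ((122160139892424 : ℕ) / 2 ^ 48) := by
  have k0 : TCellU 14 12 r (xA 14 12 r) 0 ((28147497671064 : ℕ) / 2 ^ 48) := tcu_sub (Pool.Agent.CXD.tX14X12T_nearG47_oo (inB_ok (P := (47, 0)) (b := (561692817752064, 562949953421312)) (by decide +kernel) ⟨h1, Or.inl rfl⟩) (by omega) (by omega)) (by norm_num) le_rfl
  have k1 : TCellU 14 12 r (xA 14 12 r) 0 ((122160139892424 : ℕ) / 2 ^ 48) := tcu_join k0 (Pool.Agent.CXD.tX14X12T_nearH33_oo (inB_ok (P := (47, 0)) (b := (560400872243200, 562949953421312)) (by decide +kernel) ⟨h1, Or.inl rfl⟩) (by omega) (by omega)) (by norm_num) (by norm_num)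
  exact tcu_sub k1 le_rfl (by norm_num)

theorem nA332 {r : ℕ} (h1 : 33 ≤ r) : TCellU 14 12 r (xA 14 12 r) 0 ((122160139892424 : ℕ) / 2 ^ 48) := by
  rcases Nat.lt_or_ge r 47 with g | g
  · exact nA332_33 (by omega) (by omega)
  exact nA332_47 (by omega)

theorem qA332 {r : ℕ} (h1 : 33 ≤ r) : QXS 14 12 r (xA 14 12 r) :=
  qxS_A (by norm_num) (by norm_num) (by omega) (by omega) Pool.Agent.Helper81.TK.E_14_12_T_midA.T (hasP (N := 14) (by decide +kernel)) (hasP (N := 12) (by decide +kernel)) (inB_ok (P := (33, 0)) (b := (560261767102464, 562949953421312)) (by decide +kernel) ⟨h1, Or.inl rfl⟩) (nA332 h1)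
    (by norm_num) (by norm_num) (by norm_num) (far3 (L := 528784131786579) (H := 532545911524277) (by norm_num) (by norm_num) (by omega) (xaB_ok (lo := 528784131786579) (hi := 532545911524277) (i := (14, 14)) (j := (12, 12)) (k := (33, 0)) (by decide +kernel) ⟨le_rfl, Or.inr le_rfl⟩ ⟨le_rfl, Or.inr le_rfl⟩ ⟨h1, Or.inl rfl⟩) (by norm_num) (by norm_num))

theorem fA33 {r : ℕ} (h1 : 33 ≤ r) : FinAt 12 14 r :=
  row_Ac (by norm_num) (by norm_num) (by omega) (by omega) (qA331 h1) (qA332 h1)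

/-- the row `(12, 14, r)` -/
theorem row_12_14 : ∀ r, 15 ≤ r → FinAt 12 14 r := by
  intro r hr
  rcases (by omega : r = 15 ∨ r = 16 ∨ r = 17 ∨ r = 18 ∨ r = 19 ∨ r = 20 ∨ r = 21 ∨ r = 22 ∨ r = 23 ∨ r = 24 ∨ r = 25 ∨ r = 26 ∨ r = 27 ∨ r = 28 ∨ r = 29 ∨ r = 30 ∨ r = 31 ∨ r = 32 ∨ 33 ≤ r) with rfl | rfl | rfl | rfl | rfl | rfl | rfl | rfl | rfl | rfl | rfl | rfl | rfl | rfl | rfl | rfl | rfl | rfl | g
  · exact E12_14_15.fe
  · exact E12_14_16.fe
  · exact E12_14_17.fe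
  · exact E12_14_18.fe
  · exact E12_14_19.fe
  · exact E12_14_20.fe
  · exact E12_14_21.fe
  · exact E12_14_22.fe
  · exact E12_14_23.fe
  · exact E12_14_24.fe
  · exact E12_14_25.fe
  · exact E12_14_26.fe
  · exact E12_14_27.fe
  · exact E12_14_28.fe
  · exact E12_14_29.fe
  · exact E12_14_30.fe
  · exact E12_14_31.fe
  · exact E12_14_32.fe
  · exact fA33 g

end Pool.Agent.Helper81.HD.R12_14
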