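import Pool.Agent.CXD.M_G12_0
import Pool.Agent.CXD.M_G12_1
import Pool.Agent.CXD.M_G12_3
import Pool.Agent.CXD.M_G12_8
import Pool.Agent.CXD.M_G12_13
import Pool.Agent.CXD.M_G12_14
import Pool.Agent.CXD.M_G12_15
import Pool.Agent.Helper81.MIT.HDl
import Pool.Agent.Helper81.MIT.PtN3
import Pool.Agent.Helper81.TK.GD1
import Pool.Agent.Helper81.TK.GD2
import Pool.Agent.Helper81.TK.GD3

/-!
Single triples: near cells, middle cells and the far part.
-/

set_option autoImplicit false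
set_option exponentiation.threshold 4000
noncomputable section
namespace Pool.Agent.Helper81.HD

open Pool.Agent.Helper81.MIT
open Pool.Agent.Helper6.MONO (FinAt)
open Pool.Agent.Helper57.U2 (TCellU)
open Pool.Agent.Helper84.ST (QXS)
open Pool.Agent.Helper6.CXT (ln0 ln1)

/-- the triple `(12, 12, 12)` -/
theorem hd_12_12_12 : FinAt 12 12 12 := by
  refine z_12_12_12 fun x0 hX0 hT tB => ?_
  have hX : |2 ^ 48 * x0 - (-((528076481262331 : ℕ) : ℝ))| ≤ ((64 : ℕ) : ℝ) := by simpa using hX0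
  have hz := zvX hX
  have n0_0 : TCellU 12 12 12 x0 0 ((1266637395196 : ℕ) / 2 ^ 48) := tcu_sub (TCellU.of_t (Pool.Agent.CXD.tX12_X12_X12_near_Bt hz hT tB)) (by norm_num) le_rfl
  have n0_1 : TCellU 12 12 12 x0 0 ((2251799813684 : ℕ) / 2 ^ 48) := tcu_join n0_0 (TCellU.of_t (Pool.Agent.CXD.tX12_X12_X12_near_B hz hT tB)) (by norm_num) (by norm_num)
  have n0_2 : TCellU 12 12 12 x0 0 ((8444249301320 : ℕ) / 2 ^ 48) := tcu_join n0_1 (TCellU.of_t (Pool.Agent.CXD.tX12_X12_X12_near_h hz hT)) (by norm_num) (by norm_num)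
  have n0_3 : TCellU 12 12 12 x0 0 ((122160139892424 : ℕ) / 2 ^ 48) := tcu_join n0_2 (TCellU.of_t (Pool.Agent.CXD.tX12_X12_X12_near_g hz hT)) (by norm_num) (by norm_num)
  have h0 : QXS 12 12 12 x0 := qxS_pt (by norm_num) (by norm_num) (by norm_num) hT hX Pool.Agent.Helper81.TK.E_12_12_12_mid.T (hasP (N := 12) (by decide +kernel)) (hasP (N := 12) (by decide +kernel)) (hasP (N := 12) (by decide +kernel)) n0_3
    (by norm_num) (by norm_num) (by norm_num) (FarI_three (p := 12) (lo := 450359962737050) (hi := 537617205517353) (by norm_num) (by norm_num) (by norm_num)) (by norm_num) (by norm_num)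
  exact zf_QS1 (by norm_num) (by norm_num) (by norm_num) hT h0

/-- the triple `(12, 12, 13)` -/
theorem hd_12_12_13 : FinAt 12 12 13 := by
  refine z_12_12_13 fun x0 hX0 hT tB => ?_
  have hX : |2 ^ 48 * x0 - (-((528531034854177 : ℕ) : ℝ))| ≤ ((64 : ℕ) : ℝ) := by simpa using hX0
  have hz := zvX hX
  have n0_0 : TCellU 12 12 13 x0 0 ((949978046400 : ℕ) / 2 ^ 48) := tcu_sub (TCellU.of_t (Pool.Agent.CXD.tX12_X12_X13_near_Bt hz hT tB)) (by norm_num) le_rfl
  have n0_1 : TCellU 12 12 13 x0 0 ((2251799813684 : ℕ) / 2 ^ 48) := tcu_join n0_0 (TCellU.of_t (Pool.Agent.CXD.tX12_X12_X13_near_B hz hT tB)) (by norm_num) (by norm_num)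
  have n0_2 : TCellU 12 12 13 x0 0 ((8444249301320 : ℕ) / 2 ^ 48) := tcu_join n0_1 (TCellU.of_t (Pool.Agent.CXD.tX12_X12_X13_near_h hz hT)) (by norm_num) (by norm_num)
  have n0_3 : TCellU 12 12 13 x0 0 ((122160139892424 : ℕ) / 2 ^ 48) := tcu_join n0_2 (TCellU.of_t (Pool.Agent.CXD.tX12_X12_X13_near_g hz hT)) (by norm_num) (by norm_num)
  have h0 : QXS 12 12 13 x0 := qxS_pt (by norm_num) (by norm_num) (by norm_num) hT hX Pool.Agent.Helper81.TK.E_12_12_13_mid.T (hasP (N := 12) (by decide +kernel)) (hasP (N := 12) (by decide +kernel)) (hasP (N := 13) (by decide +kernel)) n0_3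
    (by norm_num) (by norm_num) (by norm_num) (FarI_three (p := 12) (lo := 450359962737050) (hi := 537617205517353) (by norm_num) (by norm_num) (by norm_num)) (by norm_num) (by norm_num)
  exact zf_QS1 (by norm_num) (by norm_num) (by norm_num) hT h0

/-- the triple `(12, 12, 14)` -/
theorem hd_12_12_14 : FinAt 12 12 14 := by
  refine z_12_12_14 fun x0 hX0 hT tB => ?_
  have hX : |2 ^ 48 * x0 - (-((528872639422534 : ℕ) : ℝ))| ≤ ((64 : ℕ) : ℝ) := by simpa using hX0
  have hz := zvX hX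
  have n0_0 : TCellU 12 12 14 x0 0 ((1266637395196 : ℕ) / 2 ^ 48) := tcu_sub (TCellU.of_t (Pool.Agent.CXD.tX12_X12_X14_near_Bt hz hT tB)) (by norm_num) le_rfl
  have n0_1 : TCellU 12 12 14 x0 0 ((2251799813684 : ℕ) / 2 ^ 48) := tcu_join n0_0 (TCellU.of_t (Pool.Agent.CXD.tX12_X12_X14_near_B hz hT tB)) (by norm_num) (by norm_num)
  have n0_2 : TCellU 12 12 14 x0 0 ((8444249301320 : ℕ) / 2 ^ 48) := tcu_join n0_1 (TCellU.of_t (Pool.Agent.CXD.tX12_X12_X14_near_h hz hT)) (by norm_num) (by norm_num)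
  have n0_3 : TCellU 12 12 14 x0 0 ((122160139892424 : ℕ) / 2 ^ 48) := tcu_join n0_2 (TCellU.of_t (Pool.Agent.CXD.tX12_X12_X14_near_g hz hT)) (by norm_num) (by norm_num)
  have h0 : QXS 12 12 14 x0 := qxS_pt (by norm_num) (by norm_num) (by norm_num) hT hX Pool.Agent.Helper81.TK.E_12_12_14_mid.T (hasP (N := 12) (by decide +kernel)) (hasP (N := 12) (by decide +kernel)) (hasP (N := 14) (by decide +kernel)) n0_3
    (by norm_num) (by norm_num) (by norm_num) (FarI_three (p := 12) (lo := 450359962737050) (hi := 537617205517353) (by norm_num) (by norm_num) (by norm_num)) (by norm_num) (by norm_num)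
  exact zf_QS1 (by norm_num) (by norm_num) (by norm_num) hT h0

/-- the triple `(12, 13, 13)` -/
theorem hd_12_13_13 : FinAt 12 13 13 := by
  refine z_12_13_13 fun x0 hX0 hT tB => ?_
  have hX : |2 ^ 48 * x0 - (-((528991923336971 : ℕ) : ℝ))| ≤ ((64 : ℕ) : ℝ) := by simpa using hX0
  have hz := zvX hX
  have n0_0 : TCellU 12 13 13 x0 0 ((2251799813684 : ℕ) / 2 ^ 48) := tcu_sub (TCellU.of_t (Pool.Agent.CXD.tX12_X13_X13_near_B hz hT tB)) (by norm_num) le_rfl
  have n0_1 : TCellU 12 13 13 x0 0 ((8444249301320 : ℕ) / 2 ^ 48) := tcu_join n0_0 (TCellU.of_t (Pool.Agent.CXD.tX12_X13_X13_near_h hz hT)) (by norm_num) (by norm_num)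
  have n0_2 : TCellU 12 13 13 x0 0 ((122160139892424 : ℕ) / 2 ^ 48) := tcu_join n0_1 (TCellU.of_t (Pool.Agent.CXD.tX12_X13_X13_near_g hz hT)) (by norm_num) (by norm_num)
  have h0 : QXS 12 13 13 x0 := qxS_pt (by norm_num) (by norm_num) (by norm_num) hT hX Pool.Agent.Helper81.TK.E_12_13_13_mid.T (hasP (N := 12) (by decide +kernel)) (hasP (N := 13) (by decide +kernel)) (hasP (N := 13) (by decide +kernel)) n0_2
    (by norm_num) (by norm_num) (by norm_num) (FarI_three (p := 12) (lo := 450359962737050) (hi := 537617205517353) (by norm_num) (by norm_num) (by norm_num)) (by norm_num) (by norm_num)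
  exact zf_QS2 (by norm_num) (by norm_num) (by norm_num) hT h0

/-- the triple `(12, 13, 14)` -/
theorem hd_12_13_14 : FinAt 12 13 14 := by
  refine z_12_13_14 fun x0 hX0 hT tB => ?_
  have hX : |2 ^ 48 * x0 - (-((529338595097013 : ℕ) : ℝ))| ≤ ((64 : ℕ) : ℝ) := by simpa using hX0
  have hz := zvX hX
  have n0_0 : TCellU 12 13 14 x0 0 ((1688849860264 : ℕ) / 2 ^ 48) := tcu_sub (TCellU.of_t (Pool.Agent.CXD.tX12_X13_X14_near_Bt hz hT tB)) (by norm_num) le_rfl
  have n0_1 : TCellU 12 13 14 x0 0 ((2251799813684 : ℕ) / 2 ^ 48) := tcu_join n0_0 (TCellU.of_t (Pool.Agent.CXD.tX12_X13_X14_near_B hz hT tB)) (by norm_num) (by norm_num)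
  have n0_2 : TCellU 12 13 14 x0 0 ((8444249301320 : ℕ) / 2 ^ 48) := tcu_join n0_1 (TCellU.of_t (Pool.Agent.CXD.tX12_X13_X14_near_h hz hT)) (by norm_num) (by norm_num)
  have n0_3 : TCellU 12 13 14 x0 0 ((122160139892424 : ℕ) / 2 ^ 48) := tcu_join n0_2 (TCellU.of_t (Pool.Agent.CXD.tX12_X13_X14_near_g hz hT)) (by norm_num) (by norm_num)
  have h0 : QXS 12 13 14 x0 := qxS_pt (by norm_num) (by norm_num) (by norm_num) hT hX Pool.Agent.Helper81.TK.E_12_13_14_mid.T (hasP (N := 12) (by decide +kernel)) (hasP (N := 13) (by decide +kernel)) (hasP (N := 14) (by decide +kernel)) n0_3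
    (by norm_num) (by norm_num) (by norm_num) (FarI_three (p := 12) (lo := 450359962737050) (hi := 537617205517353) (by norm_num) (by norm_num) (by norm_num)) (by norm_num) (by norm_num)
  have n1_0 : TCellU 12 14 13 x0 0 ((949978046400 : ℕ) / 2 ^ 48) := tcu_sub (TCellU.of_t (Pool.Agent.CXD.tX12_X14_X13_near_Bt hz (thr_mir hT) (fB_mi tB))) (by norm_num) le_rfl
  have n1_1 : TCellU 12 14 13 x0 0 ((2251799813684 : ℕ) / 2 ^ 48) := tcu_join n1_0 (TCellU.of_t (Pool.Agent.CXD.tX12_X14_X13_near_B hz (thr_mir hT) (fB_mi tB))) (by norm_num) (by norm_num)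
  have n1_2 : TCellU 12 14 13 x0 0 ((8444249301320 : ℕ) / 2 ^ 48) := tcu_join n1_1 (TCellU.of_t (Pool.Agent.CXD.tX12_X14_X13_near_h hz (thr_mir hT))) (by norm_num) (by norm_num)
  have n1_3 : TCellU 12 14 13 x0 0 ((122160139892424 : ℕ) / 2 ^ 48) := tcu_join n1_2 (TCellU.of_t (Pool.Agent.CXD.tX12_X14_X13_near_g hz (thr_mir hT))) (by norm_num) (by norm_num)
  have h1 : QXS 12 14 13 x0 := qxS_pt (by norm_num) (by norm_num) (by norm_num) (thr_mir hT) hX Pool.Agent.Helper81.TK.E_12_14_13_mid.T (hasP (N := 12) (by decide +kernel)) (hasP (N := 14) (by decide +kernel)) (hasP (N := 13) (by decide +kernel)) n1_3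
    (by norm_num) (by norm_num) (by norm_num) (FarI_three (p := 12) (lo := 450359962737050) (hi := 537617205517353) (by norm_num) (by norm_num) (by norm_num)) (by norm_num) (by norm_num)
  exact zf_QS (by norm_num) (by norm_num) (by norm_num) (by norm_num) hT h0 h1.rot2

/-- the triple `(12, 14, 14)` -/
theorem hd_12_14_14 : FinAt 12 14 14 := by
  refine z_12_14_14 fun x0 hX0 hT tB => ?_
  have hX : |2 ^ 48 * x0 - (-((529689281844237 : ℕ) : ℝ))| ≤ ((64 : ℕ) : ℝ) := by simpa using hX0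
  have hz := zvX hX
  have n0_0 : TCellU 12 14 14 x0 0 ((844424930132 : ℕ) / 2 ^ 48) := tcu_sub (TCellU.of_t (Pool.Agent.CXD.tX12_X14_X14_near_Bt hz hT tB)) (by norm_num) le_rfl
  have n0_1 : TCellU 12 14 14 x0 0 ((2251799813684 : ℕ) / 2 ^ 48) := tcu_join n0_0 (TCellU.of_t (Pool.Agent.CXD.tX12_X14_X14_near_B hz hT tB)) (by norm_num) (by norm_num)
  have n0_2 : TCellU 12 14 14 x0 0 ((8444249301320 : ℕ) / 2 ^ 48) := tcu_join n0_1 (TCellU.of_t (Pool.Agent.CXD.tX12_X14_X14_near_h hz hT)) (by norm_num) (by norm_num)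
  have n0_3 : TCellU 12 14 14 x0 0 ((122160139892424 : ℕ) / 2 ^ 48) := tcu_join n0_2 (TCellU.of_t (Pool.Agent.CXD.tX12_X14_X14_near_g hz hT)) (by norm_num) (by norm_num)
  have h0 : QXS 12 14 14 x0 := qxS_pt (by norm_num) (by norm_num) (by norm_num) hT hX Pool.Agent.Helper81.TK.E_12_14_14_mid.T (hasP (N := 12) (by decide +kernel)) (hasP (N := 14) (by decide +kernel)) (hasP (N := 14) (by decide +kernel)) n0_3
    (by norm_num) (by norm_num) (by norm_num) (FarI_three (p := 12) (lo := 450359962737050) (hi := 537617205517353) (by norm_num) (by norm_num) (by norm_num)) (by norm_num) (by norm_num)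
  exact zf_QS2 (by norm_num) (by norm_num) (by norm_num) hT h0

/-- the triple `(12, 15, 15)` -/
theorem hd_12_15_15 : FinAt 12 15 15 := by
  refine z_12_15_15 fun x0 hX0 hT tB => ?_
  have hX : |2 ^ 48 * x0 - (-((530234377199175 : ℕ) : ℝ))| ≤ ((64 : ℕ) : ℝ) := by simpa using hX0
  have hz := zvX hX
  have n0_0 : TCellU 12 15 15 x0 0 ((2251799813684 : ℕ) / 2 ^ 48) := tcu_sub (TCellU.of_t (Pool.Agent.CXD.tX12_X15_X15_near_B hz hT tB)) (by norm_num) le_rfl
  have n0_1 : TCellU 12 15 15 x0 0 ((8444249301320 : ℕ) / 2 ^ 48) := tcu_join n0_0 (TCellU.of_t (Pool.Agent.CXD.tX12_X15_X15_near_h hz hT)) (by norm_num) (by norm_num)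
  have n0_2 : TCellU 12 15 15 x0 0 ((122160139892424 : ℕ) / 2 ^ 48) := tcu_join n0_1 (TCellU.of_t (Pool.Agent.CXD.tX12_X15_X15_near_g hz hT)) (by norm_num) (by norm_num)
  have h0 : QXS 12 15 15 x0 := qxS_pt (by norm_num) (by norm_num) (by norm_num) hT hX Pool.Agent.Helper81.TK.E_12_15_15_mid.T (hasP (N := 12) (by decide +kernel)) (hasP (N := 15) (by decide +kernel)) (hasP (N := 15) (by decide +kernel)) n0_2
    (by norm_num) (by norm_num) (by norm_num) (FarI_three (p := 12) (lo := 450359962737050) (hi := 537617205517353) (by norm_num) (by norm_num) (by norm_num)) (by norm_num) (by norm_num)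
  exact zf_QS2 (by norm_num) (by norm_num) (by norm_num) hT h0

/-- the triple `(12, 15, 16)` -/
theorem hd_12_15_16 : FinAt 12 15 16 := by
  refine z_12_15_16 fun x0 hX0 hT tB => ?_
  have hX : |2 ^ 48 * x0 - (-((530451038111360 : ℕ) : ℝ))| ≤ ((64 : ℕ) : ℝ) := by simpa using hX0
  have hz := zvX hX
  have n0_0 : TCellU 12 15 16 x0 0 ((949978046400 : ℕ) / 2 ^ 48) := tcu_sub (TCellU.of_t (Pool.Agent.CXD.tX12_X15_X16_near_Bt hz hT tB)) (by norm_num) le_rfl
  have n0_1 : TCellU 12 15 16 x0 0 ((2251799813684 : ℕ) / 2 ^ 48) := tcu_join n0_0 (TCellU.of_t (Pool.Agent.CXD.tX12_X15_X16_near_B hz hT tB)) (by norm_num) (by norm_num)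
  have n0_2 : TCellU 12 15 16 x0 0 ((8444249301320 : ℕ) / 2 ^ 48) := tcu_join n0_1 (TCellU.of_t (Pool.Agent.CXD.tX12_X15_X16_near_h hz hT)) (by norm_num) (by norm_num)
  have n0_3 : TCellU 12 15 16 x0 0 ((122160139892424 : ℕ) / 2 ^ 48) := tcu_join n0_2 (TCellU.of_t (Pool.Agent.CXD.tX12_X15_X16_near_g hz hT)) (by norm_num) (by norm_num)
  have h0 : QXS 12 15 16 x0 := qxS_pt (by norm_num) (by norm_num) (by norm_num) hT hX Pool.Agent.Helper81.TK.E_12_15_16_mid.T (hasP (N := 12) (by decide +kernel)) (hasP (N := 15) (by decide +kernel)) (hasP (N := 16) (by decide +kernel)) n0_3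
    (by norm_num) (by norm_num) (by norm_num) (FarI_three (p := 12) (lo := 450359962737050) (hi := 537617205517353) (by norm_num) (by norm_num) (by norm_num)) (by norm_num) (by norm_num)
  have n1_0 : TCellU 12 16 15 x0 0 ((1266637395196 : ℕ) / 2 ^ 48) := tcu_sub (TCellU.of_t (Pool.Agent.CXD.tX12_X16_X15_near_Bt hz (thr_mir hT) (fB_mi tB))) (by norm_num) le_rfl
  have n1_1 : TCellU 12 16 15 x0 0 ((2251799813684 : ℕ) / 2 ^ 48) := tcu_join n1_0 (TCellU.of_t (Pool.Agent.CXD.tX12_X16_X15_near_B hz (thr_mir hT) (fB_mi tB))) (by norm_num) (by norm_num)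
  have n1_2 : TCellU 12 16 15 x0 0 ((8444249301320 : ℕ) / 2 ^ 48) := tcu_join n1_1 (TCellU.of_t (Pool.Agent.CXD.tX12_X16_X15_near_h hz (thr_mir hT))) (by norm_num) (by norm_num)
  have n1_3 : TCellU 12 16 15 x0 0 ((122160139892424 : ℕ) / 2 ^ 48) := tcu_join n1_2 (TCellU.of_t (Pool.Agent.CXD.tX12_X16_X15_near_g hz (thr_mir hT))) (by norm_num) (by norm_num)
  have h1 : QXS 12 16 15 x0 := qxS_pt (by norm_num) (by norm_num) (by norm_num) (thr_mir hT) hX Pool.Agent.Helper81.TK.E_12_16_15_mid.T (hasP (N := 12) (by decide +kernel)) (hasP (N := 16) (by decide +kernel)) (hasP (N := 15) (by decide +kernel)) n1_3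
    (by norm_num) (by norm_num) (by norm_num) (FarI_three (p := 12) (lo := 450359962737050) (hi := 537617205517353) (by norm_num) (by norm_num) (by norm_num)) (by norm_num) (by norm_num)
  exact zf_QS (by norm_num) (by norm_num) (by norm_num) (by norm_num) hT h0 h1.rot2

end Pool.Agent.Helper81.HD
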