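import Pool.Agent.Helper81.MIT.Top7
import Pool.Agent.Helper81.HD.T12
import Pool.Agent.Helper81.HD.R12_12
import Pool.Agent.Helper81.HD.R12_13
import Pool.Agent.Helper81.HD.R12_14

/-!
The exceptional orders of the class `12`: single triples and rows.
-/

set_option autoImplicit false
noncomputable section
namespace Pool.Agent.Helper81.HD

open Pool.Agent.Helper81.MIT
open Pool.Agent.Helper30.W2 (Dt inT)

theorem hds_12 : HDS 12 := by
  intro q r hq hpq hqr h
  obtain ⟨t, ht, hi⟩ := h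
  simp only [Dt, List.mem_cons, List.not_mem_nil, or_false] at ht
  rcases ht with rfl | rfl | rfl | rfl | rfl
  · have k := inT_b hi
    rcases (by omega : (q = 12 ∧ r = 12) ∨ (q = 12 ∧ r = 13) ∨ (q = 12 ∧ r = 14)) with ⟨rfl, rfl⟩ | ⟨rfl, rfl⟩ | ⟨rfl, rfl⟩
    · exact hd_12_12_12
    · exact hd_12_12_13
    · exact hd_12_12_14
  · have k := inT_b hi
    rcases (by omega : (q = 13 ∧ r = 13) ∨ (q = 13 ∧ r = 14)) with ⟨rfl, rfl⟩ | ⟨rfl, rfl⟩
    · exact hd_12_13_13
    · exact hd_12_13_14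
  · have k := inT_b hi
    rcases (by omega : (q = 14 ∧ r = 14)) with ⟨rfl, rfl⟩
    · exact hd_12_14_14
  · have k := inT_b hi
    rcases (by omega : (q = 15 ∧ r = 15) ∨ (q = 15 ∧ r = 16)) with ⟨rfl, rfl⟩ | ⟨rfl, rfl⟩
    · exact hd_12_15_15
    · exact hd_12_15_16
  · have k := inT_b hi
    rcases (by omega : q = 12 ∨ q = 13 ∨ q = 14) with rfl | rfl | rfl
    · exact R12_12.row_12_12 r (by omega)
    · exact R12_13.row_12_13 r (by omega)
    · exact R12_14.row_12_14 r (by omega)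

end Pool.Agent.Helper81.HD
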