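import Pool.Agent.CXD.M_X13_X13_T_0
import Pool.Agent.CXD.M_X13_X13_T_1
import Pool.Agent.CXD.M_X13_X13_T_2
import Pool.Agent.CXD.M_G13_0
import Pool.Agent.CXD.M_G13_1
import Pool.Agent.CXD.M_G13_2
import Pool.Agent.CXD.M_G13_3
import Pool.Agent.CXD.M_G13_4
import Pool.Agent.CXD.M_G13_5
import Pool.Agent.Helper81.MIT.HDl
import Pool.Agent.Helper81.MIT.PtR2
import Pool.Agent.Helper81.MIT.PtR4
import Pool.Agent.Helper81.MIT.RotF
import Pool.Agent.Helper81.MIT.XPt
import Pool.Agent.Helper81.TK.GS2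

/-!
The exact triples `(13, 13, r)` of the row `(13, 13)`.
-/

set_option autoImplicit false
set_option exponentiation.threshold 4000
noncomputable section
namespace Pool.Agent.Helper81.HD

open Pool.Agent.Helper81.MIT
open Pool.Agent.Helper6.MONO (Thr fB FinAt Kp)
open Pool.Agent.Helper57.U2 (TCellU)
open Pool.Agent.Helper84.ST (QXS)

namespace E13_13_15
/-- the triple `(13, 13, 15)` -/
theorem fe : FinAt 13 13 15 := by
  refine z60_13_13_15 fun x0 hX0 hT tB => ?_
  have hX : |2 ^ 48 * x0 - (-((530081100026736 : ℕ) : ℝ))| ≤ ((64 : ℕ) : ℝ) := by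
    push_cast; exact hX0.trans (by norm_num)
  have hK := kz_pm (M := 15) (K := 550648146272264) (by norm_num) (by norm_num) rfl
  have hz := zvX hX
  have hR : ((530081100026672 : ℕ) : ℝ) ≤ -(2 ^ 48 * x0) ∧ -(2 ^ 48 * x0) ≤ ((530081100026800 : ℕ) : ℝ) := by
    rw [abs_le] at hX0; push_cast; constructor <;> linarith [hX0.1, hX0.2]
  have n0_0 : TCellU 13 13 15 x0 0 ((949978046400 : ℕ) / 2 ^ 48) := tcu_sub (TCellU.of_t (Pool.Agent.CXD.tX13_X13_X15_near_Bt hz hT tB)) (by norm_num) le_rfl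
  have n0_1 : TCellU 13 13 15 x0 0 ((2251799813684 : ℕ) / 2 ^ 48) := tcu_join n0_0 (TCellU.of_t (Pool.Agent.CXD.tX13_X13_X15_near_B hz hT tB)) (by norm_num) (by norm_num)
  have n0_2 : TCellU 13 13 15 x0 0 ((8444249301320 : ℕ) / 2 ^ 48) := tcu_join n0_1 (TCellU.of_t (Pool.Agent.CXD.tX13_X13_X15_near_h hz hT)) (by norm_num) (by norm_num)
  have n0_3 : TCellU 13 13 15 x0 0 ((122160139892424 : ℕ) / 2 ^ 48) := tcu_join n0_2 (TCellU.of_t (Pool.Agent.CXD.tX13_X13_X15_near_g hz hT)) (by norm_num) (by norm_num)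
  have h0 : QXS 13 13 15 x0 :=
    qxS_O (by norm_num) (by norm_num) (by norm_num) hT.gt hT.le (xh_pt (X := 530081100026736) (by decide +kernel) hK.1 hK.2 hX) Pool.Agent.Helper81.TK.E_13_13_T_midB.T (hasP (N := 13) (by decide +kernel)) (hasP (N := 13) (by decide +kernel)) (inB_ok (P := (15, 15)) (b := (550648146034688, 561128881782784)) (by decide +kernel) ⟨le_rfl, Or.inr le_rfl⟩) n0_3
      (by norm_num) (by norm_num) (by norm_num) (far3 (L := 530081100026672) (H := 530081100026800) (by norm_num) (by norm_num) (by norm_num) hR (by norm_num) (by norm_num))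
  exact zf_QS (by norm_num) (by norm_num) (by norm_num) (by norm_num) hT h0 h0
end E13_13_15

namespace E13_13_16
/-- the triple `(13, 13, 16)` -/
theorem fe : FinAt 13 13 16 := by
  refine z60_13_13_16 fun x0 hX0 hT tB => ?_
  have hX : |2 ^ 48 * x0 - (-((530295963241258 : ℕ) : ℝ))| ≤ ((64 : ℕ) : ℝ) := by
    push_cast; exact hX0.trans (by norm_num)
  have hK := kz_pm (M := 16) (K := 552133027919307) (by norm_num) (by norm_num) rfl
  have hz := zvX hX
  have hR : ((530295963241194 : ℕ) : ℝ) ≤ -(2 ^ 48 * x0) ∧ -(2 ^ 48 * x0) ≤ ((530295963241322 : ℕ) : ℝ) := by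
    rw [abs_le] at hX0; push_cast; constructor <;> linarith [hX0.1, hX0.2]
  have n0_0 : TCellU 13 13 16 x0 0 ((2251799813684 : ℕ) / 2 ^ 48) := tcu_sub (TCellU.of_t (Pool.Agent.CXD.tX13_X13_X16_near_B hz hT tB)) (by norm_num) le_rfl
  have n0_1 : TCellU 13 13 16 x0 0 ((8444249301320 : ℕ) / 2 ^ 48) := tcu_join n0_0 (TCellU.of_t (Pool.Agent.CXD.tX13_X13_X16_near_h hz hT)) (by norm_num) (by norm_num)
  have n0_2 : TCellU 13 13 16 x0 0 ((122160139892424 : ℕ) / 2 ^ 48) := tcu_join n0_1 (TCellU.of_t (Pool.Agent.CXD.tX13_X13_X16_near_g hz hT)) (by norm_num) (by norm_num)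
  have h0 : QXS 13 13 16 x0 :=
    qxS_O (by norm_num) (by norm_num) (by norm_num) hT.gt hT.le (xh_pt (X := 530295963241258) (by decide +kernel) hK.1 hK.2 hX) Pool.Agent.Helper81.TK.E_13_13_T_midB.T (hasP (N := 13) (by decide +kernel)) (hasP (N := 13) (by decide +kernel)) (inB_ok (P := (16, 16)) (b := (550648146034688, 561128881782784)) (by decide +kernel) ⟨le_rfl, Or.inr le_rfl⟩) n0_2
      (by norm_num) (by norm_num) (by norm_num) (far3 (L := 530295963241194) (H := 530295963241322) (by norm_num) (by norm_num) (by norm_num) hR (by norm_num) (by norm_num))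
  exact zf_QS (by norm_num) (by norm_num) (by norm_num) (by norm_num) hT h0 h0
end E13_13_16

namespace E13_13_17
/-- the triple `(13, 13, 17)` -/
theorem fe : FinAt 13 13 17 := by
  refine z60_13_13_17 fun x0 hX0 hT tB => ?_
  have hX : |2 ^ 48 * x0 - (-((530469103060617 : ℕ) : ℝ))| ≤ ((64 : ℕ) : ℝ) := by
    push_cast; exact hX0.trans (by norm_num)
  have hK := kz_pm (M := 17) (K := 553364660681455) (by norm_num) (by norm_num) rfl
  have hz := zvX hX
  have hR : ((530469103060553 : ℕ) : ℝ) ≤ -(2 ^ 48 * x0) ∧ -(2 ^ 48 * x0) ≤ ((530469103060681 : ℕ) : ℝ) := by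
    rw [abs_le] at hX0; push_cast; constructor <;> linarith [hX0.1, hX0.2]
  have n0_0 : TCellU 13 13 17 x0 0 ((1688849860264 : ℕ) / 2 ^ 48) := tcu_sub (TCellU.of_t (Pool.Agent.CXD.tX13_X13_X17_near_Bt hz hT tB)) (by norm_num) le_rfl
  have n0_1 : TCellU 13 13 17 x0 0 ((2251799813684 : ℕ) / 2 ^ 48) := tcu_join n0_0 (TCellU.of_t (Pool.Agent.CXD.tX13_X13_X17_near_B hz hT tB)) (by norm_num) (by norm_num)
  have n0_2 : TCellU 13 13 17 x0 0 ((8444249301320 : ℕ) / 2 ^ 48) := tcu_join n0_1 (TCellU.of_t (Pool.Agent.CXD.tX13_X13_X17_near_h hz hT)) (by norm_num) (by norm_num)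
  have n0_3 : TCellU 13 13 17 x0 0 ((122160139892424 : ℕ) / 2 ^ 48) := tcu_join n0_2 (TCellU.of_t (Pool.Agent.CXD.tX13_X13_X17_near_g hz hT)) (by norm_num) (by norm_num)
  have h0 : QXS 13 13 17 x0 :=
    qxS_O (by norm_num) (by norm_num) (by norm_num) hT.gt hT.le (xh_pt (X := 530469103060617) (by decide +kernel) hK.1 hK.2 hX) Pool.Agent.Helper81.TK.E_13_13_T_midB.T (hasP (N := 13) (by decide +kernel)) (hasP (N := 13) (by decide +kernel)) (inB_ok (P := (17, 17)) (b := (550648146034688, 561128881782784)) (by decide +kernel) ⟨le_rfl, Or.inr le_rfl⟩) n0_3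
      (by norm_num) (by norm_num) (by norm_num) (far3 (L := 530469103060553) (H := 530469103060681) (by norm_num) (by norm_num) (by norm_num) hR (by norm_num) (by norm_num))
  exact zf_QS (by norm_num) (by norm_num) (by norm_num) (by norm_num) hT h0 h0
end E13_13_17

namespace E13_13_18
/-- the triple `(13, 13, 18)` -/
theorem fe : FinAt 13 13 18 := by
  refine z60_13_13_18 fun x0 hX0 hT tB => ?_
  have hX : |2 ^ 48 * x0 - (-((530610830954608 : ℕ) : ℝ))| ≤ ((64 : ℕ) : ℝ) := by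
    push_cast; exact hX0.trans (by norm_num)
  have hK := kz_pm (M := 18) (K := 554397478687169) (by norm_num) (by norm_num) rfl
  have hz := zvX hX
  have hR : ((530610830954544 : ℕ) : ℝ) ≤ -(2 ^ 48 * x0) ∧ -(2 ^ 48 * x0) ≤ ((530610830954672 : ℕ) : ℝ) := by
    rw [abs_le] at hX0; push_cast; constructor <;> linarith [hX0.1, hX0.2]
  have n0_0 : TCellU 13 13 18 x0 0 ((1688849860264 : ℕ) / 2 ^ 48) := tcu_sub (TCellU.of_t (Pool.Agent.CXD.tX13_X13_X18_near_Bt hz hT tB)) (by norm_num) le_rfl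
  have n0_1 : TCellU 13 13 18 x0 0 ((2251799813684 : ℕ) / 2 ^ 48) := tcu_join n0_0 (TCellU.of_t (Pool.Agent.CXD.tX13_X13_X18_near_B hz hT tB)) (by norm_num) (by norm_num)
  have n0_2 : TCellU 13 13 18 x0 0 ((8444249301320 : ℕ) / 2 ^ 48) := tcu_join n0_1 (TCellU.of_t (Pool.Agent.CXD.tX13_X13_X18_near_h hz hT)) (by norm_num) (by norm_num)
  have n0_3 : TCellU 13 13 18 x0 0 ((122160139892424 : ℕ) / 2 ^ 48) := tcu_join n0_2 (TCellU.of_t (Pool.Agent.CXD.tX13_X13_X18_near_g hz hT)) (by norm_num) (by norm_num)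
  have h0 : QXS 13 13 18 x0 :=
    qxS_O (by norm_num) (by norm_num) (by norm_num) hT.gt hT.le (xh_pt (X := 530610830954608) (by decide +kernel) hK.1 hK.2 hX) Pool.Agent.Helper81.TK.E_13_13_T_midB.T (hasP (N := 13) (by decide +kernel)) (hasP (N := 13) (by decide +kernel)) (inB_ok (P := (18, 18)) (b := (550648146034688, 561128881782784)) (by decide +kernel) ⟨le_rfl, Or.inr le_rfl⟩) n0_3
      (by norm_num) (by norm_num) (by norm_num) (far3 (L := 530610830954544) (H := 530610830954672) (by norm_num) (by norm_num) (by norm_num) hR (by norm_num) (by norm_num))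
  exact zf_QS (by norm_num) (by norm_num) (by norm_num) (by norm_num) hT h0 h0
end E13_13_18

namespace E13_13_19
/-- the triple `(13, 13, 19)` -/
theorem fe : FinAt 13 13 19 := by
  refine z60_13_13_19 fun x0 hX0 hT tB => ?_
  have hX : |2 ^ 48 * x0 - (-((530728422421504 : ℕ) : ℝ))| ≤ ((64 : ℕ) : ℝ) := by
    push_cast; exact hX0.trans (by norm_num)
  have hK := kz_pm (M := 19) (K := 555272049807147) (by norm_num) (by norm_num) rfl
  have hz := zvX hX
  have hR : ((530728422421440 : ℕ) : ℝ) ≤ -(2 ^ 48 * x0) ∧ -(2 ^ 48 * x0) ≤ ((530728422421568 : ℕ) : ℝ) := by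
    rw [abs_le] at hX0; push_cast; constructor <;> linarith [hX0.1, hX0.2]
  have n0_0 : TCellU 13 13 19 x0 0 ((2251799813684 : ℕ) / 2 ^ 48) := tcu_sub (TCellU.of_t (Pool.Agent.CXD.tX13_X13_X19_near_B hz hT tB)) (by norm_num) le_rfl
  have n0_1 : TCellU 13 13 19 x0 0 ((8444249301320 : ℕ) / 2 ^ 48) := tcu_join n0_0 (TCellU.of_t (Pool.Agent.CXD.tX13_X13_X19_near_h hz hT)) (by norm_num) (by norm_num)
  have n0_2 : TCellU 13 13 19 x0 0 ((122160139892424 : ℕ) / 2 ^ 48) := tcu_join n0_1 (TCellU.of_t (Pool.Agent.CXD.tX13_X13_X19_near_g hz hT)) (by norm_num) (by norm_num)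
  have h0 : QXS 13 13 19 x0 :=
    qxS_O (by norm_num) (by norm_num) (by norm_num) hT.gt hT.le (xh_pt (X := 530728422421504) (by decide +kernel) hK.1 hK.2 hX) Pool.Agent.Helper81.TK.E_13_13_T_midB.T (hasP (N := 13) (by decide +kernel)) (hasP (N := 13) (by decide +kernel)) (inB_ok (P := (19, 19)) (b := (550648146034688, 561128881782784)) (by decide +kernel) ⟨le_rfl, Or.inr le_rfl⟩) n0_2
      (by norm_num) (by norm_num) (by norm_num) (far3 (L := 530728422421440) (H := 530728422421568) (by norm_num) (by norm_num) (by norm_num) hR (by norm_num) (by norm_num))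
  exact zf_QS (by norm_num) (by norm_num) (by norm_num) (by norm_num) hT h0 h0
end E13_13_19

namespace E13_13_20
/-- the triple `(13, 13, 20)` -/
theorem fe : FinAt 13 13 20 := by
  refine z60_13_13_20 fun x0 hX0 hT tB => ?_
  have hX : |2 ^ 48 * x0 - (-((530827139099825 : ℕ) : ℝ))| ≤ ((64 : ℕ) : ℝ) := by
    push_cast; exact hX0.trans (by norm_num)
  have hK := kz_pm (M := 20) (K := 556019105332806) (by norm_num) (by norm_num) rfl
  have hz := zvX hX
  have hR : ((530827139099761 : ℕ) : ℝ) ≤ -(2 ^ 48 * x0) ∧ -(2 ^ 48 * x0) ≤ ((530827139099889 : ℕ) : ℝ) := by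
    rw [abs_le] at hX0; push_cast; constructor <;> linarith [hX0.1, hX0.2]
  have n0_0 : TCellU 13 13 20 x0 0 ((2251799813684 : ℕ) / 2 ^ 48) := tcu_sub (TCellU.of_t (Pool.Agent.CXD.tX13_X13_X20_near_B hz hT tB)) (by norm_num) le_rfl
  have n0_1 : TCellU 13 13 20 x0 0 ((8444249301320 : ℕ) / 2 ^ 48) := tcu_join n0_0 (TCellU.of_t (Pool.Agent.CXD.tX13_X13_X20_near_h hz hT)) (by norm_num) (by norm_num)
  have n0_2 : TCellU 13 13 20 x0 0 ((122160139892424 : ℕ) / 2 ^ 48) := tcu_join n0_1 (TCellU.of_t (Pool.Agent.CXD.tX13_X13_X20_near_g hz hT)) (by norm_num) (by norm_num)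
  have h0 : QXS 13 13 20 x0 :=
    qxS_O (by norm_num) (by norm_num) (by norm_num) hT.gt hT.le (xh_pt (X := 530827139099825) (by decide +kernel) hK.1 hK.2 hX) Pool.Agent.Helper81.TK.E_13_13_T_midB.T (hasP (N := 13) (by decide +kernel)) (hasP (N := 13) (by decide +kernel)) (inB_ok (P := (20, 20)) (b := (550648146034688, 561128881782784)) (by decide +kernel) ⟨le_rfl, Or.inr le_rfl⟩) n0_2
      (by norm_num) (by norm_num) (by norm_num) (far3 (L := 530827139099761) (H := 530827139099889) (by norm_num) (by norm_num) (by norm_num) hR (by norm_num) (by norm_num))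
  exact zf_QS (by norm_num) (by norm_num) (by norm_num) (by norm_num) hT h0 h0
end E13_13_20

namespace E13_13_21
/-- the triple `(13, 13, 21)` -/
theorem fe : FinAt 13 13 21 := by
  refine z60_13_13_21 fun x0 hX0 hT tB => ?_
  have hX : |2 ^ 48 * x0 - (-((530910868077600 : ℕ) : ℝ))| ≤ ((64 : ℕ) : ℝ) := by
    push_cast; exact hX0.trans (by norm_num)
  have hK := kz_pm (M := 21) (K := 556662267564994) (by norm_num) (by norm_num) rfl
  have hz := zvX hX
  have hR : ((530910868077536 : ℕ) : ℝ) ≤ -(2 ^ 48 * x0) ∧ -(2 ^ 48 * x0) ≤ ((530910868077664 : ℕ) : ℝ) := by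
    rw [abs_le] at hX0; push_cast; constructor <;> linarith [hX0.1, hX0.2]
  have n0_0 : TCellU 13 13 21 x0 0 ((2251799813684 : ℕ) / 2 ^ 48) := tcu_sub (TCellU.of_t (Pool.Agent.CXD.tX13_X13_X21_near_B hz hT tB)) (by norm_num) le_rfl
  have n0_1 : TCellU 13 13 21 x0 0 ((8444249301320 : ℕ) / 2 ^ 48) := tcu_join n0_0 (TCellU.of_t (Pool.Agent.CXD.tX13_X13_X21_near_h hz hT)) (by norm_num) (by norm_num)
  have n0_2 : TCellU 13 13 21 x0 0 ((122160139892424 : ℕ) / 2 ^ 48) := tcu_join n0_1 (TCellU.of_t (Pool.Agent.CXD.tX13_X13_X21_near_g hz hT)) (by norm_num) (by norm_num)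
  have h0 : QXS 13 13 21 x0 :=
    qxS_O (by norm_num) (by norm_num) (by norm_num) hT.gt hT.le (xh_pt (X := 530910868077600) (by decide +kernel) hK.1 hK.2 hX) Pool.Agent.Helper81.TK.E_13_13_T_midB.T (hasP (N := 13) (by decide +kernel)) (hasP (N := 13) (by decide +kernel)) (inB_ok (P := (21, 21)) (b := (550648146034688, 561128881782784)) (by decide +kernel) ⟨le_rfl, Or.inr le_rfl⟩) n0_2
      (by norm_num) (by norm_num) (by norm_num) (far3 (L := 530910868077536) (H := 530910868077664) (by norm_num) (by norm_num) (by norm_num) hR (by norm_num) (by norm_num))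
  exact zf_QS (by norm_num) (by norm_num) (by norm_num) (by norm_num) hT h0 h0
end E13_13_21

namespace E13_13_22
/-- the triple `(13, 13, 22)` -/
theorem fe : FinAt 13 13 22 := by
  refine z60_13_13_22 fun x0 hX0 hT tB => ?_
  have hX : |2 ^ 48 * x0 - (-((530982534813139 : ℕ) : ℝ))| ≤ ((64 : ℕ) : ℝ) := by
    push_cast; exact hX0.trans (by norm_num)
  have hK := kz_pm (M := 22) (K := 557219934602287) (by norm_num) (by norm_num) rfl
  have hz := zvX hX
  have hR : ((530982534813075 : ℕ) : ℝ) ≤ -(2 ^ 48 * x0) ∧ -(2 ^ 48 * x0) ≤ ((530982534813203 : ℕ) : ℝ) := by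
    rw [abs_le] at hX0; push_cast; constructor <;> linarith [hX0.1, hX0.2]
  have n0_0 : TCellU 13 13 22 x0 0 ((2251799813684 : ℕ) / 2 ^ 48) := tcu_sub (TCellU.of_t (Pool.Agent.CXD.tX13_X13_X22_near_B hz hT tB)) (by norm_num) le_rfl
  have n0_1 : TCellU 13 13 22 x0 0 ((8444249301320 : ℕ) / 2 ^ 48) := tcu_join n0_0 (TCellU.of_t (Pool.Agent.CXD.tX13_X13_X22_near_h hz hT)) (by norm_num) (by norm_num)
  have n0_2 : TCellU 13 13 22 x0 0 ((122160139892424 : ℕ) / 2 ^ 48) := tcu_join n0_1 (TCellU.of_t (Pool.Agent.CXD.tX13_X13_X22_near_g hz hT)) (by norm_num) (by norm_num)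
  have h0 : QXS 13 13 22 x0 :=
    qxS_O (by norm_num) (by norm_num) (by norm_num) hT.gt hT.le (xh_pt (X := 530982534813139) (by decide +kernel) hK.1 hK.2 hX) Pool.Agent.Helper81.TK.E_13_13_T_midB.T (hasP (N := 13) (by decide +kernel)) (hasP (N := 13) (by decide +kernel)) (inB_ok (P := (22, 22)) (b := (550648146034688, 561128881782784)) (by decide +kernel) ⟨le_rfl, Or.inr le_rfl⟩) n0_2
      (by norm_num) (by norm_num) (by norm_num) (far3 (L := 530982534813075) (H := 530982534813203) (by norm_num) (by norm_num) (by norm_num) hR (by norm_num) (by norm_num))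
  exact zf_QS (by norm_num) (by norm_num) (by norm_num) (by norm_num) hT h0 h0
end E13_13_22

namespace E13_13_23
/-- the triple `(13, 13, 23)` -/
theorem fe : FinAt 13 13 23 := by
  refine z60_13_13_23 fun x0 hX0 hT tB => ?_
  have hX : |2 ^ 48 * x0 - (-((531044377346227 : ℕ) : ℝ))| ≤ ((64 : ℕ) : ℝ) := by
    push_cast; exact hX0.trans (by norm_num)
  have hK := kz_pm (M := 23) (K := 557706607176301) (by norm_num) (by norm_num) rfl
  have hz := zvX hX
  have hR : ((531044377346163 : ℕ) : ℝ) ≤ -(2 ^ 48 * x0) ∧ -(2 ^ 48 * x0) ≤ ((531044377346291 : ℕ) : ℝ) := by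
    rw [abs_le] at hX0; push_cast; constructor <;> linarith [hX0.1, hX0.2]
  have n0_0 : TCellU 13 13 23 x0 0 ((2251799813684 : ℕ) / 2 ^ 48) := tcu_sub (TCellU.of_t (Pool.Agent.CXD.tX13_X13_X23_near_B hz hT tB)) (by norm_num) le_rfl
  have n0_1 : TCellU 13 13 23 x0 0 ((8444249301320 : ℕ) / 2 ^ 48) := tcu_join n0_0 (TCellU.of_t (Pool.Agent.CXD.tX13_X13_X23_near_h hz hT)) (by norm_num) (by norm_num)
  have n0_2 : TCellU 13 13 23 x0 0 ((122160139892424 : ℕ) / 2 ^ 48) := tcu_join n0_1 (TCellU.of_t (Pool.Agent.CXD.tX13_X13_X23_near_g hz hT)) (by norm_num) (by norm_num)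
  have h0 : QXS 13 13 23 x0 :=
    qxS_O (by norm_num) (by norm_num) (by norm_num) hT.gt hT.le (xh_pt (X := 531044377346227) (by decide +kernel) hK.1 hK.2 hX) Pool.Agent.Helper81.TK.E_13_13_T_midB.T (hasP (N := 13) (by decide +kernel)) (hasP (N := 13) (by decide +kernel)) (inB_ok (P := (23, 23)) (b := (550648146034688, 561128881782784)) (by decide +kernel) ⟨le_rfl, Or.inr le_rfl⟩) n0_2
      (by norm_num) (by norm_num) (by norm_num) (far3 (L := 531044377346163) (H := 531044377346291) (by norm_num) (by norm_num) (by norm_num) hR (by norm_num) (by norm_num))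
  exact zf_QS (by norm_num) (by norm_num) (by norm_num) (by norm_num) hT h0 h0
end E13_13_23

namespace E13_13_24
/-- the triple `(13, 13, 24)` -/
theorem fe : FinAt 13 13 24 := by
  refine z60_13_13_24 fun x0 hX0 hT tB => ?_
  have hX : |2 ^ 48 * x0 - (-((531098132876667 : ℕ) : ℝ))| ≤ ((64 : ℕ) : ℝ) := by
    push_cast; exact hX0.trans (by norm_num)
  have hK := kz_pm (M := 24) (K := 558133838530186) (by norm_num) (by norm_num) rfl
  have hz := zvX hX
  have hR : ((531098132876603 : ℕ) : ℝ) ≤ -(2 ^ 48 * x0) ∧ -(2 ^ 48 * x0) ≤ ((531098132876731 : ℕ) : ℝ) := by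
    rw [abs_le] at hX0; push_cast; constructor <;> linarith [hX0.1, hX0.2]
  have n0_0 : TCellU 13 13 24 x0 0 ((2251799813684 : ℕ) / 2 ^ 48) := tcu_sub (TCellU.of_t (Pool.Agent.CXD.tX13_X13_X24_near_B hz hT tB)) (by norm_num) le_rfl
  have n0_1 : TCellU 13 13 24 x0 0 ((8444249301320 : ℕ) / 2 ^ 48) := tcu_join n0_0 (TCellU.of_t (Pool.Agent.CXD.tX13_X13_X24_near_h hz hT)) (by norm_num) (by norm_num)
  have n0_2 : TCellU 13 13 24 x0 0 ((122160139892424 : ℕ) / 2 ^ 48) := tcu_join n0_1 (TCellU.of_t (Pool.Agent.CXD.tX13_X13_X24_near_g hz hT)) (by norm_num) (by norm_num)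
  have h0 : QXS 13 13 24 x0 :=
    qxS_O (by norm_num) (by norm_num) (by norm_num) hT.gt hT.le (xh_pt (X := 531098132876667) (by decide +kernel) hK.1 hK.2 hX) Pool.Agent.Helper81.TK.E_13_13_T_midB.T (hasP (N := 13) (by decide +kernel)) (hasP (N := 13) (by decide +kernel)) (inB_ok (P := (24, 24)) (b := (550648146034688, 561128881782784)) (by decide +kernel) ⟨le_rfl, Or.inr le_rfl⟩) n0_2
      (by norm_num) (by norm_num) (by norm_num) (far3 (L := 531098132876603) (H := 531098132876731) (by norm_num) (by norm_num) (by norm_num) hR (by norm_num) (by norm_num))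
  exact zf_QS (by norm_num) (by norm_num) (by norm_num) (by norm_num) hT h0 h0
end E13_13_24

namespace E13_13_25
/-- the triple `(13, 13, 25)` -/
theorem fe : FinAt 13 13 25 := by
  refine z60_13_13_25 fun x0 hX0 hT tB => ?_
  have hX : |2 ^ 48 * x0 - (-((531145167472738 : ℕ) : ℝ))| ≤ ((64 : ℕ) : ℝ) := by
    push_cast; exact hX0.trans (by norm_num)
  have hK := kz_pm (M := 25) (K := 558510924893584) (by norm_num) (by norm_num) rfl
  have hR : ((531145167472674 : ℕ) : ℝ) ≤ -(2 ^ 48 * x0) ∧ -(2 ^ 48 * x0) ≤ ((531145167472802 : ℕ) : ℝ) := by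
    rw [abs_le] at hX0; push_cast; constructor <;> linarith [hX0.1, hX0.2]
  have n0_0 : TCellU 13 13 25 x0 0 ((56294995344 : ℕ) / 2 ^ 48) := tcu_sub (Pool.Agent.CXD.tX13X13T_nearBz0 (inB_ok (P := (25, 25)) (b := (558510921482240, 559143490682880)) (by decide +kernel) ⟨le_rfl, Or.inr le_rfl⟩) (xh_pt (X := 531145167472738) (by decide +kernel) hK.1 hK.2 hX) hT tB) (by norm_num) le_rfl
  have n0_1 : TCellU 13 13 25 x0 0 ((124135618896 : ℕ) / 2 ^ 48) := tcu_join n0_0 (Pool.Agent.CXD.tX13X13T_nearBe1g (inB_ok (P := (25, 25)) (b := (558510924627968, 558845415129088)) (by decide +kernel) ⟨le_rfl, Or.inr le_rfl⟩) (xh_pt (X := 531145167472738) (by decide +kernel) hK.1 hK.2 hX) hT tB) (by norm_num) (by norm_num)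
  have n0_2 : TCellU 13 13 25 x0 0 ((1195982335036 : ℕ) / 2 ^ 48) := tcu_join n0_1 (Pool.Agent.CXD.tX13X13T_nearBeg (inB_ok (P := (25, 25)) (b := (558510924627968, 559853728694272)) (by decide +kernel) ⟨le_rfl, Or.inr le_rfl⟩) (xh_pt (X := 531145167472738) (by decide +kernel) hK.1 hK.2 hX) hT tB) (by norm_num) (by norm_num)
  have n0_3 : TCellU 13 13 25 x0 0 ((8951897540176 : ℕ) / 2 ^ 48) := tcu_join n0_2 (Pool.Agent.CXD.tX13X13T_nearBdg (inB_ok (P := (25, 25)) (b := (558510924627968, 559853728694272)) (by decide +kernel) ⟨le_rfl, Or.inr le_rfl⟩) (xh_pt (X := 531145167472738) (by decide +kernel) hK.1 hK.2 hX) hT tB) (by norm_num) (by norm_num)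
  have n0_4 : TCellU 13 13 25 x0 0 ((9844202489744 : ℕ) / 2 ^ 48) := tcu_join n0_3 (Pool.Agent.CXD.tX13X13T_nearBc (inB_ok (P := (25, 25)) (b := (558510924627968, 561124502929408)) (by decide +kernel) ⟨le_rfl, Or.inr le_rfl⟩) (xh_pt (X := 531145167472738) (by decide +kernel) hK.1 hK.2 hX) hT tB) (by norm_num) (by norm_num)
  have n0_5 : TCellU 13 13 25 x0 0 ((19703248369744 : ℕ) / 2 ^ 48) := tcu_join n0_4 (Pool.Agent.CXD.tX13X13T_nearBb (inB_ok (P := (25, 25)) (b := (558510924627968, 561125065752576)) (by decide +kernel) ⟨le_rfl, Or.inr le_rfl⟩) (xh_pt (X := 531145167472738) (by decide +kernel) hK.1 hK.2 hX) hT tB) (by norm_num) (by norm_num)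
  have n0_6 : TCellU 13 13 25 x0 0 ((122160139892424 : ℕ) / 2 ^ 48) := tcu_join n0_5 (Pool.Agent.CXD.tX13X13T_nearBa (inB_ok (P := (25, 25)) (b := (558510924627968, 561125065752576)) (by decide +kernel) ⟨le_rfl, Or.inr le_rfl⟩) (xh_pt (X := 531145167472738) (by decide +kernel) hK.1 hK.2 hX) hT) (by norm_num) (by norm_num)
  have h0 : QXS 13 13 25 x0 :=
    qxS_O (by norm_num) (by norm_num) (by norm_num) hT.gt hT.le (xh_pt (X := 531145167472738) (by decide +kernel) hK.1 hK.2 hX) Pool.Agent.Helper81.TK.E_13_13_T_midB.T (hasP (N := 13) (by decide +kernel)) (hasP (N := 13) (by decide +kernel)) (inB_ok (P := (25, 25)) (b := (550648146034688, 561128881782784)) (by decide +kernel) ⟨le_rfl, Or.inr le_rfl⟩) n0_6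
      (by norm_num) (by norm_num) (by norm_num) (far3 (L := 531145167472674) (H := 531145167472802) (by norm_num) (by norm_num) (by norm_num) hR (by norm_num) (by norm_num))
  exact zf_QS (by norm_num) (by norm_num) (by norm_num) (by norm_num) hT h0 h0
end E13_13_25

namespace E13_13_26
/-- the triple `(13, 13, 26)` -/
theorem fe : FinAt 13 13 26 := by
  refine z60_13_13_26 fun x0 hX0 hT tB => ?_
  have hX : |2 ^ 48 * x0 - (-((531186567986248 : ℕ) : ℝ))| ≤ ((64 : ℕ) : ℝ) := by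
    push_cast; exact hX0.trans (by norm_num)
  have hK := kz_pm (M := 26) (K := 558845414434423) (by norm_num) (by norm_num) rfl
  have hR : ((531186567986184 : ℕ) : ℝ) ≤ -(2 ^ 48 * x0) ∧ -(2 ^ 48 * x0) ≤ ((531186567986312 : ℕ) : ℝ) := by
    rw [abs_le] at hX0; push_cast; constructor <;> linarith [hX0.1, hX0.2]
  have n0_0 : TCellU 13 13 26 x0 0 ((56294995344 : ℕ) / 2 ^ 48) := tcu_sub (Pool.Agent.CXD.tX13X13T_nearBz0 (inB_ok (P := (26, 26)) (b := (558510921482240, 559143490682880)) (by decide +kernel) ⟨le_rfl, Or.inr le_rfl⟩) (xh_pt (X := 531186567986248) (by decide +kernel) hK.1 hK.2 hX) hT tB) (by norm_num) le_rfl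
  have n0_1 : TCellU 13 13 26 x0 0 ((124135618896 : ℕ) / 2 ^ 48) := tcu_join n0_0 (Pool.Agent.CXD.tX13X13T_nearBe1g (inB_ok (P := (26, 26)) (b := (558510924627968, 558845415129088)) (by decide +kernel) ⟨le_rfl, Or.inr le_rfl⟩) (xh_pt (X := 531186567986248) (by decide +kernel) hK.1 hK.2 hX) hT tB) (by norm_num) (by norm_num)
  have n0_2 : TCellU 13 13 26 x0 0 ((1195982335036 : ℕ) / 2 ^ 48) := tcu_join n0_1 (Pool.Agent.CXD.tX13X13T_nearBeg (inB_ok (P := (26, 26)) (b := (558510924627968, 559853728694272)) (by decide +kernel) ⟨le_rfl, Or.inr le_rfl⟩) (xh_pt (X := 531186567986248) (by decide +kernel) hK.1 hK.2 hX) hT tB) (by norm_num) (by norm_num)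
  have n0_3 : TCellU 13 13 26 x0 0 ((8951897540176 : ℕ) / 2 ^ 48) := tcu_join n0_2 (Pool.Agent.CXD.tX13X13T_nearBdg (inB_ok (P := (26, 26)) (b := (558510924627968, 559853728694272)) (by decide +kernel) ⟨le_rfl, Or.inr le_rfl⟩) (xh_pt (X := 531186567986248) (by decide +kernel) hK.1 hK.2 hX) hT tB) (by norm_num) (by norm_num)
  have n0_4 : TCellU 13 13 26 x0 0 ((9844202489744 : ℕ) / 2 ^ 48) := tcu_join n0_3 (Pool.Agent.CXD.tX13X13T_nearBc (inB_ok (P := (26, 26)) (b := (558510924627968, 561124502929408)) (by decide +kernel) ⟨le_rfl, Or.inr le_rfl⟩) (xh_pt (X := 531186567986248) (by decide +kernel) hK.1 hK.2 hX) hT tB) (by norm_num) (by norm_num)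
  have n0_5 : TCellU 13 13 26 x0 0 ((19703248369744 : ℕ) / 2 ^ 48) := tcu_join n0_4 (Pool.Agent.CXD.tX13X13T_nearBb (inB_ok (P := (26, 26)) (b := (558510924627968, 561125065752576)) (by decide +kernel) ⟨le_rfl, Or.inr le_rfl⟩) (xh_pt (X := 531186567986248) (by decide +kernel) hK.1 hK.2 hX) hT tB) (by norm_num) (by norm_num)
  have n0_6 : TCellU 13 13 26 x0 0 ((122160139892424 : ℕ) / 2 ^ 48) := tcu_join n0_5 (Pool.Agent.CXD.tX13X13T_nearBa (inB_ok (P := (26, 26)) (b := (558510924627968, 561125065752576)) (by decide +kernel) ⟨le_rfl, Or.inr le_rfl⟩) (xh_pt (X := 531186567986248) (by decide +kernel) hK.1 hK.2 hX) hT) (by norm_num) (by norm_num)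
  have h0 : QXS 13 13 26 x0 :=
    qxS_O (by norm_num) (by norm_num) (by norm_num) hT.gt hT.le (xh_pt (X := 531186567986248) (by decide +kernel) hK.1 hK.2 hX) Pool.Agent.Helper81.TK.E_13_13_T_midB.T (hasP (N := 13) (by decide +kernel)) (hasP (N := 13) (by decide +kernel)) (inB_ok (P := (26, 26)) (b := (550648146034688, 561128881782784)) (by decide +kernel) ⟨le_rfl, Or.inr le_rfl⟩) n0_6
      (by norm_num) (by norm_num) (by norm_num) (far3 (L := 531186567986184) (H := 531186567986312) (by norm_num) (by norm_num) (by norm_num) hR (by norm_num) (by norm_num))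
  exact zf_QS (by norm_num) (by norm_num) (by norm_num) (by norm_num) hT h0 h0
end E13_13_26

namespace E13_13_27
/-- the triple `(13, 13, 27)` -/
theorem fe : FinAt 13 13 27 := by
  refine z60_13_13_27 fun x0 hX0 hT tB => ?_
  have hX : |2 ^ 48 * x0 - (-((531223208314022 : ℕ) : ℝ))| ≤ ((64 : ℕ) : ℝ) := by
    push_cast; exact hX0.trans (by norm_num)
  have hK := kz_pm (M := 27) (K := 559143487227087) (by norm_num) (by norm_num) rfl
  have hR : ((531223208313958 : ℕ) : ℝ) ≤ -(2 ^ 48 * x0) ∧ -(2 ^ 48 * x0) ≤ ((531223208314086 : ℕ) : ℝ) := by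
    rw [abs_le] at hX0; push_cast; constructor <;> linarith [hX0.1, hX0.2]
  have n0_0 : TCellU 13 13 27 x0 0 ((56294995344 : ℕ) / 2 ^ 48) := tcu_sub (Pool.Agent.CXD.tX13X13T_nearBz0 (inB_ok (P := (27, 27)) (b := (558510921482240, 559143490682880)) (by decide +kernel) ⟨le_rfl, Or.inr le_rfl⟩) (xh_pt (X := 531223208314022) (by decide +kernel) hK.1 hK.2 hX) hT tB) (by norm_num) le_rfl
  have n0_1 : TCellU 13 13 27 x0 0 ((124135618896 : ℕ) / 2 ^ 48) := tcu_join n0_0 (Pool.Agent.CXD.tX13X13T_nearBe2g (inB_ok (P := (27, 27)) (b := (559143486488576, 559649917239296)) (by decide +kernel) ⟨le_rfl, Or.inr le_rfl⟩) (xh_pt (X := 531223208314022) (by decide +kernel) hK.1 hK.2 hX) hT tB) (by norm_num) (by norm_num)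
  have n0_2 : TCellU 13 13 27 x0 0 ((1195982335036 : ℕ) / 2 ^ 48) := tcu_join n0_1 (Pool.Agent.CXD.tX13X13T_nearBeg (inB_ok (P := (27, 27)) (b := (558510924627968, 559853728694272)) (by decide +kernel) ⟨le_rfl, Or.inr le_rfl⟩) (xh_pt (X := 531223208314022) (by decide +kernel) hK.1 hK.2 hX) hT tB) (by norm_num) (by norm_num)
  have n0_3 : TCellU 13 13 27 x0 0 ((8951897540176 : ℕ) / 2 ^ 48) := tcu_join n0_2 (Pool.Agent.CXD.tX13X13T_nearBdg (inB_ok (P := (27, 27)) (b := (558510924627968, 559853728694272)) (by decide +kernel) ⟨le_rfl, Or.inr le_rfl⟩) (xh_pt (X := 531223208314022) (by decide +kernel) hK.1 hK.2 hX) hT tB) (by norm_num) (by norm_num)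
  have n0_4 : TCellU 13 13 27 x0 0 ((9844202489744 : ℕ) / 2 ^ 48) := tcu_join n0_3 (Pool.Agent.CXD.tX13X13T_nearBc (inB_ok (P := (27, 27)) (b := (558510924627968, 561124502929408)) (by decide +kernel) ⟨le_rfl, Or.inr le_rfl⟩) (xh_pt (X := 531223208314022) (by decide +kernel) hK.1 hK.2 hX) hT tB) (by norm_num) (by norm_num)
  have n0_5 : TCellU 13 13 27 x0 0 ((19703248369744 : ℕ) / 2 ^ 48) := tcu_join n0_4 (Pool.Agent.CXD.tX13X13T_nearBb (inB_ok (P := (27, 27)) (b := (558510924627968, 561125065752576)) (by decide +kernel) ⟨le_rfl, Or.inr le_rfl⟩) (xh_pt (X := 531223208314022) (by decide +kernel) hK.1 hK.2 hX) hT tB) (by norm_num) (by norm_num)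
  have n0_6 : TCellU 13 13 27 x0 0 ((122160139892424 : ℕ) / 2 ^ 48) := tcu_join n0_5 (Pool.Agent.CXD.tX13X13T_nearBa (inB_ok (P := (27, 27)) (b := (558510924627968, 561125065752576)) (by decide +kernel) ⟨le_rfl, Or.inr le_rfl⟩) (xh_pt (X := 531223208314022) (by decide +kernel) hK.1 hK.2 hX) hT) (by norm_num) (by norm_num)
  have h0 : QXS 13 13 27 x0 :=
    qxS_O (by norm_num) (by norm_num) (by norm_num) hT.gt hT.le (xh_pt (X := 531223208314022) (by decide +kernel) hK.1 hK.2 hX) Pool.Agent.Helper81.TK.E_13_13_T_midB.T (hasP (N := 13) (by decide +kernel)) (hasP (N := 13) (by decide +kernel)) (inB_ok (P := (27, 27)) (b := (550648146034688, 561128881782784)) (by decide +kernel) ⟨le_rfl, Or.inr le_rfl⟩) n0_6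
      (by norm_num) (by norm_num) (by norm_num) (far3 (L := 531223208313958) (H := 531223208314086) (by norm_num) (by norm_num) (by norm_num) hR (by norm_num) (by norm_num))
  exact zf_QS (by norm_num) (by norm_num) (by norm_num) (by norm_num) hT h0 h0
end E13_13_27

namespace E13_13_28
/-- the triple `(13, 13, 28)` -/
theorem fe : FinAt 13 13 28 := by
  refine z60_13_13_28 fun x0 hX0 hT tB => ?_
  have hX : |2 ^ 48 * x0 - (-((531255797911640 : ℕ) : ℝ))| ≤ ((64 : ℕ) : ℝ) := by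
    push_cast; exact hX0.trans (by norm_num)
  have hK := kz_pm (M := 28) (K := 559410242273590) (by norm_num) (by norm_num) rfl
  have hR : ((531255797911576 : ℕ) : ℝ) ≤ -(2 ^ 48 * x0) ∧ -(2 ^ 48 * x0) ≤ ((531255797911704 : ℕ) : ℝ) := by
    rw [abs_le] at hX0; push_cast; constructor <;> linarith [hX0.1, hX0.2]
  have n0_0 : TCellU 13 13 28 x0 0 ((56294995344 : ℕ) / 2 ^ 48) := tcu_sub (Pool.Agent.CXD.tX13X13T_nearBz1 (inB_ok (P := (28, 28)) (b := (559410238717952, 559866058113024)) (by decide +kernel) ⟨le_rfl, Or.inr le_rfl⟩) (xh_pt (X := 531255797911640) (by decide +kernel) hK.1 hK.2 hX) hT tB) (by norm_num) le_rfl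
  have n0_1 : TCellU 13 13 28 x0 0 ((124135618896 : ℕ) / 2 ^ 48) := tcu_join n0_0 (Pool.Agent.CXD.tX13X13T_nearBe2g (inB_ok (P := (28, 28)) (b := (559143486488576, 559649917239296)) (by decide +kernel) ⟨le_rfl, Or.inr le_rfl⟩) (xh_pt (X := 531255797911640) (by decide +kernel) hK.1 hK.2 hX) hT tB) (by norm_num) (by norm_num)
  have n0_2 : TCellU 13 13 28 x0 0 ((1195982335036 : ℕ) / 2 ^ 48) := tcu_join n0_1 (Pool.Agent.CXD.tX13X13T_nearBeg (inB_ok (P := (28, 28)) (b := (558510924627968, 559853728694272)) (by decide +kernel) ⟨le_rfl, Or.inr le_rfl⟩) (xh_pt (X := 531255797911640) (by decide +kernel) hK.1 hK.2 hX) hT tB) (by norm_num) (by norm_num)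
  have n0_3 : TCellU 13 13 28 x0 0 ((8951897540176 : ℕ) / 2 ^ 48) := tcu_join n0_2 (Pool.Agent.CXD.tX13X13T_nearBdg (inB_ok (P := (28, 28)) (b := (558510924627968, 559853728694272)) (by decide +kernel) ⟨le_rfl, Or.inr le_rfl⟩) (xh_pt (X := 531255797911640) (by decide +kernel) hK.1 hK.2 hX) hT tB) (by norm_num) (by norm_num)
  have n0_4 : TCellU 13 13 28 x0 0 ((9844202489744 : ℕ) / 2 ^ 48) := tcu_join n0_3 (Pool.Agent.CXD.tX13X13T_nearBc (inB_ok (P := (28, 28)) (b := (558510924627968, 561124502929408)) (by decide +kernel) ⟨le_rfl, Or.inr le_rfl⟩) (xh_pt (X := 531255797911640) (by decide +kernel) hK.1 hK.2 hX) hT tB) (by norm_num) (by norm_num)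
  have n0_5 : TCellU 13 13 28 x0 0 ((19703248369744 : ℕ) / 2 ^ 48) := tcu_join n0_4 (Pool.Agent.CXD.tX13X13T_nearBb (inB_ok (P := (28, 28)) (b := (558510924627968, 561125065752576)) (by decide +kernel) ⟨le_rfl, Or.inr le_rfl⟩) (xh_pt (X := 531255797911640) (by decide +kernel) hK.1 hK.2 hX) hT tB) (by norm_num) (by norm_num)
  have n0_6 : TCellU 13 13 28 x0 0 ((122160139892424 : ℕ) / 2 ^ 48) := tcu_join n0_5 (Pool.Agent.CXD.tX13X13T_nearBa (inB_ok (P := (28, 28)) (b := (558510924627968, 561125065752576)) (by decide +kernel) ⟨le_rfl, Or.inr le_rfl⟩) (xh_pt (X := 531255797911640) (by decide +kernel) hK.1 hK.2 hX) hT) (by norm_num) (by norm_num)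
  have h0 : QXS 13 13 28 x0 :=
    qxS_O (by norm_num) (by norm_num) (by norm_num) hT.gt hT.le (xh_pt (X := 531255797911640) (by decide +kernel) hK.1 hK.2 hX) Pool.Agent.Helper81.TK.E_13_13_T_midB.T (hasP (N := 13) (by decide +kernel)) (hasP (N := 13) (by decide +kernel)) (inB_ok (P := (28, 28)) (b := (550648146034688, 561128881782784)) (by decide +kernel) ⟨le_rfl, Or.inr le_rfl⟩) n0_6
      (by norm_num) (by norm_num) (by norm_num) (far3 (L := 531255797911576) (H := 531255797911704) (by norm_num) (by norm_num) (by norm_num) hR (by norm_num) (by norm_num))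
  exact zf_QS (by norm_num) (by norm_num) (by norm_num) (by norm_num) hT h0 h0
end E13_13_28

namespace E13_13_29
/-- the triple `(13, 13, 29)` -/
theorem fe : FinAt 13 13 29 := by
  refine z60_13_13_29 fun x0 hX0 hT tB => ?_
  have hX : |2 ^ 48 * x0 - (-((531284917815943 : ℕ) : ℝ))| ≤ ((64 : ℕ) : ℝ) := by
    push_cast; exact hX0.trans (by norm_num)
  have hK := kz_pm (M := 29) (K := 559649916674405) (by norm_num) (by norm_num) rfl
  have hR : ((531284917815879 : ℕ) : ℝ) ≤ -(2 ^ 48 * x0) ∧ -(2 ^ 48 * x0) ≤ ((531284917816007 : ℕ) : ℝ) := by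
    rw [abs_le] at hX0; push_cast; constructor <;> linarith [hX0.1, hX0.2]
  have n0_0 : TCellU 13 13 29 x0 0 ((56294995344 : ℕ) / 2 ^ 48) := tcu_sub (Pool.Agent.CXD.tX13X13T_nearBz1 (inB_ok (P := (29, 29)) (b := (559410238717952, 559866058113024)) (by decide +kernel) ⟨le_rfl, Or.inr le_rfl⟩) (xh_pt (X := 531284917815943) (by decide +kernel) hK.1 hK.2 hX) hT tB) (by norm_num) le_rfl
  have n0_1 : TCellU 13 13 29 x0 0 ((124135618896 : ℕ) / 2 ^ 48) := tcu_join n0_0 (Pool.Agent.CXD.tX13X13T_nearBe2g (inB_ok (P := (29, 29)) (b := (559143486488576, 559649917239296)) (by decide +kernel) ⟨le_rfl, Or.inr le_rfl⟩) (xh_pt (X := 531284917815943) (by decide +kernel) hK.1 hK.2 hX) hT tB) (by norm_num) (by norm_num)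
  have n0_2 : TCellU 13 13 29 x0 0 ((1195982335036 : ℕ) / 2 ^ 48) := tcu_join n0_1 (Pool.Agent.CXD.tX13X13T_nearBeg (inB_ok (P := (29, 29)) (b := (558510924627968, 559853728694272)) (by decide +kernel) ⟨le_rfl, Or.inr le_rfl⟩) (xh_pt (X := 531284917815943) (by decide +kernel) hK.1 hK.2 hX) hT tB) (by norm_num) (by norm_num)
  have n0_3 : TCellU 13 13 29 x0 0 ((8951897540176 : ℕ) / 2 ^ 48) := tcu_join n0_2 (Pool.Agent.CXD.tX13X13T_nearBdg (inB_ok (P := (29, 29)) (b := (558510924627968, 559853728694272)) (by decide +kernel) ⟨le_rfl, Or.inr le_rfl⟩) (xh_pt (X := 531284917815943) (by decide +kernel) hK.1 hK.2 hX) hT tB) (by norm_num) (by norm_num)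
  have n0_4 : TCellU 13 13 29 x0 0 ((9844202489744 : ℕ) / 2 ^ 48) := tcu_join n0_3 (Pool.Agent.CXD.tX13X13T_nearBc (inB_ok (P := (29, 29)) (b := (558510924627968, 561124502929408)) (by decide +kernel) ⟨le_rfl, Or.inr le_rfl⟩) (xh_pt (X := 531284917815943) (by decide +kernel) hK.1 hK.2 hX) hT tB) (by norm_num) (by norm_num)
  have n0_5 : TCellU 13 13 29 x0 0 ((19703248369744 : ℕ) / 2 ^ 48) := tcu_join n0_4 (Pool.Agent.CXD.tX13X13T_nearBb (inB_ok (P := (29, 29)) (b := (558510924627968, 561125065752576)) (by decide +kernel) ⟨le_rfl, Or.inr le_rfl⟩) (xh_pt (X := 531284917815943) (by decide +kernel) hK.1 hK.2 hX) hT tB) (by norm_num) (by norm_num)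
  have n0_6 : TCellU 13 13 29 x0 0 ((122160139892424 : ℕ) / 2 ^ 48) := tcu_join n0_5 (Pool.Agent.CXD.tX13X13T_nearBa (inB_ok (P := (29, 29)) (b := (558510924627968, 561125065752576)) (by decide +kernel) ⟨le_rfl, Or.inr le_rfl⟩) (xh_pt (X := 531284917815943) (by decide +kernel) hK.1 hK.2 hX) hT) (by norm_num) (by norm_num)
  have h0 : QXS 13 13 29 x0 :=
    qxS_O (by norm_num) (by norm_num) (by norm_num) hT.gt hT.le (xh_pt (X := 531284917815943) (by decide +kernel) hK.1 hK.2 hX) Pool.Agent.Helper81.TK.E_13_13_T_midB.T (hasP (N := 13) (by decide +kernel)) (hasP (N := 13) (by decide +kernel)) (inB_ok (P := (29, 29)) (b := (550648146034688, 561128881782784)) (by decide +kernel) ⟨le_rfl, Or.inr le_rfl⟩) n0_6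
      (by norm_num) (by norm_num) (by norm_num) (far3 (L := 531284917815879) (H := 531284917816007) (by norm_num) (by norm_num) (by norm_num) hR (by norm_num) (by norm_num))
  exact zf_QS (by norm_num) (by norm_num) (by norm_num) (by norm_num) hT h0 h0
end E13_13_29

namespace E13_13_30
/-- the triple `(13, 13, 30)` -/
theorem fe : FinAt 13 13 30 := by
  refine z60_13_13_30 fun x0 hX0 hT tB => ?_
  have hX : |2 ^ 48 * x0 - (-((531311047737522 : ℕ) : ℝ))| ≤ ((64 : ℕ) : ℝ) := by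
    push_cast; exact hX0.trans (by norm_num)
  have hK := kz_pm (M := 30) (K := 559866054674044) (by norm_num) (by norm_num) rfl
  have hR : ((531311047737458 : ℕ) : ℝ) ≤ -(2 ^ 48 * x0) ∧ -(2 ^ 48 * x0) ≤ ((531311047737586 : ℕ) : ℝ) := by
    rw [abs_le] at hX0; push_cast; constructor <;> linarith [hX0.1, hX0.2]
  have n0_0 : TCellU 13 13 30 x0 0 ((56294995344 : ℕ) / 2 ^ 48) := tcu_sub (Pool.Agent.CXD.tX13X13T_nearBz1 (inB_ok (P := (30, 30)) (b := (559410238717952, 559866058113024)) (by decide +kernel) ⟨le_rfl, Or.inr le_rfl⟩) (xh_pt (X := 531311047737522) (by decide +kernel) hK.1 hK.2 hX) hT tB) (by norm_num) le_rfl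
  have n0_1 : TCellU 13 13 30 x0 0 ((97789149976 : ℕ) / 2 ^ 48) := tcu_join n0_0 (Pool.Agent.CXD.tX13X13T_nearBg1 (inB_ok (P := (30, 30)) (b := (559866053918720, 560548508860416)) (by decide +kernel) ⟨le_rfl, Or.inr le_rfl⟩) (xh_pt (X := 531311047737522) (by decide +kernel) hK.1 hK.2 hX) hT tB) (by norm_num) (by norm_num)
  have n0_2 : TCellU 13 13 30 x0 0 ((849498037068 : ℕ) / 2 ^ 48) := tcu_join n0_1 (Pool.Agent.CXD.tX13X13T_nearBgg (inB_ok (P := (30, 30)) (b := (559853728432128, 561124502929408)) (by decide +kernel) ⟨le_rfl, Or.inr le_rfl⟩) (xh_pt (X := 531311047737522) (by decide +kernel) hK.1 hK.2 hX) hT tB) (by norm_num) (by norm_num)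
  have n0_3 : TCellU 13 13 30 x0 0 ((8951897540176 : ℕ) / 2 ^ 48) := tcu_join n0_2 (Pool.Agent.CXD.tX13X13T_nearBfg (inB_ok (P := (30, 30)) (b := (559853728432128, 561124502929408)) (by decide +kernel) ⟨le_rfl, Or.inr le_rfl⟩) (xh_pt (X := 531311047737522) (by decide +kernel) hK.1 hK.2 hX) hT tB) (by norm_num) (by norm_num)
  have n0_4 : TCellU 13 13 30 x0 0 ((9844202489744 : ℕ) / 2 ^ 48) := tcu_join n0_3 (Pool.Agent.CXD.tX13X13T_nearBc (inB_ok (P := (30, 30)) (b := (558510924627968, 561124502929408)) (by decide +kernel) ⟨le_rfl, Or.inr le_rfl⟩) (xh_pt (X := 531311047737522) (by decide +kernel) hK.1 hK.2 hX) hT tB) (by norm_num) (by norm_num)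
  have n0_5 : TCellU 13 13 30 x0 0 ((19703248369744 : ℕ) / 2 ^ 48) := tcu_join n0_4 (Pool.Agent.CXD.tX13X13T_nearBb (inB_ok (P := (30, 30)) (b := (558510924627968, 561125065752576)) (by decide +kernel) ⟨le_rfl, Or.inr le_rfl⟩) (xh_pt (X := 531311047737522) (by decide +kernel) hK.1 hK.2 hX) hT tB) (by norm_num) (by norm_num)
  have n0_6 : TCellU 13 13 30 x0 0 ((122160139892424 : ℕ) / 2 ^ 48) := tcu_join n0_5 (Pool.Agent.CXD.tX13X13T_nearBa (inB_ok (P := (30, 30)) (b := (558510924627968, 561125065752576)) (by decide +kernel) ⟨le_rfl, Or.inr le_rfl⟩) (xh_pt (X := 531311047737522) (by decide +kernel) hK.1 hK.2 hX) hT) (by norm_num) (by norm_num)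
  have h0 : QXS 13 13 30 x0 :=
    qxS_O (by norm_num) (by norm_num) (by norm_num) hT.gt hT.le (xh_pt (X := 531311047737522) (by decide +kernel) hK.1 hK.2 hX) Pool.Agent.Helper81.TK.E_13_13_T_midB.T (hasP (N := 13) (by decide +kernel)) (hasP (N := 13) (by decide +kernel)) (inB_ok (P := (30, 30)) (b := (550648146034688, 561128881782784)) (by decide +kernel) ⟨le_rfl, Or.inr le_rfl⟩) n0_6
      (by norm_num) (by norm_num) (by norm_num) (far3 (L := 531311047737458) (H := 531311047737586) (by norm_num) (by norm_num) (by norm_num) hR (by norm_num) (by norm_num))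
  exact zf_QS (by norm_num) (by norm_num) (by norm_num) (by norm_num) hT h0 h0
end E13_13_30

namespace E13_13_31
/-- the triple `(13, 13, 31)` -/
theorem fe : FinAt 13 13 31 := by
  refine z60_13_13_31 fun x0 hX0 hT tB => ?_
  have hX : |2 ^ 48 * x0 - (-((531334586677462 : ℕ) : ℝ))| ≤ ((64 : ℕ) : ℝ) := by
    push_cast; exact hX0.trans (by norm_num)
  have hK := kz_pm (M := 31) (K := 560061639263760) (by norm_num) (by norm_num) rfl
  have hR : ((531334586677398 : ℕ) : ℝ) ≤ -(2 ^ 48 * x0) ∧ -(2 ^ 48 * x0) ≤ ((531334586677526 : ℕ) : ℝ) := by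
    rw [abs_le] at hX0; push_cast; constructor <;> linarith [hX0.1, hX0.2]
  have n0_0 : TCellU 13 13 31 x0 0 ((56294995344 : ℕ) / 2 ^ 48) := tcu_sub (Pool.Agent.CXD.tX13X13T_nearBz2 (inB_ok (P := (31, 31)) (b := (560061635624960, 560400875913216)) (by decide +kernel) ⟨le_rfl, Or.inr le_rfl⟩) (xh_pt (X := 531334586677462) (by decide +kernel) hK.1 hK.2 hX) hT tB) (by norm_num) le_rfl
  have n0_1 : TCellU 13 13 31 x0 0 ((97789149976 : ℕ) / 2 ^ 48) := tcu_join n0_0 (Pool.Agent.CXD.tX13X13T_nearBg1 (inB_ok (P := (31, 31)) (b := (559866053918720, 560548508860416)) (by decide +kernel) ⟨le_rfl, Or.inr le_rfl⟩) (xh_pt (X := 531334586677462) (by decide +kernel) hK.1 hK.2 hX) hT tB) (by norm_num) (by norm_num)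
  have n0_2 : TCellU 13 13 31 x0 0 ((849498037068 : ℕ) / 2 ^ 48) := tcu_join n0_1 (Pool.Agent.CXD.tX13X13T_nearBgg (inB_ok (P := (31, 31)) (b := (559853728432128, 561124502929408)) (by decide +kernel) ⟨le_rfl, Or.inr le_rfl⟩) (xh_pt (X := 531334586677462) (by decide +kernel) hK.1 hK.2 hX) hT tB) (by norm_num) (by norm_num)
  have n0_3 : TCellU 13 13 31 x0 0 ((8951897540176 : ℕ) / 2 ^ 48) := tcu_join n0_2 (Pool.Agent.CXD.tX13X13T_nearBfg (inB_ok (P := (31, 31)) (b := (559853728432128, 561124502929408)) (by decide +kernel) ⟨le_rfl, Or.inr le_rfl⟩) (xh_pt (X := 531334586677462) (by decide +kernel) hK.1 hK.2 hX) hT tB) (by norm_num) (by norm_num)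
  have n0_4 : TCellU 13 13 31 x0 0 ((9844202489744 : ℕ) / 2 ^ 48) := tcu_join n0_3 (Pool.Agent.CXD.tX13X13T_nearBc (inB_ok (P := (31, 31)) (b := (558510924627968, 561124502929408)) (by decide +kernel) ⟨le_rfl, Or.inr le_rfl⟩) (xh_pt (X := 531334586677462) (by decide +kernel) hK.1 hK.2 hX) hT tB) (by norm_num) (by norm_num)
  have n0_5 : TCellU 13 13 31 x0 0 ((19703248369744 : ℕ) / 2 ^ 48) := tcu_join n0_4 (Pool.Agent.CXD.tX13X13T_nearBb (inB_ok (P := (31, 31)) (b := (558510924627968, 561125065752576)) (by decide +kernel) ⟨le_rfl, Or.inr le_rfl⟩) (xh_pt (X := 531334586677462) (by decide +kernel) hK.1 hK.2 hX) hT tB) (by norm_num) (by norm_num)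
  have n0_6 : TCellU 13 13 31 x0 0 ((122160139892424 : ℕ) / 2 ^ 48) := tcu_join n0_5 (Pool.Agent.CXD.tX13X13T_nearBa (inB_ok (P := (31, 31)) (b := (558510924627968, 561125065752576)) (by decide +kernel) ⟨le_rfl, Or.inr le_rfl⟩) (xh_pt (X := 531334586677462) (by decide +kernel) hK.1 hK.2 hX) hT) (by norm_num) (by norm_num)
  have h0 : QXS 13 13 31 x0 :=
    qxS_O (by norm_num) (by norm_num) (by norm_num) hT.gt hT.le (xh_pt (X := 531334586677462) (by decide +kernel) hK.1 hK.2 hX) Pool.Agent.Helper81.TK.E_13_13_T_midB.T (hasP (N := 13) (by decide +kernel)) (hasP (N := 13) (by decide +kernel)) (inB_ok (P := (31, 31)) (b := (550648146034688, 561128881782784)) (by decide +kernel) ⟨le_rfl, Or.inr le_rfl⟩) n0_6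
      (by norm_num) (by norm_num) (by norm_num) (far3 (L := 531334586677398) (H := 531334586677526) (by norm_num) (by norm_num) (by norm_num) hR (by norm_num) (by norm_num))
  exact zf_QS (by norm_num) (by norm_num) (by norm_num) (by norm_num) hT h0 h0
end E13_13_31

namespace E13_13_32
/-- the triple `(13, 13, 32)` -/
theorem fe : FinAt 13 13 32 := by
  refine z60_13_13_32 fun x0 hX0 hT tB => ?_
  have hX : |2 ^ 48 * x0 - (-((531355868786311 : ℕ) : ℝ))| ≤ ((64 : ℕ) : ℝ) := by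
    push_cast; exact hX0.trans (by norm_num)
  have hK := kz_pm (M := 32) (K := 560239195525714) (by norm_num) (by norm_num) rfl
  have hR : ((531355868786247 : ℕ) : ℝ) ≤ -(2 ^ 48 * x0) ∧ -(2 ^ 48 * x0) ≤ ((531355868786375 : ℕ) : ℝ) := by
    rw [abs_le] at hX0; push_cast; constructor <;> linarith [hX0.1, hX0.2]
  have n0_0 : TCellU 13 13 32 x0 0 ((56294995344 : ℕ) / 2 ^ 48) := tcu_sub (Pool.Agent.CXD.tX13X13T_nearBz2 (inB_ok (P := (32, 32)) (b := (560061635624960, 560400875913216)) (by decide +kernel) ⟨le_rfl, Or.inr le_rfl⟩) (xh_pt (X := 531355868786311) (by decide +kernel) hK.1 hK.2 hX) hT tB) (by norm_num) le_rfl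
  have n0_1 : TCellU 13 13 32 x0 0 ((97789149976 : ℕ) / 2 ^ 48) := tcu_join n0_0 (Pool.Agent.CXD.tX13X13T_nearBg1 (inB_ok (P := (32, 32)) (b := (559866053918720, 560548508860416)) (by decide +kernel) ⟨le_rfl, Or.inr le_rfl⟩) (xh_pt (X := 531355868786311) (by decide +kernel) hK.1 hK.2 hX) hT tB) (by norm_num) (by norm_num)
  have n0_2 : TCellU 13 13 32 x0 0 ((849498037068 : ℕ) / 2 ^ 48) := tcu_join n0_1 (Pool.Agent.CXD.tX13X13T_nearBgg (inB_ok (P := (32, 32)) (b := (559853728432128, 561124502929408)) (by decide +kernel) ⟨le_rfl, Or.inr le_rfl⟩) (xh_pt (X := 531355868786311) (by decide +kernel) hK.1 hK.2 hX) hT tB) (by norm_num) (by norm_num)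
  have n0_3 : TCellU 13 13 32 x0 0 ((8951897540176 : ℕ) / 2 ^ 48) := tcu_join n0_2 (Pool.Agent.CXD.tX13X13T_nearBfg (inB_ok (P := (32, 32)) (b := (559853728432128, 561124502929408)) (by decide +kernel) ⟨le_rfl, Or.inr le_rfl⟩) (xh_pt (X := 531355868786311) (by decide +kernel) hK.1 hK.2 hX) hT tB) (by norm_num) (by norm_num)
  have n0_4 : TCellU 13 13 32 x0 0 ((9844202489744 : ℕ) / 2 ^ 48) := tcu_join n0_3 (Pool.Agent.CXD.tX13X13T_nearBc (inB_ok (P := (32, 32)) (b := (558510924627968, 561124502929408)) (by decide +kernel) ⟨le_rfl, Or.inr le_rfl⟩) (xh_pt (X := 531355868786311) (by decide +kernel) hK.1 hK.2 hX) hT tB) (by norm_num) (by norm_num)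
  have n0_5 : TCellU 13 13 32 x0 0 ((19703248369744 : ℕ) / 2 ^ 48) := tcu_join n0_4 (Pool.Agent.CXD.tX13X13T_nearBb (inB_ok (P := (32, 32)) (b := (558510924627968, 561125065752576)) (by decide +kernel) ⟨le_rfl, Or.inr le_rfl⟩) (xh_pt (X := 531355868786311) (by decide +kernel) hK.1 hK.2 hX) hT tB) (by norm_num) (by norm_num)
  have n0_6 : TCellU 13 13 32 x0 0 ((122160139892424 : ℕ) / 2 ^ 48) := tcu_join n0_5 (Pool.Agent.CXD.tX13X13T_nearBa (inB_ok (P := (32, 32)) (b := (558510924627968, 561125065752576)) (by decide +kernel) ⟨le_rfl, Or.inr le_rfl⟩) (xh_pt (X := 531355868786311) (by decide +kernel) hK.1 hK.2 hX) hT) (by norm_num) (by norm_num)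
  have h0 : QXS 13 13 32 x0 :=
    qxS_O (by norm_num) (by norm_num) (by norm_num) hT.gt hT.le (xh_pt (X := 531355868786311) (by decide +kernel) hK.1 hK.2 hX) Pool.Agent.Helper81.TK.E_13_13_T_midB.T (hasP (N := 13) (by decide +kernel)) (hasP (N := 13) (by decide +kernel)) (inB_ok (P := (32, 32)) (b := (550648146034688, 561128881782784)) (by decide +kernel) ⟨le_rfl, Or.inr le_rfl⟩) n0_6
      (by norm_num) (by norm_num) (by norm_num) (far3 (L := 531355868786247) (H := 531355868786375) (by norm_num) (by norm_num) (by norm_num) hR (by norm_num) (by norm_num))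
  exact zf_QS (by norm_num) (by norm_num) (by norm_num) (by norm_num) hT h0 h0
end E13_13_32

namespace E13_13_33
/-- the triple `(13, 13, 33)` -/
theorem fe : FinAt 13 13 33 := by
  refine z60_13_13_33 fun x0 hX0 hT tB => ?_
  have hX : |2 ^ 48 * x0 - (-((531375175685188 : ℕ) : ℝ))| ≤ ((64 : ℕ) : ℝ) := by
    push_cast; exact hX0.trans (by norm_num)
  have hK := kz_pm (M := 33) (K := 560400872444742) (by norm_num) (by norm_num) rfl
  have hR : ((531375175685124 : ℕ) : ℝ) ≤ -(2 ^ 48 * x0) ∧ -(2 ^ 48 * x0) ≤ ((531375175685252 : ℕ) : ℝ) := by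
    rw [abs_le] at hX0; push_cast; constructor <;> linarith [hX0.1, hX0.2]
  have n0_0 : TCellU 13 13 33 x0 0 ((56294995344 : ℕ) / 2 ^ 48) := tcu_sub (Pool.Agent.CXD.tX13X13T_nearBz2 (inB_ok (P := (33, 33)) (b := (560061635624960, 560400875913216)) (by decide +kernel) ⟨le_rfl, Or.inr le_rfl⟩) (xh_pt (X := 531375175685188) (by decide +kernel) hK.1 hK.2 hX) hT tB) (by norm_num) le_rfl
  have n0_1 : TCellU 13 13 33 x0 0 ((97789149976 : ℕ) / 2 ^ 48) := tcu_join n0_0 (Pool.Agent.CXD.tX13X13T_nearBg1 (inB_ok (P := (33, 33)) (b := (559866053918720, 560548508860416)) (by decide +kernel) ⟨le_rfl, Or.inr le_rfl⟩) (xh_pt (X := 531375175685188) (by decide +kernel) hK.1 hK.2 hX) hT tB) (by norm_num) (by norm_num)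
  have n0_2 : TCellU 13 13 33 x0 0 ((849498037068 : ℕ) / 2 ^ 48) := tcu_join n0_1 (Pool.Agent.CXD.tX13X13T_nearBgg (inB_ok (P := (33, 33)) (b := (559853728432128, 561124502929408)) (by decide +kernel) ⟨le_rfl, Or.inr le_rfl⟩) (xh_pt (X := 531375175685188) (by decide +kernel) hK.1 hK.2 hX) hT tB) (by norm_num) (by norm_num)
  have n0_3 : TCellU 13 13 33 x0 0 ((8951897540176 : ℕ) / 2 ^ 48) := tcu_join n0_2 (Pool.Agent.CXD.tX13X13T_nearBfg (inB_ok (P := (33, 33)) (b := (559853728432128, 561124502929408)) (by decide +kernel) ⟨le_rfl, Or.inr le_rfl⟩) (xh_pt (X := 531375175685188) (by decide +kernel) hK.1 hK.2 hX) hT tB) (by norm_num) (by norm_num)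
  have n0_4 : TCellU 13 13 33 x0 0 ((9844202489744 : ℕ) / 2 ^ 48) := tcu_join n0_3 (Pool.Agent.CXD.tX13X13T_nearBc (inB_ok (P := (33, 33)) (b := (558510924627968, 561124502929408)) (by decide +kernel) ⟨le_rfl, Or.inr le_rfl⟩) (xh_pt (X := 531375175685188) (by decide +kernel) hK.1 hK.2 hX) hT tB) (by norm_num) (by norm_num)
  have n0_5 : TCellU 13 13 33 x0 0 ((19703248369744 : ℕ) / 2 ^ 48) := tcu_join n0_4 (Pool.Agent.CXD.tX13X13T_nearBb (inB_ok (P := (33, 33)) (b := (558510924627968, 561125065752576)) (by decide +kernel) ⟨le_rfl, Or.inr le_rfl⟩) (xh_pt (X := 531375175685188) (by decide +kernel) hK.1 hK.2 hX) hT tB) (by norm_num) (by norm_num)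
  have n0_6 : TCellU 13 13 33 x0 0 ((122160139892424 : ℕ) / 2 ^ 48) := tcu_join n0_5 (Pool.Agent.CXD.tX13X13T_nearBa (inB_ok (P := (33, 33)) (b := (558510924627968, 561125065752576)) (by decide +kernel) ⟨le_rfl, Or.inr le_rfl⟩) (xh_pt (X := 531375175685188) (by decide +kernel) hK.1 hK.2 hX) hT) (by norm_num) (by norm_num)
  have h0 : QXS 13 13 33 x0 :=
    qxS_O (by norm_num) (by norm_num) (by norm_num) hT.gt hT.le (xh_pt (X := 531375175685188) (by decide +kernel) hK.1 hK.2 hX) Pool.Agent.Helper81.TK.E_13_13_T_midB.T (hasP (N := 13) (by decide +kernel)) (hasP (N := 13) (by decide +kernel)) (inB_ok (P := (33, 33)) (b := (550648146034688, 561128881782784)) (by decide +kernel) ⟨le_rfl, Or.inr le_rfl⟩) n0_6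
      (by norm_num) (by norm_num) (by norm_num) (far3 (L := 531375175685124) (H := 531375175685252) (by norm_num) (by norm_num) (by norm_num) hR (by norm_num) (by norm_num))
  exact zf_QS (by norm_num) (by norm_num) (by norm_num) (by norm_num) hT h0 h0
end E13_13_33

namespace E13_13_34
/-- the triple `(13, 13, 34)` -/
theorem fe : FinAt 13 13 34 := by
  refine z60_13_13_34 fun x0 hX0 hT tB => ?_
  have hX : |2 ^ 48 * x0 - (-((531392746126795 : ℕ) : ℝ))| ≤ ((64 : ℕ) : ℝ) := by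
    push_cast; exact hX0.trans (by norm_num)
  have hK := kz_pm (M := 34) (K := 560548508165298) (by norm_num) (by norm_num) rfl
  have hR : ((531392746126731 : ℕ) : ℝ) ≤ -(2 ^ 48 * x0) ∧ -(2 ^ 48 * x0) ≤ ((531392746126859 : ℕ) : ℝ) := by
    rw [abs_le] at hX0; push_cast; constructor <;> linarith [hX0.1, hX0.2]
  have n0_0 : TCellU 13 13 34 x0 0 ((56294995344 : ℕ) / 2 ^ 48) := tcu_sub (Pool.Agent.CXD.tX13X13T_nearBy0 (inB_ok (P := (34, 34)) (b := (560532642856960, 560807763509248)) (by decide +kernel) ⟨le_rfl, Or.inr le_rfl⟩) (xh_pt (X := 531392746126795) (by decide +kernel) hK.1 hK.2 hX) hT tB) (by norm_num) le_rfl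
  have n0_1 : TCellU 13 13 34 x0 0 ((97789149976 : ℕ) / 2 ^ 48) := tcu_join n0_0 (Pool.Agent.CXD.tX13X13T_nearBg1 (inB_ok (P := (34, 34)) (b := (559866053918720, 560548508860416)) (by decide +kernel) ⟨le_rfl, Or.inr le_rfl⟩) (xh_pt (X := 531392746126795) (by decide +kernel) hK.1 hK.2 hX) hT tB) (by norm_num) (by norm_num)
  have n0_2 : TCellU 13 13 34 x0 0 ((849498037068 : ℕ) / 2 ^ 48) := tcu_join n0_1 (Pool.Agent.CXD.tX13X13T_nearBgg (inB_ok (P := (34, 34)) (b := (559853728432128, 561124502929408)) (by decide +kernel) ⟨le_rfl, Or.inr le_rfl⟩) (xh_pt (X := 531392746126795) (by decide +kernel) hK.1 hK.2 hX) hT tB) (by norm_num) (by norm_num)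
  have n0_3 : TCellU 13 13 34 x0 0 ((8951897540176 : ℕ) / 2 ^ 48) := tcu_join n0_2 (Pool.Agent.CXD.tX13X13T_nearBfg (inB_ok (P := (34, 34)) (b := (559853728432128, 561124502929408)) (by decide +kernel) ⟨le_rfl, Or.inr le_rfl⟩) (xh_pt (X := 531392746126795) (by decide +kernel) hK.1 hK.2 hX) hT tB) (by norm_num) (by norm_num)
  have n0_4 : TCellU 13 13 34 x0 0 ((9844202489744 : ℕ) / 2 ^ 48) := tcu_join n0_3 (Pool.Agent.CXD.tX13X13T_nearBc (inB_ok (P := (34, 34)) (b := (558510924627968, 561124502929408)) (by decide +kernel) ⟨le_rfl, Or.inr le_rfl⟩) (xh_pt (X := 531392746126795) (by decide +kernel) hK.1 hK.2 hX) hT tB) (by norm_num) (by norm_num)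
  have n0_5 : TCellU 13 13 34 x0 0 ((19703248369744 : ℕ) / 2 ^ 48) := tcu_join n0_4 (Pool.Agent.CXD.tX13X13T_nearBb (inB_ok (P := (34, 34)) (b := (558510924627968, 561125065752576)) (by decide +kernel) ⟨le_rfl, Or.inr le_rfl⟩) (xh_pt (X := 531392746126795) (by decide +kernel) hK.1 hK.2 hX) hT tB) (by norm_num) (by norm_num)
  have n0_6 : TCellU 13 13 34 x0 0 ((122160139892424 : ℕ) / 2 ^ 48) := tcu_join n0_5 (Pool.Agent.CXD.tX13X13T_nearBa (inB_ok (P := (34, 34)) (b := (558510924627968, 561125065752576)) (by decide +kernel) ⟨le_rfl, Or.inr le_rfl⟩) (xh_pt (X := 531392746126795) (by decide +kernel) hK.1 hK.2 hX) hT) (by norm_num) (by norm_num)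
  have h0 : QXS 13 13 34 x0 :=
    qxS_O (by norm_num) (by norm_num) (by norm_num) hT.gt hT.le (xh_pt (X := 531392746126795) (by decide +kernel) hK.1 hK.2 hX) Pool.Agent.Helper81.TK.E_13_13_T_midB.T (hasP (N := 13) (by decide +kernel)) (hasP (N := 13) (by decide +kernel)) (inB_ok (P := (34, 34)) (b := (550648146034688, 561128881782784)) (by decide +kernel) ⟨le_rfl, Or.inr le_rfl⟩) n0_6
      (by norm_num) (by norm_num) (by norm_num) (far3 (L := 531392746126731) (H := 531392746126859) (by norm_num) (by norm_num) (by norm_num) hR (by norm_num) (by norm_num))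
  exact zf_QS (by norm_num) (by norm_num) (by norm_num) (by norm_num) hT h0 h0
end E13_13_34

namespace E13_13_35
/-- the triple `(13, 13, 35)` -/
theorem fe : FinAt 13 13 35 := by
  refine z60_13_13_35 fun x0 hX0 hT tB => ?_
  have hX : |2 ^ 48 * x0 - (-((531408783635633 : ℕ) : ℝ))| ≤ ((64 : ℕ) : ℝ) := by
    push_cast; exact hX0.trans (by norm_num)
  have hK := kz_pm (M := 35) (K := 560683682413444) (by norm_num) (by norm_num) rfl
  have hR : ((531408783635569 : ℕ) : ℝ) ≤ -(2 ^ 48 * x0) ∧ -(2 ^ 48 * x0) ≤ ((531408783635697 : ℕ) : ℝ) := by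
    rw [abs_le] at hX0; push_cast; constructor <;> linarith [hX0.1, hX0.2]
  have n0_0 : TCellU 13 13 35 x0 0 ((56294995344 : ℕ) / 2 ^ 48) := tcu_sub (Pool.Agent.CXD.tX13X13T_nearBy0 (inB_ok (P := (35, 35)) (b := (560532642856960, 560807763509248)) (by decide +kernel) ⟨le_rfl, Or.inr le_rfl⟩) (xh_pt (X := 531408783635633) (by decide +kernel) hK.1 hK.2 hX) hT tB) (by norm_num) le_rfl
  have n0_1 : TCellU 13 13 35 x0 0 ((97789149976 : ℕ) / 2 ^ 48) := tcu_join n0_0 (Pool.Agent.CXD.tX13X13T_nearBg2 (inB_ok (P := (35, 35)) (b := (560683681841152, 561124480909312)) (by decide +kernel) ⟨le_rfl, Or.inr le_rfl⟩) (xh_pt (X := 531408783635633) (by decide +kernel) hK.1 hK.2 hX) hT tB) (by norm_num) (by norm_num)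
  have n0_2 : TCellU 13 13 35 x0 0 ((849498037068 : ℕ) / 2 ^ 48) := tcu_join n0_1 (Pool.Agent.CXD.tX13X13T_nearBgg (inB_ok (P := (35, 35)) (b := (559853728432128, 561124502929408)) (by decide +kernel) ⟨le_rfl, Or.inr le_rfl⟩) (xh_pt (X := 531408783635633) (by decide +kernel) hK.1 hK.2 hX) hT tB) (by norm_num) (by norm_num)
  have n0_3 : TCellU 13 13 35 x0 0 ((8951897540176 : ℕ) / 2 ^ 48) := tcu_join n0_2 (Pool.Agent.CXD.tX13X13T_nearBfg (inB_ok (P := (35, 35)) (b := (559853728432128, 561124502929408)) (by decide +kernel) ⟨le_rfl, Or.inr le_rfl⟩) (xh_pt (X := 531408783635633) (by decide +kernel) hK.1 hK.2 hX) hT tB) (by norm_num) (by norm_num)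
  have n0_4 : TCellU 13 13 35 x0 0 ((9844202489744 : ℕ) / 2 ^ 48) := tcu_join n0_3 (Pool.Agent.CXD.tX13X13T_nearBc (inB_ok (P := (35, 35)) (b := (558510924627968, 561124502929408)) (by decide +kernel) ⟨le_rfl, Or.inr le_rfl⟩) (xh_pt (X := 531408783635633) (by decide +kernel) hK.1 hK.2 hX) hT tB) (by norm_num) (by norm_num)
  have n0_5 : TCellU 13 13 35 x0 0 ((19703248369744 : ℕ) / 2 ^ 48) := tcu_join n0_4 (Pool.Agent.CXD.tX13X13T_nearBb (inB_ok (P := (35, 35)) (b := (558510924627968, 561125065752576)) (by decide +kernel) ⟨le_rfl, Or.inr le_rfl⟩) (xh_pt (X := 531408783635633) (by decide +kernel) hK.1 hK.2 hX) hT tB) (by norm_num) (by norm_num)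
  have n0_6 : TCellU 13 13 35 x0 0 ((122160139892424 : ℕ) / 2 ^ 48) := tcu_join n0_5 (Pool.Agent.CXD.tX13X13T_nearBa (inB_ok (P := (35, 35)) (b := (558510924627968, 561125065752576)) (by decide +kernel) ⟨le_rfl, Or.inr le_rfl⟩) (xh_pt (X := 531408783635633) (by decide +kernel) hK.1 hK.2 hX) hT) (by norm_num) (by norm_num)
  have h0 : QXS 13 13 35 x0 :=
    qxS_O (by norm_num) (by norm_num) (by norm_num) hT.gt hT.le (xh_pt (X := 531408783635633) (by decide +kernel) hK.1 hK.2 hX) Pool.Agent.Helper81.TK.E_13_13_T_midB.T (hasP (N := 13) (by decide +kernel)) (hasP (N := 13) (by decide +kernel)) (inB_ok (P := (35, 35)) (b := (550648146034688, 561128881782784)) (by decide +kernel) ⟨le_rfl, Or.inr le_rfl⟩) n0_6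
      (by norm_num) (by norm_num) (by norm_num) (far3 (L := 531408783635569) (H := 531408783635697) (by norm_num) (by norm_num) (by norm_num) hR (by norm_num) (by norm_num))
  exact zf_QS (by norm_num) (by norm_num) (by norm_num) (by norm_num) hT h0 h0
end E13_13_35

namespace E13_13_36
/-- the triple `(13, 13, 36)` -/
theorem fe : FinAt 13 13 36 := by
  refine z60_13_13_36 fun x0 hX0 hT tB => ?_
  have hX : |2 ^ 48 * x0 - (-((531423462598342 : ℕ) : ℝ))| ≤ ((64 : ℕ) : ℝ) := by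
    push_cast; exact hX0.trans (by norm_num)
  have hK := kz_pm (M := 36) (K := 560807758889306) (by norm_num) (by norm_num) rfl
  have hR : ((531423462598278 : ℕ) : ℝ) ≤ -(2 ^ 48 * x0) ∧ -(2 ^ 48 * x0) ≤ ((531423462598406 : ℕ) : ℝ) := by
    rw [abs_le] at hX0; push_cast; constructor <;> linarith [hX0.1, hX0.2]
  have n0_0 : TCellU 13 13 36 x0 0 ((56294995344 : ℕ) / 2 ^ 48) := tcu_sub (Pool.Agent.CXD.tX13X13T_nearBy0 (inB_ok (P := (36, 36)) (b := (560532642856960, 560807763509248)) (by decide +kernel) ⟨le_rfl, Or.inr le_rfl⟩) (xh_pt (X := 531423462598342) (by decide +kernel) hK.1 hK.2 hX) hT tB) (by norm_num) le_rfl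
  have n0_1 : TCellU 13 13 36 x0 0 ((97789149976 : ℕ) / 2 ^ 48) := tcu_join n0_0 (Pool.Agent.CXD.tX13X13T_nearBg2 (inB_ok (P := (36, 36)) (b := (560683681841152, 561124480909312)) (by decide +kernel) ⟨le_rfl, Or.inr le_rfl⟩) (xh_pt (X := 531423462598342) (by decide +kernel) hK.1 hK.2 hX) hT tB) (by norm_num) (by norm_num)
  have n0_2 : TCellU 13 13 36 x0 0 ((849498037068 : ℕ) / 2 ^ 48) := tcu_join n0_1 (Pool.Agent.CXD.tX13X13T_nearBgg (inB_ok (P := (36, 36)) (b := (559853728432128, 561124502929408)) (by decide +kernel) ⟨le_rfl, Or.inr le_rfl⟩) (xh_pt (X := 531423462598342) (by decide +kernel) hK.1 hK.2 hX) hT tB) (by norm_num) (by norm_num)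
  have n0_3 : TCellU 13 13 36 x0 0 ((8951897540176 : ℕ) / 2 ^ 48) := tcu_join n0_2 (Pool.Agent.CXD.tX13X13T_nearBfg (inB_ok (P := (36, 36)) (b := (559853728432128, 561124502929408)) (by decide +kernel) ⟨le_rfl, Or.inr le_rfl⟩) (xh_pt (X := 531423462598342) (by decide +kernel) hK.1 hK.2 hX) hT tB) (by norm_num) (by norm_num)
  have n0_4 : TCellU 13 13 36 x0 0 ((9844202489744 : ℕ) / 2 ^ 48) := tcu_join n0_3 (Pool.Agent.CXD.tX13X13T_nearBc (inB_ok (P := (36, 36)) (b := (558510924627968, 561124502929408)) (by decide +kernel) ⟨le_rfl, Or.inr le_rfl⟩) (xh_pt (X := 531423462598342) (by decide +kernel) hK.1 hK.2 hX) hT tB) (by norm_num) (by norm_num)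
  have n0_5 : TCellU 13 13 36 x0 0 ((19703248369744 : ℕ) / 2 ^ 48) := tcu_join n0_4 (Pool.Agent.CXD.tX13X13T_nearBb (inB_ok (P := (36, 36)) (b := (558510924627968, 561125065752576)) (by decide +kernel) ⟨le_rfl, Or.inr le_rfl⟩) (xh_pt (X := 531423462598342) (by decide +kernel) hK.1 hK.2 hX) hT tB) (by norm_num) (by norm_num)
  have n0_6 : TCellU 13 13 36 x0 0 ((122160139892424 : ℕ) / 2 ^ 48) := tcu_join n0_5 (Pool.Agent.CXD.tX13X13T_nearBa (inB_ok (P := (36, 36)) (b := (558510924627968, 561125065752576)) (by decide +kernel) ⟨le_rfl, Or.inr le_rfl⟩) (xh_pt (X := 531423462598342) (by decide +kernel) hK.1 hK.2 hX) hT) (by norm_num) (by norm_num)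
  have h0 : QXS 13 13 36 x0 :=
    qxS_O (by norm_num) (by norm_num) (by norm_num) hT.gt hT.le (xh_pt (X := 531423462598342) (by decide +kernel) hK.1 hK.2 hX) Pool.Agent.Helper81.TK.E_13_13_T_midB.T (hasP (N := 13) (by decide +kernel)) (hasP (N := 13) (by decide +kernel)) (inB_ok (P := (36, 36)) (b := (550648146034688, 561128881782784)) (by decide +kernel) ⟨le_rfl, Or.inr le_rfl⟩) n0_6
      (by norm_num) (by norm_num) (by norm_num) (far3 (L := 531423462598278) (H := 531423462598406) (by norm_num) (by norm_num) (by norm_num) hR (by norm_num) (by norm_num))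
  exact zf_QS (by norm_num) (by norm_num) (by norm_num) (by norm_num) hT h0 h0
end E13_13_36

namespace E13_13_37
/-- the triple `(13, 13, 37)` -/
theorem fe : FinAt 13 13 37 := by
  refine z60_13_13_37 fun x0 hX0 hT tB => ?_
  have hX : |2 ^ 48 * x0 - (-((531436933154729 : ℕ) : ℝ))| ≤ ((64 : ℕ) : ℝ) := by
    push_cast; exact hX0.trans (by norm_num)
  have hK := kz_pm (M := 37) (K := 560921919764128) (by norm_num) (by norm_num) rfl
  have hR : ((531436933154665 : ℕ) : ℝ) ≤ -(2 ^ 48 * x0) ∧ -(2 ^ 48 * x0) ≤ ((531436933154793 : ℕ) : ℝ) := by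
    rw [abs_le] at hX0; push_cast; constructor <;> linarith [hX0.1, hX0.2]
  have n0_0 : TCellU 13 13 37 x0 0 ((56294995344 : ℕ) / 2 ^ 48) := tcu_sub (Pool.Agent.CXD.tX13X13T_nearBy1 (inB_ok (P := (37, 37)) (b := (560849302061056, 561124484841472)) (by decide +kernel) ⟨le_rfl, Or.inr le_rfl⟩) (xh_pt (X := 531436933154729) (by decide +kernel) hK.1 hK.2 hX) hT tB) (by norm_num) le_rfl
  have n0_1 : TCellU 13 13 37 x0 0 ((97789149976 : ℕ) / 2 ^ 48) := tcu_join n0_0 (Pool.Agent.CXD.tX13X13T_nearBg2 (inB_ok (P := (37, 37)) (b := (560683681841152, 561124480909312)) (by decide +kernel) ⟨le_rfl, Or.inr le_rfl⟩) (xh_pt (X := 531436933154729) (by decide +kernel) hK.1 hK.2 hX) hT tB) (by norm_num) (by norm_num)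
  have n0_2 : TCellU 13 13 37 x0 0 ((849498037068 : ℕ) / 2 ^ 48) := tcu_join n0_1 (Pool.Agent.CXD.tX13X13T_nearBgg (inB_ok (P := (37, 37)) (b := (559853728432128, 561124502929408)) (by decide +kernel) ⟨le_rfl, Or.inr le_rfl⟩) (xh_pt (X := 531436933154729) (by decide +kernel) hK.1 hK.2 hX) hT tB) (by norm_num) (by norm_num)
  have n0_3 : TCellU 13 13 37 x0 0 ((8951897540176 : ℕ) / 2 ^ 48) := tcu_join n0_2 (Pool.Agent.CXD.tX13X13T_nearBfg (inB_ok (P := (37, 37)) (b := (559853728432128, 561124502929408)) (by decide +kernel) ⟨le_rfl, Or.inr le_rfl⟩) (xh_pt (X := 531436933154729) (by decide +kernel) hK.1 hK.2 hX) hT tB) (by norm_num) (by norm_num)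
  have n0_4 : TCellU 13 13 37 x0 0 ((9844202489744 : ℕ) / 2 ^ 48) := tcu_join n0_3 (Pool.Agent.CXD.tX13X13T_nearBc (inB_ok (P := (37, 37)) (b := (558510924627968, 561124502929408)) (by decide +kernel) ⟨le_rfl, Or.inr le_rfl⟩) (xh_pt (X := 531436933154729) (by decide +kernel) hK.1 hK.2 hX) hT tB) (by norm_num) (by norm_num)
  have n0_5 : TCellU 13 13 37 x0 0 ((19703248369744 : ℕ) / 2 ^ 48) := tcu_join n0_4 (Pool.Agent.CXD.tX13X13T_nearBb (inB_ok (P := (37, 37)) (b := (558510924627968, 561125065752576)) (by decide +kernel) ⟨le_rfl, Or.inr le_rfl⟩) (xh_pt (X := 531436933154729) (by decide +kernel) hK.1 hK.2 hX) hT tB) (by norm_num) (by norm_num)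
  have n0_6 : TCellU 13 13 37 x0 0 ((122160139892424 : ℕ) / 2 ^ 48) := tcu_join n0_5 (Pool.Agent.CXD.tX13X13T_nearBa (inB_ok (P := (37, 37)) (b := (558510924627968, 561125065752576)) (by decide +kernel) ⟨le_rfl, Or.inr le_rfl⟩) (xh_pt (X := 531436933154729) (by decide +kernel) hK.1 hK.2 hX) hT) (by norm_num) (by norm_num)
  have h0 : QXS 13 13 37 x0 :=
    qxS_O (by norm_num) (by norm_num) (by norm_num) hT.gt hT.le (xh_pt (X := 531436933154729) (by decide +kernel) hK.1 hK.2 hX) Pool.Agent.Helper81.TK.E_13_13_T_midB.T (hasP (N := 13) (by decide +kernel)) (hasP (N := 13) (by decide +kernel)) (inB_ok (P := (37, 37)) (b := (550648146034688, 561128881782784)) (by decide +kernel) ⟨le_rfl, Or.inr le_rfl⟩) n0_6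
      (by norm_num) (by norm_num) (by norm_num) (far3 (L := 531436933154665) (H := 531436933154793) (by norm_num) (by norm_num) (by norm_num) hR (by norm_num) (by norm_num))
  exact zf_QS (by norm_num) (by norm_num) (by norm_num) (by norm_num) hT h0 h0
end E13_13_37

namespace E13_13_38
/-- the triple `(13, 13, 38)` -/
theorem fe : FinAt 13 13 38 := by
  refine z60_13_13_38 fun x0 hX0 hT tB => ?_
  have hX : |2 ^ 48 * x0 - (-((531449325152994 : ℕ) : ℝ))| ≤ ((64 : ℕ) : ℝ) := by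
    push_cast; exact hX0.trans (by norm_num)
  have hK := kz_pm (M := 38) (K := 561027193918507) (by norm_num) (by norm_num) rfl
  have hR : ((531449325152930 : ℕ) : ℝ) ≤ -(2 ^ 48 * x0) ∧ -(2 ^ 48 * x0) ≤ ((531449325153058 : ℕ) : ℝ) := by
    rw [abs_le] at hX0; push_cast; constructor <;> linarith [hX0.1, hX0.2]
  have n0_0 : TCellU 13 13 38 x0 0 ((56294995344 : ℕ) / 2 ^ 48) := tcu_sub (Pool.Agent.CXD.tX13X13T_nearBy1 (inB_ok (P := (38, 38)) (b := (560849302061056, 561124484841472)) (by decide +kernel) ⟨le_rfl, Or.inr le_rfl⟩) (xh_pt (X := 531449325152994) (by decide +kernel) hK.1 hK.2 hX) hT tB) (by norm_num) le_rfl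
  have n0_1 : TCellU 13 13 38 x0 0 ((97789149976 : ℕ) / 2 ^ 48) := tcu_join n0_0 (Pool.Agent.CXD.tX13X13T_nearBg2 (inB_ok (P := (38, 38)) (b := (560683681841152, 561124480909312)) (by decide +kernel) ⟨le_rfl, Or.inr le_rfl⟩) (xh_pt (X := 531449325152994) (by decide +kernel) hK.1 hK.2 hX) hT tB) (by norm_num) (by norm_num)
  have n0_2 : TCellU 13 13 38 x0 0 ((849498037068 : ℕ) / 2 ^ 48) := tcu_join n0_1 (Pool.Agent.CXD.tX13X13T_nearBgg (inB_ok (P := (38, 38)) (b := (559853728432128, 561124502929408)) (by decide +kernel) ⟨le_rfl, Or.inr le_rfl⟩) (xh_pt (X := 531449325152994) (by decide +kernel) hK.1 hK.2 hX) hT tB) (by norm_num) (by norm_num)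
  have n0_3 : TCellU 13 13 38 x0 0 ((8951897540176 : ℕ) / 2 ^ 48) := tcu_join n0_2 (Pool.Agent.CXD.tX13X13T_nearBfg (inB_ok (P := (38, 38)) (b := (559853728432128, 561124502929408)) (by decide +kernel) ⟨le_rfl, Or.inr le_rfl⟩) (xh_pt (X := 531449325152994) (by decide +kernel) hK.1 hK.2 hX) hT tB) (by norm_num) (by norm_num)
  have n0_4 : TCellU 13 13 38 x0 0 ((9844202489744 : ℕ) / 2 ^ 48) := tcu_join n0_3 (Pool.Agent.CXD.tX13X13T_nearBc (inB_ok (P := (38, 38)) (b := (558510924627968, 561124502929408)) (by decide +kernel) ⟨le_rfl, Or.inr le_rfl⟩) (xh_pt (X := 531449325152994) (by decide +kernel) hK.1 hK.2 hX) hT tB) (by norm_num) (by norm_num)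
  have n0_5 : TCellU 13 13 38 x0 0 ((19703248369744 : ℕ) / 2 ^ 48) := tcu_join n0_4 (Pool.Agent.CXD.tX13X13T_nearBb (inB_ok (P := (38, 38)) (b := (558510924627968, 561125065752576)) (by decide +kernel) ⟨le_rfl, Or.inr le_rfl⟩) (xh_pt (X := 531449325152994) (by decide +kernel) hK.1 hK.2 hX) hT tB) (by norm_num) (by norm_num)
  have n0_6 : TCellU 13 13 38 x0 0 ((122160139892424 : ℕ) / 2 ^ 48) := tcu_join n0_5 (Pool.Agent.CXD.tX13X13T_nearBa (inB_ok (P := (38, 38)) (b := (558510924627968, 561125065752576)) (by decide +kernel) ⟨le_rfl, Or.inr le_rfl⟩) (xh_pt (X := 531449325152994) (by decide +kernel) hK.1 hK.2 hX) hT) (by norm_num) (by norm_num)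
  have h0 : QXS 13 13 38 x0 :=
    qxS_O (by norm_num) (by norm_num) (by norm_num) hT.gt hT.le (xh_pt (X := 531449325152994) (by decide +kernel) hK.1 hK.2 hX) Pool.Agent.Helper81.TK.E_13_13_T_midB.T (hasP (N := 13) (by decide +kernel)) (hasP (N := 13) (by decide +kernel)) (inB_ok (P := (38, 38)) (b := (550648146034688, 561128881782784)) (by decide +kernel) ⟨le_rfl, Or.inr le_rfl⟩) n0_6
      (by norm_num) (by norm_num) (by norm_num) (far3 (L := 531449325152930) (H := 531449325153058) (by norm_num) (by norm_num) (by norm_num) hR (by norm_num) (by norm_num))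
  exact zf_QS (by norm_num) (by norm_num) (by norm_num) (by norm_num) hT h0 h0
end E13_13_38

namespace E13_13_39
/-- the triple `(13, 13, 39)` -/
theorem fe : FinAt 13 13 39 := by
  refine z60_13_13_39 fun x0 hX0 hT tB => ?_
  have hX : |2 ^ 48 * x0 - (-((531460751369083 : ℕ) : ℝ))| ≤ ((64 : ℕ) : ℝ) := by
    push_cast; exact hX0.trans (by norm_num)
  have hK := kz_pm (M := 39) (K := 561124480186506) (by norm_num) (by norm_num) rfl
  have hR : ((531460751369019 : ℕ) : ℝ) ≤ -(2 ^ 48 * x0) ∧ -(2 ^ 48 * x0) ≤ ((531460751369147 : ℕ) : ℝ) := by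
    rw [abs_le] at hX0; push_cast; constructor <;> linarith [hX0.1, hX0.2]
  have n0_0 : TCellU 13 13 39 x0 0 ((56294995344 : ℕ) / 2 ^ 48) := tcu_sub (Pool.Agent.CXD.tX13X13T_nearBy1 (inB_ok (P := (39, 39)) (b := (560849302061056, 561124484841472)) (by decide +kernel) ⟨le_rfl, Or.inr le_rfl⟩) (xh_pt (X := 531460751369083) (by decide +kernel) hK.1 hK.2 hX) hT tB) (by norm_num) le_rfl
  have n0_1 : TCellU 13 13 39 x0 0 ((97789149976 : ℕ) / 2 ^ 48) := tcu_join n0_0 (Pool.Agent.CXD.tX13X13T_nearBg2 (inB_ok (P := (39, 39)) (b := (560683681841152, 561124480909312)) (by decide +kernel) ⟨le_rfl, Or.inr le_rfl⟩) (xh_pt (X := 531460751369083) (by decide +kernel) hK.1 hK.2 hX) hT tB) (by norm_num) (by norm_num)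
  have n0_2 : TCellU 13 13 39 x0 0 ((849498037068 : ℕ) / 2 ^ 48) := tcu_join n0_1 (Pool.Agent.CXD.tX13X13T_nearBgg (inB_ok (P := (39, 39)) (b := (559853728432128, 561124502929408)) (by decide +kernel) ⟨le_rfl, Or.inr le_rfl⟩) (xh_pt (X := 531460751369083) (by decide +kernel) hK.1 hK.2 hX) hT tB) (by norm_num) (by norm_num)
  have n0_3 : TCellU 13 13 39 x0 0 ((8951897540176 : ℕ) / 2 ^ 48) := tcu_join n0_2 (Pool.Agent.CXD.tX13X13T_nearBfg (inB_ok (P := (39, 39)) (b := (559853728432128, 561124502929408)) (by decide +kernel) ⟨le_rfl, Or.inr le_rfl⟩) (xh_pt (X := 531460751369083) (by decide +kernel) hK.1 hK.2 hX) hT tB) (by norm_num) (by norm_num)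
  have n0_4 : TCellU 13 13 39 x0 0 ((9844202489744 : ℕ) / 2 ^ 48) := tcu_join n0_3 (Pool.Agent.CXD.tX13X13T_nearBc (inB_ok (P := (39, 39)) (b := (558510924627968, 561124502929408)) (by decide +kernel) ⟨le_rfl, Or.inr le_rfl⟩) (xh_pt (X := 531460751369083) (by decide +kernel) hK.1 hK.2 hX) hT tB) (by norm_num) (by norm_num)
  have n0_5 : TCellU 13 13 39 x0 0 ((19703248369744 : ℕ) / 2 ^ 48) := tcu_join n0_4 (Pool.Agent.CXD.tX13X13T_nearBb (inB_ok (P := (39, 39)) (b := (558510924627968, 561125065752576)) (by decide +kernel) ⟨le_rfl, Or.inr le_rfl⟩) (xh_pt (X := 531460751369083) (by decide +kernel) hK.1 hK.2 hX) hT tB) (by norm_num) (by norm_num)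
  have n0_6 : TCellU 13 13 39 x0 0 ((122160139892424 : ℕ) / 2 ^ 48) := tcu_join n0_5 (Pool.Agent.CXD.tX13X13T_nearBa (inB_ok (P := (39, 39)) (b := (558510924627968, 561125065752576)) (by decide +kernel) ⟨le_rfl, Or.inr le_rfl⟩) (xh_pt (X := 531460751369083) (by decide +kernel) hK.1 hK.2 hX) hT) (by norm_num) (by norm_num)
  have h0 : QXS 13 13 39 x0 :=
    qxS_O (by norm_num) (by norm_num) (by norm_num) hT.gt hT.le (xh_pt (X := 531460751369083) (by decide +kernel) hK.1 hK.2 hX) Pool.Agent.Helper81.TK.E_13_13_T_midB.T (hasP (N := 13) (by decide +kernel)) (hasP (N := 13) (by decide +kernel)) (inB_ok (P := (39, 39)) (b := (550648146034688, 561128881782784)) (by decide +kernel) ⟨le_rfl, Or.inr le_rfl⟩) n0_6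
      (by norm_num) (by norm_num) (by norm_num) (far3 (L := 531460751369019) (H := 531460751369147) (by norm_num) (by norm_num) (by norm_num) hR (by norm_num) (by norm_num))
  exact zf_QS (by norm_num) (by norm_num) (by norm_num) (by norm_num) hT h0 h0
end E13_13_39

end Pool.Agent.Helper81.HD
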