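import Pool.Agent.CXD.M_X13_X13_T_3
import Pool.Agent.CXD.M_X13_X13_T_4
import Pool.Agent.CXD.M_X13_X13_T_5
import Pool.Agent.Helper81.HD.G13_13
import Pool.Agent.Helper81.MIT.Ord
import Pool.Agent.Helper81.MIT.SubX
import Pool.Agent.Helper81.TK.GS2

/-!
The row `(13, 13, r)`, `r` at least `15`.
-/

set_option autoImplicit false
set_option exponentiation.threshold 4000
noncomputable section
namespace Pool.Agent.Helper81.HD.R13_13

open Pool.Agent.Helper81.MIT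
open Pool.Agent.Helper6.MONO (Thr fB xA FinAt Kp)
open Pool.Agent.Helper57.U2 (TCellU)
open Pool.Agent.Helper84.ST (QXS)
open Pool.Agent.Helper84.XL (XH)
open Pool.Agent.Helper86.C75 (Z)
open Pool.Agent.Helper90.KMO (zv)
open Pool.Agent.Helper21.KTE (KS)
open Pool.Agent.Helper57.XL (chkX hX_of okx)


theorem nA401_40_z {r : ℕ} (h1 : 40 ≤ r) (g1 : ((561214566589962 : ℕ) : ℝ) ≤ 2 ^ 48 * Kp r) (g2 : 2 ^ 48 * Kp r ≤ ((562031840552496 : ℕ) : ℝ)) :
    TCellU 13 13 r (xA 13 13 r) 0 ((122160139892424 : ℕ) / 2 ^ 48) := by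
  have k0 : TCellU 13 13 r (xA 13 13 r) 0 ((2667189936392 : ℕ) / 2 ^ 48) := tcu_sub (Pool.Agent.CXD.tX13X13T_nearG40_55 ⟨by omega, le_trans (by norm_num) g1, le_trans g2 (by norm_num)⟩ (by omega) (by omega)) (by norm_num) le_rfl
  have k1 : TCellU 13 13 r (xA 13 13 r) 0 ((28147497671064 : ℕ) / 2 ^ 48) := tcu_join k0 (Pool.Agent.CXD.tX13X13T_nearG40_oo ⟨by omega, le_trans (by norm_num) g1, le_trans g2 (by norm_num)⟩ (by omega) (by omega)) (by norm_num) (by norm_num)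
  have k2 : TCellU 13 13 r (xA 13 13 r) 0 ((122160139892424 : ℕ) / 2 ^ 48) := tcu_join k1 (Pool.Agent.CXD.tX13X13T_nearH40_oo ⟨by omega, le_trans (by norm_num) g1, le_trans g2 (by norm_num)⟩ (by omega) (by omega)) (by norm_num) (by norm_num)
  exact tcu_sub k2 le_rfl (by norm_num)

theorem nA401_40 {r : ℕ} (h1 : 40 ≤ r) (h2 : r ≤ 55) : TCellU 13 13 r (xA 13 13 r) 0 ((122160139892424 : ℕ) / 2 ^ 48) :=
  nA401_40_z (by omega) (inB_ok (P := (40, 0)) (b := (561214566589962, 562949953421312)) (by decide +kernel) ⟨h1, Or.inl rfl⟩).2.1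
    (ord_up (N := 55) (n := 562031840552496) (by norm_num) (by norm_num) (by norm_num) (by decide +kernel) (by omega) h2)

theorem nA401_56_z {r : ℕ} (h1 : 48 ≤ r) (g1 : ((562064329008868 : ℕ) : ℝ) ≤ 2 ^ 48 * Kp r) (g2 : 2 ^ 48 * Kp r ≤ ((562949953421312 : ℕ) : ℝ)) :
    TCellU 13 13 r (xA 13 13 r) 0 ((122160139892424 : ℕ) / 2 ^ 48) := by
  have k0 : TCellU 13 13 r (xA 13 13 r) 0 ((2667189936392 : ℕ) / 2 ^ 48) := tcu_sub (Pool.Agent.CXD.tX13X13T_nearG56_oo ⟨by omega, le_trans (by norm_num) g1, le_trans g2 (by norm_num)⟩ (by omega) (by omega)) (by norm_num) le_rfl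
  have k1 : TCellU 13 13 r (xA 13 13 r) 0 ((28147497671064 : ℕ) / 2 ^ 48) := tcu_join k0 (Pool.Agent.CXD.tX13X13T_nearG40_oo ⟨by omega, le_trans (by norm_num) g1, le_trans g2 (by norm_num)⟩ (by omega) (by omega)) (by norm_num) (by norm_num)
  have k2 : TCellU 13 13 r (xA 13 13 r) 0 ((122160139892424 : ℕ) / 2 ^ 48) := tcu_join k1 (Pool.Agent.CXD.tX13X13T_nearH40_oo ⟨by omega, le_trans (by norm_num) g1, le_trans g2 (by norm_num)⟩ (by omega) (by omega)) (by norm_num) (by norm_num)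
  exact tcu_sub k2 le_rfl (by norm_num)

theorem nA401_56 {r : ℕ} (h1 : 56 ≤ r) : TCellU 13 13 r (xA 13 13 r) 0 ((122160139892424 : ℕ) / 2 ^ 48) :=
  nA401_56_z (by omega) (ord_lo (N := 56) (n := 562064329008868) (by norm_num) (by norm_num) (by norm_num) (by decide +kernel) h1)
    (inB_ok (P := (48, 0)) (b := (561744634358211, 562949953421312)) (by decide +kernel) ⟨by omega, Or.inl rfl⟩).2.2

theorem nA401 {r : ℕ} (h1 : 40 ≤ r) : TCellU 13 13 r (xA 13 13 r) 0 ((122160139892424 : ℕ) / 2 ^ 48) := by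
  rcases Nat.lt_or_ge r 56 with g | g
  · exact nA401_40 (by omega) (by omega)
  exact nA401_56 (by omega)

theorem qA401 {r : ℕ} (h1 : 40 ≤ r) : QXS 13 13 r (xA 13 13 r) :=
  qxS_A (by norm_num) (by norm_num) (by omega) (by omega) Pool.Agent.Helper81.TK.E_13_13_T_midA.T (hasP (N := 13) (by decide +kernel)) (hasP (N := 13) (by decide +kernel)) (inB_ok (P := (40, 0)) (b := (561128881520640, 562949953421312)) (by decide +kernel) ⟨h1, Or.inl rfl⟩) (nA401 h1)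
    (by norm_num) (by norm_num) (by norm_num) (far3 (L := 529789702612673) (H := 532349747518565) (by norm_num) (by norm_num) (by omega) (xaB_ok (lo := 529789702612673) (hi := 532349747518565) (i := (13, 13)) (j := (13, 13)) (k := (40, 0)) (by decide +kernel) ⟨le_rfl, Or.inr le_rfl⟩ ⟨le_rfl, Or.inr le_rfl⟩ ⟨h1, Or.inl rfl⟩) (by norm_num) (by norm_num))

theorem fA40 {r : ℕ} (h1 : 40 ≤ r) : FinAt 13 13 r :=
  row_Ac (by norm_num) (by norm_num) (by omega) (by omega) (qA401 h1) (qA401 h1)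

/-- the row `(13, 13, r)` -/
theorem row_13_13 : ∀ r, 15 ≤ r → FinAt 13 13 r := by
  intro r hr
  rcases (by omega : r = 15 ∨ r = 16 ∨ r = 17 ∨ r = 18 ∨ r = 19 ∨ r = 20 ∨ r = 21 ∨ r = 22 ∨ r = 23 ∨ r = 24 ∨ r = 25 ∨ r = 26 ∨ r = 27 ∨ r = 28 ∨ r = 29 ∨ r = 30 ∨ r = 31 ∨ r = 32 ∨ r = 33 ∨ r = 34 ∨ r = 35 ∨ r = 36 ∨ r = 37 ∨ r = 38 ∨ r = 39 ∨ 40 ≤ r) with rfl | rfl | rfl | rfl | rfl | rfl | rfl | rfl | rfl | rfl | rfl | rfl | rfl | rfl | rfl | rfl | rfl | rfl | rfl | rfl | rfl | rfl | rfl | rfl | rfl | g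
  · exact E13_13_15.fe
  · exact E13_13_16.fe
  · exact E13_13_17.fe
  · exact E13_13_18.fe
  · exact E13_13_19.fe
  · exact E13_13_20.fe
  · exact E13_13_21.fe
  · exact E13_13_22.fe
  · exact E13_13_23.fe
  · exact E13_13_24.fe
  · exact E13_13_25.fe
  · exact E13_13_26.fe
  · exact E13_13_27.fe
  · exact E13_13_28.fe
  · exact E13_13_29.fe
  · exact E13_13_30.fe
  · exact E13_13_31.fe
  · exact E13_13_32.fe
  · exact E13_13_33.fe
  · exact E13_13_34.fe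
  · exact E13_13_35.fe
  · exact E13_13_36.fe
  · exact E13_13_37.fe
  · exact E13_13_38.fe
  · exact E13_13_39.fe
  · exact fA40 g

end Pool.Agent.Helper81.HD.R13_13
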