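import Pool.Agent.CXD.M_X13_X14_T_0
import Pool.Agent.CXD.M_X13_X14_T_1
import Pool.Agent.CXD.M_X13_X14_T_2
import Pool.Agent.CXD.M_X13_X14_T_3
import Pool.Agent.CXD.M_G13_5
import Pool.Agent.CXD.M_G13_6
import Pool.Agent.CXD.M_G13_7
import Pool.Agent.CXD.M_G13_8
import Pool.Agent.CXD.M_G13_9
import Pool.Agent.CXD.M_G13_10
import Pool.Agent.CXD.M_G13_11
import Pool.Agent.CXD.M_G13_12
import Pool.Agent.CXD.M_G13_13
import Pool.Agent.CXD.M_G13_14
import Pool.Agent.CXD.M_X14_X13_T_0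
import Pool.Agent.CXD.M_X14_X13_T_1
import Pool.Agent.CXD.M_X14_X13_T_2
import Pool.Agent.CXD.M_X14_X13_T_3
import Pool.Agent.Helper81.MIT.HDl
import Pool.Agent.Helper81.MIT.PtR2
import Pool.Agent.Helper81.MIT.PtR5
import Pool.Agent.Helper81.MIT.RotF
import Pool.Agent.Helper81.MIT.XPt
import Pool.Agent.Helper81.TK.GS2

/-!
The exact triples `(13, 14, r)` of the row `(13, 14)`.
-/

set_option autoImplicit false
set_option exponentiation.threshold 4000
noncomputable section
namespace Pool.Agent.Helper81.HD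

open Pool.Agent.Helper81.MIT
open Pool.Agent.Helper6.MONO (Thr fB FinAt Kp)
open Pool.Agent.Helper57.U2 (TCellU)
open Pool.Agent.Helper84.ST (QXS)

namespace E13_14_15
/-- the triple `(13, 14, 15)` -/
theorem fe : FinAt 13 14 15 := by
  refine z60_13_14_15 fun x0 hX0 hT tB => ?_
  have hX : |2 ^ 48 * x0 - (-((530438639769506 : ℕ) : ℝ))| ≤ ((64 : ℕ) : ℝ) := by
    push_cast; exact hX0.trans (by norm_num)
  have hK := kz_pm (M := 15) (K := 550648146272264) (by norm_num) (by norm_num) rfl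
  have hz := zvX hX
  have hR : ((530438639769442 : ℕ) : ℝ) ≤ -(2 ^ 48 * x0) ∧ -(2 ^ 48 * x0) ≤ ((530438639769570 : ℕ) : ℝ) := by
    rw [abs_le] at hX0; push_cast; constructor <;> linarith [hX0.1, hX0.2]
  have n0_0 : TCellU 13 14 15 x0 0 ((1688849860264 : ℕ) / 2 ^ 48) := tcu_sub (TCellU.of_t (Pool.Agent.CXD.tX13_X14_X15_near_Bt hz hT tB)) (by norm_num) le_rfl
  have n0_1 : TCellU 13 14 15 x0 0 ((2251799813684 : ℕ) / 2 ^ 48) := tcu_join n0_0 (TCellU.of_t (Pool.Agent.CXD.tX13_X14_X15_near_B hz hT tB)) (by norm_num) (by norm_num)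
  have n0_2 : TCellU 13 14 15 x0 0 ((8444249301320 : ℕ) / 2 ^ 48) := tcu_join n0_1 (TCellU.of_t (Pool.Agent.CXD.tX13_X14_X15_near_h hz hT)) (by norm_num) (by norm_num)
  have n0_3 : TCellU 13 14 15 x0 0 ((122160139892424 : ℕ) / 2 ^ 48) := tcu_join n0_2 (TCellU.of_t (Pool.Agent.CXD.tX13_X14_X15_near_g hz hT)) (by norm_num) (by norm_num)
  have h0 : QXS 13 14 15 x0 :=
    qxS_O (by norm_num) (by norm_num) (by norm_num) hT.gt hT.le (xh_pt (X := 530438639769506) (by decide +kernel) hK.1 hK.2 hX) Pool.Agent.Helper81.TK.E_13_14_T_midB.T (hasP (N := 13) (by decide +kernel)) (hasP (N := 14) (by decide +kernel)) (inB_ok (P := (15, 15)) (b := (550648146034688, 562949953421312)) (by decide +kernel) ⟨le_rfl, Or.inr le_rfl⟩) n0_3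
      (by norm_num) (by norm_num) (by norm_num) (far3 (L := 530438639769442) (H := 530438639769570) (by norm_num) (by norm_num) (by norm_num) hR (by norm_num) (by norm_num))
  have n1_0 : TCellU 13 15 14 x0 0 ((1688849860264 : ℕ) / 2 ^ 48) := tcu_sub (TCellU.of_t (Pool.Agent.CXD.tX13_X15_X14_near_Bt hz (thr_mir hT) (fB_mi tB))) (by norm_num) le_rfl
  have n1_1 : TCellU 13 15 14 x0 0 ((2251799813684 : ℕ) / 2 ^ 48) := tcu_join n1_0 (TCellU.of_t (Pool.Agent.CXD.tX13_X15_X14_near_B hz (thr_mir hT) (fB_mi tB))) (by norm_num) (by norm_num)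
  have n1_2 : TCellU 13 15 14 x0 0 ((8444249301320 : ℕ) / 2 ^ 48) := tcu_join n1_1 (TCellU.of_t (Pool.Agent.CXD.tX13_X15_X14_near_h hz (thr_mir hT))) (by norm_num) (by norm_num)
  have n1_3 : TCellU 13 15 14 x0 0 ((122160139892424 : ℕ) / 2 ^ 48) := tcu_join n1_2 (TCellU.of_t (Pool.Agent.CXD.tX13_X15_X14_near_g hz (thr_mir hT))) (by norm_num) (by norm_num)
  have h1 : QXS 13 15 14 x0 :=
    qxS_rm (by norm_num) (by norm_num) (by norm_num) hT.gt hT.le n1_3
      (Pool.Agent.Helper81.TK.E_14_13_T_midB.T 14 13 15 (hasP (N := 14) (by decide +kernel)) (hasP (N := 13) (by decide +kernel)) (inB_ok (P := (15, 15)) (b := (550648146034688, 562949953421312)) (by decide +kernel) ⟨le_rfl, Or.inr le_rfl⟩) x0 hT.gt hT.le (xh_pt (X := 530438639769506) (by decide +kernel) hK.1 hK.2 hX))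
      (by norm_num) (by norm_num) (by norm_num) (far3 (L := 530438639769442) (H := 530438639769570) (by norm_num) (by norm_num) (by norm_num) hR (by norm_num) (by norm_num))
  exact zf_QS (by norm_num) (by norm_num) (by norm_num) (by norm_num) hT h0 h1.rot2
end E13_14_15

namespace E13_14_16
/-- the triple `(13, 14, 16)` -/
theorem fe : FinAt 13 14 16 := by
  refine z60_13_14_16 fun x0 hX0 hT tB => ?_
  have hX : |2 ^ 48 * x0 - (-((530655875947127 : ℕ) : ℝ))| ≤ ((64 : ℕ) : ℝ) := by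
    push_cast; exact hX0.trans (by norm_num)
  have hK := kz_pm (M := 16) (K := 552133027919307) (by norm_num) (by norm_num) rfl
  have hz := zvX hX
  have hR : ((530655875947063 : ℕ) : ℝ) ≤ -(2 ^ 48 * x0) ∧ -(2 ^ 48 * x0) ≤ ((530655875947191 : ℕ) : ℝ) := by
    rw [abs_le] at hX0; push_cast; constructor <;> linarith [hX0.1, hX0.2]
  have n0_0 : TCellU 13 14 16 x0 0 ((2251799813684 : ℕ) / 2 ^ 48) := tcu_sub (TCellU.of_t (Pool.Agent.CXD.tX13_X14_X16_near_B hz hT tB)) (by norm_num) le_rfl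
  have n0_1 : TCellU 13 14 16 x0 0 ((8444249301320 : ℕ) / 2 ^ 48) := tcu_join n0_0 (TCellU.of_t (Pool.Agent.CXD.tX13_X14_X16_near_h hz hT)) (by norm_num) (by norm_num)
  have n0_2 : TCellU 13 14 16 x0 0 ((122160139892424 : ℕ) / 2 ^ 48) := tcu_join n0_1 (TCellU.of_t (Pool.Agent.CXD.tX13_X14_X16_near_g hz hT)) (by norm_num) (by norm_num)
  have h0 : QXS 13 14 16 x0 :=
    qxS_O (by norm_num) (by norm_num) (by norm_num) hT.gt hT.le (xh_pt (X := 530655875947127) (by decide +kernel) hK.1 hK.2 hX) Pool.Agent.Helper81.TK.E_13_14_T_midB.T (hasP (N := 13) (by decide +kernel)) (hasP (N := 14) (by decide +kernel)) (inB_ok (P := (16, 16)) (b := (550648146034688, 562949953421312)) (by decide +kernel) ⟨le_rfl, Or.inr le_rfl⟩) n0_2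
      (by norm_num) (by norm_num) (by norm_num) (far3 (L := 530655875947063) (H := 530655875947191) (by norm_num) (by norm_num) (by norm_num) hR (by norm_num) (by norm_num))
  have n1_0 : TCellU 13 16 14 x0 0 ((2251799813684 : ℕ) / 2 ^ 48) := tcu_sub (TCellU.of_t (Pool.Agent.CXD.tX13_X16_X14_near_B hz (thr_mir hT) (fB_mi tB))) (by norm_num) le_rfl
  have n1_1 : TCellU 13 16 14 x0 0 ((8444249301320 : ℕ) / 2 ^ 48) := tcu_join n1_0 (TCellU.of_t (Pool.Agent.CXD.tX13_X16_X14_near_h hz (thr_mir hT))) (by norm_num) (by norm_num)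
  have n1_2 : TCellU 13 16 14 x0 0 ((122160139892424 : ℕ) / 2 ^ 48) := tcu_join n1_1 (TCellU.of_t (Pool.Agent.CXD.tX13_X16_X14_near_g hz (thr_mir hT))) (by norm_num) (by norm_num)
  have h1 : QXS 13 16 14 x0 :=
    qxS_rm (by norm_num) (by norm_num) (by norm_num) hT.gt hT.le n1_2
      (Pool.Agent.Helper81.TK.E_14_13_T_midB.T 14 13 16 (hasP (N := 14) (by decide +kernel)) (hasP (N := 13) (by decide +kernel)) (inB_ok (P := (16, 16)) (b := (550648146034688, 562949953421312)) (by decide +kernel) ⟨le_rfl, Or.inr le_rfl⟩) x0 hT.gt hT.le (xh_pt (X := 530655875947127) (by decide +kernel) hK.1 hK.2 hX))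
      (by norm_num) (by norm_num) (by norm_num) (far3 (L := 530655875947063) (H := 530655875947191) (by norm_num) (by norm_num) (by norm_num) hR (by norm_num) (by norm_num))
  exact zf_QS (by norm_num) (by norm_num) (by norm_num) (by norm_num) hT h0 h1.rot2
end E13_14_16

namespace E13_14_17
/-- the triple `(13, 14, 17)` -/
theorem fe : FinAt 13 14 17 := by
  refine z60_13_14_17 fun x0 hX0 hT tB => ?_
  have hX : |2 ^ 48 * x0 - (-((530830998719520 : ℕ) : ℝ))| ≤ ((64 : ℕ) : ℝ) := by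
    push_cast; exact hX0.trans (by norm_num)
  have hK := kz_pm (M := 17) (K := 553364660681455) (by norm_num) (by norm_num) rfl
  have hz := zvX hX
  have hR : ((530830998719456 : ℕ) : ℝ) ≤ -(2 ^ 48 * x0) ∧ -(2 ^ 48 * x0) ≤ ((530830998719584 : ℕ) : ℝ) := by
    rw [abs_le] at hX0; push_cast; constructor <;> linarith [hX0.1, hX0.2]
  have n0_0 : TCellU 13 14 17 x0 0 ((2251799813684 : ℕ) / 2 ^ 48) := tcu_sub (TCellU.of_t (Pool.Agent.CXD.tX13_X14_X17_near_B hz hT tB)) (by norm_num) le_rfl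
  have n0_1 : TCellU 13 14 17 x0 0 ((8444249301320 : ℕ) / 2 ^ 48) := tcu_join n0_0 (TCellU.of_t (Pool.Agent.CXD.tX13_X14_X17_near_h hz hT)) (by norm_num) (by norm_num)
  have n0_2 : TCellU 13 14 17 x0 0 ((122160139892424 : ℕ) / 2 ^ 48) := tcu_join n0_1 (TCellU.of_t (Pool.Agent.CXD.tX13_X14_X17_near_g hz hT)) (by norm_num) (by norm_num)
  have h0 : QXS 13 14 17 x0 :=
    qxS_O (by norm_num) (by norm_num) (by norm_num) hT.gt hT.le (xh_pt (X := 530830998719520) (by decide +kernel) hK.1 hK.2 hX) Pool.Agent.Helper81.TK.E_13_14_T_midB.T (hasP (N := 13) (by decide +kernel)) (hasP (N := 14) (by decide +kernel)) (inB_ok (P := (17, 17)) (b := (550648146034688, 562949953421312)) (by decide +kernel) ⟨le_rfl, Or.inr le_rfl⟩) n0_2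
      (by norm_num) (by norm_num) (by norm_num) (far3 (L := 530830998719456) (H := 530830998719584) (by norm_num) (by norm_num) (by norm_num) hR (by norm_num) (by norm_num))
  have n1_0 : TCellU 13 17 14 x0 0 ((2251799813684 : ℕ) / 2 ^ 48) := tcu_sub (TCellU.of_t (Pool.Agent.CXD.tX13_X17_X14_near_B hz (thr_mir hT) (fB_mi tB))) (by norm_num) le_rfl
  have n1_1 : TCellU 13 17 14 x0 0 ((8444249301320 : ℕ) / 2 ^ 48) := tcu_join n1_0 (TCellU.of_t (Pool.Agent.CXD.tX13_X17_X14_near_h hz (thr_mir hT))) (by norm_num) (by norm_num)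
  have n1_2 : TCellU 13 17 14 x0 0 ((122160139892424 : ℕ) / 2 ^ 48) := tcu_join n1_1 (TCellU.of_t (Pool.Agent.CXD.tX13_X17_X14_near_g hz (thr_mir hT))) (by norm_num) (by norm_num)
  have h1 : QXS 13 17 14 x0 :=
    qxS_rm (by norm_num) (by norm_num) (by norm_num) hT.gt hT.le n1_2
      (Pool.Agent.Helper81.TK.E_14_13_T_midB.T 14 13 17 (hasP (N := 14) (by decide +kernel)) (hasP (N := 13) (by decide +kernel)) (inB_ok (P := (17, 17)) (b := (550648146034688, 562949953421312)) (by decide +kernel) ⟨le_rfl, Or.inr le_rfl⟩) x0 hT.gt hT.le (xh_pt (X := 530830998719520) (by decide +kernel) hK.1 hK.2 hX))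
      (by norm_num) (by norm_num) (by norm_num) (far3 (L := 530830998719456) (H := 530830998719584) (by norm_num) (by norm_num) (by norm_num) hR (by norm_num) (by norm_num))
  exact zf_QS (by norm_num) (by norm_num) (by norm_num) (by norm_num) hT h0 h1.rot2
end E13_14_17

namespace E13_14_18
/-- the triple `(13, 14, 18)` -/
theorem fe : FinAt 13 14 18 := by
  refine z60_13_14_18 fun x0 hX0 hT tB => ?_
  have hX : |2 ^ 48 * x0 - (-((530974401583718 : ℕ) : ℝ))| ≤ ((64 : ℕ) : ℝ) := by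
    push_cast; exact hX0.trans (by norm_num)
  have hK := kz_pm (M := 18) (K := 554397478687169) (by norm_num) (by norm_num) rfl
  have hz := zvX hX
  have hR : ((530974401583654 : ℕ) : ℝ) ≤ -(2 ^ 48 * x0) ∧ -(2 ^ 48 * x0) ≤ ((530974401583782 : ℕ) : ℝ) := by
    rw [abs_le] at hX0; push_cast; constructor <;> linarith [hX0.1, hX0.2]
  have n0_0 : TCellU 13 14 18 x0 0 ((2251799813684 : ℕ) / 2 ^ 48) := tcu_sub (TCellU.of_t (Pool.Agent.CXD.tX13_X14_X18_near_B hz hT tB)) (by norm_num) le_rfl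
  have n0_1 : TCellU 13 14 18 x0 0 ((8444249301320 : ℕ) / 2 ^ 48) := tcu_join n0_0 (TCellU.of_t (Pool.Agent.CXD.tX13_X14_X18_near_h hz hT)) (by norm_num) (by norm_num)
  have n0_2 : TCellU 13 14 18 x0 0 ((122160139892424 : ℕ) / 2 ^ 48) := tcu_join n0_1 (TCellU.of_t (Pool.Agent.CXD.tX13_X14_X18_near_g hz hT)) (by norm_num) (by norm_num)
  have h0 : QXS 13 14 18 x0 :=
    qxS_O (by norm_num) (by norm_num) (by norm_num) hT.gt hT.le (xh_pt (X := 530974401583718) (by decide +kernel) hK.1 hK.2 hX) Pool.Agent.Helper81.TK.E_13_14_T_midB.T (hasP (N := 13) (by decide +kernel)) (hasP (N := 14) (by decide +kernel)) (inB_ok (P := (18, 18)) (b := (550648146034688, 562949953421312)) (by decide +kernel) ⟨le_rfl, Or.inr le_rfl⟩) n0_2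
      (by norm_num) (by norm_num) (by norm_num) (far3 (L := 530974401583654) (H := 530974401583782) (by norm_num) (by norm_num) (by norm_num) hR (by norm_num) (by norm_num))
  have n1_0 : TCellU 13 18 14 x0 0 ((2251799813684 : ℕ) / 2 ^ 48) := tcu_sub (TCellU.of_t (Pool.Agent.CXD.tX13_X18_X14_near_B hz (thr_mir hT) (fB_mi tB))) (by norm_num) le_rfl
  have n1_1 : TCellU 13 18 14 x0 0 ((8444249301320 : ℕ) / 2 ^ 48) := tcu_join n1_0 (TCellU.of_t (Pool.Agent.CXD.tX13_X18_X14_near_h hz (thr_mir hT))) (by norm_num) (by norm_num)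
  have n1_2 : TCellU 13 18 14 x0 0 ((122160139892424 : ℕ) / 2 ^ 48) := tcu_join n1_1 (TCellU.of_t (Pool.Agent.CXD.tX13_X18_X14_near_g hz (thr_mir hT))) (by norm_num) (by norm_num)
  have h1 : QXS 13 18 14 x0 :=
    qxS_rm (by norm_num) (by norm_num) (by norm_num) hT.gt hT.le n1_2
      (Pool.Agent.Helper81.TK.E_14_13_T_midB.T 14 13 18 (hasP (N := 14) (by decide +kernel)) (hasP (N := 13) (by decide +kernel)) (inB_ok (P := (18, 18)) (b := (550648146034688, 562949953421312)) (by decide +kernel) ⟨le_rfl, Or.inr le_rfl⟩) x0 hT.gt hT.le (xh_pt (X := 530974401583718) (by decide +kernel) hK.1 hK.2 hX))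
      (by norm_num) (by norm_num) (by norm_num) (far3 (L := 530974401583654) (H := 530974401583782) (by norm_num) (by norm_num) (by norm_num) hR (by norm_num) (by norm_num))
  exact zf_QS (by norm_num) (by norm_num) (by norm_num) (by norm_num) hT h0 h1.rot2
end E13_14_18

namespace E13_14_19
/-- the triple `(13, 14, 19)` -/
theorem fe : FinAt 13 14 19 := by
  refine z60_13_14_19 fun x0 hX0 hT tB => ?_
  have hX : |2 ^ 48 * x0 - (-((531093421093543 : ℕ) : ℝ))| ≤ ((64 : ℕ) : ℝ) := by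
    push_cast; exact hX0.trans (by norm_num)
  have hK := kz_pm (M := 19) (K := 555272049807147) (by norm_num) (by norm_num) rfl
  have hz := zvX hX
  have hR : ((531093421093479 : ℕ) : ℝ) ≤ -(2 ^ 48 * x0) ∧ -(2 ^ 48 * x0) ≤ ((531093421093607 : ℕ) : ℝ) := by
    rw [abs_le] at hX0; push_cast; constructor <;> linarith [hX0.1, hX0.2]
  have n0_0 : TCellU 13 14 19 x0 0 ((2251799813684 : ℕ) / 2 ^ 48) := tcu_sub (TCellU.of_t (Pool.Agent.CXD.tX13_X14_X19_near_B hz hT tB)) (by norm_num) le_rfl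
  have n0_1 : TCellU 13 14 19 x0 0 ((8444249301320 : ℕ) / 2 ^ 48) := tcu_join n0_0 (TCellU.of_t (Pool.Agent.CXD.tX13_X14_X19_near_h hz hT)) (by norm_num) (by norm_num)
  have n0_2 : TCellU 13 14 19 x0 0 ((122160139892424 : ℕ) / 2 ^ 48) := tcu_join n0_1 (TCellU.of_t (Pool.Agent.CXD.tX13_X14_X19_near_g hz hT)) (by norm_num) (by norm_num)
  have h0 : QXS 13 14 19 x0 :=
    qxS_O (by norm_num) (by norm_num) (by norm_num) hT.gt hT.le (xh_pt (X := 531093421093543) (by decide +kernel) hK.1 hK.2 hX) Pool.Agent.Helper81.TK.E_13_14_T_midB.T (hasP (N := 13) (by decide +kernel)) (hasP (N := 14) (by decide +kernel)) (inB_ok (P := (19, 19)) (b := (550648146034688, 562949953421312)) (by decide +kernel) ⟨le_rfl, Or.inr le_rfl⟩) n0_2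
      (by norm_num) (by norm_num) (by norm_num) (far3 (L := 531093421093479) (H := 531093421093607) (by norm_num) (by norm_num) (by norm_num) hR (by norm_num) (by norm_num))
  have n1_0 : TCellU 13 19 14 x0 0 ((2251799813684 : ℕ) / 2 ^ 48) := tcu_sub (TCellU.of_t (Pool.Agent.CXD.tX13_X19_X14_near_B hz (thr_mir hT) (fB_mi tB))) (by norm_num) le_rfl
  have n1_1 : TCellU 13 19 14 x0 0 ((8444249301320 : ℕ) / 2 ^ 48) := tcu_join n1_0 (TCellU.of_t (Pool.Agent.CXD.tX13_X19_X14_near_h hz (thr_mir hT))) (by norm_num) (by norm_num)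
  have n1_2 : TCellU 13 19 14 x0 0 ((122160139892424 : ℕ) / 2 ^ 48) := tcu_join n1_1 (TCellU.of_t (Pool.Agent.CXD.tX13_X19_X14_near_g hz (thr_mir hT))) (by norm_num) (by norm_num)
  have h1 : QXS 13 19 14 x0 :=
    qxS_rm (by norm_num) (by norm_num) (by norm_num) hT.gt hT.le n1_2
      (Pool.Agent.Helper81.TK.E_14_13_T_midB.T 14 13 19 (hasP (N := 14) (by decide +kernel)) (hasP (N := 13) (by decide +kernel)) (inB_ok (P := (19, 19)) (b := (550648146034688, 562949953421312)) (by decide +kernel) ⟨le_rfl, Or.inr le_rfl⟩) x0 hT.gt hT.le (xh_pt (X := 531093421093543) (by decide +kernel) hK.1 hK.2 hX))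
      (by norm_num) (by norm_num) (by norm_num) (far3 (L := 531093421093479) (H := 531093421093607) (by norm_num) (by norm_num) (by norm_num) hR (by norm_num) (by norm_num))
  exact zf_QS (by norm_num) (by norm_num) (by norm_num) (by norm_num) hT h0 h1.rot2
end E13_14_19

namespace E13_14_20
/-- the triple `(13, 14, 20)` -/
theorem fe : FinAt 13 14 20 := by
  refine z60_13_14_20 fun x0 hX0 hT tB => ?_
  have hX : |2 ^ 48 * x0 - (-((531193365298394 : ℕ) : ℝ))| ≤ ((64 : ℕ) : ℝ) := by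
    push_cast; exact hX0.trans (by norm_num)
  have hK := kz_pm (M := 20) (K := 556019105332806) (by norm_num) (by norm_num) rfl
  have hz := zvX hX
  have hR : ((531193365298330 : ℕ) : ℝ) ≤ -(2 ^ 48 * x0) ∧ -(2 ^ 48 * x0) ≤ ((531193365298458 : ℕ) : ℝ) := by
    rw [abs_le] at hX0; push_cast; constructor <;> linarith [hX0.1, hX0.2]
  have n0_0 : TCellU 13 14 20 x0 0 ((2251799813684 : ℕ) / 2 ^ 48) := tcu_sub (TCellU.of_t (Pool.Agent.CXD.tX13_X14_X20_near_B hz hT tB)) (by norm_num) le_rfl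
  have n0_1 : TCellU 13 14 20 x0 0 ((8444249301320 : ℕ) / 2 ^ 48) := tcu_join n0_0 (TCellU.of_t (Pool.Agent.CXD.tX13_X14_X20_near_h hz hT)) (by norm_num) (by norm_num)
  have n0_2 : TCellU 13 14 20 x0 0 ((122160139892424 : ℕ) / 2 ^ 48) := tcu_join n0_1 (TCellU.of_t (Pool.Agent.CXD.tX13_X14_X20_near_g hz hT)) (by norm_num) (by norm_num)
  have h0 : QXS 13 14 20 x0 :=
    qxS_O (by norm_num) (by norm_num) (by norm_num) hT.gt hT.le (xh_pt (X := 531193365298394) (by decide +kernel) hK.1 hK.2 hX) Pool.Agent.Helper81.TK.E_13_14_T_midB.T (hasP (N := 13) (by decide +kernel)) (hasP (N := 14) (by decide +kernel)) (inB_ok (P := (20, 20)) (b := (550648146034688, 562949953421312)) (by decide +kernel) ⟨le_rfl, Or.inr le_rfl⟩) n0_2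
      (by norm_num) (by norm_num) (by norm_num) (far3 (L := 531193365298330) (H := 531193365298458) (by norm_num) (by norm_num) (by norm_num) hR (by norm_num) (by norm_num))
  have n1_0 : TCellU 13 20 14 x0 0 ((2251799813684 : ℕ) / 2 ^ 48) := tcu_sub (TCellU.of_t (Pool.Agent.CXD.tX13_X20_X14_near_B hz (thr_mir hT) (fB_mi tB))) (by norm_num) le_rfl
  have n1_1 : TCellU 13 20 14 x0 0 ((8444249301320 : ℕ) / 2 ^ 48) := tcu_join n1_0 (TCellU.of_t (Pool.Agent.CXD.tX13_X20_X14_near_h hz (thr_mir hT))) (by norm_num) (by norm_num)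
  have n1_2 : TCellU 13 20 14 x0 0 ((122160139892424 : ℕ) / 2 ^ 48) := tcu_join n1_1 (TCellU.of_t (Pool.Agent.CXD.tX13_X20_X14_near_g hz (thr_mir hT))) (by norm_num) (by norm_num)
  have h1 : QXS 13 20 14 x0 :=
    qxS_rm (by norm_num) (by norm_num) (by norm_num) hT.gt hT.le n1_2
      (Pool.Agent.Helper81.TK.E_14_13_T_midB.T 14 13 20 (hasP (N := 14) (by decide +kernel)) (hasP (N := 13) (by decide +kernel)) (inB_ok (P := (20, 20)) (b := (550648146034688, 562949953421312)) (by decide +kernel) ⟨le_rfl, Or.inr le_rfl⟩) x0 hT.gt hT.le (xh_pt (X := 531193365298394) (by decide +kernel) hK.1 hK.2 hX))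
      (by norm_num) (by norm_num) (by norm_num) (far3 (L := 531193365298330) (H := 531193365298458) (by norm_num) (by norm_num) (by norm_num) hR (by norm_num) (by norm_num))
  exact zf_QS (by norm_num) (by norm_num) (by norm_num) (by norm_num) hT h0 h1.rot2
end E13_14_20

namespace E13_14_21
/-- the triple `(13, 14, 21)` -/
theorem fe : FinAt 13 14 21 := by
  refine z60_13_14_21 fun x0 hX0 hT tB => ?_
  have hX : |2 ^ 48 * x0 - (-((531278157173963 : ℕ) : ℝ))| ≤ ((64 : ℕ) : ℝ) := by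
    push_cast; exact hX0.trans (by norm_num)
  have hK := kz_pm (M := 21) (K := 556662267564994) (by norm_num) (by norm_num) rfl
  have hz := zvX hX
  have hR : ((531278157173899 : ℕ) : ℝ) ≤ -(2 ^ 48 * x0) ∧ -(2 ^ 48 * x0) ≤ ((531278157174027 : ℕ) : ℝ) := by
    rw [abs_le] at hX0; push_cast; constructor <;> linarith [hX0.1, hX0.2]
  have n0_0 : TCellU 13 14 21 x0 0 ((2251799813684 : ℕ) / 2 ^ 48) := tcu_sub (TCellU.of_t (Pool.Agent.CXD.tX13_X14_X21_near_B hz hT tB)) (by norm_num) le_rfl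
  have n0_1 : TCellU 13 14 21 x0 0 ((8444249301320 : ℕ) / 2 ^ 48) := tcu_join n0_0 (TCellU.of_t (Pool.Agent.CXD.tX13_X14_X21_near_h hz hT)) (by norm_num) (by norm_num)
  have n0_2 : TCellU 13 14 21 x0 0 ((122160139892424 : ℕ) / 2 ^ 48) := tcu_join n0_1 (TCellU.of_t (Pool.Agent.CXD.tX13_X14_X21_near_g hz hT)) (by norm_num) (by norm_num)
  have h0 : QXS 13 14 21 x0 :=
    qxS_O (by norm_num) (by norm_num) (by norm_num) hT.gt hT.le (xh_pt (X := 531278157173963) (by decide +kernel) hK.1 hK.2 hX) Pool.Agent.Helper81.TK.E_13_14_T_midB.T (hasP (N := 13) (by decide +kernel)) (hasP (N := 14) (by decide +kernel)) (inB_ok (P := (21, 21)) (b := (550648146034688, 562949953421312)) (by decide +kernel) ⟨le_rfl, Or.inr le_rfl⟩) n0_2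
      (by norm_num) (by norm_num) (by norm_num) (far3 (L := 531278157173899) (H := 531278157174027) (by norm_num) (by norm_num) (by norm_num) hR (by norm_num) (by norm_num))
  have n1_0 : TCellU 13 21 14 x0 0 ((2251799813684 : ℕ) / 2 ^ 48) := tcu_sub (TCellU.of_t (Pool.Agent.CXD.tX13_X21_X14_near_B hz (thr_mir hT) (fB_mi tB))) (by norm_num) le_rfl
  have n1_1 : TCellU 13 21 14 x0 0 ((8444249301320 : ℕ) / 2 ^ 48) := tcu_join n1_0 (TCellU.of_t (Pool.Agent.CXD.tX13_X21_X14_near_h hz (thr_mir hT))) (by norm_num) (by norm_num)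
  have n1_2 : TCellU 13 21 14 x0 0 ((122160139892424 : ℕ) / 2 ^ 48) := tcu_join n1_1 (TCellU.of_t (Pool.Agent.CXD.tX13_X21_X14_near_g hz (thr_mir hT))) (by norm_num) (by norm_num)
  have h1 : QXS 13 21 14 x0 :=
    qxS_rm (by norm_num) (by norm_num) (by norm_num) hT.gt hT.le n1_2
      (Pool.Agent.Helper81.TK.E_14_13_T_midB.T 14 13 21 (hasP (N := 14) (by decide +kernel)) (hasP (N := 13) (by decide +kernel)) (inB_ok (P := (21, 21)) (b := (550648146034688, 562949953421312)) (by decide +kernel) ⟨le_rfl, Or.inr le_rfl⟩) x0 hT.gt hT.le (xh_pt (X := 531278157173963) (by decide +kernel) hK.1 hK.2 hX))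
      (by norm_num) (by norm_num) (by norm_num) (far3 (L := 531278157173899) (H := 531278157174027) (by norm_num) (by norm_num) (by norm_num) hR (by norm_num) (by norm_num))
  exact zf_QS (by norm_num) (by norm_num) (by norm_num) (by norm_num) hT h0 h1.rot2
end E13_14_21

namespace E13_14_22
/-- the triple `(13, 14, 22)` -/
theorem fe : FinAt 13 14 22 := by
  refine z60_13_14_22 fun x0 hX0 hT tB => ?_
  have hX : |2 ^ 48 * x0 - (-((531350750330893 : ℕ) : ℝ))| ≤ ((64 : ℕ) : ℝ) := by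
    push_cast; exact hX0.trans (by norm_num)
  have hK := kz_pm (M := 22) (K := 557219934602287) (by norm_num) (by norm_num) rfl
  have hz := zvX hX
  have hR : ((531350750330829 : ℕ) : ℝ) ≤ -(2 ^ 48 * x0) ∧ -(2 ^ 48 * x0) ≤ ((531350750330957 : ℕ) : ℝ) := by
    rw [abs_le] at hX0; push_cast; constructor <;> linarith [hX0.1, hX0.2]
  have n0_0 : TCellU 13 14 22 x0 0 ((2251799813684 : ℕ) / 2 ^ 48) := tcu_sub (TCellU.of_t (Pool.Agent.CXD.tX13_X14_X22_near_B hz hT tB)) (by norm_num) le_rfl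
  have n0_1 : TCellU 13 14 22 x0 0 ((8444249301320 : ℕ) / 2 ^ 48) := tcu_join n0_0 (TCellU.of_t (Pool.Agent.CXD.tX13_X14_X22_near_h hz hT)) (by norm_num) (by norm_num)
  have n0_2 : TCellU 13 14 22 x0 0 ((122160139892424 : ℕ) / 2 ^ 48) := tcu_join n0_1 (TCellU.of_t (Pool.Agent.CXD.tX13_X14_X22_near_g hz hT)) (by norm_num) (by norm_num)
  have h0 : QXS 13 14 22 x0 :=
    qxS_O (by norm_num) (by norm_num) (by norm_num) hT.gt hT.le (xh_pt (X := 531350750330893) (by decide +kernel) hK.1 hK.2 hX) Pool.Agent.Helper81.TK.E_13_14_T_midB.T (hasP (N := 13) (by decide +kernel)) (hasP (N := 14) (by decide +kernel)) (inB_ok (P := (22, 22)) (b := (550648146034688, 562949953421312)) (by decide +kernel) ⟨le_rfl, Or.inr le_rfl⟩) n0_2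
      (by norm_num) (by norm_num) (by norm_num) (far3 (L := 531350750330829) (H := 531350750330957) (by norm_num) (by norm_num) (by norm_num) hR (by norm_num) (by norm_num))
  have n1_0 : TCellU 13 22 14 x0 0 ((2251799813684 : ℕ) / 2 ^ 48) := tcu_sub (TCellU.of_t (Pool.Agent.CXD.tX13_X22_X14_near_B hz (thr_mir hT) (fB_mi tB))) (by norm_num) le_rfl
  have n1_1 : TCellU 13 22 14 x0 0 ((8444249301320 : ℕ) / 2 ^ 48) := tcu_join n1_0 (TCellU.of_t (Pool.Agent.CXD.tX13_X22_X14_near_h hz (thr_mir hT))) (by norm_num) (by norm_num)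
  have n1_2 : TCellU 13 22 14 x0 0 ((122160139892424 : ℕ) / 2 ^ 48) := tcu_join n1_1 (TCellU.of_t (Pool.Agent.CXD.tX13_X22_X14_near_g hz (thr_mir hT))) (by norm_num) (by norm_num)
  have h1 : QXS 13 22 14 x0 :=
    qxS_rm (by norm_num) (by norm_num) (by norm_num) hT.gt hT.le n1_2
      (Pool.Agent.Helper81.TK.E_14_13_T_midB.T 14 13 22 (hasP (N := 14) (by decide +kernel)) (hasP (N := 13) (by decide +kernel)) (inB_ok (P := (22, 22)) (b := (550648146034688, 562949953421312)) (by decide +kernel) ⟨le_rfl, Or.inr le_rfl⟩) x0 hT.gt hT.le (xh_pt (X := 531350750330893) (by decide +kernel) hK.1 hK.2 hX))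
      (by norm_num) (by norm_num) (by norm_num) (far3 (L := 531350750330829) (H := 531350750330957) (by norm_num) (by norm_num) (by norm_num) hR (by norm_num) (by norm_num))
  exact zf_QS (by norm_num) (by norm_num) (by norm_num) (by norm_num) hT h0 h1.rot2
end E13_14_22

namespace E13_14_23
/-- the triple `(13, 14, 23)` -/
theorem fe : FinAt 13 14 23 := by
  refine z60_13_14_23 fun x0 hX0 hT tB => ?_
  have hX : |2 ^ 48 * x0 - (-((531413405168403 : ℕ) : ℝ))| ≤ ((64 : ℕ) : ℝ) := by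
    push_cast; exact hX0.trans (by norm_num)
  have hK := kz_pm (M := 23) (K := 557706607176301) (by norm_num) (by norm_num) rfl
  have hR : ((531413405168339 : ℕ) : ℝ) ≤ -(2 ^ 48 * x0) ∧ -(2 ^ 48 * x0) ≤ ((531413405168467 : ℕ) : ℝ) := by
    rw [abs_le] at hX0; push_cast; constructor <;> linarith [hX0.1, hX0.2]
  have n0_0 : TCellU 13 14 23 x0 0 ((56294995344 : ℕ) / 2 ^ 48) := tcu_sub (Pool.Agent.CXD.tX13X14T_nearBz0 (inB_ok (P := (23, 23)) (b := (557703256342528, 560135207124992)) (by decide +kernel) ⟨le_rfl, Or.inr le_rfl⟩) (xh_pt (X := 531413405168403) (by decide +kernel) hK.1 hK.2 hX) hT tB) (by norm_num) le_rfl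
  have n0_1 : TCellU 13 14 23 x0 0 ((281474976712 : ℕ) / 2 ^ 48) := tcu_join n0_0 (Pool.Agent.CXD.tX13X14T_nearBg1g (inB_ok (P := (23, 23)) (b := (557706606542848, 558133839134720)) (by decide +kernel) ⟨le_rfl, Or.inr le_rfl⟩) (xh_pt (X := 531413405168403) (by decide +kernel) hK.1 hK.2 hX) hT tB) (by norm_num) (by norm_num)
  have n0_2 : TCellU 13 14 23 x0 0 ((703687441776 : ℕ) / 2 ^ 48) := tcu_join n0_1 (Pool.Agent.CXD.tX13X14T_nearBg (inB_ok (P := (23, 23)) (b := (557704472690688, 560135203717120)) (by decide +kernel) ⟨le_rfl, Or.inr le_rfl⟩) (xh_pt (X := 531413405168403) (by decide +kernel) hK.1 hK.2 hX) hT tB) (by norm_num) (by norm_num)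
  have n0_3 : TCellU 13 14 23 x0 0 ((22517998136852 : ℕ) / 2 ^ 48) := tcu_join n0_2 (Pool.Agent.CXD.tX13X14T_nearBbg (inB_ok (P := (23, 23)) (b := (557704472690688, 560135203717120)) (by decide +kernel) ⟨le_rfl, Or.inr le_rfl⟩) (xh_pt (X := 531413405168403) (by decide +kernel) hK.1 hK.2 hX) hT tB) (by norm_num) (by norm_num)
  have n0_4 : TCellU 13 14 23 x0 0 ((122160139892424 : ℕ) / 2 ^ 48) := tcu_join n0_3 (Pool.Agent.CXD.tX13X14T_nearBa (inB_ok (P := (23, 23)) (b := (557704472690688, 560135203717120)) (by decide +kernel) ⟨le_rfl, Or.inr le_rfl⟩) (xh_pt (X := 531413405168403) (by decide +kernel) hK.1 hK.2 hX) hT) (by norm_num) (by norm_num)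
  have h0 : QXS 13 14 23 x0 :=
    qxS_O (by norm_num) (by norm_num) (by norm_num) hT.gt hT.le (xh_pt (X := 531413405168403) (by decide +kernel) hK.1 hK.2 hX) Pool.Agent.Helper81.TK.E_13_14_T_midB.T (hasP (N := 13) (by decide +kernel)) (hasP (N := 14) (by decide +kernel)) (inB_ok (P := (23, 23)) (b := (550648146034688, 562949953421312)) (by decide +kernel) ⟨le_rfl, Or.inr le_rfl⟩) n0_4
      (by norm_num) (by norm_num) (by norm_num) (far3 (L := 531413405168339) (H := 531413405168467) (by norm_num) (by norm_num) (by norm_num) hR (by norm_num) (by norm_num))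
  have n1_0 : TCellU 14 13 23 x0 0 ((56294995344 : ℕ) / 2 ^ 48) := tcu_sub (Pool.Agent.CXD.tX14X13T_nearBz0 (inB_ok (P := (23, 23)) (b := (557703256342528, 560135207124992)) (by decide +kernel) ⟨le_rfl, Or.inr le_rfl⟩) (xh_pt (X := 531413405168403) (by decide +kernel) hK.1 hK.2 hX) hT.swap (fB_sw tB)) (by norm_num) le_rfl
  have n1_1 : TCellU 14 13 23 x0 0 ((277573585192 : ℕ) / 2 ^ 48) := tcu_join n1_0 (Pool.Agent.CXD.tX14X13T_nearBc1 (inB_ok (P := (23, 23)) (b := (557706606542848, 558133839134720)) (by decide +kernel) ⟨le_rfl, Or.inr le_rfl⟩) (xh_pt (X := 531413405168403) (by decide +kernel) hK.1 hK.2 hX) hT.swap (fB_sw tB)) (by norm_num) (by norm_num)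
  have n1_2 : TCellU 14 13 23 x0 0 ((836925941908 : ℕ) / 2 ^ 48) := tcu_join n1_1 (Pool.Agent.CXD.tX14X13T_nearBc (inB_ok (P := (23, 23)) (b := (557703259750400, 560135203717120)) (by decide +kernel) ⟨le_rfl, Or.inr le_rfl⟩) (xh_pt (X := 531413405168403) (by decide +kernel) hK.1 hK.2 hX) hT.swap (fB_sw tB)) (by norm_num) (by norm_num)
  have n1_3 : TCellU 14 13 23 x0 0 ((26235244407076 : ℕ) / 2 ^ 48) := tcu_join n1_2 (Pool.Agent.CXD.tX14X13T_nearBbg (inB_ok (P := (23, 23)) (b := (557703259750400, 560135203717120)) (by decide +kernel) ⟨le_rfl, Or.inr le_rfl⟩) (xh_pt (X := 531413405168403) (by decide +kernel) hK.1 hK.2 hX) hT.swap (fB_sw tB)) (by norm_num) (by norm_num)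
  have n1_4 : TCellU 14 13 23 x0 0 ((122160139892424 : ℕ) / 2 ^ 48) := tcu_join n1_3 (Pool.Agent.CXD.tX14X13T_nearBa (inB_ok (P := (23, 23)) (b := (557703259750400, 560135203717120)) (by decide +kernel) ⟨le_rfl, Or.inr le_rfl⟩) (xh_pt (X := 531413405168403) (by decide +kernel) hK.1 hK.2 hX) hT.swap) (by norm_num) (by norm_num)
  have h1 : QXS 14 13 23 x0 :=
    qxS_O (by norm_num) (by norm_num) (by norm_num) hT.gt hT.le (xh_pt (X := 531413405168403) (by decide +kernel) hK.1 hK.2 hX) Pool.Agent.Helper81.TK.E_14_13_T_midB.T (hasP (N := 14) (by decide +kernel)) (hasP (N := 13) (by decide +kernel)) (inB_ok (P := (23, 23)) (b := (550648146034688, 562949953421312)) (by decide +kernel) ⟨le_rfl, Or.inr le_rfl⟩) n1_4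
      (by norm_num) (by norm_num) (by norm_num) (far3 (L := 531413405168339) (H := 531413405168467) (by norm_num) (by norm_num) (by norm_num) hR (by norm_num) (by norm_num))
  exact zf_QS (by norm_num) (by norm_num) (by norm_num) (by norm_num) hT h0 h1
end E13_14_23

namespace E13_14_24
/-- the triple `(13, 14, 24)` -/
theorem fe : FinAt 13 14 24 := by
  refine z60_13_14_24 fun x0 hX0 hT tB => ?_
  have hX : |2 ^ 48 * x0 - (-((531467876838894 : ℕ) : ℝ))| ≤ ((64 : ℕ) : ℝ) := by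
    push_cast; exact hX0.trans (by norm_num)
  have hK := kz_pm (M := 24) (K := 558133838530186) (by norm_num) (by norm_num) rfl
  have hR : ((531467876838830 : ℕ) : ℝ) ≤ -(2 ^ 48 * x0) ∧ -(2 ^ 48 * x0) ≤ ((531467876838958 : ℕ) : ℝ) := by
    rw [abs_le] at hX0; push_cast; constructor <;> linarith [hX0.1, hX0.2]
  have n0_0 : TCellU 13 14 24 x0 0 ((56294995344 : ℕ) / 2 ^ 48) := tcu_sub (Pool.Agent.CXD.tX13X14T_nearBz0 (inB_ok (P := (24, 24)) (b := (557703256342528, 560135207124992)) (by decide +kernel) ⟨le_rfl, Or.inr le_rfl⟩) (xh_pt (X := 531467876838894) (by decide +kernel) hK.1 hK.2 hX) hT tB) (by norm_num) le_rfl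
  have n0_1 : TCellU 13 14 24 x0 0 ((281474976712 : ℕ) / 2 ^ 48) := tcu_join n0_0 (Pool.Agent.CXD.tX13X14T_nearBg1g (inB_ok (P := (24, 24)) (b := (557706606542848, 558133839134720)) (by decide +kernel) ⟨le_rfl, Or.inr le_rfl⟩) (xh_pt (X := 531467876838894) (by decide +kernel) hK.1 hK.2 hX) hT tB) (by norm_num) (by norm_num)
  have n0_2 : TCellU 13 14 24 x0 0 ((703687441776 : ℕ) / 2 ^ 48) := tcu_join n0_1 (Pool.Agent.CXD.tX13X14T_nearBg (inB_ok (P := (24, 24)) (b := (557704472690688, 560135203717120)) (by decide +kernel) ⟨le_rfl, Or.inr le_rfl⟩) (xh_pt (X := 531467876838894) (by decide +kernel) hK.1 hK.2 hX) hT tB) (by norm_num) (by norm_num)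
  have n0_3 : TCellU 13 14 24 x0 0 ((22517998136852 : ℕ) / 2 ^ 48) := tcu_join n0_2 (Pool.Agent.CXD.tX13X14T_nearBbg (inB_ok (P := (24, 24)) (b := (557704472690688, 560135203717120)) (by decide +kernel) ⟨le_rfl, Or.inr le_rfl⟩) (xh_pt (X := 531467876838894) (by decide +kernel) hK.1 hK.2 hX) hT tB) (by norm_num) (by norm_num)
  have n0_4 : TCellU 13 14 24 x0 0 ((122160139892424 : ℕ) / 2 ^ 48) := tcu_join n0_3 (Pool.Agent.CXD.tX13X14T_nearBa (inB_ok (P := (24, 24)) (b := (557704472690688, 560135203717120)) (by decide +kernel) ⟨le_rfl, Or.inr le_rfl⟩) (xh_pt (X := 531467876838894) (by decide +kernel) hK.1 hK.2 hX) hT) (by norm_num) (by norm_num)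
  have h0 : QXS 13 14 24 x0 :=
    qxS_O (by norm_num) (by norm_num) (by norm_num) hT.gt hT.le (xh_pt (X := 531467876838894) (by decide +kernel) hK.1 hK.2 hX) Pool.Agent.Helper81.TK.E_13_14_T_midB.T (hasP (N := 13) (by decide +kernel)) (hasP (N := 14) (by decide +kernel)) (inB_ok (P := (24, 24)) (b := (550648146034688, 562949953421312)) (by decide +kernel) ⟨le_rfl, Or.inr le_rfl⟩) n0_4
      (by norm_num) (by norm_num) (by norm_num) (far3 (L := 531467876838830) (H := 531467876838958) (by norm_num) (by norm_num) (by norm_num) hR (by norm_num) (by norm_num))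
  have n1_0 : TCellU 14 13 24 x0 0 ((56294995344 : ℕ) / 2 ^ 48) := tcu_sub (Pool.Agent.CXD.tX14X13T_nearBz0 (inB_ok (P := (24, 24)) (b := (557703256342528, 560135207124992)) (by decide +kernel) ⟨le_rfl, Or.inr le_rfl⟩) (xh_pt (X := 531467876838894) (by decide +kernel) hK.1 hK.2 hX) hT.swap (fB_sw tB)) (by norm_num) le_rfl
  have n1_1 : TCellU 14 13 24 x0 0 ((277573585192 : ℕ) / 2 ^ 48) := tcu_join n1_0 (Pool.Agent.CXD.tX14X13T_nearBc1 (inB_ok (P := (24, 24)) (b := (557706606542848, 558133839134720)) (by decide +kernel) ⟨le_rfl, Or.inr le_rfl⟩) (xh_pt (X := 531467876838894) (by decide +kernel) hK.1 hK.2 hX) hT.swap (fB_sw tB)) (by norm_num) (by norm_num)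
  have n1_2 : TCellU 14 13 24 x0 0 ((836925941908 : ℕ) / 2 ^ 48) := tcu_join n1_1 (Pool.Agent.CXD.tX14X13T_nearBc (inB_ok (P := (24, 24)) (b := (557703259750400, 560135203717120)) (by decide +kernel) ⟨le_rfl, Or.inr le_rfl⟩) (xh_pt (X := 531467876838894) (by decide +kernel) hK.1 hK.2 hX) hT.swap (fB_sw tB)) (by norm_num) (by norm_num)
  have n1_3 : TCellU 14 13 24 x0 0 ((26235244407076 : ℕ) / 2 ^ 48) := tcu_join n1_2 (Pool.Agent.CXD.tX14X13T_nearBbg (inB_ok (P := (24, 24)) (b := (557703259750400, 560135203717120)) (by decide +kernel) ⟨le_rfl, Or.inr le_rfl⟩) (xh_pt (X := 531467876838894) (by decide +kernel) hK.1 hK.2 hX) hT.swap (fB_sw tB)) (by norm_num) (by norm_num)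
  have n1_4 : TCellU 14 13 24 x0 0 ((122160139892424 : ℕ) / 2 ^ 48) := tcu_join n1_3 (Pool.Agent.CXD.tX14X13T_nearBa (inB_ok (P := (24, 24)) (b := (557703259750400, 560135203717120)) (by decide +kernel) ⟨le_rfl, Or.inr le_rfl⟩) (xh_pt (X := 531467876838894) (by decide +kernel) hK.1 hK.2 hX) hT.swap) (by norm_num) (by norm_num)
  have h1 : QXS 14 13 24 x0 :=
    qxS_O (by norm_num) (by norm_num) (by norm_num) hT.gt hT.le (xh_pt (X := 531467876838894) (by decide +kernel) hK.1 hK.2 hX) Pool.Agent.Helper81.TK.E_14_13_T_midB.T (hasP (N := 14) (by decide +kernel)) (hasP (N := 13) (by decide +kernel)) (inB_ok (P := (24, 24)) (b := (550648146034688, 562949953421312)) (by decide +kernel) ⟨le_rfl, Or.inr le_rfl⟩) n1_4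
      (by norm_num) (by norm_num) (by norm_num) (far3 (L := 531467876838830) (H := 531467876838958) (by norm_num) (by norm_num) (by norm_num) hR (by norm_num) (by norm_num))
  exact zf_QS (by norm_num) (by norm_num) (by norm_num) (by norm_num) hT h0 h1
end E13_14_24

namespace E13_14_25
/-- the triple `(13, 14, 25)` -/
theorem fe : FinAt 13 14 25 := by
  refine z60_13_14_25 fun x0 hX0 hT tB => ?_
  have hX : |2 ^ 48 * x0 - (-((531515545965181 : ℕ) : ℝ))| ≤ ((64 : ℕ) : ℝ) := by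
    push_cast; exact hX0.trans (by norm_num)
  have hK := kz_pm (M := 25) (K := 558510924893584) (by norm_num) (by norm_num) rfl
  have hR : ((531515545965117 : ℕ) : ℝ) ≤ -(2 ^ 48 * x0) ∧ -(2 ^ 48 * x0) ≤ ((531515545965245 : ℕ) : ℝ) := by
    rw [abs_le] at hX0; push_cast; constructor <;> linarith [hX0.1, hX0.2]
  have n0_0 : TCellU 13 14 25 x0 0 ((56294995344 : ℕ) / 2 ^ 48) := tcu_sub (Pool.Agent.CXD.tX13X14T_nearBz0 (inB_ok (P := (25, 25)) (b := (557703256342528, 560135207124992)) (by decide +kernel) ⟨le_rfl, Or.inr le_rfl⟩) (xh_pt (X := 531515545965181) (by decide +kernel) hK.1 hK.2 hX) hT tB) (by norm_num) le_rfl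
  have n0_1 : TCellU 13 14 25 x0 0 ((281474976712 : ℕ) / 2 ^ 48) := tcu_join n0_0 (Pool.Agent.CXD.tX13X14T_nearBg2g (inB_ok (P := (25, 25)) (b := (558510924365824, 559143487799296)) (by decide +kernel) ⟨le_rfl, Or.inr le_rfl⟩) (xh_pt (X := 531515545965181) (by decide +kernel) hK.1 hK.2 hX) hT tB) (by norm_num) (by norm_num)
  have n0_2 : TCellU 13 14 25 x0 0 ((703687441776 : ℕ) / 2 ^ 48) := tcu_join n0_1 (Pool.Agent.CXD.tX13X14T_nearBg (inB_ok (P := (25, 25)) (b := (557704472690688, 560135203717120)) (by decide +kernel) ⟨le_rfl, Or.inr le_rfl⟩) (xh_pt (X := 531515545965181) (by decide +kernel) hK.1 hK.2 hX) hT tB) (by norm_num) (by norm_num)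
  have n0_3 : TCellU 13 14 25 x0 0 ((22517998136852 : ℕ) / 2 ^ 48) := tcu_join n0_2 (Pool.Agent.CXD.tX13X14T_nearBbg (inB_ok (P := (25, 25)) (b := (557704472690688, 560135203717120)) (by decide +kernel) ⟨le_rfl, Or.inr le_rfl⟩) (xh_pt (X := 531515545965181) (by decide +kernel) hK.1 hK.2 hX) hT tB) (by norm_num) (by norm_num)
  have n0_4 : TCellU 13 14 25 x0 0 ((122160139892424 : ℕ) / 2 ^ 48) := tcu_join n0_3 (Pool.Agent.CXD.tX13X14T_nearBa (inB_ok (P := (25, 25)) (b := (557704472690688, 560135203717120)) (by decide +kernel) ⟨le_rfl, Or.inr le_rfl⟩) (xh_pt (X := 531515545965181) (by decide +kernel) hK.1 hK.2 hX) hT) (by norm_num) (by norm_num)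
  have h0 : QXS 13 14 25 x0 :=
    qxS_O (by norm_num) (by norm_num) (by norm_num) hT.gt hT.le (xh_pt (X := 531515545965181) (by decide +kernel) hK.1 hK.2 hX) Pool.Agent.Helper81.TK.E_13_14_T_midB.T (hasP (N := 13) (by decide +kernel)) (hasP (N := 14) (by decide +kernel)) (inB_ok (P := (25, 25)) (b := (550648146034688, 562949953421312)) (by decide +kernel) ⟨le_rfl, Or.inr le_rfl⟩) n0_4
      (by norm_num) (by norm_num) (by norm_num) (far3 (L := 531515545965117) (H := 531515545965245) (by norm_num) (by norm_num) (by norm_num) hR (by norm_num) (by norm_num))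
  have n1_0 : TCellU 14 13 25 x0 0 ((56294995344 : ℕ) / 2 ^ 48) := tcu_sub (Pool.Agent.CXD.tX14X13T_nearBz0 (inB_ok (P := (25, 25)) (b := (557703256342528, 560135207124992)) (by decide +kernel) ⟨le_rfl, Or.inr le_rfl⟩) (xh_pt (X := 531515545965181) (by decide +kernel) hK.1 hK.2 hX) hT.swap (fB_sw tB)) (by norm_num) le_rfl
  have n1_1 : TCellU 14 13 25 x0 0 ((277573585192 : ℕ) / 2 ^ 48) := tcu_join n1_0 (Pool.Agent.CXD.tX14X13T_nearBc2g (inB_ok (P := (25, 25)) (b := (558510924365824, 559143487799296)) (by decide +kernel) ⟨le_rfl, Or.inr le_rfl⟩) (xh_pt (X := 531515545965181) (by decide +kernel) hK.1 hK.2 hX) hT.swap (fB_sw tB)) (by norm_num) (by norm_num)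
  have n1_2 : TCellU 14 13 25 x0 0 ((836925941908 : ℕ) / 2 ^ 48) := tcu_join n1_1 (Pool.Agent.CXD.tX14X13T_nearBc (inB_ok (P := (25, 25)) (b := (557703259750400, 560135203717120)) (by decide +kernel) ⟨le_rfl, Or.inr le_rfl⟩) (xh_pt (X := 531515545965181) (by decide +kernel) hK.1 hK.2 hX) hT.swap (fB_sw tB)) (by norm_num) (by norm_num)
  have n1_3 : TCellU 14 13 25 x0 0 ((26235244407076 : ℕ) / 2 ^ 48) := tcu_join n1_2 (Pool.Agent.CXD.tX14X13T_nearBbg (inB_ok (P := (25, 25)) (b := (557703259750400, 560135203717120)) (by decide +kernel) ⟨le_rfl, Or.inr le_rfl⟩) (xh_pt (X := 531515545965181) (by decide +kernel) hK.1 hK.2 hX) hT.swap (fB_sw tB)) (by norm_num) (by norm_num)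
  have n1_4 : TCellU 14 13 25 x0 0 ((122160139892424 : ℕ) / 2 ^ 48) := tcu_join n1_3 (Pool.Agent.CXD.tX14X13T_nearBa (inB_ok (P := (25, 25)) (b := (557703259750400, 560135203717120)) (by decide +kernel) ⟨le_rfl, Or.inr le_rfl⟩) (xh_pt (X := 531515545965181) (by decide +kernel) hK.1 hK.2 hX) hT.swap) (by norm_num) (by norm_num)
  have h1 : QXS 14 13 25 x0 :=
    qxS_O (by norm_num) (by norm_num) (by norm_num) hT.gt hT.le (xh_pt (X := 531515545965181) (by decide +kernel) hK.1 hK.2 hX) Pool.Agent.Helper81.TK.E_14_13_T_midB.T (hasP (N := 14) (by decide +kernel)) (hasP (N := 13) (by decide +kernel)) (inB_ok (P := (25, 25)) (b := (550648146034688, 562949953421312)) (by decide +kernel) ⟨le_rfl, Or.inr le_rfl⟩) n1_4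
      (by norm_num) (by norm_num) (by norm_num) (far3 (L := 531515545965117) (H := 531515545965245) (by norm_num) (by norm_num) (by norm_num) hR (by norm_num) (by norm_num))
  exact zf_QS (by norm_num) (by norm_num) (by norm_num) (by norm_num) hT h0 h1
end E13_14_25

namespace E13_14_26
/-- the triple `(13, 14, 26)` -/
theorem fe : FinAt 13 14 26 := by
  refine z60_13_14_26 fun x0 hX0 hT tB => ?_
  have hX : |2 ^ 48 * x0 - (-((531557511302111 : ℕ) : ℝ))| ≤ ((64 : ℕ) : ℝ) := by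
    push_cast; exact hX0.trans (by norm_num)
  have hK := kz_pm (M := 26) (K := 558845414434423) (by norm_num) (by norm_num) rfl
  have hR : ((531557511302047 : ℕ) : ℝ) ≤ -(2 ^ 48 * x0) ∧ -(2 ^ 48 * x0) ≤ ((531557511302175 : ℕ) : ℝ) := by
    rw [abs_le] at hX0; push_cast; constructor <;> linarith [hX0.1, hX0.2]
  have n0_0 : TCellU 13 14 26 x0 0 ((56294995344 : ℕ) / 2 ^ 48) := tcu_sub (Pool.Agent.CXD.tX13X14T_nearBz0 (inB_ok (P := (26, 26)) (b := (557703256342528, 560135207124992)) (by decide +kernel) ⟨le_rfl, Or.inr le_rfl⟩) (xh_pt (X := 531557511302111) (by decide +kernel) hK.1 hK.2 hX) hT tB) (by norm_num) le_rfl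
  have n0_1 : TCellU 13 14 26 x0 0 ((281474976712 : ℕ) / 2 ^ 48) := tcu_join n0_0 (Pool.Agent.CXD.tX13X14T_nearBg2g (inB_ok (P := (26, 26)) (b := (558510924365824, 559143487799296)) (by decide +kernel) ⟨le_rfl, Or.inr le_rfl⟩) (xh_pt (X := 531557511302111) (by decide +kernel) hK.1 hK.2 hX) hT tB) (by norm_num) (by norm_num)
  have n0_2 : TCellU 13 14 26 x0 0 ((703687441776 : ℕ) / 2 ^ 48) := tcu_join n0_1 (Pool.Agent.CXD.tX13X14T_nearBg (inB_ok (P := (26, 26)) (b := (557704472690688, 560135203717120)) (by decide +kernel) ⟨le_rfl, Or.inr le_rfl⟩) (xh_pt (X := 531557511302111) (by decide +kernel) hK.1 hK.2 hX) hT tB) (by norm_num) (by norm_num)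
  have n0_3 : TCellU 13 14 26 x0 0 ((22517998136852 : ℕ) / 2 ^ 48) := tcu_join n0_2 (Pool.Agent.CXD.tX13X14T_nearBbg (inB_ok (P := (26, 26)) (b := (557704472690688, 560135203717120)) (by decide +kernel) ⟨le_rfl, Or.inr le_rfl⟩) (xh_pt (X := 531557511302111) (by decide +kernel) hK.1 hK.2 hX) hT tB) (by norm_num) (by norm_num)
  have n0_4 : TCellU 13 14 26 x0 0 ((122160139892424 : ℕ) / 2 ^ 48) := tcu_join n0_3 (Pool.Agent.CXD.tX13X14T_nearBa (inB_ok (P := (26, 26)) (b := (557704472690688, 560135203717120)) (by decide +kernel) ⟨le_rfl, Or.inr le_rfl⟩) (xh_pt (X := 531557511302111) (by decide +kernel) hK.1 hK.2 hX) hT) (by norm_num) (by norm_num)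
  have h0 : QXS 13 14 26 x0 :=
    qxS_O (by norm_num) (by norm_num) (by norm_num) hT.gt hT.le (xh_pt (X := 531557511302111) (by decide +kernel) hK.1 hK.2 hX) Pool.Agent.Helper81.TK.E_13_14_T_midB.T (hasP (N := 13) (by decide +kernel)) (hasP (N := 14) (by decide +kernel)) (inB_ok (P := (26, 26)) (b := (550648146034688, 562949953421312)) (by decide +kernel) ⟨le_rfl, Or.inr le_rfl⟩) n0_4
      (by norm_num) (by norm_num) (by norm_num) (far3 (L := 531557511302047) (H := 531557511302175) (by norm_num) (by norm_num) (by norm_num) hR (by norm_num) (by norm_num))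
  have n1_0 : TCellU 14 13 26 x0 0 ((56294995344 : ℕ) / 2 ^ 48) := tcu_sub (Pool.Agent.CXD.tX14X13T_nearBz0 (inB_ok (P := (26, 26)) (b := (557703256342528, 560135207124992)) (by decide +kernel) ⟨le_rfl, Or.inr le_rfl⟩) (xh_pt (X := 531557511302111) (by decide +kernel) hK.1 hK.2 hX) hT.swap (fB_sw tB)) (by norm_num) le_rfl
  have n1_1 : TCellU 14 13 26 x0 0 ((277573585192 : ℕ) / 2 ^ 48) := tcu_join n1_0 (Pool.Agent.CXD.tX14X13T_nearBc2g (inB_ok (P := (26, 26)) (b := (558510924365824, 559143487799296)) (by decide +kernel) ⟨le_rfl, Or.inr le_rfl⟩) (xh_pt (X := 531557511302111) (by decide +kernel) hK.1 hK.2 hX) hT.swap (fB_sw tB)) (by norm_num) (by norm_num)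
  have n1_2 : TCellU 14 13 26 x0 0 ((836925941908 : ℕ) / 2 ^ 48) := tcu_join n1_1 (Pool.Agent.CXD.tX14X13T_nearBc (inB_ok (P := (26, 26)) (b := (557703259750400, 560135203717120)) (by decide +kernel) ⟨le_rfl, Or.inr le_rfl⟩) (xh_pt (X := 531557511302111) (by decide +kernel) hK.1 hK.2 hX) hT.swap (fB_sw tB)) (by norm_num) (by norm_num)
  have n1_3 : TCellU 14 13 26 x0 0 ((26235244407076 : ℕ) / 2 ^ 48) := tcu_join n1_2 (Pool.Agent.CXD.tX14X13T_nearBbg (inB_ok (P := (26, 26)) (b := (557703259750400, 560135203717120)) (by decide +kernel) ⟨le_rfl, Or.inr le_rfl⟩) (xh_pt (X := 531557511302111) (by decide +kernel) hK.1 hK.2 hX) hT.swap (fB_sw tB)) (by norm_num) (by norm_num)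
  have n1_4 : TCellU 14 13 26 x0 0 ((122160139892424 : ℕ) / 2 ^ 48) := tcu_join n1_3 (Pool.Agent.CXD.tX14X13T_nearBa (inB_ok (P := (26, 26)) (b := (557703259750400, 560135203717120)) (by decide +kernel) ⟨le_rfl, Or.inr le_rfl⟩) (xh_pt (X := 531557511302111) (by decide +kernel) hK.1 hK.2 hX) hT.swap) (by norm_num) (by norm_num)
  have h1 : QXS 14 13 26 x0 :=
    qxS_O (by norm_num) (by norm_num) (by norm_num) hT.gt hT.le (xh_pt (X := 531557511302111) (by decide +kernel) hK.1 hK.2 hX) Pool.Agent.Helper81.TK.E_14_13_T_midB.T (hasP (N := 14) (by decide +kernel)) (hasP (N := 13) (by decide +kernel)) (inB_ok (P := (26, 26)) (b := (550648146034688, 562949953421312)) (by decide +kernel) ⟨le_rfl, Or.inr le_rfl⟩) n1_4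
      (by norm_num) (by norm_num) (by norm_num) (far3 (L := 531557511302047) (H := 531557511302175) (by norm_num) (by norm_num) (by norm_num) hR (by norm_num) (by norm_num))
  exact zf_QS (by norm_num) (by norm_num) (by norm_num) (by norm_num) hT h0 h1
end E13_14_26

namespace E13_14_27
/-- the triple `(13, 14, 27)` -/
theorem fe : FinAt 13 14 27 := by
  refine z60_13_14_27 fun x0 hX0 hT tB => ?_
  have hX : |2 ^ 48 * x0 - (-((531594656558618 : ℕ) : ℝ))| ≤ ((64 : ℕ) : ℝ) := by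
    push_cast; exact hX0.trans (by norm_num)
  have hK := kz_pm (M := 27) (K := 559143487227087) (by norm_num) (by norm_num) rfl
  have hR : ((531594656558554 : ℕ) : ℝ) ≤ -(2 ^ 48 * x0) ∧ -(2 ^ 48 * x0) ≤ ((531594656558682 : ℕ) : ℝ) := by
    rw [abs_le] at hX0; push_cast; constructor <;> linarith [hX0.1, hX0.2]
  have n0_0 : TCellU 13 14 27 x0 0 ((56294995344 : ℕ) / 2 ^ 48) := tcu_sub (Pool.Agent.CXD.tX13X14T_nearBz0 (inB_ok (P := (27, 27)) (b := (557703256342528, 560135207124992)) (by decide +kernel) ⟨le_rfl, Or.inr le_rfl⟩) (xh_pt (X := 531594656558618) (by decide +kernel) hK.1 hK.2 hX) hT tB) (by norm_num) le_rfl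
  have n0_1 : TCellU 13 14 27 x0 0 ((281474976712 : ℕ) / 2 ^ 48) := tcu_join n0_0 (Pool.Agent.CXD.tX13X14T_nearBg2g (inB_ok (P := (27, 27)) (b := (558510924365824, 559143487799296)) (by decide +kernel) ⟨le_rfl, Or.inr le_rfl⟩) (xh_pt (X := 531594656558618) (by decide +kernel) hK.1 hK.2 hX) hT tB) (by norm_num) (by norm_num)
  have n0_2 : TCellU 13 14 27 x0 0 ((703687441776 : ℕ) / 2 ^ 48) := tcu_join n0_1 (Pool.Agent.CXD.tX13X14T_nearBg (inB_ok (P := (27, 27)) (b := (557704472690688, 560135203717120)) (by decide +kernel) ⟨le_rfl, Or.inr le_rfl⟩) (xh_pt (X := 531594656558618) (by decide +kernel) hK.1 hK.2 hX) hT tB) (by norm_num) (by norm_num)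
  have n0_3 : TCellU 13 14 27 x0 0 ((22517998136852 : ℕ) / 2 ^ 48) := tcu_join n0_2 (Pool.Agent.CXD.tX13X14T_nearBbg (inB_ok (P := (27, 27)) (b := (557704472690688, 560135203717120)) (by decide +kernel) ⟨le_rfl, Or.inr le_rfl⟩) (xh_pt (X := 531594656558618) (by decide +kernel) hK.1 hK.2 hX) hT tB) (by norm_num) (by norm_num)
  have n0_4 : TCellU 13 14 27 x0 0 ((122160139892424 : ℕ) / 2 ^ 48) := tcu_join n0_3 (Pool.Agent.CXD.tX13X14T_nearBa (inB_ok (P := (27, 27)) (b := (557704472690688, 560135203717120)) (by decide +kernel) ⟨le_rfl, Or.inr le_rfl⟩) (xh_pt (X := 531594656558618) (by decide +kernel) hK.1 hK.2 hX) hT) (by norm_num) (by norm_num)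
  have h0 : QXS 13 14 27 x0 :=
    qxS_O (by norm_num) (by norm_num) (by norm_num) hT.gt hT.le (xh_pt (X := 531594656558618) (by decide +kernel) hK.1 hK.2 hX) Pool.Agent.Helper81.TK.E_13_14_T_midB.T (hasP (N := 13) (by decide +kernel)) (hasP (N := 14) (by decide +kernel)) (inB_ok (P := (27, 27)) (b := (550648146034688, 562949953421312)) (by decide +kernel) ⟨le_rfl, Or.inr le_rfl⟩) n0_4
      (by norm_num) (by norm_num) (by norm_num) (far3 (L := 531594656558554) (H := 531594656558682) (by norm_num) (by norm_num) (by norm_num) hR (by norm_num) (by norm_num))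
  have n1_0 : TCellU 14 13 27 x0 0 ((56294995344 : ℕ) / 2 ^ 48) := tcu_sub (Pool.Agent.CXD.tX14X13T_nearBz0 (inB_ok (P := (27, 27)) (b := (557703256342528, 560135207124992)) (by decide +kernel) ⟨le_rfl, Or.inr le_rfl⟩) (xh_pt (X := 531594656558618) (by decide +kernel) hK.1 hK.2 hX) hT.swap (fB_sw tB)) (by norm_num) le_rfl
  have n1_1 : TCellU 14 13 27 x0 0 ((277573585192 : ℕ) / 2 ^ 48) := tcu_join n1_0 (Pool.Agent.CXD.tX14X13T_nearBc2g (inB_ok (P := (27, 27)) (b := (558510924365824, 559143487799296)) (by decide +kernel) ⟨le_rfl, Or.inr le_rfl⟩) (xh_pt (X := 531594656558618) (by decide +kernel) hK.1 hK.2 hX) hT.swap (fB_sw tB)) (by norm_num) (by norm_num)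
  have n1_2 : TCellU 14 13 27 x0 0 ((836925941908 : ℕ) / 2 ^ 48) := tcu_join n1_1 (Pool.Agent.CXD.tX14X13T_nearBc (inB_ok (P := (27, 27)) (b := (557703259750400, 560135203717120)) (by decide +kernel) ⟨le_rfl, Or.inr le_rfl⟩) (xh_pt (X := 531594656558618) (by decide +kernel) hK.1 hK.2 hX) hT.swap (fB_sw tB)) (by norm_num) (by norm_num)
  have n1_3 : TCellU 14 13 27 x0 0 ((26235244407076 : ℕ) / 2 ^ 48) := tcu_join n1_2 (Pool.Agent.CXD.tX14X13T_nearBbg (inB_ok (P := (27, 27)) (b := (557703259750400, 560135203717120)) (by decide +kernel) ⟨le_rfl, Or.inr le_rfl⟩) (xh_pt (X := 531594656558618) (by decide +kernel) hK.1 hK.2 hX) hT.swap (fB_sw tB)) (by norm_num) (by norm_num)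
  have n1_4 : TCellU 14 13 27 x0 0 ((122160139892424 : ℕ) / 2 ^ 48) := tcu_join n1_3 (Pool.Agent.CXD.tX14X13T_nearBa (inB_ok (P := (27, 27)) (b := (557703259750400, 560135203717120)) (by decide +kernel) ⟨le_rfl, Or.inr le_rfl⟩) (xh_pt (X := 531594656558618) (by decide +kernel) hK.1 hK.2 hX) hT.swap) (by norm_num) (by norm_num)
  have h1 : QXS 14 13 27 x0 :=
    qxS_O (by norm_num) (by norm_num) (by norm_num) hT.gt hT.le (xh_pt (X := 531594656558618) (by decide +kernel) hK.1 hK.2 hX) Pool.Agent.Helper81.TK.E_14_13_T_midB.T (hasP (N := 14) (by decide +kernel)) (hasP (N := 13) (by decide +kernel)) (inB_ok (P := (27, 27)) (b := (550648146034688, 562949953421312)) (by decide +kernel) ⟨le_rfl, Or.inr le_rfl⟩) n1_4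
      (by norm_num) (by norm_num) (by norm_num) (far3 (L := 531594656558554) (H := 531594656558682) (by norm_num) (by norm_num) (by norm_num) hR (by norm_num) (by norm_num))
  exact zf_QS (by norm_num) (by norm_num) (by norm_num) (by norm_num) hT h0 h1
end E13_14_27

namespace E13_14_28
/-- the triple `(13, 14, 28)` -/
theorem fe : FinAt 13 14 28 := by
  refine z60_13_14_28 fun x0 hX0 hT tB => ?_
  have hX : |2 ^ 48 * x0 - (-((531627699337743 : ℕ) : ℝ))| ≤ ((64 : ℕ) : ℝ) := by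
    push_cast; exact hX0.trans (by norm_num)
  have hK := kz_pm (M := 28) (K := 559410242273590) (by norm_num) (by norm_num) rfl
  have hR : ((531627699337679 : ℕ) : ℝ) ≤ -(2 ^ 48 * x0) ∧ -(2 ^ 48 * x0) ≤ ((531627699337807 : ℕ) : ℝ) := by
    rw [abs_le] at hX0; push_cast; constructor <;> linarith [hX0.1, hX0.2]
  have n0_0 : TCellU 13 14 28 x0 0 ((56294995344 : ℕ) / 2 ^ 48) := tcu_sub (Pool.Agent.CXD.tX13X14T_nearBz0 (inB_ok (P := (28, 28)) (b := (557703256342528, 560135207124992)) (by decide +kernel) ⟨le_rfl, Or.inr le_rfl⟩) (xh_pt (X := 531627699337743) (by decide +kernel) hK.1 hK.2 hX) hT tB) (by norm_num) le_rfl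
  have n0_1 : TCellU 13 14 28 x0 0 ((281474976712 : ℕ) / 2 ^ 48) := tcu_join n0_0 (Pool.Agent.CXD.tX13X14T_nearBg3g (inB_ok (P := (28, 28)) (b := (559410241601536, 560061639819264)) (by decide +kernel) ⟨le_rfl, Or.inr le_rfl⟩) (xh_pt (X := 531627699337743) (by decide +kernel) hK.1 hK.2 hX) hT tB) (by norm_num) (by norm_num)
  have n0_2 : TCellU 13 14 28 x0 0 ((703687441776 : ℕ) / 2 ^ 48) := tcu_join n0_1 (Pool.Agent.CXD.tX13X14T_nearBg (inB_ok (P := (28, 28)) (b := (557704472690688, 560135203717120)) (by decide +kernel) ⟨le_rfl, Or.inr le_rfl⟩) (xh_pt (X := 531627699337743) (by decide +kernel) hK.1 hK.2 hX) hT tB) (by norm_num) (by norm_num)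
  have n0_3 : TCellU 13 14 28 x0 0 ((22517998136852 : ℕ) / 2 ^ 48) := tcu_join n0_2 (Pool.Agent.CXD.tX13X14T_nearBbg (inB_ok (P := (28, 28)) (b := (557704472690688, 560135203717120)) (by decide +kernel) ⟨le_rfl, Or.inr le_rfl⟩) (xh_pt (X := 531627699337743) (by decide +kernel) hK.1 hK.2 hX) hT tB) (by norm_num) (by norm_num)
  have n0_4 : TCellU 13 14 28 x0 0 ((122160139892424 : ℕ) / 2 ^ 48) := tcu_join n0_3 (Pool.Agent.CXD.tX13X14T_nearBa (inB_ok (P := (28, 28)) (b := (557704472690688, 560135203717120)) (by decide +kernel) ⟨le_rfl, Or.inr le_rfl⟩) (xh_pt (X := 531627699337743) (by decide +kernel) hK.1 hK.2 hX) hT) (by norm_num) (by norm_num)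
  have h0 : QXS 13 14 28 x0 :=
    qxS_O (by norm_num) (by norm_num) (by norm_num) hT.gt hT.le (xh_pt (X := 531627699337743) (by decide +kernel) hK.1 hK.2 hX) Pool.Agent.Helper81.TK.E_13_14_T_midB.T (hasP (N := 13) (by decide +kernel)) (hasP (N := 14) (by decide +kernel)) (inB_ok (P := (28, 28)) (b := (550648146034688, 562949953421312)) (by decide +kernel) ⟨le_rfl, Or.inr le_rfl⟩) n0_4
      (by norm_num) (by norm_num) (by norm_num) (far3 (L := 531627699337679) (H := 531627699337807) (by norm_num) (by norm_num) (by norm_num) hR (by norm_num) (by norm_num))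
  have n1_0 : TCellU 14 13 28 x0 0 ((56294995344 : ℕ) / 2 ^ 48) := tcu_sub (Pool.Agent.CXD.tX14X13T_nearBz0 (inB_ok (P := (28, 28)) (b := (557703256342528, 560135207124992)) (by decide +kernel) ⟨le_rfl, Or.inr le_rfl⟩) (xh_pt (X := 531627699337743) (by decide +kernel) hK.1 hK.2 hX) hT.swap (fB_sw tB)) (by norm_num) le_rfl
  have n1_1 : TCellU 14 13 28 x0 0 ((277573585192 : ℕ) / 2 ^ 48) := tcu_join n1_0 (Pool.Agent.CXD.tX14X13T_nearBc3g (inB_ok (P := (28, 28)) (b := (559410241601536, 560061639819264)) (by decide +kernel) ⟨le_rfl, Or.inr le_rfl⟩) (xh_pt (X := 531627699337743) (by decide +kernel) hK.1 hK.2 hX) hT.swap (fB_sw tB)) (by norm_num) (by norm_num)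
  have n1_2 : TCellU 14 13 28 x0 0 ((836925941908 : ℕ) / 2 ^ 48) := tcu_join n1_1 (Pool.Agent.CXD.tX14X13T_nearBc (inB_ok (P := (28, 28)) (b := (557703259750400, 560135203717120)) (by decide +kernel) ⟨le_rfl, Or.inr le_rfl⟩) (xh_pt (X := 531627699337743) (by decide +kernel) hK.1 hK.2 hX) hT.swap (fB_sw tB)) (by norm_num) (by norm_num)
  have n1_3 : TCellU 14 13 28 x0 0 ((26235244407076 : ℕ) / 2 ^ 48) := tcu_join n1_2 (Pool.Agent.CXD.tX14X13T_nearBbg (inB_ok (P := (28, 28)) (b := (557703259750400, 560135203717120)) (by decide +kernel) ⟨le_rfl, Or.inr le_rfl⟩) (xh_pt (X := 531627699337743) (by decide +kernel) hK.1 hK.2 hX) hT.swap (fB_sw tB)) (by norm_num) (by norm_num)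
  have n1_4 : TCellU 14 13 28 x0 0 ((122160139892424 : ℕ) / 2 ^ 48) := tcu_join n1_3 (Pool.Agent.CXD.tX14X13T_nearBa (inB_ok (P := (28, 28)) (b := (557703259750400, 560135203717120)) (by decide +kernel) ⟨le_rfl, Or.inr le_rfl⟩) (xh_pt (X := 531627699337743) (by decide +kernel) hK.1 hK.2 hX) hT.swap) (by norm_num) (by norm_num)
  have h1 : QXS 14 13 28 x0 :=
    qxS_O (by norm_num) (by norm_num) (by norm_num) hT.gt hT.le (xh_pt (X := 531627699337743) (by decide +kernel) hK.1 hK.2 hX) Pool.Agent.Helper81.TK.E_14_13_T_midB.T (hasP (N := 14) (by decide +kernel)) (hasP (N := 13) (by decide +kernel)) (inB_ok (P := (28, 28)) (b := (550648146034688, 562949953421312)) (by decide +kernel) ⟨le_rfl, Or.inr le_rfl⟩) n1_4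
      (by norm_num) (by norm_num) (by norm_num) (far3 (L := 531627699337679) (H := 531627699337807) (by norm_num) (by norm_num) (by norm_num) hR (by norm_num) (by norm_num))
  exact zf_QS (by norm_num) (by norm_num) (by norm_num) (by norm_num) hT h0 h1
end E13_14_28

namespace E13_14_29
/-- the triple `(13, 14, 29)` -/
theorem fe : FinAt 13 14 29 := by
  refine z60_13_14_29 fun x0 hX0 hT tB => ?_
  have hX : |2 ^ 48 * x0 - (-((531657227486978 : ℕ) : ℝ))| ≤ ((64 : ℕ) : ℝ) := by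
    push_cast; exact hX0.trans (by norm_num)
  have hK := kz_pm (M := 29) (K := 559649916674405) (by norm_num) (by norm_num) rfl
  have hR : ((531657227486914 : ℕ) : ℝ) ≤ -(2 ^ 48 * x0) ∧ -(2 ^ 48 * x0) ≤ ((531657227487042 : ℕ) : ℝ) := by
    rw [abs_le] at hX0; push_cast; constructor <;> linarith [hX0.1, hX0.2]
  have n0_0 : TCellU 13 14 29 x0 0 ((56294995344 : ℕ) / 2 ^ 48) := tcu_sub (Pool.Agent.CXD.tX13X14T_nearBz0 (inB_ok (P := (29, 29)) (b := (557703256342528, 560135207124992)) (by decide +kernel) ⟨le_rfl, Or.inr le_rfl⟩) (xh_pt (X := 531657227486978) (by decide +kernel) hK.1 hK.2 hX) hT tB) (by norm_num) le_rfl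
  have n0_1 : TCellU 13 14 29 x0 0 ((281474976712 : ℕ) / 2 ^ 48) := tcu_join n0_0 (Pool.Agent.CXD.tX13X14T_nearBg3g (inB_ok (P := (29, 29)) (b := (559410241601536, 560061639819264)) (by decide +kernel) ⟨le_rfl, Or.inr le_rfl⟩) (xh_pt (X := 531657227486978) (by decide +kernel) hK.1 hK.2 hX) hT tB) (by norm_num) (by norm_num)
  have n0_2 : TCellU 13 14 29 x0 0 ((703687441776 : ℕ) / 2 ^ 48) := tcu_join n0_1 (Pool.Agent.CXD.tX13X14T_nearBg (inB_ok (P := (29, 29)) (b := (557704472690688, 560135203717120)) (by decide +kernel) ⟨le_rfl, Or.inr le_rfl⟩) (xh_pt (X := 531657227486978) (by decide +kernel) hK.1 hK.2 hX) hT tB) (by norm_num) (by norm_num)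
  have n0_3 : TCellU 13 14 29 x0 0 ((22517998136852 : ℕ) / 2 ^ 48) := tcu_join n0_2 (Pool.Agent.CXD.tX13X14T_nearBbg (inB_ok (P := (29, 29)) (b := (557704472690688, 560135203717120)) (by decide +kernel) ⟨le_rfl, Or.inr le_rfl⟩) (xh_pt (X := 531657227486978) (by decide +kernel) hK.1 hK.2 hX) hT tB) (by norm_num) (by norm_num)
  have n0_4 : TCellU 13 14 29 x0 0 ((122160139892424 : ℕ) / 2 ^ 48) := tcu_join n0_3 (Pool.Agent.CXD.tX13X14T_nearBa (inB_ok (P := (29, 29)) (b := (557704472690688, 560135203717120)) (by decide +kernel) ⟨le_rfl, Or.inr le_rfl⟩) (xh_pt (X := 531657227486978) (by decide +kernel) hK.1 hK.2 hX) hT) (by norm_num) (by norm_num)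
  have h0 : QXS 13 14 29 x0 :=
    qxS_O (by norm_num) (by norm_num) (by norm_num) hT.gt hT.le (xh_pt (X := 531657227486978) (by decide +kernel) hK.1 hK.2 hX) Pool.Agent.Helper81.TK.E_13_14_T_midB.T (hasP (N := 13) (by decide +kernel)) (hasP (N := 14) (by decide +kernel)) (inB_ok (P := (29, 29)) (b := (550648146034688, 562949953421312)) (by decide +kernel) ⟨le_rfl, Or.inr le_rfl⟩) n0_4
      (by norm_num) (by norm_num) (by norm_num) (far3 (L := 531657227486914) (H := 531657227487042) (by norm_num) (by norm_num) (by norm_num) hR (by norm_num) (by norm_num))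
  have n1_0 : TCellU 14 13 29 x0 0 ((56294995344 : ℕ) / 2 ^ 48) := tcu_sub (Pool.Agent.CXD.tX14X13T_nearBz0 (inB_ok (P := (29, 29)) (b := (557703256342528, 560135207124992)) (by decide +kernel) ⟨le_rfl, Or.inr le_rfl⟩) (xh_pt (X := 531657227486978) (by decide +kernel) hK.1 hK.2 hX) hT.swap (fB_sw tB)) (by norm_num) le_rfl
  have n1_1 : TCellU 14 13 29 x0 0 ((277573585192 : ℕ) / 2 ^ 48) := tcu_join n1_0 (Pool.Agent.CXD.tX14X13T_nearBc3g (inB_ok (P := (29, 29)) (b := (559410241601536, 560061639819264)) (by decide +kernel) ⟨le_rfl, Or.inr le_rfl⟩) (xh_pt (X := 531657227486978) (by decide +kernel) hK.1 hK.2 hX) hT.swap (fB_sw tB)) (by norm_num) (by norm_num)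
  have n1_2 : TCellU 14 13 29 x0 0 ((836925941908 : ℕ) / 2 ^ 48) := tcu_join n1_1 (Pool.Agent.CXD.tX14X13T_nearBc (inB_ok (P := (29, 29)) (b := (557703259750400, 560135203717120)) (by decide +kernel) ⟨le_rfl, Or.inr le_rfl⟩) (xh_pt (X := 531657227486978) (by decide +kernel) hK.1 hK.2 hX) hT.swap (fB_sw tB)) (by norm_num) (by norm_num)
  have n1_3 : TCellU 14 13 29 x0 0 ((26235244407076 : ℕ) / 2 ^ 48) := tcu_join n1_2 (Pool.Agent.CXD.tX14X13T_nearBbg (inB_ok (P := (29, 29)) (b := (557703259750400, 560135203717120)) (by decide +kernel) ⟨le_rfl, Or.inr le_rfl⟩) (xh_pt (X := 531657227486978) (by decide +kernel) hK.1 hK.2 hX) hT.swap (fB_sw tB)) (by norm_num) (by norm_num)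
  have n1_4 : TCellU 14 13 29 x0 0 ((122160139892424 : ℕ) / 2 ^ 48) := tcu_join n1_3 (Pool.Agent.CXD.tX14X13T_nearBa (inB_ok (P := (29, 29)) (b := (557703259750400, 560135203717120)) (by decide +kernel) ⟨le_rfl, Or.inr le_rfl⟩) (xh_pt (X := 531657227486978) (by decide +kernel) hK.1 hK.2 hX) hT.swap) (by norm_num) (by norm_num)
  have h1 : QXS 14 13 29 x0 :=
    qxS_O (by norm_num) (by norm_num) (by norm_num) hT.gt hT.le (xh_pt (X := 531657227486978) (by decide +kernel) hK.1 hK.2 hX) Pool.Agent.Helper81.TK.E_14_13_T_midB.T (hasP (N := 14) (by decide +kernel)) (hasP (N := 13) (by decide +kernel)) (inB_ok (P := (29, 29)) (b := (550648146034688, 562949953421312)) (by decide +kernel) ⟨le_rfl, Or.inr le_rfl⟩) n1_4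
      (by norm_num) (by norm_num) (by norm_num) (far3 (L := 531657227486914) (H := 531657227487042) (by norm_num) (by norm_num) (by norm_num) hR (by norm_num) (by norm_num))
  exact zf_QS (by norm_num) (by norm_num) (by norm_num) (by norm_num) hT h0 h1
end E13_14_29

namespace E13_14_30
/-- the triple `(13, 14, 30)` -/
theorem fe : FinAt 13 14 30 := by
  refine z60_13_14_30 fun x0 hX0 hT tB => ?_
  have hX : |2 ^ 48 * x0 - (-((531683726445495 : ℕ) : ℝ))| ≤ ((64 : ℕ) : ℝ) := by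
    push_cast; exact hX0.trans (by norm_num)
  have hK := kz_pm (M := 30) (K := 559866054674044) (by norm_num) (by norm_num) rfl
  have hR : ((531683726445431 : ℕ) : ℝ) ≤ -(2 ^ 48 * x0) ∧ -(2 ^ 48 * x0) ≤ ((531683726445559 : ℕ) : ℝ) := by
    rw [abs_le] at hX0; push_cast; constructor <;> linarith [hX0.1, hX0.2]
  have n0_0 : TCellU 13 14 30 x0 0 ((56294995344 : ℕ) / 2 ^ 48) := tcu_sub (Pool.Agent.CXD.tX13X14T_nearBz0 (inB_ok (P := (30, 30)) (b := (557703256342528, 560135207124992)) (by decide +kernel) ⟨le_rfl, Or.inr le_rfl⟩) (xh_pt (X := 531683726445495) (by decide +kernel) hK.1 hK.2 hX) hT tB) (by norm_num) le_rfl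
  have n0_1 : TCellU 13 14 30 x0 0 ((281474976712 : ℕ) / 2 ^ 48) := tcu_join n0_0 (Pool.Agent.CXD.tX13X14T_nearBg3g (inB_ok (P := (30, 30)) (b := (559410241601536, 560061639819264)) (by decide +kernel) ⟨le_rfl, Or.inr le_rfl⟩) (xh_pt (X := 531683726445495) (by decide +kernel) hK.1 hK.2 hX) hT tB) (by norm_num) (by norm_num)
  have n0_2 : TCellU 13 14 30 x0 0 ((703687441776 : ℕ) / 2 ^ 48) := tcu_join n0_1 (Pool.Agent.CXD.tX13X14T_nearBg (inB_ok (P := (30, 30)) (b := (557704472690688, 560135203717120)) (by decide +kernel) ⟨le_rfl, Or.inr le_rfl⟩) (xh_pt (X := 531683726445495) (by decide +kernel) hK.1 hK.2 hX) hT tB) (by norm_num) (by norm_num)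
  have n0_3 : TCellU 13 14 30 x0 0 ((22517998136852 : ℕ) / 2 ^ 48) := tcu_join n0_2 (Pool.Agent.CXD.tX13X14T_nearBbg (inB_ok (P := (30, 30)) (b := (557704472690688, 560135203717120)) (by decide +kernel) ⟨le_rfl, Or.inr le_rfl⟩) (xh_pt (X := 531683726445495) (by decide +kernel) hK.1 hK.2 hX) hT tB) (by norm_num) (by norm_num)
  have n0_4 : TCellU 13 14 30 x0 0 ((122160139892424 : ℕ) / 2 ^ 48) := tcu_join n0_3 (Pool.Agent.CXD.tX13X14T_nearBa (inB_ok (P := (30, 30)) (b := (557704472690688, 560135203717120)) (by decide +kernel) ⟨le_rfl, Or.inr le_rfl⟩) (xh_pt (X := 531683726445495) (by decide +kernel) hK.1 hK.2 hX) hT) (by norm_num) (by norm_num)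
  have h0 : QXS 13 14 30 x0 :=
    qxS_O (by norm_num) (by norm_num) (by norm_num) hT.gt hT.le (xh_pt (X := 531683726445495) (by decide +kernel) hK.1 hK.2 hX) Pool.Agent.Helper81.TK.E_13_14_T_midB.T (hasP (N := 13) (by decide +kernel)) (hasP (N := 14) (by decide +kernel)) (inB_ok (P := (30, 30)) (b := (550648146034688, 562949953421312)) (by decide +kernel) ⟨le_rfl, Or.inr le_rfl⟩) n0_4
      (by norm_num) (by norm_num) (by norm_num) (far3 (L := 531683726445431) (H := 531683726445559) (by norm_num) (by norm_num) (by norm_num) hR (by norm_num) (by norm_num))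
  have n1_0 : TCellU 14 13 30 x0 0 ((56294995344 : ℕ) / 2 ^ 48) := tcu_sub (Pool.Agent.CXD.tX14X13T_nearBz0 (inB_ok (P := (30, 30)) (b := (557703256342528, 560135207124992)) (by decide +kernel) ⟨le_rfl, Or.inr le_rfl⟩) (xh_pt (X := 531683726445495) (by decide +kernel) hK.1 hK.2 hX) hT.swap (fB_sw tB)) (by norm_num) le_rfl
  have n1_1 : TCellU 14 13 30 x0 0 ((277573585192 : ℕ) / 2 ^ 48) := tcu_join n1_0 (Pool.Agent.CXD.tX14X13T_nearBc3g (inB_ok (P := (30, 30)) (b := (559410241601536, 560061639819264)) (by decide +kernel) ⟨le_rfl, Or.inr le_rfl⟩) (xh_pt (X := 531683726445495) (by decide +kernel) hK.1 hK.2 hX) hT.swap (fB_sw tB)) (by norm_num) (by norm_num)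
  have n1_2 : TCellU 14 13 30 x0 0 ((836925941908 : ℕ) / 2 ^ 48) := tcu_join n1_1 (Pool.Agent.CXD.tX14X13T_nearBc (inB_ok (P := (30, 30)) (b := (557703259750400, 560135203717120)) (by decide +kernel) ⟨le_rfl, Or.inr le_rfl⟩) (xh_pt (X := 531683726445495) (by decide +kernel) hK.1 hK.2 hX) hT.swap (fB_sw tB)) (by norm_num) (by norm_num)
  have n1_3 : TCellU 14 13 30 x0 0 ((26235244407076 : ℕ) / 2 ^ 48) := tcu_join n1_2 (Pool.Agent.CXD.tX14X13T_nearBbg (inB_ok (P := (30, 30)) (b := (557703259750400, 560135203717120)) (by decide +kernel) ⟨le_rfl, Or.inr le_rfl⟩) (xh_pt (X := 531683726445495) (by decide +kernel) hK.1 hK.2 hX) hT.swap (fB_sw tB)) (by norm_num) (by norm_num)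
  have n1_4 : TCellU 14 13 30 x0 0 ((122160139892424 : ℕ) / 2 ^ 48) := tcu_join n1_3 (Pool.Agent.CXD.tX14X13T_nearBa (inB_ok (P := (30, 30)) (b := (557703259750400, 560135203717120)) (by decide +kernel) ⟨le_rfl, Or.inr le_rfl⟩) (xh_pt (X := 531683726445495) (by decide +kernel) hK.1 hK.2 hX) hT.swap) (by norm_num) (by norm_num)
  have h1 : QXS 14 13 30 x0 :=
    qxS_O (by norm_num) (by norm_num) (by norm_num) hT.gt hT.le (xh_pt (X := 531683726445495) (by decide +kernel) hK.1 hK.2 hX) Pool.Agent.Helper81.TK.E_14_13_T_midB.T (hasP (N := 14) (by decide +kernel)) (hasP (N := 13) (by decide +kernel)) (inB_ok (P := (30, 30)) (b := (550648146034688, 562949953421312)) (by decide +kernel) ⟨le_rfl, Or.inr le_rfl⟩) n1_4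
      (by norm_num) (by norm_num) (by norm_num) (far3 (L := 531683726445431) (H := 531683726445559) (by norm_num) (by norm_num) (by norm_num) hR (by norm_num) (by norm_num))
  exact zf_QS (by norm_num) (by norm_num) (by norm_num) (by norm_num) hT h0 h1
end E13_14_30

namespace E13_14_31
/-- the triple `(13, 14, 31)` -/
theorem fe : FinAt 13 14 31 := by
  refine z60_13_14_31 fun x0 hX0 hT tB => ?_
  have hX : |2 ^ 48 * x0 - (-((531707600060648 : ℕ) : ℝ))| ≤ ((64 : ℕ) : ℝ) := by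
    push_cast; exact hX0.trans (by norm_num)
  have hK := kz_pm (M := 31) (K := 560061639263760) (by norm_num) (by norm_num) rfl
  have hR : ((531707600060584 : ℕ) : ℝ) ≤ -(2 ^ 48 * x0) ∧ -(2 ^ 48 * x0) ≤ ((531707600060712 : ℕ) : ℝ) := by
    rw [abs_le] at hX0; push_cast; constructor <;> linarith [hX0.1, hX0.2]
  have n0_0 : TCellU 13 14 31 x0 0 ((56294995344 : ℕ) / 2 ^ 48) := tcu_sub (Pool.Agent.CXD.tX13X14T_nearBz0 (inB_ok (P := (31, 31)) (b := (557703256342528, 560135207124992)) (by decide +kernel) ⟨le_rfl, Or.inr le_rfl⟩) (xh_pt (X := 531707600060648) (by decide +kernel) hK.1 hK.2 hX) hT tB) (by norm_num) le_rfl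
  have n0_1 : TCellU 13 14 31 x0 0 ((281474976712 : ℕ) / 2 ^ 48) := tcu_join n0_0 (Pool.Agent.CXD.tX13X14T_nearBg3g (inB_ok (P := (31, 31)) (b := (559410241601536, 560061639819264)) (by decide +kernel) ⟨le_rfl, Or.inr le_rfl⟩) (xh_pt (X := 531707600060648) (by decide +kernel) hK.1 hK.2 hX) hT tB) (by norm_num) (by norm_num)
  have n0_2 : TCellU 13 14 31 x0 0 ((703687441776 : ℕ) / 2 ^ 48) := tcu_join n0_1 (Pool.Agent.CXD.tX13X14T_nearBg (inB_ok (P := (31, 31)) (b := (557704472690688, 560135203717120)) (by decide +kernel) ⟨le_rfl, Or.inr le_rfl⟩) (xh_pt (X := 531707600060648) (by decide +kernel) hK.1 hK.2 hX) hT tB) (by norm_num) (by norm_num)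
  have n0_3 : TCellU 13 14 31 x0 0 ((22517998136852 : ℕ) / 2 ^ 48) := tcu_join n0_2 (Pool.Agent.CXD.tX13X14T_nearBbg (inB_ok (P := (31, 31)) (b := (557704472690688, 560135203717120)) (by decide +kernel) ⟨le_rfl, Or.inr le_rfl⟩) (xh_pt (X := 531707600060648) (by decide +kernel) hK.1 hK.2 hX) hT tB) (by norm_num) (by norm_num)
  have n0_4 : TCellU 13 14 31 x0 0 ((122160139892424 : ℕ) / 2 ^ 48) := tcu_join n0_3 (Pool.Agent.CXD.tX13X14T_nearBa (inB_ok (P := (31, 31)) (b := (557704472690688, 560135203717120)) (by decide +kernel) ⟨le_rfl, Or.inr le_rfl⟩) (xh_pt (X := 531707600060648) (by decide +kernel) hK.1 hK.2 hX) hT) (by norm_num) (by norm_num)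
  have h0 : QXS 13 14 31 x0 :=
    qxS_O (by norm_num) (by norm_num) (by norm_num) hT.gt hT.le (xh_pt (X := 531707600060648) (by decide +kernel) hK.1 hK.2 hX) Pool.Agent.Helper81.TK.E_13_14_T_midB.T (hasP (N := 13) (by decide +kernel)) (hasP (N := 14) (by decide +kernel)) (inB_ok (P := (31, 31)) (b := (550648146034688, 562949953421312)) (by decide +kernel) ⟨le_rfl, Or.inr le_rfl⟩) n0_4
      (by norm_num) (by norm_num) (by norm_num) (far3 (L := 531707600060584) (H := 531707600060712) (by norm_num) (by norm_num) (by norm_num) hR (by norm_num) (by norm_num))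
  have n1_0 : TCellU 14 13 31 x0 0 ((56294995344 : ℕ) / 2 ^ 48) := tcu_sub (Pool.Agent.CXD.tX14X13T_nearBz0 (inB_ok (P := (31, 31)) (b := (557703256342528, 560135207124992)) (by decide +kernel) ⟨le_rfl, Or.inr le_rfl⟩) (xh_pt (X := 531707600060648) (by decide +kernel) hK.1 hK.2 hX) hT.swap (fB_sw tB)) (by norm_num) le_rfl
  have n1_1 : TCellU 14 13 31 x0 0 ((277573585192 : ℕ) / 2 ^ 48) := tcu_join n1_0 (Pool.Agent.CXD.tX14X13T_nearBc3g (inB_ok (P := (31, 31)) (b := (559410241601536, 560061639819264)) (by decide +kernel) ⟨le_rfl, Or.inr le_rfl⟩) (xh_pt (X := 531707600060648) (by decide +kernel) hK.1 hK.2 hX) hT.swap (fB_sw tB)) (by norm_num) (by norm_num)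
  have n1_2 : TCellU 14 13 31 x0 0 ((836925941908 : ℕ) / 2 ^ 48) := tcu_join n1_1 (Pool.Agent.CXD.tX14X13T_nearBc (inB_ok (P := (31, 31)) (b := (557703259750400, 560135203717120)) (by decide +kernel) ⟨le_rfl, Or.inr le_rfl⟩) (xh_pt (X := 531707600060648) (by decide +kernel) hK.1 hK.2 hX) hT.swap (fB_sw tB)) (by norm_num) (by norm_num)
  have n1_3 : TCellU 14 13 31 x0 0 ((26235244407076 : ℕ) / 2 ^ 48) := tcu_join n1_2 (Pool.Agent.CXD.tX14X13T_nearBbg (inB_ok (P := (31, 31)) (b := (557703259750400, 560135203717120)) (by decide +kernel) ⟨le_rfl, Or.inr le_rfl⟩) (xh_pt (X := 531707600060648) (by decide +kernel) hK.1 hK.2 hX) hT.swap (fB_sw tB)) (by norm_num) (by norm_num)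
  have n1_4 : TCellU 14 13 31 x0 0 ((122160139892424 : ℕ) / 2 ^ 48) := tcu_join n1_3 (Pool.Agent.CXD.tX14X13T_nearBa (inB_ok (P := (31, 31)) (b := (557703259750400, 560135203717120)) (by decide +kernel) ⟨le_rfl, Or.inr le_rfl⟩) (xh_pt (X := 531707600060648) (by decide +kernel) hK.1 hK.2 hX) hT.swap) (by norm_num) (by norm_num)
  have h1 : QXS 14 13 31 x0 :=
    qxS_O (by norm_num) (by norm_num) (by norm_num) hT.gt hT.le (xh_pt (X := 531707600060648) (by decide +kernel) hK.1 hK.2 hX) Pool.Agent.Helper81.TK.E_14_13_T_midB.T (hasP (N := 14) (by decide +kernel)) (hasP (N := 13) (by decide +kernel)) (inB_ok (P := (31, 31)) (b := (550648146034688, 562949953421312)) (by decide +kernel) ⟨le_rfl, Or.inr le_rfl⟩) n1_4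
      (by norm_num) (by norm_num) (by norm_num) (far3 (L := 531707600060584) (H := 531707600060712) (by norm_num) (by norm_num) (by norm_num) hR (by norm_num) (by norm_num))
  exact zf_QS (by norm_num) (by norm_num) (by norm_num) (by norm_num) hT h0 h1
end E13_14_31

namespace E13_14_32
/-- the triple `(13, 14, 32)` -/
theorem fe : FinAt 13 14 32 := by
  refine z60_13_14_32 fun x0 hX0 hT tB => ?_
  have hX : |2 ^ 48 * x0 - (-((531729186604926 : ℕ) : ℝ))| ≤ ((64 : ℕ) : ℝ) := by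
    push_cast; exact hX0.trans (by norm_num)
  have hK := kz_pm (M := 32) (K := 560239195525714) (by norm_num) (by norm_num) rfl
  have hR : ((531729186604862 : ℕ) : ℝ) ≤ -(2 ^ 48 * x0) ∧ -(2 ^ 48 * x0) ≤ ((531729186604990 : ℕ) : ℝ) := by
    rw [abs_le] at hX0; push_cast; constructor <;> linarith [hX0.1, hX0.2]
  have n0_0 : TCellU 13 14 32 x0 0 ((56294995344 : ℕ) / 2 ^ 48) := tcu_sub (Pool.Agent.CXD.tX13X14T_nearBz1 (inB_ok (P := (32, 32)) (b := (560135200047104, 561542581977088)) (by decide +kernel) ⟨le_rfl, Or.inr le_rfl⟩) (xh_pt (X := 531729186604926) (by decide +kernel) hK.1 hK.2 hX) hT tB) (by norm_num) le_rfl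
  have n0_1 : TCellU 13 14 32 x0 0 ((109951162776 : ℕ) / 2 ^ 48) := tcu_join n0_0 (Pool.Agent.CXD.tX13X14T_nearBh1g (inB_ok (P := (32, 32)) (b := (560239194931200, 560807759577088)) (by decide +kernel) ⟨le_rfl, Or.inr le_rfl⟩) (xh_pt (X := 531729186604926) (by decide +kernel) hK.1 hK.2 hX) hT tB) (by norm_num) (by norm_num)
  have n0_2 : TCellU 13 14 32 x0 0 ((703687441776 : ℕ) / 2 ^ 48) := tcu_join n0_1 (Pool.Agent.CXD.tX13X14T_nearBh (inB_ok (P := (32, 32)) (b := (560135203454976, 561542578569216)) (by decide +kernel) ⟨le_rfl, Or.inr le_rfl⟩) (xh_pt (X := 531729186604926) (by decide +kernel) hK.1 hK.2 hX) hT tB) (by norm_num) (by norm_num)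
  have n0_3 : TCellU 13 14 32 x0 0 ((10788454124888 : ℕ) / 2 ^ 48) := tcu_join n0_2 (Pool.Agent.CXD.tX13X14T_nearBeg (inB_ok (P := (32, 32)) (b := (560135203454976, 561542578569216)) (by decide +kernel) ⟨le_rfl, Or.inr le_rfl⟩) (xh_pt (X := 531729186604926) (by decide +kernel) hK.1 hK.2 hX) hT tB) (by norm_num) (by norm_num)
  have n0_4 : TCellU 13 14 32 x0 0 ((22517998136852 : ℕ) / 2 ^ 48) := tcu_join n0_3 (Pool.Agent.CXD.tX13X14T_nearBd (inB_ok (P := (32, 32)) (b := (560135203454976, 562949953421312)) (by decide +kernel) ⟨le_rfl, Or.inr le_rfl⟩) (xh_pt (X := 531729186604926) (by decide +kernel) hK.1 hK.2 hX) hT tB) (by norm_num) (by norm_num)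
  have n0_5 : TCellU 13 14 32 x0 0 ((122160139892424 : ℕ) / 2 ^ 48) := tcu_join n0_4 (Pool.Agent.CXD.tX13X14T_nearBc (inB_ok (P := (32, 32)) (b := (560135203454976, 562949953421312)) (by decide +kernel) ⟨le_rfl, Or.inr le_rfl⟩) (xh_pt (X := 531729186604926) (by decide +kernel) hK.1 hK.2 hX) hT) (by norm_num) (by norm_num)
  have h0 : QXS 13 14 32 x0 :=
    qxS_O (by norm_num) (by norm_num) (by norm_num) hT.gt hT.le (xh_pt (X := 531729186604926) (by decide +kernel) hK.1 hK.2 hX) Pool.Agent.Helper81.TK.E_13_14_T_midB.T (hasP (N := 13) (by decide +kernel)) (hasP (N := 14) (by decide +kernel)) (inB_ok (P := (32, 32)) (b := (550648146034688, 562949953421312)) (by decide +kernel) ⟨le_rfl, Or.inr le_rfl⟩) n0_5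
      (by norm_num) (by norm_num) (by norm_num) (far3 (L := 531729186604862) (H := 531729186604990) (by norm_num) (by norm_num) (by norm_num) hR (by norm_num) (by norm_num))
  have n1_0 : TCellU 14 13 32 x0 0 ((56294995344 : ℕ) / 2 ^ 48) := tcu_sub (Pool.Agent.CXD.tX14X13T_nearBz1 (inB_ok (P := (32, 32)) (b := (560135200047104, 561542581977088)) (by decide +kernel) ⟨le_rfl, Or.inr le_rfl⟩) (xh_pt (X := 531729186604926) (by decide +kernel) hK.1 hK.2 hX) hT.swap (fB_sw tB)) (by norm_num) le_rfl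
  have n1_1 : TCellU 14 13 32 x0 0 ((101879725368 : ℕ) / 2 ^ 48) := tcu_join n1_0 (Pool.Agent.CXD.tX14X13T_nearBg1g (inB_ok (P := (32, 32)) (b := (560239194931200, 560807759577088)) (by decide +kernel) ⟨le_rfl, Or.inr le_rfl⟩) (xh_pt (X := 531729186604926) (by decide +kernel) hK.1 hK.2 hX) hT.swap (fB_sw tB)) (by norm_num) (by norm_num)
  have n1_2 : TCellU 14 13 32 x0 0 ((703687441776 : ℕ) / 2 ^ 48) := tcu_join n1_1 (Pool.Agent.CXD.tX14X13T_nearBg (inB_ok (P := (32, 32)) (b := (560135203454976, 561542578569216)) (by decide +kernel) ⟨le_rfl, Or.inr le_rfl⟩) (xh_pt (X := 531729186604926) (by decide +kernel) hK.1 hK.2 hX) hT.swap (fB_sw tB)) (by norm_num) (by norm_num)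
  have n1_3 : TCellU 14 13 32 x0 0 ((4222124650660 : ℕ) / 2 ^ 48) := tcu_join n1_2 (Pool.Agent.CXD.tX14X13T_nearBfg (inB_ok (P := (32, 32)) (b := (560135203192832, 561542578569216)) (by decide +kernel) ⟨le_rfl, Or.inr le_rfl⟩) (xh_pt (X := 531729186604926) (by decide +kernel) hK.1 hK.2 hX) hT.swap (fB_sw tB)) (by norm_num) (by norm_num)
  have n1_4 : TCellU 14 13 32 x0 0 ((26235244407076 : ℕ) / 2 ^ 48) := tcu_join n1_3 (Pool.Agent.CXD.tX14X13T_nearBeg (inB_ok (P := (32, 32)) (b := (560135203192832, 562949953421312)) (by decide +kernel) ⟨le_rfl, Or.inr le_rfl⟩) (xh_pt (X := 531729186604926) (by decide +kernel) hK.1 hK.2 hX) hT.swap (fB_sw tB)) (by norm_num) (by norm_num)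
  have n1_5 : TCellU 14 13 32 x0 0 ((122160139892424 : ℕ) / 2 ^ 48) := tcu_join n1_4 (Pool.Agent.CXD.tX14X13T_nearBd (inB_ok (P := (32, 32)) (b := (560135203454976, 562949953421312)) (by decide +kernel) ⟨le_rfl, Or.inr le_rfl⟩) (xh_pt (X := 531729186604926) (by decide +kernel) hK.1 hK.2 hX) hT.swap) (by norm_num) (by norm_num)
  have h1 : QXS 14 13 32 x0 :=
    qxS_O (by norm_num) (by norm_num) (by norm_num) hT.gt hT.le (xh_pt (X := 531729186604926) (by decide +kernel) hK.1 hK.2 hX) Pool.Agent.Helper81.TK.E_14_13_T_midB.T (hasP (N := 14) (by decide +kernel)) (hasP (N := 13) (by decide +kernel)) (inB_ok (P := (32, 32)) (b := (550648146034688, 562949953421312)) (by decide +kernel) ⟨le_rfl, Or.inr le_rfl⟩) n1_5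
      (by norm_num) (by norm_num) (by norm_num) (far3 (L := 531729186604862) (H := 531729186604990) (by norm_num) (by norm_num) (by norm_num) hR (by norm_num) (by norm_num))
  exact zf_QS (by norm_num) (by norm_num) (by norm_num) (by norm_num) hT h0 h1
end E13_14_32

namespace E13_14_33
/-- the triple `(13, 14, 33)` -/
theorem fe : FinAt 13 14 33 := by
  refine z60_13_14_33 fun x0 hX0 hT tB => ?_
  have hX : |2 ^ 48 * x0 - (-((531748771223011 : ℕ) : ℝ))| ≤ ((64 : ℕ) : ℝ) := by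
    push_cast; exact hX0.trans (by norm_num)
  have hK := kz_pm (M := 33) (K := 560400872444742) (by norm_num) (by norm_num) rfl
  have hR : ((531748771222947 : ℕ) : ℝ) ≤ -(2 ^ 48 * x0) ∧ -(2 ^ 48 * x0) ≤ ((531748771223075 : ℕ) : ℝ) := by
    rw [abs_le] at hX0; push_cast; constructor <;> linarith [hX0.1, hX0.2]
  have n0_0 : TCellU 13 14 33 x0 0 ((56294995344 : ℕ) / 2 ^ 48) := tcu_sub (Pool.Agent.CXD.tX13X14T_nearBz1 (inB_ok (P := (33, 33)) (b := (560135200047104, 561542581977088)) (by decide +kernel) ⟨le_rfl, Or.inr le_rfl⟩) (xh_pt (X := 531748771223011) (by decide +kernel) hK.1 hK.2 hX) hT tB) (by norm_num) le_rfl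
  have n0_1 : TCellU 13 14 33 x0 0 ((109951162776 : ℕ) / 2 ^ 48) := tcu_join n0_0 (Pool.Agent.CXD.tX13X14T_nearBh1g (inB_ok (P := (33, 33)) (b := (560239194931200, 560807759577088)) (by decide +kernel) ⟨le_rfl, Or.inr le_rfl⟩) (xh_pt (X := 531748771223011) (by decide +kernel) hK.1 hK.2 hX) hT tB) (by norm_num) (by norm_num)
  have n0_2 : TCellU 13 14 33 x0 0 ((703687441776 : ℕ) / 2 ^ 48) := tcu_join n0_1 (Pool.Agent.CXD.tX13X14T_nearBh (inB_ok (P := (33, 33)) (b := (560135203454976, 561542578569216)) (by decide +kernel) ⟨le_rfl, Or.inr le_rfl⟩) (xh_pt (X := 531748771223011) (by decide +kernel) hK.1 hK.2 hX) hT tB) (by norm_num) (by norm_num)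
  have n0_3 : TCellU 13 14 33 x0 0 ((10788454124888 : ℕ) / 2 ^ 48) := tcu_join n0_2 (Pool.Agent.CXD.tX13X14T_nearBeg (inB_ok (P := (33, 33)) (b := (560135203454976, 561542578569216)) (by decide +kernel) ⟨le_rfl, Or.inr le_rfl⟩) (xh_pt (X := 531748771223011) (by decide +kernel) hK.1 hK.2 hX) hT tB) (by norm_num) (by norm_num)
  have n0_4 : TCellU 13 14 33 x0 0 ((22517998136852 : ℕ) / 2 ^ 48) := tcu_join n0_3 (Pool.Agent.CXD.tX13X14T_nearBd (inB_ok (P := (33, 33)) (b := (560135203454976, 562949953421312)) (by decide +kernel) ⟨le_rfl, Or.inr le_rfl⟩) (xh_pt (X := 531748771223011) (by decide +kernel) hK.1 hK.2 hX) hT tB) (by norm_num) (by norm_num)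
  have n0_5 : TCellU 13 14 33 x0 0 ((122160139892424 : ℕ) / 2 ^ 48) := tcu_join n0_4 (Pool.Agent.CXD.tX13X14T_nearBc (inB_ok (P := (33, 33)) (b := (560135203454976, 562949953421312)) (by decide +kernel) ⟨le_rfl, Or.inr le_rfl⟩) (xh_pt (X := 531748771223011) (by decide +kernel) hK.1 hK.2 hX) hT) (by norm_num) (by norm_num)
  have h0 : QXS 13 14 33 x0 :=
    qxS_O (by norm_num) (by norm_num) (by norm_num) hT.gt hT.le (xh_pt (X := 531748771223011) (by decide +kernel) hK.1 hK.2 hX) Pool.Agent.Helper81.TK.E_13_14_T_midB.T (hasP (N := 13) (by decide +kernel)) (hasP (N := 14) (by decide +kernel)) (inB_ok (P := (33, 33)) (b := (550648146034688, 562949953421312)) (by decide +kernel) ⟨le_rfl, Or.inr le_rfl⟩) n0_5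
      (by norm_num) (by norm_num) (by norm_num) (far3 (L := 531748771222947) (H := 531748771223075) (by norm_num) (by norm_num) (by norm_num) hR (by norm_num) (by norm_num))
  have n1_0 : TCellU 14 13 33 x0 0 ((56294995344 : ℕ) / 2 ^ 48) := tcu_sub (Pool.Agent.CXD.tX14X13T_nearBz1 (inB_ok (P := (33, 33)) (b := (560135200047104, 561542581977088)) (by decide +kernel) ⟨le_rfl, Or.inr le_rfl⟩) (xh_pt (X := 531748771223011) (by decide +kernel) hK.1 hK.2 hX) hT.swap (fB_sw tB)) (by norm_num) le_rfl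
  have n1_1 : TCellU 14 13 33 x0 0 ((101879725368 : ℕ) / 2 ^ 48) := tcu_join n1_0 (Pool.Agent.CXD.tX14X13T_nearBg1g (inB_ok (P := (33, 33)) (b := (560239194931200, 560807759577088)) (by decide +kernel) ⟨le_rfl, Or.inr le_rfl⟩) (xh_pt (X := 531748771223011) (by decide +kernel) hK.1 hK.2 hX) hT.swap (fB_sw tB)) (by norm_num) (by norm_num)
  have n1_2 : TCellU 14 13 33 x0 0 ((703687441776 : ℕ) / 2 ^ 48) := tcu_join n1_1 (Pool.Agent.CXD.tX14X13T_nearBg (inB_ok (P := (33, 33)) (b := (560135203454976, 561542578569216)) (by decide +kernel) ⟨le_rfl, Or.inr le_rfl⟩) (xh_pt (X := 531748771223011) (by decide +kernel) hK.1 hK.2 hX) hT.swap (fB_sw tB)) (by norm_num) (by norm_num)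
  have n1_3 : TCellU 14 13 33 x0 0 ((4222124650660 : ℕ) / 2 ^ 48) := tcu_join n1_2 (Pool.Agent.CXD.tX14X13T_nearBfg (inB_ok (P := (33, 33)) (b := (560135203192832, 561542578569216)) (by decide +kernel) ⟨le_rfl, Or.inr le_rfl⟩) (xh_pt (X := 531748771223011) (by decide +kernel) hK.1 hK.2 hX) hT.swap (fB_sw tB)) (by norm_num) (by norm_num)
  have n1_4 : TCellU 14 13 33 x0 0 ((26235244407076 : ℕ) / 2 ^ 48) := tcu_join n1_3 (Pool.Agent.CXD.tX14X13T_nearBeg (inB_ok (P := (33, 33)) (b := (560135203192832, 562949953421312)) (by decide +kernel) ⟨le_rfl, Or.inr le_rfl⟩) (xh_pt (X := 531748771223011) (by decide +kernel) hK.1 hK.2 hX) hT.swap (fB_sw tB)) (by norm_num) (by norm_num)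
  have n1_5 : TCellU 14 13 33 x0 0 ((122160139892424 : ℕ) / 2 ^ 48) := tcu_join n1_4 (Pool.Agent.CXD.tX14X13T_nearBd (inB_ok (P := (33, 33)) (b := (560135203454976, 562949953421312)) (by decide +kernel) ⟨le_rfl, Or.inr le_rfl⟩) (xh_pt (X := 531748771223011) (by decide +kernel) hK.1 hK.2 hX) hT.swap) (by norm_num) (by norm_num)
  have h1 : QXS 14 13 33 x0 :=
    qxS_O (by norm_num) (by norm_num) (by norm_num) hT.gt hT.le (xh_pt (X := 531748771223011) (by decide +kernel) hK.1 hK.2 hX) Pool.Agent.Helper81.TK.E_14_13_T_midB.T (hasP (N := 14) (by decide +kernel)) (hasP (N := 13) (by decide +kernel)) (inB_ok (P := (33, 33)) (b := (550648146034688, 562949953421312)) (by decide +kernel) ⟨le_rfl, Or.inr le_rfl⟩) n1_5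
      (by norm_num) (by norm_num) (by norm_num) (far3 (L := 531748771222947) (H := 531748771223075) (by norm_num) (by norm_num) (by norm_num) hR (by norm_num) (by norm_num))
  exact zf_QS (by norm_num) (by norm_num) (by norm_num) (by norm_num) hT h0 h1
end E13_14_33

namespace E13_14_34
/-- the triple `(13, 14, 34)` -/
theorem fe : FinAt 13 14 34 := by
  refine z60_13_14_34 fun x0 hX0 hT tB => ?_
  have hX : |2 ^ 48 * x0 - (-((531766595693898 : ℕ) : ℝ))| ≤ ((64 : ℕ) : ℝ) := by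
    push_cast; exact hX0.trans (by norm_num)
  have hK := kz_pm (M := 34) (K := 560548508165298) (by norm_num) (by norm_num) rfl
  have hR : ((531766595693834 : ℕ) : ℝ) ≤ -(2 ^ 48 * x0) ∧ -(2 ^ 48 * x0) ≤ ((531766595693962 : ℕ) : ℝ) := by
    rw [abs_le] at hX0; push_cast; constructor <;> linarith [hX0.1, hX0.2]
  have n0_0 : TCellU 13 14 34 x0 0 ((56294995344 : ℕ) / 2 ^ 48) := tcu_sub (Pool.Agent.CXD.tX13X14T_nearBz1 (inB_ok (P := (34, 34)) (b := (560135200047104, 561542581977088)) (by decide +kernel) ⟨le_rfl, Or.inr le_rfl⟩) (xh_pt (X := 531766595693898) (by decide +kernel) hK.1 hK.2 hX) hT tB) (by norm_num) le_rfl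
  have n0_1 : TCellU 13 14 34 x0 0 ((109951162776 : ℕ) / 2 ^ 48) := tcu_join n0_0 (Pool.Agent.CXD.tX13X14T_nearBh1g (inB_ok (P := (34, 34)) (b := (560239194931200, 560807759577088)) (by decide +kernel) ⟨le_rfl, Or.inr le_rfl⟩) (xh_pt (X := 531766595693898) (by decide +kernel) hK.1 hK.2 hX) hT tB) (by norm_num) (by norm_num)
  have n0_2 : TCellU 13 14 34 x0 0 ((703687441776 : ℕ) / 2 ^ 48) := tcu_join n0_1 (Pool.Agent.CXD.tX13X14T_nearBh (inB_ok (P := (34, 34)) (b := (560135203454976, 561542578569216)) (by decide +kernel) ⟨le_rfl, Or.inr le_rfl⟩) (xh_pt (X := 531766595693898) (by decide +kernel) hK.1 hK.2 hX) hT tB) (by norm_num) (by norm_num)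
  have n0_3 : TCellU 13 14 34 x0 0 ((10788454124888 : ℕ) / 2 ^ 48) := tcu_join n0_2 (Pool.Agent.CXD.tX13X14T_nearBeg (inB_ok (P := (34, 34)) (b := (560135203454976, 561542578569216)) (by decide +kernel) ⟨le_rfl, Or.inr le_rfl⟩) (xh_pt (X := 531766595693898) (by decide +kernel) hK.1 hK.2 hX) hT tB) (by norm_num) (by norm_num)
  have n0_4 : TCellU 13 14 34 x0 0 ((22517998136852 : ℕ) / 2 ^ 48) := tcu_join n0_3 (Pool.Agent.CXD.tX13X14T_nearBd (inB_ok (P := (34, 34)) (b := (560135203454976, 562949953421312)) (by decide +kernel) ⟨le_rfl, Or.inr le_rfl⟩) (xh_pt (X := 531766595693898) (by decide +kernel) hK.1 hK.2 hX) hT tB) (by norm_num) (by norm_num)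
  have n0_5 : TCellU 13 14 34 x0 0 ((122160139892424 : ℕ) / 2 ^ 48) := tcu_join n0_4 (Pool.Agent.CXD.tX13X14T_nearBc (inB_ok (P := (34, 34)) (b := (560135203454976, 562949953421312)) (by decide +kernel) ⟨le_rfl, Or.inr le_rfl⟩) (xh_pt (X := 531766595693898) (by decide +kernel) hK.1 hK.2 hX) hT) (by norm_num) (by norm_num)
  have h0 : QXS 13 14 34 x0 :=
    qxS_O (by norm_num) (by norm_num) (by norm_num) hT.gt hT.le (xh_pt (X := 531766595693898) (by decide +kernel) hK.1 hK.2 hX) Pool.Agent.Helper81.TK.E_13_14_T_midB.T (hasP (N := 13) (by decide +kernel)) (hasP (N := 14) (by decide +kernel)) (inB_ok (P := (34, 34)) (b := (550648146034688, 562949953421312)) (by decide +kernel) ⟨le_rfl, Or.inr le_rfl⟩) n0_5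
      (by norm_num) (by norm_num) (by norm_num) (far3 (L := 531766595693834) (H := 531766595693962) (by norm_num) (by norm_num) (by norm_num) hR (by norm_num) (by norm_num))
  have n1_0 : TCellU 14 13 34 x0 0 ((56294995344 : ℕ) / 2 ^ 48) := tcu_sub (Pool.Agent.CXD.tX14X13T_nearBz1 (inB_ok (P := (34, 34)) (b := (560135200047104, 561542581977088)) (by decide +kernel) ⟨le_rfl, Or.inr le_rfl⟩) (xh_pt (X := 531766595693898) (by decide +kernel) hK.1 hK.2 hX) hT.swap (fB_sw tB)) (by norm_num) le_rfl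
  have n1_1 : TCellU 14 13 34 x0 0 ((101879725368 : ℕ) / 2 ^ 48) := tcu_join n1_0 (Pool.Agent.CXD.tX14X13T_nearBg1g (inB_ok (P := (34, 34)) (b := (560239194931200, 560807759577088)) (by decide +kernel) ⟨le_rfl, Or.inr le_rfl⟩) (xh_pt (X := 531766595693898) (by decide +kernel) hK.1 hK.2 hX) hT.swap (fB_sw tB)) (by norm_num) (by norm_num)
  have n1_2 : TCellU 14 13 34 x0 0 ((703687441776 : ℕ) / 2 ^ 48) := tcu_join n1_1 (Pool.Agent.CXD.tX14X13T_nearBg (inB_ok (P := (34, 34)) (b := (560135203454976, 561542578569216)) (by decide +kernel) ⟨le_rfl, Or.inr le_rfl⟩) (xh_pt (X := 531766595693898) (by decide +kernel) hK.1 hK.2 hX) hT.swap (fB_sw tB)) (by norm_num) (by norm_num)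
  have n1_3 : TCellU 14 13 34 x0 0 ((4222124650660 : ℕ) / 2 ^ 48) := tcu_join n1_2 (Pool.Agent.CXD.tX14X13T_nearBfg (inB_ok (P := (34, 34)) (b := (560135203192832, 561542578569216)) (by decide +kernel) ⟨le_rfl, Or.inr le_rfl⟩) (xh_pt (X := 531766595693898) (by decide +kernel) hK.1 hK.2 hX) hT.swap (fB_sw tB)) (by norm_num) (by norm_num)
  have n1_4 : TCellU 14 13 34 x0 0 ((26235244407076 : ℕ) / 2 ^ 48) := tcu_join n1_3 (Pool.Agent.CXD.tX14X13T_nearBeg (inB_ok (P := (34, 34)) (b := (560135203192832, 562949953421312)) (by decide +kernel) ⟨le_rfl, Or.inr le_rfl⟩) (xh_pt (X := 531766595693898) (by decide +kernel) hK.1 hK.2 hX) hT.swap (fB_sw tB)) (by norm_num) (by norm_num)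
  have n1_5 : TCellU 14 13 34 x0 0 ((122160139892424 : ℕ) / 2 ^ 48) := tcu_join n1_4 (Pool.Agent.CXD.tX14X13T_nearBd (inB_ok (P := (34, 34)) (b := (560135203454976, 562949953421312)) (by decide +kernel) ⟨le_rfl, Or.inr le_rfl⟩) (xh_pt (X := 531766595693898) (by decide +kernel) hK.1 hK.2 hX) hT.swap) (by norm_num) (by norm_num)
  have h1 : QXS 14 13 34 x0 :=
    qxS_O (by norm_num) (by norm_num) (by norm_num) hT.gt hT.le (xh_pt (X := 531766595693898) (by decide +kernel) hK.1 hK.2 hX) Pool.Agent.Helper81.TK.E_14_13_T_midB.T (hasP (N := 14) (by decide +kernel)) (hasP (N := 13) (by decide +kernel)) (inB_ok (P := (34, 34)) (b := (550648146034688, 562949953421312)) (by decide +kernel) ⟨le_rfl, Or.inr le_rfl⟩) n1_5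
      (by norm_num) (by norm_num) (by norm_num) (far3 (L := 531766595693834) (H := 531766595693962) (by norm_num) (by norm_num) (by norm_num) hR (by norm_num) (by norm_num))
  exact zf_QS (by norm_num) (by norm_num) (by norm_num) (by norm_num) hT h0 h1
end E13_14_34

namespace E13_14_35
/-- the triple `(13, 14, 35)` -/
theorem fe : FinAt 13 14 35 := by
  refine z60_13_14_35 fun x0 hX0 hT tB => ?_
  have hX : |2 ^ 48 * x0 - (-((531782866152857 : ℕ) : ℝ))| ≤ ((64 : ℕ) : ℝ) := by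
    push_cast; exact hX0.trans (by norm_num)
  have hK := kz_pm (M := 35) (K := 560683682413444) (by norm_num) (by norm_num) rfl
  have hR : ((531782866152793 : ℕ) : ℝ) ≤ -(2 ^ 48 * x0) ∧ -(2 ^ 48 * x0) ≤ ((531782866152921 : ℕ) : ℝ) := by
    rw [abs_le] at hX0; push_cast; constructor <;> linarith [hX0.1, hX0.2]
  have n0_0 : TCellU 13 14 35 x0 0 ((56294995344 : ℕ) / 2 ^ 48) := tcu_sub (Pool.Agent.CXD.tX13X14T_nearBz1 (inB_ok (P := (35, 35)) (b := (560135200047104, 561542581977088)) (by decide +kernel) ⟨le_rfl, Or.inr le_rfl⟩) (xh_pt (X := 531782866152857) (by decide +kernel) hK.1 hK.2 hX) hT tB) (by norm_num) le_rfl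
  have n0_1 : TCellU 13 14 35 x0 0 ((109951162776 : ℕ) / 2 ^ 48) := tcu_join n0_0 (Pool.Agent.CXD.tX13X14T_nearBh1g (inB_ok (P := (35, 35)) (b := (560239194931200, 560807759577088)) (by decide +kernel) ⟨le_rfl, Or.inr le_rfl⟩) (xh_pt (X := 531782866152857) (by decide +kernel) hK.1 hK.2 hX) hT tB) (by norm_num) (by norm_num)
  have n0_2 : TCellU 13 14 35 x0 0 ((703687441776 : ℕ) / 2 ^ 48) := tcu_join n0_1 (Pool.Agent.CXD.tX13X14T_nearBh (inB_ok (P := (35, 35)) (b := (560135203454976, 561542578569216)) (by decide +kernel) ⟨le_rfl, Or.inr le_rfl⟩) (xh_pt (X := 531782866152857) (by decide +kernel) hK.1 hK.2 hX) hT tB) (by norm_num) (by norm_num)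
  have n0_3 : TCellU 13 14 35 x0 0 ((10788454124888 : ℕ) / 2 ^ 48) := tcu_join n0_2 (Pool.Agent.CXD.tX13X14T_nearBeg (inB_ok (P := (35, 35)) (b := (560135203454976, 561542578569216)) (by decide +kernel) ⟨le_rfl, Or.inr le_rfl⟩) (xh_pt (X := 531782866152857) (by decide +kernel) hK.1 hK.2 hX) hT tB) (by norm_num) (by norm_num)
  have n0_4 : TCellU 13 14 35 x0 0 ((22517998136852 : ℕ) / 2 ^ 48) := tcu_join n0_3 (Pool.Agent.CXD.tX13X14T_nearBd (inB_ok (P := (35, 35)) (b := (560135203454976, 562949953421312)) (by decide +kernel) ⟨le_rfl, Or.inr le_rfl⟩) (xh_pt (X := 531782866152857) (by decide +kernel) hK.1 hK.2 hX) hT tB) (by norm_num) (by norm_num)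
  have n0_5 : TCellU 13 14 35 x0 0 ((122160139892424 : ℕ) / 2 ^ 48) := tcu_join n0_4 (Pool.Agent.CXD.tX13X14T_nearBc (inB_ok (P := (35, 35)) (b := (560135203454976, 562949953421312)) (by decide +kernel) ⟨le_rfl, Or.inr le_rfl⟩) (xh_pt (X := 531782866152857) (by decide +kernel) hK.1 hK.2 hX) hT) (by norm_num) (by norm_num)
  have h0 : QXS 13 14 35 x0 :=
    qxS_O (by norm_num) (by norm_num) (by norm_num) hT.gt hT.le (xh_pt (X := 531782866152857) (by decide +kernel) hK.1 hK.2 hX) Pool.Agent.Helper81.TK.E_13_14_T_midB.T (hasP (N := 13) (by decide +kernel)) (hasP (N := 14) (by decide +kernel)) (inB_ok (P := (35, 35)) (b := (550648146034688, 562949953421312)) (by decide +kernel) ⟨le_rfl, Or.inr le_rfl⟩) n0_5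
      (by norm_num) (by norm_num) (by norm_num) (far3 (L := 531782866152793) (H := 531782866152921) (by norm_num) (by norm_num) (by norm_num) hR (by norm_num) (by norm_num))
  have n1_0 : TCellU 14 13 35 x0 0 ((56294995344 : ℕ) / 2 ^ 48) := tcu_sub (Pool.Agent.CXD.tX14X13T_nearBz1 (inB_ok (P := (35, 35)) (b := (560135200047104, 561542581977088)) (by decide +kernel) ⟨le_rfl, Or.inr le_rfl⟩) (xh_pt (X := 531782866152857) (by decide +kernel) hK.1 hK.2 hX) hT.swap (fB_sw tB)) (by norm_num) le_rfl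
  have n1_1 : TCellU 14 13 35 x0 0 ((101879725368 : ℕ) / 2 ^ 48) := tcu_join n1_0 (Pool.Agent.CXD.tX14X13T_nearBg1g (inB_ok (P := (35, 35)) (b := (560239194931200, 560807759577088)) (by decide +kernel) ⟨le_rfl, Or.inr le_rfl⟩) (xh_pt (X := 531782866152857) (by decide +kernel) hK.1 hK.2 hX) hT.swap (fB_sw tB)) (by norm_num) (by norm_num)
  have n1_2 : TCellU 14 13 35 x0 0 ((703687441776 : ℕ) / 2 ^ 48) := tcu_join n1_1 (Pool.Agent.CXD.tX14X13T_nearBg (inB_ok (P := (35, 35)) (b := (560135203454976, 561542578569216)) (by decide +kernel) ⟨le_rfl, Or.inr le_rfl⟩) (xh_pt (X := 531782866152857) (by decide +kernel) hK.1 hK.2 hX) hT.swap (fB_sw tB)) (by norm_num) (by norm_num)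
  have n1_3 : TCellU 14 13 35 x0 0 ((4222124650660 : ℕ) / 2 ^ 48) := tcu_join n1_2 (Pool.Agent.CXD.tX14X13T_nearBfg (inB_ok (P := (35, 35)) (b := (560135203192832, 561542578569216)) (by decide +kernel) ⟨le_rfl, Or.inr le_rfl⟩) (xh_pt (X := 531782866152857) (by decide +kernel) hK.1 hK.2 hX) hT.swap (fB_sw tB)) (by norm_num) (by norm_num)
  have n1_4 : TCellU 14 13 35 x0 0 ((26235244407076 : ℕ) / 2 ^ 48) := tcu_join n1_3 (Pool.Agent.CXD.tX14X13T_nearBeg (inB_ok (P := (35, 35)) (b := (560135203192832, 562949953421312)) (by decide +kernel) ⟨le_rfl, Or.inr le_rfl⟩) (xh_pt (X := 531782866152857) (by decide +kernel) hK.1 hK.2 hX) hT.swap (fB_sw tB)) (by norm_num) (by norm_num)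
  have n1_5 : TCellU 14 13 35 x0 0 ((122160139892424 : ℕ) / 2 ^ 48) := tcu_join n1_4 (Pool.Agent.CXD.tX14X13T_nearBd (inB_ok (P := (35, 35)) (b := (560135203454976, 562949953421312)) (by decide +kernel) ⟨le_rfl, Or.inr le_rfl⟩) (xh_pt (X := 531782866152857) (by decide +kernel) hK.1 hK.2 hX) hT.swap) (by norm_num) (by norm_num)
  have h1 : QXS 14 13 35 x0 :=
    qxS_O (by norm_num) (by norm_num) (by norm_num) hT.gt hT.le (xh_pt (X := 531782866152857) (by decide +kernel) hK.1 hK.2 hX) Pool.Agent.Helper81.TK.E_14_13_T_midB.T (hasP (N := 14) (by decide +kernel)) (hasP (N := 13) (by decide +kernel)) (inB_ok (P := (35, 35)) (b := (550648146034688, 562949953421312)) (by decide +kernel) ⟨le_rfl, Or.inr le_rfl⟩) n1_5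
      (by norm_num) (by norm_num) (by norm_num) (far3 (L := 531782866152793) (H := 531782866152921) (by norm_num) (by norm_num) (by norm_num) hR (by norm_num) (by norm_num))
  exact zf_QS (by norm_num) (by norm_num) (by norm_num) (by norm_num) hT h0 h1
end E13_14_35

namespace E13_14_36
/-- the triple `(13, 14, 36)` -/
theorem fe : FinAt 13 14 36 := by
  refine z60_13_14_36 fun x0 hX0 hT tB => ?_
  have hX : |2 ^ 48 * x0 - (-((531797759248275 : ℕ) : ℝ))| ≤ ((64 : ℕ) : ℝ) := by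
    push_cast; exact hX0.trans (by norm_num)
  have hK := kz_pm (M := 36) (K := 560807758889306) (by norm_num) (by norm_num) rfl
  have hR : ((531797759248211 : ℕ) : ℝ) ≤ -(2 ^ 48 * x0) ∧ -(2 ^ 48 * x0) ≤ ((531797759248339 : ℕ) : ℝ) := by
    rw [abs_le] at hX0; push_cast; constructor <;> linarith [hX0.1, hX0.2]
  have n0_0 : TCellU 13 14 36 x0 0 ((56294995344 : ℕ) / 2 ^ 48) := tcu_sub (Pool.Agent.CXD.tX13X14T_nearBz1 (inB_ok (P := (36, 36)) (b := (560135200047104, 561542581977088)) (by decide +kernel) ⟨le_rfl, Or.inr le_rfl⟩) (xh_pt (X := 531797759248275) (by decide +kernel) hK.1 hK.2 hX) hT tB) (by norm_num) le_rfl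
  have n0_1 : TCellU 13 14 36 x0 0 ((109951162776 : ℕ) / 2 ^ 48) := tcu_join n0_0 (Pool.Agent.CXD.tX13X14T_nearBh1g (inB_ok (P := (36, 36)) (b := (560239194931200, 560807759577088)) (by decide +kernel) ⟨le_rfl, Or.inr le_rfl⟩) (xh_pt (X := 531797759248275) (by decide +kernel) hK.1 hK.2 hX) hT tB) (by norm_num) (by norm_num)
  have n0_2 : TCellU 13 14 36 x0 0 ((703687441776 : ℕ) / 2 ^ 48) := tcu_join n0_1 (Pool.Agent.CXD.tX13X14T_nearBh (inB_ok (P := (36, 36)) (b := (560135203454976, 561542578569216)) (by decide +kernel) ⟨le_rfl, Or.inr le_rfl⟩) (xh_pt (X := 531797759248275) (by decide +kernel) hK.1 hK.2 hX) hT tB) (by norm_num) (by norm_num)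
  have n0_3 : TCellU 13 14 36 x0 0 ((10788454124888 : ℕ) / 2 ^ 48) := tcu_join n0_2 (Pool.Agent.CXD.tX13X14T_nearBeg (inB_ok (P := (36, 36)) (b := (560135203454976, 561542578569216)) (by decide +kernel) ⟨le_rfl, Or.inr le_rfl⟩) (xh_pt (X := 531797759248275) (by decide +kernel) hK.1 hK.2 hX) hT tB) (by norm_num) (by norm_num)
  have n0_4 : TCellU 13 14 36 x0 0 ((22517998136852 : ℕ) / 2 ^ 48) := tcu_join n0_3 (Pool.Agent.CXD.tX13X14T_nearBd (inB_ok (P := (36, 36)) (b := (560135203454976, 562949953421312)) (by decide +kernel) ⟨le_rfl, Or.inr le_rfl⟩) (xh_pt (X := 531797759248275) (by decide +kernel) hK.1 hK.2 hX) hT tB) (by norm_num) (by norm_num)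
  have n0_5 : TCellU 13 14 36 x0 0 ((122160139892424 : ℕ) / 2 ^ 48) := tcu_join n0_4 (Pool.Agent.CXD.tX13X14T_nearBc (inB_ok (P := (36, 36)) (b := (560135203454976, 562949953421312)) (by decide +kernel) ⟨le_rfl, Or.inr le_rfl⟩) (xh_pt (X := 531797759248275) (by decide +kernel) hK.1 hK.2 hX) hT) (by norm_num) (by norm_num)
  have h0 : QXS 13 14 36 x0 :=
    qxS_O (by norm_num) (by norm_num) (by norm_num) hT.gt hT.le (xh_pt (X := 531797759248275) (by decide +kernel) hK.1 hK.2 hX) Pool.Agent.Helper81.TK.E_13_14_T_midB.T (hasP (N := 13) (by decide +kernel)) (hasP (N := 14) (by decide +kernel)) (inB_ok (P := (36, 36)) (b := (550648146034688, 562949953421312)) (by decide +kernel) ⟨le_rfl, Or.inr le_rfl⟩) n0_5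
      (by norm_num) (by norm_num) (by norm_num) (far3 (L := 531797759248211) (H := 531797759248339) (by norm_num) (by norm_num) (by norm_num) hR (by norm_num) (by norm_num))
  have n1_0 : TCellU 14 13 36 x0 0 ((56294995344 : ℕ) / 2 ^ 48) := tcu_sub (Pool.Agent.CXD.tX14X13T_nearBz1 (inB_ok (P := (36, 36)) (b := (560135200047104, 561542581977088)) (by decide +kernel) ⟨le_rfl, Or.inr le_rfl⟩) (xh_pt (X := 531797759248275) (by decide +kernel) hK.1 hK.2 hX) hT.swap (fB_sw tB)) (by norm_num) le_rfl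
  have n1_1 : TCellU 14 13 36 x0 0 ((101879725368 : ℕ) / 2 ^ 48) := tcu_join n1_0 (Pool.Agent.CXD.tX14X13T_nearBg1g (inB_ok (P := (36, 36)) (b := (560239194931200, 560807759577088)) (by decide +kernel) ⟨le_rfl, Or.inr le_rfl⟩) (xh_pt (X := 531797759248275) (by decide +kernel) hK.1 hK.2 hX) hT.swap (fB_sw tB)) (by norm_num) (by norm_num)
  have n1_2 : TCellU 14 13 36 x0 0 ((703687441776 : ℕ) / 2 ^ 48) := tcu_join n1_1 (Pool.Agent.CXD.tX14X13T_nearBg (inB_ok (P := (36, 36)) (b := (560135203454976, 561542578569216)) (by decide +kernel) ⟨le_rfl, Or.inr le_rfl⟩) (xh_pt (X := 531797759248275) (by decide +kernel) hK.1 hK.2 hX) hT.swap (fB_sw tB)) (by norm_num) (by norm_num)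
  have n1_3 : TCellU 14 13 36 x0 0 ((4222124650660 : ℕ) / 2 ^ 48) := tcu_join n1_2 (Pool.Agent.CXD.tX14X13T_nearBfg (inB_ok (P := (36, 36)) (b := (560135203192832, 561542578569216)) (by decide +kernel) ⟨le_rfl, Or.inr le_rfl⟩) (xh_pt (X := 531797759248275) (by decide +kernel) hK.1 hK.2 hX) hT.swap (fB_sw tB)) (by norm_num) (by norm_num)
  have n1_4 : TCellU 14 13 36 x0 0 ((26235244407076 : ℕ) / 2 ^ 48) := tcu_join n1_3 (Pool.Agent.CXD.tX14X13T_nearBeg (inB_ok (P := (36, 36)) (b := (560135203192832, 562949953421312)) (by decide +kernel) ⟨le_rfl, Or.inr le_rfl⟩) (xh_pt (X := 531797759248275) (by decide +kernel) hK.1 hK.2 hX) hT.swap (fB_sw tB)) (by norm_num) (by norm_num)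
  have n1_5 : TCellU 14 13 36 x0 0 ((122160139892424 : ℕ) / 2 ^ 48) := tcu_join n1_4 (Pool.Agent.CXD.tX14X13T_nearBd (inB_ok (P := (36, 36)) (b := (560135203454976, 562949953421312)) (by decide +kernel) ⟨le_rfl, Or.inr le_rfl⟩) (xh_pt (X := 531797759248275) (by decide +kernel) hK.1 hK.2 hX) hT.swap) (by norm_num) (by norm_num)
  have h1 : QXS 14 13 36 x0 :=
    qxS_O (by norm_num) (by norm_num) (by norm_num) hT.gt hT.le (xh_pt (X := 531797759248275) (by decide +kernel) hK.1 hK.2 hX) Pool.Agent.Helper81.TK.E_14_13_T_midB.T (hasP (N := 14) (by decide +kernel)) (hasP (N := 13) (by decide +kernel)) (inB_ok (P := (36, 36)) (b := (550648146034688, 562949953421312)) (by decide +kernel) ⟨le_rfl, Or.inr le_rfl⟩) n1_5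
      (by norm_num) (by norm_num) (by norm_num) (far3 (L := 531797759248211) (H := 531797759248339) (by norm_num) (by norm_num) (by norm_num) hR (by norm_num) (by norm_num))
  exact zf_QS (by norm_num) (by norm_num) (by norm_num) (by norm_num) hT h0 h1
end E13_14_36

namespace E13_14_37
/-- the triple `(13, 14, 37)` -/
theorem fe : FinAt 13 14 37 := by
  refine z60_13_14_37 fun x0 hX0 hT tB => ?_
  have hX : |2 ^ 48 * x0 - (-((531811427087097 : ℕ) : ℝ))| ≤ ((64 : ℕ) : ℝ) := by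
    push_cast; exact hX0.trans (by norm_num)
  have hK := kz_pm (M := 37) (K := 560921919764128) (by norm_num) (by norm_num) rfl
  have hR : ((531811427087033 : ℕ) : ℝ) ≤ -(2 ^ 48 * x0) ∧ -(2 ^ 48 * x0) ≤ ((531811427087161 : ℕ) : ℝ) := by
    rw [abs_le] at hX0; push_cast; constructor <;> linarith [hX0.1, hX0.2]
  have n0_0 : TCellU 13 14 37 x0 0 ((56294995344 : ℕ) / 2 ^ 48) := tcu_sub (Pool.Agent.CXD.tX13X14T_nearBz1 (inB_ok (P := (37, 37)) (b := (560135200047104, 561542581977088)) (by decide +kernel) ⟨le_rfl, Or.inr le_rfl⟩) (xh_pt (X := 531811427087097) (by decide +kernel) hK.1 hK.2 hX) hT tB) (by norm_num) le_rfl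
  have n0_1 : TCellU 13 14 37 x0 0 ((109951162776 : ℕ) / 2 ^ 48) := tcu_join n0_0 (Pool.Agent.CXD.tX13X14T_nearBh2g (inB_ok (P := (37, 37)) (b := (560921919094784, 561515622039552)) (by decide +kernel) ⟨le_rfl, Or.inr le_rfl⟩) (xh_pt (X := 531811427087097) (by decide +kernel) hK.1 hK.2 hX) hT tB) (by norm_num) (by norm_num)
  have n0_2 : TCellU 13 14 37 x0 0 ((703687441776 : ℕ) / 2 ^ 48) := tcu_join n0_1 (Pool.Agent.CXD.tX13X14T_nearBh (inB_ok (P := (37, 37)) (b := (560135203454976, 561542578569216)) (by decide +kernel) ⟨le_rfl, Or.inr le_rfl⟩) (xh_pt (X := 531811427087097) (by decide +kernel) hK.1 hK.2 hX) hT tB) (by norm_num) (by norm_num)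
  have n0_3 : TCellU 13 14 37 x0 0 ((10788454124888 : ℕ) / 2 ^ 48) := tcu_join n0_2 (Pool.Agent.CXD.tX13X14T_nearBeg (inB_ok (P := (37, 37)) (b := (560135203454976, 561542578569216)) (by decide +kernel) ⟨le_rfl, Or.inr le_rfl⟩) (xh_pt (X := 531811427087097) (by decide +kernel) hK.1 hK.2 hX) hT tB) (by norm_num) (by norm_num)
  have n0_4 : TCellU 13 14 37 x0 0 ((22517998136852 : ℕ) / 2 ^ 48) := tcu_join n0_3 (Pool.Agent.CXD.tX13X14T_nearBd (inB_ok (P := (37, 37)) (b := (560135203454976, 562949953421312)) (by decide +kernel) ⟨le_rfl, Or.inr le_rfl⟩) (xh_pt (X := 531811427087097) (by decide +kernel) hK.1 hK.2 hX) hT tB) (by norm_num) (by norm_num)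
  have n0_5 : TCellU 13 14 37 x0 0 ((122160139892424 : ℕ) / 2 ^ 48) := tcu_join n0_4 (Pool.Agent.CXD.tX13X14T_nearBc (inB_ok (P := (37, 37)) (b := (560135203454976, 562949953421312)) (by decide +kernel) ⟨le_rfl, Or.inr le_rfl⟩) (xh_pt (X := 531811427087097) (by decide +kernel) hK.1 hK.2 hX) hT) (by norm_num) (by norm_num)
  have h0 : QXS 13 14 37 x0 :=
    qxS_O (by norm_num) (by norm_num) (by norm_num) hT.gt hT.le (xh_pt (X := 531811427087097) (by decide +kernel) hK.1 hK.2 hX) Pool.Agent.Helper81.TK.E_13_14_T_midB.T (hasP (N := 13) (by decide +kernel)) (hasP (N := 14) (by decide +kernel)) (inB_ok (P := (37, 37)) (b := (550648146034688, 562949953421312)) (by decide +kernel) ⟨le_rfl, Or.inr le_rfl⟩) n0_5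
      (by norm_num) (by norm_num) (by norm_num) (far3 (L := 531811427087033) (H := 531811427087161) (by norm_num) (by norm_num) (by norm_num) hR (by norm_num) (by norm_num))
  have n1_0 : TCellU 14 13 37 x0 0 ((56294995344 : ℕ) / 2 ^ 48) := tcu_sub (Pool.Agent.CXD.tX14X13T_nearBz1 (inB_ok (P := (37, 37)) (b := (560135200047104, 561542581977088)) (by decide +kernel) ⟨le_rfl, Or.inr le_rfl⟩) (xh_pt (X := 531811427087097) (by decide +kernel) hK.1 hK.2 hX) hT.swap (fB_sw tB)) (by norm_num) le_rfl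
  have n1_1 : TCellU 14 13 37 x0 0 ((101879725368 : ℕ) / 2 ^ 48) := tcu_join n1_0 (Pool.Agent.CXD.tX14X13T_nearBg2g (inB_ok (P := (37, 37)) (b := (560921919094784, 561515622039552)) (by decide +kernel) ⟨le_rfl, Or.inr le_rfl⟩) (xh_pt (X := 531811427087097) (by decide +kernel) hK.1 hK.2 hX) hT.swap (fB_sw tB)) (by norm_num) (by norm_num)
  have n1_2 : TCellU 14 13 37 x0 0 ((703687441776 : ℕ) / 2 ^ 48) := tcu_join n1_1 (Pool.Agent.CXD.tX14X13T_nearBg (inB_ok (P := (37, 37)) (b := (560135203454976, 561542578569216)) (by decide +kernel) ⟨le_rfl, Or.inr le_rfl⟩) (xh_pt (X := 531811427087097) (by decide +kernel) hK.1 hK.2 hX) hT.swap (fB_sw tB)) (by norm_num) (by norm_num)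
  have n1_3 : TCellU 14 13 37 x0 0 ((4222124650660 : ℕ) / 2 ^ 48) := tcu_join n1_2 (Pool.Agent.CXD.tX14X13T_nearBfg (inB_ok (P := (37, 37)) (b := (560135203192832, 561542578569216)) (by decide +kernel) ⟨le_rfl, Or.inr le_rfl⟩) (xh_pt (X := 531811427087097) (by decide +kernel) hK.1 hK.2 hX) hT.swap (fB_sw tB)) (by norm_num) (by norm_num)
  have n1_4 : TCellU 14 13 37 x0 0 ((26235244407076 : ℕ) / 2 ^ 48) := tcu_join n1_3 (Pool.Agent.CXD.tX14X13T_nearBeg (inB_ok (P := (37, 37)) (b := (560135203192832, 562949953421312)) (by decide +kernel) ⟨le_rfl, Or.inr le_rfl⟩) (xh_pt (X := 531811427087097) (by decide +kernel) hK.1 hK.2 hX) hT.swap (fB_sw tB)) (by norm_num) (by norm_num)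
  have n1_5 : TCellU 14 13 37 x0 0 ((122160139892424 : ℕ) / 2 ^ 48) := tcu_join n1_4 (Pool.Agent.CXD.tX14X13T_nearBd (inB_ok (P := (37, 37)) (b := (560135203454976, 562949953421312)) (by decide +kernel) ⟨le_rfl, Or.inr le_rfl⟩) (xh_pt (X := 531811427087097) (by decide +kernel) hK.1 hK.2 hX) hT.swap) (by norm_num) (by norm_num)
  have h1 : QXS 14 13 37 x0 :=
    qxS_O (by norm_num) (by norm_num) (by norm_num) hT.gt hT.le (xh_pt (X := 531811427087097) (by decide +kernel) hK.1 hK.2 hX) Pool.Agent.Helper81.TK.E_14_13_T_midB.T (hasP (N := 14) (by decide +kernel)) (hasP (N := 13) (by decide +kernel)) (inB_ok (P := (37, 37)) (b := (550648146034688, 562949953421312)) (by decide +kernel) ⟨le_rfl, Or.inr le_rfl⟩) n1_5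
      (by norm_num) (by norm_num) (by norm_num) (far3 (L := 531811427087033) (H := 531811427087161) (by norm_num) (by norm_num) (by norm_num) hR (by norm_num) (by norm_num))
  exact zf_QS (by norm_num) (by norm_num) (by norm_num) (by norm_num) hT h0 h1
end E13_14_37

namespace E13_14_38
/-- the triple `(13, 14, 38)` -/
theorem fe : FinAt 13 14 38 := by
  refine z60_13_14_38 fun x0 hX0 hT tB => ?_
  have hX : |2 ^ 48 * x0 - (-((531824001234839 : ℕ) : ℝ))| ≤ ((64 : ℕ) : ℝ) := by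
    push_cast; exact hX0.trans (by norm_num)
  have hK := kz_pm (M := 38) (K := 561027193918507) (by norm_num) (by norm_num) rfl
  have hR : ((531824001234775 : ℕ) : ℝ) ≤ -(2 ^ 48 * x0) ∧ -(2 ^ 48 * x0) ≤ ((531824001234903 : ℕ) : ℝ) := by
    rw [abs_le] at hX0; push_cast; constructor <;> linarith [hX0.1, hX0.2]
  have n0_0 : TCellU 13 14 38 x0 0 ((56294995344 : ℕ) / 2 ^ 48) := tcu_sub (Pool.Agent.CXD.tX13X14T_nearBz1 (inB_ok (P := (38, 38)) (b := (560135200047104, 561542581977088)) (by decide +kernel) ⟨le_rfl, Or.inr le_rfl⟩) (xh_pt (X := 531824001234839) (by decide +kernel) hK.1 hK.2 hX) hT tB) (by norm_num) le_rfl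
  have n0_1 : TCellU 13 14 38 x0 0 ((109951162776 : ℕ) / 2 ^ 48) := tcu_join n0_0 (Pool.Agent.CXD.tX13X14T_nearBh2g (inB_ok (P := (38, 38)) (b := (560921919094784, 561515622039552)) (by decide +kernel) ⟨le_rfl, Or.inr le_rfl⟩) (xh_pt (X := 531824001234839) (by decide +kernel) hK.1 hK.2 hX) hT tB) (by norm_num) (by norm_num)
  have n0_2 : TCellU 13 14 38 x0 0 ((703687441776 : ℕ) / 2 ^ 48) := tcu_join n0_1 (Pool.Agent.CXD.tX13X14T_nearBh (inB_ok (P := (38, 38)) (b := (560135203454976, 561542578569216)) (by decide +kernel) ⟨le_rfl, Or.inr le_rfl⟩) (xh_pt (X := 531824001234839) (by decide +kernel) hK.1 hK.2 hX) hT tB) (by norm_num) (by norm_num)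
  have n0_3 : TCellU 13 14 38 x0 0 ((10788454124888 : ℕ) / 2 ^ 48) := tcu_join n0_2 (Pool.Agent.CXD.tX13X14T_nearBeg (inB_ok (P := (38, 38)) (b := (560135203454976, 561542578569216)) (by decide +kernel) ⟨le_rfl, Or.inr le_rfl⟩) (xh_pt (X := 531824001234839) (by decide +kernel) hK.1 hK.2 hX) hT tB) (by norm_num) (by norm_num)
  have n0_4 : TCellU 13 14 38 x0 0 ((22517998136852 : ℕ) / 2 ^ 48) := tcu_join n0_3 (Pool.Agent.CXD.tX13X14T_nearBd (inB_ok (P := (38, 38)) (b := (560135203454976, 562949953421312)) (by decide +kernel) ⟨le_rfl, Or.inr le_rfl⟩) (xh_pt (X := 531824001234839) (by decide +kernel) hK.1 hK.2 hX) hT tB) (by norm_num) (by norm_num)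
  have n0_5 : TCellU 13 14 38 x0 0 ((122160139892424 : ℕ) / 2 ^ 48) := tcu_join n0_4 (Pool.Agent.CXD.tX13X14T_nearBc (inB_ok (P := (38, 38)) (b := (560135203454976, 562949953421312)) (by decide +kernel) ⟨le_rfl, Or.inr le_rfl⟩) (xh_pt (X := 531824001234839) (by decide +kernel) hK.1 hK.2 hX) hT) (by norm_num) (by norm_num)
  have h0 : QXS 13 14 38 x0 :=
    qxS_O (by norm_num) (by norm_num) (by norm_num) hT.gt hT.le (xh_pt (X := 531824001234839) (by decide +kernel) hK.1 hK.2 hX) Pool.Agent.Helper81.TK.E_13_14_T_midB.T (hasP (N := 13) (by decide +kernel)) (hasP (N := 14) (by decide +kernel)) (inB_ok (P := (38, 38)) (b := (550648146034688, 562949953421312)) (by decide +kernel) ⟨le_rfl, Or.inr le_rfl⟩) n0_5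
      (by norm_num) (by norm_num) (by norm_num) (far3 (L := 531824001234775) (H := 531824001234903) (by norm_num) (by norm_num) (by norm_num) hR (by norm_num) (by norm_num))
  have n1_0 : TCellU 14 13 38 x0 0 ((56294995344 : ℕ) / 2 ^ 48) := tcu_sub (Pool.Agent.CXD.tX14X13T_nearBz1 (inB_ok (P := (38, 38)) (b := (560135200047104, 561542581977088)) (by decide +kernel) ⟨le_rfl, Or.inr le_rfl⟩) (xh_pt (X := 531824001234839) (by decide +kernel) hK.1 hK.2 hX) hT.swap (fB_sw tB)) (by norm_num) le_rfl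
  have n1_1 : TCellU 14 13 38 x0 0 ((101879725368 : ℕ) / 2 ^ 48) := tcu_join n1_0 (Pool.Agent.CXD.tX14X13T_nearBg2g (inB_ok (P := (38, 38)) (b := (560921919094784, 561515622039552)) (by decide +kernel) ⟨le_rfl, Or.inr le_rfl⟩) (xh_pt (X := 531824001234839) (by decide +kernel) hK.1 hK.2 hX) hT.swap (fB_sw tB)) (by norm_num) (by norm_num)
  have n1_2 : TCellU 14 13 38 x0 0 ((703687441776 : ℕ) / 2 ^ 48) := tcu_join n1_1 (Pool.Agent.CXD.tX14X13T_nearBg (inB_ok (P := (38, 38)) (b := (560135203454976, 561542578569216)) (by decide +kernel) ⟨le_rfl, Or.inr le_rfl⟩) (xh_pt (X := 531824001234839) (by decide +kernel) hK.1 hK.2 hX) hT.swap (fB_sw tB)) (by norm_num) (by norm_num)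
  have n1_3 : TCellU 14 13 38 x0 0 ((4222124650660 : ℕ) / 2 ^ 48) := tcu_join n1_2 (Pool.Agent.CXD.tX14X13T_nearBfg (inB_ok (P := (38, 38)) (b := (560135203192832, 561542578569216)) (by decide +kernel) ⟨le_rfl, Or.inr le_rfl⟩) (xh_pt (X := 531824001234839) (by decide +kernel) hK.1 hK.2 hX) hT.swap (fB_sw tB)) (by norm_num) (by norm_num)
  have n1_4 : TCellU 14 13 38 x0 0 ((26235244407076 : ℕ) / 2 ^ 48) := tcu_join n1_3 (Pool.Agent.CXD.tX14X13T_nearBeg (inB_ok (P := (38, 38)) (b := (560135203192832, 562949953421312)) (by decide +kernel) ⟨le_rfl, Or.inr le_rfl⟩) (xh_pt (X := 531824001234839) (by decide +kernel) hK.1 hK.2 hX) hT.swap (fB_sw tB)) (by norm_num) (by norm_num)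
  have n1_5 : TCellU 14 13 38 x0 0 ((122160139892424 : ℕ) / 2 ^ 48) := tcu_join n1_4 (Pool.Agent.CXD.tX14X13T_nearBd (inB_ok (P := (38, 38)) (b := (560135203454976, 562949953421312)) (by decide +kernel) ⟨le_rfl, Or.inr le_rfl⟩) (xh_pt (X := 531824001234839) (by decide +kernel) hK.1 hK.2 hX) hT.swap) (by norm_num) (by norm_num)
  have h1 : QXS 14 13 38 x0 :=
    qxS_O (by norm_num) (by norm_num) (by norm_num) hT.gt hT.le (xh_pt (X := 531824001234839) (by decide +kernel) hK.1 hK.2 hX) Pool.Agent.Helper81.TK.E_14_13_T_midB.T (hasP (N := 14) (by decide +kernel)) (hasP (N := 13) (by decide +kernel)) (inB_ok (P := (38, 38)) (b := (550648146034688, 562949953421312)) (by decide +kernel) ⟨le_rfl, Or.inr le_rfl⟩) n1_5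
      (by norm_num) (by norm_num) (by norm_num) (far3 (L := 531824001234775) (H := 531824001234903) (by norm_num) (by norm_num) (by norm_num) hR (by norm_num) (by norm_num))
  exact zf_QS (by norm_num) (by norm_num) (by norm_num) (by norm_num) hT h0 h1
end E13_14_38

namespace E13_14_39
/-- the triple `(13, 14, 39)` -/
theorem fe : FinAt 13 14 39 := by
  refine z60_13_14_39 fun x0 hX0 hT tB => ?_
  have hX : |2 ^ 48 * x0 - (-((531835595971992 : ℕ) : ℝ))| ≤ ((64 : ℕ) : ℝ) := by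
    push_cast; exact hX0.trans (by norm_num)
  have hK := kz_pm (M := 39) (K := 561124480186506) (by norm_num) (by norm_num) rfl
  have hR : ((531835595971928 : ℕ) : ℝ) ≤ -(2 ^ 48 * x0) ∧ -(2 ^ 48 * x0) ≤ ((531835595972056 : ℕ) : ℝ) := by
    rw [abs_le] at hX0; push_cast; constructor <;> linarith [hX0.1, hX0.2]
  have n0_0 : TCellU 13 14 39 x0 0 ((56294995344 : ℕ) / 2 ^ 48) := tcu_sub (Pool.Agent.CXD.tX13X14T_nearBz1 (inB_ok (P := (39, 39)) (b := (560135200047104, 561542581977088)) (by decide +kernel) ⟨le_rfl, Or.inr le_rfl⟩) (xh_pt (X := 531835595971992) (by decide +kernel) hK.1 hK.2 hX) hT tB) (by norm_num) le_rfl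
  have n0_1 : TCellU 13 14 39 x0 0 ((109951162776 : ℕ) / 2 ^ 48) := tcu_join n0_0 (Pool.Agent.CXD.tX13X14T_nearBh2g (inB_ok (P := (39, 39)) (b := (560921919094784, 561515622039552)) (by decide +kernel) ⟨le_rfl, Or.inr le_rfl⟩) (xh_pt (X := 531835595971992) (by decide +kernel) hK.1 hK.2 hX) hT tB) (by norm_num) (by norm_num)
  have n0_2 : TCellU 13 14 39 x0 0 ((703687441776 : ℕ) / 2 ^ 48) := tcu_join n0_1 (Pool.Agent.CXD.tX13X14T_nearBh (inB_ok (P := (39, 39)) (b := (560135203454976, 561542578569216)) (by decide +kernel) ⟨le_rfl, Or.inr le_rfl⟩) (xh_pt (X := 531835595971992) (by decide +kernel) hK.1 hK.2 hX) hT tB) (by norm_num) (by norm_num)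
  have n0_3 : TCellU 13 14 39 x0 0 ((10788454124888 : ℕ) / 2 ^ 48) := tcu_join n0_2 (Pool.Agent.CXD.tX13X14T_nearBeg (inB_ok (P := (39, 39)) (b := (560135203454976, 561542578569216)) (by decide +kernel) ⟨le_rfl, Or.inr le_rfl⟩) (xh_pt (X := 531835595971992) (by decide +kernel) hK.1 hK.2 hX) hT tB) (by norm_num) (by norm_num)
  have n0_4 : TCellU 13 14 39 x0 0 ((22517998136852 : ℕ) / 2 ^ 48) := tcu_join n0_3 (Pool.Agent.CXD.tX13X14T_nearBd (inB_ok (P := (39, 39)) (b := (560135203454976, 562949953421312)) (by decide +kernel) ⟨le_rfl, Or.inr le_rfl⟩) (xh_pt (X := 531835595971992) (by decide +kernel) hK.1 hK.2 hX) hT tB) (by norm_num) (by norm_num)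
  have n0_5 : TCellU 13 14 39 x0 0 ((122160139892424 : ℕ) / 2 ^ 48) := tcu_join n0_4 (Pool.Agent.CXD.tX13X14T_nearBc (inB_ok (P := (39, 39)) (b := (560135203454976, 562949953421312)) (by decide +kernel) ⟨le_rfl, Or.inr le_rfl⟩) (xh_pt (X := 531835595971992) (by decide +kernel) hK.1 hK.2 hX) hT) (by norm_num) (by norm_num)
  have h0 : QXS 13 14 39 x0 :=
    qxS_O (by norm_num) (by norm_num) (by norm_num) hT.gt hT.le (xh_pt (X := 531835595971992) (by decide +kernel) hK.1 hK.2 hX) Pool.Agent.Helper81.TK.E_13_14_T_midB.T (hasP (N := 13) (by decide +kernel)) (hasP (N := 14) (by decide +kernel)) (inB_ok (P := (39, 39)) (b := (550648146034688, 562949953421312)) (by decide +kernel) ⟨le_rfl, Or.inr le_rfl⟩) n0_5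
      (by norm_num) (by norm_num) (by norm_num) (far3 (L := 531835595971928) (H := 531835595972056) (by norm_num) (by norm_num) (by norm_num) hR (by norm_num) (by norm_num))
  have n1_0 : TCellU 14 13 39 x0 0 ((56294995344 : ℕ) / 2 ^ 48) := tcu_sub (Pool.Agent.CXD.tX14X13T_nearBz1 (inB_ok (P := (39, 39)) (b := (560135200047104, 561542581977088)) (by decide +kernel) ⟨le_rfl, Or.inr le_rfl⟩) (xh_pt (X := 531835595971992) (by decide +kernel) hK.1 hK.2 hX) hT.swap (fB_sw tB)) (by norm_num) le_rfl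
  have n1_1 : TCellU 14 13 39 x0 0 ((101879725368 : ℕ) / 2 ^ 48) := tcu_join n1_0 (Pool.Agent.CXD.tX14X13T_nearBg2g (inB_ok (P := (39, 39)) (b := (560921919094784, 561515622039552)) (by decide +kernel) ⟨le_rfl, Or.inr le_rfl⟩) (xh_pt (X := 531835595971992) (by decide +kernel) hK.1 hK.2 hX) hT.swap (fB_sw tB)) (by norm_num) (by norm_num)
  have n1_2 : TCellU 14 13 39 x0 0 ((703687441776 : ℕ) / 2 ^ 48) := tcu_join n1_1 (Pool.Agent.CXD.tX14X13T_nearBg (inB_ok (P := (39, 39)) (b := (560135203454976, 561542578569216)) (by decide +kernel) ⟨le_rfl, Or.inr le_rfl⟩) (xh_pt (X := 531835595971992) (by decide +kernel) hK.1 hK.2 hX) hT.swap (fB_sw tB)) (by norm_num) (by norm_num)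
  have n1_3 : TCellU 14 13 39 x0 0 ((4222124650660 : ℕ) / 2 ^ 48) := tcu_join n1_2 (Pool.Agent.CXD.tX14X13T_nearBfg (inB_ok (P := (39, 39)) (b := (560135203192832, 561542578569216)) (by decide +kernel) ⟨le_rfl, Or.inr le_rfl⟩) (xh_pt (X := 531835595971992) (by decide +kernel) hK.1 hK.2 hX) hT.swap (fB_sw tB)) (by norm_num) (by norm_num)
  have n1_4 : TCellU 14 13 39 x0 0 ((26235244407076 : ℕ) / 2 ^ 48) := tcu_join n1_3 (Pool.Agent.CXD.tX14X13T_nearBeg (inB_ok (P := (39, 39)) (b := (560135203192832, 562949953421312)) (by decide +kernel) ⟨le_rfl, Or.inr le_rfl⟩) (xh_pt (X := 531835595971992) (by decide +kernel) hK.1 hK.2 hX) hT.swap (fB_sw tB)) (by norm_num) (by norm_num)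
  have n1_5 : TCellU 14 13 39 x0 0 ((122160139892424 : ℕ) / 2 ^ 48) := tcu_join n1_4 (Pool.Agent.CXD.tX14X13T_nearBd (inB_ok (P := (39, 39)) (b := (560135203454976, 562949953421312)) (by decide +kernel) ⟨le_rfl, Or.inr le_rfl⟩) (xh_pt (X := 531835595971992) (by decide +kernel) hK.1 hK.2 hX) hT.swap) (by norm_num) (by norm_num)
  have h1 : QXS 14 13 39 x0 :=
    qxS_O (by norm_num) (by norm_num) (by norm_num) hT.gt hT.le (xh_pt (X := 531835595971992) (by decide +kernel) hK.1 hK.2 hX) Pool.Agent.Helper81.TK.E_14_13_T_midB.T (hasP (N := 14) (by decide +kernel)) (hasP (N := 13) (by decide +kernel)) (inB_ok (P := (39, 39)) (b := (550648146034688, 562949953421312)) (by decide +kernel) ⟨le_rfl, Or.inr le_rfl⟩) n1_5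
      (by norm_num) (by norm_num) (by norm_num) (far3 (L := 531835595971928) (H := 531835595972056) (by norm_num) (by norm_num) (by norm_num) hR (by norm_num) (by norm_num))
  exact zf_QS (by norm_num) (by norm_num) (by norm_num) (by norm_num) hT h0 h1
end E13_14_39

namespace E13_14_40
/-- the triple `(13, 14, 40)` -/
theorem fe : FinAt 13 14 40 := by
  refine z60_13_14_40 fun x0 hX0 hT tB => ?_
  have hX : |2 ^ 48 * x0 - (-((531846310961265 : ℕ) : ℝ))| ≤ ((64 : ℕ) : ℝ) := by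
    push_cast; exact hX0.trans (by norm_num)
  have hK := kz_pm (M := 40) (K := 561214566589963) (by norm_num) (by norm_num) rfl
  have hR : ((531846310961201 : ℕ) : ℝ) ≤ -(2 ^ 48 * x0) ∧ -(2 ^ 48 * x0) ≤ ((531846310961329 : ℕ) : ℝ) := by
    rw [abs_le] at hX0; push_cast; constructor <;> linarith [hX0.1, hX0.2]
  have n0_0 : TCellU 13 14 40 x0 0 ((56294995344 : ℕ) / 2 ^ 48) := tcu_sub (Pool.Agent.CXD.tX13X14T_nearBz1 (inB_ok (P := (40, 40)) (b := (560135200047104, 561542581977088)) (by decide +kernel) ⟨le_rfl, Or.inr le_rfl⟩) (xh_pt (X := 531846310961265) (by decide +kernel) hK.1 hK.2 hX) hT tB) (by norm_num) le_rfl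
  have n0_1 : TCellU 13 14 40 x0 0 ((109951162776 : ℕ) / 2 ^ 48) := tcu_join n0_0 (Pool.Agent.CXD.tX13X14T_nearBh2g (inB_ok (P := (40, 40)) (b := (560921919094784, 561515622039552)) (by decide +kernel) ⟨le_rfl, Or.inr le_rfl⟩) (xh_pt (X := 531846310961265) (by decide +kernel) hK.1 hK.2 hX) hT tB) (by norm_num) (by norm_num)
  have n0_2 : TCellU 13 14 40 x0 0 ((703687441776 : ℕ) / 2 ^ 48) := tcu_join n0_1 (Pool.Agent.CXD.tX13X14T_nearBh (inB_ok (P := (40, 40)) (b := (560135203454976, 561542578569216)) (by decide +kernel) ⟨le_rfl, Or.inr le_rfl⟩) (xh_pt (X := 531846310961265) (by decide +kernel) hK.1 hK.2 hX) hT tB) (by norm_num) (by norm_num)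
  have n0_3 : TCellU 13 14 40 x0 0 ((10788454124888 : ℕ) / 2 ^ 48) := tcu_join n0_2 (Pool.Agent.CXD.tX13X14T_nearBeg (inB_ok (P := (40, 40)) (b := (560135203454976, 561542578569216)) (by decide +kernel) ⟨le_rfl, Or.inr le_rfl⟩) (xh_pt (X := 531846310961265) (by decide +kernel) hK.1 hK.2 hX) hT tB) (by norm_num) (by norm_num)
  have n0_4 : TCellU 13 14 40 x0 0 ((22517998136852 : ℕ) / 2 ^ 48) := tcu_join n0_3 (Pool.Agent.CXD.tX13X14T_nearBd (inB_ok (P := (40, 40)) (b := (560135203454976, 562949953421312)) (by decide +kernel) ⟨le_rfl, Or.inr le_rfl⟩) (xh_pt (X := 531846310961265) (by decide +kernel) hK.1 hK.2 hX) hT tB) (by norm_num) (by norm_num)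
  have n0_5 : TCellU 13 14 40 x0 0 ((122160139892424 : ℕ) / 2 ^ 48) := tcu_join n0_4 (Pool.Agent.CXD.tX13X14T_nearBc (inB_ok (P := (40, 40)) (b := (560135203454976, 562949953421312)) (by decide +kernel) ⟨le_rfl, Or.inr le_rfl⟩) (xh_pt (X := 531846310961265) (by decide +kernel) hK.1 hK.2 hX) hT) (by norm_num) (by norm_num)
  have h0 : QXS 13 14 40 x0 :=
    qxS_O (by norm_num) (by norm_num) (by norm_num) hT.gt hT.le (xh_pt (X := 531846310961265) (by decide +kernel) hK.1 hK.2 hX) Pool.Agent.Helper81.TK.E_13_14_T_midB.T (hasP (N := 13) (by decide +kernel)) (hasP (N := 14) (by decide +kernel)) (inB_ok (P := (40, 40)) (b := (550648146034688, 562949953421312)) (by decide +kernel) ⟨le_rfl, Or.inr le_rfl⟩) n0_5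
      (by norm_num) (by norm_num) (by norm_num) (far3 (L := 531846310961201) (H := 531846310961329) (by norm_num) (by norm_num) (by norm_num) hR (by norm_num) (by norm_num))
  have n1_0 : TCellU 14 13 40 x0 0 ((56294995344 : ℕ) / 2 ^ 48) := tcu_sub (Pool.Agent.CXD.tX14X13T_nearBz1 (inB_ok (P := (40, 40)) (b := (560135200047104, 561542581977088)) (by decide +kernel) ⟨le_rfl, Or.inr le_rfl⟩) (xh_pt (X := 531846310961265) (by decide +kernel) hK.1 hK.2 hX) hT.swap (fB_sw tB)) (by norm_num) le_rfl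
  have n1_1 : TCellU 14 13 40 x0 0 ((101879725368 : ℕ) / 2 ^ 48) := tcu_join n1_0 (Pool.Agent.CXD.tX14X13T_nearBg2g (inB_ok (P := (40, 40)) (b := (560921919094784, 561515622039552)) (by decide +kernel) ⟨le_rfl, Or.inr le_rfl⟩) (xh_pt (X := 531846310961265) (by decide +kernel) hK.1 hK.2 hX) hT.swap (fB_sw tB)) (by norm_num) (by norm_num)
  have n1_2 : TCellU 14 13 40 x0 0 ((703687441776 : ℕ) / 2 ^ 48) := tcu_join n1_1 (Pool.Agent.CXD.tX14X13T_nearBg (inB_ok (P := (40, 40)) (b := (560135203454976, 561542578569216)) (by decide +kernel) ⟨le_rfl, Or.inr le_rfl⟩) (xh_pt (X := 531846310961265) (by decide +kernel) hK.1 hK.2 hX) hT.swap (fB_sw tB)) (by norm_num) (by norm_num)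
  have n1_3 : TCellU 14 13 40 x0 0 ((4222124650660 : ℕ) / 2 ^ 48) := tcu_join n1_2 (Pool.Agent.CXD.tX14X13T_nearBfg (inB_ok (P := (40, 40)) (b := (560135203192832, 561542578569216)) (by decide +kernel) ⟨le_rfl, Or.inr le_rfl⟩) (xh_pt (X := 531846310961265) (by decide +kernel) hK.1 hK.2 hX) hT.swap (fB_sw tB)) (by norm_num) (by norm_num)
  have n1_4 : TCellU 14 13 40 x0 0 ((26235244407076 : ℕ) / 2 ^ 48) := tcu_join n1_3 (Pool.Agent.CXD.tX14X13T_nearBeg (inB_ok (P := (40, 40)) (b := (560135203192832, 562949953421312)) (by decide +kernel) ⟨le_rfl, Or.inr le_rfl⟩) (xh_pt (X := 531846310961265) (by decide +kernel) hK.1 hK.2 hX) hT.swap (fB_sw tB)) (by norm_num) (by norm_num)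
  have n1_5 : TCellU 14 13 40 x0 0 ((122160139892424 : ℕ) / 2 ^ 48) := tcu_join n1_4 (Pool.Agent.CXD.tX14X13T_nearBd (inB_ok (P := (40, 40)) (b := (560135203454976, 562949953421312)) (by decide +kernel) ⟨le_rfl, Or.inr le_rfl⟩) (xh_pt (X := 531846310961265) (by decide +kernel) hK.1 hK.2 hX) hT.swap) (by norm_num) (by norm_num)
  have h1 : QXS 14 13 40 x0 :=
    qxS_O (by norm_num) (by norm_num) (by norm_num) hT.gt hT.le (xh_pt (X := 531846310961265) (by decide +kernel) hK.1 hK.2 hX) Pool.Agent.Helper81.TK.E_14_13_T_midB.T (hasP (N := 14) (by decide +kernel)) (hasP (N := 13) (by decide +kernel)) (inB_ok (P := (40, 40)) (b := (550648146034688, 562949953421312)) (by decide +kernel) ⟨le_rfl, Or.inr le_rfl⟩) n1_5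
      (by norm_num) (by norm_num) (by norm_num) (far3 (L := 531846310961201) (H := 531846310961329) (by norm_num) (by norm_num) (by norm_num) hR (by norm_num) (by norm_num))
  exact zf_QS (by norm_num) (by norm_num) (by norm_num) (by norm_num) hT h0 h1
end E13_14_40

end Pool.Agent.Helper81.HD
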