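import Pool.Agent.CXD.M_X13_X14_T_1
import Pool.Agent.CXD.M_X13_X14_T_2
import Pool.Agent.CXD.M_X13_X14_T_3
import Pool.Agent.CXD.M_X13_X14_T_4
import Pool.Agent.CXD.M_X14_X13_T_1
import Pool.Agent.CXD.M_X14_X13_T_2
import Pool.Agent.CXD.M_X14_X13_T_3
import Pool.Agent.Helper81.HD.G13_14
import Pool.Agent.Helper81.MIT.SubX
import Pool.Agent.Helper81.MIT.TlA
import Pool.Agent.Helper81.MIT.TlB
import Pool.Agent.Helper81.TK.GS2

/-!
The row `(13, 14, r)`, `r` at least `15`.
-/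

set_option autoImplicit false
set_option exponentiation.threshold 4000
noncomputable section
namespace Pool.Agent.Helper81.HD.R13_14

open Pool.Agent.Helper81.MIT
open Pool.Agent.Helper6.MONO (Thr fB xA FinAt Kp)
open Pool.Agent.Helper57.U2 (TCellU)
open Pool.Agent.Helper84.ST (QXS)
open Pool.Agent.Helper84.XL (XH)
open Pool.Agent.Helper86.C75 (Z)
open Pool.Agent.Helper90.KMO (zv)

theorem c1_0_t0 : cmpQ 560135200047104 561542581977088 561298146334369 561515621459832 561298146334369 561515621459832 894304 (zv (Z.m (nat_lit 531716553242515))) (zv (Z.m (nat_lit 531802128059443))) (zv (Z.m (nat_lit 531885150048599)))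
    (zv (Z.m (nat_lit 531856233447009))) (zv (Z.m (nat_lit 531869130983564))) (zv (Z.m (nat_lit 531881968115009))) = true := by decide +kernel
theorem c1_0 {r : ℕ} (h1 : ((561298146334369 : ℕ) : ℝ) ≤ 2 ^ 48 * Kp r) (h2 : 2 ^ 48 * Kp r ≤ ((561515621459832 : ℕ) : ℝ)) {x0 : ℝ}
    (hT : Thr 13 14 r x0) (tB : fB 13 14 r x0 = 0) :
    XH (Z.m (nat_lit 531716553242515)) (Z.m (nat_lit 531802128059443)) (Z.m (nat_lit 531885150048599)) 560135200047104 561542581977088 978036 r x0 := by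
  have hX := tl_1 h1 h2 hT tB
  exact xh_cmp c1_0_t0 (by norm_num) h1 h2 hX

theorem c1_1_t0 : cmpQ 560921919094784 561515622039552 561298146334369 561515621459832 561298146334369 561406883897100 77074 (zv (Z.m (nat_lit 531811427007058))) (zv (Z.m (nat_lit 531846923362697))) (zv (Z.m (nat_lit 531881968185608)))
    (zv (Z.m (nat_lit 531856233447009))) (zv (Z.m (nat_lit 531869130983564))) (zv (Z.m (nat_lit 531881968115009))) = true := by decide +kernel
theorem c1_1_t1 : cmpQ 560921919094784 561515622039552 561298146334369 561515621459832 561406883897100 561515621459832 67151 (zv (Z.m (nat_lit 531811427007058))) (zv (Z.m (nat_lit 531846923362697))) (zv (Z.m (nat_lit 531881968185608)))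
    (zv (Z.m (nat_lit 531856233447009))) (zv (Z.m (nat_lit 531869130983564))) (zv (Z.m (nat_lit 531881968115009))) = true := by decide +kernel
theorem c1_1 {r : ℕ} (h1 : ((561298146334369 : ℕ) : ℝ) ≤ 2 ^ 48 * Kp r) (h2 : 2 ^ 48 * Kp r ≤ ((561515621459832 : ℕ) : ℝ)) {x0 : ℝ}
    (hT : Thr 13 14 r x0) (tB : fB 13 14 r x0 = 0) :
    XH (Z.m (nat_lit 531811427007058)) (Z.m (nat_lit 531846923362697)) (Z.m (nat_lit 531881968185608)) 560921919094784 561515622039552 90487 r x0 := by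
  have hX := tl_1 h1 h2 hT tB
  rcases le_total (2 ^ 48 * Kp r) ((561406883897100 : ℕ) : ℝ) with g1 | g1
  · exact xh_cmp c1_1_t0 (by norm_num) h1 g1 hX
  exact xh_cmp c1_1_t1 (by norm_num) g1 h2 hX

theorem c1_2_t0 : cmpQ 560135203454976 561542578569216 561298146334369 561515621459832 561298146334369 561515621459832 894289 (zv (Z.m (nat_lit 531716553656965))) (zv (Z.m (nat_lit 531802128053261))) (zv (Z.m (nat_lit 531885149646513)))
    (zv (Z.m (nat_lit 531856233447009))) (zv (Z.m (nat_lit 531869130983564))) (zv (Z.m (nat_lit 531881968115009))) = true := by decide +kernel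
theorem c1_2 {r : ℕ} (h1 : ((561298146334369 : ℕ) : ℝ) ≤ 2 ^ 48 * Kp r) (h2 : 2 ^ 48 * Kp r ≤ ((561515621459832 : ℕ) : ℝ)) {x0 : ℝ}
    (hT : Thr 13 14 r x0) (tB : fB 13 14 r x0 = 0) :
    XH (Z.m (nat_lit 531716553656965)) (Z.m (nat_lit 531802128053261)) (Z.m (nat_lit 531885149646513)) 560135203454976 561542578569216 978022 r x0 := by
  have hX := tl_1 h1 h2 hT tB
  exact xh_cmp c1_2_t0 (by norm_num) h1 h2 hX

theorem c1_3_t0 : cmpQ 560135203454976 562949953421312 561298146334369 561515621459832 561298146334369 561515621459832 3149867 (zv (Z.m (nat_lit 531716553656965))) (zv (Z.m (nat_lit 531887674254297))) (zv (Z.m (nat_lit 532048696358633)))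
    (zv (Z.m (nat_lit 531856233447009))) (zv (Z.m (nat_lit 531869130983564))) (zv (Z.m (nat_lit 531881968115009))) = true := by decide +kernel
theorem c1_3 {r : ℕ} (h1 : ((561298146334369 : ℕ) : ℝ) ≤ 2 ^ 48 * Kp r) (h2 : 2 ^ 48 * Kp r ≤ ((561515621459832 : ℕ) : ℝ)) {x0 : ℝ}
    (hT : Thr 13 14 r x0) (tB : fB 13 14 r x0 = 0) :
    XH (Z.m (nat_lit 531716553656965)) (Z.m (nat_lit 531887674254297)) (Z.m (nat_lit 532048696358633)) 560135203454976 562949953421312 7477165 r x0 := by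
  have hX := tl_1 h1 h2 hT tB
  exact xh_cmp c1_3_t0 (by norm_num) h1 h2 hX

theorem c1_4_t0 : cmpQ 550648146034688 562949953421312 561298146334369 561515621459832 561298146334369 561515621459832 627524734 (zv (Z.m (nat_lit 530438639734205))) (zv (Z.m (nat_lit 531348415673837))) (zv (Z.m (nat_lit 532048696358633)))
    (zv (Z.m (nat_lit 531856233447009))) (zv (Z.m (nat_lit 531869130983564))) (zv (Z.m (nat_lit 531881968115009))) = true := by decide +kernel
theorem c1_4 {r : ℕ} (h1 : ((561298146334369 : ℕ) : ℝ) ≤ 2 ^ 48 * Kp r) (h2 : 2 ^ 48 * Kp r ≤ ((561515621459832 : ℕ) : ℝ)) {x0 : ℝ}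
    (hT : Thr 13 14 r x0) (tB : fB 13 14 r x0 = 0) :
    XH (Z.m (nat_lit 530438639734205)) (Z.m (nat_lit 531348415673837)) (Z.m (nat_lit 532048696358633)) 550648146034688 562949953421312 1246431802 r x0 := by
  have hX := tl_1 h1 h2 hT tB
  exact xh_cmp c1_4_t0 (by norm_num) h1 h2 hX

theorem c1_5_t0 : cmpQ 560135203192832 561542578569216 561298146334369 561515621459832 561298146334369 561515621459832 894289 (zv (Z.m (nat_lit 531716553625084))) (zv (Z.m (nat_lit 531802128037799))) (zv (Z.m (nat_lit 531885149646513)))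
    (zv (Z.m (nat_lit 531856233447009))) (zv (Z.m (nat_lit 531869130983564))) (zv (Z.m (nat_lit 531881968115009))) = true := by decide +kernel
theorem c1_5 {r : ℕ} (h1 : ((561298146334369 : ℕ) : ℝ) ≤ 2 ^ 48 * Kp r) (h2 : 2 ^ 48 * Kp r ≤ ((561515621459832 : ℕ) : ℝ)) {x0 : ℝ}
    (hT : Thr 13 14 r x0) (tB : fB 13 14 r x0 = 0) :
    XH (Z.m (nat_lit 531716553625084)) (Z.m (nat_lit 531802128037799)) (Z.m (nat_lit 531885149646513)) 560135203192832 561542578569216 978022 r x0 := by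
  have hX := tl_1 h1 h2 hT tB
  exact xh_cmp c1_5_t0 (by norm_num) h1 h2 hX

theorem c1_6_t0 : cmpQ 560135203192832 562949953421312 561298146334369 561515621459832 561298146334369 561515621459832 3149866 (zv (Z.m (nat_lit 531716553625084))) (zv (Z.m (nat_lit 531887674239308))) (zv (Z.m (nat_lit 532048696358633)))
    (zv (Z.m (nat_lit 531856233447009))) (zv (Z.m (nat_lit 531869130983564))) (zv (Z.m (nat_lit 531881968115009))) = true := by decide +kernel
theorem c1_6 {r : ℕ} (h1 : ((561298146334369 : ℕ) : ℝ) ≤ 2 ^ 48 * Kp r) (h2 : 2 ^ 48 * Kp r ≤ ((561515621459832 : ℕ) : ℝ)) {x0 : ℝ}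
    (hT : Thr 13 14 r x0) (tB : fB 13 14 r x0 = 0) :
    XH (Z.m (nat_lit 531716553625084)) (Z.m (nat_lit 531887674239308)) (Z.m (nat_lit 532048696358633)) 560135203192832 562949953421312 7477167 r x0 := by
  have hX := tl_1 h1 h2 hT tB
  exact xh_cmp c1_6_t0 (by norm_num) h1 h2 hX

theorem c2a_0_t0 : cmpQ 561542574899200 562949953421312 561578635628542 561914399262719 561578635628542 561662576537086 579645 (zv (Z.m (nat_lit 531885149213497))) (zv (Z.m (nat_lit 531968171239837))) (zv (Z.m (nat_lit 532048696358633)))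
    (zv (Z.m (nat_lit 531889402281550))) (zv (Z.m (nat_lit 531909194748872))) (zv (Z.m (nat_lit 531928843996127))) = true := by decide +kernel
theorem c2a_0_t1 : cmpQ 561542574899200 562949953421312 561578635628542 561914399262719 561662576537086 561746517445630 798333 (zv (Z.m (nat_lit 531885149213497))) (zv (Z.m (nat_lit 531968171239837))) (zv (Z.m (nat_lit 532048696358633)))
    (zv (Z.m (nat_lit 531889402281550))) (zv (Z.m (nat_lit 531909194748872))) (zv (Z.m (nat_lit 531928843996127))) = true := by decide +kernel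
theorem c2a_0_t2 : cmpQ 561542574899200 562949953421312 561578635628542 561914399262719 561746517445630 561830458354174 879215 (zv (Z.m (nat_lit 531885149213497))) (zv (Z.m (nat_lit 531968171239837))) (zv (Z.m (nat_lit 532048696358633)))
    (zv (Z.m (nat_lit 531889402281550))) (zv (Z.m (nat_lit 531909194748872))) (zv (Z.m (nat_lit 531928843996127))) = true := by decide +kernel
theorem c2a_0_t3 : cmpQ 561542574899200 562949953421312 561578635628542 561914399262719 561830458354174 561914399262719 885205 (zv (Z.m (nat_lit 531885149213497))) (zv (Z.m (nat_lit 531968171239837))) (zv (Z.m (nat_lit 532048696358633)))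
    (zv (Z.m (nat_lit 531889402281550))) (zv (Z.m (nat_lit 531909194748872))) (zv (Z.m (nat_lit 531928843996127))) = true := by decide +kernel
theorem c2a_0 {r : ℕ} (h1 : ((561578635628542 : ℕ) : ℝ) ≤ 2 ^ 48 * Kp r) (h2 : 2 ^ 48 * Kp r ≤ ((561914399262719 : ℕ) : ℝ)) {x0 : ℝ}
    (hT : Thr 13 14 r x0) (tB : fB 13 14 r x0 = 0) :
    XH (Z.m (nat_lit 531885149213497)) (Z.m (nat_lit 531968171239837)) (Z.m (nat_lit 532048696358633)) 561542574899200 562949953421312 918169 r x0 := by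
  have hX := tl_2a h1 h2 hT tB
  rcases le_total (2 ^ 48 * Kp r) ((561662576537086 : ℕ) : ℝ) with g1 | g1
  · exact xh_cmp c2a_0_t0 (by norm_num) h1 g1 hX
  rcases le_total (2 ^ 48 * Kp r) ((561746517445630 : ℕ) : ℝ) with g2 | g2
  · exact xh_cmp c2a_0_t1 (by norm_num) g1 g2 hX
  rcases le_total (2 ^ 48 * Kp r) ((561830458354174 : ℕ) : ℝ) with g3 | g3
  · exact xh_cmp c2a_0_t2 (by norm_num) g2 g3 hX
  exact xh_cmp c2a_0_t3 (by norm_num) g3 h2 hX

theorem c2a_1_t0 : cmpQ 561578634903552 562250162896896 561578635628542 561914399262719 561578635628542 561746517445630 97368 (zv (Z.m (nat_lit 531889402188230))) (zv (Z.m (nat_lit 531928986808152))) (zv (Z.m (nat_lit 531968000041534)))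
    (zv (Z.m (nat_lit 531889402281550))) (zv (Z.m (nat_lit 531909194748872))) (zv (Z.m (nat_lit 531928843996127))) = true := by decide +kernel
theorem c2a_1_t1 : cmpQ 561578634903552 562250162896896 561578635628542 561914399262719 561746517445630 561914399262719 93452 (zv (Z.m (nat_lit 531889402188230))) (zv (Z.m (nat_lit 531928986808152))) (zv (Z.m (nat_lit 531968000041534)))
    (zv (Z.m (nat_lit 531889402281550))) (zv (Z.m (nat_lit 531909194748872))) (zv (Z.m (nat_lit 531928843996127))) = true := by decide +kernel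
theorem c2a_1 {r : ℕ} (h1 : ((561578635628542 : ℕ) : ℝ) ≤ 2 ^ 48 * Kp r) (h2 : 2 ^ 48 * Kp r ≤ ((561914399262719 : ℕ) : ℝ)) {x0 : ℝ}
    (hT : Thr 13 14 r x0) (tB : fB 13 14 r x0 = 0) :
    XH (Z.m (nat_lit 531889402188230)) (Z.m (nat_lit 531928986808152)) (Z.m (nat_lit 531968000041534)) 561578634903552 562250162896896 118822 r x0 := by
  have hX := tl_2a h1 h2 hT tB
  rcases le_total (2 ^ 48 * Kp r) ((561746517445630 : ℕ) : ℝ) with g1 | g1
  · exact xh_cmp c2a_1_t0 (by norm_num) h1 g1 hX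
  exact xh_cmp c2a_1_t1 (by norm_num) g1 h2 hX

theorem c2a_2_t0 : cmpQ 561542578307072 562949953421312 561578635628542 561914399262719 561578635628542 561662576537086 579630 (zv (Z.m (nat_lit 531885149615583))) (zv (Z.m (nat_lit 531968171434801))) (zv (Z.m (nat_lit 532048696358633)))
    (zv (Z.m (nat_lit 531889402281550))) (zv (Z.m (nat_lit 531909194748872))) (zv (Z.m (nat_lit 531928843996127))) = true := by decide +kernel
theorem c2a_2_t1 : cmpQ 561542578307072 562949953421312 561578635628542 561914399262719 561662576537086 561746517445630 798322 (zv (Z.m (nat_lit 531885149615583))) (zv (Z.m (nat_lit 531968171434801))) (zv (Z.m (nat_lit 532048696358633)))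
    (zv (Z.m (nat_lit 531889402281550))) (zv (Z.m (nat_lit 531909194748872))) (zv (Z.m (nat_lit 531928843996127))) = true := by decide +kernel
theorem c2a_2_t2 : cmpQ 561542578307072 562949953421312 561578635628542 561914399262719 561746517445630 561830458354174 879208 (zv (Z.m (nat_lit 531885149615583))) (zv (Z.m (nat_lit 531968171434801))) (zv (Z.m (nat_lit 532048696358633)))
    (zv (Z.m (nat_lit 531889402281550))) (zv (Z.m (nat_lit 531909194748872))) (zv (Z.m (nat_lit 531928843996127))) = true := by decide +kernel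
theorem c2a_2_t3 : cmpQ 561542578307072 562949953421312 561578635628542 561914399262719 561830458354174 561914399262719 885200 (zv (Z.m (nat_lit 531885149615583))) (zv (Z.m (nat_lit 531968171434801))) (zv (Z.m (nat_lit 532048696358633)))
    (zv (Z.m (nat_lit 531889402281550))) (zv (Z.m (nat_lit 531909194748872))) (zv (Z.m (nat_lit 531928843996127))) = true := by decide +kernel
theorem c2a_2 {r : ℕ} (h1 : ((561578635628542 : ℕ) : ℝ) ≤ 2 ^ 48 * Kp r) (h2 : 2 ^ 48 * Kp r ≤ ((561914399262719 : ℕ) : ℝ)) {x0 : ℝ}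
    (hT : Thr 13 14 r x0) (tB : fB 13 14 r x0 = 0) :
    XH (Z.m (nat_lit 531885149615583)) (Z.m (nat_lit 531968171434801)) (Z.m (nat_lit 532048696358633)) 561542578307072 562949953421312 918163 r x0 := by
  have hX := tl_2a h1 h2 hT tB
  rcases le_total (2 ^ 48 * Kp r) ((561662576537086 : ℕ) : ℝ) with g1 | g1
  · exact xh_cmp c2a_2_t0 (by norm_num) h1 g1 hX
  rcases le_total (2 ^ 48 * Kp r) ((561746517445630 : ℕ) : ℝ) with g2 | g2
  · exact xh_cmp c2a_2_t1 (by norm_num) g1 g2 hX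
  rcases le_total (2 ^ 48 * Kp r) ((561830458354174 : ℕ) : ℝ) with g3 | g3
  · exact xh_cmp c2a_2_t2 (by norm_num) g2 g3 hX
  exact xh_cmp c2a_2_t3 (by norm_num) g3 h2 hX

theorem c2a_3_t0 : cmpQ 560135203454976 562949953421312 561578635628542 561914399262719 561578635628542 561914399262719 4567986 (zv (Z.m (nat_lit 531716553656965))) (zv (Z.m (nat_lit 531887674254297))) (zv (Z.m (nat_lit 532048696358633)))
    (zv (Z.m (nat_lit 531889402281550))) (zv (Z.m (nat_lit 531909194748872))) (zv (Z.m (nat_lit 531928843996127))) = true := by decide +kernel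
theorem c2a_3 {r : ℕ} (h1 : ((561578635628542 : ℕ) : ℝ) ≤ 2 ^ 48 * Kp r) (h2 : 2 ^ 48 * Kp r ≤ ((561914399262719 : ℕ) : ℝ)) {x0 : ℝ}
    (hT : Thr 13 14 r x0) (tB : fB 13 14 r x0 = 0) :
    XH (Z.m (nat_lit 531716553656965)) (Z.m (nat_lit 531887674254297)) (Z.m (nat_lit 532048696358633)) 560135203454976 562949953421312 7477165 r x0 := by
  have hX := tl_2a h1 h2 hT tB
  exact xh_cmp c2a_3_t0 (by norm_num) h1 h2 hX

theorem c2a_4_t0 : cmpQ 550648146034688 562949953421312 561578635628542 561914399262719 561578635628542 561914399262719 566249490 (zv (Z.m (nat_lit 530438639734205))) (zv (Z.m (nat_lit 531348415673837))) (zv (Z.m (nat_lit 532048696358633)))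
    (zv (Z.m (nat_lit 531889402281550))) (zv (Z.m (nat_lit 531909194748872))) (zv (Z.m (nat_lit 531928843996127))) = true := by decide +kernel
theorem c2a_4 {r : ℕ} (h1 : ((561578635628542 : ℕ) : ℝ) ≤ 2 ^ 48 * Kp r) (h2 : 2 ^ 48 * Kp r ≤ ((561914399262719 : ℕ) : ℝ)) {x0 : ℝ}
    (hT : Thr 13 14 r x0) (tB : fB 13 14 r x0 = 0) :
    XH (Z.m (nat_lit 530438639734205)) (Z.m (nat_lit 531348415673837)) (Z.m (nat_lit 532048696358633)) 550648146034688 562949953421312 1246431802 r x0 := by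
  have hX := tl_2a h1 h2 hT tB
  exact xh_cmp c2a_4_t0 (by norm_num) h1 h2 hX

theorem c2a_5_t0 : cmpQ 561542574899200 562387007045632 561578635628542 561914399262719 561578635628542 561746517445630 195305 (zv (Z.m (nat_lit 531885149213497))) (zv (Z.m (nat_lit 531934964462614))) (zv (Z.m (nat_lit 531983876909218)))
    (zv (Z.m (nat_lit 531889402281550))) (zv (Z.m (nat_lit 531909194748872))) (zv (Z.m (nat_lit 531928843996127))) = true := by decide +kernel
theorem c2a_5_t1 : cmpQ 561542574899200 562387007045632 561578635628542 561914399262719 561746517445630 561914399262719 187380 (zv (Z.m (nat_lit 531885149213497))) (zv (Z.m (nat_lit 531934964462614))) (zv (Z.m (nat_lit 531983876909218)))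
    (zv (Z.m (nat_lit 531889402281550))) (zv (Z.m (nat_lit 531909194748872))) (zv (Z.m (nat_lit 531928843996127))) = true := by decide +kernel
theorem c2a_5 {r : ℕ} (h1 : ((561578635628542 : ℕ) : ℝ) ≤ 2 ^ 48 * Kp r) (h2 : 2 ^ 48 * Kp r ≤ ((561914399262719 : ℕ) : ℝ)) {x0 : ℝ}
    (hT : Thr 13 14 r x0) (tB : fB 13 14 r x0 = 0) :
    XH (Z.m (nat_lit 531885149213497)) (Z.m (nat_lit 531934964462614)) (Z.m (nat_lit 531983876909218)) 561542574899200 562387007045632 216158 r x0 := by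
  have hX := tl_2a h1 h2 hT tB
  rcases le_total (2 ^ 48 * Kp r) ((561746517445630 : ℕ) : ℝ) with g1 | g1
  · exact xh_cmp c2a_5_t0 (by norm_num) h1 g1 hX
  exact xh_cmp c2a_5_t1 (by norm_num) g1 h2 hX

theorem c2a_6_t0 : cmpQ 561542578044928 562949953421312 561578635628542 561914399262719 561578635628542 561662576537086 579631 (zv (Z.m (nat_lit 531885149584654))) (zv (Z.m (nat_lit 531968171419804))) (zv (Z.m (nat_lit 532048696358633)))
    (zv (Z.m (nat_lit 531889402281550))) (zv (Z.m (nat_lit 531909194748872))) (zv (Z.m (nat_lit 531928843996127))) = true := by decide +kernel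
theorem c2a_6_t1 : cmpQ 561542578044928 562949953421312 561578635628542 561914399262719 561662576537086 561746517445630 798323 (zv (Z.m (nat_lit 531885149584654))) (zv (Z.m (nat_lit 531968171419804))) (zv (Z.m (nat_lit 532048696358633)))
    (zv (Z.m (nat_lit 531889402281550))) (zv (Z.m (nat_lit 531909194748872))) (zv (Z.m (nat_lit 531928843996127))) = true := by decide +kernel
theorem c2a_6_t2 : cmpQ 561542578044928 562949953421312 561578635628542 561914399262719 561746517445630 561830458354174 879208 (zv (Z.m (nat_lit 531885149584654))) (zv (Z.m (nat_lit 531968171419804))) (zv (Z.m (nat_lit 532048696358633)))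
    (zv (Z.m (nat_lit 531889402281550))) (zv (Z.m (nat_lit 531909194748872))) (zv (Z.m (nat_lit 531928843996127))) = true := by decide +kernel
theorem c2a_6_t3 : cmpQ 561542578044928 562949953421312 561578635628542 561914399262719 561830458354174 561914399262719 885200 (zv (Z.m (nat_lit 531885149584654))) (zv (Z.m (nat_lit 531968171419804))) (zv (Z.m (nat_lit 532048696358633)))
    (zv (Z.m (nat_lit 531889402281550))) (zv (Z.m (nat_lit 531909194748872))) (zv (Z.m (nat_lit 531928843996127))) = true := by decide +kernel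
theorem c2a_6 {r : ℕ} (h1 : ((561578635628542 : ℕ) : ℝ) ≤ 2 ^ 48 * Kp r) (h2 : 2 ^ 48 * Kp r ≤ ((561914399262719 : ℕ) : ℝ)) {x0 : ℝ}
    (hT : Thr 13 14 r x0) (tB : fB 13 14 r x0 = 0) :
    XH (Z.m (nat_lit 531885149584654)) (Z.m (nat_lit 531968171419804)) (Z.m (nat_lit 532048696358633)) 561542578044928 562949953421312 918162 r x0 := by
  have hX := tl_2a h1 h2 hT tB
  rcases le_total (2 ^ 48 * Kp r) ((561662576537086 : ℕ) : ℝ) with g1 | g1
  · exact xh_cmp c2a_6_t0 (by norm_num) h1 g1 hX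
  rcases le_total (2 ^ 48 * Kp r) ((561746517445630 : ℕ) : ℝ) with g2 | g2
  · exact xh_cmp c2a_6_t1 (by norm_num) g1 g2 hX
  rcases le_total (2 ^ 48 * Kp r) ((561830458354174 : ℕ) : ℝ) with g3 | g3
  · exact xh_cmp c2a_6_t2 (by norm_num) g2 g3 hX
  exact xh_cmp c2a_6_t3 (by norm_num) g3 h2 hX

theorem c2a_7_t0 : cmpQ 560135203192832 562949953421312 561578635628542 561914399262719 561578635628542 561914399262719 4567988 (zv (Z.m (nat_lit 531716553625084))) (zv (Z.m (nat_lit 531887674239308))) (zv (Z.m (nat_lit 532048696358633)))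
    (zv (Z.m (nat_lit 531889402281550))) (zv (Z.m (nat_lit 531909194748872))) (zv (Z.m (nat_lit 531928843996127))) = true := by decide +kernel
theorem c2a_7 {r : ℕ} (h1 : ((561578635628542 : ℕ) : ℝ) ≤ 2 ^ 48 * Kp r) (h2 : 2 ^ 48 * Kp r ≤ ((561914399262719 : ℕ) : ℝ)) {x0 : ℝ}
    (hT : Thr 13 14 r x0) (tB : fB 13 14 r x0 = 0) :
    XH (Z.m (nat_lit 531716553625084)) (Z.m (nat_lit 531887674239308)) (Z.m (nat_lit 532048696358633)) 560135203192832 562949953421312 7477167 r x0 := by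
  have hX := tl_2a h1 h2 hT tB
  exact xh_cmp c2a_7_t0 (by norm_num) h1 h2 hX

theorem c2b_0_t0 : cmpQ 561542574899200 562949953421312 561914399262719 562250162896896 561914399262719 562250162896896 837837 (zv (Z.m (nat_lit 531885149213497))) (zv (Z.m (nat_lit 531968171239837))) (zv (Z.m (nat_lit 532048696358633)))
    (zv (Z.m (nat_lit 531928844011672))) (zv (Z.m (nat_lit 531948493259705))) (zv (Z.m (nat_lit 531968000033836))) = true := by decide +kernel
theorem c2b_0 {r : ℕ} (h1 : ((561914399262719 : ℕ) : ℝ) ≤ 2 ^ 48 * Kp r) (h2 : 2 ^ 48 * Kp r ≤ ((562250162896896 : ℕ) : ℝ)) {x0 : ℝ}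
    (hT : Thr 13 14 r x0) (tB : fB 13 14 r x0 = 0) :
    XH (Z.m (nat_lit 531885149213497)) (Z.m (nat_lit 531968171239837)) (Z.m (nat_lit 532048696358633)) 561542574899200 562949953421312 918169 r x0 := by
  have hX := tl_2b h1 h2 hT tB
  exact xh_cmp c2b_0_t0 (by norm_num) h1 h2 hX

theorem c2b_1_t0 : cmpQ 561578634903552 562250162896896 561914399262719 562250162896896 561914399262719 562082281079807 93093 (zv (Z.m (nat_lit 531889402188230))) (zv (Z.m (nat_lit 531928986808152))) (zv (Z.m (nat_lit 531968000041534)))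
    (zv (Z.m (nat_lit 531928844011672))) (zv (Z.m (nat_lit 531948493259705))) (zv (Z.m (nat_lit 531968000033836))) = true := by decide +kernel
theorem c2b_1_t1 : cmpQ 561578634903552 562250162896896 561914399262719 562250162896896 562082281079807 562250162896896 96949 (zv (Z.m (nat_lit 531889402188230))) (zv (Z.m (nat_lit 531928986808152))) (zv (Z.m (nat_lit 531968000041534)))
    (zv (Z.m (nat_lit 531928844011672))) (zv (Z.m (nat_lit 531948493259705))) (zv (Z.m (nat_lit 531968000033836))) = true := by decide +kernel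
theorem c2b_1 {r : ℕ} (h1 : ((561914399262719 : ℕ) : ℝ) ≤ 2 ^ 48 * Kp r) (h2 : 2 ^ 48 * Kp r ≤ ((562250162896896 : ℕ) : ℝ)) {x0 : ℝ}
    (hT : Thr 13 14 r x0) (tB : fB 13 14 r x0 = 0) :
    XH (Z.m (nat_lit 531889402188230)) (Z.m (nat_lit 531928986808152)) (Z.m (nat_lit 531968000041534)) 561578634903552 562250162896896 118822 r x0 := by
  have hX := tl_2b h1 h2 hT tB
  rcases le_total (2 ^ 48 * Kp r) ((562082281079807 : ℕ) : ℝ) with g1 | g1
  · exact xh_cmp c2b_1_t0 (by norm_num) h1 g1 hX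
  exact xh_cmp c2b_1_t1 (by norm_num) g1 h2 hX

theorem c2b_2_t0 : cmpQ 561542578307072 562949953421312 561914399262719 562250162896896 561914399262719 562250162896896 837834 (zv (Z.m (nat_lit 531885149615583))) (zv (Z.m (nat_lit 531968171434801))) (zv (Z.m (nat_lit 532048696358633)))
    (zv (Z.m (nat_lit 531928844011672))) (zv (Z.m (nat_lit 531948493259705))) (zv (Z.m (nat_lit 531968000033836))) = true := by decide +kernel
theorem c2b_2 {r : ℕ} (h1 : ((561914399262719 : ℕ) : ℝ) ≤ 2 ^ 48 * Kp r) (h2 : 2 ^ 48 * Kp r ≤ ((562250162896896 : ℕ) : ℝ)) {x0 : ℝ}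
    (hT : Thr 13 14 r x0) (tB : fB 13 14 r x0 = 0) :
    XH (Z.m (nat_lit 531885149615583)) (Z.m (nat_lit 531968171434801)) (Z.m (nat_lit 532048696358633)) 561542578307072 562949953421312 918163 r x0 := by
  have hX := tl_2b h1 h2 hT tB
  exact xh_cmp c2b_2_t0 (by norm_num) h1 h2 hX

theorem c2b_3_t0 : cmpQ 560135203454976 562949953421312 561914399262719 562250162896896 561914399262719 562250162896896 6952056 (zv (Z.m (nat_lit 531716553656965))) (zv (Z.m (nat_lit 531887674254297))) (zv (Z.m (nat_lit 532048696358633)))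
    (zv (Z.m (nat_lit 531928844011672))) (zv (Z.m (nat_lit 531948493259705))) (zv (Z.m (nat_lit 531968000033836))) = true := by decide +kernel
theorem c2b_3 {r : ℕ} (h1 : ((561914399262719 : ℕ) : ℝ) ≤ 2 ^ 48 * Kp r) (h2 : 2 ^ 48 * Kp r ≤ ((562250162896896 : ℕ) : ℝ)) {x0 : ℝ}
    (hT : Thr 13 14 r x0) (tB : fB 13 14 r x0 = 0) :
    XH (Z.m (nat_lit 531716553656965)) (Z.m (nat_lit 531887674254297)) (Z.m (nat_lit 532048696358633)) 560135203454976 562949953421312 7477165 r x0 := by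
  have hX := tl_2b h1 h2 hT tB
  exact xh_cmp c2b_3_t0 (by norm_num) h1 h2 hX

theorem c2b_4_t0 : cmpQ 550648146034688 562949953421312 561914399262719 562250162896896 561914399262719 562250162896896 469949541 (zv (Z.m (nat_lit 530438639734205))) (zv (Z.m (nat_lit 531348415673837))) (zv (Z.m (nat_lit 532048696358633)))
    (zv (Z.m (nat_lit 531928844011672))) (zv (Z.m (nat_lit 531948493259705))) (zv (Z.m (nat_lit 531968000033836))) = true := by decide +kernel
theorem c2b_4 {r : ℕ} (h1 : ((561914399262719 : ℕ) : ℝ) ≤ 2 ^ 48 * Kp r) (h2 : 2 ^ 48 * Kp r ≤ ((562250162896896 : ℕ) : ℝ)) {x0 : ℝ}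
    (hT : Thr 13 14 r x0) (tB : fB 13 14 r x0 = 0) :
    XH (Z.m (nat_lit 530438639734205)) (Z.m (nat_lit 531348415673837)) (Z.m (nat_lit 532048696358633)) 550648146034688 562949953421312 1246431802 r x0 := by
  have hX := tl_2b h1 h2 hT tB
  exact xh_cmp c2b_4_t0 (by norm_num) h1 h2 hX

theorem c2b_5_t0 : cmpQ 561542574899200 562387007045632 561914399262719 562250162896896 561914399262719 562250162896896 191783 (zv (Z.m (nat_lit 531885149213497))) (zv (Z.m (nat_lit 531934964462614))) (zv (Z.m (nat_lit 531983876909218)))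
    (zv (Z.m (nat_lit 531928844011672))) (zv (Z.m (nat_lit 531948493259705))) (zv (Z.m (nat_lit 531968000033836))) = true := by decide +kernel
theorem c2b_5 {r : ℕ} (h1 : ((561914399262719 : ℕ) : ℝ) ≤ 2 ^ 48 * Kp r) (h2 : 2 ^ 48 * Kp r ≤ ((562250162896896 : ℕ) : ℝ)) {x0 : ℝ}
    (hT : Thr 13 14 r x0) (tB : fB 13 14 r x0 = 0) :
    XH (Z.m (nat_lit 531885149213497)) (Z.m (nat_lit 531934964462614)) (Z.m (nat_lit 531983876909218)) 561542574899200 562387007045632 216158 r x0 := by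
  have hX := tl_2b h1 h2 hT tB
  exact xh_cmp c2b_5_t0 (by norm_num) h1 h2 hX

theorem c2b_6_t0 : cmpQ 561542578044928 562949953421312 561914399262719 562250162896896 561914399262719 562250162896896 837833 (zv (Z.m (nat_lit 531885149584654))) (zv (Z.m (nat_lit 531968171419804))) (zv (Z.m (nat_lit 532048696358633)))
    (zv (Z.m (nat_lit 531928844011672))) (zv (Z.m (nat_lit 531948493259705))) (zv (Z.m (nat_lit 531968000033836))) = true := by decide +kernel
theorem c2b_6 {r : ℕ} (h1 : ((561914399262719 : ℕ) : ℝ) ≤ 2 ^ 48 * Kp r) (h2 : 2 ^ 48 * Kp r ≤ ((562250162896896 : ℕ) : ℝ)) {x0 : ℝ}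
    (hT : Thr 13 14 r x0) (tB : fB 13 14 r x0 = 0) :
    XH (Z.m (nat_lit 531885149584654)) (Z.m (nat_lit 531968171419804)) (Z.m (nat_lit 532048696358633)) 561542578044928 562949953421312 918162 r x0 := by
  have hX := tl_2b h1 h2 hT tB
  exact xh_cmp c2b_6_t0 (by norm_num) h1 h2 hX

theorem c2b_7_t0 : cmpQ 560135203192832 562949953421312 561914399262719 562250162896896 561914399262719 562250162896896 6952059 (zv (Z.m (nat_lit 531716553625084))) (zv (Z.m (nat_lit 531887674239308))) (zv (Z.m (nat_lit 532048696358633)))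
    (zv (Z.m (nat_lit 531928844011672))) (zv (Z.m (nat_lit 531948493259705))) (zv (Z.m (nat_lit 531968000033836))) = true := by decide +kernel
theorem c2b_7 {r : ℕ} (h1 : ((561914399262719 : ℕ) : ℝ) ≤ 2 ^ 48 * Kp r) (h2 : 2 ^ 48 * Kp r ≤ ((562250162896896 : ℕ) : ℝ)) {x0 : ℝ}
    (hT : Thr 13 14 r x0) (tB : fB 13 14 r x0 = 0) :
    XH (Z.m (nat_lit 531716553625084)) (Z.m (nat_lit 531887674239308)) (Z.m (nat_lit 532048696358633)) 560135203192832 562949953421312 7477167 r x0 := by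
  have hX := tl_2b h1 h2 hT tB
  exact xh_cmp c2b_7_t0 (by norm_num) h1 h2 hX

theorem c3_0_t0 : cmpQ 561542574899200 562949953421312 562271854788608 562387000000000 562271854788608 562387000000000 432563 (zv (Z.m (nat_lit 531885149213497))) (zv (Z.m (nat_lit 531968171239837))) (zv (Z.m (nat_lit 532048696358633)))
    (zv (Z.m (nat_lit 531970519914335))) (zv (Z.m (nat_lit 531977206349427))) (zv (Z.m (nat_lit 531983876092679))) = true := by decide +kernel
theorem c3_0 {r : ℕ} (h1 : ((562271854788608 : ℕ) : ℝ) ≤ 2 ^ 48 * Kp r) (h2 : 2 ^ 48 * Kp r ≤ ((562387000000000 : ℕ) : ℝ)) {x0 : ℝ}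
    (hT : Thr 13 14 r x0) (tB : fB 13 14 r x0 = 0) :
    XH (Z.m (nat_lit 531885149213497)) (Z.m (nat_lit 531968171239837)) (Z.m (nat_lit 532048696358633)) 561542574899200 562949953421312 918169 r x0 := by
  have hX := tl_3 h1 h2 hT tB
  exact xh_cmp c3_0_t0 (by norm_num) h1 h2 hX

theorem c3_1_t0 : cmpQ 562271854788608 562949953421312 562271854788608 562387000000000 562271854788608 562387000000000 92292 (zv (Z.m (nat_lit 531970519914027))) (zv (Z.m (nat_lit 532009896341211))) (zv (Z.m (nat_lit 532048696358633)))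
    (zv (Z.m (nat_lit 531970519914335))) (zv (Z.m (nat_lit 531977206349427))) (zv (Z.m (nat_lit 531983876092679))) = true := by decide +kernel
theorem c3_1 {r : ℕ} (h1 : ((562271854788608 : ℕ) : ℝ) ≤ 2 ^ 48 * Kp r) (h2 : 2 ^ 48 * Kp r ≤ ((562387000000000 : ℕ) : ℝ)) {x0 : ℝ}
    (hT : Thr 13 14 r x0) (tB : fB 13 14 r x0 = 0) :
    XH (Z.m (nat_lit 531970519914027)) (Z.m (nat_lit 532009896341211)) (Z.m (nat_lit 532048696358633)) 562271854788608 562949953421312 118546 r x0 := by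
  have hX := tl_3 h1 h2 hT tB
  exact xh_cmp c3_1_t0 (by norm_num) h1 h2 hX

theorem c3_2_t0 : cmpQ 561542578307072 562949953421312 562271854788608 562387000000000 562271854788608 562387000000000 432556 (zv (Z.m (nat_lit 531885149615583))) (zv (Z.m (nat_lit 531968171434801))) (zv (Z.m (nat_lit 532048696358633)))
    (zv (Z.m (nat_lit 531970519914335))) (zv (Z.m (nat_lit 531977206349427))) (zv (Z.m (nat_lit 531983876092679))) = true := by decide +kernel
theorem c3_2 {r : ℕ} (h1 : ((562271854788608 : ℕ) : ℝ) ≤ 2 ^ 48 * Kp r) (h2 : 2 ^ 48 * Kp r ≤ ((562387000000000 : ℕ) : ℝ)) {x0 : ℝ}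
    (hT : Thr 13 14 r x0) (tB : fB 13 14 r x0 = 0) :
    XH (Z.m (nat_lit 531885149615583)) (Z.m (nat_lit 531968171434801)) (Z.m (nat_lit 532048696358633)) 561542578307072 562949953421312 918163 r x0 := by
  have hX := tl_3 h1 h2 hT tB
  exact xh_cmp c3_2_t0 (by norm_num) h1 h2 hX

theorem c3_3_t0 : cmpQ 560135203454976 562949953421312 562271854788608 562387000000000 562271854788608 562387000000000 7149652 (zv (Z.m (nat_lit 531716553656965))) (zv (Z.m (nat_lit 531887674254297))) (zv (Z.m (nat_lit 532048696358633)))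
    (zv (Z.m (nat_lit 531970519914335))) (zv (Z.m (nat_lit 531977206349427))) (zv (Z.m (nat_lit 531983876092679))) = true := by decide +kernel
theorem c3_3 {r : ℕ} (h1 : ((562271854788608 : ℕ) : ℝ) ≤ 2 ^ 48 * Kp r) (h2 : 2 ^ 48 * Kp r ≤ ((562387000000000 : ℕ) : ℝ)) {x0 : ℝ}
    (hT : Thr 13 14 r x0) (tB : fB 13 14 r x0 = 0) :
    XH (Z.m (nat_lit 531716553656965)) (Z.m (nat_lit 531887674254297)) (Z.m (nat_lit 532048696358633)) 560135203454976 562949953421312 7477165 r x0 := by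
  have hX := tl_3 h1 h2 hT tB
  exact xh_cmp c3_3_t0 (by norm_num) h1 h2 hX

theorem c3_4_t0 : cmpQ 550648146034688 562949953421312 562271854788608 562387000000000 562271854788608 562387000000000 338347271 (zv (Z.m (nat_lit 530438639734205))) (zv (Z.m (nat_lit 531348415673837))) (zv (Z.m (nat_lit 532048696358633)))
    (zv (Z.m (nat_lit 531970519914335))) (zv (Z.m (nat_lit 531977206349427))) (zv (Z.m (nat_lit 531983876092679))) = true := by decide +kernel
theorem c3_4 {r : ℕ} (h1 : ((562271854788608 : ℕ) : ℝ) ≤ 2 ^ 48 * Kp r) (h2 : 2 ^ 48 * Kp r ≤ ((562387000000000 : ℕ) : ℝ)) {x0 : ℝ}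
    (hT : Thr 13 14 r x0) (tB : fB 13 14 r x0 = 0) :
    XH (Z.m (nat_lit 530438639734205)) (Z.m (nat_lit 531348415673837)) (Z.m (nat_lit 532048696358633)) 550648146034688 562949953421312 1246431802 r x0 := by
  have hX := tl_3 h1 h2 hT tB
  exact xh_cmp c3_4_t0 (by norm_num) h1 h2 hX

theorem c3_5_t0 : cmpQ 561542574899200 562387007045632 562271854788608 562387000000000 562271854788608 562387000000000 168145 (zv (Z.m (nat_lit 531885149213497))) (zv (Z.m (nat_lit 531934964462614))) (zv (Z.m (nat_lit 531983876909218)))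
    (zv (Z.m (nat_lit 531970519914335))) (zv (Z.m (nat_lit 531977206349427))) (zv (Z.m (nat_lit 531983876092679))) = true := by decide +kernel
theorem c3_5 {r : ℕ} (h1 : ((562271854788608 : ℕ) : ℝ) ≤ 2 ^ 48 * Kp r) (h2 : 2 ^ 48 * Kp r ≤ ((562387000000000 : ℕ) : ℝ)) {x0 : ℝ}
    (hT : Thr 13 14 r x0) (tB : fB 13 14 r x0 = 0) :
    XH (Z.m (nat_lit 531885149213497)) (Z.m (nat_lit 531934964462614)) (Z.m (nat_lit 531983876909218)) 561542574899200 562387007045632 216158 r x0 := by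
  have hX := tl_3 h1 h2 hT tB
  exact xh_cmp c3_5_t0 (by norm_num) h1 h2 hX

theorem c3_6_t0 : cmpQ 561542578044928 562949953421312 562271854788608 562387000000000 562271854788608 562387000000000 432557 (zv (Z.m (nat_lit 531885149584654))) (zv (Z.m (nat_lit 531968171419804))) (zv (Z.m (nat_lit 532048696358633)))
    (zv (Z.m (nat_lit 531970519914335))) (zv (Z.m (nat_lit 531977206349427))) (zv (Z.m (nat_lit 531983876092679))) = true := by decide +kernel
theorem c3_6 {r : ℕ} (h1 : ((562271854788608 : ℕ) : ℝ) ≤ 2 ^ 48 * Kp r) (h2 : 2 ^ 48 * Kp r ≤ ((562387000000000 : ℕ) : ℝ)) {x0 : ℝ}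
    (hT : Thr 13 14 r x0) (tB : fB 13 14 r x0 = 0) :
    XH (Z.m (nat_lit 531885149584654)) (Z.m (nat_lit 531968171419804)) (Z.m (nat_lit 532048696358633)) 561542578044928 562949953421312 918162 r x0 := by
  have hX := tl_3 h1 h2 hT tB
  exact xh_cmp c3_6_t0 (by norm_num) h1 h2 hX

theorem c3_7_t0 : cmpQ 560135203192832 562949953421312 562271854788608 562387000000000 562271854788608 562387000000000 7149654 (zv (Z.m (nat_lit 531716553625084))) (zv (Z.m (nat_lit 531887674239308))) (zv (Z.m (nat_lit 532048696358633)))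
    (zv (Z.m (nat_lit 531970519914335))) (zv (Z.m (nat_lit 531977206349427))) (zv (Z.m (nat_lit 531983876092679))) = true := by decide +kernel
theorem c3_7 {r : ℕ} (h1 : ((562271854788608 : ℕ) : ℝ) ≤ 2 ^ 48 * Kp r) (h2 : 2 ^ 48 * Kp r ≤ ((562387000000000 : ℕ) : ℝ)) {x0 : ℝ}
    (hT : Thr 13 14 r x0) (tB : fB 13 14 r x0 = 0) :
    XH (Z.m (nat_lit 531716553625084)) (Z.m (nat_lit 531887674239308)) (Z.m (nat_lit 532048696358633)) 560135203192832 562949953421312 7477167 r x0 := by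
  have hX := tl_3 h1 h2 hT tB
  exact xh_cmp c3_7_t0 (by norm_num) h1 h2 hX

theorem c4a_0_t0 : cmpQ 561542574899200 562949953421312 562387000000000 562668476710656 562387000000000 562668476710656 866176 (zv (Z.m (nat_lit 531885149213497))) (zv (Z.m (nat_lit 531968171239837))) (zv (Z.m (nat_lit 532048696358633)))
    (zv (Z.m (nat_lit 531983876097445))) (zv (Z.m (nat_lit 532000180497129))) (zv (Z.m (nat_lit 532016385452778))) = true := by decide +kernel
theorem c4a_0 {r : ℕ} (h1 : ((562387000000000 : ℕ) : ℝ) ≤ 2 ^ 48 * Kp r) (h2 : 2 ^ 48 * Kp r ≤ ((562668476710656 : ℕ) : ℝ)) {x0 : ℝ}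
    (hT : Thr 13 14 r x0) (tB : fB 13 14 r x0 = 0) :
    XH (Z.m (nat_lit 531885149213497)) (Z.m (nat_lit 531968171239837)) (Z.m (nat_lit 532048696358633)) 561542574899200 562949953421312 918169 r x0 := by
  have hX := tl_4a h1 h2 hT tB
  exact xh_cmp c4a_0_t0 (by norm_num) h1 h2 hX

theorem c4a_1_t0 : cmpQ 562271854788608 562949953421312 562387000000000 562668476710656 562387000000000 562668476710656 97058 (zv (Z.m (nat_lit 531970519914027))) (zv (Z.m (nat_lit 532009896341211))) (zv (Z.m (nat_lit 532048696358633)))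
    (zv (Z.m (nat_lit 531983876097445))) (zv (Z.m (nat_lit 532000180497129))) (zv (Z.m (nat_lit 532016385452778))) = true := by decide +kernel
theorem c4a_1 {r : ℕ} (h1 : ((562387000000000 : ℕ) : ℝ) ≤ 2 ^ 48 * Kp r) (h2 : 2 ^ 48 * Kp r ≤ ((562668476710656 : ℕ) : ℝ)) {x0 : ℝ}
    (hT : Thr 13 14 r x0) (tB : fB 13 14 r x0 = 0) :
    XH (Z.m (nat_lit 531970519914027)) (Z.m (nat_lit 532009896341211)) (Z.m (nat_lit 532048696358633)) 562271854788608 562949953421312 118546 r x0 := by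
  have hX := tl_4a h1 h2 hT tB
  exact xh_cmp c4a_1_t0 (by norm_num) h1 h2 hX

theorem c4a_2_t0 : cmpQ 561542578307072 562949953421312 562387000000000 562668476710656 562387000000000 562668476710656 866170 (zv (Z.m (nat_lit 531885149615583))) (zv (Z.m (nat_lit 531968171434801))) (zv (Z.m (nat_lit 532048696358633)))
    (zv (Z.m (nat_lit 531983876097445))) (zv (Z.m (nat_lit 532000180497129))) (zv (Z.m (nat_lit 532016385452778))) = true := by decide +kernel
theorem c4a_2 {r : ℕ} (h1 : ((562387000000000 : ℕ) : ℝ) ≤ 2 ^ 48 * Kp r) (h2 : 2 ^ 48 * Kp r ≤ ((562668476710656 : ℕ) : ℝ)) {x0 : ℝ}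
    (hT : Thr 13 14 r x0) (tB : fB 13 14 r x0 = 0) :
    XH (Z.m (nat_lit 531885149615583)) (Z.m (nat_lit 531968171434801)) (Z.m (nat_lit 532048696358633)) 561542578307072 562949953421312 918163 r x0 := by
  have hX := tl_4a h1 h2 hT tB
  exact xh_cmp c4a_2_t0 (by norm_num) h1 h2 hX

theorem c4a_3_t0 : cmpQ 560135203454976 562949953421312 562387000000000 562668476710656 562387000000000 562668476710656 7082603 (zv (Z.m (nat_lit 531716553656965))) (zv (Z.m (nat_lit 531887674254297))) (zv (Z.m (nat_lit 532048696358633)))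
    (zv (Z.m (nat_lit 531983876097445))) (zv (Z.m (nat_lit 532000180497129))) (zv (Z.m (nat_lit 532016385452778))) = true := by decide +kernel
theorem c4a_3 {r : ℕ} (h1 : ((562387000000000 : ℕ) : ℝ) ≤ 2 ^ 48 * Kp r) (h2 : 2 ^ 48 * Kp r ≤ ((562668476710656 : ℕ) : ℝ)) {x0 : ℝ}
    (hT : Thr 13 14 r x0) (tB : fB 13 14 r x0 = 0) :
    XH (Z.m (nat_lit 531716553656965)) (Z.m (nat_lit 531887674254297)) (Z.m (nat_lit 532048696358633)) 560135203454976 562949953421312 7477165 r x0 := by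
  have hX := tl_4a h1 h2 hT tB
  exact xh_cmp c4a_3_t0 (by norm_num) h1 h2 hX

theorem c4a_4_t0 : cmpQ 550648146034688 562949953421312 562387000000000 562668476710656 562387000000000 562668476710656 289273004 (zv (Z.m (nat_lit 530438639734205))) (zv (Z.m (nat_lit 531348415673837))) (zv (Z.m (nat_lit 532048696358633)))
    (zv (Z.m (nat_lit 531983876097445))) (zv (Z.m (nat_lit 532000180497129))) (zv (Z.m (nat_lit 532016385452778))) = true := by decide +kernel
theorem c4a_4 {r : ℕ} (h1 : ((562387000000000 : ℕ) : ℝ) ≤ 2 ^ 48 * Kp r) (h2 : 2 ^ 48 * Kp r ≤ ((562668476710656 : ℕ) : ℝ)) {x0 : ℝ}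
    (hT : Thr 13 14 r x0) (tB : fB 13 14 r x0 = 0) :
    XH (Z.m (nat_lit 530438639734205)) (Z.m (nat_lit 531348415673837)) (Z.m (nat_lit 532048696358633)) 550648146034688 562949953421312 1246431802 r x0 := by
  have hX := tl_4a h1 h2 hT tB
  exact xh_cmp c4a_4_t0 (by norm_num) h1 h2 hX

theorem c4a_5_t0 : cmpQ 562386999967744 562949953421312 562387000000000 562668476710656 562387000000000 562527738355328 55389 (zv (Z.m (nat_lit 531983876089250))) (zv (Z.m (nat_lit 532016484686790))) (zv (Z.m (nat_lit 532048696358633)))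
    (zv (Z.m (nat_lit 531983876097445))) (zv (Z.m (nat_lit 532000180497129))) (zv (Z.m (nat_lit 532016385452778))) = true := by decide +kernel
theorem c4a_5_t1 : cmpQ 562386999967744 562949953421312 562387000000000 562668476710656 562527738355328 562668476710656 53164 (zv (Z.m (nat_lit 531983876089250))) (zv (Z.m (nat_lit 532016484686790))) (zv (Z.m (nat_lit 532048696358633)))
    (zv (Z.m (nat_lit 531983876097445))) (zv (Z.m (nat_lit 532000180497129))) (zv (Z.m (nat_lit 532016385452778))) = true := by decide +kernel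
theorem c4a_5 {r : ℕ} (h1 : ((562387000000000 : ℕ) : ℝ) ≤ 2 ^ 48 * Kp r) (h2 : 2 ^ 48 * Kp r ≤ ((562668476710656 : ℕ) : ℝ)) {x0 : ℝ}
    (hT : Thr 13 14 r x0) (tB : fB 13 14 r x0 = 0) :
    XH (Z.m (nat_lit 531983876089250)) (Z.m (nat_lit 532016484686790)) (Z.m (nat_lit 532048696358633)) 562386999967744 562949953421312 76215 r x0 := by
  have hX := tl_4a h1 h2 hT tB
  rcases le_total (2 ^ 48 * Kp r) ((562527738355328 : ℕ) : ℝ) with g1 | g1
  · exact xh_cmp c4a_5_t0 (by norm_num) h1 g1 hX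
  exact xh_cmp c4a_5_t1 (by norm_num) g1 h2 hX

theorem c4a_6_t0 : cmpQ 561542578044928 562949953421312 562387000000000 562668476710656 562387000000000 562668476710656 866171 (zv (Z.m (nat_lit 531885149584654))) (zv (Z.m (nat_lit 531968171419804))) (zv (Z.m (nat_lit 532048696358633)))
    (zv (Z.m (nat_lit 531983876097445))) (zv (Z.m (nat_lit 532000180497129))) (zv (Z.m (nat_lit 532016385452778))) = true := by decide +kernel
theorem c4a_6 {r : ℕ} (h1 : ((562387000000000 : ℕ) : ℝ) ≤ 2 ^ 48 * Kp r) (h2 : 2 ^ 48 * Kp r ≤ ((562668476710656 : ℕ) : ℝ)) {x0 : ℝ}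
    (hT : Thr 13 14 r x0) (tB : fB 13 14 r x0 = 0) :
    XH (Z.m (nat_lit 531885149584654)) (Z.m (nat_lit 531968171419804)) (Z.m (nat_lit 532048696358633)) 561542578044928 562949953421312 918162 r x0 := by
  have hX := tl_4a h1 h2 hT tB
  exact xh_cmp c4a_6_t0 (by norm_num) h1 h2 hX

theorem c4a_7_t0 : cmpQ 560135203192832 562949953421312 562387000000000 562668476710656 562387000000000 562668476710656 7082605 (zv (Z.m (nat_lit 531716553625084))) (zv (Z.m (nat_lit 531887674239308))) (zv (Z.m (nat_lit 532048696358633)))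
    (zv (Z.m (nat_lit 531983876097445))) (zv (Z.m (nat_lit 532000180497129))) (zv (Z.m (nat_lit 532016385452778))) = true := by decide +kernel
theorem c4a_7 {r : ℕ} (h1 : ((562387000000000 : ℕ) : ℝ) ≤ 2 ^ 48 * Kp r) (h2 : 2 ^ 48 * Kp r ≤ ((562668476710656 : ℕ) : ℝ)) {x0 : ℝ}
    (hT : Thr 13 14 r x0) (tB : fB 13 14 r x0 = 0) :
    XH (Z.m (nat_lit 531716553625084)) (Z.m (nat_lit 531887674239308)) (Z.m (nat_lit 532048696358633)) 560135203192832 562949953421312 7477167 r x0 := by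
  have hX := tl_4a h1 h2 hT tB
  exact xh_cmp c4a_7_t0 (by norm_num) h1 h2 hX

theorem c4b_0_t0 : cmpQ 561542574899200 562949953421312 562668476710656 562949953421312 562668476710656 562949953421312 859655 (zv (Z.m (nat_lit 531885149213497))) (zv (Z.m (nat_lit 531968171239837))) (zv (Z.m (nat_lit 532048696358633)))
    (zv (Z.m (nat_lit 532016385461624))) (zv (Z.m (nat_lit 532032590417647))) (zv (Z.m (nat_lit 532048696354246))) = true := by decide +kernel
theorem c4b_0 {r : ℕ} (h1 : ((562668476710656 : ℕ) : ℝ) ≤ 2 ^ 48 * Kp r) (h2 : 2 ^ 48 * Kp r ≤ ((562949953421312 : ℕ) : ℝ)) {x0 : ℝ}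
    (hT : Thr 13 14 r x0) (tB : fB 13 14 r x0 = 0) :
    XH (Z.m (nat_lit 531885149213497)) (Z.m (nat_lit 531968171239837)) (Z.m (nat_lit 532048696358633)) 561542574899200 562949953421312 918169 r x0 := by
  have hX := tl_4b h1 h2 hT tB
  exact xh_cmp c4b_0_t0 (by norm_num) h1 h2 hX

theorem c4b_1_t0 : cmpQ 562271854788608 562949953421312 562668476710656 562949953421312 562668476710656 562809215065984 103243 (zv (Z.m (nat_lit 531970519914027))) (zv (Z.m (nat_lit 532009896341211))) (zv (Z.m (nat_lit 532048696358633)))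
    (zv (Z.m (nat_lit 532016385461624))) (zv (Z.m (nat_lit 532032590417647))) (zv (Z.m (nat_lit 532048696354246))) = true := by decide +kernel
theorem c4b_1_t1 : cmpQ 562271854788608 562949953421312 562668476710656 562949953421312 562809215065984 562949953421312 95221 (zv (Z.m (nat_lit 531970519914027))) (zv (Z.m (nat_lit 532009896341211))) (zv (Z.m (nat_lit 532048696358633)))
    (zv (Z.m (nat_lit 532016385461624))) (zv (Z.m (nat_lit 532032590417647))) (zv (Z.m (nat_lit 532048696354246))) = true := by decide +kernel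
theorem c4b_1 {r : ℕ} (h1 : ((562668476710656 : ℕ) : ℝ) ≤ 2 ^ 48 * Kp r) (h2 : 2 ^ 48 * Kp r ≤ ((562949953421312 : ℕ) : ℝ)) {x0 : ℝ}
    (hT : Thr 13 14 r x0) (tB : fB 13 14 r x0 = 0) :
    XH (Z.m (nat_lit 531970519914027)) (Z.m (nat_lit 532009896341211)) (Z.m (nat_lit 532048696358633)) 562271854788608 562949953421312 118546 r x0 := by
  have hX := tl_4b h1 h2 hT tB
  rcases le_total (2 ^ 48 * Kp r) ((562809215065984 : ℕ) : ℝ) with g1 | g1
  · exact xh_cmp c4b_1_t0 (by norm_num) h1 g1 hX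
  exact xh_cmp c4b_1_t1 (by norm_num) g1 h2 hX

theorem c4b_2_t0 : cmpQ 561542578307072 562949953421312 562668476710656 562949953421312 562668476710656 562949953421312 859651 (zv (Z.m (nat_lit 531885149615583))) (zv (Z.m (nat_lit 531968171434801))) (zv (Z.m (nat_lit 532048696358633)))
    (zv (Z.m (nat_lit 532016385461624))) (zv (Z.m (nat_lit 532032590417647))) (zv (Z.m (nat_lit 532048696354246))) = true := by decide +kernel
theorem c4b_2 {r : ℕ} (h1 : ((562668476710656 : ℕ) : ℝ) ≤ 2 ^ 48 * Kp r) (h2 : 2 ^ 48 * Kp r ≤ ((562949953421312 : ℕ) : ℝ)) {x0 : ℝ}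
    (hT : Thr 13 14 r x0) (tB : fB 13 14 r x0 = 0) :
    XH (Z.m (nat_lit 531885149615583)) (Z.m (nat_lit 531968171434801)) (Z.m (nat_lit 532048696358633)) 561542578307072 562949953421312 918163 r x0 := by
  have hX := tl_4b h1 h2 hT tB
  exact xh_cmp c4b_2_t0 (by norm_num) h1 h2 hX

theorem c4b_3_t0 : cmpQ 560135203454976 562949953421312 562668476710656 562949953421312 562668476710656 562949953421312 5293877 (zv (Z.m (nat_lit 531716553656965))) (zv (Z.m (nat_lit 531887674254297))) (zv (Z.m (nat_lit 532048696358633)))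
    (zv (Z.m (nat_lit 532016385461624))) (zv (Z.m (nat_lit 532032590417647))) (zv (Z.m (nat_lit 532048696354246))) = true := by decide +kernel
theorem c4b_3 {r : ℕ} (h1 : ((562668476710656 : ℕ) : ℝ) ≤ 2 ^ 48 * Kp r) (h2 : 2 ^ 48 * Kp r ≤ ((562949953421312 : ℕ) : ℝ)) {x0 : ℝ}
    (hT : Thr 13 14 r x0) (tB : fB 13 14 r x0 = 0) :
    XH (Z.m (nat_lit 531716553656965)) (Z.m (nat_lit 531887674254297)) (Z.m (nat_lit 532048696358633)) 560135203454976 562949953421312 7477165 r x0 := by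
  have hX := tl_4b h1 h2 hT tB
  exact xh_cmp c4b_3_t0 (by norm_num) h1 h2 hX

theorem c4b_4_t0 : cmpQ 550648146034688 562949953421312 562668476710656 562949953421312 562668476710656 562949953421312 155081362 (zv (Z.m (nat_lit 530438639734205))) (zv (Z.m (nat_lit 531348415673837))) (zv (Z.m (nat_lit 532048696358633)))
    (zv (Z.m (nat_lit 532016385461624))) (zv (Z.m (nat_lit 532032590417647))) (zv (Z.m (nat_lit 532048696354246))) = true := by decide +kernel
theorem c4b_4 {r : ℕ} (h1 : ((562668476710656 : ℕ) : ℝ) ≤ 2 ^ 48 * Kp r) (h2 : 2 ^ 48 * Kp r ≤ ((562949953421312 : ℕ) : ℝ)) {x0 : ℝ}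
    (hT : Thr 13 14 r x0) (tB : fB 13 14 r x0 = 0) :
    XH (Z.m (nat_lit 530438639734205)) (Z.m (nat_lit 531348415673837)) (Z.m (nat_lit 532048696358633)) 550648146034688 562949953421312 1246431802 r x0 := by
  have hX := tl_4b h1 h2 hT tB
  exact xh_cmp c4b_4_t0 (by norm_num) h1 h2 hX

theorem c4b_5_t0 : cmpQ 562386999967744 562949953421312 562668476710656 562949953421312 562668476710656 562809215065984 52992 (zv (Z.m (nat_lit 531983876089250))) (zv (Z.m (nat_lit 532016484686790))) (zv (Z.m (nat_lit 532048696358633)))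
    (zv (Z.m (nat_lit 532016385461624))) (zv (Z.m (nat_lit 532032590417647))) (zv (Z.m (nat_lit 532048696354246))) = true := by decide +kernel
theorem c4b_5_t1 : cmpQ 562386999967744 562949953421312 562668476710656 562949953421312 562809215065984 562949953421312 55189 (zv (Z.m (nat_lit 531983876089250))) (zv (Z.m (nat_lit 532016484686790))) (zv (Z.m (nat_lit 532048696358633)))
    (zv (Z.m (nat_lit 532016385461624))) (zv (Z.m (nat_lit 532032590417647))) (zv (Z.m (nat_lit 532048696354246))) = true := by decide +kernel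
theorem c4b_5 {r : ℕ} (h1 : ((562668476710656 : ℕ) : ℝ) ≤ 2 ^ 48 * Kp r) (h2 : 2 ^ 48 * Kp r ≤ ((562949953421312 : ℕ) : ℝ)) {x0 : ℝ}
    (hT : Thr 13 14 r x0) (tB : fB 13 14 r x0 = 0) :
    XH (Z.m (nat_lit 531983876089250)) (Z.m (nat_lit 532016484686790)) (Z.m (nat_lit 532048696358633)) 562386999967744 562949953421312 76215 r x0 := by
  have hX := tl_4b h1 h2 hT tB
  rcases le_total (2 ^ 48 * Kp r) ((562809215065984 : ℕ) : ℝ) with g1 | g1
  · exact xh_cmp c4b_5_t0 (by norm_num) h1 g1 hX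
  exact xh_cmp c4b_5_t1 (by norm_num) g1 h2 hX

theorem c4b_6_t0 : cmpQ 561542578044928 562949953421312 562668476710656 562949953421312 562668476710656 562949953421312 859651 (zv (Z.m (nat_lit 531885149584654))) (zv (Z.m (nat_lit 531968171419804))) (zv (Z.m (nat_lit 532048696358633)))
    (zv (Z.m (nat_lit 532016385461624))) (zv (Z.m (nat_lit 532032590417647))) (zv (Z.m (nat_lit 532048696354246))) = true := by decide +kernel
theorem c4b_6 {r : ℕ} (h1 : ((562668476710656 : ℕ) : ℝ) ≤ 2 ^ 48 * Kp r) (h2 : 2 ^ 48 * Kp r ≤ ((562949953421312 : ℕ) : ℝ)) {x0 : ℝ}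
    (hT : Thr 13 14 r x0) (tB : fB 13 14 r x0 = 0) :
    XH (Z.m (nat_lit 531885149584654)) (Z.m (nat_lit 531968171419804)) (Z.m (nat_lit 532048696358633)) 561542578044928 562949953421312 918162 r x0 := by
  have hX := tl_4b h1 h2 hT tB
  exact xh_cmp c4b_6_t0 (by norm_num) h1 h2 hX

theorem c4b_7_t0 : cmpQ 560135203192832 562949953421312 562668476710656 562949953421312 562668476710656 562949953421312 5293878 (zv (Z.m (nat_lit 531716553625084))) (zv (Z.m (nat_lit 531887674239308))) (zv (Z.m (nat_lit 532048696358633)))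
    (zv (Z.m (nat_lit 532016385461624))) (zv (Z.m (nat_lit 532032590417647))) (zv (Z.m (nat_lit 532048696354246))) = true := by decide +kernel
theorem c4b_7 {r : ℕ} (h1 : ((562668476710656 : ℕ) : ℝ) ≤ 2 ^ 48 * Kp r) (h2 : 2 ^ 48 * Kp r ≤ ((562949953421312 : ℕ) : ℝ)) {x0 : ℝ}
    (hT : Thr 13 14 r x0) (tB : fB 13 14 r x0 = 0) :
    XH (Z.m (nat_lit 531716553625084)) (Z.m (nat_lit 531887674239308)) (Z.m (nat_lit 532048696358633)) 560135203192832 562949953421312 7477167 r x0 := by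
  have hX := tl_4b h1 h2 hT tB
  exact xh_cmp c4b_7_t0 (by norm_num) h1 h2 hX

theorem q1_13 {r : ℕ} (h0 : 41 ≤ r) (h1 : ((561298146334369 : ℕ) : ℝ) ≤ 2 ^ 48 * Kp r) (h2 : 2 ^ 48 * Kp r ≤ ((561515621459832 : ℕ) : ℝ)) {x0 : ℝ}
    (hT : Thr 13 14 r x0) (tB : fB 13 14 r x0 = 0) :
    QXS 13 14 r x0 := by
  have n0 : TCellU 13 14 r x0 0 ((56294995344 : ℕ) / 2 ^ 48) := tcu_sub (Pool.Agent.CXD.tX13X14T_nearBz1 ⟨by omega, le_trans (by norm_num) h1, le_trans h2 (by norm_num)⟩ (c1_0 h1 h2 hT tB) hT tB) (by norm_num) le_rfl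
  have n1 : TCellU 13 14 r x0 0 ((109951162776 : ℕ) / 2 ^ 48) := tcu_join n0 (Pool.Agent.CXD.tX13X14T_nearBh2g ⟨by omega, le_trans (by norm_num) h1, le_trans h2 (by norm_num)⟩ (c1_1 h1 h2 hT tB) hT tB) (by norm_num) (by norm_num)
  have n2 : TCellU 13 14 r x0 0 ((703687441776 : ℕ) / 2 ^ 48) := tcu_join n1 (Pool.Agent.CXD.tX13X14T_nearBh ⟨by omega, le_trans (by norm_num) h1, le_trans h2 (by norm_num)⟩ (c1_2 h1 h2 hT tB) hT tB) (by norm_num) (by norm_num)
  have n3 : TCellU 13 14 r x0 0 ((10788454124888 : ℕ) / 2 ^ 48) := tcu_join n2 (Pool.Agent.CXD.tX13X14T_nearBeg ⟨by omega, le_trans (by norm_num) h1, le_trans h2 (by norm_num)⟩ (c1_2 h1 h2 hT tB) hT tB) (by norm_num) (by norm_num)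
  have n4 : TCellU 13 14 r x0 0 ((22517998136852 : ℕ) / 2 ^ 48) := tcu_join n3 (Pool.Agent.CXD.tX13X14T_nearBd ⟨by omega, le_trans (by norm_num) h1, le_trans h2 (by norm_num)⟩ (c1_3 h1 h2 hT tB) hT tB) (by norm_num) (by norm_num)
  have n5 : TCellU 13 14 r x0 0 ((122160139892424 : ℕ) / 2 ^ 48) := tcu_join n4 (Pool.Agent.CXD.tX13X14T_nearBc ⟨by omega, le_trans (by norm_num) h1, le_trans h2 (by norm_num)⟩ (c1_3 h1 h2 hT tB) hT) (by norm_num) (by norm_num)
  have lm : (Lb.tl 550648146034688 562949953421312).has r := ⟨by omega, le_trans (by norm_num) h1, le_trans h2 (by norm_num)⟩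
  have hx : XH (Z.m (nat_lit 530438639734205)) (Z.m (nat_lit 531348415673837)) (Z.m (nat_lit 532048696358633)) 550648146034688 562949953421312 1246431802 r x0 := (c1_4 h1 h2 hT tB)
  have nn : TCellU 13 14 r x0 0 ((122160139892424 : ℕ) / 2 ^ 48) := tcu_sub n5 le_rfl (by norm_num)
  exact qxS_O (by norm_num) (by norm_num) (by omega) hT.gt hT.le hx Pool.Agent.Helper81.TK.E_13_14_T_midB.T (hasP (N := 13) (by decide +kernel)) (hasP (N := 14) (by decide +kernel)) lm nn
    (by norm_num) (by norm_num) (by norm_num) (far3 (L := 530437393302403) (H := 532049942790435) (by norm_num) (by norm_num) (by omega) (xh_rng hx (by norm_num) lm.2.1 lm.2.2 (by norm_num) (by norm_num) (by norm_num) (by norm_num) (by norm_num) (by norm_num)) (by norm_num) (by norm_num))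

theorem q1_14 {r : ℕ} (h0 : 41 ≤ r) (h1 : ((561298146334369 : ℕ) : ℝ) ≤ 2 ^ 48 * Kp r) (h2 : 2 ^ 48 * Kp r ≤ ((561515621459832 : ℕ) : ℝ)) {x0 : ℝ}
    (hT : Thr 14 13 r x0) (tB : fB 14 13 r x0 = 0) :
    QXS 14 13 r x0 := by
  have n0 : TCellU 14 13 r x0 0 ((56294995344 : ℕ) / 2 ^ 48) := tcu_sub (Pool.Agent.CXD.tX14X13T_nearBz1 ⟨by omega, le_trans (by norm_num) h1, le_trans h2 (by norm_num)⟩ (c1_0 h1 h2 hT.swap (fB_sw tB)) hT tB) (by norm_num) le_rfl
  have n1 : TCellU 14 13 r x0 0 ((101879725368 : ℕ) / 2 ^ 48) := tcu_join n0 (Pool.Agent.CXD.tX14X13T_nearBg2g ⟨by omega, le_trans (by norm_num) h1, le_trans h2 (by norm_num)⟩ (c1_1 h1 h2 hT.swap (fB_sw tB)) hT tB) (by norm_num) (by norm_num)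
  have n2 : TCellU 14 13 r x0 0 ((703687441776 : ℕ) / 2 ^ 48) := tcu_join n1 (Pool.Agent.CXD.tX14X13T_nearBg ⟨by omega, le_trans (by norm_num) h1, le_trans h2 (by norm_num)⟩ (c1_2 h1 h2 hT.swap (fB_sw tB)) hT tB) (by norm_num) (by norm_num)
  have n3 : TCellU 14 13 r x0 0 ((4222124650660 : ℕ) / 2 ^ 48) := tcu_join n2 (Pool.Agent.CXD.tX14X13T_nearBfg ⟨by omega, le_trans (by norm_num) h1, le_trans h2 (by norm_num)⟩ (c1_5 h1 h2 hT.swap (fB_sw tB)) hT tB) (by norm_num) (by norm_num)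
  have n4 : TCellU 14 13 r x0 0 ((26235244407076 : ℕ) / 2 ^ 48) := tcu_join n3 (Pool.Agent.CXD.tX14X13T_nearBeg ⟨by omega, le_trans (by norm_num) h1, le_trans h2 (by norm_num)⟩ (c1_6 h1 h2 hT.swap (fB_sw tB)) hT tB) (by norm_num) (by norm_num)
  have n5 : TCellU 14 13 r x0 0 ((122160139892424 : ℕ) / 2 ^ 48) := tcu_join n4 (Pool.Agent.CXD.tX14X13T_nearBd ⟨by omega, le_trans (by norm_num) h1, le_trans h2 (by norm_num)⟩ (c1_3 h1 h2 hT.swap (fB_sw tB)) hT) (by norm_num) (by norm_num)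
  have lm : (Lb.tl 550648146034688 562949953421312).has r := ⟨by omega, le_trans (by norm_num) h1, le_trans h2 (by norm_num)⟩
  have hx : XH (Z.m (nat_lit 530438639734205)) (Z.m (nat_lit 531348415673837)) (Z.m (nat_lit 532048696358633)) 550648146034688 562949953421312 1246431802 r x0 := (c1_4 h1 h2 hT.swap (fB_sw tB))
  have nn : TCellU 14 13 r x0 0 ((122160139892424 : ℕ) / 2 ^ 48) := tcu_sub n5 le_rfl (by norm_num)
  exact qxS_O (by norm_num) (by norm_num) (by omega) hT.gt hT.le hx Pool.Agent.Helper81.TK.E_14_13_T_midB.T (hasP (N := 14) (by decide +kernel)) (hasP (N := 13) (by decide +kernel)) lm nn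
    (by norm_num) (by norm_num) (by norm_num) (far3 (L := 530437393302403) (H := 532049942790435) (by norm_num) (by norm_num) (by omega) (xh_rng hx (by norm_num) lm.2.1 lm.2.2 (by norm_num) (by norm_num) (by norm_num) (by norm_num) (by norm_num) (by norm_num)) (by norm_num) (by norm_num))

theorem q2a_13 {r : ℕ} (h0 : 41 ≤ r) (h1 : ((561578635628542 : ℕ) : ℝ) ≤ 2 ^ 48 * Kp r) (h2 : 2 ^ 48 * Kp r ≤ ((561914399262719 : ℕ) : ℝ)) {x0 : ℝ}
    (hT : Thr 13 14 r x0) (tB : fB 13 14 r x0 = 0) :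
    QXS 13 14 r x0 := by
  have n0 : TCellU 13 14 r x0 0 ((56294995344 : ℕ) / 2 ^ 48) := tcu_sub (Pool.Agent.CXD.tX13X14T_nearBz2 ⟨by omega, le_trans (by norm_num) h1, le_trans h2 (by norm_num)⟩ (c2a_0 h1 h2 hT tB) hT tB) (by norm_num) le_rfl
  have n1 : TCellU 13 14 r x0 0 ((109951162776 : ℕ) / 2 ^ 48) := tcu_join n0 (Pool.Agent.CXD.tX13X14T_nearBi1g ⟨by omega, le_trans (by norm_num) h1, le_trans h2 (by norm_num)⟩ (c2a_1 h1 h2 hT tB) hT tB) (by norm_num) (by norm_num)
  have n2 : TCellU 13 14 r x0 0 ((703687441776 : ℕ) / 2 ^ 48) := tcu_join n1 (Pool.Agent.CXD.tX13X14T_nearBi ⟨by omega, le_trans (by norm_num) h1, le_trans h2 (by norm_num)⟩ (c2a_2 h1 h2 hT tB) hT tB) (by norm_num) (by norm_num)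
  have n3 : TCellU 13 14 r x0 0 ((10788454124888 : ℕ) / 2 ^ 48) := tcu_join n2 (Pool.Agent.CXD.tX13X14T_nearBfg ⟨by omega, le_trans (by norm_num) h1, le_trans h2 (by norm_num)⟩ (c2a_2 h1 h2 hT tB) hT tB) (by norm_num) (by norm_num)
  have n4 : TCellU 13 14 r x0 0 ((22517998136852 : ℕ) / 2 ^ 48) := tcu_join n3 (Pool.Agent.CXD.tX13X14T_nearBd ⟨by omega, le_trans (by norm_num) h1, le_trans h2 (by norm_num)⟩ (c2a_3 h1 h2 hT tB) hT tB) (by norm_num) (by norm_num)
  have n5 : TCellU 13 14 r x0 0 ((122160139892424 : ℕ) / 2 ^ 48) := tcu_join n4 (Pool.Agent.CXD.tX13X14T_nearBc ⟨by omega, le_trans (by norm_num) h1, le_trans h2 (by norm_num)⟩ (c2a_3 h1 h2 hT tB) hT) (by norm_num) (by norm_num)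
  have lm : (Lb.tl 550648146034688 562949953421312).has r := ⟨by omega, le_trans (by norm_num) h1, le_trans h2 (by norm_num)⟩
  have hx : XH (Z.m (nat_lit 530438639734205)) (Z.m (nat_lit 531348415673837)) (Z.m (nat_lit 532048696358633)) 550648146034688 562949953421312 1246431802 r x0 := (c2a_4 h1 h2 hT tB)
  have nn : TCellU 13 14 r x0 0 ((122160139892424 : ℕ) / 2 ^ 48) := tcu_sub n5 le_rfl (by norm_num)
  exact qxS_O (by norm_num) (by norm_num) (by omega) hT.gt hT.le hx Pool.Agent.Helper81.TK.E_13_14_T_midB.T (hasP (N := 13) (by decide +kernel)) (hasP (N := 14) (by decide +kernel)) lm nn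
    (by norm_num) (by norm_num) (by norm_num) (far3 (L := 530437393302403) (H := 532049942790435) (by norm_num) (by norm_num) (by omega) (xh_rng hx (by norm_num) lm.2.1 lm.2.2 (by norm_num) (by norm_num) (by norm_num) (by norm_num) (by norm_num) (by norm_num)) (by norm_num) (by norm_num))

theorem q2a_14 {r : ℕ} (h0 : 41 ≤ r) (h1 : ((561578635628542 : ℕ) : ℝ) ≤ 2 ^ 48 * Kp r) (h2 : 2 ^ 48 * Kp r ≤ ((561914399262719 : ℕ) : ℝ)) {x0 : ℝ}
    (hT : Thr 14 13 r x0) (tB : fB 14 13 r x0 = 0) :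
    QXS 14 13 r x0 := by
  have n0 : TCellU 14 13 r x0 0 ((56294995344 : ℕ) / 2 ^ 48) := tcu_sub (Pool.Agent.CXD.tX14X13T_nearBz2 ⟨by omega, le_trans (by norm_num) h1, le_trans h2 (by norm_num)⟩ (c2a_5 h1 h2 hT.swap (fB_sw tB)) hT tB) (by norm_num) le_rfl
  have n1 : TCellU 14 13 r x0 0 ((101879725368 : ℕ) / 2 ^ 48) := tcu_join n0 (Pool.Agent.CXD.tX14X13T_nearBi1g ⟨by omega, le_trans (by norm_num) h1, le_trans h2 (by norm_num)⟩ (c2a_1 h1 h2 hT.swap (fB_sw tB)) hT tB) (by norm_num) (by norm_num)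
  have n2 : TCellU 14 13 r x0 0 ((703687441776 : ℕ) / 2 ^ 48) := tcu_join n1 (Pool.Agent.CXD.tX14X13T_nearBi ⟨by omega, le_trans (by norm_num) h1, le_trans h2 (by norm_num)⟩ (c2a_2 h1 h2 hT.swap (fB_sw tB)) hT tB) (by norm_num) (by norm_num)
  have n3 : TCellU 14 13 r x0 0 ((4222124650660 : ℕ) / 2 ^ 48) := tcu_join n2 (Pool.Agent.CXD.tX14X13T_nearBhg ⟨by omega, le_trans (by norm_num) h1, le_trans h2 (by norm_num)⟩ (c2a_6 h1 h2 hT.swap (fB_sw tB)) hT tB) (by norm_num) (by norm_num)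
  have n4 : TCellU 14 13 r x0 0 ((26235244407076 : ℕ) / 2 ^ 48) := tcu_join n3 (Pool.Agent.CXD.tX14X13T_nearBeg ⟨by omega, le_trans (by norm_num) h1, le_trans h2 (by norm_num)⟩ (c2a_7 h1 h2 hT.swap (fB_sw tB)) hT tB) (by norm_num) (by norm_num)
  have n5 : TCellU 14 13 r x0 0 ((122160139892424 : ℕ) / 2 ^ 48) := tcu_join n4 (Pool.Agent.CXD.tX14X13T_nearBd ⟨by omega, le_trans (by norm_num) h1, le_trans h2 (by norm_num)⟩ (c2a_3 h1 h2 hT.swap (fB_sw tB)) hT) (by norm_num) (by norm_num)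
  have lm : (Lb.tl 550648146034688 562949953421312).has r := ⟨by omega, le_trans (by norm_num) h1, le_trans h2 (by norm_num)⟩
  have hx : XH (Z.m (nat_lit 530438639734205)) (Z.m (nat_lit 531348415673837)) (Z.m (nat_lit 532048696358633)) 550648146034688 562949953421312 1246431802 r x0 := (c2a_4 h1 h2 hT.swap (fB_sw tB))
  have nn : TCellU 14 13 r x0 0 ((122160139892424 : ℕ) / 2 ^ 48) := tcu_sub n5 le_rfl (by norm_num)
  exact qxS_O (by norm_num) (by norm_num) (by omega) hT.gt hT.le hx Pool.Agent.Helper81.TK.E_14_13_T_midB.T (hasP (N := 14) (by decide +kernel)) (hasP (N := 13) (by decide +kernel)) lm nn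
    (by norm_num) (by norm_num) (by norm_num) (far3 (L := 530437393302403) (H := 532049942790435) (by norm_num) (by norm_num) (by omega) (xh_rng hx (by norm_num) lm.2.1 lm.2.2 (by norm_num) (by norm_num) (by norm_num) (by norm_num) (by norm_num) (by norm_num)) (by norm_num) (by norm_num))

theorem q2b_13 {r : ℕ} (h0 : 41 ≤ r) (h1 : ((561914399262719 : ℕ) : ℝ) ≤ 2 ^ 48 * Kp r) (h2 : 2 ^ 48 * Kp r ≤ ((562250162896896 : ℕ) : ℝ)) {x0 : ℝ}
    (hT : Thr 13 14 r x0) (tB : fB 13 14 r x0 = 0) :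
    QXS 13 14 r x0 := by
  have n0 : TCellU 13 14 r x0 0 ((56294995344 : ℕ) / 2 ^ 48) := tcu_sub (Pool.Agent.CXD.tX13X14T_nearBz2 ⟨by omega, le_trans (by norm_num) h1, le_trans h2 (by norm_num)⟩ (c2b_0 h1 h2 hT tB) hT tB) (by norm_num) le_rfl
  have n1 : TCellU 13 14 r x0 0 ((109951162776 : ℕ) / 2 ^ 48) := tcu_join n0 (Pool.Agent.CXD.tX13X14T_nearBi1g ⟨by omega, le_trans (by norm_num) h1, le_trans h2 (by norm_num)⟩ (c2b_1 h1 h2 hT tB) hT tB) (by norm_num) (by norm_num)
  have n2 : TCellU 13 14 r x0 0 ((703687441776 : ℕ) / 2 ^ 48) := tcu_join n1 (Pool.Agent.CXD.tX13X14T_nearBi ⟨by omega, le_trans (by norm_num) h1, le_trans h2 (by norm_num)⟩ (c2b_2 h1 h2 hT tB) hT tB) (by norm_num) (by norm_num)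
  have n3 : TCellU 13 14 r x0 0 ((10788454124888 : ℕ) / 2 ^ 48) := tcu_join n2 (Pool.Agent.CXD.tX13X14T_nearBfg ⟨by omega, le_trans (by norm_num) h1, le_trans h2 (by norm_num)⟩ (c2b_2 h1 h2 hT tB) hT tB) (by norm_num) (by norm_num)
  have n4 : TCellU 13 14 r x0 0 ((22517998136852 : ℕ) / 2 ^ 48) := tcu_join n3 (Pool.Agent.CXD.tX13X14T_nearBd ⟨by omega, le_trans (by norm_num) h1, le_trans h2 (by norm_num)⟩ (c2b_3 h1 h2 hT tB) hT tB) (by norm_num) (by norm_num)
  have n5 : TCellU 13 14 r x0 0 ((122160139892424 : ℕ) / 2 ^ 48) := tcu_join n4 (Pool.Agent.CXD.tX13X14T_nearBc ⟨by omega, le_trans (by norm_num) h1, le_trans h2 (by norm_num)⟩ (c2b_3 h1 h2 hT tB) hT) (by norm_num) (by norm_num)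
  have lm : (Lb.tl 550648146034688 562949953421312).has r := ⟨by omega, le_trans (by norm_num) h1, le_trans h2 (by norm_num)⟩
  have hx : XH (Z.m (nat_lit 530438639734205)) (Z.m (nat_lit 531348415673837)) (Z.m (nat_lit 532048696358633)) 550648146034688 562949953421312 1246431802 r x0 := (c2b_4 h1 h2 hT tB)
  have nn : TCellU 13 14 r x0 0 ((122160139892424 : ℕ) / 2 ^ 48) := tcu_sub n5 le_rfl (by norm_num)
  exact qxS_O (by norm_num) (by norm_num) (by omega) hT.gt hT.le hx Pool.Agent.Helper81.TK.E_13_14_T_midB.T (hasP (N := 13) (by decide +kernel)) (hasP (N := 14) (by decide +kernel)) lm nn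
    (by norm_num) (by norm_num) (by norm_num) (far3 (L := 530437393302403) (H := 532049942790435) (by norm_num) (by norm_num) (by omega) (xh_rng hx (by norm_num) lm.2.1 lm.2.2 (by norm_num) (by norm_num) (by norm_num) (by norm_num) (by norm_num) (by norm_num)) (by norm_num) (by norm_num))

theorem q2b_14 {r : ℕ} (h0 : 41 ≤ r) (h1 : ((561914399262719 : ℕ) : ℝ) ≤ 2 ^ 48 * Kp r) (h2 : 2 ^ 48 * Kp r ≤ ((562250162896896 : ℕ) : ℝ)) {x0 : ℝ}
    (hT : Thr 14 13 r x0) (tB : fB 14 13 r x0 = 0) :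
    QXS 14 13 r x0 := by
  have n0 : TCellU 14 13 r x0 0 ((56294995344 : ℕ) / 2 ^ 48) := tcu_sub (Pool.Agent.CXD.tX14X13T_nearBz2 ⟨by omega, le_trans (by norm_num) h1, le_trans h2 (by norm_num)⟩ (c2b_5 h1 h2 hT.swap (fB_sw tB)) hT tB) (by norm_num) le_rfl
  have n1 : TCellU 14 13 r x0 0 ((101879725368 : ℕ) / 2 ^ 48) := tcu_join n0 (Pool.Agent.CXD.tX14X13T_nearBi1g ⟨by omega, le_trans (by norm_num) h1, le_trans h2 (by norm_num)⟩ (c2b_1 h1 h2 hT.swap (fB_sw tB)) hT tB) (by norm_num) (by norm_num)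
  have n2 : TCellU 14 13 r x0 0 ((703687441776 : ℕ) / 2 ^ 48) := tcu_join n1 (Pool.Agent.CXD.tX14X13T_nearBi ⟨by omega, le_trans (by norm_num) h1, le_trans h2 (by norm_num)⟩ (c2b_2 h1 h2 hT.swap (fB_sw tB)) hT tB) (by norm_num) (by norm_num)
  have n3 : TCellU 14 13 r x0 0 ((4222124650660 : ℕ) / 2 ^ 48) := tcu_join n2 (Pool.Agent.CXD.tX14X13T_nearBhg ⟨by omega, le_trans (by norm_num) h1, le_trans h2 (by norm_num)⟩ (c2b_6 h1 h2 hT.swap (fB_sw tB)) hT tB) (by norm_num) (by norm_num)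
  have n4 : TCellU 14 13 r x0 0 ((26235244407076 : ℕ) / 2 ^ 48) := tcu_join n3 (Pool.Agent.CXD.tX14X13T_nearBeg ⟨by omega, le_trans (by norm_num) h1, le_trans h2 (by norm_num)⟩ (c2b_7 h1 h2 hT.swap (fB_sw tB)) hT tB) (by norm_num) (by norm_num)
  have n5 : TCellU 14 13 r x0 0 ((122160139892424 : ℕ) / 2 ^ 48) := tcu_join n4 (Pool.Agent.CXD.tX14X13T_nearBd ⟨by omega, le_trans (by norm_num) h1, le_trans h2 (by norm_num)⟩ (c2b_3 h1 h2 hT.swap (fB_sw tB)) hT) (by norm_num) (by norm_num)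
  have lm : (Lb.tl 550648146034688 562949953421312).has r := ⟨by omega, le_trans (by norm_num) h1, le_trans h2 (by norm_num)⟩
  have hx : XH (Z.m (nat_lit 530438639734205)) (Z.m (nat_lit 531348415673837)) (Z.m (nat_lit 532048696358633)) 550648146034688 562949953421312 1246431802 r x0 := (c2b_4 h1 h2 hT.swap (fB_sw tB))
  have nn : TCellU 14 13 r x0 0 ((122160139892424 : ℕ) / 2 ^ 48) := tcu_sub n5 le_rfl (by norm_num)
  exact qxS_O (by norm_num) (by norm_num) (by omega) hT.gt hT.le hx Pool.Agent.Helper81.TK.E_14_13_T_midB.T (hasP (N := 14) (by decide +kernel)) (hasP (N := 13) (by decide +kernel)) lm nn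
    (by norm_num) (by norm_num) (by norm_num) (far3 (L := 530437393302403) (H := 532049942790435) (by norm_num) (by norm_num) (by omega) (xh_rng hx (by norm_num) lm.2.1 lm.2.2 (by norm_num) (by norm_num) (by norm_num) (by norm_num) (by norm_num) (by norm_num)) (by norm_num) (by norm_num))

theorem q3_13 {r : ℕ} (h0 : 41 ≤ r) (h1 : ((562271854788608 : ℕ) : ℝ) ≤ 2 ^ 48 * Kp r) (h2 : 2 ^ 48 * Kp r ≤ ((562387000000000 : ℕ) : ℝ)) {x0 : ℝ}
    (hT : Thr 13 14 r x0) (tB : fB 13 14 r x0 = 0) :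
    QXS 13 14 r x0 := by
  have n0 : TCellU 13 14 r x0 0 ((56294995344 : ℕ) / 2 ^ 48) := tcu_sub (Pool.Agent.CXD.tX13X14T_nearBz2 ⟨by omega, le_trans (by norm_num) h1, le_trans h2 (by norm_num)⟩ (c3_0 h1 h2 hT tB) hT tB) (by norm_num) le_rfl
  have n1 : TCellU 13 14 r x0 0 ((109951162776 : ℕ) / 2 ^ 48) := tcu_join n0 (Pool.Agent.CXD.tX13X14T_nearBi2g ⟨by omega, le_trans (by norm_num) h1, le_trans h2 (by norm_num)⟩ (c3_1 h1 h2 hT tB) hT tB) (by norm_num) (by norm_num)
  have n2 : TCellU 13 14 r x0 0 ((703687441776 : ℕ) / 2 ^ 48) := tcu_join n1 (Pool.Agent.CXD.tX13X14T_nearBi ⟨by omega, le_trans (by norm_num) h1, le_trans h2 (by norm_num)⟩ (c3_2 h1 h2 hT tB) hT tB) (by norm_num) (by norm_num)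
  have n3 : TCellU 13 14 r x0 0 ((10788454124888 : ℕ) / 2 ^ 48) := tcu_join n2 (Pool.Agent.CXD.tX13X14T_nearBfg ⟨by omega, le_trans (by norm_num) h1, le_trans h2 (by norm_num)⟩ (c3_2 h1 h2 hT tB) hT tB) (by norm_num) (by norm_num)
  have n4 : TCellU 13 14 r x0 0 ((22517998136852 : ℕ) / 2 ^ 48) := tcu_join n3 (Pool.Agent.CXD.tX13X14T_nearBd ⟨by omega, le_trans (by norm_num) h1, le_trans h2 (by norm_num)⟩ (c3_3 h1 h2 hT tB) hT tB) (by norm_num) (by norm_num)
  have n5 : TCellU 13 14 r x0 0 ((122160139892424 : ℕ) / 2 ^ 48) := tcu_join n4 (Pool.Agent.CXD.tX13X14T_nearBc ⟨by omega, le_trans (by norm_num) h1, le_trans h2 (by norm_num)⟩ (c3_3 h1 h2 hT tB) hT) (by norm_num) (by norm_num)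
  have lm : (Lb.tl 550648146034688 562949953421312).has r := ⟨by omega, le_trans (by norm_num) h1, le_trans h2 (by norm_num)⟩
  have hx : XH (Z.m (nat_lit 530438639734205)) (Z.m (nat_lit 531348415673837)) (Z.m (nat_lit 532048696358633)) 550648146034688 562949953421312 1246431802 r x0 := (c3_4 h1 h2 hT tB)
  have nn : TCellU 13 14 r x0 0 ((122160139892424 : ℕ) / 2 ^ 48) := tcu_sub n5 le_rfl (by norm_num)
  exact qxS_O (by norm_num) (by norm_num) (by omega) hT.gt hT.le hx Pool.Agent.Helper81.TK.E_13_14_T_midB.T (hasP (N := 13) (by decide +kernel)) (hasP (N := 14) (by decide +kernel)) lm nn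
    (by norm_num) (by norm_num) (by norm_num) (far3 (L := 530437393302403) (H := 532049942790435) (by norm_num) (by norm_num) (by omega) (xh_rng hx (by norm_num) lm.2.1 lm.2.2 (by norm_num) (by norm_num) (by norm_num) (by norm_num) (by norm_num) (by norm_num)) (by norm_num) (by norm_num))

theorem q3_14 {r : ℕ} (h0 : 41 ≤ r) (h1 : ((562271854788608 : ℕ) : ℝ) ≤ 2 ^ 48 * Kp r) (h2 : 2 ^ 48 * Kp r ≤ ((562387000000000 : ℕ) : ℝ)) {x0 : ℝ}
    (hT : Thr 14 13 r x0) (tB : fB 14 13 r x0 = 0) :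
    QXS 14 13 r x0 := by
  have n0 : TCellU 14 13 r x0 0 ((56294995344 : ℕ) / 2 ^ 48) := tcu_sub (Pool.Agent.CXD.tX14X13T_nearBz2 ⟨by omega, le_trans (by norm_num) h1, le_trans h2 (by norm_num)⟩ (c3_5 h1 h2 hT.swap (fB_sw tB)) hT tB) (by norm_num) le_rfl
  have n1 : TCellU 14 13 r x0 0 ((101879725368 : ℕ) / 2 ^ 48) := tcu_join n0 (Pool.Agent.CXD.tX14X13T_nearBi2g ⟨by omega, le_trans (by norm_num) h1, le_trans h2 (by norm_num)⟩ (c3_1 h1 h2 hT.swap (fB_sw tB)) hT tB) (by norm_num) (by norm_num)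
  have n2 : TCellU 14 13 r x0 0 ((703687441776 : ℕ) / 2 ^ 48) := tcu_join n1 (Pool.Agent.CXD.tX14X13T_nearBi ⟨by omega, le_trans (by norm_num) h1, le_trans h2 (by norm_num)⟩ (c3_2 h1 h2 hT.swap (fB_sw tB)) hT tB) (by norm_num) (by norm_num)
  have n3 : TCellU 14 13 r x0 0 ((4222124650660 : ℕ) / 2 ^ 48) := tcu_join n2 (Pool.Agent.CXD.tX14X13T_nearBhg ⟨by omega, le_trans (by norm_num) h1, le_trans h2 (by norm_num)⟩ (c3_6 h1 h2 hT.swap (fB_sw tB)) hT tB) (by norm_num) (by norm_num)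
  have n4 : TCellU 14 13 r x0 0 ((26235244407076 : ℕ) / 2 ^ 48) := tcu_join n3 (Pool.Agent.CXD.tX14X13T_nearBeg ⟨by omega, le_trans (by norm_num) h1, le_trans h2 (by norm_num)⟩ (c3_7 h1 h2 hT.swap (fB_sw tB)) hT tB) (by norm_num) (by norm_num)
  have n5 : TCellU 14 13 r x0 0 ((122160139892424 : ℕ) / 2 ^ 48) := tcu_join n4 (Pool.Agent.CXD.tX14X13T_nearBd ⟨by omega, le_trans (by norm_num) h1, le_trans h2 (by norm_num)⟩ (c3_3 h1 h2 hT.swap (fB_sw tB)) hT) (by norm_num) (by norm_num)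
  have lm : (Lb.tl 550648146034688 562949953421312).has r := ⟨by omega, le_trans (by norm_num) h1, le_trans h2 (by norm_num)⟩
  have hx : XH (Z.m (nat_lit 530438639734205)) (Z.m (nat_lit 531348415673837)) (Z.m (nat_lit 532048696358633)) 550648146034688 562949953421312 1246431802 r x0 := (c3_4 h1 h2 hT.swap (fB_sw tB))
  have nn : TCellU 14 13 r x0 0 ((122160139892424 : ℕ) / 2 ^ 48) := tcu_sub n5 le_rfl (by norm_num)
  exact qxS_O (by norm_num) (by norm_num) (by omega) hT.gt hT.le hx Pool.Agent.Helper81.TK.E_14_13_T_midB.T (hasP (N := 14) (by decide +kernel)) (hasP (N := 13) (by decide +kernel)) lm nn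
    (by norm_num) (by norm_num) (by norm_num) (far3 (L := 530437393302403) (H := 532049942790435) (by norm_num) (by norm_num) (by omega) (xh_rng hx (by norm_num) lm.2.1 lm.2.2 (by norm_num) (by norm_num) (by norm_num) (by norm_num) (by norm_num) (by norm_num)) (by norm_num) (by norm_num))

theorem q4a_13 {r : ℕ} (h0 : 41 ≤ r) (h1 : ((562387000000000 : ℕ) : ℝ) ≤ 2 ^ 48 * Kp r) (h2 : 2 ^ 48 * Kp r ≤ ((562668476710656 : ℕ) : ℝ)) {x0 : ℝ}
    (hT : Thr 13 14 r x0) (tB : fB 13 14 r x0 = 0) :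
    QXS 13 14 r x0 := by
  have n0 : TCellU 13 14 r x0 0 ((56294995344 : ℕ) / 2 ^ 48) := tcu_sub (Pool.Agent.CXD.tX13X14T_nearBz2 ⟨by omega, le_trans (by norm_num) h1, le_trans h2 (by norm_num)⟩ (c4a_0 h1 h2 hT tB) hT tB) (by norm_num) le_rfl
  have n1 : TCellU 13 14 r x0 0 ((109951162776 : ℕ) / 2 ^ 48) := tcu_join n0 (Pool.Agent.CXD.tX13X14T_nearBi2g ⟨by omega, le_trans (by norm_num) h1, le_trans h2 (by norm_num)⟩ (c4a_1 h1 h2 hT tB) hT tB) (by norm_num) (by norm_num)
  have n2 : TCellU 13 14 r x0 0 ((703687441776 : ℕ) / 2 ^ 48) := tcu_join n1 (Pool.Agent.CXD.tX13X14T_nearBi ⟨by omega, le_trans (by norm_num) h1, le_trans h2 (by norm_num)⟩ (c4a_2 h1 h2 hT tB) hT tB) (by norm_num) (by norm_num)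
  have n3 : TCellU 13 14 r x0 0 ((10788454124888 : ℕ) / 2 ^ 48) := tcu_join n2 (Pool.Agent.CXD.tX13X14T_nearBfg ⟨by omega, le_trans (by norm_num) h1, le_trans h2 (by norm_num)⟩ (c4a_2 h1 h2 hT tB) hT tB) (by norm_num) (by norm_num)
  have n4 : TCellU 13 14 r x0 0 ((22517998136852 : ℕ) / 2 ^ 48) := tcu_join n3 (Pool.Agent.CXD.tX13X14T_nearBd ⟨by omega, le_trans (by norm_num) h1, le_trans h2 (by norm_num)⟩ (c4a_3 h1 h2 hT tB) hT tB) (by norm_num) (by norm_num)
  have n5 : TCellU 13 14 r x0 0 ((122160139892424 : ℕ) / 2 ^ 48) := tcu_join n4 (Pool.Agent.CXD.tX13X14T_nearBc ⟨by omega, le_trans (by norm_num) h1, le_trans h2 (by norm_num)⟩ (c4a_3 h1 h2 hT tB) hT) (by norm_num) (by norm_num)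
  have lm : (Lb.tl 550648146034688 562949953421312).has r := ⟨by omega, le_trans (by norm_num) h1, le_trans h2 (by norm_num)⟩
  have hx : XH (Z.m (nat_lit 530438639734205)) (Z.m (nat_lit 531348415673837)) (Z.m (nat_lit 532048696358633)) 550648146034688 562949953421312 1246431802 r x0 := (c4a_4 h1 h2 hT tB)
  have nn : TCellU 13 14 r x0 0 ((122160139892424 : ℕ) / 2 ^ 48) := tcu_sub n5 le_rfl (by norm_num)
  exact qxS_O (by norm_num) (by norm_num) (by omega) hT.gt hT.le hx Pool.Agent.Helper81.TK.E_13_14_T_midB.T (hasP (N := 13) (by decide +kernel)) (hasP (N := 14) (by decide +kernel)) lm nn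
    (by norm_num) (by norm_num) (by norm_num) (far3 (L := 530437393302403) (H := 532049942790435) (by norm_num) (by norm_num) (by omega) (xh_rng hx (by norm_num) lm.2.1 lm.2.2 (by norm_num) (by norm_num) (by norm_num) (by norm_num) (by norm_num) (by norm_num)) (by norm_num) (by norm_num))

theorem q4a_14 {r : ℕ} (h0 : 41 ≤ r) (h1 : ((562387000000000 : ℕ) : ℝ) ≤ 2 ^ 48 * Kp r) (h2 : 2 ^ 48 * Kp r ≤ ((562668476710656 : ℕ) : ℝ)) {x0 : ℝ}
    (hT : Thr 14 13 r x0) (tB : fB 14 13 r x0 = 0) :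
    QXS 14 13 r x0 := by
  have n0 : TCellU 14 13 r x0 0 ((56294995344 : ℕ) / 2 ^ 48) := tcu_sub (Pool.Agent.CXD.tX14X13T_nearBz3 ⟨by omega, le_trans (by norm_num) h1, le_trans h2 (by norm_num)⟩ (c4a_5 h1 h2 hT.swap (fB_sw tB)) hT tB) (by norm_num) le_rfl
  have n1 : TCellU 14 13 r x0 0 ((101879725368 : ℕ) / 2 ^ 48) := tcu_join n0 (Pool.Agent.CXD.tX14X13T_nearBi2g ⟨by omega, le_trans (by norm_num) h1, le_trans h2 (by norm_num)⟩ (c4a_1 h1 h2 hT.swap (fB_sw tB)) hT tB) (by norm_num) (by norm_num)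
  have n2 : TCellU 14 13 r x0 0 ((703687441776 : ℕ) / 2 ^ 48) := tcu_join n1 (Pool.Agent.CXD.tX14X13T_nearBi ⟨by omega, le_trans (by norm_num) h1, le_trans h2 (by norm_num)⟩ (c4a_2 h1 h2 hT.swap (fB_sw tB)) hT tB) (by norm_num) (by norm_num)
  have n3 : TCellU 14 13 r x0 0 ((4222124650660 : ℕ) / 2 ^ 48) := tcu_join n2 (Pool.Agent.CXD.tX14X13T_nearBhg ⟨by omega, le_trans (by norm_num) h1, le_trans h2 (by norm_num)⟩ (c4a_6 h1 h2 hT.swap (fB_sw tB)) hT tB) (by norm_num) (by norm_num)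
  have n4 : TCellU 14 13 r x0 0 ((26235244407076 : ℕ) / 2 ^ 48) := tcu_join n3 (Pool.Agent.CXD.tX14X13T_nearBeg ⟨by omega, le_trans (by norm_num) h1, le_trans h2 (by norm_num)⟩ (c4a_7 h1 h2 hT.swap (fB_sw tB)) hT tB) (by norm_num) (by norm_num)
  have n5 : TCellU 14 13 r x0 0 ((122160139892424 : ℕ) / 2 ^ 48) := tcu_join n4 (Pool.Agent.CXD.tX14X13T_nearBd ⟨by omega, le_trans (by norm_num) h1, le_trans h2 (by norm_num)⟩ (c4a_3 h1 h2 hT.swap (fB_sw tB)) hT) (by norm_num) (by norm_num)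
  have lm : (Lb.tl 550648146034688 562949953421312).has r := ⟨by omega, le_trans (by norm_num) h1, le_trans h2 (by norm_num)⟩
  have hx : XH (Z.m (nat_lit 530438639734205)) (Z.m (nat_lit 531348415673837)) (Z.m (nat_lit 532048696358633)) 550648146034688 562949953421312 1246431802 r x0 := (c4a_4 h1 h2 hT.swap (fB_sw tB))
  have nn : TCellU 14 13 r x0 0 ((122160139892424 : ℕ) / 2 ^ 48) := tcu_sub n5 le_rfl (by norm_num)
  exact qxS_O (by norm_num) (by norm_num) (by omega) hT.gt hT.le hx Pool.Agent.Helper81.TK.E_14_13_T_midB.T (hasP (N := 14) (by decide +kernel)) (hasP (N := 13) (by decide +kernel)) lm nn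
    (by norm_num) (by norm_num) (by norm_num) (far3 (L := 530437393302403) (H := 532049942790435) (by norm_num) (by norm_num) (by omega) (xh_rng hx (by norm_num) lm.2.1 lm.2.2 (by norm_num) (by norm_num) (by norm_num) (by norm_num) (by norm_num) (by norm_num)) (by norm_num) (by norm_num))

theorem q4b_13 {r : ℕ} (h0 : 41 ≤ r) (h1 : ((562668476710656 : ℕ) : ℝ) ≤ 2 ^ 48 * Kp r) (h2 : 2 ^ 48 * Kp r ≤ ((562949953421312 : ℕ) : ℝ)) {x0 : ℝ}
    (hT : Thr 13 14 r x0) (tB : fB 13 14 r x0 = 0) :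
    QXS 13 14 r x0 := by
  have n0 : TCellU 13 14 r x0 0 ((56294995344 : ℕ) / 2 ^ 48) := tcu_sub (Pool.Agent.CXD.tX13X14T_nearBz2 ⟨by omega, le_trans (by norm_num) h1, le_trans h2 (by norm_num)⟩ (c4b_0 h1 h2 hT tB) hT tB) (by norm_num) le_rfl
  have n1 : TCellU 13 14 r x0 0 ((109951162776 : ℕ) / 2 ^ 48) := tcu_join n0 (Pool.Agent.CXD.tX13X14T_nearBi2g ⟨by omega, le_trans (by norm_num) h1, le_trans h2 (by norm_num)⟩ (c4b_1 h1 h2 hT tB) hT tB) (by norm_num) (by norm_num)
  have n2 : TCellU 13 14 r x0 0 ((703687441776 : ℕ) / 2 ^ 48) := tcu_join n1 (Pool.Agent.CXD.tX13X14T_nearBi ⟨by omega, le_trans (by norm_num) h1, le_trans h2 (by norm_num)⟩ (c4b_2 h1 h2 hT tB) hT tB) (by norm_num) (by norm_num)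
  have n3 : TCellU 13 14 r x0 0 ((10788454124888 : ℕ) / 2 ^ 48) := tcu_join n2 (Pool.Agent.CXD.tX13X14T_nearBfg ⟨by omega, le_trans (by norm_num) h1, le_trans h2 (by norm_num)⟩ (c4b_2 h1 h2 hT tB) hT tB) (by norm_num) (by norm_num)
  have n4 : TCellU 13 14 r x0 0 ((22517998136852 : ℕ) / 2 ^ 48) := tcu_join n3 (Pool.Agent.CXD.tX13X14T_nearBd ⟨by omega, le_trans (by norm_num) h1, le_trans h2 (by norm_num)⟩ (c4b_3 h1 h2 hT tB) hT tB) (by norm_num) (by norm_num)
  have n5 : TCellU 13 14 r x0 0 ((122160139892424 : ℕ) / 2 ^ 48) := tcu_join n4 (Pool.Agent.CXD.tX13X14T_nearBc ⟨by omega, le_trans (by norm_num) h1, le_trans h2 (by norm_num)⟩ (c4b_3 h1 h2 hT tB) hT) (by norm_num) (by norm_num)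
  have lm : (Lb.tl 550648146034688 562949953421312).has r := ⟨by omega, le_trans (by norm_num) h1, le_trans h2 (by norm_num)⟩
  have hx : XH (Z.m (nat_lit 530438639734205)) (Z.m (nat_lit 531348415673837)) (Z.m (nat_lit 532048696358633)) 550648146034688 562949953421312 1246431802 r x0 := (c4b_4 h1 h2 hT tB)
  have nn : TCellU 13 14 r x0 0 ((122160139892424 : ℕ) / 2 ^ 48) := tcu_sub n5 le_rfl (by norm_num)
  exact qxS_O (by norm_num) (by norm_num) (by omega) hT.gt hT.le hx Pool.Agent.Helper81.TK.E_13_14_T_midB.T (hasP (N := 13) (by decide +kernel)) (hasP (N := 14) (by decide +kernel)) lm nn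
    (by norm_num) (by norm_num) (by norm_num) (far3 (L := 530437393302403) (H := 532049942790435) (by norm_num) (by norm_num) (by omega) (xh_rng hx (by norm_num) lm.2.1 lm.2.2 (by norm_num) (by norm_num) (by norm_num) (by norm_num) (by norm_num) (by norm_num)) (by norm_num) (by norm_num))

theorem q4b_14 {r : ℕ} (h0 : 41 ≤ r) (h1 : ((562668476710656 : ℕ) : ℝ) ≤ 2 ^ 48 * Kp r) (h2 : 2 ^ 48 * Kp r ≤ ((562949953421312 : ℕ) : ℝ)) {x0 : ℝ}
    (hT : Thr 14 13 r x0) (tB : fB 14 13 r x0 = 0) :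
    QXS 14 13 r x0 := by
  have n0 : TCellU 14 13 r x0 0 ((56294995344 : ℕ) / 2 ^ 48) := tcu_sub (Pool.Agent.CXD.tX14X13T_nearBz3 ⟨by omega, le_trans (by norm_num) h1, le_trans h2 (by norm_num)⟩ (c4b_5 h1 h2 hT.swap (fB_sw tB)) hT tB) (by norm_num) le_rfl
  have n1 : TCellU 14 13 r x0 0 ((101879725368 : ℕ) / 2 ^ 48) := tcu_join n0 (Pool.Agent.CXD.tX14X13T_nearBi2g ⟨by omega, le_trans (by norm_num) h1, le_trans h2 (by norm_num)⟩ (c4b_1 h1 h2 hT.swap (fB_sw tB)) hT tB) (by norm_num) (by norm_num)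
  have n2 : TCellU 14 13 r x0 0 ((703687441776 : ℕ) / 2 ^ 48) := tcu_join n1 (Pool.Agent.CXD.tX14X13T_nearBi ⟨by omega, le_trans (by norm_num) h1, le_trans h2 (by norm_num)⟩ (c4b_2 h1 h2 hT.swap (fB_sw tB)) hT tB) (by norm_num) (by norm_num)
  have n3 : TCellU 14 13 r x0 0 ((4222124650660 : ℕ) / 2 ^ 48) := tcu_join n2 (Pool.Agent.CXD.tX14X13T_nearBhg ⟨by omega, le_trans (by norm_num) h1, le_trans h2 (by norm_num)⟩ (c4b_6 h1 h2 hT.swap (fB_sw tB)) hT tB) (by norm_num) (by norm_num)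
  have n4 : TCellU 14 13 r x0 0 ((26235244407076 : ℕ) / 2 ^ 48) := tcu_join n3 (Pool.Agent.CXD.tX14X13T_nearBeg ⟨by omega, le_trans (by norm_num) h1, le_trans h2 (by norm_num)⟩ (c4b_7 h1 h2 hT.swap (fB_sw tB)) hT tB) (by norm_num) (by norm_num)
  have n5 : TCellU 14 13 r x0 0 ((122160139892424 : ℕ) / 2 ^ 48) := tcu_join n4 (Pool.Agent.CXD.tX14X13T_nearBd ⟨by omega, le_trans (by norm_num) h1, le_trans h2 (by norm_num)⟩ (c4b_3 h1 h2 hT.swap (fB_sw tB)) hT) (by norm_num) (by norm_num)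
  have lm : (Lb.tl 550648146034688 562949953421312).has r := ⟨by omega, le_trans (by norm_num) h1, le_trans h2 (by norm_num)⟩
  have hx : XH (Z.m (nat_lit 530438639734205)) (Z.m (nat_lit 531348415673837)) (Z.m (nat_lit 532048696358633)) 550648146034688 562949953421312 1246431802 r x0 := (c4b_4 h1 h2 hT.swap (fB_sw tB))
  have nn : TCellU 14 13 r x0 0 ((122160139892424 : ℕ) / 2 ^ 48) := tcu_sub n5 le_rfl (by norm_num)
  exact qxS_O (by norm_num) (by norm_num) (by omega) hT.gt hT.le hx Pool.Agent.Helper81.TK.E_14_13_T_midB.T (hasP (N := 14) (by decide +kernel)) (hasP (N := 13) (by decide +kernel)) lm nn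
    (by norm_num) (by norm_num) (by norm_num) (far3 (L := 530437393302403) (H := 532049942790435) (by norm_num) (by norm_num) (by omega) (xh_rng hx (by norm_num) lm.2.1 lm.2.2 (by norm_num) (by norm_num) (by norm_num) (by norm_num) (by norm_num) (by norm_num)) (by norm_num) (by norm_num))

theorem q13 {r : ℕ} (h : 41 ≤ r) {x0 : ℝ} (hT : Thr 13 14 r x0) (tB : fB 13 14 r x0 = 0) : QXS 13 14 r x0 := by
  rcases Nat.lt_or_ge r 45 with g | g
  · have l : (Lb.tl 561298146334369 561515621459832).has r := inB_ok (P := (41, 44)) (b := (561298146334369, 561515621459832)) (by decide +kernel) ⟨h, Or.inr (by omega)⟩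
    exact q1_13 h l.2.1 l.2.2 hT tB
  have l : (Lb.tl 561578635628542 562949953421312).has r := inB_ok (P := (45, 0)) (b := (561578635628542, 562949953421312)) (by decide +kernel) ⟨g, Or.inl rfl⟩
  rcases Nat.lt_or_ge r 64 with e | e
  · have u := tl_63 (by omega) (by omega : r ≤ 63)
    rcases le_total (2 ^ 48 * Kp r) ((561914399262719 : ℕ) : ℝ) with c | c
    · exact q2a_13 h l.2.1 c hT tB
    · exact q2b_13 h c u hT tB
  have u := tl_64 e
  rcases le_total (2 ^ 48 * Kp r) ((562387000000000 : ℕ) : ℝ) with c | c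
  · exact q3_13 h u c hT tB
  rcases le_total (2 ^ 48 * Kp r) ((562668476710656 : ℕ) : ℝ) with d | d
  · exact q4a_13 h c d hT tB
  · exact q4b_13 h d l.2.2 hT tB

theorem q14 {r : ℕ} (h : 41 ≤ r) {x0 : ℝ} (hT : Thr 14 13 r x0) (tB : fB 14 13 r x0 = 0) : QXS 14 13 r x0 := by
  rcases Nat.lt_or_ge r 45 with g | g
  · have l : (Lb.tl 561298146334369 561515621459832).has r := inB_ok (P := (41, 44)) (b := (561298146334369, 561515621459832)) (by decide +kernel) ⟨h, Or.inr (by omega)⟩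
    exact q1_14 h l.2.1 l.2.2 hT tB
  have l : (Lb.tl 561578635628542 562949953421312).has r := inB_ok (P := (45, 0)) (b := (561578635628542, 562949953421312)) (by decide +kernel) ⟨g, Or.inl rfl⟩
  rcases Nat.lt_or_ge r 64 with e | e
  · have u := tl_63 (by omega) (by omega : r ≤ 63)
    rcases le_total (2 ^ 48 * Kp r) ((561914399262719 : ℕ) : ℝ) with c | c
    · exact q2a_14 h l.2.1 c hT tB
    · exact q2b_14 h c u hT tB
  have u := tl_64 e
  rcases le_total (2 ^ 48 * Kp r) ((562387000000000 : ℕ) : ℝ) with c | c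
  · exact q3_14 h u c hT tB
  rcases le_total (2 ^ 48 * Kp r) ((562668476710656 : ℕ) : ℝ) with d | d
  · exact q4a_14 h c d hT tB
  · exact q4b_14 h d l.2.2 hT tB

theorem ft {r : ℕ} (h : 41 ≤ r) : FinAt 13 14 r :=
  row_Bc (by norm_num) (by norm_num) (by omega) (by omega)
    (fun hZ => Pool.Agent.Helper57.XL.cert_13_14 (by omega) hZ)
    (fun x0 hT tB => q13 h hT tB) (fun x0 hT tB => q14 h hT.swap (fB_sw tB))

/-- the row `(13, 14, r)` -/
theorem row_13_14 : ∀ r, 15 ≤ r → FinAt 13 14 r := by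
  intro r hr
  rcases Nat.lt_or_ge r 41 with g | g
  swap
  · exact ft g
  rcases (by omega : r = 15 ∨ r = 16 ∨ r = 17 ∨ r = 18 ∨ r = 19 ∨ r = 20 ∨ r = 21 ∨ r = 22 ∨ r = 23 ∨ r = 24 ∨ r = 25 ∨ r = 26 ∨ r = 27 ∨ r = 28 ∨ r = 29 ∨ r = 30 ∨ r = 31 ∨ r = 32 ∨ r = 33 ∨ r = 34 ∨ r = 35 ∨ r = 36 ∨ r = 37 ∨ r = 38 ∨ r = 39 ∨ r = 40) with rfl | rfl | rfl | rfl | rfl | rfl | rfl | rfl | rfl | rfl | rfl | rfl | rfl | rfl | rfl | rfl | rfl | rfl | rfl | rfl | rfl | rfl | rfl | rfl | rfl | rfl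
  · exact E13_14_15.fe
  · exact E13_14_16.fe
  · exact E13_14_17.fe
  · exact E13_14_18.fe
  · exact E13_14_19.fe
  · exact E13_14_20.fe
  · exact E13_14_21.fe
  · exact E13_14_22.fe
  · exact E13_14_23.fe
  · exact E13_14_24.fe
  · exact E13_14_25.fe
  · exact E13_14_26.fe
  · exact E13_14_27.fe
  · exact E13_14_28.fe
  · exact E13_14_29.fe
  · exact E13_14_30.fe
  · exact E13_14_31.fe
  · exact E13_14_32.fe
  · exact E13_14_33.fe
  · exact E13_14_34.fe
  · exact E13_14_35.fe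
  · exact E13_14_36.fe
  · exact E13_14_37.fe
  · exact E13_14_38.fe
  · exact E13_14_39.fe
  · exact E13_14_40.fe

end Pool.Agent.Helper81.HD.R13_14
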