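import Pool.Agent.CXD.M_G13_0
import Pool.Agent.CXD.M_G13_5
import Pool.Agent.CXD.M_G13_9
import Pool.Agent.CXD.M_G13_10
import Pool.Agent.CXD.M_G13_11
import Pool.Agent.CXD.M_G13_12
import Pool.Agent.Helper81.MIT.HDl
import Pool.Agent.Helper81.MIT.PtN4
import Pool.Agent.Helper81.TK.GD1
import Pool.Agent.Helper81.TK.GD3

/-!
Single triples: near cells, middle cells and the far part.
-/

set_option autoImplicit false
set_option exponentiation.threshold 4000
noncomputable section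
namespace Pool.Agent.Helper81.HD

open Pool.Agent.Helper81.MIT
open Pool.Agent.Helper6.MONO (FinAt)
open Pool.Agent.Helper57.U2 (TCellU)
open Pool.Agent.Helper84.ST (QXS)
open Pool.Agent.Helper6.CXT (ln0 ln1)

/-- the triple `(13, 13, 13)` -/
theorem hd_13_13_13 : FinAt 13 13 13 := by
  refine z_13_13_13 fun x0 hX0 hT tB => ?_
  have hX : |2 ^ 48 * x0 - (-((529458346935868 : ℕ) : ℝ))| ≤ ((64 : ℕ) : ℝ) := by simpa using hX0
  have hz := zvX hX
  have n0_0 : TCellU 13 13 13 x0 0 ((1266637395196 : ℕ) / 2 ^ 48) := tcu_sub (TCellU.of_t (Pool.Agent.CXD.tX13_X13_X13_near_Bt hz hT tB)) (by norm_num) le_rfl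
  have n0_1 : TCellU 13 13 13 x0 0 ((2251799813684 : ℕ) / 2 ^ 48) := tcu_join n0_0 (TCellU.of_t (Pool.Agent.CXD.tX13_X13_X13_near_B hz hT tB)) (by norm_num) (by norm_num)
  have n0_2 : TCellU 13 13 13 x0 0 ((8444249301320 : ℕ) / 2 ^ 48) := tcu_join n0_1 (TCellU.of_t (Pool.Agent.CXD.tX13_X13_X13_near_h hz hT)) (by norm_num) (by norm_num)
  have n0_3 : TCellU 13 13 13 x0 0 ((122160139892424 : ℕ) / 2 ^ 48) := tcu_join n0_2 (TCellU.of_t (Pool.Agent.CXD.tX13_X13_X13_near_g hz hT)) (by norm_num) (by norm_num)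
  have h0 : QXS 13 13 13 x0 := qxS_pt (by norm_num) (by norm_num) (by norm_num) hT hX Pool.Agent.Helper81.TK.E_13_13_13_mid.T (hasP (N := 13) (by decide +kernel)) (hasP (N := 13) (by decide +kernel)) (hasP (N := 13) (by decide +kernel)) n0_3
    (by norm_num) (by norm_num) (by norm_num) (FarI_three (p := 13) (lo := 450359962737050) (hi := 537617205517353) (by norm_num) (by norm_num) (by norm_num)) (by norm_num) (by norm_num)
  exact zf_QS1 (by norm_num) (by norm_num) (by norm_num) hT h0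

/-- the triple `(13, 13, 14)` -/
theorem hd_13_13_14 : FinAt 13 13 14 := by
  refine z_13_13_14 fun x0 hX0 hT tB => ?_
  have hX : |2 ^ 48 * x0 - (-((529809469146156 : ℕ) : ℝ))| ≤ ((64 : ℕ) : ℝ) := by simpa using hX0
  have hz := zvX hX
  have n0_0 : TCellU 13 13 14 x0 0 ((2251799813684 : ℕ) / 2 ^ 48) := tcu_sub (TCellU.of_t (Pool.Agent.CXD.tX13_X13_X14_near_B hz hT tB)) (by norm_num) le_rfl
  have n0_1 : TCellU 13 13 14 x0 0 ((8444249301320 : ℕ) / 2 ^ 48) := tcu_join n0_0 (TCellU.of_t (Pool.Agent.CXD.tX13_X13_X14_near_h hz hT)) (by norm_num) (by norm_num)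
  have n0_2 : TCellU 13 13 14 x0 0 ((122160139892424 : ℕ) / 2 ^ 48) := tcu_join n0_1 (TCellU.of_t (Pool.Agent.CXD.tX13_X13_X14_near_g hz hT)) (by norm_num) (by norm_num)
  have h0 : QXS 13 13 14 x0 := qxS_pt (by norm_num) (by norm_num) (by norm_num) hT hX Pool.Agent.Helper81.TK.E_13_13_14_mid.T (hasP (N := 13) (by decide +kernel)) (hasP (N := 13) (by decide +kernel)) (hasP (N := 14) (by decide +kernel)) n0_2
    (by norm_num) (by norm_num) (by norm_num) (FarI_three (p := 13) (lo := 450359962737050) (hi := 537617205517353) (by norm_num) (by norm_num) (by norm_num)) (by norm_num) (by norm_num)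
  exact zf_QS1 (by norm_num) (by norm_num) (by norm_num) hT h0

/-- the triple `(13, 14, 14)` -/
theorem hd_13_14_14 : FinAt 13 14 14 := by
  refine z_13_14_14 fun x0 hX0 hT tB => ?_
  have hX : |2 ^ 48 * x0 - (-((530164132712317 : ℕ) : ℝ))| ≤ ((64 : ℕ) : ℝ) := by simpa using hX0
  have hz := zvX hX
  have n0_0 : TCellU 13 14 14 x0 0 ((2251799813684 : ℕ) / 2 ^ 48) := tcu_sub (TCellU.of_t (Pool.Agent.CXD.tX13_X14_X14_near_B hz hT tB)) (by norm_num) le_rfl
  have n0_1 : TCellU 13 14 14 x0 0 ((8444249301320 : ℕ) / 2 ^ 48) := tcu_join n0_0 (TCellU.of_t (Pool.Agent.CXD.tX13_X14_X14_near_h hz hT)) (by norm_num) (by norm_num)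
  have n0_2 : TCellU 13 14 14 x0 0 ((122160139892424 : ℕ) / 2 ^ 48) := tcu_join n0_1 (TCellU.of_t (Pool.Agent.CXD.tX13_X14_X14_near_g hz hT)) (by norm_num) (by norm_num)
  have h0 : QXS 13 14 14 x0 := qxS_pt (by norm_num) (by norm_num) (by norm_num) hT hX Pool.Agent.Helper81.TK.E_13_14_14_mid.T (hasP (N := 13) (by decide +kernel)) (hasP (N := 14) (by decide +kernel)) (hasP (N := 14) (by decide +kernel)) n0_2
    (by norm_num) (by norm_num) (by norm_num) (FarI_three (p := 13) (lo := 450359962737050) (hi := 537617205517353) (by norm_num) (by norm_num) (by norm_num)) (by norm_num) (by norm_num)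
  exact zf_QS2 (by norm_num) (by norm_num) (by norm_num) hT h0

/-- the triple `(13, 15, 15)` -/
theorem hd_13_15_15 : FinAt 13 15 15 := by
  refine z_13_15_15 fun x0 hX0 hT tB => ?_
  have hX : |2 ^ 48 * x0 - (-((530715469151215 : ℕ) : ℝ))| ≤ ((64 : ℕ) : ℝ) := by simpa using hX0
  have hz := zvX hX
  have n0_0 : TCellU 13 15 15 x0 0 ((1266637395196 : ℕ) / 2 ^ 48) := tcu_sub (TCellU.of_t (Pool.Agent.CXD.tX13_X15_X15_near_Bt hz hT tB)) (by norm_num) le_rfl
  have n0_1 : TCellU 13 15 15 x0 0 ((2251799813684 : ℕ) / 2 ^ 48) := tcu_join n0_0 (TCellU.of_t (Pool.Agent.CXD.tX13_X15_X15_near_B hz hT tB)) (by norm_num) (by norm_num)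
  have n0_2 : TCellU 13 15 15 x0 0 ((8444249301320 : ℕ) / 2 ^ 48) := tcu_join n0_1 (TCellU.of_t (Pool.Agent.CXD.tX13_X15_X15_near_h hz hT)) (by norm_num) (by norm_num)
  have n0_3 : TCellU 13 15 15 x0 0 ((122160139892424 : ℕ) / 2 ^ 48) := tcu_join n0_2 (TCellU.of_t (Pool.Agent.CXD.tX13_X15_X15_near_g hz hT)) (by norm_num) (by norm_num)
  have h0 : QXS 13 15 15 x0 := qxS_pt (by norm_num) (by norm_num) (by norm_num) hT hX Pool.Agent.Helper81.TK.E_13_15_15_mid.T (hasP (N := 13) (by decide +kernel)) (hasP (N := 15) (by decide +kernel)) (hasP (N := 15) (by decide +kernel)) n0_3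
    (by norm_num) (by norm_num) (by norm_num) (FarI_three (p := 13) (lo := 450359962737050) (hi := 537617205517353) (by norm_num) (by norm_num) (by norm_num)) (by norm_num) (by norm_num)
  exact zf_QS2 (by norm_num) (by norm_num) (by norm_num) hT h0

/-- the triple `(13, 15, 16)` -/
theorem hd_13_15_16 : FinAt 13 15 16 := by
  refine z_13_15_16 fun x0 hX0 hT tB => ?_
  have hX : |2 ^ 48 * x0 - (-((530934612679563 : ℕ) : ℝ))| ≤ ((64 : ℕ) : ℝ) := by simpa using hX0
  have hz := zvX hX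
  have n0_0 : TCellU 13 15 16 x0 0 ((2251799813684 : ℕ) / 2 ^ 48) := tcu_sub (TCellU.of_t (Pool.Agent.CXD.tX13_X15_X16_near_Bt hz hT tB)) (by norm_num) le_rfl
  have n0_1 : TCellU 13 15 16 x0 0 ((8444249301320 : ℕ) / 2 ^ 48) := tcu_join n0_0 (TCellU.of_t (Pool.Agent.CXD.tX13_X15_X16_near_h hz hT)) (by norm_num) (by norm_num)
  have n0_2 : TCellU 13 15 16 x0 0 ((122160139892424 : ℕ) / 2 ^ 48) := tcu_join n0_1 (TCellU.of_t (Pool.Agent.CXD.tX13_X15_X16_near_g hz hT)) (by norm_num) (by norm_num)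
  have h0 : QXS 13 15 16 x0 := qxS_pt (by norm_num) (by norm_num) (by norm_num) hT hX Pool.Agent.Helper81.TK.E_13_15_16_mid.T (hasP (N := 13) (by decide +kernel)) (hasP (N := 15) (by decide +kernel)) (hasP (N := 16) (by decide +kernel)) n0_2
    (by norm_num) (by norm_num) (by norm_num) (FarI_three (p := 13) (lo := 450359962737050) (hi := 537617205517353) (by norm_num) (by norm_num) (by norm_num)) (by norm_num) (by norm_num)
  have n1_0 : TCellU 13 16 15 x0 0 ((1688849860264 : ℕ) / 2 ^ 48) := tcu_sub (TCellU.of_t (Pool.Agent.CXD.tX13_X16_X15_near_Bt hz (thr_mir hT) (fB_mi tB))) (by norm_num) le_rfl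
  have n1_1 : TCellU 13 16 15 x0 0 ((2251799813684 : ℕ) / 2 ^ 48) := tcu_join n1_0 (TCellU.of_t (Pool.Agent.CXD.tX13_X16_X15_near_B hz (thr_mir hT) (fB_mi tB))) (by norm_num) (by norm_num)
  have n1_2 : TCellU 13 16 15 x0 0 ((8444249301320 : ℕ) / 2 ^ 48) := tcu_join n1_1 (TCellU.of_t (Pool.Agent.CXD.tX13_X16_X15_near_h hz (thr_mir hT))) (by norm_num) (by norm_num)
  have n1_3 : TCellU 13 16 15 x0 0 ((122160139892424 : ℕ) / 2 ^ 48) := tcu_join n1_2 (TCellU.of_t (Pool.Agent.CXD.tX13_X16_X15_near_g hz (thr_mir hT))) (by norm_num) (by norm_num)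
  have h1 : QXS 13 16 15 x0 := qxS_pt (by norm_num) (by norm_num) (by norm_num) (thr_mir hT) hX Pool.Agent.Helper81.TK.E_13_16_15_mid.T (hasP (N := 13) (by decide +kernel)) (hasP (N := 16) (by decide +kernel)) (hasP (N := 15) (by decide +kernel)) n1_3
    (by norm_num) (by norm_num) (by norm_num) (FarI_three (p := 13) (lo := 450359962737050) (hi := 537617205517353) (by norm_num) (by norm_num) (by norm_num)) (by norm_num) (by norm_num)
  exact zf_QS (by norm_num) (by norm_num) (by norm_num) (by norm_num) hT h0 h1.rot2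

/-- the triple `(13, 15, 17)` -/
theorem hd_13_15_17 : FinAt 13 15 17 := by
  refine z_13_15_17 fun x0 hX0 hT tB => ?_
  have hX : |2 ^ 48 * x0 - (-((531111323600136 : ℕ) : ℝ))| ≤ ((64 : ℕ) : ℝ) := by simpa using hX0
  have hz := zvX hX
  have n0_0 : TCellU 13 15 17 x0 0 ((1688849860264 : ℕ) / 2 ^ 48) := tcu_sub (TCellU.of_t (Pool.Agent.CXD.tX13_X15_X17_near_Bt hz hT tB)) (by norm_num) le_rfl
  have n0_1 : TCellU 13 15 17 x0 0 ((2251799813684 : ℕ) / 2 ^ 48) := tcu_join n0_0 (TCellU.of_t (Pool.Agent.CXD.tX13_X15_X17_near_B hz hT tB)) (by norm_num) (by norm_num)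
  have n0_2 : TCellU 13 15 17 x0 0 ((8444249301320 : ℕ) / 2 ^ 48) := tcu_join n0_1 (TCellU.of_t (Pool.Agent.CXD.tX13_X15_X17_near_h hz hT)) (by norm_num) (by norm_num)
  have n0_3 : TCellU 13 15 17 x0 0 ((122160139892424 : ℕ) / 2 ^ 48) := tcu_join n0_2 (TCellU.of_t (Pool.Agent.CXD.tX13_X15_X17_near_g hz hT)) (by norm_num) (by norm_num)
  have h0 : QXS 13 15 17 x0 := qxS_pt (by norm_num) (by norm_num) (by norm_num) hT hX Pool.Agent.Helper81.TK.E_13_15_17_mid.T (hasP (N := 13) (by decide +kernel)) (hasP (N := 15) (by decide +kernel)) (hasP (N := 17) (by decide +kernel)) n0_3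
    (by norm_num) (by norm_num) (by norm_num) (FarI_three (p := 13) (lo := 450359962737050) (hi := 537617205517353) (by norm_num) (by norm_num) (by norm_num)) (by norm_num) (by norm_num)
  have n1_0 : TCellU 13 17 15 x0 0 ((1266637395196 : ℕ) / 2 ^ 48) := tcu_sub (TCellU.of_t (Pool.Agent.CXD.tX13_X17_X15_near_Bt hz (thr_mir hT) (fB_mi tB))) (by norm_num) le_rfl
  have n1_1 : TCellU 13 17 15 x0 0 ((2251799813684 : ℕ) / 2 ^ 48) := tcu_join n1_0 (TCellU.of_t (Pool.Agent.CXD.tX13_X17_X15_near_B hz (thr_mir hT) (fB_mi tB))) (by norm_num) (by norm_num)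
  have n1_2 : TCellU 13 17 15 x0 0 ((8444249301320 : ℕ) / 2 ^ 48) := tcu_join n1_1 (TCellU.of_t (Pool.Agent.CXD.tX13_X17_X15_near_h hz (thr_mir hT))) (by norm_num) (by norm_num)
  have n1_3 : TCellU 13 17 15 x0 0 ((122160139892424 : ℕ) / 2 ^ 48) := tcu_join n1_2 (TCellU.of_t (Pool.Agent.CXD.tX13_X17_X15_near_g hz (thr_mir hT))) (by norm_num) (by norm_num)
  have h1 : QXS 13 17 15 x0 := qxS_pt (by norm_num) (by norm_num) (by norm_num) (thr_mir hT) hX Pool.Agent.Helper81.TK.E_13_17_15_mid.T (hasP (N := 13) (by decide +kernel)) (hasP (N := 17) (by decide +kernel)) (hasP (N := 15) (by decide +kernel)) n1_3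
    (by norm_num) (by norm_num) (by norm_num) (FarI_three (p := 13) (lo := 450359962737050) (hi := 537617205517353) (by norm_num) (by norm_num) (by norm_num)) (by norm_num) (by norm_num)
  exact zf_QS (by norm_num) (by norm_num) (by norm_num) (by norm_num) hT h0 h1.rot2

/-- the triple `(13, 16, 16)` -/
theorem hd_13_16_16 : FinAt 13 16 16 := by
  refine z_13_16_16 fun x0 hX0 hT tB => ?_
  have hX : |2 ^ 48 * x0 - (-((531155317219939 : ℕ) : ℝ))| ≤ ((64 : ℕ) : ℝ) := by simpa using hX0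
  have hz := zvX hX
  have n0_0 : TCellU 13 16 16 x0 0 ((1266637395196 : ℕ) / 2 ^ 48) := tcu_sub (TCellU.of_t (Pool.Agent.CXD.tX13_X16_X16_near_Bt hz hT tB)) (by norm_num) le_rfl
  have n0_1 : TCellU 13 16 16 x0 0 ((2251799813684 : ℕ) / 2 ^ 48) := tcu_join n0_0 (TCellU.of_t (Pool.Agent.CXD.tX13_X16_X16_near_B hz hT tB)) (by norm_num) (by norm_num)
  have n0_2 : TCellU 13 16 16 x0 0 ((8444249301320 : ℕ) / 2 ^ 48) := tcu_join n0_1 (TCellU.of_t (Pool.Agent.CXD.tX13_X16_X16_near_h hz hT)) (by norm_num) (by norm_num)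
  have n0_3 : TCellU 13 16 16 x0 0 ((122160139892424 : ℕ) / 2 ^ 48) := tcu_join n0_2 (TCellU.of_t (Pool.Agent.CXD.tX13_X16_X16_near_g hz hT)) (by norm_num) (by norm_num)
  have h0 : QXS 13 16 16 x0 := qxS_pt (by norm_num) (by norm_num) (by norm_num) hT hX Pool.Agent.Helper81.TK.E_13_16_16_mid.T (hasP (N := 13) (by decide +kernel)) (hasP (N := 16) (by decide +kernel)) (hasP (N := 16) (by decide +kernel)) n0_3
    (by norm_num) (by norm_num) (by norm_num) (FarI_three (p := 13) (lo := 450359962737050) (hi := 537617205517353) (by norm_num) (by norm_num) (by norm_num)) (by norm_num) (by norm_num)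
  exact zf_QS2 (by norm_num) (by norm_num) (by norm_num) hT h0

end Pool.Agent.Helper81.HD
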