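import Pool.Agent.Helper81.MIT.Top7
import Pool.Agent.Helper81.HD.T13
import Pool.Agent.Helper81.HD.R13_13
import Pool.Agent.Helper81.HD.R13_14

/-!
The exceptional orders of the class `13`: single triples and rows.
-/

set_option autoImplicit false
noncomputable section
namespace Pool.Agent.Helper81.HD

open Pool.Agent.Helper81.MIT
open Pool.Agent.Helper30.W2 (Dt inT)

theorem hds_13 : HDS 13 := by
  intro q r hq hpq hqr h
  obtain ⟨t, ht, hi⟩ := h
  simp only [Dt, List.mem_cons, List.not_mem_nil, or_false] at ht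
  rcases ht with rfl | rfl | rfl | rfl | rfl
  · have k := inT_b hi
    rcases (by omega : (q = 13 ∧ r = 13) ∨ (q = 13 ∧ r = 14)) with ⟨rfl, rfl⟩ | ⟨rfl, rfl⟩
    · exact hd_13_13_13
    · exact hd_13_13_14
  · have k := inT_b hi
    rcases (by omega : (q = 14 ∧ r = 14)) with ⟨rfl, rfl⟩
    · exact hd_13_14_14
  · have k := inT_b hi
    rcases (by omega : (q = 15 ∧ r = 15) ∨ (q = 15 ∧ r = 16) ∨ (q = 15 ∧ r = 17)) with ⟨rfl, rfl⟩ | ⟨rfl, rfl⟩ | ⟨rfl, rfl⟩
    · exact hd_13_15_15
    · exact hd_13_15_16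
    · exact hd_13_15_17
  · have k := inT_b hi
    rcases (by omega : (q = 16 ∧ r = 16)) with ⟨rfl, rfl⟩
    · exact hd_13_16_16
  · have k := inT_b hi
    rcases (by omega : q = 13 ∨ q = 14) with rfl | rfl
    · exact R13_13.row_13_13 r (by omega)
    · exact R13_14.row_13_14 r (by omega)

end Pool.Agent.Helper81.HD
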