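import Pool.Agent.CXD.M_9_X12_T_0
import Pool.Agent.CXD.M_9_X12_T_1
import Pool.Agent.CXD.M_X12_9_T_0
import Pool.Agent.CXD.M_X12_9_T_1
import Pool.Agent.CXD.M_X12_9_T_2
import Pool.Agent.Helper81.MIT.SubX
import Pool.Agent.Helper81.TK.GR1

/-!
The row `(9, 12, r)`, `r` at least `15`.
-/

set_option autoImplicit false
set_option exponentiation.threshold 4000
noncomputable section
namespace Pool.Agent.Helper81.HD.R9_12

open Pool.Agent.Helper81.MIT
open Pool.Agent.Helper6.MONO (Thr fB xA FinAt Kp)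
open Pool.Agent.Helper57.U2 (TCellU)
open Pool.Agent.Helper84.ST (QXS)
open Pool.Agent.Helper84.XL (XH)
open Pool.Agent.Helper86.C75 (Z)
open Pool.Agent.Helper90.KMO (zv)
open Pool.Agent.Helper21.KTE (KS)
open Pool.Agent.Helper57.XL (chkX hX_of okx)


theorem nA151_15 {r : ℕ} (h1 : 15 ≤ r) (h2 : r ≤ 17) : TCellU 9 12 r (xA 9 12 r) 0 ((122160139892424 : ℕ) / 2 ^ 48) := by
  have k0 : TCellU 9 12 r (xA 9 12 r) 0 ((161457007932 : ℕ) / 2 ^ 48) := tcu_sub (Pool.Agent.CXD.t9X12T_nearu1 (inB_ok (P := (15, 17)) (b := (550648146034688, 553661279240192)) (by decide +kernel) ⟨h1, Or.inr h2⟩) (by omega) (by omega)) (by norm_num) le_rfl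
  have k1 : TCellU 9 12 r (xA 9 12 r) 0 ((122160139892424 : ℕ) / 2 ^ 48) := tcu_join k0 (Pool.Agent.CXD.t9X12T_nearu (inB_ok (P := (15, 17)) (b := (550648146034688, 556757503967232)) (by decide +kernel) ⟨h1, Or.inr h2⟩) (by omega) (by omega)) (by norm_num) (by norm_num)
  exact tcu_sub k1 le_rfl (by norm_num)

theorem nA151_18 {r : ℕ} (h1 : 18 ≤ r) (h2 : r ≤ 21) : TCellU 9 12 r (xA 9 12 r) 0 ((122160139892424 : ℕ) / 2 ^ 48) := by
  have k0 : TCellU 9 12 r (xA 9 12 r) 0 ((161457007932 : ℕ) / 2 ^ 48) := tcu_sub (Pool.Agent.CXD.t9X12T_nearu2 (inB_ok (P := (18, 21)) (b := (553661279240192, 556757503967232)) (by decide +kernel) ⟨h1, Or.inr h2⟩) (by omega) (by omega)) (by norm_num) le_rfl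
  have k1 : TCellU 9 12 r (xA 9 12 r) 0 ((122160139892424 : ℕ) / 2 ^ 48) := tcu_join k0 (Pool.Agent.CXD.t9X12T_nearu (inB_ok (P := (18, 21)) (b := (550648146034688, 556757503967232)) (by decide +kernel) ⟨h1, Or.inr h2⟩) (by omega) (by omega)) (by norm_num) (by norm_num)
  exact tcu_sub k1 le_rfl (by norm_num)

theorem nA151_22 {r : ℕ} (h1 : 22 ≤ r) : TCellU 9 12 r (xA 9 12 r) 0 ((122160139892424 : ℕ) / 2 ^ 48) := by
  have k0 : TCellU 9 12 r (xA 9 12 r) 0 ((122160139892424 : ℕ) / 2 ^ 48) := tcu_sub (Pool.Agent.CXD.t9X12T_nearv (inB_ok (P := (22, 0)) (b := (556757503967232, 562949953421312)) (by decide +kernel) ⟨h1, Or.inl rfl⟩) (by omega) (by omega)) (by norm_num) le_rfl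
  exact tcu_sub k0 le_rfl (by norm_num)

theorem nA151 {r : ℕ} (h1 : 15 ≤ r) : TCellU 9 12 r (xA 9 12 r) 0 ((122160139892424 : ℕ) / 2 ^ 48) := by
  rcases Nat.lt_or_ge r 18 with g | g
  · exact nA151_15 (by omega) (by omega)
  rcases Nat.lt_or_ge r 22 with g | g
  · exact nA151_18 (by omega) (by omega)
  exact nA151_22 (by omega)

theorem qA151 {r : ℕ} (h1 : 15 ≤ r) : QXS 9 12 r (xA 9 12 r) :=
  qxS_A (by norm_num) (by norm_num) (by omega) (by omega) Pool.Agent.Helper81.TK.E_9_12_T_mid2.T ⟨rfl, by norm_num, by norm_num⟩ (hasP (N := 12) (by decide +kernel)) (inB_ok (P := (15, 0)) (b := (550648146034688, 562949953421312)) (by decide +kernel) ⟨h1, Or.inl rfl⟩) (nA151 h1)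
    (by norm_num) (by norm_num) (by norm_num) (far9 (L := 504272163520393) (H := 522390160390986) (by norm_num) (by omega) (xaB_ok (lo := 504272163520393) (hi := 522390160390986) (i := (9, 9)) (j := (12, 12)) (k := (15, 0)) (by decide +kernel) ⟨le_rfl, Or.inr le_rfl⟩ ⟨le_rfl, Or.inr le_rfl⟩ ⟨h1, Or.inl rfl⟩) (by norm_num) (by norm_num))

theorem nA152_15 {r : ℕ} (h1 : 15 ≤ r) (h2 : r ≤ 17) : TCellU 12 9 r (xA 12 9 r) 0 ((122160139892424 : ℕ) / 2 ^ 48) := by
  have k0 : TCellU 12 9 r (xA 12 9 r) 0 ((7097206830560 : ℕ) / 2 ^ 48) := tcu_sub (Pool.Agent.CXD.tX129T_nearu1 (inB_ok (P := (15, 17)) (b := (550648146034688, 553661279240192)) (by decide +kernel) ⟨h1, Or.inr h2⟩) (by omega) (by omega)) (by norm_num) le_rfl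
  have k1 : TCellU 12 9 r (xA 12 9 r) 0 ((122160139892424 : ℕ) / 2 ^ 48) := tcu_join k0 (Pool.Agent.CXD.tX129T_nearu (inB_ok (P := (15, 17)) (b := (550648146034688, 556757503967232)) (by decide +kernel) ⟨h1, Or.inr h2⟩) (by omega) (by omega)) (by norm_num) (by norm_num)
  exact tcu_sub k1 le_rfl (by norm_num)

theorem nA152_18 {r : ℕ} (h1 : 18 ≤ r) (h2 : r ≤ 21) : TCellU 12 9 r (xA 12 9 r) 0 ((122160139892424 : ℕ) / 2 ^ 48) := by
  have k0 : TCellU 12 9 r (xA 12 9 r) 0 ((7097206830560 : ℕ) / 2 ^ 48) := tcu_sub (Pool.Agent.CXD.tX129T_nearu2 (inB_ok (P := (18, 21)) (b := (553661278978048, 556757503967232)) (by decide +kernel) ⟨h1, Or.inr h2⟩) (by omega) (by omega)) (by norm_num) le_rfl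
  have k1 : TCellU 12 9 r (xA 12 9 r) 0 ((122160139892424 : ℕ) / 2 ^ 48) := tcu_join k0 (Pool.Agent.CXD.tX129T_nearu (inB_ok (P := (18, 21)) (b := (550648146034688, 556757503967232)) (by decide +kernel) ⟨h1, Or.inr h2⟩) (by omega) (by omega)) (by norm_num) (by norm_num)
  exact tcu_sub k1 le_rfl (by norm_num)

theorem nA152_22 {r : ℕ} (h1 : 22 ≤ r) : TCellU 12 9 r (xA 12 9 r) 0 ((122160139892424 : ℕ) / 2 ^ 48) := by
  have k0 : TCellU 12 9 r (xA 12 9 r) 0 ((122160139892424 : ℕ) / 2 ^ 48) := tcu_sub (Pool.Agent.CXD.tX129T_nearv (inB_ok (P := (22, 0)) (b := (556757503967232, 562949953421312)) (by decide +kernel) ⟨h1, Or.inl rfl⟩) (by omega) (by omega)) (by norm_num) le_rfl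
  exact tcu_sub k0 le_rfl (by norm_num)

theorem nA152 {r : ℕ} (h1 : 15 ≤ r) : TCellU 12 9 r (xA 12 9 r) 0 ((122160139892424 : ℕ) / 2 ^ 48) := by
  rcases Nat.lt_or_ge r 18 with g | g
  · exact nA152_15 (by omega) (by omega)
  rcases Nat.lt_or_ge r 22 with g | g
  · exact nA152_18 (by omega) (by omega)
  exact nA152_22 (by omega)

theorem qA152 {r : ℕ} (h1 : 15 ≤ r) : QXS 12 9 r (xA 12 9 r) :=
  qxS_A (by norm_num) (by norm_num) (by omega) (by omega) Pool.Agent.Helper81.TK.E_12_9_T_mid2.T (hasP (N := 12) (by decide +kernel)) ⟨rfl, by norm_num, by norm_num⟩ (inB_ok (P := (15, 0)) (b := (550648146034688, 562949953421312)) (by decide +kernel) ⟨h1, Or.inl rfl⟩) (nA152 h1)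
    (by norm_num) (by norm_num) (by norm_num) (far9m (L := 504272163520393) (H := 522390160390986) (by norm_num) (by omega) (xaB_ok (lo := 504272163520393) (hi := 522390160390986) (i := (12, 12)) (j := (9, 9)) (k := (15, 0)) (by decide +kernel) ⟨le_rfl, Or.inr le_rfl⟩ ⟨le_rfl, Or.inr le_rfl⟩ ⟨h1, Or.inl rfl⟩) (by norm_num) (by norm_num))

theorem fA15 {r : ℕ} (h1 : 15 ≤ r) : FinAt 9 12 r :=
  row_Ac (by norm_num) (by norm_num) (by omega) (by omega) (qA151 h1) (qA152 h1)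

/-- the row `(9, 12, r)` -/
theorem row_9_12 : ∀ r, 15 ≤ r → FinAt 9 12 r := by
  intro r hr
  exact fA15 (by omega)

end Pool.Agent.Helper81.HD.R9_12
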