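import Pool.Agent.CXD.M_G9_0
import Pool.Agent.CXD.M_G9_1
import Pool.Agent.CXD.M_G9_2
import Pool.Agent.Helper81.MIT.HDl
import Pool.Agent.Helper81.MIT.PtN
import Pool.Agent.Helper81.MIT.PtN5
import Pool.Agent.Helper81.TK.GD1

/-!
Single triples: near cells, middle cells and the far part.
-/

set_option autoImplicit false
set_option exponentiation.threshold 4000
noncomputable section
namespace Pool.Agent.Helper81.HD

open Pool.Agent.Helper81.MIT
open Pool.Agent.Helper6.MONO (FinAt)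
open Pool.Agent.Helper57.U2 (TCellU)
open Pool.Agent.Helper84.ST (QXS)
open Pool.Agent.Helper6.CXT (ln0 ln1)

/-- the triple `(9, 10, 10)` -/
theorem hd_9_10_10 : FinAt 9 10 10 := by
  refine z60_9_10_10 fun x0 hX0 hT => ?_
  have hX : |2 ^ 48 * x0 - (-((513188308445256 : ℕ) : ℝ))| ≤ ((64 : ℕ) : ℝ) := by push_cast; exact hX0.trans (by norm_num)
  have hz := zvX hX
  have n0_0 : TCellU 9 10 10 x0 0 ((8484218748012 : ℕ) / 2 ^ 48) := tcu_sub (Pool.Agent.CXD.t9X10_X10_neara hz hT) (by norm_num) le_rfl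
  have n0_1 : TCellU 9 10 10 x0 0 ((122160139892424 : ℕ) / 2 ^ 48) := tcu_join n0_0 (Pool.Agent.CXD.t9X10_X10_nearb (zvX (by rw [abs_le] at hX0 ⊢; push_cast; constructor <;> linarith [hX0.1, hX0.2])) hT) (by norm_num) (by norm_num)
  have h0 : QXS 9 10 10 x0 := qxS_pt (by norm_num) (by norm_num) (by norm_num) hT hX Pool.Agent.Helper81.TK.E_9_10_10_mid.T ⟨rfl, by norm_num, by norm_num⟩ (hasP (N := 10) (by decide +kernel)) (hasP (N := 10) (by decide +kernel)) n0_1
    (by norm_num) (by norm_num) (by norm_num) (FarI_two (p := 9) (lo := 475692710641009) (hi := 534802455750246) (by norm_num) (by norm_num) (by norm_num [ln0]) (by norm_num [ln1]) (by norm_num)) (by norm_num) (by norm_num)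
  exact zf_QS2 (by norm_num) (by norm_num) (by norm_num) hT h0

/-- the triple `(9, 10, 11)` -/
theorem hd_9_10_11 : FinAt 9 10 11 := by
  refine z_9_10_11 fun x0 hX0 hT => ?_
  have hX : |2 ^ 48 * x0 - (-((511321456285798 : ℕ) : ℝ))| ≤ ((64 : ℕ) : ℝ) := by simpa using hX0
  have hz := zvX hX
  have n0_0 : TCellU 9 10 11 x0 0 ((5903656161528 : ℕ) / 2 ^ 48) := tcu_sub (Pool.Agent.CXD.t9X10_X11_neara hz hT) (by norm_num) le_rfl
  have n0_1 : TCellU 9 10 11 x0 0 ((35516512561352 : ℕ) / 2 ^ 48) := tcu_join n0_0 (Pool.Agent.CXD.t9X10_X11_nearb hz hT) (by norm_num) (by norm_num)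
  have n0_2 : TCellU 9 10 11 x0 0 ((122160139892424 : ℕ) / 2 ^ 48) := tcu_join n0_1 (Pool.Agent.CXD.t9X10_X11_nearc hz hT) (by norm_num) (by norm_num)
  have h0 : QXS 9 10 11 x0 := qxS_pt (by norm_num) (by norm_num) (by norm_num) hT hX Pool.Agent.Helper81.TK.E_9_10_11_mid.T ⟨rfl, by norm_num, by norm_num⟩ (hasP (N := 10) (by decide +kernel)) (hasP (N := 11) (by decide +kernel)) n0_2
    (by norm_num) (by norm_num) (by norm_num) (FarI_two (p := 9) (lo := 475692710641009) (hi := 534802455750246) (by norm_num) (by norm_num) (by norm_num [ln0]) (by norm_num [ln1]) (by norm_num)) (by norm_num) (by norm_num)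
  have n1_0 : TCellU 9 11 10 x0 0 ((14073748835532 : ℕ) / 2 ^ 48) := tcu_sub (Pool.Agent.CXD.t9X11X10_neara hz (thr_mir hT)) (by norm_num) le_rfl
  have n1_1 : TCellU 9 11 10 x0 0 ((122160139892424 : ℕ) / 2 ^ 48) := tcu_join n1_0 (Pool.Agent.CXD.t9X11X10_nearb hz (thr_mir hT)) (by norm_num) (by norm_num)
  have h1 : QXS 9 11 10 x0 := qxS_pt (by norm_num) (by norm_num) (by norm_num) (thr_mir hT) hX Pool.Agent.Helper81.TK.E_9_11_10_mid.T ⟨rfl, by norm_num, by norm_num⟩ (hasP (N := 11) (by decide +kernel)) (hasP (N := 10) (by decide +kernel)) n1_1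
    (by norm_num) (by norm_num) (by norm_num) (FarI_two (p := 9) (lo := 475692710641009) (hi := 534802455750246) (by norm_num) (by norm_num) (by norm_num [ln0]) (by norm_num [ln1]) (by norm_num)) (by norm_num) (by norm_num)
  exact zf_QS (by norm_num) (by norm_num) (by norm_num) (by norm_num) hT h0 h1.rot2

/-- the triple `(9, 11, 11)` -/
theorem hd_9_11_11 : FinAt 9 11 11 := by
  refine z_9_11_11 fun x0 hX0 hT => ?_
  have hX : |2 ^ 48 * x0 - (-((516087294570829 : ℕ) : ℝ))| ≤ ((64 : ℕ) : ℝ) := by simpa using hX0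
  have hz := zvX hX
  have n0_0 : TCellU 9 11 11 x0 0 ((4004544493664 : ℕ) / 2 ^ 48) := tcu_sub (Pool.Agent.CXD.t9X11X11_neara hz hT) (by norm_num) le_rfl
  have n0_1 : TCellU 9 11 11 x0 0 ((19656804998588 : ℕ) / 2 ^ 48) := tcu_join n0_0 (Pool.Agent.CXD.t9X11X11_nearb hz hT) (by norm_num) (by norm_num)
  have n0_2 : TCellU 9 11 11 x0 0 ((122160139892424 : ℕ) / 2 ^ 48) := tcu_join n0_1 (Pool.Agent.CXD.t9X11X11_nearc hz hT) (by norm_num) (by norm_num)
  have h0 : QXS 9 11 11 x0 := qxS_pt (by norm_num) (by norm_num) (by norm_num) hT hX Pool.Agent.Helper81.TK.E_9_11_11_mid.T ⟨rfl, by norm_num, by norm_num⟩ (hasP (N := 11) (by decide +kernel)) (hasP (N := 11) (by decide +kernel)) n0_2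
    (by norm_num) (by norm_num) (by norm_num) (FarI_two (p := 9) (lo := 475692710641009) (hi := 534802455750246) (by norm_num) (by norm_num) (by norm_num [ln0]) (by norm_num [ln1]) (by norm_num)) (by norm_num) (by norm_num)
  exact zf_QS2 (by norm_num) (by norm_num) (by norm_num) hT h0

end Pool.Agent.Helper81.HD
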