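import Pool.Agent.Helper81.MIT.Top7
import Pool.Agent.Helper81.HD.T9
import Pool.Agent.Helper81.HD.R9_10
import Pool.Agent.Helper81.HD.R9_11
import Pool.Agent.Helper81.HD.R9_12

/-!
The exceptional orders of the class `9`: single triples and rows.
-/

set_option autoImplicit false
noncomputable section
namespace Pool.Agent.Helper81.HD

open Pool.Agent.Helper81.MIT
open Pool.Agent.Helper30.W2 (Dt inT)

theorem hds_9 : HDS 9 := by
  intro q r hq hpq hqr h
  obtain ⟨t, ht, hi⟩ := h
  simp only [Dt, List.mem_cons, List.not_mem_nil, or_false] at ht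
  rcases ht with rfl | rfl | rfl
  · have k := inT_b hi
    rcases (by omega : (q = 10 ∧ r = 10) ∨ (q = 10 ∧ r = 11)) with ⟨rfl, rfl⟩ | ⟨rfl, rfl⟩
    · exact hd_9_10_10
    · exact hd_9_10_11
  · have k := inT_b hi
    rcases (by omega : (q = 11 ∧ r = 11)) with ⟨rfl, rfl⟩
    · exact hd_9_11_11
  · have k := inT_b hi
    rcases (by omega : q = 10 ∨ q = 11 ∨ q = 12) with rfl | rfl | rfl
    · exact R9_10.row_9_10 r (by omega)
    · exact R9_11.row_9_11 r (by omega)
    · exact R9_12.row_9_12 r (by omega)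

end Pool.Agent.Helper81.HD
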